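import Mathlib

/-!
Convergence in the mean square: closure properties and mollifiers.
-/

open MeasureTheory Set Filter Topology ContinuousLinearMap
open scoped ENNReal Convolution ContDiff

noncomputable section

namespace Pool.Agent.Lib.MP_e2ef7e_al.Gen.Apx

section Z

variable {X : Type} [MeasurableSpace X] {μ : Measure X} {H : Type} [NormedAddCommGroup H]

lemma norm2 (f : X → H) : eLpNorm f 2 μ = (∫⁻ x, ‖f x‖ₑ ^ (2 : ℝ) ∂μ) ^ (1 / 2 : ℝ) := by
  rw [eLpNorm_eq_lintegral_rpow_enorm_toReal two_ne_zero ENNReal.ofNat_ne_top]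
  rfl

lemma norm2_sq (f : X → H) : ∫⁻ x, ‖f x‖ₑ ^ (2 : ℝ) ∂μ = eLpNorm f 2 μ ^ (2 : ℝ) := by
  rw [norm2, ← ENNReal.rpow_mul]
  norm_num

/-- convergence to zero in the mean square -/
def Z (μ : Measure X) (f : ℕ → X → H) : Prop :=
  (∀ m, AEStronglyMeasurable (f m) μ) ∧ Tendsto (fun m => eLpNorm (f m) 2 μ) atTop (𝓝 0)

lemma Z.add {f g : ℕ → X → H} (hf : Z μ f) (hg : Z μ g) : Z μ fun m x => f m x + g m x :=
  ⟨fun m => (hf.1 m).add (hg.1 m), tendsto_of_tendsto_of_tendsto_of_le_of_le tendsto_const_nhds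
    (by simpa using hf.2.add hg.2) (fun _ => zero_le)
    fun m => eLpNorm_add_le (hf.1 m) (hg.1 m) one_le_two⟩

lemma Z.of_le {f g : ℕ → X → H} (hf : Z μ f) (hg : ∀ m, AEStronglyMeasurable (g m) μ) {C : ℝ}
    (h : ∀ m x, ‖g m x‖ ≤ C * ‖f m x‖) : Z μ g :=
  ⟨hg, tendsto_of_tendsto_of_tendsto_of_le_of_le tendsto_const_nhds
    (by simpa using ENNReal.Tendsto.const_mul hf.2 (Or.inr ENNReal.ofReal_ne_top))
    (fun _ => zero_le)
    fun m => eLpNorm_le_mul_eLpNorm_of_ae_le_mul (Eventually.of_forall (h m)) 2⟩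

lemma Z.sum {κ : Type} [Fintype κ] {f : κ → ℕ → X → H} (hf : ∀ j, Z μ (f j)) :
    Z μ fun m x => ∑ j, f j m x := by
  classical
  suffices h : ∀ s : Finset κ, Z μ fun m x => ∑ j ∈ s, f j m x from h _
  intro s
  induction s using Finset.induction_on with
  | empty => exact ⟨fun _ => by simpa using aestronglyMeasurable_const, by simp⟩
  | insert j s hj ih => simpa only [Finset.sum_insert hj] using (hf j).add ih

variable [NormedSpace ℂ H]

lemma Z.clm {f : ℕ → X → H} (hf : Z μ f) (T : H →L[ℂ] H) : Z μ fun m x => T (f m x) :=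
  hf.of_le (fun m => T.continuous.comp_aestronglyMeasurable (hf.1 m)) fun _ _ => T.le_opNorm _

lemma Z.dct {T : ℕ → H →L[ℂ] H} {C : ℝ} (hT : ∀ n w, ‖T n w‖ ≤ C * ‖w‖)
    (h0 : ∀ w, Tendsto (fun n => T n w) atTop (𝓝 0)) {f : X → H} (hf : MemLp f 2 μ) :
    Z μ fun n x => T n (f x) := by
  have h1 : ∀ n, AEStronglyMeasurable (fun x => T n (f x)) μ := fun n =>
    (T n).continuous.comp_aestronglyMeasurable hf.1
  refine ⟨h1, ?_⟩
  have h2 := tendsto_lintegral_of_dominated_convergence' (μ := μ)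
    (F := fun n x => ‖T n (f x)‖ₑ ^ (2 : ℝ)) (f := fun _ => 0)
    (fun x => ‖(C : ℂ) • f x‖ₑ ^ (2 : ℝ)) (fun n => (h1 n).enorm.pow_const _)
    (fun n => Eventually.of_forall fun x => ENNReal.rpow_le_rpow (enorm_le_iff_norm_le.2 (by
      rw [norm_smul, Complex.norm_real]
      exact (hT n _).trans (mul_le_mul_of_nonneg_right (le_abs_self C) (norm_nonneg _)))) (by norm_num))
    (by
      rw [norm2_sq]
      exact ENNReal.rpow_ne_top_of_nonneg (by norm_num) (hf.const_smul (C : ℂ)).2.ne)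
    (Eventually.of_forall fun x => by
      simpa [Function.comp_def] using
        ((ENNReal.continuous_rpow_const (y := (2 : ℝ))).tendsto _).comp (h0 (f x)).enorm)
  simp only [norm2]
  simpa [Function.comp_def] using
    ((ENNReal.continuous_rpow_const (y := (1 / 2 : ℝ))).tendsto _).comp h2

end Z

variable {H : Type} [NormedAddCommGroup H] {X : Type} [NormedAddCommGroup X] [NormedSpace ℝ X]
  [FiniteDimensional ℝ X] [MeasurableSpace X] [BorelSpace X] {μ : Measure X} [μ.IsAddHaarMeasure]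

lemma translate {f : X → H} (hf : MemLp f 2 μ) :
    Tendsto (fun y => eLpNorm (fun x => f (x - y) - f x) 2 μ) (𝓝 0) (𝓝 0) := by
  let g : C(X, C(X, X)) := ContinuousMap.curry ⟨fun p : X × X => p.2 - p.1, by fun_prop⟩
  have hg : ∀ y, MeasurePreserving (g y) μ μ := fun y => measurePreserving_sub_right μ y
  have h1 := (continuous_const (y := hf.toLp f).compMeasurePreservingLp g.continuous hg
    ENNReal.ofNat_ne_top).tendsto 0
  rw [Lp.tendsto_Lp_iff_tendsto_eLpNorm'] at h1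
  have h2 : ∀ y, Lp.compMeasurePreserving (g y) (hg y) (hf.toLp f) =ᵐ[μ] fun x => f (x - y) :=
    fun y => (Lp.coeFn_compMeasurePreserving _ _).trans
      ((hg y).quasiMeasurePreserving.ae_eq_comp hf.coeFn_toLp)
  refine h1.congr fun y => eLpNorm_congr_ae ?_
  filter_upwards [h2 y, h2 0] with x a b
  rw [Pi.sub_apply, a, b, sub_zero]

variable [NormedSpace ℝ H] [CompleteSpace H]

lemma moll_le (φ : ContDiffBump (0 : X)) {f : X → H} (hf : MemLp f 2 μ) {η : ℝ≥0∞}
    (h : ∀ y, ‖y‖ < φ.rOut → eLpNorm (fun x => f (x - y) - f x) 2 μ ≤ η) :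
    eLpNorm (fun x => (φ.normed μ ⋆[lsmul ℝ ℝ, μ] f) x - f x) 2 μ ≤ η := by
  set ρ : X → ℝ≥0∞ := fun t => ‖φ.normed μ t‖ₑ with hρ
  have r1 : Measurable ρ := φ.continuous_normed.enorm.measurable
  have r2 : ∫⁻ t, ρ t ∂μ = 1 := by
    rw [hρ, ← ofReal_integral_norm_eq_lintegral_enorm φ.integrable_normed]
    simp only [Real.norm_of_nonneg (φ.nonneg_normed _), φ.integral_normed, ENNReal.ofReal_one]
  have h1 : ∀ x, ‖(φ.normed μ ⋆[lsmul ℝ ℝ, μ] f) x - f x‖ₑ ^ (2 : ℝ) ≤
      ∫⁻ t, ρ t * ‖f (x - t) - f x‖ₑ ^ (2 : ℝ) ∂μ := fun x => by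
    have a1 : Integrable (fun t => φ.normed μ t • f (x - t)) μ :=
      φ.hasCompactSupport_normed.convolutionExists_left (lsmul ℝ ℝ) φ.continuous_normed
        (hf.locallyIntegrable one_le_two) x
    have a2 : (φ.normed μ ⋆[lsmul ℝ ℝ, μ] f) x - f x =
        ∫ t, φ.normed μ t • (f (x - t) - f x) ∂μ := by
      simp only [smul_sub]
      rw [integral_sub a1 (φ.integrable_normed.smul_const _), φ.integral_normed_smul,
        convolution_lsmul]
    have a3 : AEMeasurable (fun t => ‖f (x - t) - f x‖ₑ) μ :=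
      ((hf.1.comp_quasiMeasurePreserving (quasiMeasurePreserving_sub_left μ x)).sub
        aestronglyMeasurable_const).enorm
    have a4 := ENNReal.lintegral_mul_norm_pow_le r1.aemeasurable
      (r1.aemeasurable.mul (a3.pow_const (2 : ℝ))) (p := 1 / 2) (q := 1 / 2) (by norm_num)
      (by norm_num) (by norm_num)
    rw [r2, ENNReal.one_rpow, one_mul] at a4
    have a5 : ‖(φ.normed μ ⋆[lsmul ℝ ℝ, μ] f) x - f x‖ₑ ≤
        (∫⁻ t, ρ t * ‖f (x - t) - f x‖ₑ ^ (2 : ℝ) ∂μ) ^ (1 / 2 : ℝ) := by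
      rw [a2]
      refine (enorm_integral_le_lintegral_enorm _).trans (le_trans (le_of_eq ?_) a4)
      refine lintegral_congr fun t => ?_
      rw [enorm_smul, Pi.mul_apply, ENNReal.mul_rpow_of_nonneg _ _ (by norm_num), ← mul_assoc,
        ← ENNReal.rpow_add_of_nonneg _ _ (by norm_num) (by norm_num), ← ENNReal.rpow_mul]
      norm_num [hρ]
    refine (ENNReal.rpow_le_rpow a5 (by norm_num)).trans_eq ?_
    rw [← ENNReal.rpow_mul]
    norm_num
  have h2 : AEMeasurable (Function.uncurry fun x t => ρ t * ‖f (x - t) - f x‖ₑ ^ (2 : ℝ))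
      (μ.prod μ) := (r1.comp measurable_snd).aemeasurable.mul
    (((hf.1.comp_quasiMeasurePreserving (quasiMeasurePreserving_sub μ μ)).sub
      hf.1.comp_fst).enorm.pow_const _)
  rw [← ENNReal.rpow_le_rpow_iff (show (0 : ℝ) < 2 by norm_num), ← norm2_sq]
  refine (lintegral_mono h1).trans ?_
  rw [lintegral_lintegral_swap h2, ← one_mul (η ^ (2 : ℝ)), ← r2, ← lintegral_mul_const _ r1]
  refine lintegral_mono fun t => ?_
  rw [lintegral_const_mul' _ _ enorm_ne_top, norm2_sq]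
  by_cases ht : ‖t‖ < φ.rOut
  · exact mul_le_mul_right (ENNReal.rpow_le_rpow (h t ht) (by norm_num)) _
  · have : φ.normed μ t = 0 := by
      rwa [← Function.notMem_support, φ.support_normed_eq, mem_ball_zero_iff]
    simp [hρ, this]

lemma Z.moll {φ : ℕ → ContDiffBump (0 : X)} (hφ : Tendsto (fun m => (φ m).rOut) atTop (𝓝 0))
    {f : X → H} (hf : MemLp f 2 μ) :
    Z μ fun m x => ((φ m).normed μ ⋆[lsmul ℝ ℝ, μ] f) x - f x := by
  refine ⟨fun m => ((φ m).hasCompactSupport_normed.continuous_convolution_left _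
    (φ m).continuous_normed (hf.locallyIntegrable one_le_two)).aestronglyMeasurable.sub hf.1,
    ENNReal.tendsto_nhds_zero.2 fun η hη => ?_⟩
  obtain ⟨δ, hδ, h1⟩ := Metric.eventually_nhds_iff.1
    (ENNReal.tendsto_nhds_zero.1 (translate hf) η hη)
  filter_upwards [hφ.eventually (gt_mem_nhds hδ)] with m hm
  exact moll_le _ hf fun y hy => h1 (by rw [dist_zero_right]; exact hy.trans hm)

omit [CompleteSpace H] in
lemma fderiv_moll {ρ : X → ℝ} (h1 : HasCompactSupport ρ) (h2 : ContDiff ℝ ∞ ρ) {f : X → H}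
    (hf : LocallyIntegrable f μ) (x v : X) :
    fderiv ℝ (ρ ⋆[lsmul ℝ ℝ, μ] f) x v = ∫ y, fderiv ℝ ρ (x - y) v • f y ∂μ := by
  rw [(h1.hasFDerivAt_convolution_left (lsmul ℝ ℝ) (h2.of_le (by simp)) hf x).fderiv,
    convolution_eq_swap, ContinuousLinearMap.integral_apply
      ((h1.fderiv ℝ).convolutionExists_left ((lsmul ℝ ℝ).precompL X)
        (h2.continuous_fderiv (by simp)) hf x).integrable_swap]
  rfl

end Pool.Agent.Lib.MP_e2ef7e_al.Gen.Apx
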