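import Pool.Agent.Lib.MP_e2ef7e_al.H91ApxB
import Pool.Agent.Lib.MP_e2ef7e_al.H91ApxC

/-!
Friedrichs approximation lemma.
-/

open MeasureTheory Complex Set Filter Topology
open scoped ComplexConjugate InnerProductSpace ContDiff ENNReal Convolution

noncomputable section

namespace Pool.Agent.Lib.MP_e2ef7e_al.Gen

variable {ι : Type} [Fintype ι] [DecidableEq ι] {L : LieD ι}
  {H : Type} [NormedAddCommGroup H] [InnerProductSpace ℂ H] [CompleteSpace H]
  {X : Type} [NormedAddCommGroup X] [NormedSpace ℝ X] [FiniteDimensional ℝ X]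
  [MeasurableSpace X] [BorelSpace X]

open Apx

omit [FiniteDimensional ℝ X] in
lemma Apx.weak_vec {R : Rep L H} {μ : Measure X} [μ.IsAddHaarMeasure] {κ : Type} [Fintype κ]
    {G : κ → X → H} (hG : ∀ j, LocallyIntegrable (G j) μ) {v : κ → X} {a : κ → X → ι → ℂ}
    (hF : ∀ i j, LocallyIntegrable (fun x => a j x i • G j x) μ) {h : X → H}
    (hh : LocallyIntegrable h μ) {θ : X → ℂ} (h1 : ContDiff ℝ ∞ θ) (h2 : HasCompactSupport θ) {ψ : H}
    (weak : ∑ j, ∫ x, (pd θ (v j) x * ⟪ψ, G j x⟫_ℂ - θ x * ⟪R.dU (star (a j x)) ψ, G j x⟫_ℂ) ∂μ =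
      -∫ x, θ x * ⟪ψ, h x⟫_ℂ ∂μ) :
    ∑ i, ⟪gen (R.E i) ψ, ∑ j, ∫ x, θ x • a j x i • G j x ∂μ⟫_ℂ =
      ⟪ψ, ∫ x, θ x • h x ∂μ + ∑ j, ∫ x, pd θ (v j) x • G j x ∂μ⟫_ℂ := by
  have key : ∀ {k : X → ℂ}, Continuous k → HasCompactSupport k → ∀ {f : X → H},
      LocallyIntegrable f μ → ∀ ζ, Integrable (fun x => k x * ⟪ζ, f x⟫_ℂ) μ ∧
        ⟪ζ, ∫ x, k x • f x ∂μ⟫_ℂ = ∫ x, k x * ⟪ζ, f x⟫_ℂ ∂μ := by
    intro k k1 k2 f hf ζ
    have := hf.integrable_smul_left_of_hasCompactSupport k1 k2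
    refine ⟨by simpa only [inner_smul_right] using this.const_inner (𝕜 := ℂ) ζ, ?_⟩
    rw [← integral_inner this]
    simp only [inner_smul_right]
  have d1 : ∀ j, Continuous (pd θ (v j)) := fun j =>
    (h1.continuous_fderiv (by simp)).clm_apply continuous_const
  have d2 : ∀ j, HasCompactSupport (pd θ (v j)) := fun j => h2.fderiv_apply ℝ (v j)
  have e : ∀ j, (fun x => θ x * ⟪R.dU (star (a j x)) ψ, G j x⟫_ℂ) =
      fun x => ∑ i, θ x * ⟪gen (R.E i) ψ, a j x i • G j x⟫_ℂ := fun j => funext fun x => by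
    simp only [Rep.inner_dU_left, inner_smul_right, Finset.mul_sum]
  rw [Finset.sum_congr rfl fun j _ => integral_sub (key (d1 j) (d2 j) (hG j) ψ).1 (by
    rw [e]
    exact integrable_finsetSum _ fun i _ => (key h1.continuous h2 (hF i j) _).1),
    Finset.sum_sub_distrib] at weak
  simp only [e] at weak
  rw [Finset.sum_congr rfl fun j _ => integral_finsetSum _ fun i _ =>
    (key h1.continuous h2 (hF i j) _).1, Finset.sum_comm] at weak
  simp only [inner_add_right, inner_sum, (key h1.continuous h2 hh _).2,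
    fun i j => (key h1.continuous h2 (hF i j) (gen (R.E i) ψ)).2,
    fun j => (key (d1 j) (d2 j) (hG j) ψ).2]
  linear_combination -weak

/-- Friedrichs approximation lemma -/
theorem approx (R : Rep L H) (μ : Measure X) [μ.IsAddHaarMeasure] {α κ : Type} [Fintype α]
    [Fintype κ] {K U : Set X} (hK : IsCompact K) (hU : IsOpen U) (hKU : K ⊆ U)
    (G : κ → X → H) (hG : ∀ j, MemLp (G j) 2 μ) (hGK : ∀ j x, x ∉ K → G j x = 0)
    (v : α → κ → X) (a : α → κ → X → ι → ℂ) (ha : ∀ q j, Continuous (a q j))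
    (h : α → X → H) (hh : ∀ q, MemLp (h q) 2 μ)
    (weak : ∀ q (θ : X → ℂ), ContDiff ℝ ∞ θ → HasCompactSupport θ → ∀ ψ ∈ R.Dinf,
      ∑ j, ∫ x, (pd θ (v q j) x * ⟪ψ, G j x⟫_ℂ - θ x * ⟪R.dU (star (a q j x)) ψ, G j x⟫_ℂ) ∂μ =
        -∫ x, θ x * ⟪ψ, h q x⟫_ℂ ∂μ)
    {δ : ℝ≥0∞} (hδ : 0 < δ) :
    ∃ G' : κ → X → H, (∀ j, G' j ∈ R.Sm ∧ HasCompactSupport (G' j) ∧ tsupport (G' j) ⊆ U) ∧
      (∀ j, eLpNorm (fun x => G' j x - G j x) 2 μ ≤ δ) ∧
      ∀ q, eLpNorm (fun x => ∑ j, (pd (G' j) (v q j) x - R.dU (a q j x) (G' j x)) - h q x) 2 μ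
        ≤ δ := by
  obtain ⟨C, M, N, K', hSm, hN, hW, hM1, hK1, hM2, hK2⟩ := smoothing R X
  obtain ⟨r, hr, hrU⟩ := hK.exists_cthickening_subset_open hU hKU
  have hK' : IsCompact (Metric.cthickening r K) := hK.cthickening
  have hKK : K ⊆ Metric.cthickening r K := Metric.self_subset_cthickening K
  have ha' : ∀ q j i, Continuous fun x => a q j x i := fun q j i =>
    (continuous_apply i).comp (ha q j)
  choose A hA using fun q j i => hK'.exists_bound_of_continuousOn (ha' q j i).continuousOn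
  have bd : ∀ q j i x (w : H), (x ∉ Metric.cthickening r K → w = 0) →
      ‖a q j x i • w‖ ≤ A q j i * ‖w‖ := fun q j i x w hw => by
    by_cases hx : x ∈ Metric.cthickening r K
    · rw [norm_smul]
      exact mul_le_mul_of_nonneg_right (hA q j i x hx) (norm_nonneg _)
    · simp [hw hx]
  have hF : ∀ q i j, MemLp (fun x => a q j x i • G j x) 2 μ := fun q i j =>
    (hG j).of_le_mul ((ha' q j i).aestronglyMeasurable.smul (hG j).1)
      (Eventually.of_forall fun x => bd q j i x _ fun hx => hGK j x fun h' => hx (hKK h'))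
  have hδ2 : 0 < δ / 2 := ENNReal.half_pos hδ.ne'
  have zM : ∀ {f : X → H}, MemLp f 2 μ → Z μ fun n x => (M n - 1) (f x) := fun hf =>
    Z.dct (C := C + 1) (fun n w => by
      rw [sub_apply, one_apply_eq_self, add_mul, one_mul]
      exact (norm_sub_le _ _).trans (add_le_add_left (hM1 n w) _))
      (fun w => by simpa using (hM2 w).sub_const w) hf
  have z1 := fun j => zM (hG j)
  have z2 := fun q => (zM (hh q)).add (Z.sum fun i => Z.sum fun j =>
    Z.dct (T := fun n => K' n i) (fun n => hK1 n i) (hK2 i) (hF q i j))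
  obtain ⟨n, n1, n2⟩ := ((eventually_all.2 fun j => ENNReal.tendsto_nhds_zero.1 (z1 j).2 _ hδ2).and
    (eventually_all.2 fun q => ENNReal.tendsto_nhds_zero.1 (z2 q).2 _ hδ2)).exists
  let φ : ℕ → ContDiffBump (0 : X) := fun m => ⟨r * (1 / ((m : ℝ) + 1)) / 2, r * (1 / ((m : ℝ) + 1)),
    by positivity, half_lt_self (by positivity)⟩
  have hφ : Tendsto (fun m => (φ m).rOut) atTop (𝓝 0) := by
    simpa only [mul_zero] using tendsto_one_div_add_atTop_nhds_zero_nat.const_mul r
  set cv : ℕ → (X → H) → X → H := fun m f =>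
    (φ m).normed μ ⋆[ContinuousLinearMap.lsmul ℝ ℝ, μ] f with hcv
  have sp : ∀ m j x, x ∉ Metric.cthickening r K → cv m (G j) x = 0 := fun m j x hx => by
    by_contra h'
    obtain ⟨y, hy, z, hz, rfl⟩ := support_convolution_subset _ h'
    rw [(φ m).support_normed_eq, mem_ball_zero_iff] at hy
    refine hx (Metric.mem_cthickening_of_dist_le _ z r K (by_contra fun h'' => hz (hGK j z h'')) ?_)
    rw [dist_eq_norm, add_sub_cancel_right]
    exact hy.le.trans (mul_le_of_le_one_right hr.le (div_le_one_of_le₀ (by simp) (by positivity)))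
  have zc : ∀ {f : X → H}, MemLp f 2 μ → Z μ fun m x => cv m f x - f x := fun hf => Z.moll hφ hf
  have z3 := fun j => (zc (hG j)).clm (M n)
  have z4 := fun q => ((zc (hh q)).clm (M n)).add (Z.sum fun i => Z.sum fun j =>
    ((zc (hF q i j)).clm (N n i + K' n i)).add
      (((zc (hG j)).of_le (g := fun m x => a q j x i • (cv m (G j) x - G j x))
        (fun m => (ha' q j i).aestronglyMeasurable.smul ((zc (hG j)).1 m))
        fun m x => bd q j i x _ fun hx => by
          rw [sp m j x hx, hGK j x fun h' => hx (hKK h'), sub_zero]).clm (-N n i)))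
  obtain ⟨m, m1, m2⟩ := ((eventually_all.2 fun j => ENNReal.tendsto_nhds_zero.1 (z3 j).2 _ hδ2).and
    (eventually_all.2 fun q => ENNReal.tendsto_nhds_zero.1 (z4 q).2 _ hδ2)).exists
  have li : ∀ {f : X → H}, MemLp f 2 μ → LocallyIntegrable f μ := fun hf =>
    hf.locallyIntegrable one_le_two
  have r1 : ContDiff ℝ ∞ ((φ m).normed μ) := (φ m).contDiff_normed
  have r2 := (φ m).hasCompactSupport_normed (μ := μ)
  have sm : ∀ j, ContDiff ℝ ∞ (cv m (G j)) := fun j => r2.contDiff_convolution_left _ r1 (li (hG j))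
  have fin : ∀ {f g k : X → H}, AEStronglyMeasurable f μ → AEStronglyMeasurable g μ →
      eLpNorm f 2 μ ≤ δ / 2 → eLpNorm g 2 μ ≤ δ / 2 → (∀ x, k x = f x + g x) →
      eLpNorm k 2 μ ≤ δ := by
    intro f g k a b c d e
    rw [funext e, ← ENNReal.add_halves δ]
    exact (eLpNorm_add_le a b one_le_two).trans (add_le_add c d)
  refine ⟨fun j x => M n (cv m (G j) x), fun j => ?_, fun j => fin ((z3 j).1 m) ((z1 j).1 n) (m1 j)
    (n1 j) fun x => ?_, fun q => fin ((z4 q).1 m) ((z2 q).1 n) (m2 q) (n2 q) fun x => ?_⟩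
  · have t1 : tsupport (fun x => M n (cv m (G j) x)) ⊆ Metric.cthickening r K :=
      closure_minimal (fun x hx => by_contra fun h' => hx (by simp only [sp m j x h', map_zero]))
        Metric.isClosed_cthickening
    exact ⟨hSm n _ (sm j), hK'.of_isClosed_subset (isClosed_tsupport _) t1, t1.trans hrU⟩
  · simp only [map_sub, sub_apply, one_apply_eq_self]
    abel
  set θ : X → ℂ := fun y => ((φ m).normed μ (x - y) : ℝ) with hθ
  have t1 : ContDiff ℝ ∞ θ := ofRealCLM.contDiff.comp (r1.comp (contDiff_const.sub contDiff_id))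
  have t2 : HasCompactSupport θ :=
    (r2.comp_homeomorph (Homeomorph.subLeft x)).comp_left (g := fun s : ℝ => (s : ℂ)) ofReal_zero
  have t3 : ∀ f : X → H, ∫ y, θ y • f y ∂μ = cv m f x := fun f => by
    simp only [hcv, hθ, convolution_lsmul_swap, Complex.coe_smul]
  have t4 : ∀ j, M n (∫ y, pd θ (v q j) y • G j y ∂μ) =
      -pd (fun x => M n (cv m (G j) x)) (v q j) x := fun j => by
    have b1 : ∀ y, pd θ (v q j) y = -(fderiv ℝ ((φ m).normed μ) (x - y) (v q j) : ℝ) := fun y => by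
      have : HasFDerivAt θ _ y := ofRealCLM.hasFDerivAt.comp y
        ((r1.differentiable (by simp) (x - y)).hasFDerivAt.comp y ((hasFDerivAt_id y).const_sub x))
      rw [pd, this.fderiv]
      simp
    have b2 : HasFDerivAt (fun x => M n (cv m (G j) x)) _ x :=
      ((M n).restrictScalars ℝ).hasFDerivAt.comp x ((sm j).differentiable (by simp) x).hasFDerivAt
    rw [pd, b2.fderiv]
    simp only [b1, neg_smul, integral_neg, map_neg, Complex.coe_smul,
      ← fderiv_moll r2 r1 (li (hG j))]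
    rfl
  have t5 := hW n _ _ fun ψ hψ => weak_vec (fun j => li (hG j)) (fun i j => li (hF q i j))
    (li (hh q)) t1 t2 (weak q θ t1 t2 ψ hψ)
  simp only [t3, map_add, map_sum, t4, Finset.sum_neg_distrib, Finset.sum_add_distrib] at t5
  simp only [Rep.dU, hN, map_sub, map_smul, sub_apply, add_apply, neg_apply, one_apply_eq_self,
    Finset.sum_sub_distrib, Finset.sum_add_distrib, Finset.sum_neg_distrib, smul_add, smul_sub,
    smul_neg]
  rw [Finset.sum_comm (f := fun j i => a q j x i • N n i (cv m (G j) x))]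
  rw [← sub_eq_zero] at t5 ⊢
  rw [← neg_eq_zero, ← t5]
  abel

end Pool.Agent.Lib.MP_e2ef7e_al.Gen
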