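import Mathlib

/-!
The lemma of du Bois-Reymond for vector valued functions on the line.
-/

open MeasureTheory Set Filter Topology
open scoped ContDiff

noncomputable section

namespace Pool.Agent.Lib.MP_e2ef7e_al.Gen

variable {E : Type} [NormedAddCommGroup E] [NormedSpace ℝ E] [CompleteSpace E]

lemma parts_Iio {B : ℝ → E} (hB : Integrable B) {θ : ℝ → ℝ} (hθ : ContDiff ℝ 1 θ)
    (hc : HasCompactSupport θ) : ∫ x, deriv θ x • ∫ y in Iio x, B y = -∫ y, θ y • B y := by
  have hθ' : Integrable (deriv θ) :=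
    (hθ.continuous_deriv le_rfl).integrable_of_hasCompactSupport hc.deriv
  have hi : Integrable (Function.uncurry fun x y => indicator {z : ℝ × ℝ | z.2 < z.1}
      (fun z => deriv θ z.1 • B z.2) (x, y)) (volume.prod volume) :=
    (hθ'.smul_prod hB).indicator (measurableSet_lt measurable_snd measurable_fst)
  have h := integral_integral_swap hi
  have h1 : ∀ x, ∫ y, indicator {z : ℝ × ℝ | z.2 < z.1} (fun z => deriv θ z.1 • B z.2) (x, y) =
      deriv θ x • ∫ y in Iio x, B y := fun x => by
    rw [← integral_smul, ← integral_indicator measurableSet_Iio]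
    rfl
  have h2 : ∀ y, ∫ x, indicator {z : ℝ × ℝ | z.2 < z.1} (fun z => deriv θ z.1 • B z.2) (x, y) =
      -(θ y • B y) := fun y => by
    rw [← neg_smul, ← hc.integral_Ioi_deriv_eq hθ y, ← integral_smul_const,
      ← integral_indicator measurableSet_Ioi]
    rfl
  simp only [h1, h2] at h
  rw [h, integral_neg]

omit [NormedSpace ℝ E] [CompleteSpace E] in
lemma locInt_intervalIntegrable {B : ℝ → E} (hB : LocallyIntegrable B) (a b : ℝ) :
    IntervalIntegrable B volume a b :=
  (hB.integrableOn_isCompact isCompact_uIcc).intervalIntegrable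

lemma exists_Ioo_of_compactSupport {θ : ℝ → ℝ} (hc : HasCompactSupport θ) :
    ∃ L, 0 < L ∧ tsupport θ ⊆ Ioo (-L) L := by
  obtain ⟨L, hL, h⟩ := hc.isCompact.isBounded.subset_ball_lt 0 0
  exact ⟨L, hL, by simpa [Real.ball_eq_Ioo] using h⟩

lemma parts_prim {B : ℝ → E} (hB : LocallyIntegrable B) {θ : ℝ → ℝ} (hθ : ContDiff ℝ 1 θ)
    (hc : HasCompactSupport θ) :
    ∫ x, deriv θ x • ∫ y in (0 : ℝ)..x, B y = -∫ y, θ y • B y := by
  obtain ⟨L, hL, hs⟩ := exists_Ioo_of_compactSupport hc
  set B1 := indicator (Icc (-L) L) B with hB1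
  have hi : Integrable B1 :=
    (integrable_indicator_iff measurableSet_Icc).2 (hB.integrableOn_isCompact isCompact_Icc)
  have hd := hθ.continuous_deriv le_rfl
  have h := parts_Iio hi hθ hc
  have h1 : ∀ x, deriv θ x • ∫ y in Iio x, B1 y =
      deriv θ x • (∫ y in (0 : ℝ)..x, B y) + deriv θ x • ∫ y in Iio 0, B1 y := fun x => by
    by_cases hx : x ∈ Ioo (-L) L
    · rw [← smul_add, ← sub_add_cancel (∫ y in Iio x, B1 y) (∫ y in Iio 0, B1 y),
        intervalIntegral.integral_Iio_sub_Iio' hi.integrableOn hi.integrableOn]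
      congr 2
      refine intervalIntegral.integral_congr fun y hy => indicator_of_mem ?_ _
      exact uIcc_subset_Icc ⟨by linarith, hL.le⟩ (Ioo_subset_Icc_self hx) hy
    · have : deriv θ x = 0 := by
        by_contra h0
        exact hx (hs (support_deriv_subset h0))
      simp [this]
  have h2 : ∀ y, θ y • B1 y = θ y • B y := fun y => by
    by_cases hy : y ∈ Icc (-L) L
    · rw [hB1, indicator_of_mem hy]
    · rw [image_eq_zero_of_notMem_tsupport fun h0 => hy (Ioo_subset_Icc_self (hs h0))]
      simp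
  have hP := intervalIntegral.continuous_primitive (locInt_intervalIntegrable hB) 0
  have h3 : ∫ x, deriv θ x = 0 :=
    integral_eq_zero_of_hasDerivAt_of_integrable
      (fun x => (hθ.differentiable one_ne_zero x).hasDerivAt)
      (hd.integrable_of_hasCompactSupport hc.deriv)
      (hθ.continuous.integrable_of_hasCompactSupport hc)
  simp only [h1, h2] at h
  rwa [integral_add (hP.locallyIntegrable.integrable_smul_left_of_hasCompactSupport hd hc.deriv)
    ((hd.integrable_of_hasCompactSupport hc.deriv).smul_const _),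
    integral_smul_const, h3, zero_smul, add_zero] at h

lemma exists_prim {ψ : ℝ → ℝ} (hψ : ContDiff ℝ ∞ ψ) (hc : HasCompactSupport ψ)
    (h0 : ∫ x, ψ x = 0) : ∃ θ : ℝ → ℝ, ContDiff ℝ ∞ θ ∧ HasCompactSupport θ ∧ deriv θ = ψ := by
  obtain ⟨L, hL, hs⟩ := exists_Ioo_of_compactSupport hc
  have hd : deriv (fun x => ∫ y in (-L)..x, ψ y) = ψ :=
    funext fun x => hψ.continuous.deriv_integral _ _ _
  refine ⟨fun x => ∫ y in (-L)..x, ψ y, contDiff_infty_iff_deriv.2 ⟨fun x =>
    (hψ.continuous.integral_hasStrictDerivAt _ _).hasDerivAt.differentiableAt, by rwa [hd]⟩,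
    HasCompactSupport.intro (isCompact_Icc (a := -L) (b := L)) fun x hx => ?_, hd⟩
  rcases lt_or_ge x (-L) with h | h
  · rw [intervalIntegral.integral_congr (g := fun _ => 0) fun y hy => ?_]
    · simp
    · refine image_eq_zero_of_notMem_tsupport fun h1 => ?_
      rw [uIcc_of_ge h.le] at hy
      exact absurd (hs h1).1 (not_lt.2 hy.2)
  · have hx' : L < x := by
      by_contra h2
      exact hx ⟨h, not_lt.1 h2⟩
    rw [intervalIntegral.integral_eq_integral_of_support_subset, h0]
    exact fun y hy => ⟨(hs (subset_tsupport _ hy)).1, (hs (subset_tsupport _ hy)).2.le.trans hx'.le⟩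

lemma dbr0 {R : ℝ → E} (hR : LocallyIntegrable R)
    (h : ∀ θ : ℝ → ℝ, ContDiff ℝ ∞ θ → HasCompactSupport θ → ∫ x, deriv θ x • R x = 0) :
    ∃ c, ∀ᵐ x, R x = c := by
  let f : ContDiffBump (0 : ℝ) := ⟨1, 2, one_pos, one_lt_two⟩
  have a1 : ContDiff ℝ ∞ (f.normed volume) := f.contDiff_normed
  have a2 : HasCompactSupport (f.normed volume) := f.hasCompactSupport_normed
  have a3 : ∫ x, f.normed volume x = 1 := f.integral_normed
  generalize f.normed volume = θ0 at a1 a2 a3
  refine ⟨∫ x, θ0 x • R x, ae_eq_of_integral_contDiff_smul_eq hR (locallyIntegrable_const _)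
    fun g hg hc => ?_⟩
  have i1 := hg.continuous.integrable_of_hasCompactSupport (μ := volume) hc
  have i2 := a1.continuous.integrable_of_hasCompactSupport (μ := volume) a2
  obtain ⟨θ, b1, b2, b3⟩ := exists_prim (ψ := fun x => g x - (∫ y, g y) * θ0 x)
    (hg.sub (contDiff_const.mul a1)) (hc.sub a2.mul_left) (by
      rw [integral_sub i1 (i2.const_mul _), integral_const_mul, a3, mul_one, sub_self])
  have := h θ b1 b2
  simp only [b3, sub_smul, mul_smul] at this
  have i3 : Integrable fun x => (∫ y, g y) • θ0 x • R x :=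
    (hR.integrable_smul_left_of_hasCompactSupport a1.continuous a2).smul _
  rw [integral_sub (hR.integrable_smul_left_of_hasCompactSupport hg.continuous hc) i3,
    integral_smul, sub_eq_zero] at this
  rw [this, integral_smul_const]

lemma dbr {R B : ℝ → E} (hR : LocallyIntegrable R) (hB : LocallyIntegrable B)
    (h : ∀ θ : ℝ → ℝ, ContDiff ℝ ∞ θ → HasCompactSupport θ →
      ∫ x, deriv θ x • R x = -∫ x, θ x • B x) :
    ∃ c, ∀ᵐ x, R x = c + ∫ y in (0 : ℝ)..x, B y := by
  have hP := (intervalIntegral.continuous_primitive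
    (locInt_intervalIntegrable hB) 0).locallyIntegrable (μ := volume)
  obtain ⟨c, hc⟩ := dbr0 (hR.sub hP) fun θ h1 h2 => by
    have hd := h1.continuous_deriv (by simp)
    simp only [Pi.sub_apply, smul_sub]
    rw [integral_sub (hR.integrable_smul_left_of_hasCompactSupport hd h2.deriv)
      (hP.integrable_smul_left_of_hasCompactSupport hd h2.deriv), h θ h1 h2,
      parts_prim hB (h1.of_le (by simp)) h2, sub_self]
  exact ⟨c, hc.mono fun x hx => eq_add_of_sub_eq hx⟩

omit [CompleteSpace E] in
lemma norm_prim_le {f : ℝ → E} {g : ℝ → ℝ} (hg : Integrable g) (h0 : ∀ y, 0 ≤ g y) {x : ℝ}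
    (h : ∀ y, |y| ≤ |x| → ‖f y‖ ≤ g y) : ‖∫ y in (0 : ℝ)..x, f y‖ ≤ ∫ y, g y := by
  rw [intervalIntegral.norm_integral_eq_norm_integral_uIoc]
  refine (norm_integral_le_of_norm_le hg.integrableOn ?_).trans
    (setIntegral_le_integral hg (Eventually.of_forall h0))
  refine (ae_restrict_mem measurableSet_uIoc).mono fun y hy => h y ?_
  simpa using abs_sub_left_of_mem_uIcc (uIoc_subset_uIcc hy)

end Pool.Agent.Lib.MP_e2ef7e_al.Gen
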