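import Pool.Agent.Lib.MP_e2ef7e_al.BdryGr
import Pool.Agent.Lib.MP_e2ef7e_al.BdryDbr

/-!
Boundary values: weak solutions of exponential growth give strip functions after smoothing.
-/

open MeasureTheory Complex Set Filter Topology
open scoped ComplexConjugate InnerProductSpace ContDiff ENNReal

noncomputable section

namespace Pool.Agent.Lib.MP_e2ef7e_al.Gen

section aux

variable {H : Type} [NormedAddCommGroup H] [InnerProductSpace ℂ H] {u : ℝ → H ≃ₗᵢ[ℂ] H}

lemma OneP.hol (hu : OneP u) {f : ℝ → H} {z : ℂ} (hd : Dom u (f z.im))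
    (hf : HasDerivAt f (I • gen u (f z.im)) z.im) :
    HasDerivAt (fun z : ℂ => u z.re (f z.im)) (u z.re (gen u (f z.im))) z := by
  set v := f z.im with hv
  set g := gen u v with hg
  have tre : Tendsto re (𝓝 0) (𝓝 0) := continuous_re.tendsto' 0 0 rfl
  have tim : Tendsto Complex.im (𝓝 0) (𝓝 0) := continuous_im.tendsto' 0 0 rfl
  have T1 : (fun h : ℂ => u (z.re + h.re) (f (z.im + h.im) - v - h.im • I • g)) =o[𝓝 0]
      fun h => h := by
    have := ((hasDerivAt_iff_isLittleO_nhds_zero.1 hf).comp_tendsto tim).trans_isBigO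
      (imCLM.isBigO_id _)
    refine Asymptotics.isLittleO_norm_left.1 ?_
    simp only [LinearIsometryEquiv.norm_map]
    exact this.norm_left
  have T2 : (fun h : ℂ => u z.re (u h.re v - v - h.re • g)) =o[𝓝 0] fun h => h := by
    have := ((hasDerivAt_iff_isLittleO_nhds_zero.1 hd.hasDerivAt0).comp_tendsto tre).trans_isBigO
      (reCLM.isBigO_id _)
    refine Asymptotics.isLittleO_norm_left.1 ?_
    simp only [LinearIsometryEquiv.norm_map]
    simp only [zero_add, hu.zero] at this
    exact this.norm_left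
  have T3 : (fun h : ℂ => (h.im * I : ℂ) • u z.re (u h.re g - g)) =o[𝓝 0] fun h => h := by
    have a : (fun h : ℂ => (h.im * I : ℂ)) =O[𝓝 0] fun h => h :=
      Asymptotics.isBigO_of_le _ fun h => by simpa using abs_im_le_norm h
    have b : (fun h : ℂ => u z.re (u h.re g - g)) =o[𝓝 0] fun _ => (1 : ℂ) := by
      rw [Asymptotics.isLittleO_one_iff]
      have := hu.cont g
      exact Continuous.tendsto' (by fun_prop) _ _ (by simp [hu.zero])
    simpa using a.smul_isLittleO b
  refine hasDerivAt_iff_isLittleO_nhds_zero.2 (((T1.add T2).add T3).congr_left fun h => ?_)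
  simp only [← Complex.coe_smul, map_sub, map_smul, ← hu.add, add_re, add_im]
  conv_rhs => rw [← re_add_im h]
  simp only [add_re, add_im, ofReal_re, ofReal_im, mul_re, mul_im, I_re, I_im, mul_zero, mul_one,
    sub_zero, add_zero, zero_add]
  module

lemma norm_rhs_le (x : ℝ) (v : H) :
    ‖(I * Real.sin (sx x)) • (Res u v - v)‖ ≤ Real.sin (sx x) * (2 * ‖v‖) := by
  rw [norm_smul, norm_mul, norm_I, one_mul, norm_real, Real.norm_of_nonneg (sin_sx_pos x).le]
  have := norm_Res_le (u := u) v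
  exact mul_le_mul_of_nonneg_left ((norm_sub_le _ _).trans (by linarith)) (sin_sx_pos x).le

lemma continuous_coef : Continuous fun x => I * (Real.sin (sx x) : ℂ) := by
  have := continuous_sx
  fun_prop

variable (u) in
/-- classical solutions of the smoothed equation -/
def Sol (G : ℝ → H) : Prop := Continuous G ∧
  ∀ x, HasDerivAt (fun x => Res u (G x)) ((I * Real.sin (sx x)) • (Res u (G x) - G x)) x

lemma Sol.res (hu : OneP u) {G : ℝ → H} (h : Sol u G) : Sol u fun x => Res u (G x) := by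
  refine ⟨hu.continuous_Res.comp h.1, fun x => ?_⟩
  have := ((ResL hu).restrictScalars ℝ).hasFDerivAt.comp_hasDerivAt x (h.2 x)
  refine this.congr_deriv ?_
  simp only [ContinuousLinearMap.coe_restrictScalars', map_smul, map_sub, ResL_apply]

variable [CompleteSpace H]

lemma Sol.growth (hu : OneP u) {G : ℝ → H} (h : Sol u G) {K a : ℝ} (ha : 0 ≤ a)
    (hK : ∀ x, ‖G x‖ ≤ K * Real.exp ((a + 1 / 2) * |x|)) (x : ℝ) :
    ‖Res u (G x)‖ ≤ (1 + 32 * Real.pi) * K * Real.exp (a * |x|) := by
  have h0 : ‖G 0‖ ≤ K := by simpa using hK 0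
  have hK0 : 0 ≤ K := (norm_nonneg _).trans h0
  have hc : Continuous fun x => (I * Real.sin (sx x)) • (Res u (G x) - G x) :=
    continuous_coef.smul ((hu.continuous_Res.comp h.1).sub h.1)
  have h1 := intervalIntegral.integral_eq_sub_of_hasDerivAt (a := 0) (b := x)
    (fun y _ => h.2 y) (hc.intervalIntegrable _ _)
  have h2 := norm_prim_le (f := fun x => (I * Real.sin (sx x)) • (Res u (G x) - G x)) (x := x)
    (integrable_inv_one_add_sq.const_mul (32 * K * Real.exp (a * |x|)))
    (fun y => by positivity) fun y hy => by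
      have e1 : Real.exp (-|y|) * Real.exp ((a + 1 / 2) * |y|) =
          Real.exp (a * |y|) * (Real.exp (|y| / 2))⁻¹ := by
        rw [← Real.exp_neg, ← Real.exp_add, ← Real.exp_add]; congr 1; ring
      have e2 : (Real.exp (|y| / 2))⁻¹ ≤ 8 * (1 + y ^ 2)⁻¹ := by
        have := Real.quadratic_le_exp_of_nonneg (x := |y| / 2) (by positivity)
        rw [← div_eq_mul_inv, inv_eq_one_div, div_le_div_iff₀ (by positivity) (by positivity)]
        rw [div_pow, sq_abs] at this
        have := abs_nonneg y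
        linarith
      have e3 : Real.exp (a * |y|) ≤ Real.exp (a * |x|) := by gcongr
      calc _ ≤ Real.sin (sx y) * (2 * ‖G y‖) := norm_rhs_le y _
        _ ≤ 2 * Real.exp (-|y|) * (2 * (K * Real.exp ((a + 1 / 2) * |y|))) := by
          gcongr
          · exact sin_sx_le y
          · exact hK y
        _ = 4 * K * (Real.exp (a * |y|) * (Real.exp (|y| / 2))⁻¹) := by rw [← e1]; ring
        _ ≤ 4 * K * (Real.exp (a * |x|) * (8 * (1 + y ^ 2)⁻¹)) := by gcongr
        _ = _ := by ring
  rw [h1, integral_const_mul, integral_univ_inv_one_add_sq] at h2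
  have h3 : 1 ≤ Real.exp (a * |x|) := Real.one_le_exp (by positivity)
  have h4 := (norm_Res_le (u := u) (G 0)).trans h0
  have h5 := norm_le_norm_sub_add (Res u (G x)) (Res u (G 0))
  nlinarith

lemma Sol.iter (hu : OneP u) (k : ℕ) {G : ℝ → H} {K : ℝ} (h : Sol u G)
    (hK : ∀ x, ‖G x‖ ≤ K * Real.exp (k / 2 * |x|)) : Sol u (fun x => (Res u)^[k] (G x)) ∧
      ∀ x, ‖(Res u)^[k] (G x)‖ ≤ (1 + 32 * Real.pi) ^ k * K := by
  induction k generalizing G K with
  | zero => exact ⟨h, by simpa using hK⟩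
  | succ k ih =>
    have := ih (h.res hu) (h.growth hu (a := k / 2) (K := K) (by positivity) fun x => by
      rw [← add_div]; exact_mod_cast hK x)
    simp only [Function.iterate_succ_apply]
    refine ⟨this.1, fun x => (this.2 x).trans_eq (by ring)⟩

lemma Sol.strip (hu : OneP u) {G : ℝ → H} (h : Sol u G) {K : ℝ} (hK : ∀ x, ‖G x‖ ≤ K) :
    ∃ F : ℂ → H, SF u F ∧ (∀ z ∈ CS, ‖F z‖ ≤ (1 + Real.pi) * K) ∧
      ∀ x : ℝ, F (sx x * I) = Res u (G x) := by
  set D : ℝ → H := fun x => I • (Res u (G x) - G x) with hD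
  have hDc : Continuous D := ((hu.continuous_Res.comp h.1).sub h.1).const_smul I
  have hDb : ∀ x, ‖D x‖ ≤ 2 * K := fun x => by
    have := norm_Res_le (u := u) (G x)
    have := hK x
    rw [hD, norm_smul, norm_I, one_mul]
    exact (norm_sub_le _ _).trans (by linarith)
  have hm : StronglyMeasurable fun r => D (xs r) :=
    hDc.stronglyMeasurable.comp_measurable measurable_xs
  have hi : ∀ a b, IntervalIntegrable (fun r => D (xs r)) volume a b := fun a b =>
    (intervalIntegrable_const (c := 2 * K)).mono_fun' hm.aestronglyMeasurable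
      (Eventually.of_forall fun r => hDb _)
  set f : ℝ → H := fun s => Res u (G 0) + ∫ r in (Real.pi / 2)..s, D (xs r) with hf
  have hfc : Continuous f := continuous_const.add (intervalIntegral.continuous_primitive hi _)
  have hfd : ∀ s, 0 < s → s < Real.pi → HasDerivAt f (D (xs s)) s := fun s h0 h1 =>
    (intervalIntegral.integral_hasDerivAt_right (hi _ _) hm.stronglyMeasurableAtFilter
      (hDc.continuousAt.comp (continuousAt_xs h0 h1))).const_add _
  have hfx : ∀ x, f (sx x) = Res u (G x) := fun x => by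
    have d : ∀ x, HasDerivAt (fun x => f (sx x) - Res u (G x)) 0 x := fun x => by
      refine (((hfd _ (sx_pos x) (sx_lt_pi x)).scomp x (hasDerivAt_sx x)).sub
        (h.2 x)).congr_deriv ?_
      rw [xs_sx, hD, ← Complex.coe_smul, smul_smul, mul_comm, sub_self]
    have := is_const_of_deriv_eq_zero (fun x => (d x).differentiableAt) (fun x => (d x).deriv) x 0
    rw [sx_zero] at this
    simpa [hf, sub_eq_zero] using this
  refine ⟨fun z => u z.re (f z.im), ⟨?_, fun z hz => ?_, fun z _ t => ?_⟩, fun z hz => ?_,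
    fun x => ?_⟩
  · exact (hu.cont2.comp (continuous_re.prodMk (hfc.comp continuous_im))).continuousOn
  · have e : f z.im = Res u (G (xs z.im)) := by rw [← hfx, sx_xs hz.1 hz.2]
    refine (hu.hol (e ▸ (hu.dom_Res _).1) ?_).differentiableAt.differentiableWithinAt
    rw [e, (hu.dom_Res _).2]
    exact hfd _ hz.1 hz.2
  · simp [hu.add, hu.comm]
  · have h1 := intervalIntegral.norm_integral_le_of_norm_le_const (a := Real.pi / 2) (b := z.im)
      (f := fun r => D (xs r)) fun r _ => hDb _
    have h2 : |z.im - Real.pi / 2| ≤ Real.pi / 2 := abs_le.2 ⟨by linarith [hz.1], by linarith [hz.2]⟩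
    have h3 := (norm_Res_le (u := u) (G 0)).trans (hK 0)
    have h4 : 0 ≤ K := (norm_nonneg _).trans (hK 0)
    rw [LinearIsometryEquiv.norm_map]
    refine (norm_add_le _ _).trans ?_
    nlinarith
  · simp [hu.zero, hfx]

lemma exists_Sol (hu : OneP u) {S : Submodule ℂ H} (hS : Dense (S : Set H))
    (hd : ∀ ψ ∈ S, Dom u ψ ∧ ∀ t, u t ψ ∈ S) {Y : ℝ → H} (hY : LocallyIntegrable Y)
    (hw : ∀ θ : ℝ → ℂ, ContDiff ℝ ∞ θ → HasCompactSupport θ → ∀ ψ ∈ S,
      ∫ x, deriv θ x * ⟪ψ, Y x⟫_ℂ = ∫ x, θ x * (I * Real.sin (sx x)) * ⟪gen u ψ, Y x⟫_ℂ) :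
    ∃ c, (∀ᵐ x, Res u (Y x) = c + ∫ y in (0 : ℝ)..x, (I * Real.sin (sx y)) • (Res u (Y y) - Y y)) ∧
      Sol u fun x => c + ∫ y in (0 : ℝ)..x, (I * Real.sin (sx y)) • (Res u (Y y) - Y y) := by
  have hR : LocallyIntegrable fun x => Res u (Y x) :=
    hY.mono (hu.continuous_Res.comp_aestronglyMeasurable hY.aestronglyMeasurable)
      (Eventually.of_forall fun x => norm_Res_le _)
  have hB : LocallyIntegrable fun y => (I * Real.sin (sx y)) • (Res u (Y y) - Y y) :=
    LocallyIntegrable.continuous_smul continuous_coef (hR.sub hY)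
  obtain ⟨c, hc⟩ := dbr hR hB fun θ h1 h2 => by
    refine eq_of_dense_inner (dense_Tg1 hu hS hd) ?_
    rintro _ ⟨ψ, hψ, rfl⟩
    have := hw (fun x => θ x) (ofRealCLM.contDiff.comp h1) (h2.comp_left ofReal_zero) ψ hψ
    rw [inner_neg_right, ← integral_inner (hR.integrable_smul_left_of_hasCompactSupport
      (h1.continuous_deriv (by simp)) h2.deriv), ← integral_inner
      (hB.integrable_smul_left_of_hasCompactSupport h1.continuous h2), ← integral_neg]
    simp only [← Complex.coe_smul, inner_smul_right, inner_sub_right, inner_Tg_Res hu (hd ψ hψ).1]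
    refine Eq.trans ?_ (this.trans ?_)
    · refine integral_congr_ae (Eventually.of_forall fun x => ?_)
      simp only [((h1.differentiable (by simp) x).hasDerivAt.ofReal_comp).deriv]
    · refine integral_congr_ae (Eventually.of_forall fun x => ?_)
      simp only [Tg, inner_add_left]
      ring
  refine ⟨c, hc, ?_⟩
  set G : ℝ → H := fun x => c + ∫ y in (0 : ℝ)..x, (I * Real.sin (sx y)) • (Res u (Y y) - Y y)
    with hG
  have hGc : Continuous G :=
    continuous_const.add (intervalIntegral.continuous_primitive (locInt_intervalIntegrable hB) _)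
  refine ⟨hGc, fun x => ?_⟩
  have key : ∀ x, Res u (G x) =
      Res u c + ∫ y in (0 : ℝ)..x, (I * Real.sin (sx y)) • (Res u (G y) - G y) := fun x => by
    rw [hG, hu.Res_add, ← ResL_apply hu (∫ y in (0 : ℝ)..x, _),
      ← (ResL hu).intervalIntegral_comp_comm (locInt_intervalIntegrable hB _ _)]
    congr 1
    refine intervalIntegral.integral_congr_ae (hc.mono fun y hy _ => ?_)
    simp only [← hy, map_smul, map_sub, ResL_apply]
  have hc' : Continuous fun x => (I * Real.sin (sx x)) • (Res u (G x) - G x) :=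
    continuous_coef.smul ((hu.continuous_Res.comp hGc).sub hGc)
  rw [funext key]
  exact (hc'.integral_hasStrictDerivAt 0 x).hasDerivAt.const_add _

end aux

/-- boundary values -/
theorem boundary (N : ℕ) : ∃ (n : ℕ) (C : ℝ), 0 ≤ C ∧ ∀ {H : Type} [NormedAddCommGroup H]
    [InnerProductSpace ℂ H] [CompleteSpace H] {u : ℝ → H ≃ₗᵢ[ℂ] H} (_ : OneP u)
    {S : Submodule ℂ H} (_ : Dense (S : Set H)) (_ : ∀ ψ ∈ S, Dom u ψ ∧ ∀ t, u t ψ ∈ S)
    (Y : ℝ → H) (M : ℝ) (_ : AEStronglyMeasurable Y volume)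
    (_ : Integrable fun x => Real.exp (-(N * |x|)) * ‖Y x‖)
    (_ : ∫ x, Real.exp (-(N * |x|)) * ‖Y x‖ ≤ M)
    (_ : ∀ θ : ℝ → ℂ, ContDiff ℝ ∞ θ → HasCompactSupport θ → ∀ ψ ∈ S,
      ∫ x, deriv θ x * ⟪ψ, Y x⟫_ℂ = ∫ x, θ x * (I * Real.sin (sx x)) * ⟪gen u ψ, Y x⟫_ℂ),
    ∃ F : ℂ → H, SF u F ∧ (∀ z ∈ CS, ‖F z‖ ≤ C * M) ∧
      ∀ᵐ x : ℝ, F (sx x * I) = (Res u)^[n] (Y x) := by
  refine ⟨2 * N + 1 + 1, (1 + Real.pi) * ((1 + 32 * Real.pi) ^ (2 * N) * (3 * Real.exp N + 2)),
    by positivity, ?_⟩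
  intro H _ _ _ u hu S hS hd Y M hm hi hM hw
  have hM0 : 0 ≤ M := (integral_nonneg fun x => by positivity).trans hM
  have hY : LocallyIntegrable Y := by
    refine (LocallyIntegrable.continuous_mul (g := fun x => Real.exp (N * |x|)) (by fun_prop)
      hi.locallyIntegrable).mono hm (Eventually.of_forall fun x => ?_)
    rw [← mul_assoc, ← Real.exp_add]
    simp
  have hb : ∀ {f : ℝ → H} (A x : ℝ), 0 ≤ A → (∀ y, ‖f y‖ ≤ A * ‖Y y‖) →
      ‖∫ y in (0 : ℝ)..x, f y‖ ≤ A * Real.exp (N * |x|) * M := fun {f} A x hA hf => by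
    refine (norm_prim_le (hi.const_mul (A * Real.exp (N * |x|))) (fun y => by positivity)
      fun y hy => (hf y).trans ?_).trans ?_
    · have : 1 ≤ Real.exp (N * |x|) * Real.exp (-(N * |y|)) := by
        rw [← Real.exp_add]
        refine Real.one_le_exp ?_
        have : (N : ℝ) * |y| ≤ N * |x| := by gcongr
        linarith
      calc A * ‖Y y‖ = A * 1 * ‖Y y‖ := by ring
        _ ≤ A * (Real.exp (N * |x|) * Real.exp (-(N * |y|))) * ‖Y y‖ := by gcongr
        _ = _ := by ring
    · rw [integral_const_mul]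
      gcongr
  obtain ⟨c, hc, hG⟩ := exists_Sol hu hS hd hY hw
  set P : ℝ → H := fun x => ∫ y in (0 : ℝ)..x, (I * Real.sin (sx y)) • (Res u (Y y) - Y y) with hP
  have hPb : ∀ x, ‖P x‖ ≤ 2 * Real.exp (N * |x|) * M := fun x =>
    hb 2 x zero_le_two fun y => (norm_rhs_le y _).trans
      (mul_le_of_le_one_left (by positivity) (Real.sin_le_one _))
  have hcb : ‖c‖ ≤ 3 * Real.exp N * M := by
    have hPc : Continuous P :=
      (hG.1.sub (continuous_const (y := c))).congr fun x => add_sub_cancel_left _ _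
    have e : c = (∫ x in (0 : ℝ)..1, (c + P x)) - ∫ x in (0 : ℝ)..1, P x := by
      rw [intervalIntegral.integral_add intervalIntegrable_const (hPc.intervalIntegrable _ _)]
      simp
    have e2 : ∫ x in (0 : ℝ)..1, (c + P x) = ∫ x in (0 : ℝ)..1, Res u (Y x) :=
      intervalIntegral.integral_congr_ae (hc.mono fun y hy _ => hy.symm)
    have b1 := hb (f := fun x => Res u (Y x)) 1 1 zero_le_one fun y => by
      simpa using norm_Res_le (Y y)
    have b2 := intervalIntegral.norm_integral_le_of_norm_le_const (a := 0) (b := 1) (f := P)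
      (C := 2 * Real.exp N * M) fun x hx => (hPb x).trans (by
        rw [uIoc_of_le zero_le_one] at hx
        have : (N : ℝ) * |x| ≤ N := mul_le_of_le_one_right (by positivity)
          (abs_le.2 ⟨by linarith [hx.1], hx.2⟩)
        gcongr)
    rw [e, e2]
    refine (norm_sub_le _ _).trans ?_
    simp only [abs_one, mul_one, one_mul, sub_zero] at b1 b2
    linarith
  obtain ⟨h1, h2⟩ := hG.iter hu (2 * N) (K := (3 * Real.exp N + 2) * M) fun x => by
    have h3 : 1 ≤ Real.exp (N * |x|) := Real.one_le_exp (by positivity)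
    have h4 := hPb x
    have h5 : 0 ≤ 3 * Real.exp N * M := by positivity
    rw [show ((2 * N : ℕ) : ℝ) / 2 = N by push_cast; ring]
    refine (norm_add_le _ _).trans ?_
    nlinarith
  obtain ⟨F, hF, hFb, hFx⟩ := h1.strip hu h2
  refine ⟨F, hF, fun z hz => (hFb z hz).trans_eq (by ring), hc.mono fun x hx => ?_⟩
  rw [hFx, Function.iterate_succ_apply, Function.iterate_succ_apply', hx]

end Pool.Agent.Lib.MP_e2ef7e_al.Gen
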