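import Pool.Agent.Lib.MP_e2ef7e_al.BdryRes

/-!
The graph of the square root of the modular operator is a closed subspace.
-/

open MeasureTheory Complex Set Filter Topology
open scoped ComplexConjugate InnerProductSpace ContDiff ENNReal

noncomputable section

namespace Pool.Agent.Lib.MP_e2ef7e_al.Gen

variable {H : Type} [NormedAddCommGroup H] [InnerProductSpace ℂ H] {u : ℝ → H ≃ₗᵢ[ℂ] H}

lemma SF_norm_eq {F : ℂ → H} (h : SF u F) {z : ℂ} (hz : z ∈ CS) : ‖F z‖ = ‖F (z.im * I)‖ := by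
  have e : z = z.im * I + z.re := by rw [add_comm, re_add_im]
  conv_lhs => rw [e, h.equi _ (by simpa [CS] using hz), LinearIsometryEquiv.norm_map]

lemma SF_bdd {F : ℂ → H} (h : SF u F) : ∃ C, ∀ z ∈ CS, ‖F z‖ ≤ C := by
  have hc : IsCompact ((fun s : ℝ => (s * I : ℂ)) '' Icc 0 Real.pi) :=
    isCompact_Icc.image (by fun_prop)
  obtain ⟨C, hC⟩ := hc.exists_bound_of_continuousOn (h.cont.mono (by
    rintro _ ⟨s, hs, rfl⟩; simpa [CS] using hs))
  exact ⟨C, fun z hz => by rw [SF_norm_eq h hz]; exact hC _ ⟨z.im, hz, rfl⟩⟩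

lemma SF_norm_le {F : ℂ → H} (h : SF u F) {z : ℂ} (hz : z ∈ CS) :
    ‖F z‖ ≤ max ‖F 0‖ ‖F (Real.pi * I)‖ := by
  obtain ⟨C, hC⟩ := SF_bdd h
  refine PhragmenLindelof.horizontal_strip (a := 0) (b := Real.pi) ⟨h.diff, ?_⟩
    ⟨0, by simp [Real.pi_pos.ne'], 0, ?_⟩ (fun w hw => ?_) (fun w hw => ?_) hz.1 hz.2
  · rw [closure_preimage_im, closure_Ioo Real.pi_pos.ne]
    exact h.cont
  · refine Asymptotics.IsBigO.of_bound C ?_
    refine eventually_inf_principal.2 (Eventually.of_forall fun w hw => ?_)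
    simpa using hC w (OS_subset hw)
  · rw [SF_norm_eq h (by simp [CS, hw, Real.pi_pos.le]), hw]
    simp
  · rw [SF_norm_eq h (by simp [CS, hw, Real.pi_pos.le]), hw]
    exact le_max_right _ _

lemma SF_sub {F G : ℂ → H} (h : SF u F) (h' : SF u G) : SF u fun z => F z - G z :=
  ⟨h.cont.sub h'.cont, h.diff.sub h'.diff, fun z hz t => by
    rw [h.equi z hz, h'.equi z hz, map_sub]⟩

variable (u) in
/-- the graph as a subspace -/
def GrS : Submodule ℂ (H × H) where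
  carrier := {p | Gr u p.1 p.2}
  zero_mem' := ⟨fun _ => 0, ⟨continuousOn_const, differentiableOn_const _, by simp⟩, rfl, rfl⟩
  add_mem' := by
    rintro a b ⟨F, hF, h1, h2⟩ ⟨G, hG, g1, g2⟩
    exact ⟨_, hF.add hG, by simp [h1, g1], by simp [h2, g2]⟩
  smul_mem' := by
    rintro c a ⟨F, hF, h1, h2⟩
    exact ⟨_, hF.smul c, by simp [h1], by simp [h2]⟩

lemma mem_GrS {v w : H} : (v, w) ∈ GrS u ↔ Gr u v w := Iff.rfl

lemma Gr.zero : Gr u 0 0 := (GrS u).zero_mem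

lemma Gr.add {v w v' w' : H} (h : Gr u v w) (h' : Gr u v' w') : Gr u (v + v') (w + w') :=
  (GrS u).add_mem (mem_GrS.2 h) (mem_GrS.2 h')

lemma Gr.sub {v w v' w' : H} (h : Gr u v w) (h' : Gr u v' w') : Gr u (v - v') (w - w') :=
  (GrS u).sub_mem (mem_GrS.2 h) (mem_GrS.2 h')

lemma Gr.smul {v w : H} (h : Gr u v w) (c : ℂ) : Gr u (c • v) (c • w) :=
  (GrS u).smul_mem c (mem_GrS.2 h)

variable [CompleteSpace H]

lemma isClosed_GrS : IsClosed (GrS u : Set (H × H)) := by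
  refine IsSeqClosed.isClosed fun p a hp hlim => ?_
  choose F hF h0 h1 using hp
  have hd : ∀ n m, ∀ z ∈ CS, dist (F n z) (F m z) ≤ dist (p n) (p m) := fun n m z hz => by
    have := SF_norm_le (SF_sub (hF n) (hF m)) hz
    rwa [h0, h0, h1, h1, ← dist_eq_norm, ← dist_eq_norm, ← dist_eq_norm, ← Prod.dist_eq] at this
  have hc : ∀ z ∈ CS, CauchySeq fun n => F n z := fun z hz => by
    have := hlim.cauchySeq
    rw [Metric.cauchySeq_iff] at this ⊢
    intro ε hε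
    obtain ⟨N, hN⟩ := this ε hε
    exact ⟨N, fun m hm n hn => (hd m n z hz).trans_lt (hN m hm n hn)⟩
  set G : ℂ → H := fun z => limUnder atTop fun n => F n z
  have hG : ∀ z ∈ CS, Tendsto (fun n => F n z) atTop (𝓝 (G z)) := fun z hz =>
    (hc z hz).tendsto_limUnder
  have hu : TendstoUniformlyOn F G atTop CS := by
    rw [Metric.tendstoUniformlyOn_iff]
    intro ε hε
    filter_upwards [(Metric.tendsto_nhds.1 hlim) ε hε] with n hn z hz
    rw [dist_comm]
    exact (le_of_tendsto_of_tendsto' (tendsto_const_nhds.dist (hG z hz))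
      (tendsto_const_nhds.dist hlim) fun m => hd n m z hz).trans_lt hn
  refine ⟨G, ⟨hu.continuousOn (Frequently.of_forall fun n => (hF n).cont),
    (hu.mono OS_subset).tendstoLocallyUniformlyOn.differentiableOn
      (Eventually.of_forall fun n => (hF n).diff) isOpen_OS, fun z hz t => ?_⟩, ?_, ?_⟩
  · have hz' : z + t ∈ CS := by simpa [CS] using hz
    refine tendsto_nhds_unique (hG _ hz') ?_
    simp only [fun n => (hF n).equi z hz t]
    exact ((u t).continuous.tendsto _).comp (hG z hz)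
  · refine tendsto_nhds_unique (hG _ (real_mem_CS 0)) ?_
    simp only [h0]
    exact (continuous_fst.tendsto _).comp hlim
  · refine tendsto_nhds_unique (hG _ piI_mem_CS) ?_
    simp only [h1]
    exact (continuous_snd.tendsto _).comp hlim

omit [CompleteSpace H] in
theorem Gr.apply (_hu : OneP u) {v w : H} (h : Gr u v w) (Q : H →L[ℂ] H)
    (hQ : ∀ t x, Q (u t x) = u t (Q x)) : Gr u (Q v) (Q w) := by
  obtain ⟨F, hF, h0, h1⟩ := h
  exact ⟨fun z => Q (F z), ⟨Q.continuous.comp_continuousOn hF.cont,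
    Q.differentiable.comp_differentiableOn hF.diff, fun z hz t => by rw [hF.equi z hz, hQ]⟩,
    by simp only [h0], by simp only [h1]⟩

lemma Gr.gen (hu : OneP u) {v w : H} (h : Gr u v w) (hv : Dom u v) (hw : Dom u w) :
    Gr u (gen u v) (gen u w) := by
  have h1 := (hv.hasDerivAt0.prodMk hw.hasDerivAt0).tendsto_slope_zero
  refine isClosed_GrS.mem_of_tendsto h1 (Eventually.of_forall fun d => ?_)
  refine (GrS u).smul_of_tower_mem _ ((GrS u).sub_mem ?_ ?_)
  · exact h.apply hu (u (0 + d)).toContinuousLinearEquiv.toContinuousLinearMap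
      fun t x => hu.comm _ t x
  · simpa only [hu.zero] using mem_GrS.2 h

theorem Gr.of_Res (hu : OneP u) {v w : H} (h : Gr u (Res u v) (Res u w)) : Gr u v w := by
  have := h.sub (h.gen hu (hu.dom_Res v).1 (hu.dom_Res w).1)
  rwa [(hu.dom_Res v).2, (hu.dom_Res w).2, sub_sub_cancel, sub_sub_cancel] at this

lemma Gr.of_Res_iterate (hu : OneP u) (n : ℕ) {v w : H}
    (h : Gr u ((Res u)^[n] v) ((Res u)^[n] w)) : Gr u v w := by
  induction n with
  | zero => exact h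
  | succ n ih =>
    rw [Function.iterate_succ_apply', Function.iterate_succ_apply'] at h
    exact ih (h.of_Res hu)

omit [CompleteSpace H] in
lemma weak_integral_ext {T : Set H} (hT : Dense T) {φ : ℝ → ℂ}
    (hφ : Continuous φ) (hφc : HasCompactSupport φ) {p : ℝ → H} {C : ℝ}
    (hG : ∀ t, φ t ≠ 0 → ‖p t‖ ≤ C) (hp : ∀ ζ ∈ T, Continuous fun t => φ t * ⟪ζ, p t⟫_ℂ) {v : H}
    (hv : ∀ ζ ∈ T, ⟪ζ, v⟫_ℂ = ∫ t, φ t * ⟪ζ, p t⟫_ℂ) (ζ : H) :
    Integrable (fun t => φ t * ⟪ζ, p t⟫_ℂ) ∧ ⟪ζ, v⟫_ℂ = ∫ t, φ t * ⟪ζ, p t⟫_ℂ := by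
  obtain ⟨A, hA⟩ := hφ.bounded_above_of_compact_support hφc
  have hA0 : 0 ≤ A := (norm_nonneg _).trans (hA 0)
  have hc : Continuous fun z : H × ℝ => φ z.2 * ⟪z.1, p z.2⟫_ℂ := by
    refine continuous_prod_of_dense_continuous_lipschitzWith _ (A * |C|).toNNReal hT hp fun t => ?_
    refine LipschitzWith.of_dist_le' fun x y => ?_
    rw [dist_eq_norm, dist_eq_norm, ← mul_sub, ← inner_sub_left, norm_mul]
    by_cases ht : φ t = 0
    · rw [ht, norm_zero, zero_mul]; positivity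
    · calc ‖φ t‖ * ‖⟪x - y, p t⟫_ℂ‖ ≤ A * (‖x - y‖ * |C|) := by
            gcongr
            · exact hA t
            · exact (norm_inner_le_norm _ _).trans
                (mul_le_mul_of_nonneg_left ((hG t ht).trans (le_abs_self C)) (norm_nonneg _))
        _ = A * |C| * ‖x - y‖ := by ring
  refine ⟨(hc.comp (Continuous.prodMk_right ζ)).integrable_of_hasCompactSupport
    hφc.mul_right, ?_⟩
  refine Dense.induction (P := fun ζ => ⟪ζ, v⟫_ℂ = ∫ t, φ t * ⟪ζ, p t⟫_ℂ) hT hv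
    (isClosed_eq (by fun_prop) ?_) ζ
  rw [← continuousOn_univ]
  refine continuousOn_integral_of_compact_support hφc hc.continuousOn fun x t _ ht => ?_
  rw [image_eq_zero_of_notMem_tsupport ht, zero_mul]

theorem Gr.weak_integral (_hu : OneP u) {T : Set H} (hT : Dense T) {φ : ℝ → ℂ}
    (hφ : Continuous φ) (hφc : HasCompactSupport φ) {p q : ℝ → H} {C : ℝ}
    (hG : ∀ t, φ t ≠ 0 → Gr u (p t) (q t) ∧ ‖p t‖ ≤ C ∧ ‖q t‖ ≤ C)
    (hp : ∀ ζ ∈ T, Continuous fun t => φ t * ⟪ζ, p t⟫_ℂ)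
    (hq : ∀ ζ ∈ T, Continuous fun t => φ t * ⟪ζ, q t⟫_ℂ) {v w : H}
    (hv : ∀ ζ ∈ T, ⟪ζ, v⟫_ℂ = ∫ t, φ t * ⟪ζ, p t⟫_ℂ)
    (hw : ∀ ζ ∈ T, ⟪ζ, w⟫_ℂ = ∫ t, φ t * ⟪ζ, q t⟫_ℂ) : Gr u v w := by
  let e := WithLp.prodContinuousLinearEquiv 2 ℂ H H
  let K : Submodule ℂ (WithLp 2 (H × H)) := (GrS u).comap e.toLinearMap
  have hK : IsClosed (K : Set (WithLp 2 (H × H))) := isClosed_GrS.preimage e.continuous
  have : CompleteSpace K := hK.completeSpace_coe
  have : WithLp.toLp 2 (v, w) ∈ K := by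
    rw [← K.orthogonal_orthogonal, Submodule.mem_orthogonal]
    intro ζ hζ
    obtain ⟨a1, a2⟩ := weak_integral_ext hT hφ hφc (fun t ht => (hG t ht).2.1) hp hv ζ.fst
    obtain ⟨b1, b2⟩ := weak_integral_ext hT hφ hφc (fun t ht => (hG t ht).2.2) hq hw ζ.snd
    rw [WithLp.prod_inner_apply]
    change ⟪ζ.fst, v⟫_ℂ + ⟪ζ.snd, w⟫_ℂ = 0
    rw [a2, b2, ← integral_add a1 b1]
    refine integral_eq_zero_of_ae (Eventually.of_forall fun t => ?_)
    by_cases ht : φ t = 0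
    · simp [ht]
    · have := (Submodule.mem_orthogonal' K ζ).1 hζ (WithLp.toLp 2 (p t, q t)) (hG t ht).1
      rw [WithLp.prod_inner_apply] at this
      change ⟪ζ.fst, p t⟫_ℂ + ⟪ζ.snd, q t⟫_ℂ = 0 at this
      simp only [← mul_add, this, mul_zero, Pi.zero_apply]
  exact this

end Pool.Agent.Lib.MP_e2ef7e_al.Gen
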