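import Pool.Agent.Lib.MP_e2ef7e_al.GDefs2

/-!
The resolvent of a unitary one-parameter group, and the angle function.
-/

open MeasureTheory Complex Set Filter Topology
open scoped ComplexConjugate InnerProductSpace ContDiff ENNReal

noncomputable section

namespace Pool.Agent.Lib.MP_e2ef7e_al.Gen

section angle

lemma sx_pos (x : ℝ) : 0 < sx x := by
  have := Real.arctan_pos.2 (Real.exp_pos x)
  unfold sx; linarith

lemma sx_lt_pi (x : ℝ) : sx x < Real.pi := by
  have := Real.arctan_lt_pi_div_two (Real.exp x)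
  unfold sx; linarith

lemma sin_sx' (x : ℝ) : Real.sin (sx x) = 2 * Real.exp x / (1 + Real.exp x ^ 2) := by
  have h : 0 < 1 + Real.exp x ^ 2 := by positivity
  have h2 : √(1 + Real.exp x ^ 2) * √(1 + Real.exp x ^ 2) = 1 + Real.exp x ^ 2 :=
    Real.mul_self_sqrt h.le
  have h3 : 0 < √(1 + Real.exp x ^ 2) := Real.sqrt_pos.2 h
  rw [sx, Real.sin_two_mul, Real.sin_arctan, Real.cos_arctan]
  conv_rhs => rw [← h2]
  field_simp

lemma sin_sx (x : ℝ) : Real.sin (sx x) = 1 / Real.cosh x := by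
  rw [sin_sx', Real.cosh_eq, Real.exp_neg]
  have := Real.exp_pos x
  field_simp
  ring

lemma sin_sx_pos (x : ℝ) : 0 < Real.sin (sx x) :=
  Real.sin_pos_of_pos_of_lt_pi (sx_pos x) (sx_lt_pi x)

lemma sin_sx_le (x : ℝ) : Real.sin (sx x) ≤ 2 * Real.exp (-|x|) := by
  rw [sin_sx, ← Real.cosh_abs, Real.cosh_eq, Real.exp_neg]
  have := Real.exp_pos |x|
  rw [div_le_iff₀ (by positivity)]
  field_simp
  nlinarith

lemma hasDerivAt_sx (x : ℝ) : HasDerivAt sx (Real.sin (sx x)) x := by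
  have := ((Real.hasDerivAt_exp x).arctan).const_mul 2
  rw [sin_sx']
  refine this.congr_deriv ?_
  ring

lemma continuous_sx : Continuous sx :=
  continuous_iff_continuousAt.2 fun x => (hasDerivAt_sx x).continuousAt

lemma contDiff_sx {n : WithTop ℕ∞} : ContDiff ℝ n sx :=
  contDiff_const.mul (Real.contDiff_arctan.comp Real.contDiff_exp)

lemma sx_zero : sx 0 = Real.pi / 2 := by
  rw [sx, Real.exp_zero, Real.arctan_one]; ring

lemma tendsto_sx_atBot : Tendsto sx atBot (𝓝 0) := by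
  have := ((Real.continuous_arctan.tendsto 0).comp Real.tendsto_exp_atBot).const_mul 2
  rw [Real.arctan_zero, mul_zero] at this
  exact this

lemma tendsto_sx_atTop : Tendsto sx atTop (𝓝 Real.pi) := by
  have := ((Real.tendsto_arctan_atTop.mono_right nhdsWithin_le_nhds).comp
    Real.tendsto_exp_atTop).const_mul 2
  rw [show 2 * (Real.pi / 2) = Real.pi by ring] at this
  exact this

/-- the inverse of the angle function -/
def xs (s : ℝ) : ℝ := Real.log (Real.tan (s / 2))

lemma xs_sx (x : ℝ) : xs (sx x) = x := by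
  rw [xs, sx, mul_div_cancel_left₀ _ two_ne_zero, Real.tan_arctan, Real.log_exp]

lemma tan_half_pos {s : ℝ} (h0 : 0 < s) (h1 : s < Real.pi) : 0 < Real.tan (s / 2) :=
  Real.tan_pos_of_pos_of_lt_pi_div_two (by linarith) (by linarith)

lemma sx_xs {s : ℝ} (h0 : 0 < s) (h1 : s < Real.pi) : sx (xs s) = s := by
  rw [xs, sx, Real.exp_log (tan_half_pos h0 h1), Real.arctan_tan (by linarith) (by linarith)]
  ring

lemma continuousAt_xs {s : ℝ} (h0 : 0 < s) (h1 : s < Real.pi) : ContinuousAt xs s := by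
  have h2 : Real.cos (s / 2) ≠ 0 :=
    (Real.cos_pos_of_mem_Ioo ⟨by linarith, by linarith⟩).ne'
  have h3 : ContinuousAt (fun s : ℝ => Real.tan (s / 2)) s :=
    ContinuousAt.comp (f := fun s : ℝ => s / 2) (Real.continuousAt_tan.2 h2) (by fun_prop)
  exact h3.log (tan_half_pos h0 h1).ne'

lemma measurable_xs : Measurable xs := by
  unfold xs
  simp only [Real.tan_eq_sin_div_cos]
  fun_prop

end angle

variable {H : Type} [NormedAddCommGroup H] [InnerProductSpace ℂ H] {u : ℝ → H ≃ₗᵢ[ℂ] H}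

lemma OneP.comm (hu : OneP u) (s t : ℝ) (v : H) : u s (u t v) = u t (u s v) := by
  rw [← hu.add, ← hu.add, add_comm]

lemma OneP.cont2 (hu : OneP u) : Continuous fun p : ℝ × H => u p.1 p.2 :=
  continuous_prod_of_continuous_lipschitzWith' _ 1 (fun a => (u a).lipschitz) hu.cont

lemma OneP.integrableOn_Res (hu : OneP u) (v : H) (a : ℝ) :
    IntegrableOn (fun t => Real.exp (-t) • u t v) (Ioi a) := by
  refine Integrable.mono' ((integrableOn_exp_neg_Ioi a).mul_const ‖v‖) ?_
    (Eventually.of_forall fun t => ?_)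
  · have := hu.cont v
    exact Continuous.aestronglyMeasurable (by fun_prop)
  · simp [norm_smul]

lemma norm_Res_le (v : H) : ‖Res u v‖ ≤ ‖v‖ := by
  refine (norm_integral_le_integral_norm _).trans ?_
  simp only [norm_smul, LinearIsometryEquiv.norm_map, Real.norm_eq_abs, Real.abs_exp]
  rw [integral_mul_const, integral_exp_neg_Ioi_zero, one_mul]

lemma norm_Res_iterate_le (n : ℕ) (v : H) : ‖(Res u)^[n] v‖ ≤ ‖v‖ := by
  induction n with
  | zero => simp
  | succ n ih => rw [Function.iterate_succ_apply']; exact (norm_Res_le _).trans ih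

lemma OneP.Res_add (hu : OneP u) (v w : H) : Res u (v + w) = Res u v + Res u w := by
  simp only [Res, map_add, smul_add]
  exact integral_add (hu.integrableOn_Res v 0) (hu.integrableOn_Res w 0)

lemma Res_smul (c : ℂ) (v : H) : Res u (c • v) = c • Res u v := by
  simp only [Res, map_smul]
  rw [← integral_smul]
  simp only [smul_comm c]

/-- the resolvent as a continuous linear map -/
def ResL (hu : OneP u) : H →L[ℂ] H :=
  LinearMap.mkContinuous ⟨⟨Res u, hu.Res_add⟩, Res_smul⟩ 1 fun v => by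
    simpa using norm_Res_le v

@[simp] lemma ResL_apply (hu : OneP u) (v : H) : ResL hu v = Res u v := rfl

lemma norm_ResL_le (hu : OneP u) : ‖ResL hu‖ ≤ 1 :=
  LinearMap.mkContinuous_norm_le _ zero_le_one _

lemma OneP.Res_sub (hu : OneP u) (v w : H) : Res u (v - w) = Res u v - Res u w :=
  (ResL hu).map_sub v w

lemma OneP.continuous_Res (hu : OneP u) : Continuous (Res u) := (ResL hu).continuous

lemma ResL_pow_apply (hu : OneP u) (n : ℕ) (v : H) : (ResL hu ^ n) v = (Res u)^[n] v := by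
  induction n with
  | zero => simp
  | succ n ih => rw [pow_succ', Function.iterate_succ_apply', ← ih]; rfl

variable [CompleteSpace H]

lemma OneP.map_Res (hu : OneP u) (Q : H →L[ℂ] H) (hQ : ∀ t x, Q (u t x) = u t (Q x)) (v : H) :
    Q (Res u v) = Res u (Q v) := by
  rw [Res, ← Q.integral_comp_comm (hu.integrableOn_Res v 0), Res]
  simp only [Q.map_smul_of_tower, hQ]

lemma OneP.apply_Res (hu : OneP u) (s : ℝ) (v : H) : u s (Res u v) = Res u (u s v) :=
  hu.map_Res (u s).toContinuousLinearEquiv.toContinuousLinearMap (fun t x => hu.comm s t x) v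

lemma OneP.apply_Res_iterate (hu : OneP u) (s : ℝ) (n : ℕ) (v : H) :
    u s ((Res u)^[n] v) = (Res u)^[n] (u s v) := by
  induction n with
  | zero => simp
  | succ n ih => rw [Function.iterate_succ_apply', Function.iterate_succ_apply', hu.apply_Res, ih]

lemma OneP.apply_Res' (hu : OneP u) (s : ℝ) (v : H) :
    u s (Res u v) = Real.exp s • (Res u v - ∫ t in (0 : ℝ)..s, Real.exp (-t) • u t v) := by
  rw [← intervalIntegral.integral_Ioi_sub_Ioi' (hu.integrableOn_Res v 0) (hu.integrableOn_Res v s),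
    hu.apply_Res, Res, Res, sub_sub_cancel, ← integral_smul,
    ← (measurePreserving_add_right volume s).setIntegral_preimage_emb
      (measurableEmbedding_addRight s) _ (Ioi s)]
  simp only [preimage_add_const_Ioi, sub_self, smul_smul, ← Real.exp_add, hu.add]
  congr 1
  ext t
  congr 2
  ring

lemma OneP.dom_Res (hu : OneP u) (v : H) : Dom u (Res u v) ∧ gen u (Res u v) = Res u v - v := by
  have hc : Continuous fun t => Real.exp (-t) • u t v := by
    have := hu.cont v
    fun_prop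
  have h1 := (Real.hasDerivAt_exp 0).smul
    (((hc.integral_hasStrictDerivAt 0 0).hasDerivAt).const_sub (Res u v))
  have h2 : HasDerivAt (fun s => u s (Res u v)) (Res u v - v) 0 := by
    simp only [hu.apply_Res']
    refine h1.congr_deriv ?_
    simp [hu.zero, sub_eq_neg_add]
  exact ⟨h2.differentiableAt, h2.deriv⟩

theorem inner_Tg_Res (hu : OneP u) {ψ : H} (hψ : Dom u ψ) (v : H) :
    ⟪Tg u ψ, Res u v⟫_ℂ = ⟪ψ, v⟫_ℂ := by
  rw [Tg, inner_add_left, hu.skew hψ (hu.dom_Res v).1, (hu.dom_Res v).2, inner_sub_right]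
  ring

lemma inner_Tg_iterate (hu : OneP u) {S : Set H} (hd : ∀ ψ ∈ S, Dom u ψ ∧ Tg u ψ ∈ S) (n : ℕ)
    {ψ : H} (hψ : ψ ∈ S) (v : H) : ⟪(Tg u)^[n] ψ, (Res u)^[n] v⟫_ℂ = ⟪ψ, v⟫_ℂ := by
  induction n generalizing ψ v with
  | zero => simp
  | succ n ih =>
    rw [Function.iterate_succ_apply, Function.iterate_succ_apply, ih (hd ψ hψ).2,
      inner_Tg_Res hu (hd ψ hψ).1 v]

omit [CompleteSpace H] in
/-- the image of a subspace of the domain under `1 + D` -/
def TgS (S : Submodule ℂ H) (hd : ∀ ψ ∈ S, Dom u ψ) : Submodule ℂ H where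
  carrier := Tg u '' (S : Set H)
  zero_mem' := ⟨0, S.zero_mem, by simp [Tg, gen_zero]⟩
  add_mem' := by
    rintro _ _ ⟨a, ha, rfl⟩ ⟨b, hb, rfl⟩
    refine ⟨a + b, S.add_mem ha hb, ?_⟩
    rw [Tg, Tg, Tg, gen_add (hd a ha) (hd b hb)]; abel
  smul_mem' := by
    rintro c _ ⟨a, ha, rfl⟩
    refine ⟨c • a, S.smul_mem c ha, ?_⟩
    rw [Tg, Tg, gen_smul (hd a ha), smul_add]

lemma dense_Tg1 (hu : OneP u) {S : Submodule ℂ H} (hS : Dense (S : Set H))
    (hd : ∀ ψ ∈ S, Dom u ψ ∧ ∀ t, u t ψ ∈ S) : Dense (Tg u '' (S : Set H)) := by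
  change Dense (TgS S fun ψ hψ => (hd ψ hψ).1 : Set H)
  rw [Submodule.dense_iff_topologicalClosure_eq_top, Submodule.topologicalClosure_eq_top_iff,
    Submodule.eq_bot_iff]
  intro η hη
  obtain ⟨h1, h2⟩ := hu.weak hS (fun ψ hψ => (hd ψ hψ).1) (fun ψ hψ => (hd ψ hψ).2)
    (v := η) (w := η) fun ψ hψ => by
      have := (Submodule.mem_orthogonal _ η).1 hη (Tg u ψ) ⟨ψ, hψ, rfl⟩
      rw [Tg, inner_add_left] at this
      linear_combination this
  have h3 := hu.skew h1 h1
  rw [h2] at h3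
  exact inner_self_eq_zero.1 (by linear_combination h3 / 2 : ⟪η, η⟫_ℂ = 0)

theorem dense_Tg (hu : OneP u) {S : Submodule ℂ H} (hS : Dense (S : Set H))
    (hd : ∀ ψ ∈ S, Dom u ψ ∧ gen u ψ ∈ S ∧ ∀ t, u t ψ ∈ S) (n : ℕ) :
    Dense ((Tg u)^[n] '' (S : Set H)) := by
  induction n generalizing S with
  | zero => simpa using hS
  | succ n ih =>
    rw [Function.iterate_succ, image_comp]
    refine ih (S := TgS S fun ψ hψ => (hd ψ hψ).1)
      (dense_Tg1 hu hS fun ψ hψ => ⟨(hd ψ hψ).1, (hd ψ hψ).2.2⟩) ?_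
    rintro _ ⟨ψ, hψ, rfl⟩
    obtain ⟨h1, h2, h3⟩ := hd ψ hψ
    refine ⟨h1.add (hd _ h2).1, ⟨_, h2, (gen_add h1 (hd _ h2).1).symm⟩, fun t => ⟨_, h3 t, ?_⟩⟩
    rw [Tg, Tg, (hu.dom_apply h1 t).2, map_add]

end Pool.Agent.Lib.MP_e2ef7e_al.Gen
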