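import Mathlib

/-!
Holomorphy of parameter integrals, a boundary uniqueness theorem on a strip and a peaking lemma.
-/

open Complex Set Topology Filter MeasureTheory Metric

noncomputable section

namespace Pool.Agent.Lib.MP_e2ef7e_al

lemma differentiableAt_integral_smul {X H : Type*} [MeasurableSpace X] {μ : Measure X}
    [NormedAddCommGroup H] [NormedSpace ℂ H] [CompleteSpace H] {f : ℂ → X → ℂ} {v : X → H}
    {z₀ : ℂ} {r : ℝ} (hr : 0 < r) {b : X → ℝ} (hb : Integrable b μ)
    (hv : AEStronglyMeasurable v μ) (hv1 : ∀ x, ‖v x‖ ≤ 1)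
    (hm : ∀ z ∈ ball z₀ r, Measurable (f z))
    (hd : ∀ x, DifferentiableOn ℂ (fun z => f z x) (ball z₀ r))
    (hf : ∀ z ∈ ball z₀ r, ∀ x, ‖f z x‖ ≤ b x) :
    DifferentiableAt ℂ (fun z => ∫ x, f z x • v x ∂μ) z₀ := by
  have hr2 : 0 < r / 3 := by positivity
  have hsub : ∀ z ∈ ball z₀ (r / 3), closedBall z (r / 3) ⊆ ball z₀ r := fun z hz w hw => by
    rw [mem_ball] at hz ⊢
    rw [mem_closedBall] at hw
    linarith [dist_triangle w z z₀]
  have hz0 : z₀ ∈ ball z₀ r := mem_ball_self hr
  have hda : ∀ x, ∀ z ∈ ball z₀ r, HasDerivAt (fun z => f z x) (deriv (fun z => f z x) z) z :=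
    fun x z hz => ((hd x).differentiableAt (isOpen_ball.mem_nhds hz)).hasDerivAt
  have hmeas : Measurable fun x => deriv (fun z => f z x) z₀ := by
    let u : ℕ → ℂ := fun n => ((r / 2 * (1 / ((n : ℝ) + 1)) : ℝ) : ℂ)
    have hu0 : ∀ n, u n ≠ 0 := fun n => by
      simp only [u, ne_eq, ofReal_eq_zero]; positivity
    have hu : Tendsto u atTop (𝓝[≠] 0) := by
      refine tendsto_nhdsWithin_iff.2 ⟨?_, Eventually.of_forall hu0⟩
      have := (continuous_ofReal.tendsto _).comp
        (tendsto_one_div_add_atTop_nhds_zero_nat.const_mul (r / 2))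
      rw [mul_zero, ofReal_zero] at this
      exact this
    have hmem : ∀ n, z₀ + u n ∈ ball z₀ r := fun n => by
      rw [mem_ball, dist_self_add_left]
      simp only [u, norm_real, Real.norm_eq_abs]
      have h1 : (0 : ℝ) < 1 / ((n : ℝ) + 1) := by positivity
      have h2 : 1 / ((n : ℝ) + 1) ≤ 1 := by
        rw [div_le_one (by positivity)]; linarith [(Nat.cast_nonneg n : (0 : ℝ) ≤ n)]
      rw [abs_of_pos (by positivity)]
      nlinarith
    refine measurable_of_tendsto_metrizable (f := fun n x => (u n)⁻¹ • (f (z₀ + u n) x - f z₀ x))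
      (fun n => by exact ((hm _ (hmem n)).sub (hm _ hz0)).const_smul (u n)⁻¹) ?_
    rw [tendsto_pi_nhds]
    intro x
    exact ((hda x z₀ hz0).tendsto_slope_zero).comp hu
  refine (hasDerivAt_integral_of_dominated_loc_of_deriv_le (μ := μ)
    (F := fun z x => f z x • v x) (F' := fun z x => deriv (fun z => f z x) z • v x)
    (bound := fun x => b x / (r / 3)) (ball_mem_nhds z₀ hr2) ?_ ?_ ?_ ?_ (hb.div_const _)
    ?_).2.differentiableAt
  · filter_upwards [ball_mem_nhds z₀ hr] with z hz
    exact (hm z hz).aestronglyMeasurable.smul hv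
  · refine hb.mono' ((hm _ hz0).aestronglyMeasurable.smul hv) (Eventually.of_forall fun x => ?_)
    rw [norm_smul]
    have := hf _ hz0 x
    nlinarith [hv1 x, norm_nonneg (f z₀ x), norm_nonneg (v x)]
  · exact hmeas.aestronglyMeasurable.smul hv
  · refine Eventually.of_forall fun x z hz => ?_
    have h1 : ‖deriv (fun z => f z x) z‖ ≤ b x / (r / 3) := by
      refine Complex.norm_deriv_le_of_forall_mem_sphere_norm_le hr2 ?_ fun w hw =>
        hf w (hsub z hz (sphere_subset_closedBall hw)) x
      refine DifferentiableOn.diffContOnCl ?_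
      rw [closure_ball z hr2.ne']
      exact (hd x).mono (hsub z hz)
    rw [norm_smul]
    nlinarith [hv1 x, norm_nonneg (deriv (fun z => f z x) z), norm_nonneg (v x)]
  · refine Eventually.of_forall fun x z hz => ?_
    exact (hda x z (hsub z hz (mem_closedBall_self hr2.le))).smul_const _

/-- a function holomorphic in a strip that vanishes on a boundary interval vanishes -/
lemma eq_zero_of_boundary {f : ℂ → ℂ} {r : ℝ} (hr : 0 < r)
    (hc : ContinuousOn f {z | 0 ≤ z.im ∧ z.im ≤ Real.pi})
    (hd : DifferentiableOn ℂ f {z | 0 < z.im ∧ z.im < Real.pi})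
    (h0 : ∀ t : ℝ, |t| ≤ r → f t = 0) {w : ℂ} (hw1 : 0 < w.im) (hw2 : w.im < Real.pi) :
    f w = 0 := by
  have hpi : (1 : ℝ) < Real.pi := by linarith [Real.pi_gt_three]
  set Q : Set ℂ := Ioo (-r) r ×ℂ Ioo 0 1 with hQ
  have hcl : closure Q = Icc (-r) r ×ℂ Icc 0 1 := by
    rw [hQ, closure_reProdIm, closure_Ioo (by linarith), closure_Ioo zero_ne_one]
  have hbd : Bornology.IsBounded Q := (isBounded_Ioo _ _).reProdIm (isBounded_Ioo _ _)
  have hsub : closure Q ⊆ {z | 0 ≤ z.im ∧ z.im ≤ Real.pi} := fun z hz => by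
    rw [hcl, mem_reProdIm] at hz
    exact ⟨hz.2.1, hz.2.2.trans hpi.le⟩
  have hsub' : Q ⊆ {z | 0 < z.im ∧ z.im < Real.pi} := fun z hz => by
    rw [hQ, mem_reProdIm] at hz
    exact ⟨hz.2.1, hz.2.2.trans hpi⟩
  obtain ⟨C, hC⟩ := hbd.isCompact_closure.exists_bound_of_continuousOn (hc.mono hsub)
  set L : ℝ := r ^ 2 + 1 with hL
  let φ : ℂ → ℂ := fun z => (r ^ 2 : ℝ) - z ^ 2 + I * z * L
  have hφ : ∀ z, (φ z).re = r ^ 2 - z.re ^ 2 + z.im ^ 2 - z.im * L := fun z => by
    simp [φ, pow_two]; ring
  have key : ∀ z ∈ Q, 0 < (φ z).re → f z = 0 := by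
    intro z hz hp
    have hM : ∀ M : ℕ, ‖f z‖ * Real.exp (M * (φ z).re) ≤ max C 0 := by
      intro M
      have h := Complex.norm_le_of_forall_mem_frontier_norm_le
        (f := fun z => f z * cexp (M * φ z)) (C := max C 0) hbd ?_ ?_ (subset_closure hz)
      · simpa [norm_exp] using h
      · have hdd : Differentiable ℂ fun z => cexp (M * φ z) := by simp only [φ]; fun_prop
        exact ⟨(hd.mono hsub').mul hdd.differentiableOn,
          (hc.mono hsub).mul hdd.continuous.continuousOn⟩
      · intro y hy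
        have hyc := frontier_subset_closure hy
        have hb : (φ y).re ≤ 0 → ‖f y * cexp (M * φ y)‖ ≤ max C 0 := fun h => by
          rw [norm_mul, norm_exp]
          have h1 : Real.exp ((M * φ y).re) ≤ 1 := by
            rw [Real.exp_le_one_iff]
            simpa using mul_nonpos_of_nonneg_of_nonpos (Nat.cast_nonneg M) h
          calc _ ≤ ‖f y‖ * 1 := by gcongr
            _ ≤ _ := by rw [mul_one]; exact (hC y hyc).trans (le_max_left _ _)
        rw [hQ, frontier_reProdIm, closure_Ioo (by linarith), closure_Ioo zero_ne_one,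
          frontier_Ioo zero_lt_one, frontier_Ioo (by linarith)] at hy
        rcases hy with hy | hy
        · rw [mem_reProdIm] at hy
          rcases hy.2 with h | h
          · have e : y = (y.re : ℂ) := Complex.ext (by simp) (by simpa using h)
            rw [e, h0 _ (abs_le.2 hy.1)]
            simp
          · apply hb
            rw [mem_singleton_iff] at h
            rw [hφ, h, hL]
            nlinarith [sq_nonneg y.re]
        · rw [mem_reProdIm] at hy
          apply hb
          have h1 : y.re ^ 2 = r ^ 2 := by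
            rcases hy.1 with h | h
            · rw [h]; ring
            · rw [mem_singleton_iff.1 h]
          rw [hφ, h1, hL]
          nlinarith [hy.2.1, hy.2.2, sq_nonneg r, mul_nonneg hy.2.1 (sq_nonneg r)]
    by_contra hne
    have hpos : 0 < ‖f z‖ := norm_pos_iff.2 hne
    have ht : Tendsto (fun M : ℕ => ‖f z‖ * Real.exp (M * (φ z).re)) atTop atTop :=
      (Real.tendsto_exp_atTop.comp
        (tendsto_natCast_atTop_atTop.atTop_mul_const hp)).const_mul_atTop hpos
    obtain ⟨M, hM'⟩ := (ht.eventually_gt_atTop (max C 0)).exists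
    exact absurd (hM M) (not_le.2 hM')
  have hS : IsOpen {z : ℂ | 0 < z.im ∧ z.im < Real.pi} :=
    (isOpen_lt continuous_const continuous_im).inter (isOpen_lt continuous_im continuous_const)
  have hconv : Convex ℝ {z : ℂ | 0 < z.im ∧ z.im < Real.pi} :=
    (convex_halfSpace_im_gt 0).inter (convex_halfSpace_im_lt _)
  have han := hd.analyticOnNhd hS
  set y : ℝ := r ^ 2 / (2 * L) with hy
  have hL0 : 0 < L := by positivity
  have hy0 : 0 < y := by positivity
  have hy1 : y < 1 := by
    rw [hy, div_lt_one (by positivity)]; nlinarith [sq_nonneg r]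
  have hyL : y * L = r ^ 2 / 2 := by rw [hy]; field_simp
  have hz0 : (y * I : ℂ) ∈ Q := by
    rw [hQ, mem_reProdIm]; simp [hr, hy0, hy1]
  have hQo : IsOpen Q := isOpen_Ioo.reProdIm isOpen_Ioo
  have hφc : Continuous fun z => (φ z).re := by simp only [φ]; fun_prop
  have hφ0 : 0 < (φ (y * I)).re := by
    rw [hφ]; simp only [mul_re, ofReal_re, I_re, ofReal_im, I_im, mul_im]
    nlinarith [sq_nonneg y, sq_pos_of_pos hr]
  refine han.eqOn_zero_of_preconnected_of_eventuallyEq_zero hconv.isPreconnected (hsub' hz0) ?_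
    ⟨hw1, hw2⟩
  filter_upwards [hQo.mem_nhds hz0, (isOpen_lt continuous_const hφc).mem_nhds hφ0] with z h1 h2
  exact key z h1 h2

lemma eq_zero_of_peak {X : Type*} [TopologicalSpace X] [MeasurableSpace X] [OpensMeasurableSpace X]
    {μ : Measure X} [μ.IsOpenPosMeasure] {x₀ : X} {D w : X → ℝ} {m : X → ℂ}
    (hD : Continuous D) (hD0 : ∀ x, 0 ≤ D x) (hD1 : D x₀ = 0)
    (hD2 : ∀ O ∈ 𝓝 x₀, ∃ δ : ℝ, 0 < δ ∧ ∀ x, x ∉ O → δ ≤ D x)
    (hw0 : ∀ x, 0 < w x) (hw : Integrable w μ) (hm : Continuous m) {C : ℝ}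
    (hC : ∀ x, ‖m x‖ ≤ C)
    (h : ∀ k : ℕ, ∫ x, ((w x * Real.exp (-(k * D x)) : ℝ) : ℂ) * m x ∂μ = 0) : m x₀ = 0 := by
  by_contra hne
  set a : ℝ := normSq (m x₀) with ha
  have ha0 : 0 < a := normSq_pos.2 hne
  let r : X → ℝ := fun x => (m x * (starRingEnd ℂ) (m x₀)).re
  have hrc : Continuous r := by simp only [r]; fun_prop
  have hr0 : r x₀ = a := by simp only [r, ha, mul_conj, ofReal_re]
  have hrb : ∀ x, |r x| ≤ C * C := fun x => by
    refine (abs_re_le_norm _).trans ?_
    rw [norm_mul, RCLike.norm_conj]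
    exact mul_le_mul (hC x) (hC x₀) (norm_nonneg _) ((norm_nonneg _).trans (hC x))
  have hO : {x | a / 2 < r x} ∈ 𝓝 x₀ :=
    (isOpen_lt continuous_const hrc).mem_nhds (by simp only [mem_ofPred_eq, hr0]; linarith)
  obtain ⟨δ, hδ, hδ'⟩ := hD2 _ hO
  set O' : Set X := {x | a / 2 < r x} ∩ {x | D x < δ / 2} with hO'
  have hO'o : IsOpen O' := (isOpen_lt continuous_const hrc).inter (isOpen_lt hD continuous_const)
  have hx0 : x₀ ∈ O' := ⟨mem_of_mem_nhds hO, by simp only [mem_ofPred_eq, hD1]; linarith⟩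
  have hc1 : 0 < ∫ x, O'.indicator w x ∂μ := by
    rw [integral_pos_iff_support_of_nonneg (fun x => indicator_nonneg (fun y _ => (hw0 y).le) x)
      (hw.indicator hO'o.measurableSet)]
    refine (hO'o.measure_pos μ ⟨_, hx0⟩).trans_le (measure_mono fun x hx => ?_)
    simp [hx, (hw0 x).ne']
  have hint : ∀ k : ℕ, Integrable (fun x => w x * Real.exp (-(k * D x))) μ := fun k => by
    refine hw.mul_bdd (c := 1) (by fun_prop) (Eventually.of_forall fun x => ?_)
    rw [Real.norm_eq_abs, abs_of_pos (Real.exp_pos _), Real.exp_le_one_iff]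
    exact neg_nonpos.2 (mul_nonneg (Nat.cast_nonneg k) (hD0 x))
  have key : ∀ k : ℕ, a / 2 * ∫ x, O'.indicator w x ∂μ ≤
      Real.exp (-(k * (δ / 2))) * (C * C * ∫ x, w x ∂μ) := by
    intro k
    have i1 : Integrable (fun x => ((w x * Real.exp (-(k * D x)) : ℝ) : ℂ) * m x) μ :=
      (hint k).ofReal.mul_bdd hm.aestronglyMeasurable (Eventually.of_forall hC)
    have i2 : Integrable (fun x => w x * Real.exp (-(k * D x)) * r x) μ :=
      (hint k).mul_bdd hrc.aestronglyMeasurable (Eventually.of_forall hrb)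
    have e1 : ∫ x, w x * Real.exp (-(k * D x)) * r x ∂μ = 0 := by
      have h1 := integral_re (i1.mul_const ((starRingEnd ℂ) (m x₀)))
      rw [integral_mul_const, h k, zero_mul] at h1
      simp only [RCLike.re_to_complex, zero_re] at h1
      rw [← h1]
      congr 1; ext x
      rw [mul_assoc (_ : ℂ), re_ofReal_mul]
    set E : ℝ := Real.exp (-(k * (δ / 2))) with hE
    have hE0 : 0 < E := Real.exp_pos _
    have e2 : ∫ x, (E * (a / 2) * O'.indicator w x - E * E * (C * C) * w x) ∂μ ≤ 0 := by
      rw [← e1]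
      refine integral_mono (((hw.indicator hO'o.measurableSet).const_mul _).sub (hw.const_mul _))
        i2 fun x => ?_
      have hC0 : 0 ≤ C * C := mul_self_nonneg C
      have hwx := hw0 x
      have hex := Real.exp_pos (-(k * D x))
      by_cases h1 : a / 2 < r x
      · have h3 : 0 ≤ E * E * (C * C) * w x := by positivity
        by_cases h2 : x ∈ O'
        · have h4 : E ≤ Real.exp (-(k * D x)) := by
            rw [hE, Real.exp_le_exp]
            have := mul_le_mul_of_nonneg_left h2.2.le (Nat.cast_nonneg (α := ℝ) k)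
            linarith
          have h5 : E * (a / 2) ≤ Real.exp (-(k * D x)) * r x :=
            mul_le_mul h4 h1.le (by linarith) hex.le
          simp only [indicator_of_mem h2]
          nlinarith
        · simp only [indicator_of_notMem h2]
          have : 0 ≤ w x * Real.exp (-(k * D x)) * r x := by
            have : 0 ≤ r x := by linarith
            positivity
          linarith
      · have h2 : x ∉ O' := fun h => h1 h.1
        simp only [indicator_of_notMem h2]
        have h4 : Real.exp (-(k * D x)) ≤ E * E := by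
          rw [hE, ← Real.exp_add, Real.exp_le_exp]
          have := mul_le_mul_of_nonneg_left (hδ' x h1) (Nat.cast_nonneg (α := ℝ) k)
          linarith
        have h5 : -(C * C) ≤ r x := (abs_le.1 (hrb x)).1
        have h6 : -(E * E * (C * C)) ≤ Real.exp (-(k * D x)) * r x := by nlinarith
        nlinarith
    rw [integral_sub ((hw.indicator hO'o.measurableSet).const_mul _) (hw.const_mul _),
      integral_const_mul, integral_const_mul] at e2
    have : E * (a / 2 * ∫ x, O'.indicator w x ∂μ) ≤ E * (E * (C * C * ∫ x, w x ∂μ)) := by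
      linarith
    exact le_of_mul_le_mul_left this hE0
  have ht : Tendsto (fun k : ℕ => Real.exp (-(k * (δ / 2))) * (C * C * ∫ x, w x ∂μ)) atTop
      (𝓝 (0 * _)) :=
    (Real.tendsto_exp_neg_atTop_nhds_zero.comp
      (tendsto_natCast_atTop_atTop.atTop_mul_const (half_pos hδ))).mul_const _
  have := ge_of_tendsto' ht key
  rw [zero_mul] at this
  have : 0 < a / 2 * ∫ x, O'.indicator w x ∂μ := by positivity
  linarith

end Pool.Agent.Lib.MP_e2ef7e_al
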