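import Pool.Agent.Lib.MP_e2ef7e_al.Est

/-!
Polynomial volume growth of closed linear groups.
-/

open Set Topology Filter Finset MeasureTheory
open scoped ENNReal Pointwise

noncomputable section

namespace Pool.Agent.Lib.MP_e2ef7e_al

variable {ι : Type} [Fintype ι] [DecidableEq ι]

omit [DecidableEq ι] in
lemma continuous_nsq : Continuous (nsq : Matrix ι ι ℝ → ℝ) := by
  unfold nsq; fun_prop

omit [DecidableEq ι] in
lemma abs_le_of_nsq {M : Matrix ι ι ℝ} {m : ℕ} (h : nsq M ≤ m + 1) (i j : ι) :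
    |M i j| ≤ m + 1 := by
  have h1 := sq_le_nsq M i j
  have h2 : (0 : ℝ) ≤ m := Nat.cast_nonneg m
  refine abs_le_of_sq_le_sq' ?_ (by linarith) |>.elim fun a b => abs_le.2 ⟨a, b⟩
  nlinarith

variable {Γ : Type} [Group Γ] [TopologicalSpace Γ] [IsTopologicalGroup Γ] [MeasurableSpace Γ]
  [BorelSpace Γ] {μ : Measure Γ} [μ.IsMulLeftInvariant] [IsFiniteMeasureOnCompacts μ]
  {ρ : Γ →* Matrix ι ι ℝ}

lemma measure_nsq_le (hK : ∀ r, IsCompact {g | nsq (ρ g) ≤ r})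
    (hinv : ∀ g, nsq (ρ g⁻¹) ≤ nsq (ρ g)) :
    ∃ C : ℝ≥0∞, C ≠ ⊤ ∧ ∀ m : ℕ, μ {g | nsq (ρ g) ≤ m + 1} ≤
      C * ((m : ℝ≥0∞) + 1) ^ (2 * Fintype.card (ι × ι)) := by
  set n : ℝ := (Fintype.card ι : ℝ) with hn
  set K := {g | nsq (ρ g) ≤ n * (n * (1 + n) ^ 2)} with hK0
  refine ⟨μ K * 3 ^ Fintype.card (ι × ι),
    ENNReal.mul_ne_top (hK _).measure_lt_top.ne (ENNReal.pow_ne_top (by simp)), fun m => ?_⟩
  let φ : Γ → ι × ι → ℤ := fun g p => ⌊(m + 1 : ℝ) * ρ g p.1 p.2⌋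
  let B : Finset (ι × ι → ℤ) :=
    Fintype.piFinset fun _ => Finset.Icc (-((m + 1 : ℤ) ^ 2)) ((m + 1 : ℤ) ^ 2)
  have hm : (0 : ℝ) < m + 1 := by positivity
  have h1 : {g | nsq (ρ g) ≤ m + 1} ⊆ ⋃ b ∈ B, {g | nsq (ρ g) ≤ m + 1 ∧ φ g = b} := by
    intro g hg
    simp only [Set.mem_iUnion]
    refine ⟨φ g, ?_, hg, rfl⟩
    simp only [B, Fintype.mem_piFinset, Finset.mem_Icc]
    intro p
    have := abs_le.1 (abs_le_of_nsq hg p.1 p.2)
    constructor
    · rw [Int.le_floor]; push_cast; nlinarith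
    · rw [Int.floor_le_iff]; push_cast; nlinarith
  have h2 : ∀ b, μ {g | nsq (ρ g) ≤ m + 1 ∧ φ g = b} ≤ μ K := by
    intro b
    rcases Set.eq_empty_or_nonempty {g | nsq (ρ g) ≤ m + 1 ∧ φ g = b} with h | ⟨g₀, hg₀⟩
    · rw [h]; simp
    rw [← measure_preimage_mul μ g₀⁻¹ K]
    refine measure_mono fun g hg => ?_
    have hd : ∀ i j, |(ρ g - ρ g₀) i j| ≤ (m + 1 : ℝ)⁻¹ := fun i j => by
      have := Int.abs_sub_lt_one_of_floor_eq_floor (congrFun (hg.2.trans hg₀.2.symm) (i, j))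
      rw [← mul_sub, abs_mul, abs_of_pos hm] at this
      rw [Matrix.sub_apply, ← one_div, le_div_iff₀ hm]
      linarith
    have he : ρ (g₀⁻¹ * g) = 1 + ρ g₀⁻¹ * (ρ g - ρ g₀) := by
      rw [mul_sub, ← map_mul, ← map_mul, inv_mul_cancel, map_one]; abel
    have hb : ∀ i j, |ρ (g₀⁻¹ * g) i j| ≤ 1 + n := fun i j => by
      rw [he, Matrix.add_apply, Matrix.mul_apply]
      refine (abs_add_le _ _).trans (add_le_add ?_ ?_)
      · rw [Matrix.one_apply]; split_ifs <;> simp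
      · refine (abs_sum_le_sum_abs _ _).trans ?_
        calc _ ≤ ∑ _k : ι, (1 : ℝ) := sum_le_sum fun k _ => by
              rw [abs_mul]
              calc _ ≤ (m + 1 : ℝ) * (m + 1 : ℝ)⁻¹ :=
                    mul_le_mul (abs_le_of_nsq ((hinv g₀).trans hg₀.1) i k) (hd k j)
                      (abs_nonneg _) hm.le
                _ = 1 := mul_inv_cancel₀ hm.ne'
          _ = n := by simp [hn]
    show nsq (ρ (g₀⁻¹ * g)) ≤ _
    calc _ ≤ ∑ _i : ι, ∑ _j : ι, (1 + n) ^ 2 := sum_le_sum fun i _ => sum_le_sum fun j _ => by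
          rw [← sq_abs]
          exact pow_le_pow_left₀ (abs_nonneg _) (hb i j) 2
      _ = _ := by simp [hn]
  have h3 : (B.card : ℝ≥0∞) ≤ 3 ^ Fintype.card (ι × ι) *
      ((m : ℝ≥0∞) + 1) ^ (2 * Fintype.card (ι × ι)) := by
    have : B.card ≤ (3 * (m + 1) ^ 2) ^ Fintype.card (ι × ι) := by
      simp only [B, Fintype.card_piFinset, prod_const, card_univ, Int.card_Icc]
      refine Nat.pow_le_pow_left ?_ _
      rw [Int.toNat_le]
      push_cast
      nlinarith [(Nat.cast_nonneg m : (0 : ℤ) ≤ m)]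
    rw [pow_mul, ← mul_pow]
    exact_mod_cast this
  calc _ ≤ _ := measure_mono h1
    _ ≤ ∑ b ∈ B, μ {g | nsq (ρ g) ≤ m + 1 ∧ φ g = b} := measure_biUnion_finset_le _ _
    _ ≤ ∑ _b ∈ B, μ K := sum_le_sum fun b _ => h2 b
    _ = B.card * μ K := by simp
    _ ≤ _ := by rw [mul_comm, mul_assoc]; gcongr

lemma exists_integrable (hρ : Continuous ρ) (hK : ∀ r, IsCompact {g | nsq (ρ g) ≤ r})
    (hinv : ∀ g, nsq (ρ g⁻¹) ≤ nsq (ρ g)) :
    ∃ L : ℕ, Integrable (fun g => (1 + nsq (ρ g))⁻¹ ^ L) μ := by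
  obtain ⟨C, hC, h⟩ := measure_nsq_le (μ := μ) hK hinv
  set d := 2 * Fintype.card (ι × ι) with hd
  have hc : Continuous fun g => nsq (ρ g) := continuous_nsq.comp hρ
  have hcont : Continuous fun g => (1 + nsq (ρ g))⁻¹ ^ (d + 2) :=
    ((continuous_const.add hc).inv₀ fun g =>
      (add_pos_of_pos_of_nonneg one_pos (nsq_nonneg (ρ g))).ne').pow _
  refine ⟨d + 2, hcont.aestronglyMeasurable, ?_⟩
  let S : ℕ → Set Γ := fun m => {g | (m : ℝ) ≤ nsq (ρ g) ∧ nsq (ρ g) ≤ m + 1}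
  have hS : ⋃ m, S m = Set.univ := by
    refine Set.eq_univ_of_forall fun g => Set.mem_iUnion.2
      ⟨⌊nsq (ρ g)⌋₊, Nat.floor_le (nsq_nonneg _), ?_⟩
    exact (Nat.lt_floor_add_one _).le
  have hsum : Summable fun m : ℕ => 1 / ((m : ℝ) + 1) ^ 2 := by
    exact_mod_cast (summable_nat_add_iff 1).2 (Real.summable_one_div_nat_pow.2 one_lt_two)
  rw [HasFiniteIntegral, ← setLIntegral_univ, ← hS]
  refine (lintegral_iUnion_le _ _).trans_lt ?_
  have key : ∀ m : ℕ, ∫⁻ g in S m, ‖(1 + nsq (ρ g))⁻¹ ^ (d + 2)‖ₑ ∂μ ≤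
      C * ENNReal.ofReal (1 / ((m : ℝ) + 1) ^ 2) := by
    intro m
    have hm : (0 : ℝ) < m + 1 := by positivity
    have hSm : MeasurableSet (S m) :=
      ((isClosed_le continuous_const hc).inter (isClosed_le hc continuous_const)).measurableSet
    calc _ ≤ ∫⁻ _g in S m, ENNReal.ofReal ((m + 1 : ℝ)⁻¹ ^ (d + 2)) ∂μ := by
          refine setLIntegral_mono' hSm fun g hg => ?_
          have h0 := nsq_nonneg (ρ g)
          rw [Real.enorm_eq_ofReal (by positivity)]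
          refine ENNReal.ofReal_le_ofReal ?_
          have : (m : ℝ) + 1 ≤ 1 + nsq (ρ g) := by linarith [hg.1]
          gcongr
      _ = ENNReal.ofReal ((m + 1 : ℝ)⁻¹ ^ (d + 2)) * μ (S m) := by simp
      _ ≤ ENNReal.ofReal ((m + 1 : ℝ)⁻¹ ^ (d + 2)) * (C * ((m : ℝ≥0∞) + 1) ^ d) := by
          gcongr
          exact (measure_mono fun g hg => hg.2).trans (h m)
      _ = _ := by
          have : ((m : ℝ≥0∞) + 1) ^ d = ENNReal.ofReal ((m + 1 : ℝ) ^ d) := by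
            rw [ENNReal.ofReal_pow hm.le, ENNReal.ofReal_add (Nat.cast_nonneg m) zero_le_one]
            simp
          rw [this, mul_left_comm, ← ENNReal.ofReal_mul (by positivity)]
          congr 2
          rw [pow_add, mul_right_comm, ← mul_pow, inv_mul_cancel₀ hm.ne', one_pow, one_mul, one_div,
            inv_pow]
  refine (ENNReal.tsum_le_tsum key).trans_lt ?_
  rw [ENNReal.tsum_mul_left, ← ENNReal.ofReal_tsum_of_nonneg (fun m => by positivity) hsum]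
  exact ENNReal.mul_lt_top hC.lt_top ENNReal.ofReal_lt_top

end Pool.Agent.Lib.MP_e2ef7e_al
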