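import Pool.Agent.Lib.MP_e2ef7e_al.Std
import Pool.Agent.Lib.MP_e2ef7e_al.Holo
import Pool.Agent.Lib.MP_e2ef7e_al.Vol

/-!
Regularity for closed linear groups in which the Euler element has the eigenvalues one half and
minus one half.
-/

open Complex Set Topology Filter MeasureTheory
open scoped ComplexConjugate

noncomputable section

namespace Pool.Agent.Lib.MP_e2ef7e_al

variable {ι : Type} [Fintype ι] [DecidableEq ι] {Γ : Type} [Group Γ] [TopologicalSpace Γ]
  {H : Type} [NormedAddCommGroup H] [InnerProductSpace ℂ H]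

structure Setup (e : ι → ℝ) (ρ : Γ →* Matrix ι ι ℝ) (γ : ℝ → Γ) (τ : Γ → Γ)
    (U : Γ →* (H ≃ₗᵢ[ℂ] H)) (J : H ≃ₗᵢ⋆[ℂ] H) : Prop where
  he : ∀ i, e i = 1 ∨ e i = -1
  cont : Continuous ρ
  inj : Function.Injective ρ
  cpt : ∀ r, IsCompact {g | nsq (ρ g) ≤ r}
  inv : ∀ g, nsq (ρ g⁻¹) ≤ nsq (ρ g)
  hγ : ∀ t, ρ (γ t) = Matrix.diagonal fun i => Real.exp (t * e i / 2)
  hτ : ∀ g i j, ρ (τ g) i j = e i * e j * ρ g i j
  hU : ∀ v, Continuous fun g => U g v
  hJ : ∀ v, J (J v) = v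
  hJU : ∀ g v, J (U g (J v)) = U (τ g) v

variable {e : ι → ℝ} {ρ : Γ →* Matrix ι ι ℝ} {γ : ℝ → Γ} {τ : Γ → Γ} {U : Γ →* (H ≃ₗᵢ[ℂ] H)}
  {J : H ≃ₗᵢ⋆[ℂ] H}

namespace Setup

variable (h : Setup e ρ γ τ U J)
include h

lemma ee (i : ι) : e i * e i = 1 := by rcases h.he i with h | h <;> simp [h]

lemma τγ (t : ℝ) : τ (γ t) = γ t := by
  refine h.inj (Matrix.ext fun i j => ?_)
  rw [h.hτ, h.hγ, Matrix.diagonal_apply]
  split_ifs with h'
  · rw [← h', h.ee, one_mul]
  · simp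

lemma JU (g : Γ) (v : H) : J (U g v) = U (τ g) (J v) := by
  rw [← h.hJU, h.hJ]

lemma JU' (g : Γ) (v : H) : J (U (τ g) v) = U g (J v) := by
  rw [← h.hJU, h.hJ]

lemma WW_shift (A : Matrix ι ι ℝ) (g : Γ) (z : ℂ) (t : ℝ) :
    WW e A (ρ (γ t * g)) (z + t) = WW e A (ρ g) z := by
  ext i j
  simp only [WW, map_mul, h.hγ, Matrix.diagonal_mul]
  refine Finset.sum_congr rfl fun k _ => ?_
  have : cexp (-((z + t) * e k / 2)) * cexp (t * e k / 2) = cexp (-(z * e k / 2)) := by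
    rw [← Complex.exp_add]; congr 1; ring
  rw [← this]
  push_cast
  ring

omit h [TopologicalSpace Γ] in
lemma WW_zero (n g : Γ) : WW e (ρ n) (ρ g) 0 = WW e 1 (ρ (n * g)) 0 := by
  ext i j
  rw [WW_mid]
  simp [WW, Matrix.mul_apply]

lemma WW_pi (n g : Γ) :
    WW e (ρ n) (ρ g) (Real.pi * I) = WW e 1 (ρ (τ n * g)) (Real.pi * I) := by
  have h1 : ∀ i, cexp (-(Real.pi * I * e i / 2)) = -I * e i := fun i => by
    have := (cexp_mul_e (Real.pi / 2) (h.he i)).2
    simp only [Real.cos_pi_div_two, Real.sin_pi_div_two] at this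
    push_cast at this
    rw [show -(Real.pi * I * e i / 2) = -(Real.pi / 2 * I * e i) by ring, this]
    ring
  ext i j
  rw [WW_mid]
  simp only [WW, map_mul, Matrix.mul_apply, h.hτ, h1, ofReal_sum, Finset.mul_sum]
  refine Finset.sum_congr rfl fun k _ => ?_
  have : (e i : ℂ) * e i = 1 := by exact_mod_cast h.ee i
  push_cast
  linear_combination (I * e k * ρ n i k * ρ g k j) * this

lemma nsq_shift (g : Γ) {x M : ℝ} (hx : |x| ≤ M) :
    Real.exp (-M) * nsq (ρ g) ≤ nsq (ρ (γ x * g)) := by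
  simp only [nsq, map_mul, h.hγ, Matrix.diagonal_mul, Finset.mul_sum]
  refine Finset.sum_le_sum fun i _ => Finset.sum_le_sum fun j _ => ?_
  rw [mul_pow, ← Real.exp_nat_mul]
  refine mul_le_mul_of_nonneg_right (Real.exp_le_exp.2 ?_) (sq_nonneg _)
  have := abs_le.1 hx
  rcases h.he i with h | h <;> rw [h] <;> push_cast <;> linarith

lemma WW_strip (A : Matrix ι ι ℝ) (g : Γ) (z : ℂ) :
    WW e A (ρ g) z = WW e A (ρ (γ (-z.re) * g)) (z.im * I) := by
  rw [← h.WW_shift A g z (-z.re)]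
  congr 1
  apply Complex.ext <;> simp

lemma den_ne {A : Matrix ι ι ℝ} (hA : nsq (A - 1) ≤ 1 / 20) (g : Γ) {z : ℂ} (hz : z ∈ CS) :
    den e (WW e A (ρ g) z) ≠ 0 := by
  rw [h.WW_strip]
  have h1 := den_lower h.he hA (ρ (γ (-z.re) * g)) (Real.sin_nonneg_of_nonneg_of_le_pi hz.1 hz.2)
  have h2 := nsq_nonneg (ρ (γ (-z.re) * g))
  intro h0
  rw [h0, norm_zero] at h1
  linarith

lemma Psi_bound (L k : ℕ) (M : ℝ) : ∃ C : ℝ, ∀ A : Matrix ι ι ℝ, nsq (A - 1) ≤ 1 / 20 →
    ∀ z ∈ CS, |z.re| ≤ M → ∀ g, ‖Psi e L k (WW e A (ρ g) z)‖ ≤ C * (1 + nsq (ρ g))⁻¹ ^ L := by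
  obtain ⟨C, hC0, hC⟩ := exists_Psi_bound h.he L k
  refine ⟨C * Real.exp M ^ L, fun A hA z hz hM g => ?_⟩
  rw [h.WW_strip]
  refine (hC A hA _ _ (Real.sin_nonneg_of_nonneg_of_le_pi hz.1 hz.2)).trans ?_
  rw [mul_assoc, ← mul_pow]
  have h1 := h.nsq_shift g (x := -z.re) (M := M) (by rwa [abs_neg])
  have h2 := nsq_nonneg (ρ g)
  have h3 : Real.exp (-M) ≤ 1 := by
    rw [Real.exp_le_one_iff]; linarith [abs_nonneg z.re]
  have h4 : Real.exp (-M) * (1 + nsq (ρ g)) ≤ 1 + nsq (ρ (γ (-z.re) * g)) := by linarith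
  have h5 := nsq_nonneg (ρ (γ (-z.re) * g))
  gcongr
  calc _ ≤ (Real.exp (-M) * (1 + nsq (ρ g)))⁻¹ := by gcongr
    _ = _ := by rw [mul_inv, Real.exp_neg, inv_inv]

lemma Psi_diff (L k : ℕ) {A : Matrix ι ι ℝ} (hA : nsq (A - 1) ≤ 1 / 20) (g : Γ) {z : ℂ}
    (hz : z ∈ CS) : DifferentiableAt ℂ (fun z => Psi e L k (WW e A (ρ g) z)) z := by
  have h1 : ∀ i j, DifferentiableAt ℂ (fun z => WW e A (ρ g) z i j) z := fun i j => by
    unfold WW; fun_prop
  have h2 : DifferentiableAt ℂ (fun z => den e (WW e A (ρ g) z)) z := by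
    unfold den om; fun_prop
  have h3 := h2.inv (h.den_ne hA g hz)
  have h4 : DifferentiableAt ℂ (fun z => Dt e (WW e A (ρ g) z)) z := by
    unfold Dt
    refine ((h3.add_const _).pow _).sub (h3.mul ?_)
    fun_prop
  exact (h3.pow _).mul (h4.const_mul _).neg.cexp

lemma Psi_cont (L k : ℕ) {A : Matrix ι ι ℝ} (hA : nsq (A - 1) ≤ 1 / 20) {z : ℂ}
    (hz : z ∈ CS) : Continuous fun g => Psi e L k (WW e A (ρ g) z) := by
  have h0 : ∀ i j, Continuous fun g => ρ g i j := fun i j => h.cont.matrix_elem i j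
  have h1 : ∀ i j, Continuous fun g => WW e A (ρ g) z i j := fun i j => by
    unfold WW; fun_prop
  have h2 : Continuous fun g => den e (WW e A (ρ g) z) := by
    unfold den om; fun_prop
  have h3 := h2.inv₀ fun g => h.den_ne hA g hz
  have h4 : Continuous fun g => Dt e (WW e A (ρ g) z) := by
    unfold Dt
    refine ((h3.add continuous_const).pow _).sub (h3.mul ?_)
    fun_prop
  exact (h3.pow _).mul (continuous_const.mul h4).neg.cexp

end Setup

variable [MeasurableSpace Γ]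

def FF (e : ι → ℝ) (ρ : Γ →* Matrix ι ι ℝ) (U : Γ →* (H ≃ₗᵢ[ℂ] H)) (μ : Measure Γ) (L k : ℕ)
    (η : H) (n : Γ) (z : ℂ) : H :=
  ∫ g, Psi e L k (WW e (ρ n) (ρ g) z) • U g η ∂μ

namespace Setup

variable [IsTopologicalGroup Γ] [BorelSpace Γ] [SecondCountableTopology Γ] [CompleteSpace H]
  {μ : Measure Γ} [μ.IsMulLeftInvariant] (h : Setup e ρ γ τ U J) {L : ℕ}
  (hL : Integrable (fun g => (1 + nsq (ρ g))⁻¹ ^ L) μ) (k : ℕ) {η : H} (hη : ‖η‖ ≤ 1)

omit [SecondCountableTopology Γ] in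
lemma integral_shift (f : Γ → ℂ) (η : H) (a : Γ) :
    ∫ g, f g • U g η ∂μ = U a (∫ g, f (a * g) • U g η ∂μ) := by
  rw [← integral_mul_left_eq_self _ a]
  have := (U a).toLinearIsometry.integral_comp_comm (μ := μ) fun g => f (a * g) • U g η
  simp only [LinearIsometryEquiv.coe_toLinearIsometry, map_smul] at this
  rw [← this]
  simp

include h hL hη

lemma FF_SF {n : Γ} (hn : nsq (ρ n - 1) ≤ 1 / 20) :
    SF (fun t => U (γ t)) (FF e ρ U μ L k η n) := by
  have hv : AEStronglyMeasurable (fun g => U g η) μ := (h.hU η).aestronglyMeasurable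
  have hv1 : ∀ g, ‖U g η‖ ≤ 1 := fun g => by rwa [LinearIsometryEquiv.norm_map]
  refine ⟨fun z hz => ?_, fun z hz => ?_, fun z hz t => ?_⟩
  · obtain ⟨C, hC⟩ := h.Psi_bound L k (|z.re| + 1)
    have hev : ∀ᶠ w in 𝓝[CS] z, w ∈ CS ∧ |w.re| ≤ |z.re| + 1 := by
      refine eventually_mem_nhdsWithin.and (mem_nhdsWithin_of_mem_nhds ?_)
      exact (continuous_re.abs.continuousAt.eventually_lt continuousAt_const
        (lt_add_one _)).mono fun w hw => hw.le
    refine continuousWithinAt_of_dominated (bound := fun g => C * (1 + nsq (ρ g))⁻¹ ^ L)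
      (hev.mono fun w hw => (h.Psi_cont L k hn hw.1).aestronglyMeasurable.smul hv)
      (hev.mono fun w hw => Eventually.of_forall fun g => ?_) (hL.const_mul C)
      (Eventually.of_forall fun g =>
        ((h.Psi_diff L k hn g hz).continuousAt.smul continuousAt_const).continuousWithinAt)
    rw [norm_smul]
    have := hC _ hn w hw.1 hw.2 g
    nlinarith [hv1 g, norm_nonneg (U g η), norm_nonneg (Psi e L k (WW e (ρ n) (ρ g) w))]
  · obtain ⟨C, hC⟩ := h.Psi_bound L k (|z.re| + 1)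
    have hev : ∀ᶠ w in 𝓝 z, w ∈ OS ∧ |w.re| ≤ |z.re| + 1 := by
      refine Eventually.and (isOpen_OS.mem_nhds hz) ?_
      exact (continuous_re.abs.continuousAt.eventually_lt continuousAt_const
        (lt_add_one _)).mono fun w hw => hw.le
    obtain ⟨r, hr, hr'⟩ := Metric.eventually_nhds_iff_ball.1 hev
    exact (differentiableAt_integral_smul hr (hL.const_mul C) hv hv1
      (fun w hw => (h.Psi_cont L k hn (OS_subset (hr' w hw).1)).measurable)
      (fun g w hw => (h.Psi_diff L k hn g (OS_subset (hr' w hw).1)).differentiableWithinAt)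
      (fun w hw g => hC _ hn w (OS_subset (hr' w hw).1) (hr' w hw).2 g)).differentiableWithinAt
  · rw [FF, integral_shift _ η (γ t)]
    simp only [h.WW_shift, FF]

omit h hL hη [SecondCountableTopology Γ] in
lemma FF_zero (η : H) (n : Γ) : FF e ρ U μ L k η n 0 = U n⁻¹ (FF e ρ U μ L k η 1 0) := by
  rw [FF, integral_shift _ η n⁻¹]
  simp only [FF, WW_zero, mul_inv_cancel_left, one_mul]

omit hL hη [SecondCountableTopology Γ] in
lemma FF_pi (η : H) (n : Γ) :
    FF e ρ U μ L k η n (Real.pi * I) = U (τ n)⁻¹ (FF e ρ U μ L k η 1 (Real.pi * I)) := by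
  rw [FF, integral_shift _ η (τ n)⁻¹]
  simp only [FF, h.WW_pi n, mul_inv_cancel_left, map_one]

lemma mem_std {n : Γ} (hn : nsq (ρ n - 1) ≤ 1 / 20) (c : ℂ) :
    U n⁻¹ (c • FF e ρ U μ L k η 1 0 + J (c • FF e ρ U μ L k η 1 (Real.pi * I)))
      ∈ stdSub (fun t => U (γ t)) J := by
  have h1 := ((h.FF_SF hL k hη hn).smul c).mem' (J := J) (fun t v => by rw [h.JU, h.τγ]) h.hJ
  have h2 : ∀ v, J (U (τ n)⁻¹ v) = U n⁻¹ (J v) := fun v => by
    have := h.JU' n (U (τ n)⁻¹ v)
    rw [map_inv] at this ⊢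
    rw [map_inv]
    apply (U n).injective
    simp at this ⊢
    exact this.symm
  rw [FF_zero, h.FF_pi, ← map_smul, ← map_smul, h2, ← map_add] at h1
  exact h1

omit hL hη [MeasurableSpace Γ] [BorelSpace Γ] [SecondCountableTopology Γ] [CompleteSpace H]
  [IsTopologicalGroup Γ] in
lemma exists_nhds : ∃ N ∈ 𝓝 (1 : Γ), ∃ r : ℝ, 0 < r ∧ ∀ n ∈ N, ∀ t : ℝ, |t| ≤ r →
    nsq (ρ ((γ t)⁻¹ * n) - 1) ≤ 1 / 20 := by
  have h1 : ∀ t, (γ t)⁻¹ = γ (-t) := fun t => by
    refine inv_eq_of_mul_eq_one_left (h.inj ?_)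
    rw [map_mul, h.hγ, h.hγ, Matrix.diagonal_mul_diagonal, map_one, ← Matrix.diagonal_one]
    congr 1; ext i
    rw [← Real.exp_add, ← Real.exp_zero]; congr 1; ring
  have h2 : Continuous fun p : Γ × ℝ => nsq (ρ ((γ p.2)⁻¹ * p.1) - 1) := by
    simp only [h1, map_mul, h.hγ]
    refine continuous_nsq.comp (((Continuous.matrix_diagonal ?_).matrix_mul
      (h.cont.comp continuous_fst)).sub continuous_const)
    fun_prop
  have h3 : ∀ᶠ p : Γ × ℝ in 𝓝 (1, 0), nsq (ρ ((γ p.2)⁻¹ * p.1) - 1) < 1 / 20 := by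
    refine h2.continuousAt.eventually_lt continuousAt_const ?_
    simp [h1, h.hγ, nsq]
  rw [nhds_prod_eq, eventually_prod_iff] at h3
  obtain ⟨pa, ha, pb, hb, hab⟩ := h3
  obtain ⟨r, hr, hr'⟩ := Metric.eventually_nhds_iff.1 hb
  refine ⟨_, ha, r / 2, half_pos hr, fun n hn t ht => (hab hn (hr' ?_)).le⟩
  rw [Real.dist_0_eq_abs]; linarith

omit hL hη [MeasurableSpace Γ] [BorelSpace Γ] [SecondCountableTopology Γ] [CompleteSpace H]
  [IsTopologicalGroup Γ] in
lemma th0_cont : Continuous fun g => th0 e (ρ g) := by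
  have h0 : ∀ i j, Continuous fun g => ρ g i j := fun i j => h.cont.matrix_elem i j
  have h1 := continuous_nsq.comp h.cont
  refine Continuous.inv₀ (by fun_prop) fun g => ?_
  have := (th0_pos h.he (ρ g)).ne'
  exact fun h' => this (by rw [th0, h', inv_zero])

omit hL hη [MeasurableSpace Γ] [BorelSpace Γ] [SecondCountableTopology Γ] [CompleteSpace H]
  [IsTopologicalGroup Γ] in
lemma D0_cont : Continuous fun g => D0 e (ρ g) :=
  ((continuous_const.sub h.th0_cont).pow 2).add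
    (h.th0_cont.mul (continuous_nsq.comp (h.cont.sub continuous_const)))

omit hL hη [MeasurableSpace Γ] [BorelSpace Γ] [SecondCountableTopology Γ] [CompleteSpace H]
  [IsTopologicalGroup Γ] in
lemma D0_peak (O : Set Γ) (hO : O ∈ 𝓝 (1 : Γ)) :
    ∃ δ : ℝ, 0 < δ ∧ ∀ g, g ∉ O → δ ≤ D0 e (ρ g) := by
  set θ := th0 e (1 : Matrix ι ι ℝ) with hθ
  have hθ0 : 0 < θ := th0_pos h.he _
  have hK := (h.cpt (2 / θ)).diff (isOpen_interior (s := O))
  obtain ⟨δ, hδ, hδ'⟩ := hK.exists_forall_le' (a := 0) h.D0_cont.continuousOn fun g hg => by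
    have h1 : ρ g - 1 ≠ 0 := by
      rw [sub_ne_zero, ← map_one ρ]
      intro h'
      exact hg.2 (h.inj h' ▸ mem_interior_iff_mem_nhds.2 hO)
    obtain ⟨i, j, hij⟩ : ∃ i j, (ρ g - 1) i j ≠ 0 := by
      by_contra hc
      push Not at hc
      exact h1 (Matrix.ext hc)
    have h2 : 0 < nsq (ρ g - 1) := (sq_pos_of_ne_zero hij).trans_le (sq_le_nsq _ i j)
    exact add_pos_of_nonneg_of_pos (sq_nonneg _) (mul_pos (th0_pos h.he _) h2)
  refine ⟨min δ ((θ / 2) ^ 2), by positivity, fun g hg => ?_⟩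
  by_cases h1 : nsq (ρ g) ≤ 2 / θ
  · exact (min_le_left _ _).trans (hδ' g ⟨h1, fun h' => hg (interior_subset h')⟩)
  · refine (min_le_right _ _).trans ?_
    have h2 : th0 e (ρ g) ≤ θ / 2 := by
      refine (th0_le h.he _).trans ?_
      rw [← inv_div]
      gcongr
      linarith [not_le.1 h1]
    have h3 := mul_nonneg (th0_pos h.he (ρ g)).le (nsq_nonneg (ρ g - 1))
    have h4 : (θ / 2) ^ 2 ≤ (θ - th0 e (ρ g)) ^ 2 := by gcongr; linarith
    exact h4.trans (le_add_of_nonneg_right h3)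

omit hL hη [MeasurableSpace Γ] [BorelSpace Γ] in
theorem regular : IsRegular (fun g => U g) J γ := by
  borelize Γ
  have : LocallyCompactSpace Γ :=
    (h.cpt (nsq (ρ 1) + 1)).locallyCompactSpace_of_mem_nhds_of_group (x := 1)
      (((continuous_nsq.comp h.cont).continuousAt.eventually_lt continuousAt_const
        (lt_add_one _)).mono fun g hg => hg.le)
  set μ : Measure Γ := Measure.haar
  obtain ⟨L, hL⟩ := exists_integrable (μ := μ) h.cont h.cpt h.inv
  obtain ⟨N, hN, r, hr, hNr⟩ := h.exists_nhds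
  refine ⟨N, hN, isCyclicSub_of_orth ?_ ?_ ?_ fun v hv => ?_⟩
  · rw [mem_interN (U := fun g => U g)]
    intro g hg
    have := smul_mem_stdSub (h.mem_std hL 0 (η := 0) (by simp) (hNr g hg 0 (by simp [hr.le])) 1) 0
    simpa using this
  · intro a ha b hb
    rw [mem_interN (U := fun g => U g)] at ha hb ⊢
    intro g hg
    rw [map_add]
    exact add_mem_stdSub (ha g hg) (hb g hg)
  · intro a ha c
    rw [mem_interN (U := fun g => U g)] at ha ⊢
    intro g hg
    rw [map_smul]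
    exact smul_mem_stdSub (ha g hg) c
  have key : ∀ η : H, ‖η‖ ≤ 1 → inner ℂ v η = 0 := by
    intro η hη
    have h1 : nsq (ρ 1 - 1) ≤ 1 / 20 := by simp [nsq]
    have hmid : ∀ k, inner ℂ v (FF e ρ U μ L k η 1 (Real.pi / 2 * I)) = 0 := by
      intro k
      have hS := h.FF_SF hL k hη h1
      refine eq_zero_of_boundary (f := fun z => inner ℂ v (FF e ρ U μ L k η 1 z)) hr
        (continuousOn_const.inner hS.cont)
        ((innerSL ℂ v).differentiable.comp_differentiableOn hS.diff) (fun t ht => ?_)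
        (by simp [Real.pi_pos]) (by simp [Real.pi_pos])
      have h2 : ∀ c : ℂ, inner ℂ v (U (γ t) (c • FF e ρ U μ L k η 1 0 +
          J (c • FF e ρ U μ L k η 1 (Real.pi * I)))) = 0 := fun c => by
        refine hv _ ((mem_interN (U := fun g => U g)).2 fun g hg => ?_)
        have := h.mem_std hL k hη (hNr g hg t ht) c
        rw [mul_inv_rev, inv_inv, map_mul, map_inv] at this
        exact this
      have h3 := h2 1
      have h4 := h2 I
      have h5 := hS.equi 0 (real_mem_CS 0) t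
      rw [zero_add] at h5
      simp only [map_add, inner_add_right, J.map_smulₛₗ, map_smul, inner_smul_right, conj_I,
        map_one, one_mul, ← h5] at h3 h4
      linear_combination (1 / 2) * h3 - (I / 2) * h4
        + (inner ℂ v (FF e ρ U μ L k η 1 t) / 2
          - inner ℂ v (U (γ t) (J (FF e ρ U μ L k η 1 (Real.pi * I)))) / 2) * I_mul_I
    have hv1 : ∀ g, ‖U g η‖ ≤ 1 := fun g => by rwa [LinearIsometryEquiv.norm_map]
    have := eq_zero_of_peak (μ := μ) (x₀ := (1 : Γ)) (D := fun g => D0 e (ρ g))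
      (w := fun g => th0 e (ρ g) ^ L) (m := fun g => inner ℂ v (U g η)) h.D0_cont
      (fun g => add_nonneg (sq_nonneg _) (mul_nonneg (th0_pos h.he _).le (nsq_nonneg _)))
      (by simp [D0, nsq]) h.D0_peak (fun g => pow_pos (th0_pos h.he _) _)
      (hL.mono' (h.th0_cont.pow L).aestronglyMeasurable (Eventually.of_forall fun g => by
        rw [Real.norm_of_nonneg (pow_pos (th0_pos h.he _) _).le]
        exact pow_le_pow_left₀ (th0_pos h.he _).le (th0_le h.he _) L))
      (continuous_const.inner (h.hU η)) (C := ‖v‖) (fun g => (norm_inner_le_norm _ _).trans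
        (mul_le_of_le_one_right (norm_nonneg _) (hv1 g))) fun k => ?_
    · simpa using this
    have hmem : (Real.pi / 2 * I : ℂ) ∈ CS := by
      simp only [CS, mem_ofPred_eq]
      simp; constructor <;> linarith [Real.pi_pos]
    obtain ⟨C, hC⟩ := h.Psi_bound L k |(Real.pi / 2 * I : ℂ).re|
    have hi : Integrable (fun g => Psi e L k (WW e (ρ 1) (ρ g) (Real.pi / 2 * I)) • U g η) μ := by
      refine (hL.const_mul C).mono' ((h.Psi_cont L k h1 hmem).smul (h.hU η)).aestronglyMeasurable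
        (Eventually.of_forall fun g => ?_)
      rw [norm_smul]
      have := hC _ h1 _ hmem le_rfl g
      nlinarith [hv1 g, norm_nonneg (U g η),
        norm_nonneg (Psi e L k (WW e (ρ 1) (ρ g) (Real.pi / 2 * I)))]
    have h6 := hmid k
    rw [FF, ← integral_inner hi] at h6
    simp only [inner_smul_right, map_one, Psi_mid h.he, mul_assoc, integral_const_mul] at h6
    exact (mul_eq_zero.1 h6).resolve_left (pow_ne_zero _ (by simp))
  by_contra hne
  have h1 : (‖v‖ : ℂ) ≠ 0 := by simpa using hne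
  have := key ((‖v‖ : ℂ)⁻¹ • v) (by simp [norm_smul, inv_mul_le_one])
  rw [inner_smul_right, mul_eq_zero, inner_self_eq_zero] at this
  exact this.elim (inv_ne_zero h1) hne

end Setup

end Pool.Agent.Lib.MP_e2ef7e_al
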