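import Mathlib

/-!
Definitions: the standard subspace attached to a unitary one-parameter group and a conjugation,
and the regularity condition for an antiunitary representation.
-/

open Complex Set Topology

noncomputable section

namespace Pool.Agent.Lib.MP_e2ef7e_al

/-- The standard subspace of the vectors `v` in the domain of the square root of the modular
operator with `J (Δ^{1/2} v) = v`.  A vector `v` lies in that domain, with `Δ^{1/2} v = F (π i)`,
exactly when its orbit `t ↦ u t v` extends to a bounded continuous function `F` on the closed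
strip `0 ≤ Im z ≤ π` that is holomorphic in the open strip. -/
def stdSub {H : Type} [NormedAddCommGroup H] [InnerProductSpace ℂ H] (u : ℝ → H → H)
    (J : H → H) : Set H :=
  {v | ∃ F : ℂ → H, ContinuousOn F {z | 0 ≤ z.im ∧ z.im ≤ Real.pi} ∧
    DifferentiableOn ℂ F {z | 0 < z.im ∧ z.im < Real.pi} ∧
    (∃ C : ℝ, ∀ z : ℂ, 0 ≤ z.im → z.im ≤ Real.pi → ‖F z‖ ≤ C) ∧
    (∀ t : ℝ, F t = u t v) ∧ J (F (Real.pi * I)) = v}

/-- The intersection of the translates `U g V` over `g ∈ N`. -/
def interN {G H : Type} (U : G → H → H) (V : Set H) (N : Set G) : Set H :=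
  ⋂ g ∈ N, U g '' V

/-- A subset `W` is cyclic if `W + i W` is dense. -/
def IsCyclicSub {H : Type} [NormedAddCommGroup H] [InnerProductSpace ℂ H] (W : Set H) : Prop :=
  Dense {x : H | ∃ a ∈ W, ∃ b ∈ W, x = a + I • b}

/-- Regularity of the antiunitary representation `(U, J)` with respect to the one-parameter
group `γ`: the intersection `V_N` is cyclic for some identity neighbourhood `N`. -/
def IsRegular {G H : Type} [Group G] [TopologicalSpace G] [NormedAddCommGroup H]
    [InnerProductSpace ℂ H] (U : G → H → H) (J : H → H) (γ : ℝ → G) : Prop :=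
  ∃ N ∈ 𝓝 (1 : G), IsCyclicSub (interN U (stdSub (fun t => U (γ t)) J) N)

end Pool.Agent.Lib.MP_e2ef7e_al
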