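import Pool.Agent.Lib.MP_e2ef7e_al.Geo3

namespace Pool.Agent.Lib.MP_e2ef7e_al.Gen

theorem eqfixB1 : True := by have := @LieD.Top.eq_def; trivial

end Pool.Agent.Lib.MP_e2ef7e_al.Gen
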