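import Mathlib

/-!
The holomorphic kernel on the crown domain and its estimates.
-/

open Complex Set Topology Filter Finset

noncomputable section

namespace Pool.Agent.Lib.MP_e2ef7e_al

variable {ι : Type} [Fintype ι] [DecidableEq ι]

def nsq (M : Matrix ι ι ℝ) : ℝ := ∑ i, ∑ j, M i j ^ 2

omit [DecidableEq ι] in
lemma nsq_nonneg (M : Matrix ι ι ℝ) : 0 ≤ nsq M := by unfold nsq; positivity

omit [DecidableEq ι] in
lemma sq_le_nsq (M : Matrix ι ι ℝ) (i j : ι) : M i j ^ 2 ≤ nsq M :=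
  (single_le_sum (f := fun j => M i j ^ 2) (fun _ _ => sq_nonneg _) (mem_univ j)).trans
    (single_le_sum (f := fun i => ∑ j, M i j ^ 2) (fun _ _ => by positivity) (mem_univ i))

def WW (e : ι → ℝ) (A G : Matrix ι ι ℝ) (z : ℂ) (i j : ι) : ℂ :=
  ∑ k, (A i k : ℂ) * cexp (-(z * e k / 2)) * G k j

def om (e c : ι → ℝ) (W : ι → ι → ℂ) : ℂ := ∑ i, ∑ j, (c i * e i : ℝ) * W i j ^ 2

def c1 : ι → ℝ := fun _ => 1

def c2 (e : ι → ℝ) : ι → ℝ := fun i => (3 - e i) / 2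

def den (e : ι → ℝ) (W : ι → ι → ℂ) : ℂ := (I - om e c1 W) * (I - om e (c2 e) W)

def th0 (e : ι → ℝ) (G : Matrix ι ι ℝ) : ℝ :=
  ((1 + nsq G) * (1 + ∑ i, ∑ j, c2 e i * G i j ^ 2))⁻¹

def Dt (e : ι → ℝ) (W : ι → ι → ℂ) : ℂ :=
  ((den e W)⁻¹ + th0 e 1) ^ 2 - (den e W)⁻¹ *
    ∑ i, ∑ j, (cexp (Real.pi / 2 * I * e i / 2) * W i j - (1 : Matrix ι ι ℝ) i j) ^ 2

def Psi (e : ι → ℝ) (L k : ℕ) (W : ι → ι → ℂ) : ℂ :=
  (den e W)⁻¹ ^ L * cexp (-(k * Dt e W))

def D0 (e : ι → ℝ) (G : Matrix ι ι ℝ) : ℝ :=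
  (th0 e 1 - th0 e G) ^ 2 + th0 e G * nsq (G - 1)

def aa (e : ι → ℝ) (A G : Matrix ι ι ℝ) (i j : ι) : ℝ :=
  ∑ k, (if e k = e i then A i k else 0) * G k j

def bb (e : ι → ℝ) (A G : Matrix ι ι ℝ) (i j : ι) : ℝ :=
  ∑ k, (if e k = e i then 0 else A i k) * G k j

variable {e : ι → ℝ}

omit [DecidableEq ι] in
lemma WW_eq (he : ∀ i, e i = 1 ∨ e i = -1) (A G : Matrix ι ι ℝ) (z : ℂ) (i j : ι) :
    WW e A G z i j = cexp (-(z * e i / 2)) * aa e A G i j + cexp (z * e i / 2) * bb e A G i j := by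
  simp only [WW, aa, bb, ofReal_sum, mul_sum, ← sum_add_distrib]
  refine sum_congr rfl fun k _ => ?_
  by_cases h : e k = e i
  · simp [h]; ring
  · have : e k = -e i := by
      rcases he i with h1 | h1 <;> rcases he k with h2 | h2 <;> simp_all
    rw [if_neg h, if_neg h, this]
    simp only [ofReal_neg, mul_neg, neg_div, neg_neg, ofReal_mul, zero_mul, ofReal_zero]
    ring

omit [DecidableEq ι] in
lemma WW_sq (he : ∀ i, e i = 1 ∨ e i = -1) (A G : Matrix ι ι ℝ) (z : ℂ) (i j : ι) :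
    WW e A G z i j ^ 2 = cexp (-(z * e i)) * aa e A G i j ^ 2 + 2 * aa e A G i j * bb e A G i j
      + cexp (z * e i) * bb e A G i j ^ 2 := by
  have h1 : cexp (-(z * e i)) = cexp (-(z * e i / 2)) ^ 2 := by
    rw [← Complex.exp_nat_mul]; congr 1; push_cast; ring
  have h2 : cexp (z * e i) = cexp (z * e i / 2) ^ 2 := by
    rw [← Complex.exp_nat_mul]; congr 1; push_cast; ring
  have h3 : cexp (-(z * e i / 2)) * cexp (z * e i / 2) = 1 := by
    rw [← Complex.exp_add]; simp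
  rw [WW_eq he, h1, h2]
  linear_combination (2 * aa e A G i j * bb e A G i j) * h3

lemma ab_bound (A G : Matrix ι ι ℝ) :
    ∑ i, ∑ j, (aa e A G i j - G i j) ^ 2 ≤ nsq (A - 1) * nsq G ∧
    ∑ i, ∑ j, bb e A G i j ^ 2 ≤ nsq (A - 1) * nsq G := by
  have key : ∀ B : Matrix ι ι ℝ, (∀ i k, B i k ^ 2 ≤ (A - 1) i k ^ 2) →
      ∑ i, ∑ j, (∑ k, B i k * G k j) ^ 2 ≤ nsq (A - 1) * nsq G := by
    intro B hB
    calc _ ≤ ∑ i, ∑ j, (∑ k, (A - 1) i k ^ 2) * ∑ k, G k j ^ 2 := by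
          refine sum_le_sum fun i _ => sum_le_sum fun j _ => ?_
          refine (sum_mul_sq_le_sq_mul_sq _ _ _).trans ?_
          exact mul_le_mul_of_nonneg_right (sum_le_sum fun k _ => hB i k) (by positivity)
      _ = _ := by
          rw [nsq, nsq, sum_comm (f := fun i j => G i j ^ 2), sum_mul_sum]
  constructor
  · refine le_trans (le_of_eq ?_) (key (fun i k => if e k = e i then (A - 1) i k else 0)
      fun i k => by split_ifs <;> simp [sq_nonneg])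
    refine sum_congr rfl fun i _ => sum_congr rfl fun j _ => ?_
    congr 1
    have : G i j = ∑ k, (if e k = e i then (1 : Matrix ι ι ℝ) i k else 0) * G k j := by
      rw [sum_eq_single i] <;> simp +contextual [eq_comm]
    rw [this, aa, ← sum_sub_distrib]
    refine sum_congr rfl fun k _ => ?_
    split_ifs <;> simp [sub_mul]
  · refine key (fun i k => if e k = e i then 0 else A i k) fun i k => ?_
    split_ifs with h
    · simp [sq_nonneg]
    · have : i ≠ k := fun h' => h (by rw [h'])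
      simp [this]

lemma ab_est {A : Matrix ι ι ℝ} (hA : nsq (A - 1) ≤ 1 / 20) (G : Matrix ι ι ℝ) :
    9 / 20 * nsq G ≤ ∑ i, ∑ j, aa e A G i j ^ 2 ∧ ∑ i, ∑ j, aa e A G i j ^ 2 ≤ 3 * nsq G ∧
      ∑ i, ∑ j, bb e A G i j ^ 2 ≤ 1 / 20 * nsq G := by
  obtain ⟨h1, h2⟩ := ab_bound (e := e) A G
  have h0 := mul_le_mul_of_nonneg_right hA (nsq_nonneg G)
  have h3 : ∑ i, ∑ j, (G i j ^ 2 / 2 - (aa e A G i j - G i j) ^ 2) ≤ ∑ i, ∑ j, aa e A G i j ^ 2 :=
    sum_le_sum fun i _ => sum_le_sum fun j _ => by nlinarith [sq_nonneg (2 * aa e A G i j - G i j)]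
  have h4 : ∑ i, ∑ j, aa e A G i j ^ 2 ≤ ∑ i, ∑ j, (2 * G i j ^ 2 + 2 * (aa e A G i j - G i j) ^ 2) :=
    sum_le_sum fun i _ => sum_le_sum fun j _ => by nlinarith [sq_nonneg (aa e A G i j - 2 * G i j)]
  simp only [sum_sub_distrib, sum_add_distrib, ← sum_div, ← mul_sum] at h3 h4
  have h5 := nsq_nonneg G
  have h6 : ∑ i, ∑ j, G i j ^ 2 = nsq G := rfl
  rw [h6] at h3 h4
  exact ⟨by linarith, by linarith, by linarith⟩

lemma cexp_mul_e (s : ℝ) {x : ℝ} (hx : x = 1 ∨ x = -1) :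
    cexp (s * I * x) = Real.cos s + x * Real.sin s * I ∧
    cexp (-(s * I * x)) = Real.cos s - x * Real.sin s * I := by
  rcases hx with rfl | rfl
  · simp only [ofReal_one, mul_one, one_mul, ← neg_mul, exp_mul_I, ofReal_cos, ofReal_sin]
    simp [sub_eq_add_neg]
  · simp only [ofReal_neg, ofReal_one, mul_neg, mul_one, neg_neg, ← neg_mul, exp_mul_I, ofReal_cos,
      ofReal_sin]
    simp

omit [DecidableEq ι] in
lemma WW_sq_im (he : ∀ i, e i = 1 ∨ e i = -1) (A G : Matrix ι ι ℝ) (s : ℝ) (i j : ι) :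
    (WW e A G (s * I) i j ^ 2).im = -(e i * Real.sin s * (aa e A G i j ^ 2 - bb e A G i j ^ 2)) ∧
    (WW e A G (s * I) i j ^ 2).re = Real.cos s * (aa e A G i j ^ 2 + bb e A G i j ^ 2)
      + 2 * aa e A G i j * bb e A G i j := by
  rw [WW_sq he, (cexp_mul_e s (he i)).1, (cexp_mul_e s (he i)).2]
  simp only [← ofReal_pow]
  constructor <;> simp [-ofReal_pow, -ofReal_cos, -ofReal_sin] <;> ring

lemma im_om_nonpos (he : ∀ i, e i = 1 ∨ e i = -1) {A : Matrix ι ι ℝ} (hA : nsq (A - 1) ≤ 1 / 20)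
    (G : Matrix ι ι ℝ) {s : ℝ} (hs : 0 ≤ Real.sin s) {c : ι → ℝ} (hc1 : ∀ i, 1 ≤ c i)
    (hc2 : ∀ i, c i ≤ 2) : (om e c (WW e A G (s * I))).im ≤ 0 := by
  obtain ⟨h1, -, h3⟩ := ab_est (e := e) hA G
  have h4 : (om e c (WW e A G (s * I))).im ≤
      ∑ i, ∑ j, Real.sin s * (2 * bb e A G i j ^ 2 - aa e A G i j ^ 2) := by
    simp only [om, im_sum, im_ofReal_mul]
    refine sum_le_sum fun i _ => sum_le_sum fun j _ => ?_
    rw [(WW_sq_im he A G s i j).1]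
    have h5 : e i * e i = 1 := by rcases he i with h | h <;> simp [h]
    have h6 : c i * e i * -(e i * Real.sin s * (aa e A G i j ^ 2 - bb e A G i j ^ 2))
        = Real.sin s * (c i * bb e A G i j ^ 2 - c i * aa e A G i j ^ 2) := by
      linear_combination (-(c i) * Real.sin s * (aa e A G i j ^ 2 - bb e A G i j ^ 2)) * h5
    rw [h6]
    refine mul_le_mul_of_nonneg_left ?_ hs
    nlinarith [hc1 i, hc2 i, sq_nonneg (aa e A G i j), sq_nonneg (bb e A G i j)]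
  simp only [← mul_sum, sum_sub_distrib] at h4
  refine h4.trans (mul_nonpos_of_nonneg_of_nonpos hs ?_)
  linarith [nsq_nonneg G]

lemma one_add_le_norm {w : ℂ} (hw : w.im ≤ 0) : 1 + ‖w‖ ^ 2 ≤ ‖I - w‖ ^ 2 := by
  simp only [Complex.sq_norm, normSq_apply, sub_re, I_re, sub_im, I_im]
  nlinarith

lemma om_lower (he : ∀ i, e i = 1 ∨ e i = -1) {A : Matrix ι ι ℝ} (hA : nsq (A - 1) ≤ 1 / 20)
    (G : Matrix ι ι ℝ) (s : ℝ) :
    3 / 40 * nsq G ≤ 6 * ‖om e c1 (WW e A G (s * I))‖ + 4 * ‖om e (c2 e) (WW e A G (s * I))‖ := by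
  obtain ⟨h1, -, h3⟩ := ab_est (e := e) hA G
  set x := om e c1 (WW e A G (s * I)) with hx
  set y := om e (c2 e) (WW e A G (s * I)) with hy
  have h4 : Real.cos s * (3 * x.re - 2 * y.re) - Real.sin s * x.im =
      ∑ i, ∑ j, (Real.cos s * (WW e A G (s * I) i j ^ 2).re
        - Real.sin s * (e i * (WW e A G (s * I) i j ^ 2).im)) := by
    simp only [hx, hy, om, re_sum, im_sum, re_ofReal_mul, im_ofReal_mul, mul_sum,
      ← sum_sub_distrib, c1, c2]
    refine sum_congr rfl fun i _ => sum_congr rfl fun j _ => ?_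
    rcases he i with h | h <;> rw [h] <;> ring
  have h5 : ∑ i, ∑ j, (aa e A G i j ^ 2 / 2 - 3 * bb e A G i j ^ 2) ≤
      ∑ i, ∑ j, (Real.cos s * (WW e A G (s * I) i j ^ 2).re
        - Real.sin s * (e i * (WW e A G (s * I) i j ^ 2).im)) := by
    refine sum_le_sum fun i _ => sum_le_sum fun j _ => ?_
    rw [(WW_sq_im he A G s i j).1, (WW_sq_im he A G s i j).2]
    have h5 : e i * e i = 1 := by rcases he i with h | h <;> simp [h]
    set a := aa e A G i j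
    set b := bb e A G i j
    have h6 := Real.sin_sq_add_cos_sq s
    have h7 : Real.cos s * (Real.cos s * (a ^ 2 + b ^ 2) + 2 * a * b)
        - Real.sin s * (e i * -(e i * Real.sin s * (a ^ 2 - b ^ 2)))
        = a ^ 2 + 2 * a * (Real.cos s * b) + (2 * Real.cos s ^ 2 - 1) * b ^ 2 := by
      linear_combination (Real.sin s ^ 2 * (a ^ 2 - b ^ 2)) * h5 + (a ^ 2 - b ^ 2) * h6
    rw [h7]
    nlinarith [sq_nonneg (a + 2 * (Real.cos s * b)), sq_nonneg b, sq_nonneg (Real.cos s * b)]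
  simp only [sum_sub_distrib, ← sum_div, ← mul_sum] at h5
  have h6 : Real.cos s * (3 * x.re - 2 * y.re) - Real.sin s * x.im ≤ 6 * ‖x‖ + 4 * ‖y‖ := by
    have a1 := abs_le.1 (abs_re_le_norm x)
    have a2 := abs_le.1 (abs_re_le_norm y)
    have a3 := abs_le.1 (abs_im_le_norm x)
    have a4 := Real.neg_one_le_cos s
    have a5 := Real.cos_le_one s
    have a6 := Real.neg_one_le_sin s
    have a7 := Real.sin_le_one s
    nlinarith
  simp only [sum_sub_distrib, ← mul_sum] at h4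
  linarith

omit [Fintype ι] [DecidableEq ι] in
lemma c2_bounds (he : ∀ i, e i = 1 ∨ e i = -1) (i : ι) : 1 ≤ c2 e i ∧ c2 e i ≤ 2 := by
  rcases he i with h | h <;> simp only [c2, h] <;> norm_num

lemma den_lower (he : ∀ i, e i = 1 ∨ e i = -1) {A : Matrix ι ι ℝ} (hA : nsq (A - 1) ≤ 1 / 20)
    (G : Matrix ι ι ℝ) {s : ℝ} (hs : 0 ≤ Real.sin s) :
    (1 + nsq G) / 200 ≤ ‖den e (WW e A G (s * I))‖ := by
  have h1 := one_add_le_norm (im_om_nonpos he hA G hs (c := c1) (fun _ => le_rfl)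
    fun _ => one_le_two)
  have h2 := one_add_le_norm (im_om_nonpos he hA G hs (c := c2 e) (fun i => (c2_bounds he i).1)
    fun i => (c2_bounds he i).2)
  have h3 := om_lower he hA G s
  rw [den, norm_mul]
  set x := om e c1 (WW e A G (s * I))
  set y := om e (c2 e) (WW e A G (s * I))
  have a1 : 1 ≤ ‖I - x‖ := by nlinarith [norm_nonneg (I - x), sq_nonneg ‖x‖]
  have a2 : 1 ≤ ‖I - y‖ := by nlinarith [norm_nonneg (I - y), sq_nonneg ‖y‖]
  have a3 : ‖x‖ ≤ ‖I - x‖ := by nlinarith [norm_nonneg (I - x), norm_nonneg x]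
  have a4 : ‖y‖ ≤ ‖I - y‖ := by nlinarith [norm_nonneg (I - y), norm_nonneg y]
  nlinarith

lemma sum_norm_WW (he : ∀ i, e i = 1 ∨ e i = -1) {A : Matrix ι ι ℝ} (hA : nsq (A - 1) ≤ 1 / 20)
    (G : Matrix ι ι ℝ) (s : ℝ) : ∑ i, ∑ j, ‖WW e A G (s * I) i j‖ ^ 2 ≤ 7 * nsq G := by
  obtain ⟨-, h2, h3⟩ := ab_est (e := e) hA G
  have h4 : ∑ i, ∑ j, ‖WW e A G (s * I) i j‖ ^ 2 ≤
      ∑ i, ∑ j, (2 * aa e A G i j ^ 2 + 2 * bb e A G i j ^ 2) := by
    refine sum_le_sum fun i _ => sum_le_sum fun j _ => ?_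
    have : ‖WW e A G (s * I) i j‖ ≤ |aa e A G i j| + |bb e A G i j| := by
      rw [WW_eq he]
      refine (norm_add_le _ _).trans (le_of_eq ?_)
      simp [norm_exp]
    calc _ ≤ (|aa e A G i j| + |bb e A G i j|) ^ 2 := by gcongr
      _ ≤ _ := by
        nlinarith [sq_nonneg (|aa e A G i j| - |bb e A G i j|), sq_abs (aa e A G i j),
          sq_abs (bb e A G i j)]
  simp only [sum_add_distrib, ← mul_sum] at h4
  linarith [nsq_nonneg G]

omit [DecidableEq ι] in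
lemma th0_pos (he : ∀ i, e i = 1 ∨ e i = -1) (G : Matrix ι ι ℝ) : 0 < th0 e G := by
  have h1 := nsq_nonneg G
  have h2 : 0 ≤ ∑ i, ∑ j, c2 e i * G i j ^ 2 := sum_nonneg fun i _ => sum_nonneg fun j _ =>
    mul_nonneg (by linarith [(c2_bounds he i).1]) (sq_nonneg _)
  unfold th0; positivity

omit [DecidableEq ι] in
lemma th0_le (he : ∀ i, e i = 1 ∨ e i = -1) (G : Matrix ι ι ℝ) : th0 e G ≤ (1 + nsq G)⁻¹ := by
  have h1 := nsq_nonneg G
  have h2 : 0 ≤ ∑ i, ∑ j, c2 e i * G i j ^ 2 := sum_nonneg fun i _ => sum_nonneg fun j _ =>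
    mul_nonneg (by linarith [(c2_bounds he i).1]) (sq_nonneg _)
  unfold th0
  gcongr
  nlinarith

lemma exists_Psi_bound (he : ∀ i, e i = 1 ∨ e i = -1) (L k : ℕ) :
    ∃ C : ℝ, 0 ≤ C ∧ ∀ A : Matrix ι ι ℝ, nsq (A - 1) ≤ 1 / 20 → ∀ (G : Matrix ι ι ℝ) (s : ℝ),
      0 ≤ Real.sin s → ‖Psi e L k (WW e A G (s * I))‖ ≤ C * (1 + nsq G)⁻¹ ^ L := by
  set n1 : ℝ := nsq (1 : Matrix ι ι ℝ) with hn1
  have hn0 : 0 ≤ n1 := nsq_nonneg _
  refine ⟨200 ^ L * Real.exp (k * (201 ^ 2 + 200 * (14 + 2 * n1))), by positivity,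
    fun A hA G s hs => ?_⟩
  have h1 := den_lower he hA G hs
  have h2 := sum_norm_WW he hA G s
  have h0 := nsq_nonneg G
  set W := WW e A G (s * I)
  have h3 : ‖(den e W)⁻¹‖ ≤ 200 * (1 + nsq G)⁻¹ := by
    rw [norm_inv]
    calc _ ≤ ((1 + nsq G) / 200)⁻¹ := by gcongr
      _ = _ := by field_simp
  have h4 : (1 + nsq G)⁻¹ ≤ 1 := inv_le_one_of_one_le₀ (by linarith)
  have h5 : ‖(den e W)⁻¹ + th0 e 1‖ ≤ 201 := by
    refine (norm_add_le _ _).trans ?_
    have := th0_le he (1 : Matrix ι ι ℝ)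
    have h' : (1 + nsq (1 : Matrix ι ι ℝ))⁻¹ ≤ 1 := inv_le_one_of_one_le₀ (by linarith)
    rw [norm_real, Real.norm_eq_abs, abs_of_pos (th0_pos he _)]
    linarith
  have h6 : ‖∑ i, ∑ j, (cexp (Real.pi / 2 * I * e i / 2) * W i j - (1 : Matrix ι ι ℝ) i j) ^ 2‖
      ≤ 14 * nsq G + 2 * n1 := by
    calc _ ≤ ∑ i, ∑ j, (2 * ‖W i j‖ ^ 2 + 2 * (1 : Matrix ι ι ℝ) i j ^ 2) := by
          refine norm_sum_le_of_le _ fun i _ => norm_sum_le_of_le _ fun j _ => ?_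
          rw [norm_pow]
          have : ‖cexp (Real.pi / 2 * I * e i / 2) * W i j - (1 : Matrix ι ι ℝ) i j‖
              ≤ ‖W i j‖ + |(1 : Matrix ι ι ℝ) i j| := by
            refine (norm_sub_le _ _).trans (le_of_eq ?_)
            simp [norm_exp]
          calc _ ≤ (‖W i j‖ + |(1 : Matrix ι ι ℝ) i j|) ^ 2 := by gcongr
            _ ≤ _ := by
              nlinarith [sq_nonneg (‖W i j‖ - |(1 : Matrix ι ι ℝ) i j|),
                sq_abs ((1 : Matrix ι ι ℝ) i j)]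
      _ ≤ _ := by
          simp only [sum_add_distrib, ← mul_sum]
          have : ∑ i, ∑ j, (1 : Matrix ι ι ℝ) i j ^ 2 = n1 := rfl
          linarith
  have h7 : ‖Dt e W‖ ≤ 201 ^ 2 + 200 * (14 + 2 * n1) := by
    refine (norm_sub_le _ _).trans (add_le_add ?_ ?_)
    · rw [norm_pow]; gcongr
    · rw [norm_mul]
      calc _ ≤ 200 * (1 + nsq G)⁻¹ * (14 * nsq G + 2 * n1) := by gcongr
        _ ≤ _ := by
          rw [mul_assoc]
          gcongr
          rw [inv_mul_le_iff₀ (by linarith)]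
          nlinarith
  rw [Psi, norm_mul, norm_pow, norm_exp]
  have h8 : (-(k * Dt e W)).re ≤ k * (201 ^ 2 + 200 * (14 + 2 * n1)) := by
    refine (re_le_norm _).trans ?_
    rw [norm_neg, norm_mul, Complex.norm_natCast]
    gcongr
  calc _ ≤ (200 * (1 + nsq G)⁻¹) ^ L * Real.exp (k * (201 ^ 2 + 200 * (14 + 2 * n1))) := by
        gcongr
    _ = _ := by rw [mul_pow]; ring

lemma WW_mid (G : Matrix ι ι ℝ) (z : ℂ) (i j : ι) :
    WW e 1 G z i j = cexp (-(z * e i / 2)) * G i j := by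
  rw [WW, sum_eq_single i] <;> simp +contextual [eq_comm]

lemma Psi_mid (he : ∀ i, e i = 1 ∨ e i = -1) (L k : ℕ) (G : Matrix ι ι ℝ) :
    Psi e L k (WW e 1 G (Real.pi / 2 * I)) =
      (-1) ^ L * ((th0 e G ^ L * Real.exp (-(k * D0 e G)) : ℝ) : ℂ) := by
  have h1 : ∀ (c : ι → ℝ), om e c (WW e 1 G (Real.pi / 2 * I)) =
      -I * (∑ i, ∑ j, c i * G i j ^ 2 : ℝ) := fun c => by
    simp only [om, ofReal_sum, mul_sum]
    refine sum_congr rfl fun i _ => sum_congr rfl fun j _ => ?_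
    have h2 : cexp (-(Real.pi / 2 * I * e i / 2)) ^ 2 = -I * e i := by
      have := (cexp_mul_e (Real.pi / 2) (he i)).2
      rw [← Complex.exp_nat_mul]
      simp only [Real.cos_pi_div_two, Real.sin_pi_div_two] at this
      push_cast at this ⊢
      rw [show 2 * -(Real.pi / 2 * I * e i / 2) = -(Real.pi / 2 * I * e i) by ring, this]
      ring
    have h5 : (e i : ℂ) * e i = 1 := by rcases he i with h | h <;> simp [h]
    rw [WW_mid, mul_pow, h2]
    push_cast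
    linear_combination (-I * c i * G i j ^ 2) * h5
  have h2 : (den e (WW e 1 G (Real.pi / 2 * I)))⁻¹ = -(th0 e G : ℝ) := by
    rw [den, h1, h1, th0, ofReal_inv, ← inv_neg]
    congr 1
    simp only [c1, one_mul, nsq]
    push_cast
    linear_combination ((1 + ∑ i, ∑ j, (G i j : ℂ) ^ 2) *
      (1 + ∑ i, ∑ j, (c2 e i : ℂ) * (G i j : ℂ) ^ 2)) * I_mul_I
  have h3 : Dt e (WW e 1 G (Real.pi / 2 * I)) = D0 e G := by
    rw [Dt, h2, D0]
    have : ∀ i j, cexp (Real.pi / 2 * I * e i / 2) * WW e 1 G (Real.pi / 2 * I) i j = G i j := by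
      intro i j
      rw [WW_mid, ← mul_assoc, ← Complex.exp_add]; simp
    simp only [this, nsq, Matrix.sub_apply]
    push_cast
    ring
  rw [Psi, h2, h3, neg_pow]
  push_cast
  ring

end Pool.Agent.Lib.MP_e2ef7e_al
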