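import Pool.Agent.Lib.MP_e2ef7e_al.Core

/-!
Reduction of the general statement to the normalised one.
-/

open Complex Set Topology Filter MeasureTheory Matrix

noncomputable section

namespace Pool.Agent.Lib.MP_e2ef7e_al

variable {ι : Type} [Fintype ι] [DecidableEq ι] {Γ : Type} [Group Γ]

/-- a representation together with its contragredient -/
def dbl (ρ : Γ →* Matrix ι ι ℝ) : Γ →* Matrix (ι ⊕ ι) (ι ⊕ ι) ℝ where
  toFun g := fromBlocks (ρ g) 0 0 (ρ g⁻¹)ᵀ
  map_one' := by simp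
  map_mul' a b := by simp [fromBlocks_multiply]

lemma nsq_dbl (ρ : Γ →* Matrix ι ι ℝ) (g : Γ) : nsq (dbl ρ g) = nsq (ρ g) + nsq (ρ g⁻¹) := by
  simp only [nsq, dbl, MonoidHom.coe_mk, OneHom.coe_mk, Fintype.sum_sum_type]
  simp
  exact Finset.sum_comm

/-- a representation twisted by scalars -/
def tw (ρ : Γ →* Matrix ι ι ℝ) (c : ℝ) :
    Γ × Multiplicative ℝ →* Matrix (ι ⊕ Unit) (ι ⊕ Unit) ℝ where
  toFun g := fromBlocks (Real.exp (-(c * g.2.toAdd)) • ρ g.1) 0 0
    (Real.exp (g.2.toAdd / 2) • (1 : Matrix Unit Unit ℝ))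
  map_one' := by simp
  map_mul' a b := by
    simp [fromBlocks_multiply, smul_smul, ← Real.exp_add, mul_add, add_div, add_comm]

lemma nsq_tw (ρ : Γ →* Matrix ι ι ℝ) (c : ℝ) (g : Γ × Multiplicative ℝ) :
    nsq (tw ρ c g) = Real.exp (-(c * g.2.toAdd)) ^ 2 * nsq (ρ g.1) + Real.exp g.2.toAdd := by
  simp only [nsq, tw, MonoidHom.coe_mk, OneHom.coe_mk, Fintype.sum_sum_type]
  simp [mul_pow, Finset.mul_sum, ← Real.exp_nat_mul]
  ring_nf

variable [TopologicalSpace Γ] [IsTopologicalGroup Γ] [SecondCountableTopology Γ]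
  {H : Type} [NormedAddCommGroup H] [InnerProductSpace ℂ H] [CompleteSpace H]

theorem regular_half {e : ι → ℝ} {ρ : Γ →* Matrix ι ι ℝ} {γ : ℝ → Γ} {τ : Γ → Γ}
    {U : Γ →* (H ≃ₗᵢ[ℂ] H)} {J : H ≃ₗᵢ⋆[ℂ] H} (he : ∀ i, e i = 1 ∨ e i = -1)
    (cont : Continuous ρ) (inj : Function.Injective ρ)
    (cpt : ∀ r, IsCompact {g | nsq (ρ g) + nsq (ρ g⁻¹) ≤ r})
    (hγ : ∀ t, ρ (γ t) = Matrix.diagonal fun i => Real.exp (t * e i / 2))
    (hτ : ∀ g i j, ρ (τ g) i j = e i * e j * ρ g i j)
    (hU : ∀ v, Continuous fun g => U g v) (hJ : ∀ v, J (J v) = v)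
    (hJU : ∀ g v, J (U g (J v)) = U (τ g) v) : IsRegular (fun g => U g) J γ := by
  have ee : ∀ i, e i * e i = 1 := fun i => by rcases he i with h | h <;> simp [h]
  have hτ' : ∀ g, ρ (τ g) = diagonal e * ρ g * diagonal e := fun g => by
    ext i j; simp [hτ]; ring
  have hee : diagonal e * diagonal e = 1 := by simp [ee]
  have hγ' : ∀ t, (γ t)⁻¹ = γ (-t) := fun t => by
    refine inv_eq_of_mul_eq_one_left (inj ?_)
    rw [map_mul, hγ, hγ, Matrix.diagonal_mul_diagonal, map_one, ← Matrix.diagonal_one]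
    congr 1; ext i
    rw [← Real.exp_add, ← Real.exp_zero]; congr 1; ring
  have hτi : ∀ g, (τ g)⁻¹ = τ g⁻¹ := fun g => by
    refine inv_eq_of_mul_eq_one_left (inj ?_)
    rw [map_mul, hτ', hτ', map_one]
    calc _ = diagonal e * ρ g⁻¹ * (diagonal e * diagonal e) * ρ g * diagonal e := by
          simp only [Matrix.mul_assoc]
      _ = 1 := by rw [hee, Matrix.mul_one, Matrix.mul_assoc (diagonal e), ← map_mul]; simp [hee]
  refine Setup.regular (e := Sum.elim e (-e)) (ρ := dbl ρ) (τ := τ) ⟨?_, ?_, ?_, ?_, ?_, ?_, ?_,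
    hU, hJ, hJU⟩
  · rintro (i | i)
    · exact he i
    · rcases he i with h | h <;> simp [h]
  · exact cont.matrix_fromBlocks continuous_const continuous_const
      (cont.comp continuous_inv).matrix_transpose
  · exact fun a b h => inj (fromBlocks_inj.1 h).1
  · simpa only [nsq_dbl] using cpt
  · intro g; rw [nsq_dbl, nsq_dbl, inv_inv, add_comm]
  · intro t
    ext (i | i) (j | j) <;> simp [dbl, hγ', hγ, Matrix.diagonal_apply]
  · rintro g (i | i) (j | j) <;> simp [dbl, hτi, hτ, mul_comm]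

theorem regular_gen {lam : ι → ℝ} {c : ℝ} {ρ : Γ →* Matrix ι ι ℝ} {γ : ℝ → Γ} {τ : Γ → Γ}
    {U : Γ →* (H ≃ₗᵢ[ℂ] H)} {J : H ≃ₗᵢ⋆[ℂ] H} (hl : ∀ i, lam i = c ∨ lam i = c + 1)
    (cont : Continuous ρ) (inj : Function.Injective ρ)
    (cpt : ∀ r, IsCompact {g | nsq (ρ g) + nsq (ρ g⁻¹) ≤ r})
    (hγ : ∀ t, ρ (γ t) = Matrix.diagonal fun i => Real.exp (t * lam i))
    (hτ : ∀ g i j, ρ (τ g) i j = (if lam i = lam j then 1 else -1) * ρ g i j)
    (hU : ∀ v, Continuous fun g => U g v) (hJ : ∀ v, J (J v) = v)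
    (hJU : ∀ g v, J (U g (J v)) = U (τ g) v) : IsRegular (fun g => U g) J γ := by
  let e : ι → ℝ := fun i => 2 * (lam i - c) - 1
  have he : ∀ i, e i = 1 ∨ e i = -1 := fun i => by
    rcases hl i with h | h
    · simp [e, h]
    · simp [e, h]; norm_num
  have hee : ∀ i j, e i * e j = if lam i = lam j then 1 else -1 := fun i j => by
    rcases hl i with h | h <;> rcases hl j with h' | h' <;> simp [e, h, h'] <;> norm_num
  have hc2 : Continuous fun g : Γ × Multiplicative ℝ => g.2.toAdd :=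
    continuous_toAdd.comp continuous_snd
  have := regular_half (Γ := Γ × Multiplicative ℝ) (e := Sum.elim e fun _ => 1)
    (ρ := tw ρ (c + 1 / 2)) (γ := fun t => (γ t, Multiplicative.ofAdd t))
    (τ := fun g => (τ g.1, g.2)) (U := U.comp (MonoidHom.fst _ _)) (J := J) ?_ ?_ ?_ ?_ ?_ ?_
    (fun v => (hU v).comp continuous_fst) hJ fun g v => hJU g.1 v
  · obtain ⟨N, hN, h⟩ := this
    refine ⟨Prod.fst '' N, isOpenMap_fst.image_mem_nhds hN, ?_⟩
    rw [interN, biInter_image]
    exact h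
  · rintro (i | i)
    · exact he i
    · simp
  · refine Continuous.matrix_fromBlocks ?_ continuous_const continuous_const ?_ <;> fun_prop
  · intro a b h
    obtain ⟨h1, -, -, h2⟩ := fromBlocks_inj.1 h
    have h3 : a.2 = b.2 := by
      have := congrFun (congrFun h2 ()) ()
      simp only [Matrix.smul_apply, one_apply_eq, smul_eq_mul, mul_one, Real.exp_eq_exp] at this
      exact Multiplicative.toAdd.injective (by linarith)
    rw [h3] at h1
    exact Prod.ext (inj (smul_right_injective _ (Real.exp_pos _).ne' h1)) h3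
  · intro r
    set c' := c + 1 / 2
    have hK := (cpt (Real.exp (|c'| * r) ^ 2 * r)).prod
      ((isCompact_Icc (a := -r) (b := r)).image continuous_ofAdd)
    refine hK.of_isClosed_subset (isClosed_le ?_ continuous_const) fun g hg => ?_
    · have h1 := continuous_nsq.comp cont
      have h2 := h1.comp continuous_inv
      simp only [nsq_tw]
      have h3 := h1.comp (continuous_fst (X := Γ) (Y := Multiplicative ℝ))
      have h4 := h2.comp (continuous_fst (X := Γ) (Y := Multiplicative ℝ))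
      exact (((hc2.const_mul _).neg.rexp.pow 2).mul h3 |>.add hc2.rexp).add
        ((((hc2.neg).const_mul _).neg.rexp.pow 2).mul h4 |>.add hc2.neg.rexp)
    · simp only [mem_ofPred_eq, nsq_tw, Prod.snd_inv, toAdd_inv, Prod.fst_inv] at hg
      set a := g.2.toAdd
      have h1 := nsq_nonneg (ρ g.1)
      have h2 := nsq_nonneg (ρ g.1⁻¹)
      have h3 := Real.add_one_le_exp a
      have h4 := Real.add_one_le_exp (-a)
      have h5 := mul_nonneg (sq_nonneg (Real.exp (-(c' * a)))) h1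
      have h6 := mul_nonneg (sq_nonneg (Real.exp (-(c' * -a)))) h2
      have h7 := Real.exp_pos a
      have h8 := Real.exp_pos (-a)
      have ha : |a| ≤ r := abs_le.2 ⟨by linarith, by linarith⟩
      refine ⟨?_, a, abs_le.1 ha, rfl⟩
      have hb : |c' * a| ≤ |c'| * r := by rw [abs_mul]; gcongr
      have k : ∀ x y : ℝ, 0 ≤ y → |x| ≤ |c'| * r →
          y ≤ Real.exp (|c'| * r) ^ 2 * (Real.exp x ^ 2 * y) := fun x y hy hx => by
        rw [← mul_assoc, ← mul_pow, ← Real.exp_add]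
        refine le_mul_of_one_le_left hy (one_le_pow₀ (Real.one_le_exp ?_))
        linarith [(abs_le.1 hx).1]
      have k1 := k (-(c' * a)) _ h1 (by rwa [abs_neg])
      have k2 := k (-(c' * -a)) _ h2 (by rwa [abs_neg, mul_neg, abs_neg])
      show nsq (ρ g.1) + nsq (ρ g.1⁻¹) ≤ _
      refine (add_le_add k1 k2).trans ?_
      rw [← mul_add]
      gcongr
      linarith
  · intro t
    ext (i | i) (j | j) <;> simp [tw, hγ, Matrix.diagonal_apply, ← Real.exp_add, e]
    split_ifs
    · congr 1; ring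
    · rfl
  · rintro g (i | i) (j | j) <;> simp [tw, hτ, hee]

lemma isCompact_GL (Γ : Subgroup (GL ι ℝ)) (hΓ : IsClosed (Γ : Set (GL ι ℝ))) (r : ℝ) :
    IsCompact {g : Γ | nsq ((g : GL ι ℝ) : Matrix ι ι ℝ) +
      nsq (((g⁻¹ : Γ) : GL ι ℝ) : Matrix ι ι ℝ) ≤ r} := by
  have h1 : IsCompact {M : Matrix ι ι ℝ | nsq M ≤ r} := by
    have h2 : IsCompact (Set.pi univ fun _ : ι => Set.pi univ fun _ : ι => Icc (-(r + 1)) (r + 1)) :=
      isCompact_univ_pi fun _ => isCompact_univ_pi fun _ => isCompact_Icc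
    refine h2.of_isClosed_subset (isClosed_le continuous_nsq continuous_const) fun M hM i _ j _ => ?_
    have h3 := (sq_le_nsq M i j).trans hM
    constructor <;> nlinarith [sq_nonneg (M i j + 1), sq_nonneg (M i j - 1), sq_nonneg (M i j)]
  have h2 := (Units.isClosedEmbedding_embedProduct.comp
    hΓ.isClosedEmbedding_subtypeVal).isCompact_preimage
      (h1.prod (h1.image MulOpposite.continuous_op))
  refine h2.of_isClosed_subset (isClosed_le ?_ continuous_const) fun g hg => ?_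
  · have h3 : Continuous fun g : Γ => nsq ((g : GL ι ℝ) : Matrix ι ι ℝ) :=
      continuous_nsq.comp (Units.continuous_val.comp continuous_subtype_val)
    exact h3.add (h3.comp continuous_inv)
  · have h3 := nsq_nonneg ((g : GL ι ℝ) : Matrix ι ι ℝ)
    have h4 := nsq_nonneg (((g⁻¹ : Γ) : GL ι ℝ) : Matrix ι ι ℝ)
    exact ⟨show nsq _ ≤ r from le_trans (le_add_of_nonneg_right h4) hg,
      _, show nsq _ ≤ r from le_trans (le_add_of_nonneg_left h3) hg, rfl⟩

omit [Fintype ι] [DecidableEq ι] in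
lemma secondCountable_GL {n : ℕ} (Γ : Subgroup (GL (Fin n) ℝ)) : SecondCountableTopology Γ := by
  have : SecondCountableTopology (Matrix (Fin n) (Fin n) ℝ) :=
    inferInstanceAs (SecondCountableTopology (Fin n → Fin n → ℝ))
  have : SecondCountableTopology (Matrix (Fin n) (Fin n) ℝ)ᵐᵒᵖ :=
    MulOpposite.opHomeomorph.symm.isEmbedding.secondCountableTopology
  have : SecondCountableTopology (GL (Fin n) ℝ) :=
    Units.isEmbedding_embedProduct.secondCountableTopology
  exact TopologicalSpace.Subtype.secondCountableTopology (Γ : Set (GL (Fin n) ℝ))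

end Pool.Agent.Lib.MP_e2ef7e_al
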