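import Mathlib

/-!
Interface for the general case: a complexified Lie algebra in coordinates, its grading, and a
family of unitary one-parameter groups which represents it.
-/

noncomputable section

namespace Pool.Agent.Lib.MP_e2ef7e_al.Gen

/-- basis vector -/
def bv {ι : Type} [DecidableEq ι] (i : ι) : ι → ℂ := Pi.single i 1

/-- A complex Lie bracket on `ι → ℂ` with real structure constants. -/
structure LieD (ι : Type) [Fintype ι] where
  br : (ι → ℂ) →L[ℂ] (ι → ℂ) →L[ℂ] (ι → ℂ)
  anti : ∀ x, br x x = 0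
  jac : ∀ x y z, br x (br y z) = br (br x y) z + br y (br x z)
  real : ∀ x y, star (br x y) = br (star x) (star y)

/-- The generator of a one-parameter family, as a total function. -/
def gen {H : Type} [NormedAddCommGroup H] [InnerProductSpace ℂ H] (u : ℝ → H ≃ₗᵢ[ℂ] H) (v : H) :
    H := deriv (fun t => u t v) 0

/-- Unitary one-parameter groups attached to the basis vectors, with a dense invariant set of
differentiable vectors on which the adjoint action is implemented. -/
structure Rep {ι : Type} [Fintype ι] [DecidableEq ι] (L : LieD ι) (H : Type)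
    [NormedAddCommGroup H] [InnerProductSpace ℂ H] where
  E : ι → ℝ → H ≃ₗᵢ[ℂ] H
  E_add : ∀ i s t v, E i (s + t) v = E i s (E i t v)
  cont : ∀ i v, Continuous fun t => E i t v
  D0 : Set H
  dense : Dense D0
  der : ∀ v ∈ D0, ∀ i, DifferentiableAt ℝ (fun t => E i t v) 0
  gen_mem : ∀ v ∈ D0, ∀ i, gen (E i) v ∈ D0
  E_mem : ∀ v ∈ D0, ∀ i t, E i t v ∈ D0
  Ad : ∀ v ∈ D0, ∀ i j (t : ℝ), E i t (gen (E j) v) =
    ∑ l, NormedSpace.exp ((t : ℂ) • L.br (bv i)) (bv j) l • gen (E l) (E i t v)

/-- index type: degree zero part, degree `-1` part, the grading element, degree `1` part -/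
abbrev Idx (r m p : ℕ) : Type := Fin r ⊕ Fin m ⊕ Unit ⊕ Fin p

def i0 {r m p : ℕ} (k : Fin r) : Idx r m p := Sum.inl k
def im {r m p : ℕ} (k : Fin m) : Idx r m p := Sum.inr (Sum.inl k)
def iD {r m p : ℕ} : Idx r m p := Sum.inr (Sum.inr (Sum.inl ()))
def ip {r m p : ℕ} (k : Fin p) : Idx r m p := Sum.inr (Sum.inr (Sum.inr k))

/-- the degree of a basis vector -/
def wt {r m p : ℕ} : Idx r m p → ℤ
  | Sum.inl _ => 0
  | Sum.inr (Sum.inl _) => -1
  | Sum.inr (Sum.inr (Sum.inl _)) => 0
  | Sum.inr (Sum.inr (Sum.inr _)) => 1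

/-- The basis vector `iD` is a grading element, and brackets have no component along it. -/
structure Graded {r m p : ℕ} (L : LieD (Idx r m p)) : Prop where
  hD : ∀ i, L.br (bv iD) (bv i) = (wt i : ℂ) • bv i
  noD : ∀ x y, L.br x y iD = 0

end Pool.Agent.Lib.MP_e2ef7e_al.Gen
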