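import Pool.Agent.Lib.MP_e2ef7e_al.Defs

/-!
Elementary properties of the standard subspace.
-/

open Complex Set Topology Filter
open scoped ComplexConjugate

noncomputable section

namespace Pool.Agent.Lib.MP_e2ef7e_al

variable {H : Type} [NormedAddCommGroup H] [InnerProductSpace ℂ H]

def CS : Set ℂ := {z | 0 ≤ z.im ∧ z.im ≤ Real.pi}

def OS : Set ℂ := {z | 0 < z.im ∧ z.im < Real.pi}

lemma isOpen_OS : IsOpen OS :=
  (isOpen_lt continuous_const continuous_im).inter (isOpen_lt continuous_im continuous_const)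

lemma OS_subset : OS ⊆ CS := fun _ h => ⟨h.1.le, h.2.le⟩

lemma real_mem_CS (t : ℝ) : (t : ℂ) ∈ CS := by simp [CS, Real.pi_pos.le]

lemma piI_mem_CS : (Real.pi * I : ℂ) ∈ CS := by simp [CS, Real.pi_pos.le]

/-- equivariant strip functions -/
structure SF (u : ℝ → H ≃ₗᵢ[ℂ] H) (F : ℂ → H) : Prop where
  cont : ContinuousOn F CS
  diff : DifferentiableOn ℂ F OS
  equi : ∀ z ∈ CS, ∀ t : ℝ, F (z + t) = u t (F z)

variable {u : ℝ → H ≃ₗᵢ[ℂ] H} {J : H ≃ₗᵢ⋆[ℂ] H} {F : ℂ → H}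

lemma SF.smul (h : SF u F) (c : ℂ) : SF u fun z => c • F z :=
  ⟨h.cont.const_smul c, h.diff.const_smul c, fun z hz t => by rw [h.equi z hz, map_smul]⟩

lemma SF.add {G : ℂ → H} (h : SF u F) (h' : SF u G) : SF u fun z => F z + G z :=
  ⟨h.cont.add h'.cont, h.diff.add h'.diff, fun z hz t => by
    rw [h.equi z hz, h'.equi z hz, map_add]⟩

lemma SF.refl (h : SF u F) (hJ : ∀ t v, J (u t v) = u t (J v)) :
    SF u fun z => J (F (Real.pi * I + conj z)) := by
  have hm : ∀ z ∈ CS, Real.pi * I + conj z ∈ CS := fun z hz => by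
    simp only [CS, mem_ofPred_eq] at hz ⊢
    simp; constructor <;> linarith
  refine ⟨J.continuous.comp_continuousOn (h.cont.comp (by fun_prop) hm), fun z hz => ?_,
    fun z hz t => ?_⟩
  · have hz' : Real.pi * I + conj z ∈ OS := by
      simp only [OS, mem_ofPred_eq] at hz ⊢
      simp; constructor <;> linarith
    have h1 : DifferentiableAt ℂ (fun w => F (Real.pi * I + w)) (conj z) :=
      (h.diff.differentiableAt (isOpen_OS.mem_nhds hz')).comp (conj z) (by fun_prop)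
    have h2 := h1.comp_semilinear₁ (σ := starRingEnd ℂ) (starRingEnd ℂ)
      J.toContinuousLinearEquiv.toContinuousLinearMap
    rw [conj_conj] at h2
    exact h2.differentiableWithinAt
  · rw [map_add, conj_ofReal, ← add_assoc, h.equi _ (hm z hz), hJ]

lemma SF.mem (h : SF u F) (hF : J (F (Real.pi * I)) = F 0) :
    F 0 ∈ stdSub (fun t => u t) J := by
  refine ⟨F, h.cont, h.diff, ?_, fun t => ?_, hF⟩
  · have hc : IsCompact ((fun s : ℝ => (s * I : ℂ)) '' Icc 0 Real.pi) :=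
      isCompact_Icc.image (by fun_prop)
    obtain ⟨C, hC⟩ := hc.exists_bound_of_continuousOn (h.cont.mono (by
      rintro _ ⟨s, hs, rfl⟩; simpa [CS] using hs))
    refine ⟨C, fun z h1 h2 => ?_⟩
    have e : z = z.im * I + z.re := by rw [add_comm, re_add_im]
    rw [e, h.equi _ (by simp [CS, h1, h2]), LinearIsometryEquiv.norm_map]
    exact hC _ ⟨z.im, ⟨h1, h2⟩, rfl⟩
  · have := h.equi 0 (real_mem_CS 0) t
    rwa [zero_add] at this

lemma SF.mem' (h : SF u F) (hJ : ∀ t v, J (u t v) = u t (J v)) (hJJ : ∀ v, J (J v) = v) :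
    F 0 + J (F (Real.pi * I)) ∈ stdSub (fun t => u t) J := by
  have := (h.add (h.refl hJ)).mem (J := J) (by simp [hJJ, add_comm])
  simpa using this

lemma add_mem_stdSub {a b : H} (ha : a ∈ stdSub (fun t => u t) J)
    (hb : b ∈ stdSub (fun t => u t) J) : a + b ∈ stdSub (fun t => u t) J := by
  obtain ⟨F, h1, h2, ⟨C, h3⟩, h4, h5⟩ := ha
  obtain ⟨G, g1, g2, ⟨D, g3⟩, g4, g5⟩ := hb
  refine ⟨fun z => F z + G z, h1.add g1, h2.add g2, ⟨C + D, fun z a b =>
    norm_add_le_of_le (h3 z a b) (g3 z a b)⟩, fun t => ?_, ?_⟩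
  · simp [h4, g4]
  · simp [h5, g5]

lemma smul_mem_stdSub {a : H} (ha : a ∈ stdSub (fun t => u t) J) (r : ℝ) :
    (r : ℂ) • a ∈ stdSub (fun t => u t) J := by
  obtain ⟨F, h1, h2, ⟨C, h3⟩, h4, h5⟩ := ha
  refine ⟨fun z => (r : ℂ) • F z, h1.const_smul _, h2.const_smul _, ⟨‖(r : ℂ)‖ * C, fun z a b => by
    rw [norm_smul]; exact mul_le_mul_of_nonneg_left (h3 z a b) (norm_nonneg _)⟩, fun t => ?_, ?_⟩
  · simp only [h4, map_smul]
  · rw [J.map_smulₛₗ, conj_ofReal, h5]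

lemma isCyclicSub_of_orth [CompleteSpace H] {W : Set H} (h0 : (0 : H) ∈ W)
    (hadd : ∀ a ∈ W, ∀ b ∈ W, a + b ∈ W) (hsmul : ∀ a ∈ W, ∀ r : ℝ, (r : ℂ) • a ∈ W)
    (h : ∀ v : H, (∀ a ∈ W, inner ℂ v a = 0) → v = 0) : IsCyclicSub W := by
  let K : Submodule ℂ H :=
    { carrier := {x : H | ∃ a ∈ W, ∃ b ∈ W, x = a + I • b}
      add_mem' := by
        rintro _ _ ⟨a, ha, b, hb, rfl⟩ ⟨c, hc, d, hd, rfl⟩
        exact ⟨a + c, hadd _ ha _ hc, b + d, hadd _ hb _ hd, by rw [smul_add]; abel⟩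
      zero_mem' := ⟨0, h0, 0, h0, by simp⟩
      smul_mem' := by
        rintro c _ ⟨a, ha, b, hb, rfl⟩
        refine ⟨(c.re : ℂ) • a + ((-c.im : ℝ) : ℂ) • b, hadd _ (hsmul _ ha _) _ (hsmul _ hb _),
          (c.im : ℂ) • a + (c.re : ℂ) • b, hadd _ (hsmul _ ha _) _ (hsmul _ hb _), ?_⟩
        conv_lhs => rw [← re_add_im c]
        push_cast
        match_scalars
        · ring
        · linear_combination (c.im : ℂ) * I_mul_I }
  have hK : K.topologicalClosure = ⊤ := by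
    rw [Submodule.topologicalClosure_eq_top_iff, Submodule.eq_bot_iff]
    intro v hv
    refine h v fun a ha => ?_
    exact (Submodule.mem_orthogonal' K v).1 hv a ⟨a, ha, 0, h0, by simp⟩
  exact Submodule.dense_iff_topologicalClosure_eq_top.2 hK

lemma mem_interN {G : Type} {U : G → H ≃ₗᵢ[ℂ] H} {V : Set H} {N : Set G} {a : H} :
    a ∈ interN (fun g => U g) V N ↔ ∀ g ∈ N, (U g).symm a ∈ V := by
  simp only [interN, mem_iInter, mem_image]
  refine forall₂_congr fun g _ => ⟨?_, fun h => ⟨_, h, by simp⟩⟩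
  rintro ⟨x, hx, rfl⟩
  simpa using hx

end Pool.Agent.Lib.MP_e2ef7e_al
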