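import Pool.Agent.Lib.MP_e2ef7e_al.GRep
import Pool.Agent.Lib.MP_e2ef7e_al.Std

/-!
Interfaces between the parts of the proof in the general case.
-/

open MeasureTheory Complex
open scoped ComplexConjugate InnerProductSpace ContDiff

noncomputable section

namespace Pool.Agent.Lib.MP_e2ef7e_al.Gen

/-- directional derivative -/
def pd {X F : Type} [NormedAddCommGroup X] [NormedSpace ℝ X] [NormedAddCommGroup F]
    [NormedSpace ℝ F] (f : X → F) (w : X) (x : X) : F := fderiv ℝ f x w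

section general

variable {ι : Type} [Fintype ι] [DecidableEq ι] {L : LieD ι}
  {H : Type} [NormedAddCommGroup H] [InnerProductSpace ℂ H]
  {X : Type} [NormedAddCommGroup X] [NormedSpace ℝ X]

/-- smooth functions with values in the smooth vectors -/
def Rep.Sm (R : Rep L H) : Set (X → H) :=
  {g | ∃ S : Set (X → H), g ∈ S ∧ ∀ f ∈ S, ContDiff ℝ ∞ f ∧
    ∀ j, (∀ x, Dom (R.E j) (f x)) ∧ (fun x => gen (R.E j) (f x)) ∈ S}

/-- the equation `∂_w F = dU (a) F` on `Ω` in the weak sense -/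
def Rep.WEq [MeasurableSpace X] (R : Rep L H) (μ : Measure X) (Ω : Set X) (F : X → H) (w : X)
    (a : X → ι → ℂ) : Prop :=
  ∀ θ : X → ℂ, ContDiff ℝ ∞ θ → HasCompactSupport θ → tsupport θ ⊆ Ω → ∀ ψ ∈ R.Dinf,
    ∫ x, pd θ w x * ⟪ψ, F x⟫_ℂ ∂μ = ∫ x, θ x * ⟪R.dU (star (a x)) ψ, F x⟫_ℂ ∂μ

/-- Data for the `L²` method: a flat connection form, its torsion coefficients and a strictly
plurisubharmonic exhaustion function. -/
structure HData (L : LieD ι) (e : ι → X) where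
  B : Set X
  opn : IsOpen B
  om : ι → X → ι → ℂ
  om_smooth : ∀ j, ContDiff ℝ ∞ (om j)
  mc : ∀ j k x, pd (om j) (e k) x - pd (om k) (e j) x = L.br (om k x) (om j x)
  Γ : ι → ι → ι → X → ℂ
  Γ_smooth : ∀ k j l, ContDiffOn ℝ ∞ (Γ k j l) B
  hΓ : ∀ x ∈ B, ∀ k j, star (pd (om k) (e j) x) - pd (om j) (e k) x +
    L.br (star (om k x)) (om j x) = ∑ l, Γ k j l x • (star (om l x) - om l x)
  C : ℝ
  Γ_bd : ∀ x ∈ B, ∀ k j l, ‖Γ k j l x‖ ≤ C
  dΓ_bd : ∀ x ∈ B, ∀ k j l, ‖pd (Γ k j l) (e l) x‖ ≤ C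
  om_bd : ∀ x ∈ B, ∀ j, ‖om j x‖ ≤ C
  φ : X → ℝ
  φ_smooth : ContDiffOn ℝ ∞ φ B
  φ_nonneg : ∀ x ∈ B, 0 ≤ φ x
  φ_cpt : ∀ M : ℝ, IsCompact {x | x ∈ B ∧ φ x ≤ M}
  c0 : ℝ
  c0_pos : 0 < c0
  levi : ∀ x ∈ B, ∀ v : ι → ℂ, ∑ j, ‖v j‖ ^ 2 + c0 * ‖∑ j, ((pd φ (e j) x : ℝ) : ℂ) * v j‖ ^ 2 ≤
    (∑ k, ∑ j, conj (v k) * v j *
      (((pd (pd φ (e j)) (e k) x : ℝ) : ℂ) - ∑ l, Γ k j l x * ((pd φ (e l) x : ℝ) : ℂ))).re
  grad : ∀ x ∈ B, ∀ j, |pd φ (e j) x| ≤ C * Real.exp (φ x)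

/-- A block of commuting directions, with the unitary operators `P y` and their adjoint
action `A`. -/
structure Block (R : Rep L H) (I : Type) [Fintype I] [DecidableEq I] where
  e : I → ι
  P : (I → ℝ) → H ≃ₗᵢ[ℂ] H
  cont : ∀ v, Continuous fun y => P y v
  cont' : ∀ v, Continuous fun y => (P y).symm v
  mem : ∀ y, ∀ ψ ∈ R.Dinf, (P y).symm ψ ∈ R.Dinf
  der : ∀ y i, ∀ ψ ∈ R.Dinf, HasDerivAt (fun s => (P (Function.update y i s)).symm ψ)
    (-(P y).symm (gen (R.E (e i)) ψ)) (y i)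
  A : (I → ℂ) → (ι → ℂ) →L[ℂ] (ι → ℂ)
  h : I → (I → ℂ) → (ι → ℂ) →L[ℂ] (ι → ℂ)
  hdiff : ∀ i, ContDiff ℂ ∞ (h i)
  hA : ∀ z, A z = 1 + ∑ i, z i • h i z
  hmul : ∀ z w, A (z + w) = A z * A w
  fix : ∀ z i, A z (bv (e i)) = bv (e i)
  Ad : ∀ y Y, ∀ ψ ∈ R.Dinf, R.dU (star Y) ((P y).symm ψ) =
    (P y).symm (R.dU (star (A (fun i => (y i : ℂ)) Y)) ψ)

/-- product of exponentials -/
def LieD.Kop (L : LieD ι) : List (ι × ℂ) → (ι → ℂ) →L[ℂ] (ι → ℂ)
  | [] => 1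
  | q :: l => L.ex (q.2 • bv q.1) * L.Kop l

/-- Maurer-Cartan form of a product of exponentials, followed by a last factor with form `y` -/
def LieD.omL (L : LieD ι) : List (ι × ℂ × ℂ) → (ι → ℂ) → ι → ℂ
  | [], y => y
  | q :: l, y => q.2.2 • bv q.1 + L.ex (q.2.1 • bv q.1) (L.omL l y)

/-- truncated exponential -/
def LieD.Ex (L : LieD ι) (y : ι → ℂ) : (ι → ℂ) →L[ℂ] (ι → ℂ) :=
  1 + L.br y + (1 / 2 : ℂ) • (L.br y * L.br y)

end general

section onep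

variable {H : Type} [NormedAddCommGroup H] [InnerProductSpace ℂ H]

/-- resolvent `(1 - D)⁻¹` -/
def Res (u : ℝ → H ≃ₗᵢ[ℂ] H) (v : H) : H := ∫ t in Set.Ioi (0 : ℝ), Real.exp (-t) • u t v

/-- the operator `1 + D` -/
def Tg (u : ℝ → H ≃ₗᵢ[ℂ] H) (v : H) : H := v + gen u v

/-- the graph of the square root of the modular operator -/
def Gr (u : ℝ → H ≃ₗᵢ[ℂ] H) (v w : H) : Prop := ∃ F, SF u F ∧ F 0 = v ∧ F (Real.pi * I) = w

end onep

/-- the angle as a function of the flat coordinate -/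
def sx (x : ℝ) : ℝ := 2 * Real.arctan (Real.exp x)

section geometry

variable {r m p : ℕ}

abbrev ZZ (m p : ℕ) : Type := (Fin m → ℝ) × ℝ × (Fin p → ℝ)

abbrev XX (r m p : ℕ) : Type := (Fin r → ℝ) × ZZ m p

/-- coordinate directions -/
def dir : Idx r m p → XX r m p
  | Sum.inl k => (Pi.single k 1, 0, 0, 0)
  | Sum.inr (Sum.inl k) => (0, Pi.single k 1, 0, 0)
  | Sum.inr (Sum.inr (Sum.inl _)) => (0, 0, 1, 0)
  | Sum.inr (Sum.inr (Sum.inr k)) => (0, 0, 0, Pi.single k 1)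

def embm (b : Fin m → ℝ) : Idx r m p → ℂ := ∑ k, (b k : ℂ) • bv (im k)

def embp (a : Fin p → ℝ) : Idx r m p → ℂ := ∑ k, (a k : ℂ) • bv (ip k)

/-- connection form on the slice where the degree zero coordinates vanish, at angle `s`, on the
tangent vector `w` whose middle component is the rate of change of the angle divided by `sin s` -/
def omZ (L : LieD (Idx r m p)) (s : ℝ) (b : Fin m → ℝ) (w : ZZ m p) : Idx r m p → ℂ :=
  exp (-(s * I)) • embm w.1 + (I * Real.sin s * w.2.1) • bv iD +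
    L.Ex (exp (-(s * I)) • embm b) (exp (s * I) • embp w.2.2)

/-- the connection form at angle `s` -/
def omS (L : LieD (Idx r m p)) (s : ℝ) (η : Fin r → ℝ) (b : Fin m → ℝ) (w : XX r m p) :
    Idx r m p → ℂ :=
  L.omL (List.ofFn fun k => (i0 k, I * Real.sin s * η k,
    I * Real.sin s * (w.1 k + Real.cos s * w.2.2.1 * η k))) (omZ L s b w.2)

/-- the connection form in flat coordinates -/
def omX (L : LieD (Idx r m p)) (x w : XX r m p) : Idx r m p → ℂ :=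
  omS L (sx x.2.2.1) x.1 x.2.1 w

end geometry

end Pool.Agent.Lib.MP_e2ef7e_al.Gen
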