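import Pool.Agent.Lib.MP_e2ef7e_al.GDefs2

/-!
Interfaces for the last steps of the proof in the general case.
-/

open MeasureTheory Complex Set
open scoped ComplexConjugate InnerProductSpace ContDiff ENNReal

noncomputable section

namespace Pool.Agent.Lib.MP_e2ef7e_al.Gen

variable {H : Type} [NormedAddCommGroup H] [InnerProductSpace ℂ H]

/-- ordered product of one-parameter groups -/
def Rep.Pl {ι : Type} [Fintype ι] [DecidableEq ι] {L : LieD ι} (R : Rep L H) {n : ℕ}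
    (idx : Fin n → ι) (y : Fin n → ℝ) : H ≃ₗᵢ[ℂ] H :=
  (List.ofFn fun k => R.E (idx k) (y k)).prod

/-- A family of weak solutions on the slices through the centres `c` of norm `< ε`, with a
weighted `L¹` bound. -/
structure Slab {r m p : ℕ} {L : LieD (Idx r m p)} (R : Rep L H) (ε : ℝ)
    (S : (Fin m → ℝ) → ℝ × (Fin p → ℝ) → H) : Prop where
  loc : ∀ c, ‖c‖ < ε → LocallyIntegrable (S c) volume
  bd : ∃ (N : ℕ) (M : ℝ), 0 ≤ M ∧ ∀ c, ‖c‖ < ε → ∫⁻ z in univ ×ˢ Metric.ball 0 ε,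
    ‖S c z‖ₑ * ENNReal.ofReal (Real.exp (-(N * |z.1|))) ≤ ENNReal.ofReal M
  ex : ∀ c, ‖c‖ < ε → R.WEq volume (univ ×ˢ Metric.ball 0 ε) (S c) (1, 0)
    fun z => (I * Real.sin (sx z.1)) • bv iD
  ea : ∀ i, R.WEq volume (univ ×ˢ Metric.ball 0 ε) (S 0) (0, Pi.single i 1)
    fun z => exp (sx z.1 * I) • bv (ip i)
  eb : ∀ c, ‖c‖ < ε → ∀ θ : ℝ × (Fin p → ℝ) → ℂ, ContDiff ℝ ∞ θ → HasCompactSupport θ →
    tsupport θ ⊆ univ ×ˢ Metric.ball 0 ε → ∀ ψ ∈ R.Dinf, ∀ i,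
    HasDerivAt (fun t : ℝ => ∫ z, θ z * ⟪ψ, S (c + t • Pi.single i 1) z⟫_ℂ)
      (-∫ z, θ z * exp (-(sx z.1 * I)) * ⟪gen (R.E (im i)) ψ, S c z⟫_ℂ) 0

end Pool.Agent.Lib.MP_e2ef7e_al.Gen
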