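import Pool.Agent.Lib.MP_e2ef7e_al.GDefs

/-!
Elementary facts on the Lie algebra in coordinates.
-/

open scoped ComplexConjugate

noncomputable section

namespace Pool.Agent.Lib.MP_e2ef7e_al.Gen

variable {ι : Type} [Fintype ι]

omit [Fintype ι] in
lemma star_bv [DecidableEq ι] (i : ι) : star (bv i) = bv i := by
  ext j; by_cases h : j = i <;> simp [bv, h]

lemma sum_smul_bv [DecidableEq ι] (x : ι → ℂ) : ∑ i, x i • bv i = x := by
  ext j; simp [bv, Finset.sum_apply, Pi.single_apply]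

/-- conjugation of an operator by complex conjugation -/
def cjop (T : (ι → ℂ) →L[ℂ] (ι → ℂ)) : (ι → ℂ) →L[ℂ] (ι → ℂ) :=
  LinearMap.toContinuousLinearMap
    { toFun := fun x => star (T (star x))
      map_add' := fun x y => by simp
      map_smul' := fun c x => by simp }

@[simp] lemma cjop_apply (T : (ι → ℂ) →L[ℂ] (ι → ℂ)) (x : ι → ℂ) :
    cjop T x = star (T (star x)) := rfl

/-- `cjop` as a real linear map -/
def cjopL : ((ι → ℂ) →L[ℂ] (ι → ℂ)) →L[ℝ] ((ι → ℂ) →L[ℂ] (ι → ℂ)) :=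
  LinearMap.toContinuousLinearMap
    { toFun := cjop
      map_add' := fun S T => by ext1 x; simp
      map_smul' := fun c T => by ext1 x; simp }

@[simp] lemma cjopL_apply (T : (ι → ℂ) →L[ℂ] (ι → ℂ)) : cjopL T = cjop T := rfl

/-- `cjop` as a ring homomorphism -/
def cjopR : ((ι → ℂ) →L[ℂ] (ι → ℂ)) →+* ((ι → ℂ) →L[ℂ] (ι → ℂ)) where
  toFun := cjop
  map_one' := by ext1 x; simp
  map_mul' S T := by ext1 x; simp
  map_zero' := by ext1 x; simp
  map_add' S T := by ext1 x; simp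

namespace LieD

variable (L : LieD ι)

lemma skew (x y : ι → ℂ) : L.br x y = -L.br y x := by
  have h := L.anti (x + y)
  simp only [map_add, add_apply, L.anti, zero_add, add_zero] at h
  exact eq_neg_of_add_eq_zero_left (by rw [add_comm]; exact h)

lemma cjop_br (x : ι → ℂ) : cjop (L.br x) = L.br (star x) := by
  ext1 y; simp [L.real]

/-- the exponential of `ad x` -/
def ex (x : ι → ℂ) : (ι → ℂ) →L[ℂ] (ι → ℂ) := NormedSpace.exp (L.br x)

lemma ex_zero : L.ex 0 = 1 := by simp [ex]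

lemma cjop_ex (x : ι → ℂ) : cjop (L.ex x) = L.ex (star x) := by
  let _ : NormedAlgebra ℚ ((ι → ℂ) →L[ℂ] (ι → ℂ)) := NormedAlgebra.restrictScalars ℚ ℂ _
  have h := NormedSpace.map_exp (cjopR (ι := ι)) (cjopL (ι := ι)).continuous (L.br x)
  simp only [ex, ← L.cjop_br]
  exact h

lemma star_ex (x y : ι → ℂ) : star (L.ex x y) = L.ex (star x) (star y) := by
  rw [← L.cjop_ex]; simp

lemma ex_smul_add (x : ι → ℂ) (z w : ℂ) : L.ex ((z + w) • x) = L.ex (z • x) * L.ex (w • x) := by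
  let _ : NormedAlgebra ℚ ((ι → ℂ) →L[ℂ] (ι → ℂ)) := NormedAlgebra.restrictScalars ℚ ℂ _
  simp only [ex, map_smul, add_smul, map_add]
  refine NormedSpace.exp_add_of_commute ?_
  ext1 y
  simp [smul_smul, mul_comm]

lemma ex_smul_neg_mul (x : ι → ℂ) (z : ℂ) : L.ex (z • x) * L.ex ((-z) • x) = 1 := by
  rw [← ex_smul_add]; simp [ex_zero]

lemma hasDerivAt_ex (x : ι → ℂ) (z : ℂ) :
    HasDerivAt (fun u : ℂ => L.ex (u • x)) (L.br x * L.ex (z • x)) z := by
  simpa only [ex, map_smul] using hasDerivAt_exp_smul_const' (𝕂 := ℂ) (L.br x) z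

lemma hasDerivAt_ex' (x : ι → ℂ) (z : ℂ) :
    HasDerivAt (fun u : ℂ => L.ex (u • x)) (L.ex (z • x) * L.br x) z := by
  simpa only [ex, map_smul] using hasDerivAt_exp_smul_const (𝕂 := ℂ) (L.br x) z

lemma br_mul_ex (x : ι → ℂ) (z : ℂ) : L.br x * L.ex (z • x) = L.ex (z • x) * L.br x :=
  (L.hasDerivAt_ex x z).unique (L.hasDerivAt_ex' x z)

lemma analyticAt_ex (x : ι → ℂ) (z : ℂ) : AnalyticAt ℂ (fun u : ℂ => L.ex (u • x)) z :=
  (Differentiable.analyticAt fun u => (L.hasDerivAt_ex x u).differentiableAt) z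

lemma contDiff_ex (x : ι → ℂ) {n : WithTop ℕ∞} : ContDiff ℂ n fun u : ℂ => L.ex (u • x) :=
  contDiff_iff_contDiffAt.2 fun z => (L.analyticAt_ex x z).contDiffAt

lemma ex_smul_br (x : ι → ℂ) (z : ℂ) (a b : ι → ℂ) :
    L.ex (z • x) (L.br a b) = L.br (L.ex (z • x) a) (L.ex (z • x) b) := by
  have hd : ∀ u : ℂ, HasDerivAt (fun u : ℂ => L.ex ((-u) • x)
      (L.br (L.ex (u • x) a) (L.ex (u • x) b))) 0 u := fun u => by
    have h1 : HasDerivAt (fun u : ℂ => L.ex ((-u) • x)) (-(L.ex ((-u) • x) * L.br x)) u := by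
      have := (L.hasDerivAt_ex' x (-u)).scomp u (hasDerivAt_neg u)
      simpa [Function.comp_def] using this
    have h2 := (L.hasDerivAt_ex x u).clm_apply (hasDerivAt_const u a)
    have h3 := (L.hasDerivAt_ex x u).clm_apply (hasDerivAt_const u b)
    have h4 := (L.br.hasFDerivAt.comp_hasDerivAt u h2).clm_apply h3
    have h5 := h1.clm_apply h4
    refine h5.congr_deriv ?_
    simp only [neg_apply, mul_apply_eq_comp, map_zero, add_zero, Function.comp_apply]
    rw [L.jac]; simp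
  have hc := is_const_of_deriv_eq_zero (fun u => (hd u).differentiableAt)
    (fun u => (hd u).deriv) z 0
  simp only [neg_zero, zero_smul, ex_zero, one_apply_eq_self] at hc
  rw [← hc, ← mul_apply_eq_comp, ex_smul_neg_mul, one_apply_eq_self]

lemma ex_br (x a b : ι → ℂ) : L.ex x (L.br a b) = L.br (L.ex x a) (L.ex x b) := by
  simpa using L.ex_smul_br x 1 a b

lemma ex_smul_self (x : ι → ℂ) (z : ℂ) : L.ex (z • x) x = x := by
  have hd : ∀ u : ℂ, HasDerivAt (fun u : ℂ => L.ex (u • x) x) 0 u := fun u => by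
    have := (L.hasDerivAt_ex' x u).clm_apply (hasDerivAt_const u x)
    simpa [L.anti] using this
  have hc := is_const_of_deriv_eq_zero (fun u => (hd u).differentiableAt)
    (fun u => (hd u).deriv) z 0
  simpa [ex_zero] using hc

end LieD

end Pool.Agent.Lib.MP_e2ef7e_al.Gen
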