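import Pool.Agent.Lib.MP_e2ef7e_al.GLie

/-!
Smooth vectors and the derived representation.
-/

open scoped ComplexConjugate InnerProductSpace

noncomputable section

namespace Pool.Agent.Lib.MP_e2ef7e_al.Gen

variable {H : Type} [NormedAddCommGroup H] [InnerProductSpace ℂ H]

/-- domain of the generator -/
def Dom (u : ℝ → H ≃ₗᵢ[ℂ] H) (v : H) : Prop := DifferentiableAt ℝ (fun t => u t v) 0

/-- strongly continuous unitary one-parameter group -/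
structure OneP (u : ℝ → H ≃ₗᵢ[ℂ] H) : Prop where
  add : ∀ s t v, u (s + t) v = u s (u t v)
  cont : ∀ v, Continuous fun t => u t v

section one

variable {u : ℝ → H ≃ₗᵢ[ℂ] H}

lemma Dom.hasDerivAt0 {v : H} (h : Dom u v) : HasDerivAt (fun t => u t v) (gen u v) 0 :=
  DifferentiableAt.hasDerivAt h

lemma Dom.zero : Dom u 0 := by simp [Dom]

lemma gen_zero : gen u 0 = 0 := by simp [gen]

lemma Dom.add {v w : H} (h : Dom u v) (h' : Dom u w) : Dom u (v + w) := by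
  simp only [Dom, map_add]; exact DifferentiableAt.add h h'

lemma gen_add {v w : H} (h : Dom u v) (h' : Dom u w) : gen u (v + w) = gen u v + gen u w := by
  simp only [gen, map_add]; exact deriv_add h h'

lemma Dom.smul {v : H} (h : Dom u v) (c : ℂ) : Dom u (c • v) := by
  simp only [Dom, map_smul]; exact DifferentiableAt.const_smul h c

lemma gen_smul {v : H} (h : Dom u v) (c : ℂ) : gen u (c • v) = c • gen u v := by
  simp only [gen, map_smul]; exact deriv_const_smul c h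

lemma OneP.zero (hu : OneP u) (v : H) : u 0 v = v :=
  (u 0).injective (by rw [← hu.add, add_zero])

lemma OneP.neg_apply (hu : OneP u) (t : ℝ) (v : H) : u (-t) (u t v) = v := by
  rw [← hu.add, neg_add_cancel, hu.zero]

lemma OneP.apply_neg (hu : OneP u) (t : ℝ) (v : H) : u t (u (-t) v) = v := by
  rw [← hu.add, add_neg_cancel, hu.zero]

lemma OneP.symm (hu : OneP u) (t : ℝ) (v : H) : (u t).symm v = u (-t) v := by
  rw [LinearIsometryEquiv.symm_apply_eq, hu.apply_neg]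

lemma OneP.inner_right (hu : OneP u) (t : ℝ) (v w : H) : ⟪v, u t w⟫_ℂ = ⟪u (-t) v, w⟫_ℂ := by
  rw [← (u t).inner_map_map (u (-t) v), hu.apply_neg]

lemma OneP.inner_left (hu : OneP u) (t : ℝ) (v w : H) : ⟪u t v, w⟫_ℂ = ⟪v, u (-t) w⟫_ℂ := by
  rw [hu.inner_right, neg_neg]

lemma OneP.hasDerivAt (hu : OneP u) {v : H} (h : Dom u v) (t : ℝ) :
    HasDerivAt (fun t => u t v) (u t (gen u v)) t := by
  have h0 : HasDerivAt (fun s => u s v) (gen u v) (t - t) := by rw [sub_self]; exact h.hasDerivAt0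
  have h1 := h0.scomp (h := fun s => s - t) t ((hasDerivAt_id t).sub_const t)
  have h2 := ((u t).toContinuousLinearEquiv.toContinuousLinearMap.restrictScalars
    ℝ).hasFDerivAt.comp_hasDerivAt t h1
  simp only [one_smul] at h2
  refine h2.congr_of_eventuallyEq (Filter.Eventually.of_forall fun s => ?_)
  simp [← hu.add]

lemma OneP.dom_apply (hu : OneP u) {v : H} (h : Dom u v) (t : ℝ) :
    Dom u (u t v) ∧ gen u (u t v) = u t (gen u v) := by
  have h2 := ((u t).toContinuousLinearEquiv.toContinuousLinearMap.restrictScalars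
    ℝ).hasFDerivAt.comp_hasDerivAt 0 h.hasDerivAt0
  have h3 : HasDerivAt (fun s => u s (u t v)) (u t (gen u v)) 0 := by
    refine h2.congr_of_eventuallyEq (Filter.Eventually.of_forall fun s => ?_)
    simp [← hu.add, add_comm]
  exact ⟨h3.differentiableAt, h3.deriv⟩

lemma skew {v w : H} (h : Dom u v) (h' : Dom u w) :
    ⟪gen u v, w⟫_ℂ = -⟪v, gen u w⟫_ℂ ∨ ¬ OneP u := by
  by_cases hu : OneP u
  · left
    have h1 := h.hasDerivAt0.inner ℂ h'.hasDerivAt0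
    simp only [LinearIsometryEquiv.inner_map_map, hu.zero] at h1
    have h2 := h1.unique (hasDerivAt_const _ _)
    linear_combination h2
  · exact Or.inr hu

lemma OneP.skew (hu : OneP u) {v w : H} (h : Dom u v) (h' : Dom u w) :
    ⟪gen u v, w⟫_ℂ = -⟪v, gen u w⟫_ℂ := (Gen.skew h h').resolve_right fun h => h hu

lemma eq_of_dense_inner {S : Set H} (hS : Dense S) {v w : H} (h : ∀ ψ ∈ S, ⟪ψ, v⟫_ℂ = ⟪ψ, w⟫_ℂ) :
    v = w := by
  have : ∀ ψ, ⟪ψ, v⟫_ℂ = ⟪ψ, w⟫_ℂ := fun ψ =>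
    Dense.induction (P := fun ψ => ⟪ψ, v⟫_ℂ = ⟪ψ, w⟫_ℂ) hS h
      (isClosed_eq (by fun_prop) (by fun_prop)) ψ
  exact ext_inner_left ℂ this

/-- Weak derivatives against an invariant dense set are strong derivatives. -/
lemma OneP.weak [CompleteSpace H] (hu : OneP u) {S : Set H} (hS : Dense S)
    (hd : ∀ ψ ∈ S, Dom u ψ) (hi : ∀ ψ ∈ S, ∀ t, u t ψ ∈ S) {v w : H}
    (h : ∀ ψ ∈ S, ⟪ψ, w⟫_ℂ = -⟪gen u ψ, v⟫_ℂ) : Dom u v ∧ gen u v = w := by
  have key : ∀ t, u t v = v + ∫ s in (0 : ℝ)..t, u s w := fun t => by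
    refine eq_of_dense_inner hS fun ψ hψ => ?_
    have hder : ∀ s, HasDerivAt (fun s => ⟪ψ, u s v⟫_ℂ) ⟪ψ, u s w⟫_ℂ s := fun s => by
      have h1 := (hu.hasDerivAt (hd ψ hψ) (-s)).scomp s (hasDerivAt_neg s)
      have h2 := h1.inner ℂ (hasDerivAt_const s v)
      simp only [Function.comp_def, ← hu.inner_right] at h2
      refine h2.congr_deriv ?_
      rw [hu.inner_right s ψ w, h _ (hi ψ hψ (-s)), (hu.dom_apply (hd ψ hψ) (-s)).2]
      simp
    have hc : Continuous fun s => ⟪ψ, u s w⟫_ℂ := continuous_const.inner (hu.cont w)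
    have h3 := intervalIntegral.integral_eq_sub_of_hasDerivAt (a := 0) (b := t)
      (fun s _ => hder s) (hc.intervalIntegrable _ _)
    have h4 := (innerSL ℂ ψ).intervalIntegral_comp_comm (μ := MeasureTheory.volume)
      ((hu.cont w).intervalIntegrable 0 t)
    simp only [innerSL_apply_apply] at h4
    rw [inner_add_right, ← h4, h3, hu.zero]; ring
  have h5 : HasDerivAt (fun t => v + ∫ s in (0 : ℝ)..t, u s w) (u 0 w) 0 :=
    ((hu.cont w).integral_hasStrictDerivAt 0 0).hasDerivAt.const_add v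
  rw [hu.zero] at h5
  have h6 : HasDerivAt (fun t => u t v) w 0 := by simpa only [← key] using h5
  exact ⟨h6.differentiableAt, h6.deriv⟩

end one

variable {ι : Type} [Fintype ι] [DecidableEq ι] {L : LieD ι}

namespace Rep

variable (R : Rep L H)

lemma oneP (i : ι) : OneP (R.E i) := ⟨R.E_add i, R.cont i⟩

/-- smooth vectors -/
def Dinf : Submodule ℂ H where
  carrier := {v | ∃ S : Set H, v ∈ S ∧ ∀ w ∈ S, ∀ j, Dom (R.E j) w ∧ gen (R.E j) w ∈ S}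
  zero_mem' := ⟨{0}, rfl, by rintro _ rfl j; exact ⟨Dom.zero, gen_zero⟩⟩
  add_mem' := by
    rintro a b ⟨S, ha, hS⟩ ⟨T, hb, hT⟩
    refine ⟨{x | ∃ a ∈ S, ∃ b ∈ T, x = a + b}, ⟨a, ha, b, hb, rfl⟩, ?_⟩
    rintro _ ⟨a, ha, b, hb, rfl⟩ j
    exact ⟨(hS a ha j).1.add (hT b hb j).1, _, (hS a ha j).2, _, (hT b hb j).2,
      gen_add (hS a ha j).1 (hT b hb j).1⟩
  smul_mem' := by
    rintro c a ⟨S, ha, hS⟩
    refine ⟨{x | ∃ a ∈ S, x = c • a}, ⟨a, ha, rfl⟩, ?_⟩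
    rintro _ ⟨a, ha, rfl⟩ j
    exact ⟨(hS a ha j).1.smul c, _, (hS a ha j).2, gen_smul (hS a ha j).1 c⟩

variable {R}

lemma mem_Dinf_of {S : Set H} (hS : ∀ w ∈ S, ∀ j, Dom (R.E j) w ∧ gen (R.E j) w ∈ S) {v : H}
    (hv : v ∈ S) : v ∈ R.Dinf := ⟨S, hv, hS⟩

lemma dom_of_mem {v : H} (hv : v ∈ R.Dinf) (j : ι) : Dom (R.E j) v := by
  obtain ⟨S, hv, hS⟩ := hv; exact (hS v hv j).1

lemma gen_mem_Dinf {v : H} (hv : v ∈ R.Dinf) (j : ι) : gen (R.E j) v ∈ R.Dinf := by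
  obtain ⟨S, hv, hS⟩ := hv; exact ⟨S, (hS v hv j).2, hS⟩

lemma D0_sub {v : H} (hv : v ∈ R.D0) : v ∈ R.Dinf :=
  mem_Dinf_of (fun w hw j => ⟨R.der w hw j, R.gen_mem w hw j⟩) hv

variable (R) in
lemma dense_Dinf : Dense (R.Dinf : Set H) := R.dense.mono fun _ => D0_sub

variable (R) in
/-- the derived representation, complex linear in the Lie algebra variable -/
def dU (X : ι → ℂ) (v : H) : H := ∑ i, X i • gen (R.E i) v

lemma dU_mem {v : H} (hv : v ∈ R.Dinf) (X : ι → ℂ) : R.dU X v ∈ R.Dinf :=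
  Submodule.sum_mem _ fun i _ => Submodule.smul_mem _ _ (gen_mem_Dinf hv i)

lemma dU_bv (i : ι) (v : H) : R.dU (bv i) v = gen (R.E i) v := by
  simp [dU, bv, Pi.single_apply]

lemma dU_add_left (X Y : ι → ℂ) (v : H) : R.dU (X + Y) v = R.dU X v + R.dU Y v := by
  simp [dU, add_smul, Finset.sum_add_distrib]

lemma dU_sub_left (X Y : ι → ℂ) (v : H) : R.dU (X - Y) v = R.dU X v - R.dU Y v := by
  simp [dU, sub_smul, Finset.sum_sub_distrib]

lemma dU_smul_left (c : ℂ) (X : ι → ℂ) (v : H) : R.dU (c • X) v = c • R.dU X v := by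
  simp [dU, Finset.smul_sum, smul_smul]

lemma dU_neg_left (X : ι → ℂ) (v : H) : R.dU (-X) v = -R.dU X v := by
  simp [dU]

lemma dU_zero_left (v : H) : R.dU 0 v = 0 := by simp [dU]

lemma dU_sum_left {α : Type*} (s : Finset α) (X : α → ι → ℂ) (v : H) :
    R.dU (∑ a ∈ s, X a) v = ∑ a ∈ s, R.dU (X a) v := by
  simp only [dU, Finset.sum_apply, Finset.sum_smul]; exact Finset.sum_comm

variable (R) in
/-- the derived representation as a linear map on smooth vectors -/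
def dUL (X : ι → ℂ) : R.Dinf →ₗ[ℂ] H where
  toFun v := R.dU X v
  map_add' v w := by
    simp only [dU, Submodule.coe_add, gen_add (dom_of_mem v.2 _) (dom_of_mem w.2 _), smul_add,
      Finset.sum_add_distrib]
  map_smul' c v := by
    simp only [dU, Submodule.coe_smul, gen_smul (dom_of_mem v.2 _), RingHom.id_apply,
      Finset.smul_sum]
    exact Finset.sum_congr rfl fun i _ => smul_comm _ _ _

lemma dU_add {v w : H} (hv : v ∈ R.Dinf) (hw : w ∈ R.Dinf) (X : ι → ℂ) :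
    R.dU X (v + w) = R.dU X v + R.dU X w := (R.dUL X).map_add ⟨v, hv⟩ ⟨w, hw⟩

lemma dU_sub {v w : H} (hv : v ∈ R.Dinf) (hw : w ∈ R.Dinf) (X : ι → ℂ) :
    R.dU X (v - w) = R.dU X v - R.dU X w := (R.dUL X).map_sub ⟨v, hv⟩ ⟨w, hw⟩

lemma dU_smul {v : H} (hv : v ∈ R.Dinf) (c : ℂ) (X : ι → ℂ) :
    R.dU X (c • v) = c • R.dU X v := (R.dUL X).map_smul c ⟨v, hv⟩

lemma dU_neg {v : H} (hv : v ∈ R.Dinf) (X : ι → ℂ) :
    R.dU X (-v) = -R.dU X v := (R.dUL X).map_neg ⟨v, hv⟩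

lemma dU_zero (X : ι → ℂ) : R.dU X 0 = 0 := by simp [dU, gen_zero]

lemma dU_sum {α : Type*} (s : Finset α) {v : α → H} (hv : ∀ a, v a ∈ R.Dinf) (X : ι → ℂ) :
    R.dU X (∑ a ∈ s, v a) = ∑ a ∈ s, R.dU X (v a) := by
  have := map_sum (R.dUL X) (fun a => ⟨v a, hv a⟩) s
  rw [← show ((∑ a ∈ s, (⟨v a, hv a⟩ : R.Dinf) : R.Dinf) : H) = ∑ a ∈ s, v a by simp]
  exact this

lemma inner_dU_left (X : ι → ℂ) (v w : H) :
    ⟪R.dU (star X) v, w⟫_ℂ = ∑ i, X i * ⟪gen (R.E i) v, w⟫_ℂ := by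
  simp [dU, mul_comm]

lemma inner_dU {v w : H} (hv : ∀ i, Dom (R.E i) v) (hw : ∀ i, Dom (R.E i) w) (X : ι → ℂ) :
    ⟪R.dU (star X) v, w⟫_ℂ = -⟪v, R.dU X w⟫_ℂ := by
  rw [inner_dU_left]
  simp only [dU, inner_sum, inner_smul_right, ← Finset.sum_neg_distrib]
  exact Finset.sum_congr rfl fun i _ => by rw [(R.oneP i).skew (hv i) (hw i)]; ring

lemma inner_dU' {v w : H} (hv : v ∈ R.Dinf) (hw : w ∈ R.Dinf) (X : ι → ℂ) :
    ⟪R.dU (star X) v, w⟫_ℂ = -⟪v, R.dU X w⟫_ℂ := inner_dU (dom_of_mem hv) (dom_of_mem hw) X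

variable [CompleteSpace H]

lemma weak0 {i : ι} {v w : H} (h : ∀ ψ ∈ R.D0, ⟪ψ, w⟫_ℂ = -⟪gen (R.E i) ψ, v⟫_ℂ) :
    Dom (R.E i) v ∧ gen (R.E i) v = w :=
  (R.oneP i).weak R.dense (fun ψ hψ => R.der ψ hψ i) (fun ψ hψ t => R.E_mem ψ hψ i t) h

lemma weak {i : ι} {v w : H} (h : ∀ ψ ∈ R.Dinf, ⟪ψ, w⟫_ℂ = -⟪gen (R.E i) ψ, v⟫_ℂ) :
    Dom (R.E i) v ∧ gen (R.E i) v = w := weak0 fun ψ hψ => h ψ (D0_sub hψ)

lemma gen_E {v : H} (hv : ∀ i, Dom (R.E i) v) (i j : ι) (t : ℝ) : Dom (R.E j) (R.E i t v) ∧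
    gen (R.E j) (R.E i t v) = R.E i t (R.dU (L.ex (((-t : ℝ) : ℂ) • bv i) (bv j)) v) := by
  refine weak0 fun ψ hψ => ?_
  have h1 := R.Ad ψ hψ i j (-t)
  have h2 : star (L.ex (((-t : ℝ) : ℂ) • bv i) (bv j)) = L.ex (((-t : ℝ) : ℂ) • bv i) (bv j) := by
    rw [L.star_ex]; simp [star_bv]
  rw [(R.oneP i).inner_right, (R.oneP i).inner_right, h1, ← neg_eq_iff_eq_neg,
    ← inner_dU (fun l => R.der _ (R.E_mem ψ hψ i _) l) hv, h2]
  simp only [dU, LieD.ex, map_smul]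

lemma E_mem_Dinf {v : H} (hv : v ∈ R.Dinf) (i : ι) (t : ℝ) : R.E i t v ∈ R.Dinf := by
  refine mem_Dinf_of (S := {w | ∃ v ∈ R.Dinf, w = R.E i t v}) ?_ ⟨v, hv, rfl⟩
  rintro _ ⟨v, hv, rfl⟩ j
  exact ⟨(gen_E (dom_of_mem hv) i j t).1, _, dU_mem hv _, (gen_E (dom_of_mem hv) i j t).2⟩

lemma dU_E {v : H} (hv : ∀ i, Dom (R.E i) v) (i : ι) (t : ℝ) (X : ι → ℂ) :
    R.dU X (R.E i t v) = R.E i t (R.dU (L.ex (((-t : ℝ) : ℂ) • bv i) X) v) := by
  conv_rhs => rw [← sum_smul_bv X, map_sum, dU_sum_left, map_sum]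
  rw [dU]
  refine Finset.sum_congr rfl fun j _ => ?_
  rw [(gen_E hv i j t).2, map_smul, dU_smul_left, map_smul]

lemma E_dU {v : H} (hv : ∀ i, Dom (R.E i) v) (i : ι) (t : ℝ) (X : ι → ℂ) :
    R.E i t (R.dU X v) = R.dU (L.ex ((t : ℂ) • bv i) X) (R.E i t v) := by
  rw [dU_E hv, ← mul_apply_eq_comp, ← L.ex_smul_add]
  simp [L.ex_zero]

lemma gen_gen {v : H} (hv : v ∈ R.Dinf) (i : ι) (Y : ι → ℂ) :
    gen (R.E i) (R.dU Y v) - R.dU Y (gen (R.E i) v) = R.dU (L.br (bv i) Y) v := by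
  refine eq_of_dense_inner R.dense_Dinf fun ψ hψ => ?_
  have h1 : HasDerivAt (fun t : ℝ => ⟪ψ, R.E i t (R.dU Y v)⟫_ℂ)
      ⟪ψ, gen (R.E i) (R.dU Y v)⟫_ℂ 0 := by
    have := (hasDerivAt_const (0 : ℝ) ψ).inner ℂ (dom_of_mem (dU_mem hv Y) i).hasDerivAt0
    simpa using this
  have h2 : ∀ t : ℝ, ⟪ψ, R.E i t (R.dU Y v)⟫_ℂ =
      -∑ l, L.ex ((t : ℂ) • bv i) Y l * ⟪gen (R.E l) ψ, R.E i t v⟫_ℂ := fun t => by
    rw [E_dU (dom_of_mem hv), ← inner_dU_left, inner_dU' hψ (E_mem_Dinf hv i t), neg_neg]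
  have h3 : ∀ l, HasDerivAt (fun t : ℝ => L.ex ((t : ℂ) • bv i) Y l) (L.br (bv i) Y l) 0 :=
    fun l => by
      have a := (L.hasDerivAt_ex (bv i) ((0 : ℝ) : ℂ)).clm_apply (hasDerivAt_const _ Y)
      have b := (hasDerivAt_pi.1 a l).comp_ofReal
      simpa [L.ex_zero] using b
  have h4 : ∀ l, HasDerivAt (fun t : ℝ => ⟪gen (R.E l) ψ, R.E i t v⟫_ℂ)
      ⟪gen (R.E l) ψ, gen (R.E i) v⟫_ℂ 0 := fun l => by
    have := (hasDerivAt_const (0 : ℝ) (gen (R.E l) ψ)).inner ℂ (dom_of_mem hv i).hasDerivAt0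
    simpa using this
  have h5 := (HasDerivAt.fun_sum (u := Finset.univ) fun l _ => (h3 l).fun_mul (h4 l)).fun_neg
  simp only [← h2] at h5
  have h6 := h1.unique h5
  simp only [Complex.ofReal_zero, zero_smul, L.ex_zero, one_apply_eq_self, (R.oneP i).zero,
    Finset.sum_add_distrib, ← inner_dU_left] at h6
  rw [inner_dU' hψ hv, inner_dU' hψ (gen_mem_Dinf hv i)] at h6
  rw [inner_sub_right, h6]; ring

lemma dU_dU {v : H} (hv : v ∈ R.Dinf) (X Y : ι → ℂ) :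
    R.dU X (R.dU Y v) - R.dU Y (R.dU X v) = R.dU (L.br X Y) v := by
  conv_rhs => rw [← sum_smul_bv X, map_sum, sum_apply, dU_sum_left]
  rw [show R.dU X v = ∑ i, X i • gen (R.E i) v from rfl,
    dU_sum _ fun i => Submodule.smul_mem _ _ (gen_mem_Dinf hv i), dU, ← Finset.sum_sub_distrib]
  refine Finset.sum_congr rfl fun i _ => ?_
  rw [dU_smul (gen_mem_Dinf hv i), ← smul_sub, gen_gen hv, map_smul, smul_apply, dU_smul_left]

end Rep

end Pool.Agent.Lib.MP_e2ef7e_al.Gen
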