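import Pool.Agent.Lib.MP_e2ef7e_al.GDefs2

/-!
The grading.
-/

open Complex
open scoped ComplexConjugate ContDiff

noncomputable section

namespace Pool.Agent.Lib.MP_e2ef7e_al.Gen

variable {r m p : ℕ}

/-- projection to the part of degree `w` -/
def Pw (w : ℤ) : (Idx r m p → ℂ) →L[ℂ] (Idx r m p → ℂ) :=
  ContinuousLinearMap.pi fun i => if wt i = w then ContinuousLinearMap.proj i else 0

lemma Pw_apply (w : ℤ) (x : Idx r m p → ℂ) (i) : Pw w x i = if wt i = w then x i else 0 := by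
  simp only [Pw, ContinuousLinearMap.pi_apply]; split_ifs <;> simp

/-- projection to the degree zero part without the grading element -/
def P0 : (Idx r m p → ℂ) →L[ℂ] (Idx r m p → ℂ) :=
  Pw 0 - (ContinuousLinearMap.proj iD).smulRight (bv iD)

lemma P0_apply (x : Idx r m p → ℂ) : P0 x = Pw 0 x - x iD • bv iD := rfl

/-- homogeneous of degree `w` -/
def IsW (w : ℤ) (x : Idx r m p → ℂ) : Prop := Pw w x = x

lemma wt_cases (i : Idx r m p) : wt i = 1 ∨ wt i = 0 ∨ wt i = -1 := by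
  rcases i with k | k | k | k <;> simp [wt]

lemma wt_iD : wt (iD : Idx r m p) = 0 := rfl
lemma wt_i0 (k : Fin r) : wt (i0 k : Idx r m p) = 0 := rfl
lemma wt_im (k : Fin m) : wt (im k : Idx r m p) = -1 := rfl
lemma wt_ip (k : Fin p) : wt (ip k : Idx r m p) = 1 := rfl

lemma Pw_sum (x : Idx r m p → ℂ) : Pw 1 x + Pw 0 x + Pw (-1) x = x := by
  ext i; rcases wt_cases i with h | h | h <;> simp [Pw_apply, h]

lemma isW_Pw (w : ℤ) (x : Idx r m p → ℂ) : IsW w (Pw w x) := by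
  ext i; simp only [Pw_apply]; split_ifs <;> rfl

lemma IsW.Pw_self {w : ℤ} {x : Idx r m p → ℂ} (h : IsW w x) : Pw w x = x := h

lemma IsW.Pw_ne {w w' : ℤ} {x : Idx r m p → ℂ} (h : IsW w x) (hw : w ≠ w') : Pw w' x = 0 := by
  ext i; rw [← h]; simp only [Pw_apply]; split_ifs <;> simp_all

lemma IsW.zero (w : ℤ) : IsW w (0 : Idx r m p → ℂ) := map_zero _

lemma IsW.add {w : ℤ} {x y : Idx r m p → ℂ} (h : IsW w x) (h' : IsW w y) : IsW w (x + y) := by
  rw [IsW, map_add, h, h']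

lemma IsW.sub {w : ℤ} {x y : Idx r m p → ℂ} (h : IsW w x) (h' : IsW w y) : IsW w (x - y) := by
  rw [IsW, map_sub, h, h']

lemma IsW.neg {w : ℤ} {x : Idx r m p → ℂ} (h : IsW w x) : IsW w (-x) := by
  rw [IsW, map_neg, h]

lemma IsW.smul {w : ℤ} {x : Idx r m p → ℂ} (h : IsW w x) (c : ℂ) : IsW w (c • x) := by
  rw [IsW, map_smul, h]

lemma IsW.sum {w : ℤ} {α : Type*} (s : Finset α) {x : α → Idx r m p → ℂ}
    (h : ∀ a, IsW w (x a)) : IsW w (∑ a ∈ s, x a) := by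
  rw [IsW, map_sum]; exact Finset.sum_congr rfl fun a _ => h a

lemma isW_bv (i : Idx r m p) : IsW (wt i) (bv i) := by
  ext j; by_cases h : j = i <;> simp [Pw_apply, bv, h]

lemma star_Pw (w : ℤ) (x : Idx r m p → ℂ) : star (Pw w x) = Pw w (star x) := by
  ext i; simp only [Pi.star_apply, Pw_apply]; split_ifs <;> simp

lemma IsW.star {w : ℤ} {x : Idx r m p → ℂ} (h : IsW w x) : IsW w (star x) := by
  rw [IsW, ← star_Pw, h]

lemma star_P0 (x : Idx r m p → ℂ) : star (P0 x) = P0 (star x) := by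
  simp [P0_apply, star_Pw, star_bv]

lemma IsW.eq_zero {w : ℤ} {x : Idx r m p → ℂ} (h : IsW w x) (hw : w ≠ 1) (hw' : w ≠ 0)
    (hw'' : w ≠ -1) : x = 0 := by
  rw [← Pw_sum x, h.Pw_ne hw, h.Pw_ne hw', h.Pw_ne hw'']; simp

lemma IsW.apply_iD {w : ℤ} {x : Idx r m p → ℂ} (h : IsW w x) (hw : w ≠ 0) : x iD = 0 := by
  rw [← h, Pw_apply, if_neg (by rw [wt_iD]; exact hw.symm)]

lemma bv_iD_iD : bv (iD : Idx r m p) iD = 1 := by simp [bv]

lemma isW_P0 (x : Idx r m p → ℂ) : IsW 0 (P0 x) :=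
  (isW_Pw 0 x).sub ((isW_bv iD).smul _)

lemma P0_iD (x : Idx r m p → ℂ) : P0 x iD = 0 := by
  simp [P0_apply, Pw_apply, wt_iD, bv_iD_iD]

lemma P0_of {x : Idx r m p → ℂ} (h : IsW 0 x) (h' : x iD = 0) : P0 x = x := by
  rw [P0_apply, h, h']; simp

lemma P0_P0 (x : Idx r m p → ℂ) : P0 (P0 x) = P0 x := P0_of (isW_P0 x) (P0_iD x)

lemma IsW.P0_ne {w : ℤ} {x : Idx r m p → ℂ} (h : IsW w x) (hw : w ≠ 0) : P0 x = 0 := by
  rw [P0_apply, h.Pw_ne hw, h.apply_iD hw]; simp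

lemma P0_bv_iD : P0 (bv (iD : Idx r m p)) = 0 := by
  rw [P0_apply, bv_iD_iD, one_smul, show Pw 0 (bv iD) = bv iD from isW_bv iD, sub_self]

lemma norm_Pw_le (w : ℤ) (x : Idx r m p → ℂ) : ‖Pw w x‖ ≤ ‖x‖ :=
  (pi_norm_le_iff_of_nonneg (norm_nonneg _)).2 fun i => by
    rw [Pw_apply]; split_ifs
    · exact norm_le_pi_norm x i
    · simp

lemma norm_P0_le (x : Idx r m p → ℂ) : ‖P0 x‖ ≤ ‖x‖ :=
  (pi_norm_le_iff_of_nonneg (norm_nonneg _)).2 fun i => by
    by_cases h : i = iD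
    · rw [h, P0_iD]; simp
    · have : P0 x i = Pw 0 x i := by simp [P0_apply, bv, h]
      rw [this]; exact (norm_le_pi_norm _ i).trans (norm_Pw_le 0 x)

def emb0 (η : Fin r → ℝ) : Idx r m p → ℂ := ∑ k, (η k : ℂ) • bv (i0 k)

lemma isW_emb0 (η : Fin r → ℝ) : IsW 0 (emb0 η : Idx r m p → ℂ) :=
  IsW.sum _ fun k => (isW_bv (i0 k)).smul _

lemma isW_embm (b : Fin m → ℝ) : IsW (-1) (embm b : Idx r m p → ℂ) :=
  IsW.sum _ fun k => (isW_bv (im k)).smul _

lemma isW_embp (a : Fin p → ℝ) : IsW 1 (embp a : Idx r m p → ℂ) :=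
  IsW.sum _ fun k => (isW_bv (ip k)).smul _

lemma emb0_apply (η : Fin r → ℝ) (i : Idx r m p) :
    emb0 η i = Sum.elim (fun k => (η k : ℂ)) (fun _ => 0) i := by
  rcases i with k | k <;> simp [emb0, bv, i0, Finset.sum_apply, Pi.single_apply]

lemma embm_apply (b : Fin m → ℝ) (i : Idx r m p) :
    embm b i = Sum.elim (fun _ => 0) (Sum.elim (fun k => (b k : ℂ)) fun _ => 0) i := by
  rcases i with k | k | k <;> simp [embm, bv, im, Finset.sum_apply, Pi.single_apply]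

lemma embp_apply (a : Fin p → ℝ) (i : Idx r m p) :
    embp a i = Sum.elim (fun _ => 0) (Sum.elim (fun _ => 0)
      (Sum.elim (fun _ => 0) fun k => (a k : ℂ))) i := by
  rcases i with k | k | k | k <;> simp [embp, bv, ip, Finset.sum_apply, Pi.single_apply]

lemma emb0_iD (η : Fin r → ℝ) : (emb0 η : Idx r m p → ℂ) iD = 0 := by simp [emb0_apply, iD]

lemma P0_emb0 (η : Fin r → ℝ) : P0 (emb0 η : Idx r m p → ℂ) = emb0 η :=
  P0_of (isW_emb0 η) (emb0_iD η)

lemma star_emb0 (η : Fin r → ℝ) : star (emb0 η : Idx r m p → ℂ) = emb0 η := by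
  simp [emb0, star_bv]

lemma star_embm (b : Fin m → ℝ) : star (embm b : Idx r m p → ℂ) = embm b := by
  simp [embm, star_bv]

lemma star_embp (a : Fin p → ℝ) : star (embp a : Idx r m p → ℂ) = embp a := by
  simp [embp, star_bv]

lemma norm_emb0 (η : Fin r → ℝ) : ‖(emb0 η : Idx r m p → ℂ)‖ = ‖η‖ := by
  refine le_antisymm ((pi_norm_le_iff_of_nonneg (norm_nonneg _)).2 fun i => ?_)
    ((pi_norm_le_iff_of_nonneg (norm_nonneg _)).2 fun k => ?_)
  · rcases i with k | k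
    · simpa [emb0_apply] using norm_le_pi_norm η k
    · simp [emb0_apply]
  · simpa [emb0_apply, i0] using norm_le_pi_norm (emb0 η : Idx r m p → ℂ) (i0 k)

lemma norm_embm (b : Fin m → ℝ) : ‖(embm b : Idx r m p → ℂ)‖ = ‖b‖ := by
  refine le_antisymm ((pi_norm_le_iff_of_nonneg (norm_nonneg _)).2 fun i => ?_)
    ((pi_norm_le_iff_of_nonneg (norm_nonneg _)).2 fun k => ?_)
  · rcases i with k | k | k
    · simp [embm_apply]
    · simpa [embm_apply] using norm_le_pi_norm b k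
    · simp [embm_apply]
  · simpa [embm_apply, im] using norm_le_pi_norm (embm b : Idx r m p → ℂ) (im k)

lemma norm_embp (a : Fin p → ℝ) : ‖(embp a : Idx r m p → ℂ)‖ = ‖a‖ := by
  refine le_antisymm ((pi_norm_le_iff_of_nonneg (norm_nonneg _)).2 fun i => ?_)
    ((pi_norm_le_iff_of_nonneg (norm_nonneg _)).2 fun k => ?_)
  · rcases i with k | k | k | k
    · simp [embp_apply]
    · simp [embp_apply]
    · simp [embp_apply]
    · simpa [embp_apply] using norm_le_pi_norm a k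
  · simpa [embp_apply, ip] using norm_le_pi_norm (embp a : Idx r m p → ℂ) (ip k)

variable {L : LieD (Idx r m p)}

lemma Graded.br_D (hL : Graded L) (x : Idx r m p → ℂ) (i) :
    L.br (bv iD) x i = (wt i : ℂ) * x i := by
  conv_lhs => rw [← sum_smul_bv x, map_sum]
  simp only [map_smul, hL.hD, Finset.sum_apply, Pi.smul_apply, smul_eq_mul]
  rw [Finset.sum_eq_single i]
  · simp [bv, mul_comm]
  · intro j _ hj; simp [bv, Ne.symm hj]
  · simp

lemma Graded.isW_iff (hL : Graded L) {w : ℤ} {x : Idx r m p → ℂ} :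
    IsW w x ↔ L.br (bv iD) x = (w : ℂ) • x := by
  constructor
  · intro h; ext i
    rw [hL.br_D, Pi.smul_apply, smul_eq_mul, ← h, Pw_apply]
    split_ifs with h' <;> simp [h']
  · intro h; ext i
    have := congrFun h i
    rw [hL.br_D, Pi.smul_apply, smul_eq_mul] at this
    rw [Pw_apply]; split_ifs with h'
    · rfl
    · have h2 : (wt i : ℂ) - w ≠ 0 := sub_ne_zero.2 (by exact_mod_cast h')
      have : ((wt i : ℂ) - w) * x i = 0 := by linear_combination this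
      exact ((mul_eq_zero.1 this).resolve_left h2).symm

lemma Graded.br (hL : Graded L) {w w' : ℤ} {x y : Idx r m p → ℂ} (h : IsW w x) (h' : IsW w' y) :
    IsW (w + w') (L.br x y) := by
  rw [hL.isW_iff] at h h' ⊢
  rw [L.jac, h, h']; simp [add_smul]

lemma Graded.br_same (hL : Graded L) {ε : ℤ} (hε : ε = 1 ∨ ε = -1) {x y : Idx r m p → ℂ}
    (h : IsW ε x) (h' : IsW ε y) : L.br x y = 0 :=
  (hL.br h h').eq_zero (by omega) (by omega) (by omega)

lemma Graded.Pw_br (hL : Graded L) {ε : ℤ} (hε : ε = 1 ∨ ε = -1) (x y : Idx r m p → ℂ) :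
    Pw ε (L.br x y) = L.br (Pw 0 x) (Pw ε y) + L.br (Pw ε x) (Pw 0 y) := by
  have h : ∀ a b : ℤ, Pw ε (L.br (Pw a x) (Pw b y)) =
      if a + b = ε then L.br (Pw a x) (Pw b y) else 0 := fun a b => by
    split_ifs with h
    · rw [← h]; exact hL.br (isW_Pw _ _) (isW_Pw _ _)
    · exact (hL.br (isW_Pw _ _) (isW_Pw _ _)).Pw_ne h
  conv_lhs => rw [← Pw_sum x, ← Pw_sum y]
  simp only [map_add, add_apply, h]
  rcases hε with rfl | rfl <;> simp [add_comm]

lemma Graded.Pw0_br (hL : Graded L) (x y : Idx r m p → ℂ) :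
    Pw 0 (L.br x y) = L.br (Pw 0 x) (Pw 0 y) + L.br (Pw 1 x) (Pw (-1) y) +
      L.br (Pw (-1) x) (Pw 1 y) := by
  have h : ∀ a b : ℤ, Pw 0 (L.br (Pw a x) (Pw b y)) =
      if a + b = 0 then L.br (Pw a x) (Pw b y) else 0 := fun a b => by
    split_ifs with h
    · rw [← h]; exact hL.br (isW_Pw _ _) (isW_Pw _ _)
    · exact (hL.br (isW_Pw _ _) (isW_Pw _ _)).Pw_ne h
  conv_lhs => rw [← Pw_sum x, ← Pw_sum y]
  simp only [map_add, add_apply, h]
  simp; abel

lemma Graded.P0_br (hL : Graded L) (x y : Idx r m p → ℂ) : P0 (L.br x y) = Pw 0 (L.br x y) := by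
  rw [P0_apply, hL.noD]; simp

lemma Graded.br_D_zero (hL : Graded L) {x : Idx r m p → ℂ} (h : IsW 0 x) :
    L.br (bv iD) x = 0 := by simpa using hL.isW_iff.1 h

lemma Graded.br_zero_D (hL : Graded L) {x : Idx r m p → ℂ} (h : IsW 0 x) :
    L.br x (bv iD) = 0 := by rw [L.skew, hL.br_D_zero h, neg_zero]

lemma Graded.br_W_D (hL : Graded L) {w : ℤ} {x : Idx r m p → ℂ} (h : IsW w x) :
    L.br x (bv iD) = -((w : ℂ) • x) := by rw [L.skew, hL.isW_iff.1 h]

/-- three brackets with elements of the same nonzero degree vanish -/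
lemma Graded.br3 (hL : Graded L) {ε : ℤ} (hε : ε = 1 ∨ ε = -1) {x y z : Idx r m p → ℂ}
    (hx : IsW ε x) (hy : IsW ε y) (hz : IsW ε z) (u : Idx r m p → ℂ) :
    L.br x (L.br y (L.br z u)) = 0 := by
  have h : ∀ a : ℤ, (a = 1 ∨ a = 0 ∨ a = -1) → L.br x (L.br y (L.br z (Pw a u))) = 0 :=
    fun a ha => (hL.br hx (hL.br hy (hL.br hz (isW_Pw a u)))).eq_zero
      (by omega) (by omega) (by omega)
  rw [← Pw_sum u]; simp [h]

lemma Graded.br_comm (hL : Graded L) {ε : ℤ} (hε : ε = 1 ∨ ε = -1) {x y : Idx r m p → ℂ}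
    (hx : IsW ε x) (hy : IsW ε y) (u : Idx r m p → ℂ) :
    L.br x (L.br y u) = L.br y (L.br x u) := by
  rw [L.jac, hL.br_same hε hx hy]; simp

lemma Ex_apply {ι : Type} [Fintype ι] (L : LieD ι) (y u : ι → ℂ) :
    L.Ex y u = u + L.br y u + (1 / 2 : ℂ) • L.br y (L.br y u) := rfl

lemma Ex_zero {ι : Type} [Fintype ι] (L : LieD ι) : L.Ex 0 = 1 := by simp [LieD.Ex]

lemma cjop_Ex {ι : Type} [Fintype ι] (L : LieD ι) (y : ι → ℂ) : cjop (L.Ex y) = L.Ex (star y) := by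
  ext1 u; simp [Ex_apply, L.real]

lemma Graded.Ex_add (hL : Graded L) {ε : ℤ} (hε : ε = 1 ∨ ε = -1) {x y : Idx r m p → ℂ}
    (hx : IsW ε x) (hy : IsW ε y) : L.Ex (x + y) = L.Ex x * L.Ex y := by
  ext1 u
  simp only [mul_apply_eq_comp, Ex_apply, map_add, add_apply, map_smul, hL.br3 hε hx hx hy,
    hL.br3 hε hx hy hy, hL.br_comm hε hy hx u, map_zero]
  module

lemma Graded.Ex_neg (hL : Graded L) {ε : ℤ} (hε : ε = 1 ∨ ε = -1) {x : Idx r m p → ℂ}
    (hx : IsW ε x) : L.Ex x * L.Ex (-x) = 1 := by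
  rw [← hL.Ex_add hε hx hx.neg, add_neg_cancel, Ex_zero]

lemma Graded.Ex_same (hL : Graded L) {ε : ℤ} (hε : ε = 1 ∨ ε = -1) {x y : Idx r m p → ℂ}
    (hx : IsW ε x) (hy : IsW ε y) : L.Ex x y = y := by
  simp [Ex_apply, hL.br_same hε hx hy]

lemma Graded.ex_eq (hL : Graded L) {ε : ℤ} (hε : ε = 1 ∨ ε = -1) {x : Idx r m p → ℂ}
    (hx : IsW ε x) : L.ex x = L.Ex x := by
  have hd : ∀ u : ℂ, HasDerivAt (fun u : ℂ => L.ex ((-u) • x) * L.Ex (u • x)) 0 u := fun u => by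
    have h1 : HasDerivAt (fun u : ℂ => L.ex ((-u) • x)) (-(L.ex ((-u) • x) * L.br x)) u := by
      have := (L.hasDerivAt_ex' x (-u)).scomp u (hasDerivAt_neg u)
      simpa [Function.comp_def] using this
    have h2 : HasDerivAt (fun u : ℂ => L.Ex (u • x)) (L.br x + u • (L.br x * L.br x)) u := by
      have e : (fun u : ℂ => L.Ex (u • x)) =
          fun u => 1 + u • L.br x + (u * u / 2) • (L.br x * L.br x) := by
        funext u; ext1 v; simp [Ex_apply, smul_smul]; ring_nf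
      rw [e]
      have a := ((hasDerivAt_id u).smul_const (L.br x)).const_add 1
      have b := (((hasDerivAt_id u).mul (hasDerivAt_id u)).div_const 2).smul_const
        (L.br x * L.br x)
      refine (a.add b).congr_deriv ?_
      simp
    refine (h1.mul h2).congr_deriv ?_
    ext1 v
    simp [Ex_apply, hL.br3 hε hx hx hx]
  have hc := is_const_of_deriv_eq_zero (fun u => (hd u).differentiableAt)
    (fun u => (hd u).deriv) 1 0
  simp only [neg_zero, zero_smul, L.ex_zero, Ex_zero, one_smul, mul_one] at hc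
  have h2 := L.ex_smul_neg_mul x 1
  rw [one_smul] at h2
  rw [← mul_one (L.ex x), ← hc, ← mul_assoc, h2, one_mul]

lemma Graded.Ex_br (hL : Graded L) {ε : ℤ} (hε : ε = 1 ∨ ε = -1) {x : Idx r m p → ℂ}
    (hx : IsW ε x) (a b : Idx r m p → ℂ) : L.Ex x (L.br a b) = L.br (L.Ex x a) (L.Ex x b) := by
  rw [← hL.ex_eq hε hx, L.ex_br]

end Pool.Agent.Lib.MP_e2ef7e_al.Gen
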