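import Pool.Agent.Lib.MP_e2ef7e_al.Geo1

/-!
Calculus with complex directions.
-/

open Complex Filter Topology
open scoped ComplexConjugate ContDiff

noncomputable section

namespace Pool.Agent.Lib.MP_e2ef7e_al.Gen

variable {r m p : ℕ} {E F G : Type}
  [NormedAddCommGroup E] [NormedSpace ℝ E] [NormedSpace ℂ E] [IsScalarTower ℝ ℂ E]
  [NormedAddCommGroup F] [NormedSpace ℝ F] [NormedSpace ℂ F] [IsScalarTower ℝ ℂ F]
  [NormedAddCommGroup G] [NormedSpace ℝ G] [NormedSpace ℂ G] [IsScalarTower ℝ ℂ G]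

/-- complexified differential -/
def Dv (f : XX r m p → E) (x : XX r m p) : (Idx r m p → ℂ) →L[ℂ] E :=
  ∑ j, (ContinuousLinearMap.proj j).smulRight (pd f (dir j) x)

omit [IsScalarTower ℝ ℂ E] in
lemma Dv_apply (f : XX r m p → E) (x : XX r m p) (v : Idx r m p → ℂ) :
    Dv f x v = ∑ j, v j • fderiv ℝ f x (dir j) := by
  simp only [Dv, sum_apply, ContinuousLinearMap.smulRight_apply, ContinuousLinearMap.proj_apply, pd]

omit [IsScalarTower ℝ ℂ E] in
lemma Dv_bv (f : XX r m p → E) (x : XX r m p) (j : Idx r m p) :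
    Dv f x (bv j) = pd f (dir j) x := by
  rw [Dv_apply, Finset.sum_eq_single j]
  · simp [bv, pd]
  · intro i _ hi; simp [bv, hi]
  · simp

omit [IsScalarTower ℝ ℂ E] in
lemma Dv_congr {f g : XX r m p → E} {x : XX r m p} (h : f =ᶠ[𝓝 x] g) : Dv f x = Dv g x := by
  ext1 v; rw [Dv_apply, Dv_apply, h.fderiv_eq]

/-- `f` is differentiable at `x` with complexified differential `f'` -/
structure HasD (f : XX r m p → E) (f' : (Idx r m p → ℂ) → E) (x : XX r m p) : Prop where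
  diff : DifferentiableAt ℝ f x
  eq : ∀ v, Dv f x v = f' v

variable {x : XX r m p}

section basic

omit [IsScalarTower ℝ ℂ E] [IsScalarTower ℝ ℂ F]

variable {f g : XX r m p → E} {f' g' : (Idx r m p → ℂ) → E}

lemma hasD_of_diff (h : DifferentiableAt ℝ f x) : HasD f (Dv f x) x := ⟨h, fun _ => rfl⟩

lemma HasD.of_fderiv {A : XX r m p →L[ℝ] E} (h : HasFDerivAt f A x)
    (h' : ∀ v, ∑ j, v j • A (dir j) = f' v) : HasD f f' x :=
  ⟨h.differentiableAt, fun v => by rw [Dv_apply, h.fderiv, h']⟩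

lemma HasD.congr' (h : HasD f f' x) (h' : ∀ v, f' v = g' v) : HasD f g' x :=
  ⟨h.diff, fun v => (h.eq v).trans (h' v)⟩

lemma HasD.congr (h : HasD f f' x) (h' : g =ᶠ[𝓝 x] f) : HasD g f' x :=
  ⟨h.diff.congr_of_eventuallyEq h', fun v => by rw [Dv_congr h', h.eq]⟩

lemma HasD.unique (h : HasD f f' x) (h' : HasD f g' x) (v) : f' v = g' v :=
  (h.eq v).symm.trans (h'.eq v)

lemma HasD.sum_eq (h : HasD f f' x) (v) : ∑ j, v j • fderiv ℝ f x (dir j) = f' v := by
  rw [← Dv_apply, h.eq]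

lemma hasD_const (c : E) : HasD (fun _ => c) (fun _ => 0) x :=
  HasD.of_fderiv (hasFDerivAt_const c x) fun v => by simp

lemma HasD.add (hf : HasD f f' x) (hg : HasD g g' x) :
    HasD (fun y => f y + g y) (fun v => f' v + g' v) x :=
  HasD.of_fderiv (hf.diff.hasFDerivAt.add hg.diff.hasFDerivAt) fun v => by
    simp only [add_apply, smul_add, Finset.sum_add_distrib, hf.sum_eq, hg.sum_eq]

lemma HasD.neg (hf : HasD f f' x) : HasD (fun y => -f y) (fun v => -f' v) x :=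
  HasD.of_fderiv hf.diff.hasFDerivAt.neg fun v => by
    simp only [neg_apply, smul_neg, Finset.sum_neg_distrib, hf.sum_eq]

lemma HasD.sub (hf : HasD f f' x) (hg : HasD g g' x) :
    HasD (fun y => f y - g y) (fun v => f' v - g' v) x := by
  simpa only [sub_eq_add_neg] using hf.add hg.neg

end basic

variable {f : XX r m p → E} {f' : (Idx r m p → ℂ) → E} {g : XX r m p → F}
  {g' : (Idx r m p → ℂ) → F}

lemma HasD.clm (hf : HasD f f' x) (A : E →L[ℂ] F) :
    HasD (fun y => A (f y)) (fun v => A (f' v)) x :=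
  HasD.of_fderiv ((A.restrictScalars ℝ).hasFDerivAt.comp x hf.diff.hasFDerivAt) fun v => by
    simp [← hf.sum_eq]

lemma HasD.bilin (B : E →L[ℂ] F →L[ℂ] G) (hf : HasD f f' x) (hg : HasD g g' x) :
    HasD (fun y => B (f y) (g y)) (fun v => B (f' v) (g x) + B (f x) (g' v)) x := by
  have h := ((B.isBoundedBilinearMap.hasFDerivAt (f x, g x)).restrictScalars ℝ).comp x
    (hf.diff.hasFDerivAt.prodMk hg.diff.hasFDerivAt)
  refine HasD.of_fderiv h fun v => ?_
  simp [← hf.sum_eq, ← hg.sum_eq, Finset.sum_add_distrib, add_comm, -Fintype.sum_sum_type]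

lemma HasD.app {A : XX r m p → E →L[ℂ] F} {A' : (Idx r m p → ℂ) → E →L[ℂ] F} (hA : HasD A A' x)
    (hf : HasD f f' x) : HasD (fun y => A y (f y)) (fun v => A' v (f x) + A x (f' v)) x :=
  HasD.bilin (ContinuousLinearMap.id ℂ (E →L[ℂ] F)) hA hf

lemma HasD.app_const {A : XX r m p → E →L[ℂ] F} {A' : (Idx r m p → ℂ) → E →L[ℂ] F}
    (hA : HasD A A' x) (u : E) : HasD (fun y => A y u) (fun v => A' v u) x :=
  (hA.app (hasD_const u)).congr' fun v => by simp

lemma HasD.smul {c : XX r m p → ℂ} {c' : (Idx r m p → ℂ) → ℂ} (hc : HasD c c' x)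
    (hf : HasD f f' x) : HasD (fun y => c y • f y) (fun v => c' v • f x + c x • f' v) x :=
  HasD.bilin (ContinuousLinearMap.lsmul ℂ ℂ) hc hf

lemma HasD.const_smul (c : ℂ) (hf : HasD f f' x) :
    HasD (fun y => c • f y) (fun v => c • f' v) x :=
  ((hasD_const c).smul hf).congr' fun v => by simp

lemma HasD.mul {A B : XX r m p → E →L[ℂ] E} {A' B' : (Idx r m p → ℂ) → E →L[ℂ] E}
    (hA : HasD A A' x) (hB : HasD B B' x) :
    HasD (fun y => A y * B y) (fun v => A' v * B x + A x * B' v) x :=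
  HasD.bilin (ContinuousLinearMap.mul ℂ (E →L[ℂ] E)) hA hB

lemma HasD.holo {c : XX r m p → ℂ} {c' : (Idx r m p → ℂ) → ℂ} (hc : HasD c c' x) {h : ℂ → E}
    {h' : E} (hh : HasDerivAt h h' (c x)) : HasD (fun y => h (c y)) (fun v => c' v • h') x :=
  HasD.of_fderiv ((hh.hasFDerivAt.restrictScalars ℝ).comp x hc.diff.hasFDerivAt) fun v => by
    simp [← hc.sum_eq, Finset.sum_smul, smul_smul, -Fintype.sum_sum_type]

omit [IsScalarTower ℝ ℂ E] [IsScalarTower ℝ ℂ F] in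
lemma HasD.anti (hf : HasD f f' x) (A : E →L[ℝ] F) (hA : ∀ (c : ℂ) z, A (c • z) = conj c • A z) :
    HasD (fun y => A (f y)) (fun v => A (f' (star v))) x :=
  HasD.of_fderiv (A.hasFDerivAt.comp x hf.diff.hasFDerivAt) fun v => by
    simp [← hf.sum_eq, hA]

lemma HasD.star {ι : Type} [Fintype ι] {f : XX r m p → ι → ℂ} {f' : (Idx r m p → ℂ) → ι → ℂ}
    (hf : HasD f f' x) : HasD (fun y => star (f y)) (fun v => star (f' (star v))) x :=
  hf.anti (starL' ℝ : (ι → ℂ) ≃L[ℝ] (ι → ℂ)).toContinuousLinearMap fun c z => by simp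

lemma HasD.conj {f : XX r m p → ℂ} {f' : (Idx r m p → ℂ) → ℂ}
    (hf : HasD f f' x) : HasD (fun y => conj (f y)) (fun v => conj (f' (Star.star v))) x :=
  hf.anti conjCLE.toContinuousLinearMap fun c z => by simp

lemma HasD.cjop {ι : Type} [Fintype ι] {f : XX r m p → (ι → ℂ) →L[ℂ] ι → ℂ}
    {f' : (Idx r m p → ℂ) → (ι → ℂ) →L[ℂ] ι → ℂ} (hf : HasD f f' x) :
    HasD (fun y => cjop (f y)) (fun v => cjop (f' (Star.star v))) x :=
  hf.anti cjopL fun c z => by ext1 y; simp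

/-- chain rule for a real function of a real function -/
lemma HasD.real {u : XX r m p → ℝ} {u' : (Idx r m p → ℂ) → ℂ} (hd : DifferentiableAt ℝ u x)
    (hu : HasD (fun y => (u y : ℂ)) u' x) {h : ℝ → ℝ} {h' : ℝ} (hh : HasDerivAt h h' (u x)) :
    HasD (fun y => (h (u y) : ℂ)) (fun v => h' * u' v) x := by
  have h1 := ofRealCLM.hasFDerivAt.comp x hd.hasFDerivAt
  have h2 := ofRealCLM.hasFDerivAt.comp x (hh.hasFDerivAt.comp x hd.hasFDerivAt)
  refine HasD.of_fderiv h2 fun v => ?_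
  have h3 : fderiv ℝ (fun y => (u y : ℂ)) x = _ := h1.fderiv
  simp [← hu.sum_eq, h3, Finset.mul_sum, mul_comm, mul_left_comm, -Fintype.sum_sum_type]

omit [NormedSpace ℂ E] [IsScalarTower ℝ ℂ E] in
lemma contDiffAt_pd {n : WithTop ℕ∞} (h : ContDiffAt ℝ (n + 1) f x) (w : XX r m p) :
    ContDiffAt ℝ n (pd f w) x :=
  (h.fderiv_right le_rfl).clm_apply contDiffAt_const

lemma contDiffAt_Dv {n : WithTop ℕ∞} (h : ContDiffAt ℝ (n + 1) f x) (v : Idx r m p → ℂ) :
    ContDiffAt ℝ n (fun y => Dv f y v) x := by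
  simp only [Dv_apply]
  exact ContDiffAt.sum fun j _ => (contDiffAt_pd h (dir j)).const_smul (v j)

lemma hasD_Dv (h : ContDiffAt ℝ 2 f x) (v : Idx r m p → ℂ) :
    HasD (fun y => Dv f y v) (Dv (fun y => Dv f y v) x) x :=
  hasD_of_diff ((contDiffAt_Dv (n := 1) h v).differentiableAt one_ne_zero)

lemma Dv_Dv (h : ContDiffAt ℝ 2 f x) (u v : Idx r m p → ℂ) :
    Dv (fun y => Dv f y v) x u = ∑ k, ∑ j, (u k * v j) • pd (pd f (dir j)) (dir k) x := by
  have h1 : HasFDerivAt (fun y => ∑ j, v j • pd f (dir j) y)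
      (∑ j, v j • fderiv ℝ (pd f (dir j)) x) x := HasFDerivAt.fun_sum fun j _ =>
    ((contDiffAt_pd (n := 1) h _).differentiableAt one_ne_zero).hasFDerivAt.const_smul (v j)
  have h2 : (fun y => Dv f y v) = fun y => ∑ j, v j • pd f (dir j) y := by
    funext y; rw [Dv_apply]; rfl
  rw [h2, Dv_apply, h1.fderiv]
  simp only [sum_apply, smul_apply, Finset.smul_sum, smul_smul, pd]

lemma Dv_symm (h : ContDiffAt ℝ 2 f x) (u v : Idx r m p → ℂ) :
    Dv (fun y => Dv f y v) x u = Dv (fun y => Dv f y u) x v := by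
  have hs := h.isSymmSndFDerivAt (by simp)
  have h1 : ∀ a b, pd (pd f a) b x = fderiv ℝ (fderiv ℝ f) x b a := fun a b => by
    have := ((h.fderiv_right (m := 1) le_rfl).differentiableAt one_ne_zero).hasFDerivAt.clm_apply
      (hasFDerivAt_const a x)
    have h3 : pd f a = fun y => fderiv ℝ f y a := rfl
    rw [pd, h3, this.fderiv]; simp
  rw [Dv_Dv h, Dv_Dv h, Finset.sum_comm]
  refine Finset.sum_congr rfl fun j _ => Finset.sum_congr rfl fun k _ => ?_
  rw [h1, h1, hs.eq, mul_comm]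

/-- the Levi form for the torsion vector `g` -/
def Lev (f : XX r m p → E) (x : XX r m p) (u v g : Idx r m p → ℂ) : E :=
  Dv (fun y => Dv f y v) x u - Dv f x g

omit [NormedSpace ℂ E] [IsScalarTower ℝ ℂ E] in
lemma ev_diff (h : ContDiffAt ℝ 2 f x) : ∀ᶠ y in 𝓝 x, DifferentiableAt ℝ f y :=
  (h.eventually (by simp)).mono fun _ hy => hy.differentiableAt two_ne_zero

omit [IsScalarTower ℝ ℂ E] in
lemma Lev_congr {f g : XX r m p → E} (h : f =ᶠ[𝓝 x] g) (u v w) :
    Lev f x u v w = Lev g x u v w := by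
  rw [Lev, Lev, Dv_congr h, Dv_congr (g := fun y => Dv g y v)]
  exact h.eventuallyEq_nhds.mono fun y hy => by simp only [Dv_congr hy]

omit [IsScalarTower ℝ ℂ E] in
lemma Lev_eq {f1 : XX r m p → (Idx r m p → ℂ) → E} (h : ∀ᶠ y in 𝓝 x, HasD f (f1 y) y)
    {u v w : Idx r m p → ℂ} {f2 : (Idx r m p → ℂ) → E} (h2 : HasD (fun y => f1 y v) f2 x) :
    Lev f x u v w = f2 u - f1 x w := by
  rw [Lev, h.self_of_nhds.eq, ← h2.eq, Dv_congr (h.mono fun y hy => hy.eq v)]

lemma Lev_bilin (B : E →L[ℂ] F →L[ℂ] G) (hf : ContDiffAt ℝ 2 f x) (hg : ContDiffAt ℝ 2 g x)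
    (u v w) : Lev (fun y => B (f y) (g y)) x u v w = B (Lev f x u v w) (g x) +
      B (f x) (Lev g x u v w) + B (Dv f x u) (Dv g x v) + B (Dv f x v) (Dv g x u) := by
  rw [Lev_eq (((ev_diff hf).and (ev_diff hg)).mono fun y hy =>
    (hasD_of_diff hy.1).bilin B (hasD_of_diff hy.2))
    (((hasD_Dv hf v).bilin B (hasD_of_diff (ev_diff hg).self_of_nhds)).add
      ((hasD_of_diff (ev_diff hf).self_of_nhds).bilin B (hasD_Dv hg v)))]
  simp only [Lev, map_sub, sub_apply]; abel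

lemma Lev_add {g : XX r m p → E} (hf : ContDiffAt ℝ 2 f x) (hg : ContDiffAt ℝ 2 g x) (u v w) :
    Lev (fun y => f y + g y) x u v w = Lev f x u v w + Lev g x u v w := by
  rw [Lev_eq (((ev_diff hf).and (ev_diff hg)).mono fun y hy =>
    (hasD_of_diff hy.1).add (hasD_of_diff hy.2)) ((hasD_Dv hf v).add (hasD_Dv hg v))]
  simp only [Lev]; abel

lemma Lev_clm (A : E →L[ℂ] F) (hf : ContDiffAt ℝ 2 f x) (u v w) :
    Lev (fun y => A (f y)) x u v w = A (Lev f x u v w) := by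
  rw [Lev_eq ((ev_diff hf).mono fun y hy => (hasD_of_diff hy).clm A) ((hasD_Dv hf v).clm A)]
  simp only [Lev, map_sub]

omit [IsScalarTower ℝ ℂ E] in
lemma Lev_lin {A : (Idx r m p → ℂ) → E} (hf : ∀ y, HasD f A y) (u v w) :
    Lev f x u v w = -A w := by
  rw [Lev_eq (f1 := fun _ => A) (Eventually.of_forall hf) (hasD_const _), zero_sub]

lemma hasD_log {g : XX r m p → ℝ} (hd : DifferentiableAt ℝ g x) (h0 : g x ≠ 0) :
    HasD (fun y => ((-Real.log (g y) : ℝ) : ℂ))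
      (fun v => -((g x : ℂ)⁻¹ * Dv (fun y => (g y : ℂ)) x v)) x :=
  ((hasD_of_diff (ofRealCLM.differentiableAt.comp x hd)).real hd
    (Real.hasDerivAt_log h0).neg).congr' fun v => by
      rw [ofReal_neg, ofReal_inv, neg_mul]; rfl

lemma Lev_log {g : XX r m p → ℝ} (hg : ContDiffAt ℝ 2 g x) (h0 : g x ≠ 0) (u v w) :
    Lev (fun y => ((-Real.log (g y) : ℝ) : ℂ)) x u v w =
      -((g x : ℂ)⁻¹ * Lev (fun y => (g y : ℂ)) x u v w) +
        (g x : ℂ)⁻¹ ^ 2 * (Dv (fun y => (g y : ℂ)) x u * Dv (fun y => (g y : ℂ)) x v) := by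
  have hc : ContDiffAt ℝ 2 (fun y => (g y : ℂ)) x := ofRealCLM.contDiff.contDiffAt.comp x hg
  have h1 : ∀ᶠ y in 𝓝 x, DifferentiableAt ℝ g y :=
    (hg.eventually (by simp)).mono fun _ hy => hy.differentiableAt two_ne_zero
  have h2 := (hasD_of_diff (ev_diff hc).self_of_nhds).holo
    (hasDerivAt_inv (ofReal_ne_zero.2 h0))
  rw [Lev_eq ((h1.and (hg.continuousAt.eventually_ne h0)).mono fun y hy => hasD_log hy.1 hy.2)
    (h2.smul (hasD_Dv hc v)).neg]
  simp only [Lev, smul_eq_mul]; ring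

end Pool.Agent.Lib.MP_e2ef7e_al.Gen
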