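import Pool.Agent.Lib.MP_e2ef7e_al.Geo2
import Pool.Agent.Lib.MP_e2ef7e_al.BdryRes

/-!
The objects of the geometric construction.
-/

open Complex Filter Topology
open scoped ComplexConjugate ContDiff

noncomputable section

namespace Pool.Agent.Lib.MP_e2ef7e_al.Gen

abbrev VV (r m p : ℕ) : Type := Idx r m p → ℂ

abbrev Op (r m p : ℕ) : Type := VV r m p →L[ℂ] VV r m p

/-- real part of an operator -/
def reop {ι : Type} [Fintype ι] (A : (ι → ℂ) →L[ℂ] ι → ℂ) : (ι → ℂ) →L[ℂ] ι → ℂ :=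
  (1 / 2 : ℂ) • (A + cjop A)

/-- imaginary part of an operator -/
def imop {ι : Type} [Fintype ι] (A : (ι → ℂ) →L[ℂ] ι → ℂ) : (ι → ℂ) →L[ℂ] ι → ℂ :=
  (-I / 2 : ℂ) • (A - cjop A)

/-- the linear part of the Maurer-Cartan form of a product of exponentials -/
def LieD.Top {ι : Type} [Fintype ι] [DecidableEq ι] (L : LieD ι) :
    List (ι × ℂ) → (ι → ℂ) →L[ℂ] ι → ℂ
  | [] => 0
  | q :: l => (ContinuousLinearMap.proj q.1).smulRight (bv q.1) + L.ex (q.2 • bv q.1) * L.Top l

/-- bilinear dot product -/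
def dotB {ι : Type} [Fintype ι] : (ι → ℂ) →L[ℂ] (ι → ℂ) →L[ℂ] ℂ :=
  ∑ i, (ContinuousLinearMap.mul ℂ ℂ).bilinearComp (ContinuousLinearMap.proj i)
    (ContinuousLinearMap.proj i)

lemma dotB_apply {ι : Type} [Fintype ι] (a b : ι → ℂ) : dotB a b = ∑ i, a i * b i := by
  simp [dotB]

/-- square of the Euclidean norm -/
def nsq {ι : Type} [Fintype ι] (z : ι → ℂ) : ℝ := ∑ i, ‖z i‖ ^ 2

variable {r m p : ℕ}

def sR (x : XX r m p) : ℝ := sx x.2.2.1

def sg (x : XX r m p) : ℝ := Real.sin (sR x)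

def sS (x : XX r m p) : ℂ := (sg x : ℝ)

def cS (x : XX r m p) : ℂ := (Real.cos (sR x) : ℝ)

def eS (w : ℤ) (x : XX r m p) : ℂ := exp (w * (sR x * I))

def eh (x : XX r m p) : VV r m p := emb0 x.1

def bh (x : XX r m p) : VV r m p := embm x.2.1

def ah (x : XX r m p) : VV r m p := embp x.2.2.2

def lst (y : Fin r → ℝ) : List (Idx r m p × ℂ) := List.ofFn fun k => (i0 k, I * y k)

def YY (x : XX r m p) : Op r m p := P0 + cS x • (ContinuousLinearMap.proj iD).smulRight (eh x)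

def WW (w : ℤ) (x : XX r m p) (v : VV r m p) : VV r m p := P0 v - (I * w * sS x * v iD) • eh x

/-- the filter of points with small lateral coordinates -/
def LL (r m p : ℕ) : Filter (XX r m p) := comap (fun x => (x.1, x.2.1, x.2.2.2)) (𝓝 0)

variable (L : LieD (Idx r m p))

def KK (x : XX r m p) : Op r m p := L.Kop (lst (sg x • x.1))

def TT (x : XX r m p) : Op r m p := L.Top (lst (sg x • x.1))

def Ki (x : XX r m p) : Op r m p := (sS x)⁻¹ • imop (KK L x)

def JJ (w : ℤ) (x : XX r m p) : Op r m p := (w : ℂ) • reop (KK L x) + cS x • Ki L x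

def mu (w : ℤ) (x : XX r m p) : Op r m p := Pw w * (Pw (-1) + L.Ex (bh x) * Pw 1)

def Rot (x : XX r m p) : Op r m p := L.ex ((sR x * I : ℂ) • bv iD)

def MM (x : XX r m p) : Op r m p := L.Ex (bh x) * L.Ex (ah x)

def AA (x : XX r m p) : Op r m p := KK L x * (Rot L x * MM L x)

/-- the complexified connection form -/
def Om (x : XX r m p) : Op r m p :=
  (I * sS x) • (TT L x * YY x + (ContinuousLinearMap.proj iD).smulRight (bv iD)) +
    KK L x * (mu L 0 x + eS 1 x • mu L 1 x + eS (-1) x • mu L (-1) x)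

def Qh (x : XX r m p) : Op r m p := (sS x)⁻¹ • imop (Om L x)

/-- the torsion -/
def Gam (x : XX r m p) (u v : VV r m p) : VV r m p := Ring.inverse (Qh L x)
  ((cS x * v iD) • Qh L x u + Dv (Qh L) x v u + L.br (Qh L x u) (Om L x v))

def BB (x : XX r m p) : Op r m p := Pw (-1) * MM L x * Pw (-1) + (1 - Pw (-1))

def cm (x : XX r m p) : VV r m p := Ring.inverse (BB L x) (Pw (-1) (MM L x (bv iD)))

/-- the two Levi flat coordinates -/
def cc (w : ℤ) (x : XX r m p) : VV r m p := if w = 1 then ah x else cm L x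

/-- the Levi form on the diagonal -/
def LevD {E : Type} [NormedAddCommGroup E] [NormedSpace ℝ E] [NormedSpace ℂ E]
    (f : XX r m p → E) (x : XX r m p) (v : VV r m p) : E :=
  Lev f x (star v) v (Gam L x (star v) v)

def tau (x : XX r m p) (v : VV r m p) : ℝ := sg x * ‖x.1‖ ^ 2 * ‖v iD‖

/-- the defining functions of the domain -/
def uu (w : ℤ) (ε : ℝ) (x : XX r m p) : ℝ :=
  nsq (cc L w x) + nsq (eh x) * (1 + ε⁻¹ * nsq (cc L (-w) x))

end Pool.Agent.Lib.MP_e2ef7e_al.Gen
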