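import Pool.Agent.Lib.MP_e2ef7e_al.GeoFlat2
import Pool.Agent.Lib.MP_e2ef7e_al.EqFixA

/-!
Exact identities for the connection form and the torsion.
-/

open Complex Filter Topology Set
open scoped ComplexConjugate ContDiff

noncomputable section

namespace Pool.Agent.Lib.MP_e2ef7e_al.Gen

section ops

variable {ι : Type} [Fintype ι] (A B : (ι → ℂ) →L[ℂ] ι → ℂ) (c : ℂ)

lemma cjop_add : cjop (A + B) = cjop A + cjop B := map_add cjopR A B
lemma cjop_sub : cjop (A - B) = cjop A - cjop B := map_sub cjopR A B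
lemma cjop_mul : cjop (A * B) = cjop A * cjop B := map_mul cjopR A B
lemma cjop_one : cjop (1 : (ι → ℂ) →L[ℂ] ι → ℂ) = 1 := map_one cjopR
lemma cjop_smul : cjop (c • A) = conj c • cjop A := by ext1 x; simp
lemma cjop_cjop : cjop (cjop A) = A := by ext1 x; simp
lemma star_app (u : ι → ℂ) : star (A u) = cjop A (star u) := by simp

lemma cjop_reop : cjop (reop A) = reop A := by
  rw [reop, cjop_smul, cjop_add, cjop_cjop, add_comm]; simp [map_ofNat]

lemma cjop_imop : cjop (imop A) = imop A := by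
  rw [imop, cjop_smul, cjop_sub, cjop_cjop, ← neg_sub, smul_neg, ← neg_smul]
  congr 1; simp [neg_div, map_ofNat]

lemma reop_add_imop : A = reop A + I • imop A := by
  rw [reop, imop]; match_scalars
  · linear_combination (1 / 2 : ℂ) * I_mul_I
  · linear_combination (-1 / 2 : ℂ) * I_mul_I

lemma cjop_eq : cjop A = reop A - I • imop A := by
  rw [reop, imop]; match_scalars
  · linear_combination (1 / 2 : ℂ) * I_mul_I
  · linear_combination (-1 / 2 : ℂ) * I_mul_I

lemma reop_apply (u : ι → ℂ) : reop A u = (1 / 2 : ℂ) • (A u + star (A (star u))) := rfl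

lemma imop_apply (u : ι → ℂ) : imop A u = (-I / 2 : ℂ) • (A u - star (A (star u))) := rfl

lemma omL_map [DecidableEq ι] (L : LieD ι) (l : List (ι × ℂ)) (u y : ι → ℂ) :
    L.omL (l.map fun q => (q.1, q.2, u q.1)) y = L.Top l u + L.Kop l y := by
  induction l with
  | nil => simp [LieD.omL, LieD.Top, LieD.Kop]
  | cons q l ih => simp [LieD.omL, LieD.Top, LieD.Kop, ih, add_assoc]

end ops

variable {r m p : ℕ} {L : LieD (Idx r m p)}

lemma cjop_Pw (w : ℤ) : cjop (Pw w : Op r m p) = Pw w := by ext1 u; simp [star_Pw]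

lemma cjop_P0 : cjop (P0 : Op r m p) = P0 := by ext1 u; simp [star_P0]

lemma star_eh (x : XX r m p) : star (eh x) = eh x := star_emb0 _
lemma star_bh (x : XX r m p) : star (bh x) = bh x := star_embm _
lemma star_ah (x : XX r m p) : star (ah x) = ah x := star_embp _

lemma cjop_YY (x : XX r m p) : cjop (YY x) = YY x := by
  ext1 u; simp [YY_apply, star_P0, star_eh, conj_cS]

lemma cjop_PD : cjop ((ContinuousLinearMap.proj iD).smulRight (bv iD) : Op r m p) =
    (ContinuousLinearMap.proj iD).smulRight (bv iD) := by ext1 u; simp [star_bv]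

lemma imop_KK (x : XX r m p) : imop (KK L x) = sS x • Ki L x := by
  rw [Ki, smul_smul, mul_inv_cancel₀ (sS_ne x), one_smul]

lemma imop_Om (x : XX r m p) : imop (Om L x) = sS x • Qh L x := by
  rw [Qh, smul_smul, mul_inv_cancel₀ (sS_ne x), one_smul]

theorem KK_eq (x : XX r m p) : KK L x = reop (KK L x) + (I * sS x) • Ki L x := by
  rw [mul_smul, ← imop_KK]; exact reop_add_imop _

theorem cjop_KK_eq (x : XX r m p) : cjop (KK L x) = reop (KK L x) - (I * sS x) • Ki L x := by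
  rw [mul_smul, ← imop_KK]; exact cjop_eq _

theorem cjop_mu (w : ℤ) (x : XX r m p) : cjop (mu L w x) = mu L w x := by
  simp only [mu, cjop_mul, cjop_add, cjop_Pw, cjop_Ex, star_bh]

theorem mu_zero (hL : Graded L) (x : XX r m p) (u : VV r m p) :
    mu L 0 x u = L.br (bh x) (Pw 1 u) := by
  have h1 := hL.br (isW_embm x.2.1) (isW_Pw 1 u)
  have h2 := hL.br (isW_embm x.2.1) h1
  rw [mu_apply, Ex_apply, bh]
  simp only [map_add, map_smul, (isW_Pw (-1) u).Pw_ne (w' := 0) (by decide),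
    (isW_Pw 1 u).Pw_ne (w' := 0) (by decide), h2.Pw_ne (w' := 0) (by decide)]
  simpa using h1.Pw_self

theorem mu_one (hL : Graded L) (x : XX r m p) (u : VV r m p) : mu L 1 x u = Pw 1 u := by
  have h1 := hL.br (isW_embm x.2.1) (isW_Pw 1 u)
  have h2 := hL.br (isW_embm x.2.1) h1
  rw [mu_apply, Ex_apply, bh]
  simp only [map_add, map_smul, (isW_Pw (-1) u).Pw_ne (w' := 1) (by decide),
    h1.Pw_ne (w' := 1) (by decide), h2.Pw_ne (w' := 1) (by decide)]
  simpa using (isW_Pw 1 u).Pw_self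

theorem mu_neg (hL : Graded L) (x : XX r m p) (u : VV r m p) : mu L (-1) x u =
    Pw (-1) u + (1 / 2 : ℂ) • L.br (bh x) (L.br (bh x) (Pw 1 u)) := by
  have h1 := hL.br (isW_embm x.2.1) (isW_Pw 1 u)
  have h2 : IsW (-1) _ := hL.br (isW_embm x.2.1) h1
  rw [mu_apply, Ex_apply, bh]
  simp only [map_add, map_smul, (isW_Pw 1 u).Pw_ne (w' := -1) (by decide),
    h1.Pw_ne (w' := -1) (by decide), h2.Pw_self, (isW_Pw (-1) u).Pw_self, zero_add]

theorem omX_eq (hL : Graded L) (x : XX r m p) (j) : omX L x (dir j) = Om L x (bv j) := by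
  have h : (List.ofFn fun k => (i0 k, I * Real.sin (sx x.2.2.1) * x.1 k, I * Real.sin (sx x.2.2.1) *
      ((dir j).1 k + Real.cos (sx x.2.2.1) * (dir j).2.2.1 * x.1 k))) =
      (lst (sg x • x.1) : List (Idx r m p × ℂ)).map
        fun q => (q.1, q.2, ((I * sS x) • YY x (bv j)) q.1) := by
    rw [lst, List.map_ofFn]
    congr 1; funext k
    rw [YY_apply, ← eh_dir, ← x_dir]
    simp [sg, sS, cS, sR, eh, emb0_apply, i0, mul_assoc]
  rw [omX, omS, h, omL_map, Om_apply, map_smul, add_assoc, ← KK_D hL x, ← map_smul (KK L x),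
    ← map_add]
  congr 2
  rw [mu_zero hL, mu_one hL, mu_neg hL, ← bh_dir, ← ah_dir, ← x_dir, omZ, Ex_apply]
  have e1 : exp (sx x.2.2.1 * I) = eS 1 x := by simp [eS, sR]
  have e2 : exp (-(sx x.2.2.1 * I)) = eS (-1) x := by simp [eS, sR]
  have e3 : eS (-1) x * eS 1 x = 1 := by rw [← e1, ← e2, ← exp_add]; simp
  simp only [e1, e2, map_smul, smul_apply, smul_smul, bh, ah, sS, sg, sR]
  match_scalars
  · ring
  · ring
  · ring
  · linear_combination e3
  · linear_combination (1 / 2 * eS (-1) x) * e3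

theorem cjop_Qh (x : XX r m p) : cjop (Qh L x) = Qh L x := by
  rw [Qh, cjop_smul, cjop_imop, map_inv₀, conj_sS]

lemma cjop_Ki (x : XX r m p) : cjop (Ki L x) = Ki L x := by
  rw [Ki, cjop_smul, cjop_imop, map_inv₀, conj_sS]

theorem Qh_eq (x : XX r m p) : Qh L x = reop (TT L x) * YY x +
    (ContinuousLinearMap.proj iD).smulRight (bv iD) + Ki L x * mu L 0 x +
    JJ L 1 x * mu L 1 x + JJ L (-1) x * mu L (-1) x := by
  rw [Qh, inv_smul_eq_iff₀ (sS_ne x), imop, Om]
  simp only [cjop_add, cjop_smul, cjop_mul, cjop_YY, cjop_PD, cjop_mu, conj_eS, map_mul, conj_I,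
    conj_sS, neg_neg, cjop_KK_eq]
  have e1 : ∀ z, KK L x z = reop (KK L x) z + (I * sS x) • Ki L x z := fun z => by
    conv_lhs => rw [KK_eq x]
    rfl
  have e2 : ∀ z, reop (TT L x) z = (1 / 2 : ℂ) • (TT L x z + cjop (TT L x) z) := fun _ => rfl
  ext1 u
  simp only [add_apply, smul_apply, sub_apply, mul_apply_eq_comp, JJ, map_add, map_smul, e1, e2,
    eS_eq (Or.inl rfl), eS_eq (Or.inr rfl)]
  match_scalars <;> (ring_nf; try simp only [I_sq]; try ring_nf)

lemma Pw_cjop {A : Op r m p} (h : ∀ w u, Pw w (A u) = A (Pw w u)) (w : ℤ) (u : VV r m p) :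
    Pw w (cjop A u) = cjop A (Pw w u) := by simp [← star_Pw, h]

lemma Kr_Pw (hL : Graded L) (w : ℤ) (x : XX r m p) (u : VV r m p) :
    Pw w (reop (KK L x) u) = reop (KK L x) (Pw w u) := by
  simp only [reop, smul_apply, add_apply, map_smul, map_add, KK_Pw hL,
    Pw_cjop fun w => KK_Pw hL w x]

lemma Ki_Pw (hL : Graded L) (w : ℤ) (x : XX r m p) (u : VV r m p) :
    Pw w (Ki L x u) = Ki L x (Pw w u) := by
  simp only [Ki, imop, smul_apply, sub_apply, map_smul, map_sub, KK_Pw hL,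
    Pw_cjop fun w => KK_Pw hL w x]

lemma JJ_Pw (hL : Graded L) (w w' : ℤ) (x : XX r m p) (u : VV r m p) :
    Pw w (JJ L w' x u) = JJ L w' x (Pw w u) := by
  simp only [JJ, smul_apply, add_apply, map_smul, map_add, Kr_Pw hL, Ki_Pw hL]

lemma P0_Tr (hL : Graded L) (x : XX r m p) (u : VV r m p) :
    P0 (reop (TT L x) u) = reop (TT L x) u := by
  simp only [reop_apply, map_smul, map_add, ← star_P0, P0_TT hL]

lemma isW_TT (hL : Graded L) (x : XX r m p) (u : VV r m p) : IsW 0 (TT L x u) :=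
  P0_TT hL x u ▸ isW_P0 _

lemma isW_Tr (hL : Graded L) (x : XX r m p) (u : VV r m p) : IsW 0 (reop (TT L x) u) :=
  P0_Tr hL x u ▸ isW_P0 _

lemma isW_D : IsW 0 (bv iD : VV r m p) := isW_bv iD

theorem Pw0_Om (hL : Graded L) (x : XX r m p) (v : VV r m p) : Pw 0 (Om L x v) =
    (I * sS x) • TT L x (YY x v) + (I * sS x * v iD) • bv iD + KK L x (mu L 0 x v) := by
  simp only [Om_apply, map_add, map_smul, KK_Pw hL, (isW_TT hL x _).Pw_self, isW_D.Pw_self,
    (isW_mu 0 x v).Pw_self, (isW_mu 1 x v).Pw_ne (w' := 0) (by decide),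
    (isW_mu (-1) x v).Pw_ne (w' := 0) (by decide), map_zero, smul_zero, add_zero]

theorem Pw_Om (hL : Graded L) {w : ℤ} (hw : w = 1 ∨ w = -1) (x : XX r m p) (v : VV r m p) :
    Pw w (Om L x v) = eS w x • KK L x (mu L w x v) := by
  have h0 : (0 : ℤ) ≠ w := by omega
  simp only [Om_apply, map_add, map_smul, KK_Pw hL, (isW_TT hL x _).Pw_ne h0, isW_D.Pw_ne h0,
    (isW_mu 0 x v).Pw_ne h0]
  rcases hw with rfl | rfl
  · simp [(isW_mu 1 x v).Pw_self, (isW_mu (-1) x v).Pw_ne (w' := 1) (by decide)]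
  · simp [(isW_mu (-1) x v).Pw_self, (isW_mu 1 x v).Pw_ne (w' := -1) (by decide)]

lemma Qh_apply (x : XX r m p) (v : VV r m p) : Qh L x v = reop (TT L x) (YY x v) + v iD • bv iD +
    Ki L x (mu L 0 x v) + JJ L 1 x (mu L 1 x v) + JJ L (-1) x (mu L (-1) x v) := by
  rw [Qh_eq]; rfl

theorem Pw0_Qh (hL : Graded L) (x : XX r m p) (v : VV r m p) : Pw 0 (Qh L x v) =
    reop (TT L x) (YY x v) + v iD • bv iD + Ki L x (mu L 0 x v) := by
  simp only [Qh_apply, map_add, map_smul, Ki_Pw hL, JJ_Pw hL, (isW_Tr hL x _).Pw_self,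
    isW_D.Pw_self, (isW_mu 0 x v).Pw_self, (isW_mu 1 x v).Pw_ne (w' := 0) (by decide),
    (isW_mu (-1) x v).Pw_ne (w' := 0) (by decide), map_zero, add_zero]

theorem Pw_Qh (hL : Graded L) {w : ℤ} (hw : w = 1 ∨ w = -1) (x : XX r m p) (v : VV r m p) :
    Pw w (Qh L x v) = JJ L w x (mu L w x v) := by
  have h0 : (0 : ℤ) ≠ w := by omega
  simp only [Qh_apply, map_add, map_smul, Ki_Pw hL, JJ_Pw hL, (isW_Tr hL x _).Pw_ne h0,
    isW_D.Pw_ne h0, (isW_mu 0 x v).Pw_ne h0]
  rcases hw with rfl | rfl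
  · simp [(isW_mu 1 x v).Pw_self, (isW_mu (-1) x v).Pw_ne (w' := 1) (by decide)]
  · simp [(isW_mu (-1) x v).Pw_self, (isW_mu 1 x v).Pw_ne (w' := -1) (by decide)]

lemma Ki_iD (hL : Graded L) (x : XX r m p) (u : VV r m p) : Ki L x u iD = 0 := by
  simp [Ki, imop_apply, KK_iD hL]

theorem Qh_iD (hL : Graded L) (x : XX r m p) (v : VV r m p) : Qh L x v iD = v iD := by
  have h : Qh L x v iD = Pw 0 (Qh L x v) iD := by simp [Pw_apply, wt_iD]
  rw [h, Pw0_Qh hL, ← P0_Tr hL]
  simp [P0_iD, Ki_iD hL, bv_iD_iD]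

lemma Qh_Gam {x : XX r m p} (h : IsUnit (Qh L x)) (u v : VV r m p) : Qh L x (Gam L x u v) =
    (cS x * v iD) • Qh L x u + Dv (Qh L) x v u + L.br (Qh L x u) (Om L x v) := by
  rw [Gam, ← mul_apply_eq_comp, Ring.mul_inverse_cancel _ h, one_apply_eq_self]

/-- the defining identity of the torsion -/
theorem Gam_spec {x : XX r m p} (h : IsUnit (Qh L x)) (u v : VV r m p) :
    imop (Om L x) (Gam L x u v) =
      Dv (fun y => imop (Om L y)) x v u + L.br (imop (Om L x) u) (Om L x v) := by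
  have h1 := (hasD_sS x).smul
    (hasD_of_diff ((contDiff_Qh (L := L) (n := 1)).differentiable one_ne_zero x))
  simp only [imop_Om, h1.eq, smul_apply, add_apply, Qh_Gam h, map_smul]
  module

theorem Gam_iD (hL : Graded L) {x : XX r m p} (h : IsUnit (Qh L x)) (u v : VV r m p) :
    Gam L x u v iD = cS x * (u iD * v iD) := by
  have h1 := ((hasD_of_diff ((contDiff_Qh (L := L) (n := 1)).differentiable one_ne_zero
    x)).app_const u).clm (ContinuousLinearMap.proj (R := ℂ) (φ := fun _ => ℂ) iD)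
  have h2 : Dv (Qh L) x v u iD = 0 := by
    simp only [ContinuousLinearMap.proj_apply, Qh_iD hL] at h1
    exact h1.unique (hasD_const _) v
  rw [← Qh_iD hL x (Gam L x u v), Qh_Gam h]
  simp only [Pi.add_apply, Pi.smul_apply, h2, hL.noD, Qh_iD hL, smul_eq_mul]; ring

end Pool.Agent.Lib.MP_e2ef7e_al.Gen
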