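import Pool.Agent.Lib.MP_e2ef7e_al.Geo3
import Pool.Agent.Lib.MP_e2ef7e_al.EqFixB
import Pool.Agent.Lib.MP_e2ef7e_al.EqFixA

/-!
Uniform bounds up to the boundary.
-/

open Complex Filter Topology Set
open scoped ComplexConjugate ContDiff

noncomputable section

namespace Pool.Agent.Lib.MP_e2ef7e_al.Gen

variable {r m p : ℕ} {L : LieD (Idx r m p)}

namespace GoodBd

/-- the passage from the flat coordinate to the angle -/
def kap (x : XX r m p) : XX r m p := (x.1, x.2.1, sx x.2.2.1, x.2.2.2)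

/-- the points of the axis -/
def pt (s : ℝ) : XX r m p := (0, 0, s, 0)

lemma contDiff_kap : ContDiff ℝ ω (kap : XX r m p → XX r m p) :=
  contDiff_fst.prodMk ((contDiff_fst.comp contDiff_snd).prodMk
    ((contDiff_sx.comp (contDiff_fst.comp (contDiff_snd.comp contDiff_snd))).prodMk
      (contDiff_snd.comp (contDiff_snd.comp contDiff_snd))))

lemma fderiv_kap (x w : XX r m p) :
    fderiv ℝ kap x w = (w.1, w.2.1, Real.sin (kap x).2.2.1 * w.2.2.1, w.2.2.2) := by
  have h1 := hasFDerivAt_fst.comp x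
    (hasFDerivAt_snd.comp x (hasFDerivAt_snd (𝕜 := ℝ) (p := x)))
  have h := (hasFDerivAt_fst (𝕜 := ℝ) (p := x)).prodMk
    ((hasFDerivAt_fst.comp x (hasFDerivAt_snd (𝕜 := ℝ) (p := x))).prodMk
      (((hasDerivAt_sx x.2.2.1).hasFDerivAt.comp x h1).prodMk
        (hasFDerivAt_snd.comp x (hasFDerivAt_snd.comp x (hasFDerivAt_snd (𝕜 := ℝ) (p := x))))))
  have h2 : fderiv ℝ kap x = _ := h.fderiv
  rw [h2]
  simp [kap, mul_comm]

lemma ev_nhds {P : XX r m p → Prop} (h : ∀ᶠ x in LL r m p, P x) :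
    ∀ᶠ x in LL r m p, ∀ᶠ y in 𝓝 x, P y := by
  have hc : Continuous fun x : XX r m p => (x.1, x.2.1, x.2.2.2) := by fun_prop
  rw [LL, eventually_comap] at h
  refine (tendsto_comap.eventually h.eventually_nhds).mono fun x hx => ?_
  exact (hc.continuousAt.eventually hx).mono fun y hy => hy y rfl

lemma tube {P : XX r m p → Prop} (h : ∀ s ∈ Icc 0 Real.pi, ∀ᶠ z in 𝓝 (pt s), P z) :
    ∀ᶠ x in LL r m p, P (kap x) := by
  have h1 := isCompact_Icc.eventually_forall_of_forall_eventually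
    (x₀ := (0 : (Fin r → ℝ) × (Fin m → ℝ) × (Fin p → ℝ)))
    (P := fun a s => P (a.1, a.2.1, s, a.2.2)) fun s hs => by
      have hc : Continuous fun z : ((Fin r → ℝ) × (Fin m → ℝ) × (Fin p → ℝ)) × ℝ =>
        ((z.1.1, z.1.2.1, z.2, z.1.2.2) : XX r m p) := by fun_prop
      exact (hc.tendsto (0, s)).eventually (h s hs)
  exact (tendsto_comap.eventually h1).mono fun x hx =>
    hx _ ⟨(sx_pos _).le, (sx_lt_pi _).le⟩

section good

variable {E F : Type} [NormedAddCommGroup E] [NormedSpace ℝ E] [NormedAddCommGroup F]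
  [NormedSpace ℝ F]

/-- functions which extend analytically to the closed axis -/
def Good (f : XX r m p → E) : Prop := ∃ g : XX r m p → E,
  (∀ s ∈ Icc 0 Real.pi, ContDiffAt ℝ ω g (pt s)) ∧ ∀ᶠ x in LL r m p, f x = g (kap x)

variable {f : XX r m p → E}

lemma Good.of {g : XX r m p → E} (hg : ContDiff ℝ ω g) (h : ∀ x, f x = g (kap x)) : Good f :=
  ⟨g, fun _ _ => hg.contDiffAt, Eventually.of_forall h⟩

lemma Good.bd (h : Good f) : ∃ C : ℝ, 0 ≤ C ∧ ∀ᶠ x in LL r m p, ‖f x‖ ≤ C := by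
  obtain ⟨g, hg, hf⟩ := h
  have hc : Continuous (pt : ℝ → XX r m p) := by unfold pt; fun_prop
  obtain ⟨C, hC⟩ := isCompact_Icc.exists_bound_of_continuousOn (f := fun s => g (pt s))
    fun s hs => ((hg s hs).continuousAt.comp hc.continuousAt).continuousWithinAt
  refine ⟨|C| + 1, by positivity, ?_⟩
  have h1 := tube (P := fun z => ‖g z‖ ≤ |C| + 1) fun s hs =>
    (hg s hs).continuousAt.norm.eventually_le_const
      (show ‖g (pt s)‖ < |C| + 1 by linarith [hC s hs, le_abs_self C])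
  filter_upwards [h1, hf] with x h2 h3
  rwa [h3]

lemma Good.cd (h : Good f) : ∀ᶠ x in LL r m p, ContDiffAt ℝ ω f x := by
  obtain ⟨g, hg, hf⟩ := h
  have h1 := tube (P := fun z => ContDiffAt ℝ ω g z) fun s hs => (hg s hs).eventually (by simp)
  filter_upwards [h1, ev_nhds hf] with x h2 h3
  exact (h2.comp x contDiff_kap.contDiffAt).congr_of_eventuallyEq h3

lemma Good.comp (h : Good f) {Φ : E → F} (hΦ : ContDiff ℝ ω Φ) : Good fun x => Φ (f x) := by
  obtain ⟨g, hg, hf⟩ := h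
  exact ⟨fun z => Φ (g z), fun s hs => hΦ.contDiffAt.comp _ (hg s hs),
    hf.mono fun x hx => congrArg Φ hx⟩

lemma Good.prod (h : Good f) {f' : XX r m p → F} (h' : Good f') : Good fun x => (f x, f' x) := by
  obtain ⟨g, hg, hf⟩ := h
  obtain ⟨g', hg', hf'⟩ := h'
  exact ⟨fun z => (g z, g' z), fun s hs => (hg s hs).prodMk (hg' s hs),
    (hf.and hf').mono fun x hx => Prod.ext hx.1 hx.2⟩

lemma Good.pi {α : Type} [Fintype α] {f : α → XX r m p → E} (h : ∀ a, Good (f a)) :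
    Good fun x a => f a x := by
  choose g hg hf using h
  exact ⟨fun z a => g a z, fun s hs => contDiffAt_pi.2 fun a => hg a s hs,
    (eventually_all.2 hf).mono fun x hx => funext hx⟩

lemma Good.pd (h : Good f) (w : XX r m p) : Good (pd f w) := by
  obtain ⟨g, hg, hf⟩ := h
  refine ⟨fun z => fderiv ℝ g z (w.1, w.2.1, Real.sin z.2.2.1 * w.2.2.1, w.2.2.2),
    fun s hs => ((hg s hs).fderiv_right (m := ω) le_rfl).clm_apply ?_, ?_⟩
  · exact contDiffAt_const.prodMk (contDiffAt_const.prodMk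
      (((Real.contDiff_sin.comp (contDiff_fst.comp (contDiff_snd.comp contDiff_snd))).contDiffAt.mul
        contDiffAt_const).prodMk contDiffAt_const))
  · have h1 := tube (P := fun z => ContDiffAt ℝ ω g z) fun s hs => (hg s hs).eventually (by simp)
    filter_upwards [h1, ev_nhds hf] with x h2 h3
    have h4 : f =ᶠ[𝓝 x] g ∘ kap := h3
    rw [Gen.pd, h4.fderiv_eq, fderiv_comp x (h2.differentiableAt (by simp))
      (contDiff_kap.differentiable (by simp) x), ContinuousLinearMap.comp_apply, fderiv_kap]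

lemma Good.Dv [NormedSpace ℂ E] [IsScalarTower ℝ ℂ E] (h : Good f) : Good (Dv f) := by
  have h1 : ContDiff ℂ ω fun q : Idx r m p → E => ∑ j, (ContinuousLinearMap.proj j :
      (Idx r m p → ℂ) →L[ℂ] ℂ).smulRight (q j) :=
    ContDiff.sum fun j _ => (ContinuousLinearMap.smulRightL ℂ (Idx r m p → ℂ) E
      (ContinuousLinearMap.proj j)).contDiff.comp (contDiff_apply ℂ E j)
  exact (Good.pi fun j => h.pd (dir j)).comp (h1.restrict_scalars ℝ)

end good

lemma contDiff_exr {X : Type} [NormedAddCommGroup X] [NormedSpace ℝ X] (e : VV r m p)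
    {c : X → ℂ} (hc : ContDiff ℝ ω c) : ContDiff ℝ ω fun y => L.ex (c y • e) :=
  ((L.contDiff_ex e).restrict_scalars ℝ).comp hc

lemma contDiff_Iy (k : Fin r) : ContDiff ℝ ω fun y : Fin r → ℝ => I * (y k : ℂ) :=
  contDiff_const.mul (ofRealCLM.contDiff.comp (contDiff_apply ℝ ℝ k))

lemma contDiff_Top (l : List (Fin r)) : ContDiff ℝ ω fun y : Fin r → ℝ =>
    L.Top (l.map fun k => (i0 k, I * y k)) := by
  induction l with
  | nil => exact contDiff_const
  | cons k l ih =>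
    simp only [List.map_cons, LieD.Top]
    exact contDiff_const.add ((contDiff_exr _ (contDiff_Iy k)).mul ih)

lemma Top_zero (l : List (Fin r)) : L.Top (l.map fun k => (i0 k, I * ((0 : Fin r → ℝ) k : ℂ))) =
    (l.map fun k => (ContinuousLinearMap.proj (i0 k)).smulRight (bv (i0 k))).sum := by
  induction l with
  | nil => rfl
  | cons k l ih =>
    rw [List.map_cons, LieD.Top, ih]
    simp [L.ex_zero]

lemma Top_lst_zero : L.Top (lst 0) = P0 := by
  rw [lst, List.ofFn_eq_map, Top_zero, ← List.ofFn_eq_map, List.sum_ofFn]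
  ext1 u
  ext i
  rcases i with k | k | k | k <;>
    simp [P0_apply, Pw_apply, wt, bv, i0, iD, Finset.sum_apply, Pi.single_apply]

lemma exists_K1 (l : List (Fin r)) : ∃ K1 : ℝ × (Fin r → ℝ) → Op r m p, ContDiff ℝ ω K1 ∧
    (∀ σ, K1 (σ, 0) = 0) ∧ ∀ (σ : ℝ) (η : Fin r → ℝ),
      L.Kop (l.map fun k => (i0 k, I * (σ • η) k)) = 1 + (σ : ℂ) • K1 (σ, η) := by
  induction l with
  | nil => exact ⟨fun _ => 0, contDiff_const, fun _ => rfl, fun _ _ => by ext1 u; simp [LieD.Kop]⟩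
  | cons k l ih =>
    obtain ⟨K1, h1, h2, h3⟩ := ih
    set g := dslope (fun z : ℂ => L.ex (z • bv (i0 k))) 0 with hg
    have hgd : ContDiff ℂ ω g := by
      have : Differentiable ℂ g := differentiableOn_univ.1
        ((Complex.differentiableOn_dslope univ_mem).2
          fun z _ => (L.hasDerivAt_ex _ z).differentiableAt.differentiableWithinAt)
      exact contDiff_iff_contDiffAt.2 fun z => (this.analyticAt z).contDiffAt
    have hge : ∀ z : ℂ, L.ex (z • bv (i0 k)) = 1 + z • g z := fun z => by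
      have := sub_smul_dslope (fun z : ℂ => L.ex (z • bv (i0 k))) 0 z
      rw [sub_zero, zero_smul, L.ex_zero] at this
      rw [hg, this, add_sub_cancel]
    have hσ : ContDiff ℝ ω fun q : ℝ × (Fin r → ℝ) => (q.1 : ℂ) :=
      ofRealCLM.contDiff.comp contDiff_fst
    have hη : ContDiff ℝ ω fun q : ℝ × (Fin r → ℝ) => I * (q.2 k : ℂ) :=
      (contDiff_Iy k).comp contDiff_snd
    refine ⟨fun q => (I * (q.2 k : ℂ)) • (g ((q.1 : ℂ) * (I * (q.2 k : ℂ))) *
      (1 + (q.1 : ℂ) • K1 q)) + K1 q, ?_, fun σ => by ext1 u; simp [h2], fun σ η => ?_⟩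
    · exact (hη.smul ((((hgd.restrict_scalars ℝ).comp (hσ.mul hη))).mul
        (contDiff_const.add (hσ.smul h1)))).add h1
    · rw [List.map_cons, LieD.Kop, h3, hge]
      have e : I * (((σ • η) k : ℝ) : ℂ) = (σ : ℂ) * (I * (η k : ℂ)) := by
        rw [Pi.smul_apply, smul_eq_mul, ofReal_mul]; ring
      simp only [e]
      ext1 u
      simp only [mul_apply_eq_comp, add_apply, smul_apply, one_apply_eq_self, map_add, map_smul]
      module

lemma contDiff_emb {n : ℕ} (e : Fin n → VV r m p) :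
    ContDiff ℝ ω fun b : Fin n → ℝ => ∑ k, (b k : ℂ) • e k :=
  ContDiff.sum fun k _ => (ofRealCLM.contDiff.comp (contDiff_apply ℝ ℝ k)).smul contDiff_const

lemma contDiff_mu (w : ℤ) : ContDiff ℝ ω (mu L w) := by
  have h1 : ContDiff ℝ ω fun x : XX r m p => L.br (bh x) :=
    (L.br.contDiff.restrict_scalars ℝ).comp
      ((contDiff_emb fun k => bv (im k)).comp (contDiff_fst.comp contDiff_snd))
  exact contDiff_const.mul (contDiff_const.add
    (((contDiff_const.add h1).add ((h1.mul h1).const_smul (1 / 2 : ℂ))).mul contDiff_const))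

lemma cjop_Pw (w : ℤ) : cjop (Pw w : Op r m p) = Pw w := by
  ext1 u; rw [cjop_apply, star_Pw, star_star]

lemma cjop_mu' (w : ℤ) (x : XX r m p) : cjop (mu L w x) = mu L w x := by
  have h : ∀ A B : Op r m p, cjop (A * B) = cjop A * cjop B := fun A B => cjopR.map_mul A B
  have h' : ∀ A B : Op r m p, cjop (A + B) = cjop A + cjop B := fun A B => cjopR.map_add A B
  rw [mu, h, h', h, cjop_Pw, cjop_Pw, cjop_Pw, cjop_Ex, bh, star_embm]

lemma imop_aux (σ : ℝ) (hσ : σ ≠ 0) (W R : Op r m p) (hR : cjop R = R) :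
    ((σ : ℂ))⁻¹ • imop ((σ : ℂ) • W + R) = imop W := by
  have h : cjop ((σ : ℂ) • W + R) = (σ : ℂ) • cjop W + R := by
    conv_rhs => rw [← hR]
    ext1 u; simp
  have h0 : (σ : ℂ) ≠ 0 := ofReal_ne_zero.2 hσ
  rw [imop, imop, h, add_sub_add_right_eq_sub]
  ext1 u
  simp only [sub_apply, smul_apply]
  rw [← smul_sub, smul_comm (-I / 2), smul_smul, inv_mul_cancel₀ h0, one_smul]

lemma contDiff_imop : ContDiff ℝ ω (imop : Op r m p → Op r m p) :=
  (contDiff_id.sub (cjopL (ι := Idx r m p)).contDiff).const_smul (-I / 2 : ℂ)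

lemma exists_ext (L : LieD (Idx r m p)) : ∃ O Q : XX r m p → Op r m p,
    ContDiff ℝ ω O ∧ ContDiff ℝ ω Q ∧ (∀ x, Om L x = O (kap x)) ∧ (∀ x, Qh L x = Q (kap x)) ∧
    ∀ s, Q (pt s) = Pw 0 + Pw 1 - Pw (-1) := by
  obtain ⟨K1, h1, h2, h3⟩ := exists_K1 (L := L) (List.finRange r)
  have hs : ContDiff ℝ ω fun z : XX r m p => z.2.2.1 :=
    contDiff_fst.comp (contDiff_snd.comp contDiff_snd)
  have hσ : ContDiff ℝ ω fun z : XX r m p => Real.sin z.2.2.1 := Real.contDiff_sin.comp hs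
  have hσ' : ContDiff ℝ ω fun z : XX r m p => ((Real.sin z.2.2.1 : ℝ) : ℂ) :=
    ofRealCLM.contDiff.comp hσ
  have hc' : ContDiff ℝ ω fun z : XX r m p => ((Real.cos z.2.2.1 : ℝ) : ℂ) :=
    ofRealCLM.contDiff.comp (Real.contDiff_cos.comp hs)
  set DD : Op r m p := (ContinuousLinearMap.proj iD).smulRight (bv iD) with hDD
  set A : XX r m p → Op r m p := fun z => L.Top (lst (Real.sin z.2.2.1 • z.1)) *
    (P0 + ((Real.cos z.2.2.1 : ℝ) : ℂ) • (ContinuousLinearMap.proj iD).smulRight (eh z)) + DD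
    with hA
  set M : XX r m p → Op r m p := fun z => mu L 0 z +
    (((Real.cos z.2.2.1 : ℝ) : ℂ) + I * (Real.sin z.2.2.1 : ℝ)) • mu L 1 z +
    (((Real.cos z.2.2.1 : ℝ) : ℂ) - I * (Real.sin z.2.2.1 : ℝ)) • mu L (-1) z with hM
  set W : XX r m p → Op r m p := fun z => I • A z + K1 (Real.sin z.2.2.1, z.1) * M z +
    I • (mu L 1 z - mu L (-1) z) with hW
  set R : XX r m p → Op r m p := fun z => mu L 0 z +
    ((Real.cos z.2.2.1 : ℝ) : ℂ) • (mu L 1 z + mu L (-1) z) with hR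
  have hAc : ContDiff ℝ ω A := by
    have a1 : ContDiff ℝ ω fun y : Fin r → ℝ => L.Top (lst y) := by
      simpa only [lst, List.ofFn_eq_map] using contDiff_Top (L := L) (List.finRange r)
    have a2 : ContDiff ℝ ω fun z : XX r m p =>
        ((ContinuousLinearMap.proj iD).smulRight (eh z) : Op r m p) :=
      ((ContinuousLinearMap.smulRightL ℂ (VV r m p) (VV r m p)
        (ContinuousLinearMap.proj iD)).contDiff.restrict_scalars ℝ).comp
        ((contDiff_emb fun k => bv (i0 k)).comp contDiff_fst)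
    exact ((a1.comp (hσ.smul contDiff_fst)).mul (contDiff_const.add (hc'.smul a2))).add
      contDiff_const
  have hMc : ContDiff ℝ ω M := ((contDiff_mu 0).add
    ((hc'.add (contDiff_const.mul hσ')).smul (contDiff_mu 1))).add
      ((hc'.sub (contDiff_const.mul hσ')).smul (contDiff_mu (-1)))
  have hWc : ContDiff ℝ ω W := ((hAc.const_smul I).add
    ((h1.comp (hσ.prodMk contDiff_fst)).mul hMc)).add
      (((contDiff_mu 1).sub (contDiff_mu (-1))).const_smul I)
  have hRc : ContDiff ℝ ω R := (contDiff_mu 0).add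
    (hc'.smul ((contDiff_mu 1).add (contDiff_mu (-1))))
  have hO : ∀ x, Om L x = sS x • W (kap x) + R (kap x) := fun x => by
    have e1 : eS 1 x = cS x + I * sS x := by
      rw [eS, Int.cast_one, one_mul, exp_mul_I]
      simp [cS, sS, sg, mul_comm]
    have e2 : eS (-1) x = cS x - I * sS x := by
      have : ((-1 : ℤ) : ℂ) * (sR x * I) = (-(sR x : ℂ)) * I := by push_cast; ring
      rw [eS, this, exp_mul_I]
      simp [cS, sS, sg, mul_comm, sub_eq_add_neg]
    have e3 : KK L x = 1 + sS x • K1 (sg x, x.1) := by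
      rw [KK, lst, List.ofFn_eq_map, h3]; rfl
    have e4 : W (kap x) = I • (TT L x * YY x + DD) + K1 (sg x, x.1) * (mu L 0 x +
      (cS x + I * sS x) • mu L 1 x + (cS x - I * sS x) • mu L (-1) x) +
      I • (mu L 1 x - mu L (-1) x) := rfl
    have e5 : R (kap x) = mu L 0 x + cS x • (mu L 1 x + mu L (-1) x) := rfl
    rw [Om, e1, e2, e3, e4, e5]
    ext1 u
    simp only [mul_apply_eq_comp, add_apply, sub_apply, smul_apply, one_apply_eq_self, map_add,
      map_smul, hDD]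
    module
  refine ⟨fun z => ((Real.sin z.2.2.1 : ℝ) : ℂ) • W z + R z, fun z => imop (W z),
    (hσ'.smul hWc).add hRc, contDiff_imop.comp hWc, hO, fun x => ?_, fun s => ?_⟩
  · rw [Qh, hO]
    refine imop_aux (sg x) (sin_sx_pos _).ne' _ _ ?_
    have e5 : R (kap x) = mu L 0 x + cS x • (mu L 1 x + mu L (-1) x) := rfl
    rw [e5]
    conv_rhs => rw [← cjop_mu' 0, ← cjop_mu' 1, ← cjop_mu' (-1)]
    ext1 u
    simp [cS, -ofReal_cos]
  · have b1 : bh (pt s : XX r m p) = 0 := by simp [bh, pt, embm]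
    have b2 : eh (pt s : XX r m p) = 0 := by simp [eh, pt, emb0]
    have b3 : (pt s : XX r m p).1 = 0 := rfl
    have b4 : W (pt s) = I • (Pw 0 + Pw 1 - Pw (-1)) := by
      simp only [hW, hA, b2, b3, h2, smul_zero, Top_lst_zero, mu, b1, Ex_zero, zero_mul, add_zero,
        one_mul]
      ext1 u
      have c1 : Pw 1 (Pw (-1) u) = 0 := (isW_Pw (-1) u).Pw_ne (by decide)
      have c2 : Pw (-1) (Pw 1 u) = 0 := (isW_Pw 1 u).Pw_ne (by decide)
      simp [P0_P0, c1, c2, (isW_Pw _ u).Pw_self, hDD]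
      rw [P0_apply]
      module
    show imop (W (pt s)) = _
    rw [b4]
    ext1 u
    simp [imop, star_Pw]
    match_scalars <;> first | linear_combination (-1 : ℂ) * I_mul_I | linear_combination I_mul_I

lemma isUnit_Q0 : IsUnit (Pw 0 + Pw 1 - Pw (-1) : Op r m p) := by
  have h : (Pw 0 + Pw 1 - Pw (-1) : Op r m p) * (Pw 0 + Pw 1 - Pw (-1)) = 1 := by
    ext1 u
    ext i
    rcases wt_cases i with h | h | h <;> simp [Pw_apply, h]
  exact ⟨⟨_, _, h, h⟩, rfl⟩

/-- the torsion as a function of its ingredients -/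
def Phi (L : LieD (Idx r m p)) (u v : VV r m p)
    (q : Op r m p × Op r m p × (VV r m p →L[ℂ] Op r m p) × Op r m p × ℂ) : VV r m p :=
  q.1 ((q.2.2.2.2 * v iD) • q.2.1 u + q.2.2.1 v u + L.br (q.2.1 u) (q.2.2.2.1 v))

lemma contDiff_Phi (u v : VV r m p) : ContDiff ℝ ω (Phi L u v) := by
  have h : ContDiff ℂ ω (Phi L u v) := by
    unfold Phi
    have h1 := L.br.contDiff (n := ω)
    fun_prop
  exact h.restrict_scalars ℝ

end GoodBd

open GoodBd in
theorem good_bd (hL : Graded L) : ∃ C : ℝ, ∀ᶠ x in LL r m p, IsUnit (Qh L x) ∧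
    (∀ u v, ContDiffAt ℝ ω (fun y => Gam L y u v) x) ∧
    (∀ u v, ‖Gam L x u v‖ ≤ C * ‖u‖ * ‖v‖) ∧
    (∀ k j l, ‖pd (fun y => Gam L y (bv k) (bv j) l) (dir l) x‖ ≤ C) ∧
    ‖Om L x‖ ≤ C ∧ ‖Qh L x‖ ≤ C := by
  obtain ⟨O, Q, hO, hQ, hOe, hQe, hQ0⟩ := exists_ext L
  have gO : Good (Om L) := Good.of hO hOe
  have gQ : Good (Qh L) := Good.of hQ hQe
  have gI : Good fun x => Ring.inverse (Qh L x) :=
    ⟨fun z => Ring.inverse (Q z), fun s _ => by
      obtain ⟨U, hU⟩ := isUnit_Q0 (r := r) (m := m) (p := p)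
      have := contDiffAt_ringInverse ℝ (n := ω) U
      rw [hU, ← hQ0 s] at this
      exact this.comp _ hQ.contDiffAt, Eventually.of_forall fun x => congrArg _ (hQe x)⟩
  have gc : Good (cS : XX r m p → ℂ) := Good.of (g := fun z => ((Real.cos z.2.2.1 : ℝ) : ℂ))
    (ofRealCLM.contDiff.comp (Real.contDiff_cos.comp
      (contDiff_fst.comp (contDiff_snd.comp contDiff_snd)))) fun _ => rfl
  have gT := gI.prod (gQ.prod (gQ.Dv.prod (gO.prod gc)))
  have gG : ∀ u v, Good fun y => Gam L y u v := fun u v => gT.comp (contDiff_Phi u v)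
  have gP := Good.pi fun q : Idx r m p × Idx r m p × Idx r m p =>
    ((gG (bv q.1) (bv q.2.1)).comp (contDiff_apply ℝ ℂ q.2.2)).pd (dir q.2.2)
  have hU : ∀ᶠ x in LL r m p, IsUnit (Qh L x) :=
    (tube (P := fun z => IsUnit (Q z)) fun s _ => hQ.continuous.continuousAt.eventually
      (Units.isOpen.mem_nhds (by rw [hQ0]; exact isUnit_Q0))).mono fun x hx => by rwa [hQe]
  obtain ⟨C1, h1, b1⟩ := gT.bd
  obtain ⟨C2, h2, b2⟩ := gP.bd
  refine ⟨C1 * (C1 * C1 + C1 + ‖L.br‖ * C1 * C1) + C1 + C2, ?_⟩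
  have h3 : 0 ≤ C1 * (C1 * C1 + C1 + ‖L.br‖ * C1 * C1) := by positivity
  filter_upwards [hU, gT.cd, b1, b2] with x c1 c2 c3 c4
  simp only [Prod.norm_mk, max_le_iff] at c3
  obtain ⟨d1, d2, d3, d4, d5⟩ := c3
  refine ⟨c1, fun u v => (contDiff_Phi u v).contDiffAt.comp x c2, fun u v => ?_,
    fun k j l => ?_, by linarith, by linarith⟩
  · have e1 : ‖Qh L x u‖ ≤ C1 * ‖u‖ := (Qh L x).le_of_opNorm_le d2 u
    have e2 : ‖Om L x v‖ ≤ C1 * ‖v‖ := (Om L x).le_of_opNorm_le d4 v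
    have e3 : ‖(cS x * v iD) • Qh L x u‖ ≤ C1 * ‖v‖ * (C1 * ‖u‖) := by
      rw [norm_smul, norm_mul]
      gcongr
      exact norm_le_pi_norm v iD
    have e4 : ‖Dv (Qh L) x v u‖ ≤ C1 * ‖v‖ * ‖u‖ :=
      (Dv (Qh L) x v).le_of_opNorm_le ((Dv (Qh L) x).le_of_opNorm_le d3 v) u
    have e5 : ‖L.br (Qh L x u) (Om L x v)‖ ≤ ‖L.br‖ * (C1 * ‖u‖) * (C1 * ‖v‖) :=
      (L.br.le_opNorm₂ _ _).trans (by gcongr)
    have e6 := (Ring.inverse (Qh L x)).le_of_opNorm_le_of_le d1
      ((norm_add₃_le.trans (add_le_add (add_le_add e3 e4) e5)))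
    refine e6.trans ?_
    have e7 : 0 ≤ (C1 + C2) * ‖u‖ * ‖v‖ := by positivity
    nlinarith
  · have := (norm_le_pi_norm _ (k, j, l)).trans c4
    linarith

end Pool.Agent.Lib.MP_e2ef7e_al.Gen
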