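import Pool.Agent.Lib.MP_e2ef7e_al.Geo3

/-!
Taylor estimates for products of exponentials.
-/

open Complex Filter Topology Set
open scoped ComplexConjugate ContDiff

noncomputable section

namespace Pool.Agent.Lib.MP_e2ef7e_al.Gen

namespace Tay

section general

variable {r : ℕ} {E : Type} [NormedAddCommGroup E] [NormedSpace ℝ E]

lemma lip {f : (Fin r → ℝ) → E} (hf : ContDiff ℝ 1 f) :
    ∃ C : ℝ, 0 ≤ C ∧ ∀ y, ‖y‖ ≤ 1 → ‖f y - f 0‖ ≤ C * ‖y‖ := by
  obtain ⟨C, hC⟩ := (isCompact_closedBall (0 : Fin r → ℝ) 1).exists_bound_of_continuousOn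
    (hf.continuous_fderiv one_ne_zero).continuousOn
  refine ⟨C, (norm_nonneg _).trans (hC 0 (by simp)), fun y hy => ?_⟩
  simpa using (convex_closedBall (0 : Fin r → ℝ) 1).norm_image_sub_le_of_norm_fderiv_le
    (fun z _ => hf.differentiable one_ne_zero z) hC (Metric.mem_closedBall_self zero_le_one)
    (mem_closedBall_zero_iff.2 hy)

lemma lip' {f : (Fin r → ℝ) → E} (hf : ContDiff ℝ 2 f) (h1 : fderiv ℝ f 0 = 0) :
    ∃ C : ℝ, 0 ≤ C ∧ ∀ y, ‖y‖ ≤ 1 → ‖fderiv ℝ f y‖ ≤ C * ‖y‖ := by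
  obtain ⟨C, h0, hC⟩ := lip (hf.fderiv_right (m := 1) le_rfl)
  exact ⟨C, h0, fun y hy => by simpa [h1] using hC y hy⟩

lemma quad {f : (Fin r → ℝ) → E} (hf : ContDiff ℝ 2 f) (h0 : f 0 = 0) (h1 : fderiv ℝ f 0 = 0) :
    ∃ C : ℝ, 0 ≤ C ∧ ∀ y, ‖y‖ ≤ 1 → ‖f y‖ ≤ C * ‖y‖ ^ 2 := by
  obtain ⟨C, c0, hC⟩ := lip' hf h1
  refine ⟨C, c0, fun y hy => ?_⟩
  have := (convex_closedBall (0 : Fin r → ℝ) ‖y‖).norm_image_sub_le_of_norm_fderiv_le
    (C := C * ‖y‖) (fun z _ => hf.differentiable two_ne_zero z)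
    (fun z hz => (hC z ((mem_closedBall_zero_iff.1 hz).trans hy)).trans
      (mul_le_mul_of_nonneg_left (mem_closedBall_zero_iff.1 hz) c0))
    (Metric.mem_closedBall_self (norm_nonneg y)) (mem_closedBall_zero_iff.2 le_rfl)
  rw [h0, sub_zero, sub_zero, mul_assoc, ← sq] at this
  exact this

lemma line (h : Fin r → ℝ) : HasDerivAt (fun t : ℝ => t • h) h 0 := by
  simpa using (hasDerivAt_id (0 : ℝ)).smul_const h

lemma along {f : (Fin r → ℝ) → E} (hf : DifferentiableAt ℝ f 0) (h : Fin r → ℝ) :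
    HasDerivAt (fun t : ℝ => f (t • h)) (fderiv ℝ f 0 h) 0 :=
  HasFDerivAt.comp_hasDerivAt_of_eq (0 : ℝ) hf.hasFDerivAt (line h) (by simp)

lemma even {f : (Fin r → ℝ) → E} (hf : DifferentiableAt ℝ f 0) (h : ∀ y, f (-y) = f y) :
    fderiv ℝ f 0 = 0 := by
  ext1 v
  have h1 := along hf (-v)
  simp only [smul_neg, h, map_neg] at h1
  have h2 := h1.unique (along hf v)
  have h3 : (2 : ℝ) • fderiv ℝ f 0 v = 0 := by
    rw [two_smul]
    exact add_eq_zero_iff_neg_eq.2 h2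
  simpa using h3

end general

variable {r m p : ℕ} (L : LieD (Idx r m p))

/-- the list of exponents for a list of indices -/
def ls (l : List (Fin r)) (y : Fin r → ℝ) : List (Idx r m p × ℂ) :=
  l.map fun k => (i0 k, I * y k)

lemma lst_eq (y : Fin r → ℝ) : (lst y : List (Idx r m p × ℂ)) = ls (List.finRange r) y :=
  List.ofFn_eq_map

lemma sm_ex (k : Fin r) {n : WithTop ℕ∞} :
    ContDiff ℝ n fun y : Fin r → ℝ => L.ex ((I * y k) • bv (i0 k)) :=
  ((L.contDiff_ex (bv (i0 k))).restrict_scalars ℝ).comp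
    (contDiff_const.mul (ofRealCLM.contDiff.comp (contDiff_apply ℝ ℝ k)))

lemma sm_K (l : List (Fin r)) {n : WithTop ℕ∞} : ContDiff ℝ n fun y => L.Kop (ls l y) := by
  induction l with
  | nil => exact contDiff_const
  | cons k l ih => exact (sm_ex L k).mul ih

lemma sm_T (l : List (Fin r)) {n : WithTop ℕ∞} : ContDiff ℝ n fun y => L.Top (ls l y) := by
  induction l with
  | nil => exact contDiff_const
  | cons k l ih =>
    exact (contDiff_const (c := (ContinuousLinearMap.proj (i0 k)).smulRight (bv (i0 k)))).add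
      ((sm_ex L k).mul ih)

lemma K_zero (l : List (Fin r)) : L.Kop (ls l 0) = 1 := by
  induction l with
  | nil => rfl
  | cons k l ih =>
    have : L.Kop (ls (k :: l) 0) = L.ex ((I * (0 : Fin r → ℝ) k) • bv (i0 k)) * L.Kop (ls l 0) := rfl
    rw [this, ih]
    simp [L.ex_zero]

lemma T_zero (l : List (Fin r)) : L.Top (ls l 0) =
    (l.map fun k => (ContinuousLinearMap.proj (i0 k)).smulRight (bv (i0 k))).sum := by
  induction l with
  | nil => rfl
  | cons k l ih =>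
    have : L.Top (ls (k :: l) 0) = (ContinuousLinearMap.proj (i0 k)).smulRight (bv (i0 k)) +
      L.ex ((I * (0 : Fin r → ℝ) k) • bv (i0 k)) * L.Top (ls l 0) := rfl
    rw [this, ih]
    simp [L.ex_zero]

lemma T_zero' : L.Top (ls (List.finRange r) 0) = P0 := by
  rw [T_zero, ← Fin.sum_univ_def]
  ext1 v
  ext i
  rcases i with k | k | k | k <;>
    simp [P0_apply, Pw_apply, wt, bv, i0, iD, Finset.sum_apply, Pi.single_apply]

lemma cjop_T (l : List (Fin r)) (y : Fin r → ℝ) : cjop (L.Top (ls l y)) = L.Top (ls l (-y)) := by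
  induction l with
  | nil => exact cjopR.map_zero
  | cons k l ih =>
    have e : ∀ y : Fin r → ℝ, L.Top (ls (k :: l) y) =
      (ContinuousLinearMap.proj (i0 k)).smulRight (bv (i0 k)) +
        L.ex ((I * y k) • bv (i0 k)) * L.Top (ls l y) := fun _ => rfl
    rw [e, e, ← ih]
    refine (cjopR.map_add _ _).trans ?_
    congr 1
    · ext1 v
      simp [cjopR, star_bv]
    · refine (cjopR.map_mul _ _).trans ?_
      congr 1
      refine (L.cjop_ex _).trans ?_
      simp [star_bv]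

lemma der_K (l : List (Fin r)) (h : Fin r → ℝ) : HasDerivAt (fun t : ℝ => L.Kop (ls l (t • h)))
    (l.map fun k => L.br ((I * h k) • bv (i0 k))).sum 0 := by
  induction l with
  | nil => exact hasDerivAt_const _ _
  | cons k l ih =>
    have h1 := ((L.hasDerivAt_ex ((I * h k) • bv (i0 k)) ((0 : ℝ) : ℂ)).hasFDerivAt.restrictScalars
      ℝ).comp_hasDerivAt (0 : ℝ) (ofRealCLM.hasDerivAt (x := (0 : ℝ)))
    have h2 : HasDerivAt (fun t : ℝ => L.ex ((I * (t • h) k) • bv (i0 k)))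
        (L.br ((I * h k) • bv (i0 k))) 0 := by
      refine (h1.congr_of_eventuallyEq (Eventually.of_forall fun t => ?_)).congr_deriv ?_
      · simp only [Function.comp_apply, smul_smul, Pi.smul_apply, smul_eq_mul, ofReal_mul]
        rw [mul_left_comm]
      · simp [L.ex_zero]
    refine (h2.fun_mul ih).congr_deriv ?_
    simp [K_zero, L.ex_zero]

lemma der_K' (h : Fin r → ℝ) : HasDerivAt (fun t : ℝ => L.Kop (ls (List.finRange r) (t • h)))
    (I • L.br (emb0 h)) 0 := by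
  refine (der_K L _ h).congr_deriv ?_
  rw [← Fin.sum_univ_def, emb0, map_sum, Finset.smul_sum]
  exact Finset.sum_congr rfl fun k _ => by rw [mul_smul, map_smul]

variable {L}

lemma sm_re {f : (Fin r → ℝ) → Op r m p} {n : WithTop ℕ∞} (hf : ContDiff ℝ n f) :
    ContDiff ℝ n fun y => reop (f y) :=
  (hf.add (cjopL.contDiff.comp hf)).const_smul (1 / 2 : ℂ)

lemma sm_im {f : (Fin r → ℝ) → Op r m p} {n : WithTop ℕ∞} (hf : ContDiff ℝ n f) :
    ContDiff ℝ n fun y => imop (f y) :=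
  (hf.sub (cjopL.contDiff.comp hf)).const_smul (-I / 2 : ℂ)

lemma sm_emb {n : WithTop ℕ∞} : ContDiff ℝ n (emb0 : (Fin r → ℝ) → VV r m p) :=
  ContDiff.sum fun k _ => (ofRealCLM.contDiff.comp (contDiff_apply ℝ ℝ k)).smul contDiff_const

lemma emb_smul (t : ℝ) (h : Fin r → ℝ) : (emb0 (t • h) : VV r m p) = (t : ℂ) • emb0 h := by
  simp only [emb0, Finset.smul_sum, smul_smul, Pi.smul_apply, smul_eq_mul, ofReal_mul]

lemma cjop_P0 : cjop (P0 : Op r m p) = P0 := by
  ext1 v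
  rw [cjop_apply, star_P0, star_star]

lemma reop_P0 : reop (P0 : Op r m p) = P0 := by
  rw [reop, cjop_P0, ← two_smul ℂ, smul_smul]
  simp

lemma imop_P0 : imop (P0 : Op r m p) = 0 := by simp [imop, cjop_P0]

lemma imop_one : imop (1 : Op r m p) = 0 := by
  rw [imop, show cjop (1 : Op r m p) = 1 from cjopR.map_one, sub_self, smul_zero]

lemma imop_br (h : Fin r → ℝ) : imop (I • L.br (emb0 h)) = L.br (emb0 h) := by
  have : cjop (I • L.br (emb0 h)) = -(I • L.br (emb0 h)) := by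
    ext1 v
    simp [L.real, star_emb0]
  rw [imop, this, sub_neg_eq_add, ← two_smul ℂ, smul_smul, smul_smul]
  rw [show -I / 2 * 2 * I = 1 by linear_combination (-1 : ℂ) * I_mul_I, one_smul]

variable (L)

/-- the second order error -/
def EE (y : Fin r → ℝ) : Op r m p :=
  L.br (reop (L.Top (ls (List.finRange r) y)) (emb0 y)) * L.Kop (ls (List.finRange r) y) -
    imop (L.Kop (ls (List.finRange r) y))

lemma sm_br {f : (Fin r → ℝ) → VV r m p} {n : WithTop ℕ∞} (hf : ContDiff ℝ n f) :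
    ContDiff ℝ n fun y => L.br (f y) := (L.br.restrictScalars ℝ).contDiff.comp hf

lemma sm_app {A : (Fin r → ℝ) → Op r m p} {f : (Fin r → ℝ) → VV r m p} {n : WithTop ℕ∞}
    (hA : ContDiff ℝ n A) (hf : ContDiff ℝ n f) : ContDiff ℝ n fun y => A y (f y) :=
  ((isBoundedBilinearMap_apply (𝕜 := ℂ) (E := VV r m p) (F := VV r m p)).contDiff.restrict_scalars
    ℝ).comp (hA.prodMk hf)

lemma sm_E : ContDiff ℝ 2 (EE L) :=
  ((sm_br L (sm_app (sm_re (sm_T L _)) sm_emb)).mul (sm_K L _)).sub (sm_im (sm_K L _))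

lemma E_zero : EE L 0 = 0 := by
  simp [EE, K_zero, imop_one, emb0]

lemma fd_E : fderiv ℝ (EE L) 0 = 0 := by
  ext1 h
  refine (along ((sm_E L).differentiable two_ne_zero 0) h).unique ?_
  have h1 : ContDiff ℝ 1 fun y => L.br (reop (L.Top (ls (List.finRange r) y)) (emb0 h)) *
      L.Kop (ls (List.finRange r) y) :=
    (sm_br L (sm_app (sm_re (sm_T L _)) contDiff_const)).mul (sm_K L _)
  have h2 := (ofRealCLM.hasDerivAt (x := (0 : ℝ))).fun_smul
    (along (h1.differentiable one_ne_zero 0) h)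
  have h3 := der_K' L h
  have h4 := (h3.fun_sub (cjopL.hasFDerivAt.comp_hasDerivAt (0 : ℝ) h3)).fun_const_smul (-I / 2 : ℂ)
  convert h2.fun_sub h4 using 1
  · funext t
    simp only [EE, emb_smul, map_smul, ofRealCLM_apply]
    rfl
  · have h5 := imop_br (L := L) h
    rw [imop] at h5
    simp only [cjopL_apply, h5, zero_smul, K_zero, T_zero', reop_P0, P0_emb0]
    ext1 v
    simp

lemma Dv_comp {E : Type} [NormedAddCommGroup E] [NormedSpace ℝ E] [NormedSpace ℂ E]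
    [IsScalarTower ℝ ℂ E] {g : (Fin r → ℝ) → E} (hg : Differentiable ℝ g) (x : XX r m p)
    (v : VV r m p) : Dv (fun z : XX r m p => g (sg z • z.1)) x v =
      ∑ k, (sS x * YY x v (i0 k)) • fderiv ℝ g (sg x • x.1) (Pi.single k 1) := by
  have cs : ∀ (t : ℝ) (y : E), (t : ℂ) • y = t • y := fun t y => algebraMap_smul ℂ t y
  have h1 : HasFDerivAt (fun z : XX r m p => z.2.2.1) _ x :=
    (ContinuousLinearMap.fst ℝ ℝ (Fin p → ℝ) ∘L ContinuousLinearMap.snd ℝ (Fin m → ℝ) _ ∘L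
      ContinuousLinearMap.snd ℝ (Fin r → ℝ) (ZZ m p)).hasFDerivAt
  have h2' := (hasDerivAt_sx x.2.2.1).sin.comp_hasFDerivAt x h1
  have h2 : HasFDerivAt (sg : XX r m p → ℝ) _ x := h2'
  have h3 := (hg _).hasFDerivAt.comp x (h2.fun_smul hasFDerivAt_fst)
  have h4 : fderiv ℝ (fun z : XX r m p => g (sg z • z.1)) x = _ := h3.fderiv
  have h5 : fderiv ℝ g (sg x • x.1) x.1 =
      ∑ k, (x.1 k : ℂ) • fderiv ℝ g (sg x • x.1) (Pi.single k 1) := by
    generalize fderiv ℝ g (sg x • x.1) = A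
    conv_lhs => rw [← Finset.univ_sum_single x.1]
    rw [map_sum]
    refine Finset.sum_congr rfl fun k _ => ?_
    rw [cs, ← map_smul, ← Pi.single_smul, smul_eq_mul, mul_one]
  have h6 : ∀ k, YY x v (i0 k) = v (i0 k) + cS x * (v iD * x.1 k) := fun k => by
    simp [YY, P0_apply, Pw_apply, wt, bv, i0, iD, eh, emb0_apply]
  rw [Dv_apply, h4]
  simp only [h6, Fintype.sum_sum_type, dir, ContinuousLinearMap.comp_apply, add_apply, smul_apply,
    ContinuousLinearMap.smulRight_apply, ContinuousLinearMap.coe_fst', ContinuousLinearMap.coe_snd',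
    smul_zero, zero_smul, add_zero, zero_add, map_zero, Finset.sum_const_zero, map_smul, h5,
    Finset.univ_unique, Finset.sum_singleton, smul_eq_mul, mul_one, mul_add, add_smul,
    mul_zero, Finset.smul_sum, Finset.sum_add_distrib]
  congr 1 <;> refine Finset.sum_congr rfl fun k _ => ?_
  · rw [← cs, smul_smul, mul_comm]; rfl
  · rw [← cs, smul_smul, smul_smul]
    congr 1
    simp only [sS, cS, sg, sR, iD, ofReal_mul]
    ring

end Tay

variable {r m p : ℕ}

open Tay in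
/-- Taylor estimates -/
theorem taylor (L : LieD (Idx r m p)) : ∃ C : ℝ, ∀ x : XX r m p, ‖x.1‖ ≤ 1 →
    ‖KK L x - 1‖ ≤ C * ‖x.1‖ ∧ ‖Ki L x‖ ≤ C * ‖x.1‖ ∧ ‖TT L x - P0‖ ≤ C * ‖x.1‖ ∧
    ‖imop (TT L x)‖ ≤ C * (sg x * ‖x.1‖) ∧
    ‖L.br (reop (TT L x) (eh x)) * KK L x - Ki L x‖ ≤ C * (sg x * ‖x.1‖ ^ 2) ∧
    ∀ v, ‖Dv (fun y => reop (TT L y)) x v‖ ≤ C * (sg x ^ 2 * ‖x.1‖ * ‖YY x v‖) := by
  obtain ⟨C1, a1, h1⟩ := lip (sm_K L (List.finRange r))
  obtain ⟨C2, a2, h2⟩ := lip (sm_im (sm_K L (List.finRange r)))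
  obtain ⟨C3, a3, h3⟩ := lip (sm_T L (List.finRange r))
  obtain ⟨C4, a4, h4⟩ := lip (sm_im (sm_T L (List.finRange r)))
  obtain ⟨C5, a5, h5⟩ := quad (sm_E L) (E_zero L) (fd_E L)
  have s6 := sm_re (n := 2) (sm_T L (List.finRange r))
  obtain ⟨C6, a6, h6⟩ := lip' s6 (even (s6.differentiable two_ne_zero 0) fun y => by
    rw [reop, reop, cjop_T, cjop_T, neg_neg, add_comm])
  simp only [K_zero, T_zero', imop_one, imop_P0, sub_zero] at h1 h2 h3 h4
  have a7 : 0 ≤ r * C6 := by positivity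
  refine ⟨C1 + C2 + C3 + C4 + C5 + r * C6, fun x hx => ?_⟩
  have s0 : 0 < sg x := sin_sx_pos _
  have s1 : sg x ≤ 1 := Real.sin_le_one _
  have n0 := norm_nonneg x.1
  have ny : ‖sg x • x.1‖ = sg x * ‖x.1‖ := by rw [norm_smul, Real.norm_of_nonneg s0.le]
  have n1 : sg x * ‖x.1‖ ≤ ‖x.1‖ := mul_le_of_le_one_left n0 s1
  have n2 : ‖sg x • x.1‖ ≤ 1 := ny ▸ n1.trans hx
  have nS : ‖sS x‖ = sg x := by rw [sS, norm_real, Real.norm_of_nonneg s0.le]
  have S0 : sS x ≠ 0 := ofReal_ne_zero.2 s0.ne'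
  have fin : ∀ {a C t : ℝ}, a ≤ C * t → 0 ≤ t → C ≤ C1 + C2 + C3 + C4 + C5 + r * C6 →
      a ≤ (C1 + C2 + C3 + C4 + C5 + r * C6) * t := fun h t0 c =>
    h.trans (mul_le_mul_of_nonneg_right c t0)
  have b1 := h1 _ n2
  have b2 := h2 _ n2
  have b3 := h3 _ n2
  have b4 := h4 _ n2
  have b5 := h5 _ n2
  have b6 := h6 _ n2
  rw [ny] at b1 b2 b3 b4 b5 b6
  simp only [KK, TT, Ki, lst_eq]
  refine ⟨fin (b1.trans (mul_le_mul_of_nonneg_left n1 a1)) n0 (by linarith),
    fin (C := C2) ?_ n0 (by linarith), fin (b3.trans (mul_le_mul_of_nonneg_left n1 a3)) n0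
    (by linarith), fin b4 (by positivity) (by linarith), fin (C := C5) ?_ (by positivity)
    (by linarith), fun v => fin (C := r * C6) ?_ (by positivity) (by linarith)⟩
  · rw [norm_smul, norm_inv, nS, inv_mul_le_iff₀ s0]
    linarith
  · have e : L.br (reop (L.Top (ls (List.finRange r) (sg x • x.1))) (eh x)) *
        L.Kop (ls (List.finRange r) (sg x • x.1)) -
        (sS x)⁻¹ • imop (L.Kop (ls (List.finRange r) (sg x • x.1))) =
        (sS x)⁻¹ • EE L (sg x • x.1) := by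
      rw [EE, emb_smul, map_smul, map_smul]
      ext1 v
      simp only [sub_apply, smul_apply, mul_apply_eq_comp, smul_sub, smul_smul,
        show (sS x)⁻¹ * (sg x : ℂ) = 1 from inv_mul_cancel₀ S0, one_smul, eh]
    rw [e, norm_smul, norm_inv, nS, inv_mul_le_iff₀ s0]
    linarith
  · rw [Dv_comp (s6.differentiable two_ne_zero)]
    refine (norm_sum_le _ _).trans ((Finset.sum_le_card_nsmul _ _
      (C6 * (sg x ^ 2 * ‖x.1‖ * ‖YY x v‖)) fun k _ => ?_).trans (le_of_eq ?_))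
    · rw [norm_smul, norm_mul, nS]
      have c1 := ContinuousLinearMap.le_opNorm (fderiv ℝ
        (fun y => reop (L.Top (ls (List.finRange r) y))) (sg x • x.1)) (Pi.single k 1)
      rw [Pi.norm_single, norm_one, mul_one] at c1
      calc _ ≤ sg x * ‖YY x v‖ * (C6 * (sg x * ‖x.1‖)) :=
            mul_le_mul (mul_le_mul_of_nonneg_left (norm_le_pi_norm _ _) s0.le) (c1.trans b6)
              (norm_nonneg _) (by positivity)
        _ = _ := by ring
    · rw [Finset.card_univ, Fintype.card_fin, nsmul_eq_mul, ← mul_assoc]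

end Pool.Agent.Lib.MP_e2ef7e_al.Gen
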