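import Pool.Agent.Lib.MP_e2ef7e_al.GeoLeaf
import Pool.Agent.Lib.MP_e2ef7e_al.GeoTay
import Pool.Agent.Lib.MP_e2ef7e_al.GeoGood
import Pool.Agent.Lib.MP_e2ef7e_al.GeoFlat

/-!
The Levi form of the degree zero coordinates.
-/

open Complex Filter Topology Set Asymptotics
open scoped ComplexConjugate ContDiff

noncomputable section

namespace Pool.Agent.Lib.MP_e2ef7e_al.Gen

variable {r m p : ℕ} {L : LieD (Idx r m p)}

namespace Eta

section exact

lemma sS_ne (x : XX r m p) : sS x ≠ 0 := ofReal_ne_zero.2 (sg_pos x).ne'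

lemma star_YY (x : XX r m p) (v : VV r m p) : star (YY x v) = YY x (star v) := by
  simp [YY, star_P0, eh, star_emb0, cS, -ofReal_cos]

lemma reop_apply (A : Op r m p) (z : VV r m p) :
    reop A z = (1 / 2 : ℂ) • (A z + cjop A z) := rfl

lemma imop_apply (A : Op r m p) (z : VV r m p) :
    imop A z = (-I / 2 : ℂ) • (A z - cjop A z) := rfl

lemma star_reop (A : Op r m p) (z : VV r m p) : star (reop A z) = reop A (star z) := by
  simp [reop_apply, add_comm]

lemma star_imop (A : Op r m p) (z : VV r m p) : star (imop A z) = imop A (star z) := by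
  simp only [imop_apply, star_smul, star_sub, cjop_apply, star_star, star_div₀, star_neg,
    RCLike.star_def, conj_I, conj_ofNat]
  module

lemma star_Ki (x : XX r m p) (z : VV r m p) : star (Ki L x z) = Ki L x (star z) := by
  simp [Ki, star_imop, sS]

lemma star_mu (w : ℤ) (x : XX r m p) (z : VV r m p) : star (mu L w x z) = mu L w x (star z) := by
  conv_rhs => rw [← cjop_mu]
  simp

lemma re_add_im (A : Op r m p) (z : VV r m p) : A z = reop A z + I • imop A z := by
  rw [reop_apply, imop_apply, smul_smul, show I * (-I / 2) = 1 / 2 by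
    linear_combination (-1 / 2 : ℂ) * I_mul_I]
  module

lemma hasD_Tr (x : XX r m p) :
    HasD (fun y => reop (TT L y)) (Dv (fun y => reop (TT L y)) x) x := by
  have h := hasD_of_diff ((contDiff_TT (L := L) (n := 1)).differentiable one_ne_zero x)
  exact hasD_of_diff ((h.add h.cjop).const_smul (1 / 2)).diff

lemma hasD_Ki (x : XX r m p) : HasD (Ki L) (fun v => -(cS x * v iD) • Ki L x +
    (1 / 2 : ℂ) • (L.br (TT L x (YY x v)) * KK L x +
      L.br (cjop (TT L x) (YY x v)) * cjop (KK L x))) x := by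
  have h0 := sS_ne x
  refine (((hasD_sS x).holo (hasDerivAt_inv h0)).smul
    (((hasD_KK x).sub (hasD_KK x).cjop).const_smul (-I / 2))).congr' fun v => ?_
  ext1 z
  have h1 : star (sS x) = sS x := by simp [sS]
  simp only [Ki, imop, add_apply, smul_apply, sub_apply, mul_apply_eq_comp, cjop_apply, map_smul,
    star_smul, L.real, star_YY, star_star, star_mul, h1, RCLike.star_def, conj_I, smul_eq_mul]
  match_scalars
  all_goals field_simp
  all_goals first | done | ring_nf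
  all_goals simp

lemma hasD_YY (x : XX r m p) (u : VV r m p) : HasD (fun y => YY y u)
    (fun v => (-(sS x ^ 2 * v iD) * u iD) • eh x + (cS x * u iD) • P0 v) x :=
  ((hasD_const (P0 u)).add ((hasD_cS x).smul ((hasD_eh x).const_smul (u iD)))).congr' fun v => by
    module

lemma hasD_mu (hL : Graded L) (x : XX r m p) (u : VV r m p) :
    HasD (fun y => mu L 0 y u) (fun v => L.br (Pw (-1) v) (Pw 1 u)) x := by
  simp only [mu_zero hL]
  exact ((hasD_bh x).bilin L.br (hasD_const (Pw 1 u))).congr' fun v => by simp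

lemma P0_Qh (hL : Graded L) (x : XX r m p) (v : VV r m p) :
    P0 (Qh L x v) = reop (TT L x) (YY x v) + Ki L x (mu L 0 x v) := by
  rw [P0_apply, Pw0_Qh hL, Qh_iD hL]; abel

lemma P0_DQh (hL : Graded L) (x : XX r m p) (u v : VV r m p) : P0 (Dv (Qh L) x v u) =
    Dv (fun y => reop (TT L y)) x v (YY x u) +
      reop (TT L x) ((-(sS x ^ 2 * v iD) * u iD) • eh x + (cS x * u iD) • P0 v) +
      ((-(cS x * v iD) • Ki L x + (1 / 2 : ℂ) • (L.br (TT L x (YY x v)) * KK L x +
      L.br (cjop (TT L x) (YY x v)) * cjop (KK L x))) (mu L 0 x u) +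
        Ki L x (L.br (Pw (-1) v) (Pw 1 u))) := by
  have h1 := ((hasD_of_diff ((contDiff_Qh (L := L) (n := 1)).differentiable one_ne_zero
    x)).app_const u).clm P0
  simp only [P0_Qh hL] at h1
  exact h1.unique (((hasD_Tr x).app (hasD_YY x u)).add ((hasD_Ki x).app (hasD_mu hL x u))) v

lemma isW_T (hL : Graded L) (x : XX r m p) (z : VV r m p) : IsW 0 (TT L x z) := by
  rw [← P0_TT hL]; exact isW_P0 _

lemma isW_Tr (hL : Graded L) (x : XX r m p) (z : VV r m p) : IsW 0 (reop (TT L x) z) :=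
  ((isW_T hL x z).add (isW_T hL x (star z)).star).smul _

lemma isW_K (hL : Graded L) (x : XX r m p) {z : VV r m p} (h : IsW 0 z) : IsW 0 (KK L x z) := by
  rw [IsW, KK_Pw hL, h]

lemma isW_Ki (hL : Graded L) (x : XX r m p) {z : VV r m p} (h : IsW 0 z) : IsW 0 (Ki L x z) :=
  (((isW_K hL x h).sub (isW_K hL x h.star).star).smul _).smul _

lemma isW_mu (w : ℤ) (x : XX r m p) (z : VV r m p) : IsW w (mu L w x z) := isW_Pw _ _

/-- the exact formula -/
lemma key (hL : Graded L) {x : XX r m p} (h : IsUnit (Qh L x)) (u v : VV r m p) :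
    reop (TT L x) (Lev eh x u v (Gam L x u v) - (sS x ^ 2 * (u iD * v iD)) • eh x +
      cS x • (u iD • P0 v + v iD • P0 u)) =
    Ki L x (mu L 0 x (Gam L x u v)) - Dv (fun y => reop (TT L y)) x v (YY x u) -
      L.br (reop (TT L x) (YY x v)) (cjop (KK L x) (mu L 0 x u)) -
      L.br (reop (TT L x) (YY x u)) (KK L x (mu L 0 x v)) -
      Ki L x (L.br (Pw (-1) v) (Pw 1 u)) -
      (I * sS x) • L.br (reop (TT L x) (YY x u)) (TT L x (YY x v)) -
      L.br (Ki L x (mu L 0 x u)) (KK L x (mu L 0 x v)) -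
      L.br (JJ L 1 x (mu L 1 x u)) (eS (-1) x • KK L x (mu L (-1) x v)) -
      L.br (JJ L (-1) x (mu L (-1) x u)) (eS 1 x • KK L x (mu L 1 x v)) := by
  have h1 : Qh L x (Gam L x u v) =
      (cS x * v iD) • Qh L x u + Dv (Qh L) x v u + L.br (Qh L x u) (Om L x v) := by
    rw [Gam, ← mul_apply_eq_comp, Ring.mul_inverse_cancel _ h, one_apply_eq_self]
  have h2 := congrArg P0 h1
  rw [map_add, map_add, map_smul, P0_Qh hL, P0_Qh hL, P0_DQh hL, hL.P0_br, hL.Pw0_br, Pw0_Qh hL,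
    Pw0_Om hL, Pw_Qh hL (Or.inl rfl), Pw_Qh hL (Or.inr rfl), Pw_Om hL (Or.inl rfl),
    Pw_Om hL (Or.inr rfl)] at h2
  have hY : ∀ z, YY x z = P0 z + (cS x * z iD) • eh x := fun z => by
    simp [YY, smul_smul]
  have h3 : (I * sS x) • L.br (Ki L x (mu L 0 x u)) (TT L x (YY x v)) =
      (1 / 2 : ℂ) • (L.br (TT L x (YY x v)) (cjop (KK L x) (mu L 0 x u)) -
        L.br (TT L x (YY x v)) (KK L x (mu L 0 x u))) := by
    rw [L.skew, DFunLike.congr_fun (cjop_KK_eq x), DFunLike.congr_fun (KK_eq x)]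
    simp only [add_apply, sub_apply, smul_apply, map_add, map_sub, map_smul]
    module
  have h4 : L.br (reop (TT L x) (YY x v)) (cjop (KK L x) (mu L 0 x u)) = (1 / 2 : ℂ) •
      (L.br (TT L x (YY x v)) (cjop (KK L x) (mu L 0 x u)) +
        L.br (cjop (TT L x) (YY x v)) (cjop (KK L x) (mu L 0 x u))) := by
    simp only [reop_apply, map_smul, map_add, add_apply, smul_apply]
  rw [hY (Gam L x u v), Gam_iD hL h] at h2
  rw [Lev_lin hasD_eh, h4]
  simp only [map_add, map_smul, add_apply, smul_apply, mul_apply_eq_comp, L.anti,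
    hL.br_D_zero (isW_T hL x _), hL.br_zero_D (isW_Tr hL x _),
    hL.br_D_zero (isW_K hL x (isW_mu 0 x _)), hL.br_zero_D (isW_Ki hL x (isW_mu 0 x _)),
    map_sub, map_neg] at h2 ⊢
  have h5 : reop (TT L x) (YY x u) =
      reop (TT L x) (P0 u) + (cS x * u iD) • reop (TT L x) (eh x) := by
    rw [hY, map_add, map_smul]
  linear_combination (norm := module) -h2 - h3 - (cS x * v iD) • h5

lemma YY_eq {w : ℤ} (hw : w = 1 ∨ w = -1) (x : XX r m p) (v : VV r m p) :
    YY x v = WW w x v + (eS w x * v iD) • eh x := by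
  rw [eS_eq hw]
  simp only [YY, WW, add_apply, smul_apply, ContinuousLinearMap.smulRight_apply,
    ContinuousLinearMap.proj_apply]
  module

lemma conj_eS (w : ℤ) (x : XX r m p) : conj (eS w x) = eS (-w) x := by
  rw [eS, eS, ← exp_conj]; simp

lemma star_eh (x : XX r m p) : star (eh x) = eh x := star_emb0 _

lemma YY_star {w : ℤ} (hw : w = 1 ∨ w = -1) (x : XX r m p) (v : VV r m p) :
    YY x (star v) = star (WW w x v) + (eS (-w) x * conj (v iD)) • eh x := by
  rw [← star_YY, YY_eq hw, star_add, star_smul, star_eh, RCLike.star_def, map_mul, conj_eS]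

lemma cc_one : cc L 1 = ah := funext fun x => by simp [cc]

lemma Dv_one (x : XX r m p) (v : VV r m p) : Dv (cc L 1) x v = Pw 1 v := by
  rw [cc_one, (hasD_ah x).eq]

variable (L)

/-- the vector to be bounded -/
def RR (x : XX r m p) (v : VV r m p) : VV r m p :=
  LevD L eh x v - (sS x ^ 2 * (conj (v iD) * v iD)) • eh x +
    cS x • (conj (v iD) • P0 v + v iD • P0 (star v))

/-- the remainder for the degree one coordinates -/
def Ra (x : XX r m p) (v : VV r m p) : VV r m p :=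
  LevD L (cc L 1) x v + (v iD * eS (-1) x) • Dv (cc L 1) x (star v) +
    (conj (v iD) * eS 1 x) • Dv (cc L 1) x v

/-- a combination which occurs together with its conjugate -/
def AB (x : XX r m p) (v : VV r m p) : VV r m p :=
  L.br (reop (TT L x) (YY x (star v))) (KK L x (mu L 0 x v)) -
    (conj (v iD) * eS 1 x) • Ki L x (mu L 0 x v)

variable {L}

lemma P0_RR (x : XX r m p) (v : VV r m p) : P0 (RR L x v) = RR L x v := by
  simp only [RR, LevD, Lev_lin hasD_eh, map_add, map_sub, map_smul, map_neg, P0_P0, eh, P0_emb0]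

lemma key2 (hL : Graded L) {x : XX r m p} (h : IsUnit (Qh L x)) (v : VV r m p) :
    reop (TT L x) (RR L x v) =
    -Ki L x (L.br (bh x) (Ra L x v)) - Dv (fun y => reop (TT L y)) x v (YY x (star v)) -
      star (AB L x v) - AB L x v - Ki L x (L.br (Pw (-1) v) (star (Pw 1 v))) -
      (I * sS x) • L.br (reop (TT L x) (YY x (star v))) (TT L x (YY x v)) -
      L.br (Ki L x (star (mu L 0 x v))) (KK L x (mu L 0 x v)) -
      L.br (JJ L 1 x (star (mu L 1 x v))) (eS (-1) x • KK L x (mu L (-1) x v)) -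
      L.br (JJ L (-1) x (star (mu L (-1) x v))) (eS 1 x • KK L x (mu L 1 x v)) := by
  have h1 : reop (TT L x) (RR L x v) = _ := key hL h (star v) v
  have h2 : Ki L x (L.br (bh x) (Ra L x v)) = -Ki L x (mu L 0 x (Gam L x (star v) v)) +
      (v iD * eS (-1) x) • Ki L x (mu L 0 x (star v)) +
        (conj (v iD) * eS 1 x) • Ki L x (mu L 0 x v) := by
    simp only [Ra, LevD, Dv_one, mu_zero hL, map_add, map_smul]
    rw [cc_one, Lev_lin hasD_ah, map_neg, map_neg]
  have h3 : star (AB L x v) = L.br (reop (TT L x) (YY x v)) (cjop (KK L x) (mu L 0 x (star v))) -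
      (v iD * eS (-1) x) • Ki L x (mu L 0 x (star v)) := by
    rw [AB, star_sub, star_smul, L.real, star_reop, star_YY, star_star, star_Ki, star_mu,
      cjop_apply, star_mu, star_star, RCLike.star_def, map_mul, conj_conj, conj_eS]
  rw [h2, h3, AB, star_mu, star_mu, star_mu, star_Pw]
  linear_combination (norm := module) h1

lemma AB_eq {w : ℤ} (hw : w = 1 ∨ w = -1) (x : XX r m p) (v : VV r m p) : AB L x v =
    L.br (reop (TT L x) (star (WW w x v))) (KK L x (mu L 0 x v)) +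
      (eS (-w) x * conj (v iD)) •
        (L.br (reop (TT L x) (eh x)) * KK L x - Ki L x) (mu L 0 x v) +
      ((eS (-w) x - eS 1 x) * conj (v iD)) • Ki L x (mu L 0 x v) := by
  rw [AB, YY_star hw]
  simp only [map_add, map_smul, add_apply, smul_apply, sub_apply, mul_apply_eq_comp]
  module

lemma TT_eq {w : ℤ} (hw : w = 1 ∨ w = -1) (x : XX r m p) (v : VV r m p) :
    L.br (reop (TT L x) (YY x (star v))) (TT L x (YY x v)) =
      L.br (reop (TT L x) (star (WW w x v))) (reop (TT L x) (YY x v)) +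
      (eS (-w) x * conj (v iD)) • L.br (reop (TT L x) (eh x)) (reop (TT L x) (WW w x v)) +
      I • L.br (reop (TT L x) (YY x (star v))) (imop (TT L x) (YY x v)) := by
  have h : L.br (reop (TT L x) (eh x)) (reop (TT L x) (YY x v)) =
      L.br (reop (TT L x) (eh x)) (reop (TT L x) (WW w x v)) := by
    rw [YY_eq hw, map_add, map_add, map_smul, map_smul, L.anti, smul_zero, add_zero]
  rw [re_add_im (TT L x) (YY x v), map_add, map_smul, ← h]
  congr 1
  rw [YY_star hw, map_add, map_smul, map_add, map_smul, add_apply, smul_apply]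

end exact

section bigO

variable {Z : Type} {l : Filter Z} {a b : Z → ℝ} {f g : Z → VV r m p} {A : Z → Op r m p}
  {k : Z → ℂ}

lemma br_O (hf : f =O[l] a) (hg : g =O[l] b) :
    (fun z => L.br (f z) (g z)) =O[l] fun z => a z * b z :=
  (IsBigO.of_bound ‖L.br‖ (Eventually.of_forall fun z => by
    rw [norm_mul, norm_norm, norm_norm, ← mul_assoc]; exact L.br.le_opNorm₂ _ _)).trans
    (hf.norm_left.mul hg.norm_left)

lemma app_O (hA : A =O[l] a) (hg : g =O[l] b) :
    (fun z => A z (g z)) =O[l] fun z => a z * b z :=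
  (IsBigO.of_bound' (Eventually.of_forall fun z => by
    rw [norm_mul, norm_norm, norm_norm]; exact (A z).le_opNorm _)).trans
    (hA.norm_left.mul hg.norm_left)

lemma smul_O {E : Type} [SeminormedAddCommGroup E] [NormedSpace ℂ E] {g : Z → E}
    (hk : k =O[l] a) (hg : g =O[l] b) :
    (fun z => k z • g z) =O[l] fun z => a z * b z :=
  (IsBigO.of_bound' (Eventually.of_forall fun z => by
    rw [norm_mul, norm_norm, norm_norm, norm_smul])).trans (hk.norm_left.mul hg.norm_left)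

lemma app1 (hA : A =O[l] fun _ => (1 : ℝ)) (hg : g =O[l] b) : (fun z => A z (g z)) =O[l] b := by
  simpa only [one_mul] using app_O hA hg

lemma smul1 (hk : ∀ z, ‖k z‖ = 1) (hg : g =O[l] b) : (fun z => k z • g z) =O[l] b :=
  (IsBigO.of_bound' (Eventually.of_forall fun z => by rw [norm_smul, hk, one_mul])).trans hg

lemma br1 (hf : f =O[l] fun _ => (1 : ℝ)) (hg : g =O[l] b) :
    (fun z => L.br (f z) (g z)) =O[l] b := by
  simpa only [one_mul] using br_O (L := L) hf hg

lemma star_O (hf : f =O[l] a) : (fun z => star (f z)) =O[l] a :=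
  (IsBigO.of_bound' (Eventually.of_forall fun z => (norm_star _).le)).trans hf

lemma norm_cjop (A : Op r m p) : ‖cjop A‖ ≤ ‖A‖ :=
  ContinuousLinearMap.opNorm_le_bound _ (norm_nonneg _) fun z => by
    rw [cjop_apply, norm_star, ← norm_star z]; exact A.le_opNorm _

lemma reop_O (hA : A =O[l] a) : (fun z => reop (A z)) =O[l] a :=
  (hA.add ((IsBigO.of_bound' (Eventually.of_forall fun z => norm_cjop (A z))).trans
    hA)).const_smul_left (1 / 2 : ℂ)

lemma O_le {E : Type} [SeminormedAddCommGroup E] {f : Z → E} (c : ℝ)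
    (h : ∀ᶠ z in l, ‖f z‖ ≤ c * a z) : f =O[l] a :=
  IsBigO.of_bound |c| (h.mono fun z hz => hz.trans (by
    rw [Real.norm_eq_abs, ← abs_mul]; exact le_abs_self _))

lemma O_le1 (h0 : ∀ z, 0 ≤ a z) (h : ∀ z, a z ≤ b z) : a =O[l] b :=
  O_le 1 (Eventually.of_forall fun z => by rw [Real.norm_of_nonneg (h0 z), one_mul]; exact h z)

end bigO

/-- the filter on pairs -/
def ll (r m p : ℕ) : Filter (XX r m p × VV r m p) := LL r m p ×ˢ ⊤

lemma ev {P : XX r m p → Prop} (h : ∀ᶠ x in LL r m p, P x) : ∀ᶠ z in ll r m p, P z.1 :=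
  h.prod_inl ⊤

lemma small {δ : ℝ} (hδ : 0 < δ) : ∀ᶠ x in LL r m p, ‖x.1‖ ≤ δ ∧ ‖x.2.1‖ ≤ δ :=
  (tendsto_comap.eventually (Metric.closedBall_mem_nhds 0 hδ)).mono fun x hx => by
    have h := mem_closedBall_zero_iff.1 hx
    simp only [Prod.norm_def, max_le_iff] at h
    exact ⟨h.1, h.2.1⟩

def nn (z : XX r m p × VV r m p) : ℝ := ‖z.1.1‖

def aa (z : XX r m p × VV r m p) : ℝ := ‖z.2 iD‖

def yy (z : XX r m p × VV r m p) : ℝ := ‖YY z.1 z.2‖

def ww (w : ℤ) (z : XX r m p × VV r m p) : ℝ := ‖WW w z.1 z.2‖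

variable (L)

def gg (w : ℤ) (z : XX r m p × VV r m p) : ℝ := ‖Dv (cc L w) z.1 z.2‖

def S1 (w : ℤ) (z : XX r m p × VV r m p) : ℝ :=
  ww w z + tau z.1 z.2 + gg L w z + nn z * gg L (-w) z

def S2 (w : ℤ) (z : XX r m p × VV r m p) : ℝ :=
  nn z * (ww w z + gg L w z + gg L (-w) z) + tau z.1 z.2

variable {L} {w : ℤ}

lemma nn0 (z : XX r m p × VV r m p) : 0 ≤ nn z := norm_nonneg _
lemma ww0 (z : XX r m p × VV r m p) : 0 ≤ ww w z := norm_nonneg _
lemma gg0 (z : XX r m p × VV r m p) : 0 ≤ gg L w z := norm_nonneg _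
lemma tau0 (z : XX r m p × VV r m p) : 0 ≤ tau z.1 z.2 :=
  mul_nonneg (mul_nonneg (sg_pos _).le (sq_nonneg _)) (norm_nonneg _)

lemma n_one : nn =O[ll r m p] fun _ => (1 : ℝ) :=
  O_le 1 ((ev (small one_pos)).mono fun x hx => by simpa [nn] using hx.1)

lemma s_one : (fun z => sg z.1) =O[ll r m p] fun _ => (1 : ℝ) :=
  O_le1 (fun _ => (sg_pos _).le) fun _ => sg_le_one _

lemma n_mul {a b : XX r m p × VV r m p → ℝ} (h : a =O[ll r m p] b) :
    (fun z => nn z * a z) =O[ll r m p] b := by simpa only [one_mul] using n_one.mul h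

lemma s_mul {a b : XX r m p × VV r m p → ℝ} (h : a =O[ll r m p] b) :
    (fun z => sg z.1 * a z) =O[ll r m p] b := by simpa only [one_mul] using s_one.mul h

lemma w_S1 : ww w =O[ll r m p] S1 L w := O_le1 ww0 fun z => by
  have := tau0 z; have := gg0 (L := L) (w := w) z
  have := mul_nonneg (nn0 z) (gg0 (L := L) (w := -w) z); unfold S1; linarith

lemma t_S1 : (fun z => tau z.1 z.2) =O[ll r m p] S1 L w := O_le1 tau0 fun z => by
  have := ww0 (w := w) z; have := gg0 (L := L) (w := w) z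
  have := mul_nonneg (nn0 z) (gg0 (L := L) (w := -w) z); unfold S1; linarith

lemma g_S1 : gg L w =O[ll r m p] S1 L w := O_le1 gg0 fun z => by
  have := ww0 (w := w) z; have := tau0 z
  have := mul_nonneg (nn0 z) (gg0 (L := L) (w := -w) z); unfold S1; linarith

lemma g'_S1 : (fun z => nn z * gg L (-w) z) =O[ll r m p] S1 L w :=
  O_le1 (fun z => mul_nonneg (nn0 z) (gg0 z)) fun z => by
    have := ww0 (w := w) z; have := tau0 z; have := gg0 (L := L) (w := w) z; unfold S1; linarith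

lemma t_S2 : (fun z => tau z.1 z.2) =O[ll r m p] S2 L w := O_le1 tau0 fun z =>
  le_add_of_nonneg_left (mul_nonneg (nn0 z) (add_nonneg (add_nonneg (ww0 z) (gg0 z)) (gg0 z)))

lemma w_S2 : (fun z => nn z * ww w z) =O[ll r m p] S2 L w :=
  O_le1 (fun z => mul_nonneg (nn0 z) (ww0 z)) fun z => by
    have := tau0 z; have := mul_nonneg (nn0 z) (gg0 (L := L) (w := w) z)
    have := mul_nonneg (nn0 z) (gg0 (L := L) (w := -w) z); unfold S2; linarith

lemma g_S2 : (fun z => nn z * gg L w z) =O[ll r m p] S2 L w :=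
  O_le1 (fun z => mul_nonneg (nn0 z) (gg0 z)) fun z => by
    have := tau0 z; have := mul_nonneg (nn0 z) (ww0 (w := w) z)
    have := mul_nonneg (nn0 z) (gg0 (L := L) (w := -w) z); unfold S2; linarith

lemma g'_S2 : (fun z => nn z * gg L (-w) z) =O[ll r m p] S2 L w :=
  O_le1 (fun z => mul_nonneg (nn0 z) (gg0 z)) fun z => by
    have := tau0 z; have := mul_nonneg (nn0 z) (ww0 (w := w) z)
    have := mul_nonneg (nn0 z) (gg0 (L := L) (w := w) z); unfold S2; linarith

lemma ng_S1 (hw : w = 1 ∨ w = -1) {e : ℤ} (he : e = 1 ∨ e = -1) :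
    (fun z => nn z * gg L e z) =O[ll r m p] S1 L w := by
  obtain rfl | rfl : e = w ∨ e = -w := by omega
  exacts [n_mul g_S1, g'_S1]

lemma ng_S2 (hw : w = 1 ∨ w = -1) {e : ℤ} (he : e = 1 ∨ e = -1) :
    (fun z => nn z * gg L e z) =O[ll r m p] S2 L w := by
  obtain rfl | rfl : e = w ∨ e = -w := by omega
  exacts [g_S2, g'_S2]

lemma ngg (hw : w = 1 ∨ w = -1) : (fun z => nn z * (gg L 1 z * gg L (-1) z)) =O[ll r m p]
    fun z => S1 L w z * S2 L w z := by
  refine ((g_S1 (w := w)).mul (g'_S2 (w := w))).congr_left fun z => ?_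
  rcases hw with rfl | rfl
  · ring
  · rw [neg_neg]; ring

lemma eh_O : (fun z => eh z.1) =O[ll r m p] nn :=
  O_le 1 (Eventually.of_forall fun z => by rw [one_mul, eh, norm_emb0]; rfl)

lemma bh_O : (fun z => bh z.1) =O[ll r m p] fun _ => (1 : ℝ) :=
  O_le 1 ((ev (small one_pos)).mono fun x hx => by simpa [bh, norm_embm] using hx.2)

lemma W_O : (fun z => WW w z.1 z.2) =O[ll r m p] ww w := (isBigO_refl _ _).norm_right

lemma Y_O : (fun z => YY z.1 z.2) =O[ll r m p] yy := (isBigO_refl _ _).norm_right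

lemma Ys_O : (fun z => YY z.1 (star z.2)) =O[ll r m p] yy :=
  (star_O Y_O).congr_left fun _ => star_YY _ _

lemma sS_O : (fun z => sS z.1) =O[ll r m p] fun z => sg z.1 :=
  IsBigO.of_bound' (Eventually.of_forall fun z => by simp [sS])

lemma t_O (e : ℤ) : (fun z => eS e z.1 * conj (z.2 iD)) =O[ll r m p] aa :=
  O_le 1 (Eventually.of_forall fun z => by simp [norm_eS, aa])

lemma y_le (hw : w = 1 ∨ w = -1) : (fun z => sg z.1 * nn z * yy z) =O[ll r m p]
    fun z => nn z * ww w z + tau z.1 z.2 := by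
  refine O_le1 (fun z => mul_nonneg (mul_nonneg (sg_pos _).le (nn0 z)) (norm_nonneg _)) fun z => ?_
  have h : yy z ≤ ww w z + aa z * nn z := by
    rw [yy, YY_eq hw]
    refine (norm_add_le _ _).trans (le_of_eq ?_)
    rw [norm_smul, norm_mul, norm_eS, one_mul, eh, norm_emb0]; rfl
  have h1 := mul_le_mul_of_nonneg_left h (mul_nonneg (sg_pos z.1).le (nn0 z))
  have h2 := mul_le_mul_of_nonneg_right (sg_le_one z.1) (mul_nonneg (nn0 z) (ww0 (w := w) z))
  have h3 : tau z.1 z.2 = sg z.1 * nn z ^ 2 * aa z := rfl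
  rw [h3]; linarith

lemma y_S1 (hw : w = 1 ∨ w = -1) : (fun z => sg z.1 * nn z * yy z) =O[ll r m p] S1 L w :=
  (y_le hw).trans ((n_mul w_S1).add t_S1)

lemma y_S2 (hw : w = 1 ∨ w = -1) : (fun z => sg z.1 * nn z * yy z) =O[ll r m p] S2 L w :=
  (y_le hw).trans (w_S2.add t_S2)

lemma nS1 (hw : w = 1 ∨ w = -1) : (fun z => nn z * S1 L 1 z) =O[ll r m p] S1 L w := by
  rcases hw with rfl | rfl
  · exact n_mul (isBigO_refl _ _)
  have h : (fun z => nn z * ww 1 z) =O[ll r m p] fun z => nn z * ww (-1) z + 2 * tau z.1 z.2 := by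
    refine O_le1 (fun z => mul_nonneg (nn0 z) (ww0 z)) fun z => ?_
    have h1 : WW 1 z.1 z.2 = WW (-1) z.1 z.2 - (2 * I * sS z.1 * z.2 iD) • eh z.1 := by
      simp only [WW]; module
    have h2 : ww 1 z ≤ ww (-1) z + 2 * sg z.1 * aa z * nn z := by
      rw [ww, h1]
      refine (norm_sub_le _ _).trans (le_of_eq ?_)
      simp [norm_smul, eh, norm_emb0, sS, abs_of_pos (sg_pos _), ww, aa, nn]
    have h3 : tau z.1 z.2 = sg z.1 * nn z ^ 2 * aa z := rfl
    have h4 := mul_le_mul_of_nonneg_left h2 (nn0 z)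
    rw [h3]; linarith
  refine ((((h.trans ((n_mul w_S1).add (t_S1.const_mul_left 2))).add (n_mul t_S1)).add
    (ng_S1 (Or.inr rfl) (Or.inl rfl))).add (n_mul (n_mul g_S1))).congr_left fun z => ?_
  unfold S1; ring

variable (L)

lemma tay : (fun z => KK L z.1 - 1) =O[ll r m p] nn ∧ (fun z => Ki L z.1) =O[ll r m p] nn ∧
    (fun z => TT L z.1 - P0) =O[ll r m p] nn ∧
    (fun z => imop (TT L z.1)) =O[ll r m p] (fun z => sg z.1 * nn z) ∧
    (fun z => L.br (reop (TT L z.1) (eh z.1)) * KK L z.1 - Ki L z.1) =O[ll r m p]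
      (fun z => sg z.1 * nn z ^ 2) ∧
    (fun z => Dv (fun y => reop (TT L y)) z.1 z.2) =O[ll r m p]
      fun z => sg z.1 ^ 2 * nn z * yy z := by
  obtain ⟨C, h⟩ := taylor L
  have h1 := (ev (small (r := r) (m := m) (p := p) one_pos)).mono fun z hz => h z.1 hz.1
  exact ⟨O_le C (h1.mono fun z hz => hz.1), O_le C (h1.mono fun z hz => hz.2.1),
    O_le C (h1.mono fun z hz => hz.2.2.1), O_le C (h1.mono fun z hz => hz.2.2.2.1),
    O_le C (h1.mono fun z hz => hz.2.2.2.2.1), O_le C (h1.mono fun z hz => hz.2.2.2.2.2 z.2)⟩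

lemma K_O : (fun z => KK L z.1) =O[ll r m p] fun _ => (1 : ℝ) :=
  (((tay L).1.trans n_one).add (isBigO_const_one ℝ 1 _)).congr_left fun _ => sub_add_cancel _ _

lemma Tr_O : (fun z => reop (TT L z.1)) =O[ll r m p] fun _ => (1 : ℝ) :=
  reop_O ((((tay L).2.2.1.trans n_one).add (isBigO_const_one ℝ P0 _)).congr_left
    fun _ => sub_add_cancel _ _)

lemma JJ_O (e : ℤ) : (fun z => JJ L e z.1) =O[ll r m p] fun _ => (1 : ℝ) := by
  have h : (fun z => cS z.1) =O[ll r m p] fun _ => (1 : ℝ) :=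
    O_le 1 (Eventually.of_forall fun z => by
      simpa [cS, -ofReal_cos] using Real.abs_cos_le_one _)
  exact ((reop_O (K_O L)).const_smul_left (e : ℂ)).add
    (by simpa only [one_mul] using smul_O h ((tay L).2.1.trans n_one))

lemma P1_O : (fun z => Pw 1 z.2) =O[ll r m p] gg L 1 :=
  O_le 1 (Eventually.of_forall fun z => by rw [gg, Dv_one, one_mul])

variable {L}

lemma mu_O (hL : Graded L) {e : ℤ} (he : e = 1 ∨ e = -1) :
    (fun z => mu L e z.1 z.2) =O[ll r m p] gg L e := by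
  obtain ⟨C, h⟩ := leaf hL he
  exact O_le C ((ev h).mono fun z hz => (hz.2.2.2.2.2.1 z.2).1)

lemma mu0_O (hL : Graded L) : (fun z => mu L 0 z.1 z.2) =O[ll r m p] gg L 1 :=
  (br1 bh_O (P1_O L)).congr_left fun _ => (mu_zero hL _ _).symm

lemma Ra_O (hL : Graded L) :
    (fun z => Ra L z.1 z.2) =O[ll r m p] fun z => gg L 1 z * S1 L 1 z := by
  obtain ⟨C, h⟩ := leaf hL (Or.inl rfl)
  exact O_le C ((ev h).mono fun z hz => (hz.2.2.2.2.2.2 z.2).trans_eq (mul_assoc _ _ _))

variable (L w)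

/-- good terms -/
def Gd (f : XX r m p × VV r m p → VV r m p) : Prop :=
  (fun z => (nn z : ℂ) • f z) =O[ll r m p] fun z => S1 L w z * S2 L w z

variable {L w} {f g : XX r m p × VV r m p → VV r m p}

lemma Gd.add (hf : Gd L w f) (hg : Gd L w g) : Gd L w fun z => f z + g z :=
  (IsBigO.add hf hg).congr_left fun _ => (smul_add _ _ _).symm

lemma Gd.sub (hf : Gd L w f) (hg : Gd L w g) : Gd L w fun z => f z - g z :=
  (IsBigO.sub hf hg).congr_left fun _ => (smul_sub _ _ _).symm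

lemma Gd.neg (hf : Gd L w f) : Gd L w fun z => -f z :=
  (IsBigO.neg_left hf).congr_left fun _ => (smul_neg _ _).symm

lemma Gd.star (hf : Gd L w f) : Gd L w fun z => star (f z) :=
  (star_O hf).congr_left fun _ => by simp

lemma gd_of {c : XX r m p × VV r m p → ℝ} (h : f =O[ll r m p] c)
    (h' : (fun z => nn z * c z) =O[ll r m p] fun z => S1 L w z * S2 L w z) : Gd L w f :=
  (smul_O (IsBigO.of_bound' (Eventually.of_forall fun z => by simp)) h).trans h'

lemma gd {a b c : XX r m p × VV r m p → ℝ} (h : f =O[ll r m p] c) (ha : a =O[ll r m p] S1 L w)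
    (hb : b =O[ll r m p] S2 L w) (e : ∀ z, a z * b z = nn z * c z) : Gd L w f :=
  gd_of h ((ha.mul hb).congr_left e)

lemma tau_eq (z : XX r m p × VV r m p) : tau z.1 z.2 = sg z.1 * nn z ^ 2 * aa z := rfl

lemma gd_AB (hL : Graded L) (hw : w = 1 ∨ w = -1) : Gd L w fun z => AB L z.1 z.2 := by
  simp only [AB_eq hw]
  refine Gd.add (Gd.add ?_ ?_) ?_
  · exact gd (br_O (app1 (Tr_O L) (star_O W_O)) (app1 (K_O L) (mu0_O hL))) w_S1
      (ng_S2 hw (Or.inl rfl)) fun z => by ring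
  · exact gd (smul_O (t_O _) (app_O (tay L).2.2.2.2.1 (mu0_O hL))) t_S1
      (ng_S2 hw (Or.inl rfl)) fun z => by rw [tau_eq]; ring
  rcases hw with rfl | rfl
  · have h : (fun z => (eS (-1) z.1 - eS 1 z.1) * conj (z.2 iD)) =O[ll r m p]
        fun z => sg z.1 * aa z := O_le 2 (Eventually.of_forall fun z => by
      rw [eS_eq (Or.inr rfl), eS_eq (Or.inl rfl),
        show cS z.1 + I * ((-1 : ℤ) : ℂ) * sS z.1 - (cS z.1 + I * ((1 : ℤ) : ℂ) * sS z.1) =
          -(2 * I * sS z.1) by push_cast; ring]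
      simp [sS, abs_of_pos (sg_pos _), aa, mul_assoc])
    exact gd (smul_O h (app_O (tay L).2.1 (mu0_O hL))) g_S1 t_S2 fun z => by rw [tau_eq]; ring
  · simp only [neg_neg, sub_self, zero_mul, zero_smul, Gd, smul_zero]
    exact isBigO_zero _ _

lemma gd_TT (hw : w = 1 ∨ w = -1) : Gd L w fun z =>
    (I * sS z.1) • L.br (reop (TT L z.1) (YY z.1 (star z.2))) (TT L z.1 (YY z.1 z.2)) := by
  have h : (fun z => I * sS z.1) =O[ll r m p] fun z => sg z.1 := sS_O.const_mul_left I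
  simp only [TT_eq hw, smul_add]
  refine Gd.add (Gd.add ?_ ?_) ?_
  · exact gd (smul_O h (br_O (app1 (Tr_O L) (star_O W_O)) (app1 (Tr_O L) Y_O))) w_S1 (y_S2 hw)
      fun z => by ring
  · exact gd (smul_O h (smul_O (t_O _) (br_O (app1 (Tr_O L) eh_O) (app1 (Tr_O L) W_O)))) w_S1
      t_S2 fun z => by rw [tau_eq]; ring
  · exact gd (smul_O h (smul1 (fun _ => norm_I) (br_O (app1 (Tr_O L) Ys_O)
      (app_O (tay L).2.2.2.1 Y_O)))) (y_S1 hw) (y_S2 hw) fun z => by ring

lemma Pm_O (hL : Graded L) :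
    (fun z => Pw (-1) z.2) =O[ll r m p] fun z => gg L (-1) z + gg L 1 z := by
  have h1 : gg L (-1) =O[ll r m p] fun z => gg L (-1) z + gg L 1 z :=
    O_le1 gg0 fun z => le_add_of_nonneg_right (gg0 z)
  have h2 : gg L 1 =O[ll r m p] fun z => gg L (-1) z + gg L 1 z :=
    O_le1 gg0 fun z => le_add_of_nonneg_left (gg0 z)
  refine (((mu_O hL (Or.inr rfl)).trans h1).sub (((br1 (L := L) bh_O (br1 (L := L) bh_O
    (P1_O L))).trans h2).const_smul_left (1 / 2 : ℂ))).congr_left fun z => ?_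
  rw [mu_neg hL]; exact add_sub_cancel_right _ _

lemma gd_R (hL : Graded L) (hw : w = 1 ∨ w = -1) :
    Gd L w fun z => reop (TT L z.1) (RR L z.1 z.2) := by
  have h1 : (1 : ℤ) = 1 ∨ (1 : ℤ) = -1 := Or.inl rfl
  have h2 : (-1 : ℤ) = 1 ∨ (-1 : ℤ) = -1 := Or.inr rfl
  have a1 := gd (app_O (tay L).2.1 (br1 (L := L) bh_O (Ra_O hL))) (nS1 hw) (ng_S2 hw h1)
    fun z => by ring
  have a2 := gd (L := L) (app_O (tay L).2.2.2.2.2 Ys_O) (y_S1 hw) (y_S2 hw) fun z => by ring
  have a3 := gd (app_O (tay L).2.1 (br_O (L := L) (Pm_O hL) (star_O (P1_O L)))) (ng_S1 hw h1)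
    ((ng_S2 hw h2).add (ng_S2 hw h1)) fun z => by ring
  have a4 := gd (br_O (L := L) (app_O (tay L).2.1 (star_O (mu0_O hL))) (app1 (K_O L) (mu0_O hL)))
    (ng_S1 hw h1) (ng_S2 hw h1) fun z => by ring
  have a5 := gd_of (br_O (L := L) (app1 (JJ_O L 1) (star_O (mu_O hL h1)))
    (smul1 (fun z => norm_eS (-1) z.1) (app1 (K_O L) (mu_O hL h2)))) (ngg hw)
  have a6 := gd_of (br_O (L := L) (app1 (JJ_O L (-1)) (star_O (mu_O hL h2)))
    (smul1 (fun z => norm_eS 1 z.1) (app1 (K_O L) (mu_O hL h1))))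
    ((ngg hw).congr_left fun z => by ring)
  have a := (((((((a1.neg.sub a2).sub (gd_AB hL hw).star).sub (gd_AB hL hw)).sub a3).sub
    (gd_TT hw)).sub a4).sub a5).sub a6
  obtain ⟨C, h⟩ := good_bd hL
  exact IsBigO.congr' a ((ev h).mono fun z hz => by simp only [key2 hL hz.1]) EventuallyEq.rfl

lemma R_le : ∀ᶠ x in LL r m p, ∀ z, P0 z = z → ‖z‖ ≤ 2 * ‖reop (TT L x) z‖ := by
  obtain ⟨C, h⟩ := taylor L
  have hC : 0 < |C| + 1 := by positivity
  filter_upwards [small one_pos, small (δ := 1 / (2 * (|C| + 1))) (by positivity)] with x h1 h2 z hz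
  have h3 : ‖TT L x - P0‖ ≤ 1 / 2 := by
    refine (h x h1.1).2.2.1.trans ?_
    calc C * ‖x.1‖ ≤ (|C| + 1) * (1 / (2 * (|C| + 1))) :=
          mul_le_mul ((le_abs_self C).trans (by linarith)) h2.1 (norm_nonneg _) hC.le
      _ = 1 / 2 := by field_simp
  generalize TT L x = A at h3 ⊢
  obtain ⟨B, rfl⟩ : ∃ B, A = B + P0 := ⟨A - P0, (sub_add_cancel _ _).symm⟩
  rw [add_sub_cancel_right] at h3
  have h4 : z = reop (B + P0) z - (1 / 2 : ℂ) • (B z + cjop B z) := by
    rw [reop_apply, cjop_apply, add_apply, add_apply, star_add, star_P0, star_star, hz, cjop_apply]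
    module
  have h5 := B.le_of_opNorm_le h3 z
  have h6 := (cjop B).le_of_opNorm_le ((norm_cjop _).trans h3) z
  have h7 := norm_add_le (B z) (cjop B z)
  have h8 := norm_sub_le (reop (B + P0) z) ((1 / 2 : ℂ) • (B z + cjop B z))
  rw [← h4, norm_smul, show ‖(1 / 2 : ℂ)‖ = 1 / 2 by simp] at h8
  linarith

end Eta

/-- the Levi form of the degree zero coordinates -/
theorem est_eta (hL : Graded L) {w : ℤ} (hw : w = 1 ∨ w = -1) : ∃ C : ℝ, ∀ᶠ x in LL r m p, ∀ v,
    ‖x.1‖ * ‖LevD L eh x v - (sS x ^ 2 * (conj (v iD) * v iD)) • eh x +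
        cS x • (conj (v iD) • P0 v + v iD • P0 (star v))‖ ≤
      C * (‖WW w x v‖ + tau x v + ‖Dv (cc L w) x v‖ + ‖x.1‖ * ‖Dv (cc L (-w)) x v‖) *
        (‖x.1‖ * (‖WW w x v‖ + ‖Dv (cc L w) x v‖ + ‖Dv (cc L (-w)) x v‖) + tau x v) := by
  obtain ⟨C, h⟩ := (Eta.gd_R hL hw).bound
  rw [Eta.ll, ← principal_univ, eventually_prod_principal_iff] at h
  refine ⟨2 * C, ?_⟩
  filter_upwards [h, Eta.R_le (L := L)] with x h1 h2 v
  have h3 := h1 v (mem_univ v)
  have t0 := Eta.tau0 (x, v)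
  rw [norm_smul, norm_real, Real.norm_of_nonneg (Eta.nn0 _), Real.norm_of_nonneg
    (by unfold Eta.S1 Eta.S2 Eta.nn Eta.ww Eta.gg; positivity)] at h3
  have h4 := mul_le_mul_of_nonneg_left (h2 _ (Eta.P0_RR (L := L) x v)) (norm_nonneg x.1)
  change ‖x.1‖ * ‖Eta.RR L x v‖ ≤ 2 * C * Eta.S1 L w (x, v) * Eta.S2 L w (x, v)
  change ‖x.1‖ * ‖reop (TT L x) (Eta.RR L x v)‖ ≤ _ at h3
  linarith

end Pool.Agent.Lib.MP_e2ef7e_al.Gen
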