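import Pool.Agent.Lib.MP_e2ef7e_al.Geo3
import Pool.Agent.Lib.MP_e2ef7e_al.EqFixB

/-!
Coordinates and smoothness.
-/

open Complex Filter Topology Set
open scoped ComplexConjugate ContDiff

noncomputable section

namespace Pool.Agent.Lib.MP_e2ef7e_al.Gen

variable {r m p : ℕ} {L : LieD (Idx r m p)}

theorem sg_pos (x : XX r m p) : 0 < sg x := sin_sx_pos _

theorem sg_le_one (x : XX r m p) : sg x ≤ 1 := Real.sin_le_one _

theorem sS_ne (x : XX r m p) : sS x ≠ 0 := ofReal_ne_zero.2 (sg_pos x).ne'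

theorem conj_sS (x : XX r m p) : conj (sS x) = sS x := conj_ofReal _

theorem conj_cS (x : XX r m p) : conj (cS x) = cS x := conj_ofReal _

theorem cS_sq (x : XX r m p) : cS x ^ 2 + sS x ^ 2 = 1 := by
  rw [cS, sS, sg]; exact_mod_cast Real.cos_sq_add_sin_sq _

theorem eS_eq {w : ℤ} (hw : w = 1 ∨ w = -1) (x : XX r m p) : eS w x = cS x + I * w * sS x := by
  rw [eS, ← mul_assoc, exp_mul_I, cS, sS, sg]
  rcases hw with rfl | rfl <;> simp [mul_comm]

theorem eS_zero (x : XX r m p) : eS 0 x = 1 := by simp [eS]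

theorem conj_eS (w : ℤ) (x : XX r m p) : conj (eS w x) = eS (-w) x := by
  simp [eS, ← exp_conj]

theorem norm_eS (w : ℤ) (x : XX r m p) : ‖eS w x‖ = 1 := by
  rw [eS, ← mul_assoc]; exact_mod_cast norm_exp_ofReal_mul_I (w * sR x)

theorem ev_LL {P : XX r m p → Prop} (h : ∀ᶠ x in LL r m p, P x) :
    ∀ᶠ x in LL r m p, ∀ᶠ y in 𝓝 x, P y := by
  rw [LL, eventually_comap] at h ⊢
  refine h.eventually_nhds.mono fun z hz x hx => ?_
  have hc : Continuous fun x : XX r m p => (x.1, x.2.1, x.2.2.2) := by fun_prop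
  exact ((hc.tendsto' x z hx).eventually hz).mono fun y hy => hy y rfl

section lin

variable {E : Type} [NormedAddCommGroup E] [NormedSpace ℝ E] [NormedSpace ℂ E]

/-- a real linear map from its values -/
def mkL (f : XX r m p → E) (h1 : ∀ x y, f (x + y) = f x + f y)
    (h2 : ∀ (c : ℝ) x, f (c • x) = c • f x) : XX r m p →L[ℝ] E :=
  LinearMap.toContinuousLinearMap { toFun := f, map_add' := h1, map_smul' := h2 }

lemma hasD_lin (A : XX r m p →L[ℝ] E) (P : VV r m p →L[ℂ] E) (h : ∀ j, A (dir j) = P (bv j))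
    (x : XX r m p) : HasD A (fun v => P v) x :=
  HasD.of_fderiv A.hasFDerivAt fun v => by
    conv_rhs => rw [← sum_smul_bv v, map_sum]
    simp only [h, map_smul]

end lin

def ehL : XX r m p →L[ℝ] VV r m p := mkL eh
  (fun x y => by simp [eh, emb0, add_smul, Finset.sum_add_distrib])
  (fun c x => by simp [eh, emb0, Finset.smul_sum, mul_smul])

def bhL : XX r m p →L[ℝ] VV r m p := mkL bh
  (fun x y => by simp [bh, embm, add_smul, Finset.sum_add_distrib])
  (fun c x => by simp [bh, embm, Finset.smul_sum, mul_smul])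

def ahL : XX r m p →L[ℝ] VV r m p := mkL ah
  (fun x y => by simp [ah, embp, add_smul, Finset.sum_add_distrib])
  (fun c x => by simp [ah, embp, Finset.smul_sum, mul_smul])

def xL : XX r m p →L[ℝ] ℂ := mkL (fun x => (x.2.2.1 : ℂ)) (fun x y => by simp) (fun c x => by simp)

lemma eh_dir (j : Idx r m p) : eh (dir j) = P0 (bv j) := by
  ext i
  rcases j with j | j | j | j <;> rcases i with i | i | i | i <;>
    simp [eh, dir, emb0_apply, P0_apply, Pw_apply, wt, bv, iD, Pi.single_apply, apply_ite]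

lemma bh_dir (j : Idx r m p) : bh (dir j) = Pw (-1) (bv j) := by
  ext i
  rcases j with j | j | j | j <;> rcases i with i | i | i | i <;>
    simp [bh, dir, embm_apply, Pw_apply, wt, bv, Pi.single_apply, apply_ite]

lemma ah_dir (j : Idx r m p) : ah (dir j) = Pw 1 (bv j) := by
  ext i
  rcases j with j | j | j | j <;> rcases i with i | i | i | i <;>
    simp [ah, dir, embp_apply, Pw_apply, wt, bv, Pi.single_apply, apply_ite]

lemma x_dir (j : Idx r m p) : (((dir j).2.2.1 : ℝ) : ℂ) = bv j iD := by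
  rcases j with j | j | j | j <;> simp [dir, bv, iD]

theorem hasD_eh (x : XX r m p) : HasD eh (fun v => P0 v) x := hasD_lin ehL P0 eh_dir x

theorem hasD_bh (x : XX r m p) : HasD bh (fun v => Pw (-1) v) x := hasD_lin bhL _ bh_dir x

theorem hasD_ah (x : XX r m p) : HasD ah (fun v => Pw 1 v) x := hasD_lin ahL _ ah_dir x

lemma hasD_x (x : XX r m p) : HasD (fun y => (y.2.2.1 : ℂ)) (fun v => v iD) x :=
  hasD_lin xL (ContinuousLinearMap.proj iD) x_dir x

lemma hasD_sR (x : XX r m p) : HasD (fun y => (sR y : ℂ)) (fun v => sS x * v iD) x :=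
  (hasD_x x).real (by fun_prop) (hasDerivAt_sx _)

theorem hasD_sS (x : XX r m p) : HasD sS (fun v => sS x * cS x * v iD) x :=
  ((hasD_x x).real (by fun_prop) (hasDerivAt_sx _).sin).congr' fun v => by
    simp only [sS, cS, sg, sR]; push_cast; ring

theorem hasD_cS (x : XX r m p) : HasD cS (fun v => -(sS x ^ 2 * v iD)) x :=
  ((hasD_x x).real (by fun_prop) (hasDerivAt_sx _).cos).congr' fun v => by
    simp only [sS, sg, sR]; push_cast; ring

variable {n : WithTop ℕ∞}

lemma contDiff_sR : ContDiff ℝ n (sR : XX r m p → ℝ) := contDiff_sx.comp (by fun_prop)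

theorem contDiff_sg : ContDiff ℝ n (sg : XX r m p → ℝ) := contDiff_sR.sin

lemma contDiff_sS : ContDiff ℝ n (sS : XX r m p → ℂ) := ofRealCLM.contDiff.comp contDiff_sg

lemma contDiff_cS : ContDiff ℝ n (cS : XX r m p → ℂ) := ofRealCLM.contDiff.comp contDiff_sR.cos

lemma contDiff_eS (w : ℤ) : ContDiff ℝ n (eS w : XX r m p → ℂ) :=
  (contDiff_const.mul ((ofRealCLM.contDiff.comp contDiff_sR).mul contDiff_const)).cexp

theorem contDiff_eh : ContDiff ℝ n (eh : XX r m p → VV r m p) := ehL.contDiff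

theorem contDiff_bh : ContDiff ℝ n (bh : XX r m p → VV r m p) := bhL.contDiff

theorem contDiff_ah : ContDiff ℝ n (ah : XX r m p → VV r m p) := ahL.contDiff

lemma contDiff_YY : ContDiff ℝ n (YY : XX r m p → Op r m p) :=
  have h := ((ContinuousLinearMap.smulRightL ℂ (VV r m p) (VV r m p)
    (ContinuousLinearMap.proj iD)).restrictScalars ℝ).contDiff.comp (contDiff_eh (n := n))
  contDiff_const.add (contDiff_cS.smul h)

section param

variable {Z : Type} [NormedAddCommGroup Z] [NormedSpace ℝ Z]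

lemma contDiff_exf {f : Z → ℂ} (hf : ContDiff ℝ n f) (e : VV r m p) :
    ContDiff ℝ n fun x => L.ex (f x • e) := ((L.contDiff_ex e).restrict_scalars ℝ).comp hf

lemma contDiff_Exf {f : Z → VV r m p} (hf : ContDiff ℝ n f) : ContDiff ℝ n fun x => L.Ex (f x) :=
  have h := (L.br.restrictScalars ℝ).contDiff.comp hf
  (contDiff_const.add h).add ((h.mul h).const_smul _)

lemma contDiff_cjop {f : Z → Op r m p} (hf : ContDiff ℝ n f) : ContDiff ℝ n fun x => cjop (f x) :=
  (cjopL (ι := Idx r m p)).contDiff.comp hf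

lemma contDiff_imop {f : Z → Op r m p} (hf : ContDiff ℝ n f) : ContDiff ℝ n fun x => imop (f x) :=
  (hf.sub (contDiff_cjop hf)).const_smul _

lemma contDiff_reop {f : Z → Op r m p} (hf : ContDiff ℝ n f) : ContDiff ℝ n fun x => reop (f x) :=
  (hf.add (contDiff_cjop hf)).const_smul _

/-- the list of exponents attached to a list of indices -/
def lsl (l : List (Fin r)) (y : Fin r → ℝ) : List (Idx r m p × ℂ) :=
  l.map fun k => (i0 k, I * y k)

lemma lst_eq (y : Fin r → ℝ) : (lst y : List (Idx r m p × ℂ)) = lsl (List.finRange r) y :=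
  List.ofFn_eq_map

lemma contDiff_lsl {f : Z → Fin r → ℝ} (hf : ContDiff ℝ n f) (l : List (Fin r)) :
    (ContDiff ℝ n fun x => L.Kop (lsl l (f x))) ∧ ContDiff ℝ n fun x => L.Top (lsl l (f x)) := by
  induction l with
  | nil => exact ⟨contDiff_const, contDiff_const⟩
  | cons k l ih =>
    have h : ContDiff ℝ n fun x => L.ex ((I * f x k) • bv (i0 k)) :=
      contDiff_exf (contDiff_const.mul (ofRealCLM.contDiff.comp (contDiff_pi.1 hf k))) _
    refine ⟨h.mul ih.1, ?_⟩
    simp only [lsl, List.map_cons, LieD.Top]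
    exact contDiff_const.add (h.mul ih.2)

end param

theorem contDiff_KK : ContDiff ℝ n (KK L) := by
  unfold KK; simp only [lst_eq]; exact (contDiff_lsl (contDiff_sg.smul contDiff_fst) _).1

theorem contDiff_TT : ContDiff ℝ n (TT L) := by
  unfold TT; simp only [lst_eq]; exact (contDiff_lsl (contDiff_sg.smul contDiff_fst) _).2

lemma contDiff_mu (w : ℤ) : ContDiff ℝ n (mu L w) :=
  contDiff_const.mul (contDiff_const.add ((contDiff_Exf contDiff_bh).mul contDiff_const))

theorem contDiff_Om : ContDiff ℝ n (Om L) :=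
  ((contDiff_const.mul contDiff_sS).smul ((contDiff_TT.mul contDiff_YY).add contDiff_const)).add
    (contDiff_KK.mul (((contDiff_mu 0).add ((contDiff_eS 1).smul (contDiff_mu 1))).add
      ((contDiff_eS (-1)).smul (contDiff_mu (-1)))))

theorem contDiff_Qh : ContDiff ℝ n (Qh L) :=
  (contDiff_sS.inv sS_ne).smul (contDiff_imop contDiff_Om)

lemma contDiff_Ki : ContDiff ℝ n (Ki L) :=
  (contDiff_sS.inv sS_ne).smul (contDiff_imop contDiff_KK)

lemma contDiff_MM : ContDiff ℝ n (MM L) :=
  (contDiff_Exf contDiff_bh).mul (contDiff_Exf contDiff_ah)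

end Pool.Agent.Lib.MP_e2ef7e_al.Gen
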