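import Pool.Agent.Lib.MP_e2ef7e_al.GeoFlat1

/-!
Flatness of the connection form.
-/

open Complex Filter Topology Set
open scoped ComplexConjugate ContDiff

noncomputable section

namespace Pool.Agent.Lib.MP_e2ef7e_al.Gen

variable {r m p : ℕ} {L : LieD (Idx r m p)}

/-- an automorphism valued function with its Maurer-Cartan form -/
structure Flat (L : LieD (Idx r m p)) (A : XX r m p → Op r m p)
    (om : XX r m p → VV r m p → VV r m p) : Prop where
  dA : ∀ x, HasD A (fun v => L.br (om x v) * A x) x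
  aut : ∀ x a b, A x (L.br a b) = L.br (A x a) (A x b)
  dom : ∀ x u, DifferentiableAt ℝ (fun y => om y u) x
  mc : ∀ x u v, Dv (fun y => om y u) x v - Dv (fun y => om y v) x u = L.br (om x v) (om x u)

variable {A B : XX r m p → Op r m p} {α β : XX r m p → VV r m p → VV r m p}

lemma Flat.congr (h : Flat L A α) (h' : ∀ x v, α x v = β x v) : Flat L A β := by
  rwa [show β = α from funext fun x => funext fun v => (h' x v).symm]

lemma Flat.one : Flat L (fun _ => 1) fun _ _ => 0 :=
  ⟨fun _ => (hasD_const _).congr' fun v => by simp, fun _ _ _ => rfl,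
    fun _ _ => differentiableAt_const _, fun x u v => by simp [(hasD_const _).eq]⟩

lemma Flat.mul (hA : Flat L A α) (hB : Flat L B β) :
    Flat L (fun x => A x * B x) fun x v => α x v + A x (β x v) := by
  have hd := fun x u => (hasD_of_diff (hA.dom x u)).add ((hA.dA x).app (hasD_of_diff (hB.dom x u)))
  refine ⟨fun x => ((hA.dA x).mul (hB.dA x)).congr' fun v => ?_, fun x a b => ?_,
    fun x u => (hd x u).diff, fun x u v => ?_⟩
  · ext1 u; simp [hA.aut]
  · simp [hA.aut, hB.aut]
  · have h1 := hA.mc x u v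
    have h2 := congrArg (A x) (hB.mc x u v)
    rw [(hd x u).eq, (hd x v).eq]
    simp only [map_sub, hA.aut, map_add, add_apply, mul_apply_eq_comp] at h2 ⊢
    rw [L.skew (A x (β x v)) (α x u), ← h1, ← h2]
    abel

lemma Flat.ex {f : XX r m p → ℂ} (hf : ContDiff ℝ 2 f) (e : VV r m p) :
    Flat L (fun x => L.ex (f x • e)) fun x v => Dv f x v • e := by
  have hd := fun x u => (hasD_Dv (x := x) hf.contDiffAt u).smul (hasD_const e)
  refine ⟨fun x => ((hasD_of_diff (hf.differentiable two_ne_zero x)).holo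
    (L.hasDerivAt_ex e (f x))).congr' fun v => ?_, fun x => L.ex_br _, fun x u => (hd x u).diff,
    fun x u v => ?_⟩
  · ext1 u; simp
  · rw [(hd x u).eq, (hd x v).eq, Dv_symm hf.contDiffAt]
    simp [L.anti]

lemma hasD_Ex (hL : Graded L) {w : ℤ} (hw : w = 1 ∨ w = -1) {g : XX r m p → VV r m p}
    {g' : VV r m p → VV r m p} {x : XX r m p} (hg : HasD g g' x) (h0 : IsW w (g x))
    (h1 : ∀ v, IsW w (g' v)) :
    HasD (fun y => L.Ex (g y)) (fun v => L.br (g' v) * L.Ex (g x)) x := by
  have h := hg.clm L.br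
  refine (((hasD_const 1).add h).add ((h.mul h).const_smul (1 / 2))).congr' fun v => ?_
  ext1 u
  simp only [Ex_apply, add_apply, smul_apply, mul_apply_eq_comp, map_add, map_smul, zero_add,
    hL.br3 hw (h1 v) h0 h0, hL.br_comm hw h0 (h1 v)]
  module

lemma Flat.Ex (hL : Graded L) {w : ℤ} (hw : w = 1 ∨ w = -1) {g : XX r m p → VV r m p}
    (hg : ∀ x, HasD g (fun v => Pw w v) x) (h0 : ∀ x, IsW w (g x)) :
    Flat L (fun x => L.Ex (g x)) fun _ v => Pw w v :=
  ⟨fun x => hasD_Ex hL hw (hg x) (h0 x) (isW_Pw w), fun x => hL.Ex_br hw (h0 x),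
    fun _ _ => differentiableAt_const _, fun x u v => by
      simp [(hasD_const _).eq, hL.br_same hw (isW_Pw w v) (isW_Pw w u)]⟩

lemma YY_apply (x : XX r m p) (v : VV r m p) : YY x v = P0 v + (cS x * v iD) • eh x := by
  simp [YY, smul_smul]

lemma hasD_yh (x : XX r m p) : HasD (fun y => sS y • eh y) (fun v => sS x • YY x v) x :=
  ((hasD_sS x).smul (hasD_eh x)).congr' fun v => by rw [YY_apply]; module

lemma flat_lsl (l : List (Fin r)) : Flat L (fun x => L.Kop (lsl l (sg x • x.1)))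
    fun x v => L.Top (lsl l (sg x • x.1)) ((I * sS x) • YY x v) := by
  induction l with
  | nil => exact Flat.one
  | cons k l ih =>
    have e : ∀ x : XX r m p, (((sg x • x.1) k : ℝ) : ℂ) = (sS x • eh x) (i0 k) := fun x => by
      simp [sS, eh, emb0_apply, i0]
    have hc : ContDiff ℝ 2 fun x : XX r m p => I * (((sg x • x.1) k : ℝ) : ℂ) :=
      contDiff_const.mul (ofRealCLM.contDiff.comp
        (contDiff_pi.1 (contDiff_sg.smul contDiff_fst) k))
    have hd : ∀ x, HasD (fun x : XX r m p => I * (((sg x • x.1) k : ℝ) : ℂ))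
        (fun v => ((I * sS x) • YY x v) (i0 k)) x := fun x => by
      simp only [e]
      exact (((hasD_yh x).clm (ContinuousLinearMap.proj (i0 k))).const_smul I).congr' fun v => by
        simp [mul_assoc]
    refine ((Flat.ex hc (bv (i0 k))).mul ih).congr fun x v => ?_
    rw [(hd x).eq]; rfl

lemma flat_KK : Flat L (KK L) fun x v => (I * sS x) • TT L x (YY x v) := by
  have := flat_lsl (L := L) (List.finRange r)
  simp only [← lst_eq, map_smul] at this
  exact this

theorem hasD_KK (x : XX r m p) :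
    HasD (KK L) (fun v => L.br ((I * sS x) • TT L x (YY x v)) * KK L x) x := flat_KK.dA x

theorem KK_br (x : XX r m p) (a b : VV r m p) :
    KK L x (L.br a b) = L.br (KK L x a) (KK L x b) := flat_KK.aut x a b

lemma ex_eig {e u : VV r m p} {c : ℂ} (h : L.br e u = c • u) (z : ℂ) :
    L.ex (z • e) u = exp (c * z) • u := by
  have hd : ∀ z : ℂ, HasDerivAt (fun z : ℂ => exp (-(c * z)) • L.ex (z • e) u) 0 z := fun z => by
    have h1 := (((hasDerivAt_id z).const_mul c).neg.cexp).smul
      ((L.hasDerivAt_ex' e z).clm_apply (hasDerivAt_const z u))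
    refine h1.congr_deriv ?_
    simp [h, smul_smul]
  have hc := is_const_of_deriv_eq_zero (fun u => (hd u).differentiableAt)
    (fun u => (hd u).deriv) z 0
  simp only [mul_zero, neg_zero, exp_zero, zero_smul, L.ex_zero, one_smul,
    one_apply_eq_self] at hc
  rw [← hc, smul_smul, ← exp_add, hc]; simp

lemma ex_sub_mem (hL : Graded L) (e u : VV r m p) (z : ℂ) : L.ex (z • e) u iD = u iD := by
  have hd : ∀ z : ℂ, HasDerivAt (fun z : ℂ => L.ex (z • e) u iD) 0 z := fun z => by
    have h1 := hasDerivAt_pi.1 ((L.hasDerivAt_ex e z).clm_apply (hasDerivAt_const z u)) iD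
    simpa [hL.noD] using h1
  have hc := is_const_of_deriv_eq_zero (fun u => (hd u).differentiableAt)
    (fun u => (hd u).deriv) z 0
  simpa [L.ex_zero] using hc

/-- operators which respect the grading -/
structure Deg0 (A : Op r m p) : Prop where
  fix : A (bv iD) = bv iD
  crd : ∀ u, A u iD = u iD
  isW : ∀ w u, IsW w u → IsW w (A u)

lemma Deg0.Pw {A : Op r m p} (h : Deg0 A) (w : ℤ) (u : VV r m p) : Pw w (A u) = A (Pw w u) := by
  have h1 : ∀ a : ℤ, Gen.Pw w (A (Gen.Pw a u)) = A (Gen.Pw w (Gen.Pw a u)) := fun a => by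
    by_cases ha : a = w
    · rw [ha, h.isW _ _ (isW_Pw w u), isW_Pw w u]
    · rw [(h.isW _ _ (isW_Pw a u)).Pw_ne ha, (isW_Pw a u).Pw_ne ha, map_zero]
  rw [← Pw_sum u]; simp only [map_add, h1]

lemma deg0_ex (hL : Graded L) {e : VV r m p} (he : IsW 0 e) (z : ℂ) : Deg0 (L.ex (z • e)) := by
  have h : L.ex (z • e) (bv iD) = bv iD := by
    simpa using ex_eig (c := 0) (by rw [hL.br_zero_D he, zero_smul]) z
  refine ⟨h, fun u => ex_sub_mem hL e u z, fun w u hu => ?_⟩
  rw [hL.isW_iff] at hu ⊢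
  conv_lhs => rw [← h, ← L.ex_br, hu, map_smul]

lemma deg0_lsl (hL : Graded L) (y : Fin r → ℝ) (l : List (Fin r)) :
    Deg0 (L.Kop (lsl l y)) ∧ ∀ u, P0 (L.Top (lsl l y) u) = L.Top (lsl l y) u := by
  induction l with
  | nil => exact ⟨⟨rfl, fun _ => rfl, fun _ _ h => h⟩, fun u => map_zero _⟩
  | cons k l ih =>
    have h := deg0_ex hL (isW_bv (i0 k)) (I * y k)
    refine ⟨⟨?_, fun u => (h.crd _).trans (ih.1.crd u), fun w u hu => h.isW _ _ (ih.1.isW _ _ hu)⟩,
      fun u => ?_⟩
    · exact (congrArg _ ih.1.fix).trans h.fix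
    · change P0 (u (i0 k) • bv (i0 k) + L.ex _ (L.Top (lsl l y) u)) =
        u (i0 k) • bv (i0 k) + L.ex _ (L.Top (lsl l y) u)
      rw [← ih.2 u]
      refine P0_of (((isW_bv (i0 k)).smul _).add (h.isW _ _ (isW_P0 _))) ?_
      rw [Pi.add_apply, h.crd, P0_iD]; simp [bv, i0, iD]

lemma deg0_KK (hL : Graded L) (x : XX r m p) : Deg0 (KK L x) := by
  rw [KK, lst_eq]; exact (deg0_lsl hL _ _).1

theorem KK_Pw (hL : Graded L) (w : ℤ) (x : XX r m p) (u : VV r m p) :
    Pw w (KK L x u) = KK L x (Pw w u) := (deg0_KK hL x).Pw w u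

theorem KK_D (hL : Graded L) (x : XX r m p) : KK L x (bv iD) = bv iD := (deg0_KK hL x).fix

theorem KK_iD (hL : Graded L) (x : XX r m p) (u : VV r m p) : KK L x u iD = u iD :=
  (deg0_KK hL x).crd u

theorem P0_TT (hL : Graded L) (x : XX r m p) (u : VV r m p) : P0 (TT L x u) = TT L x u := by
  rw [TT, lst_eq]; exact (deg0_lsl hL _ _).2 u

theorem Rot_apply (hL : Graded L) {w : ℤ} (x : XX r m p) {u : VV r m p} (hu : IsW w u) :
    Rot L x u = eS w x • u := ex_eig (hL.isW_iff.1 hu) _

lemma Om_apply (x : XX r m p) (v : VV r m p) : Om L x v =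
    (I * sS x) • TT L x (YY x v) + (I * sS x * v iD) • bv iD +
      KK L x (mu L 0 x v + eS 1 x • mu L 1 x v + eS (-1) x • mu L (-1) x v) := by
  simp [Om, smul_smul]

lemma mu_apply (w : ℤ) (x : XX r m p) (v : VV r m p) :
    mu L w x v = Pw w (Pw (-1) v + L.Ex (bh x) (Pw 1 v)) := rfl

lemma isW_mu (w : ℤ) (x : XX r m p) (v : VV r m p) : IsW w (mu L w x v) := isW_Pw _ _

lemma flat_AA (hL : Graded L) : Flat L (AA L) fun x v => Om L x v := by
  have h1 : ContDiff ℝ 2 fun x : XX r m p => (sR x * I : ℂ) :=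
    (ofRealCLM.contDiff.comp contDiff_sR).mul contDiff_const
  have h2 : ∀ x : XX r m p, HasD (fun x : XX r m p => (sR x * I : ℂ))
      (fun v => I * sS x * v iD) x := fun x =>
    ((hasD_sR x).smul (hasD_const I)).congr' fun v => by simp; ring
  refine (flat_KK.mul ((Flat.ex h1 (bv iD)).mul
    ((Flat.Ex hL (Or.inr rfl) hasD_bh fun x => isW_embm _).mul
      (Flat.Ex hL (Or.inl rfl) hasD_ah fun x => isW_embp _)))).congr fun x v => ?_
  rw [(h2 x).eq, Om_apply, map_add, map_smul, KK_D hL, add_assoc]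
  congr 3
  conv_lhs => rw [← Pw_sum (Pw (-1) v + L.Ex (bh x) (Pw 1 v))]
  change Rot L x (mu L 1 x v + mu L 0 x v + mu L (-1) x v) = _
  simp only [map_add, Rot_apply hL x (isW_mu _ x v), eS_zero, one_smul]
  abel

theorem hasD_AA (hL : Graded L) (x : XX r m p) :
    HasD (AA L) (fun v => L.br (Om L x v) * AA L x) x := (flat_AA hL).dA x

theorem AA_br (hL : Graded L) (x : XX r m p) (a b : VV r m p) :
    AA L x (L.br a b) = L.br (AA L x a) (AA L x b) := (flat_AA hL).aut x a b

theorem Om_mc (hL : Graded L) (x : XX r m p) (u v : VV r m p) :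
    Dv (Om L) x v u - Dv (Om L) x u v = L.br (Om L x v) (Om L x u) := by
  have h := hasD_of_diff ((contDiff_Om (L := L) (n := 1)).differentiable one_ne_zero x)
  rw [← (flat_AA hL).mc, (h.app_const u).eq, (h.app_const v).eq]

end Pool.Agent.Lib.MP_e2ef7e_al.Gen
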