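import Pool.Agent.Lib.MP_e2ef7e_al.GeoFlat
import Pool.Agent.Lib.MP_e2ef7e_al.GeoTay

/-!
The Levi flat coordinates: pointwise facts.
-/

open Complex Filter Topology Set Asymptotics
open scoped ComplexConjugate ContDiff

noncomputable section

namespace Pool.Agent.Lib.MP_e2ef7e_al.Gen.Leaf

variable {r m p : ℕ} {L : LieD (Idx r m p)}

lemma cjop_mul (A B : Op r m p) : cjop (A * B) = cjop A * cjop B := cjopR.map_mul A B

lemma cjop_add (A B : Op r m p) : cjop (A + B) = cjop A + cjop B := cjopR.map_add A B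

lemma cjop_sub (A B : Op r m p) : cjop (A - B) = cjop A - cjop B := cjopR.map_sub A B

lemma cjop_one : cjop (1 : Op r m p) = 1 := cjopR.map_one

lemma cjop_smul (c : ℂ) (A : Op r m p) : cjop (c • A) = conj c • cjop A := by
  ext1 u; simp

lemma cjop_cjop (A : Op r m p) : cjop (cjop A) = A := by ext1 u; simp

lemma cjop_Pw (w : ℤ) : cjop (Pw w : Op r m p) = Pw w := by ext1 u; simp [star_Pw]

lemma star_real {A : Op r m p} (h : cjop A = A) (u : VV r m p) : star (A u) = A (star u) := by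
  conv_rhs => rw [← h]
  simp

lemma cjop_reop (A : Op r m p) : cjop (reop A) = reop A := by
  rw [reop, cjop_smul, cjop_add, cjop_cjop, add_comm]; simp [map_ofNat]

lemma cjop_imop (A : Op r m p) : cjop (imop A) = imop A := by
  rw [imop, cjop_smul, cjop_sub, cjop_cjop, ← neg_sub A, smul_neg, ← neg_smul]
  congr 1; simp [neg_div, map_ofNat]

lemma conj_eS (w : ℤ) (x : XX r m p) : conj (eS w x) = eS (-w) x := by
  simp [eS, ← exp_conj]

lemma eS_mul (w : ℤ) (x : XX r m p) : eS w x * eS (-w) x = 1 := by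
  simp [eS, ← Complex.exp_add]

lemma conj_sS (x : XX r m p) : conj (sS x) = sS x := conj_ofReal _

lemma conj_cS (x : XX r m p) : conj (cS x) = cS x := conj_ofReal _

lemma sS_ne (x : XX r m p) : sS x ≠ 0 := ofReal_ne_zero.2 (sg_pos x).ne'

lemma cjop_Ki (x : XX r m p) : cjop (Ki L x) = Ki L x := by
  rw [Ki, cjop_smul, cjop_imop, map_inv₀, conj_sS]

lemma Rot_eq (hL : Graded L) (x : XX r m p) :
    Rot L x = Pw 0 + eS 1 x • Pw 1 + eS (-1) x • Pw (-1) := by
  ext1 u
  conv_lhs => rw [← Pw_sum u]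
  simp only [map_add, Rot_apply hL x (isW_Pw _ u), add_apply, smul_apply]
  rw [show eS 0 x = 1 by simp [eS], one_smul]; abel

lemma Rot_Pw (hL : Graded L) (w : ℤ) (x : XX r m p) (u : VV r m p) :
    Pw w (Rot L x u) = Rot L x (Pw w u) := by
  rw [Rot_eq hL]; ext i
  simp only [add_apply, smul_apply, Pi.add_apply, Pi.smul_apply, Pw_apply]
  split_ifs <;> simp

lemma Rot_sub (hL : Graded L) (x : XX r m p) :
    Rot L x - cjop (Rot L x) = (2 * I * sS x) • (Pw 1 - Pw (-1)) := by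
  rw [Rot_eq hL]
  simp only [cjop_add, cjop_smul, cjop_Pw, conj_eS, neg_neg]
  rw [eS_eq (Or.inl rfl), eS_eq (Or.inr rfl)]
  push_cast
  module

lemma star_bh (x : XX r m p) : star (bh x) = bh x := star_embm _

lemma star_ah (x : XX r m p) : star (ah x) = ah x := star_embp _

lemma cjop_MM (x : XX r m p) : cjop (MM L x) = MM L x := by
  rw [MM, cjop_mul, cjop_Ex, cjop_Ex, star_bh, star_ah]

lemma MM_D (hL : Graded L) (x : XX r m p) : Pw (-1) (MM L x (bv iD)) =
    bh x - (1 / 2 : ℂ) • L.br (bh x) (L.br (bh x) (ah x)) := by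
  have hb : IsW (-1) (bh x) := isW_embm _
  have ha : IsW 1 (ah x) := isW_embp _
  have h0 : IsW 0 (L.br (bh x) (ah x)) := by simpa using hL.br hb ha
  have h1 : IsW (-1) (L.br (bh x) (L.br (bh x) (ah x))) := by simpa using hL.br hb h0
  simp only [MM, mul_apply_eq_comp, Ex_apply, hL.br_W_D ha, hL.br_W_D hb, map_add, map_neg,
    map_smul, L.anti, Int.cast_one, one_smul, Int.cast_neg, neg_smul, neg_neg, neg_zero,
    smul_zero, add_zero, zero_add, hb.Pw_self, h1.Pw_self, ha.Pw_ne (show (1 : ℤ) ≠ -1 by omega),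
    h0.Pw_ne (show (0 : ℤ) ≠ -1 by omega),
    (show IsW 0 (bv iD) from isW_bv iD).Pw_ne (show (0 : ℤ) ≠ -1 by omega)]
  module

lemma BB_cm {x : XX r m p} (h : IsUnit (BB L x)) :
    BB L x (cm L x) = Pw (-1) (MM L x (bv iD)) := by
  rw [cm, ← mul_apply_eq_comp, Ring.mul_inverse_cancel _ h, one_apply_eq_self]

lemma isW_cm {x : XX r m p} (h : IsUnit (BB L x)) : IsW (-1) (cm L x) := by
  have h1 := BB_cm h
  have h2 := congrArg (Pw (-1)) h1
  rw [(isW_Pw _ _).Pw_self, ← h1] at h2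
  simp only [BB, add_apply, mul_apply_eq_comp, sub_apply, one_apply_eq_self, map_add, map_sub,
    (isW_Pw _ _).Pw_self, sub_self, add_right_inj] at h2
  exact (sub_eq_zero.1 h2.symm).symm

lemma star_cm {x : XX r m p} (h : IsUnit (BB L x)) : star (cm L x) = cm L x := by
  have h1 : cjop (BB L x) = BB L x := by
    simp only [BB, cjop_add, cjop_mul, cjop_sub, cjop_one, cjop_Pw, cjop_MM]
  have h2 : BB L x (star (cm L x)) = BB L x (cm L x) := by
    rw [← star_real h1, BB_cm h, star_Pw, star_real (cjop_MM x), star_bv]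
  have := congrArg (Ring.inverse (BB L x) : Op r m p) h2
  rwa [← mul_apply_eq_comp, ← mul_apply_eq_comp, Ring.inverse_mul_cancel _ h] at this

lemma contDiff_Ex {n : WithTop ℕ∞} : ContDiff ℝ n L.Ex := by
  have h : ContDiff ℝ n fun y => L.br y := (L.br.restrictScalars ℝ).contDiff
  exact (contDiff_const.add h).add ((h.mul h).const_smul _)

lemma contDiff_MM {n : WithTop ℕ∞} : ContDiff ℝ n (MM L) :=
  (contDiff_Ex.comp contDiff_bh).mul (contDiff_Ex.comp contDiff_ah)

lemma contDiffAt_cm {x : XX r m p} (h : IsUnit (BB L x)) : ContDiffAt ℝ ω (cm L) x := by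
  have h1 : ContDiff ℝ ω (BB L) :=
    ((contDiff_const.mul contDiff_MM).mul contDiff_const).add contDiff_const
  obtain ⟨u, hu⟩ := h
  have h2 : ContDiffAt ℝ ω (fun y => Ring.inverse (BB L y)) x :=
    ContDiffAt.comp x (g := Ring.inverse) (hu ▸ contDiffAt_ringInverse ℝ u) h1.contDiffAt
  have h3 : ContDiff ℝ ω fun y => Pw (-1) (MM L y (bv iD)) :=
    ((Pw (-1)).restrictScalars ℝ).contDiff.comp
      (((ContinuousLinearMap.apply ℂ _ (bv iD)).restrictScalars ℝ).contDiff.comp contDiff_MM)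
  exact (((ContinuousLinearMap.id ℂ (Op r m p)).isBoundedBilinearMap.contDiff.restrict_scalars
    ℝ).contDiffAt).comp x (h2.prodMk h3.contDiffAt)

lemma norm_cjop_le (A : Op r m p) : ‖cjop A‖ ≤ ‖A‖ :=
  ContinuousLinearMap.opNorm_le_bound _ (norm_nonneg _) fun u => by
    simpa using A.le_opNorm (star u)

lemma norm_Pw_op (w : ℤ) : ‖(Pw w : Op r m p)‖ ≤ 1 :=
  ContinuousLinearMap.opNorm_le_bound _ zero_le_one fun u => by simpa using norm_Pw_le w u

lemma tendsto_lat : Tendsto (fun x : XX r m p => (x.1, x.2.1, x.2.2.2)) (LL r m p) (𝓝 0) :=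
  tendsto_comap

lemma tendsto_eta : Tendsto (fun x : XX r m p => ‖x.1‖) (LL r m p) (𝓝 0) :=
  ((continuous_fst.tendsto 0).comp tendsto_lat).norm.trans (by simp)

lemma tendsto_bh : Tendsto bh (LL r m p) (𝓝 0) := by
  rw [tendsto_zero_iff_norm_tendsto_zero]
  simp only [bh, norm_embm]
  exact ((continuous_snd.fst.tendsto 0).comp tendsto_lat).norm.trans (by simp)

lemma tendsto_ah : Tendsto ah (LL r m p) (𝓝 0) := by
  rw [tendsto_zero_iff_norm_tendsto_zero]
  simp only [ah, norm_embp]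
  exact ((continuous_snd.snd.tendsto 0).comp tendsto_lat).norm.trans (by simp)

lemma tendsto_Ex {f : XX r m p → VV r m p} (h : Tendsto f (LL r m p) (𝓝 0)) :
    Tendsto (fun x => L.Ex (f x)) (LL r m p) (𝓝 1) := by
  rw [← Ex_zero L]; exact ((contDiff_Ex (L := L) (n := 0)).continuous.tendsto 0).comp h

lemma tendsto_MM : Tendsto (MM L) (LL r m p) (𝓝 1) := by
  rw [← mul_one 1]; exact (tendsto_Ex (L := L) tendsto_bh).mul (tendsto_Ex tendsto_ah)

lemma tendsto_BB : Tendsto (BB L) (LL r m p) (𝓝 1) := by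
  have h := (((tendsto_MM (L := L)).const_mul (Pw (-1))).mul_const (Pw (-1))).add_const
    (1 - Pw (-1))
  have e : (Pw (-1) * 1 * Pw (-1) + (1 - Pw (-1)) : Op r m p) = 1 := by
    ext1 u; simp [(isW_Pw _ _).Pw_self]
  rwa [e] at h

lemma ev_unit {α : Type} {l : Filter α} {A : α → Op r m p} (h : Tendsto A l (𝓝 1)) :
    ∀ᶠ x in l, IsUnit (A x) := h.eventually (Units.isOpen.mem_nhds isUnit_one)

lemma ev_small {α : Type} {l : Filter α} {A : α → Op r m p} {B : Op r m p}
    (h : Tendsto A l (𝓝 B)) {ε : ℝ} (hε : 0 < ε) : ∀ᶠ x in l, ‖A x - B‖ < ε := by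
  simpa only [dist_eq_norm] using Metric.tendsto_nhds.1 h ε hε

lemma ev_lower {α : Type} {l : Filter α} {A : α → Op r m p} {B : Op r m p}
    (h : Tendsto A l (𝓝 B)) : ∀ᶠ x in l, ∀ z, ‖z‖ ≤ ‖B z‖ → ‖z‖ ≤ 2 * ‖A x z‖ :=
  (ev_small h one_half_pos).mono fun x hx z hz => by
    have h1 := (A x - B).le_opNorm z
    have h2 : ‖B z‖ ≤ ‖A x z‖ + ‖(A x - B) z‖ := by
      simpa using norm_sub_le (A x z) ((A x - B) z)
    nlinarith [norm_nonneg z]

lemma bigO_br {α : Type} {l : Filter α} {f g : α → VV r m p} {F G : α → ℝ} (hf : f =O[l] F)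
    (hg : g =O[l] G) : (fun z => L.br (f z) (g z)) =O[l] fun z => F z * G z :=
  (IsBigO.of_bound ‖L.br‖ (Eventually.of_forall fun z => by
    simpa [mul_assoc] using L.br.le_opNorm₂ (f z) (g z))).trans (hf.norm_left.mul hg.norm_left)

lemma bigO_app {α : Type} {l : Filter α} {A : α → Op r m p} {g : α → VV r m p} {F G : α → ℝ}
    (hA : A =O[l] F) (hg : g =O[l] G) : (fun z => A z (g z)) =O[l] fun z => F z * G z :=
  (IsBigO.of_norm_le fun z => (A z).le_opNorm (g z)).trans (hA.norm_left.mul hg.norm_left)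

lemma bigO_app1 {α : Type} {l : Filter α} {A : α → Op r m p} {g : α → VV r m p} {G : α → ℝ}
    (hA : A =O[l] fun _ => (1 : ℝ)) (hg : g =O[l] G) : (fun z => A z (g z)) =O[l] G := by
  simpa using bigO_app hA hg

lemma bigO_lower {α : Type} {l : Filter α} {f g : α → VV r m p}
    (h : ∀ᶠ z in l, ‖f z‖ ≤ 2 * ‖g z‖) : f =O[l] g := IsBigO.of_bound 2 h

lemma bigO_self {α : Type} {l : Filter α} (f : α → VV r m p) : f =O[l] fun x => ‖f x‖ :=
  IsBigO.of_norm_le fun _ => le_rfl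

lemma cm_bigO (hL : Graded L) : cm L =O[LL r m p] bh ∧ bh =O[LL r m p] cm L := by
  have h1 : (fun x => (1 / 2 : ℂ) • L.br (bh x) (L.br (bh x) (ah x))) =o[LL r m p] bh := by
    have h2 := bigO_br (L := L) (l := LL r m p) (bigO_self bh)
      (bigO_br (L := L) (bigO_self bh) (bigO_self ah))
    have h3 : (fun x => ‖bh x‖ * ‖ah x‖) =o[LL r m p] fun _ => (1 : ℝ) :=
      (isLittleO_one_iff ℝ).2 (by simpa using tendsto_bh.norm.mul tendsto_ah.norm)
    have h5 := h2.trans_isLittleO ((isBigO_refl (fun x => ‖bh x‖) _).mul_isLittleO h3)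
    simp only [mul_one, isLittleO_norm_right] at h5
    exact h5.const_smul_left (1 / 2 : ℂ)
  have h4 : (fun x => BB L x (cm L x)) =ᶠ[LL r m p]
      fun x => bh x - (1 / 2 : ℂ) • L.br (bh x) (L.br (bh x) (ah x)) :=
    (ev_unit tendsto_BB).mono fun x hx => (BB_cm hx).trans (MM_D hL x)
  constructor
  · exact (bigO_lower ((ev_lower tendsto_BB).mono fun x hx => hx _ le_rfl)).trans
      (h4.trans_isBigO ((isBigO_refl _ _).sub h1.isBigO))
  · exact (h1.right_isBigO_sub.trans h4.symm.isBigO).trans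
      (bigO_app1 ((tendsto_BB (L := L)).isBigO_one ℝ) (bigO_self (cm L))).of_norm_right

lemma tendsto_cc (hL : Graded L) (w : ℤ) : Tendsto (cc L w) (LL r m p) (𝓝 0) := by
  unfold cc; split_ifs
  · exact tendsto_ah
  · exact (cm_bigO hL).1.trans_tendsto tendsto_bh

variable (L) in
/-- the real part of the normalised frame -/
def NR (w : ℤ) (x : XX r m p) : Op r m p := MM L x * L.Ex (-cc L w x)

variable (L) in
/-- the normalised frame -/
def NT (w : ℤ) (x : XX r m p) : Op r m p := AA L x * L.Ex (-cc L w x)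

variable (L) in
/-- the rescaled imaginary part of the normalised frame -/
def NH (w : ℤ) (x : XX r m p) : Op r m p :=
  (Ki L x * Rot L x + cjop (KK L x) * (Pw 1 - Pw (-1))) * NR L w x

lemma NT_eq (w : ℤ) (x : XX r m p) : NT L w x = KK L x * (Rot L x * NR L w x) := by
  simp only [NT, NR, AA, mul_assoc]

lemma imop_NT (hL : Graded L) {w : ℤ} {x : XX r m p} (h : star (cc L w x) = cc L w x) :
    imop (NT L w x) = sS x • NH L w x := by
  have h1 : cjop (NR L w x) = NR L w x := by rw [NR, cjop_mul, cjop_MM, cjop_Ex, star_neg, h]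
  have h2 : KK L x = cjop (KK L x) + (2 * I * sS x) • Ki L x := by
    rw [cjop_KK_eq]; conv_lhs => rw [KK_eq]
    module
  have h3 := eq_sub_of_add_eq (add_eq_of_eq_sub' (Rot_sub hL x).symm)
  rw [imop, NT_eq, cjop_mul, cjop_mul, h1, NH, h3]
  generalize cjop (KK L x) = K at h2
  rw [h2]
  ext1 u
  simp only [mul_apply_eq_comp, add_apply, sub_apply, smul_apply, map_sub, map_smul]
  match_scalars <;> ring_nf <;> simp

lemma lam_eq (hL : Graded L) {w : ℤ} (hw : w = 1 ∨ w = -1) {N : Op r m p}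
    (hN : ∀ a b, N (L.br a b) = L.br (N a) (N b)) (hs : Function.Surjective N)
    (h0 : Pw w (N (bv iD)) = 0) (hz : ‖L.br (Pw 0 (N (bv iD)) - bv iD)‖ < 1) {y : VV r m p}
    (hy : IsW w y) : L.br (Pw 0 (N (bv iD))) y = (w : ℂ) • y := by
  set Z := L.br (Pw 0 (N (bv iD)) - bv iD) with hZ
  have hw2 : (w : ℂ) * w = 1 := by rcases hw with rfl | rfl <;> simp
  have h1 : ∀ u, Pw w (L.br (N (bv iD)) u) = (w : ℂ) • Pw w u + Z (Pw w u) := fun u => by
    rw [hL.Pw_br hw, h0, hZ, ← hL.isW_iff.1 (isW_Pw w u)]; simp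
  have h2 : L.br (N (bv iD)) (L.br (N (bv iD)) (L.br (N (bv iD)) y)) = L.br (N (bv iD)) y := by
    obtain ⟨u, rfl⟩ := hs y
    rw [← hN, ← hN, ← hN]
    congr 1; ext i
    rcases wt_cases i with h | h | h <;> simp [hL.br_D, h]
  have h3 := congrArg (Pw w) h2
  simp only [h1, hy.Pw_self, map_add, map_smul] at h3
  have inj : ∀ (c : ℂ) (u : VV r m p), 1 ≤ ‖c‖ → c • u + Z u = 0 → u = 0 := fun c u hc h => by
    have h4 := Z.le_opNorm u
    rw [← neg_eq_iff_add_eq_zero] at h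
    rw [← h, norm_neg, norm_smul] at h4
    by_contra hu
    nlinarith [norm_pos_iff.2 hu]
  have hn : ‖(w : ℂ)‖ = 1 := by rcases hw with rfl | rfl <;> simp
  have h5 : Z y = 0 := by
    refine inj (2 * w) _ (by rw [norm_mul, hn]; simp) (inj w _ hn.ge ?_)
    simp only [map_add, map_smul]
    linear_combination (norm := module) h3 - hw2 • ((w : ℂ) • y + Z y)
  have h6 := hL.isW_iff.1 hy
  rw [← h6, ← sub_eq_zero, ← sub_apply, ← map_sub]; exact h5

lemma surj_of_mul {A B : Op r m p} (h : A * B = 1) : Function.Surjective A := fun u =>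
  ⟨B u, by rw [← mul_apply_eq_comp, h, one_apply_eq_self]⟩

lemma bigO_eta {F : Type} [NormedAddCommGroup F] {f : XX r m p → F} {g : XX r m p → ℝ} {C : ℝ}
    (h : ∀ x : XX r m p, ‖x.1‖ ≤ 1 → ‖f x‖ ≤ C * g x) : f =O[LL r m p] g :=
  IsBigO.of_bound |C| ((tendsto_eta.eventually (eventually_le_nhds one_pos)).mono fun x hx =>
    (h x hx).trans ((le_abs_self _).trans_eq (abs_mul _ _)))

lemma tendsto_KK : Tendsto (KK L) (LL r m p) (𝓝 1) := by
  obtain ⟨C, h⟩ := taylor L
  exact tendsto_sub_nhds_zero_iff.1 ((bigO_eta fun x hx => (h x hx).1).trans_tendsto tendsto_eta)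

lemma tendsto_cKK : Tendsto (fun x => cjop (KK L x)) (LL r m p) (𝓝 1) := by
  rw [← cjop_one]; exact (cjopL.continuous.tendsto 1).comp tendsto_KK

lemma bigO_Ki : Ki L =O[LL r m p] fun x => ‖x.1‖ := by
  obtain ⟨C, h⟩ := taylor L
  exact bigO_eta fun x hx => (h x hx).2.1

lemma bigO_cjop {α : Type} {l : Filter α} {A : α → Op r m p} {g : α → ℝ} (h : A =O[l] g) :
    (fun x => cjop (A x)) =O[l] g := (IsBigO.of_norm_le fun _ => norm_cjop_le _).trans h.norm_left

lemma bigO_reop {α : Type} {l : Filter α} {A : α → Op r m p} {g : α → ℝ} (h : A =O[l] g) :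
    (fun x => reop (A x)) =O[l] g := (h.add (bigO_cjop h)).const_smul_left (1 / 2 : ℂ)

lemma bigO_TT : TT L =O[LL r m p] fun _ => (1 : ℝ) := by
  obtain ⟨C, h⟩ := taylor L
  exact (tendsto_sub_nhds_zero_iff.1
    ((bigO_eta fun x hx => (h x hx).2.2.1).trans_tendsto tendsto_eta)).isBigO_one ℝ

lemma bigO_E : (fun x => L.br (reop (TT L x) (eh x)) * KK L x - Ki L x) =O[LL r m p]
    fun x => sg x * ‖x.1‖ ^ 2 := by
  obtain ⟨C, h⟩ := taylor L
  exact bigO_eta fun x hx => (h x hx).2.2.2.2.1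

lemma bigO_Rot (hL : Graded L) : Rot L =O[LL r m p] fun _ => (1 : ℝ) :=
  IsBigO.of_bound 3 (Eventually.of_forall fun x => by
    rw [Rot_eq hL]
    refine (norm_add₃_le).trans ?_
    simp only [norm_smul, norm_eS, norm_one]
    linarith [norm_Pw_op (r := r) (m := m) (p := p) 0, norm_Pw_op (r := r) (m := m) (p := p) 1,
      norm_Pw_op (r := r) (m := m) (p := p) (-1)])

lemma tendsto_NR (hL : Graded L) (w : ℤ) : Tendsto (NR L w) (LL r m p) (𝓝 1) := by
  rw [← mul_one 1]
  exact tendsto_MM.mul (tendsto_Ex (by simpa using (tendsto_cc hL w).neg))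

lemma bigO_NT (hL : Graded L) (w : ℤ) : NT L w =O[LL r m p] fun _ => (1 : ℝ) := by
  have h := ((tendsto_KK (L := L)).isBigO_one ℝ).mul
    ((bigO_Rot hL).mul ((tendsto_NR hL w).isBigO_one ℝ))
  simpa only [← NT_eq, mul_one] using h

lemma tendsto_NH (hL : Graded L) (w : ℤ) : Tendsto (NH L w) (LL r m p) (𝓝 (Pw 1 - Pw (-1))) := by
  have h1 : Tendsto (fun x => Ki L x * Rot L x) (LL r m p) (𝓝 0) :=
    (bigO_Ki.mul (bigO_Rot hL)).trans_tendsto (by simpa using tendsto_eta)
  have h := (h1.add ((tendsto_cKK (L := L)).mul_const (Pw 1 - Pw (-1)))).mul (tendsto_NR hL w)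
  rwa [zero_add, one_mul, mul_one] at h

lemma tendsto_zeta (hL : Graded L) (w : ℤ) :
    Tendsto (fun x => L.br (Pw 0 (NT L w x (bv iD)) - bv iD)) (LL r m p) (𝓝 0) := by
  have e : ∀ x, Pw 0 (NT L w x (bv iD)) = (KK L x * (Pw 0 * NR L w x) : Op r m p) (bv iD) :=
      fun x => by
    simp only [NT_eq, mul_apply_eq_comp, KK_Pw hL, Rot_Pw hL, Rot_apply hL x (isW_Pw 0 _)]
    rw [show eS 0 x = 1 by simp [eS], one_smul]
  have h := ((ContinuousLinearMap.apply ℂ _ (bv iD)).continuous.tendsto _).comp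
    ((tendsto_KK (L := L)).mul ((tendsto_NR hL w).const_mul (Pw 0)))
  have h2 := (L.br.continuous.tendsto _).comp (h.sub_const (bv iD))
  simp only [one_mul, mul_one, ContinuousLinearMap.apply_apply,
    (show Pw 0 (bv iD) = bv iD from isW_bv iD), sub_self, map_zero] at h2
  simp only [e]
  exact h2

variable (L) in
/-- the pointwise properties of the flat coordinate -/
structure Gd (w : ℤ) (x : XX r m p) : Prop where
  an : ContDiffAt ℝ ω (cc L w) x
  isW : IsW w (cc L w x)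
  real : star (cc L w x) = cc L w x
  zero : Pw w (NT L w x (bv iD)) = 0
  lam : ∀ y, IsW w y → L.br (Pw 0 (NT L w x (bv iD))) y = (w : ℂ) • y

lemma ev_Gd (hL : Graded L) {w : ℤ} (hw : w = 1 ∨ w = -1) : ∀ᶠ x in LL r m p, Gd L w x := by
  filter_upwards [ev_unit (tendsto_BB (L := L)), ev_unit (tendsto_KK (L := L)),
    ev_unit (tendsto_NR hL w),
    (tendsto_zeta hL w).norm.eventually (eventually_lt_nhds (by simp : ‖(0 : Op r m p)‖ < 1))]
    with x hB hK hN hz
  have hb : IsW (-1) (bh x) := isW_embm _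
  have ha : IsW 1 (ah x) := isW_embp _
  have h : ContDiffAt ℝ ω (cc L w) x ∧ IsW w (cc L w x) ∧ star (cc L w x) = cc L w x ∧
      Pw w (NR L w x (bv iD)) = 0 := by
    rcases hw with rfl | rfl
    · have e : cc L 1 = ah := by funext y; simp [cc]
      refine ⟨e ▸ contDiff_ah.contDiffAt, e ▸ ha, e ▸ star_ah x, ?_⟩
      rw [NR, MM, e, mul_assoc, hL.Ex_neg (Or.inl rfl) ha, mul_one, Ex_apply, hL.br_W_D hb]
      simp [L.anti, hb.Pw_ne, (show IsW 0 (bv iD) from isW_bv iD).Pw_ne]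
    · have e : cc L (-1) = cm L := by funext y; simp [cc]
      have hc := isW_cm hB
      refine ⟨e ▸ contDiffAt_cm hB, e ▸ hc, e ▸ star_cm hB, ?_⟩
      have h1 := BB_cm hB
      rw [NR, e, mul_apply_eq_comp, Ex_apply, hL.br_W_D hc.neg]
      simp only [BB, add_apply, mul_apply_eq_comp, sub_apply, one_apply_eq_self, hc.Pw_self,
        sub_self, add_zero] at h1
      simp [L.anti, h1]
  have h0 : Pw w (NT L w x (bv iD)) = 0 := by
    simp only [NT_eq, mul_apply_eq_comp, KK_Pw hL, Rot_Pw hL, h.2.2.2, map_zero]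
  refine ⟨h.1, h.2.1, h.2.2.1, h0, fun y hy => lam_eq hL hw (fun a b => ?_) ?_ h0 hz hy⟩
  · simp only [NT, mul_apply_eq_comp, hL.Ex_br hw h.2.1.neg, AA_br hL]
  · rw [NT_eq]
    exact (surj_of_mul (Ring.mul_inverse_cancel _ hK)).comp
      ((surj_of_mul (L.ex_smul_neg_mul _ _)).comp (surj_of_mul (Ring.mul_inverse_cancel _ hN)))

end Pool.Agent.Lib.MP_e2ef7e_al.Gen.Leaf
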