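import Pool.Agent.Lib.MP_e2ef7e_al.GeoGood
import Pool.Agent.Lib.MP_e2ef7e_al.GeoLeafA

/-!
The Levi flat coordinates.
-/

open Complex Filter Topology Set Asymptotics
open scoped ComplexConjugate ContDiff

noncomputable section

namespace Pool.Agent.Lib.MP_e2ef7e_al.Gen

variable {r m p : ℕ} {L : LieD (Idx r m p)}

namespace Leaf

variable {w : ℤ} {x : XX r m p}

lemma hasD_cc (h : Gd L w x) : HasD (cc L w) (Dv (cc L w) x) x :=
  hasD_of_diff (h.an.differentiableAt (by simp))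

lemma gam_isW (h : ∀ᶠ y in 𝓝 x, Gd L w y) (v : VV r m p) : IsW w (Dv (cc L w) x v) :=
  (((hasD_cc h.self_of_nhds).clm (Pw w)).congr (h.mono fun _ hy => hy.isW.symm)).unique
    (hasD_cc h.self_of_nhds) v

lemma gam_star (h : ∀ᶠ y in 𝓝 x, Gd L w y) (v : VV r m p) :
    Dv (cc L w) x (star v) = star (Dv (cc L w) x v) := by
  simpa using (hasD_cc h.self_of_nhds).unique
    ((hasD_cc h.self_of_nhds).star.congr (h.mono fun _ hy => hy.real.symm)) (star v)

lemma hasD_NT (hL : Graded L) (hw : w = 1 ∨ w = -1) (h : ∀ᶠ y in 𝓝 x, Gd L w y) :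
    HasD (NT L w) (fun v => L.br (Om L x v) * NT L w x - NT L w x * L.br (Dv (cc L w) x v)) x := by
  have h1 := (hasD_cc h.self_of_nhds).neg.clm L.br
  refine ((hasD_AA hL x).mul (((hasD_const 1).add h1).add
    ((h1.mul h1).const_smul (1 / 2)))).congr' fun v => ?_
  have hc := h.self_of_nhds.isW
  ext1 u
  simp only [NT, mul_apply_eq_comp, Ex_apply, add_apply, sub_apply, smul_apply, map_neg, neg_apply,
    one_apply_eq_self, zero_add, hL.br3 hw hc hc (gam_isW h v), hL.br_comm hw (gam_isW h v) hc u,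
    map_add, map_smul, map_zero, neg_neg]
  module

lemma first (hL : Graded L) (hw : w = 1 ∨ w = -1) (h : ∀ᶠ y in 𝓝 x, Gd L w y) (v : VV r m p) :
    Pw w (NT L w x (Dv (cc L w) x v)) = Pw w (Om L x v) := by
  have h1 := (((hasD_NT hL hw h).app_const (bv iD)).clm (Pw w)).unique
    ((hasD_const 0).congr (h.mono fun _ hy => hy.zero)) v
  simp only [sub_apply, mul_apply_eq_comp, map_sub, hL.Pw_br hw, h.self_of_nhds.zero,
    hL.br_W_D (gam_isW h v), map_neg, map_smul, map_zero, zero_add] at h1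
  rw [L.skew, h.self_of_nhds.lam _ (isW_Pw _ _)] at h1
  have hw2 : (w : ℂ) * w = 1 := by rcases hw with rfl | rfl <;> simp
  linear_combination (norm := module) (w : ℂ) • h1 -
    hw2 • (Pw w (NT L w x (Dv (cc L w) x v)) - Pw w (Om L x v))

lemma first_bar (hL : Graded L) (hw : w = 1 ∨ w = -1) (h : ∀ᶠ y in 𝓝 x, Gd L w y)
    (v : VV r m p) : Pw w (cjop (NT L w x) (Dv (cc L w) x v)) = Pw w (cjop (Om L x) v) := by
  rw [cjop_apply, cjop_apply, ← star_Pw, ← star_Pw, ← gam_star h, first hL hw h]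

lemma first_im (hL : Graded L) (hw : w = 1 ∨ w = -1) (h : ∀ᶠ y in 𝓝 x, Gd L w y)
    (v : VV r m p) : Pw w (imop (NT L w x) (Dv (cc L w) x v)) = Pw w (imop (Om L x) v) := by
  simp only [imop, smul_apply, sub_apply, map_smul, map_sub, first hL hw h, first_bar hL hw h]

lemma imop_Om (x : XX r m p) : imop (Om L x) = sS x • Qh L x := by
  rw [Qh, smul_inv_smul₀ (sS_ne x)]

lemma first_Qh (hL : Graded L) (hw : w = 1 ∨ w = -1) (h : ∀ᶠ y in 𝓝 x, Gd L w y)
    (v : VV r m p) : Pw w (NH L w x (Dv (cc L w) x v)) = Pw w (Qh L x v) := by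
  have h1 := first_im hL hw h v
  rw [imop_NT hL h.self_of_nhds.real, imop_Om, smul_apply, smul_apply, map_smul, map_smul] at h1
  exact smul_right_injective _ (sS_ne x) h1

lemma second (hL : Graded L) (hw : w = 1 ∨ w = -1) (h : ∀ᶠ y in 𝓝 x, Gd L w y)
    (hQ : IsUnit (Qh L x)) (u v : VV r m p) :
    Pw w (NH L w x (Lev (cc L w) x u v (Gam L x u v))) =
      -L.br (Pw 0 (Qh L x v)) (Pw w (cjop (Om L x) u)) - L.br (Pw 0 (Qh L x u)) (Pw w (Om L x v)) -
      L.br (Pw w (Qh L x v)) (Pw 0 (NT L w x (Dv (cc L w) x u))) -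
      L.br (Pw w (cjop (Om L x) v)) (Pw 0 (NH L w x (Dv (cc L w) x u))) := by
  have h2 : ContDiffAt ℝ 2 (cc L w) x := h.self_of_nhds.an.of_le le_top
  have hO := hasD_of_diff (x := x) ((contDiff_Om (L := L) (n := 1)).differentiable one_ne_zero x)
  have hq : HasD (fun y => imop (Om L y)) _ x :=
    hasD_of_diff ((hO.sub hO.cjop).const_smul (-I / 2)).diff
  have hN := hasD_NT hL hw h
  have hN' : HasD (fun y => imop (NT L w y)) _ x := (hN.sub hN.cjop).const_smul (-I / 2)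
  have e := ((hq.app_const u).clm (Pw w)).unique (((hN'.app (hasD_Dv h2 u)).clm (Pw w)).congr
    (h.eventually_nhds.mono fun y hy => (first_im hL hw hy u).symm)) v
  have g := first_im hL hw h (Gam L x u v)
  rw [Gam_spec hQ, map_add, e, Dv_symm h2 v u] at g
  have key : Pw w (imop (NT L w x) (Lev (cc L w) x u v (Gam L x u v))) =
      -L.br (Pw 0 (imop (Om L x) v)) (Pw w (cjop (Om L x) u)) -
      L.br (Pw 0 (imop (Om L x) u)) (Pw w (Om L x v)) -
      L.br (Pw w (imop (Om L x) v)) (Pw 0 (NT L w x (Dv (cc L w) x u))) -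
      L.br (Pw w (cjop (Om L x) v)) (Pw 0 (imop (NT L w x) (Dv (cc L w) x u))) := by
    rw [Lev, map_sub, map_sub, g]
    have e1 : star (Om L x (star v)) = cjop (Om L x) v := rfl
    simp only [cjop_sub, cjop_mul, L.cjop_br, gam_star h, star_star, e1, smul_apply, sub_apply,
      mul_apply_eq_comp, hL.br_same hw (gam_isW h v) (gam_isW h u), map_zero, sub_zero, map_add,
      map_smul, map_sub, hL.Pw_br hw, first hL hw h, first_bar hL hw h, imop,
      L.skew (Pw w (Om L x u)), L.skew (Pw w (cjop (Om L x) u))]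
    module
  rw [imop_NT hL h.self_of_nhds.real, imop_Om] at key
  simp only [smul_apply, map_smul] at key
  refine smul_right_injective _ (sS_ne x) (key.trans ?_)
  module

variable (L) in
/-- the error term of the Taylor expansion -/
def EE (w : ℤ) (x : XX r m p) (v : VV r m p) : VV r m p :=
  (L.br (reop (TT L x) (eh x)) * KK L x - Ki L x : Op r m p) (mu L w x v)

variable (L) in
/-- the degree zero part transversal to the leaf -/
def XW (w : ℤ) (x : XX r m p) (v : VV r m p) : VV r m p :=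
  reop (TT L x) (WW w x v) + Ki L x (mu L 0 x v)

lemma YY_eq (hw : w = 1 ∨ w = -1) (x : XX r m p) (v : VV r m p) :
    YY x v = WW w x v + (eS w x * v iD) • eh x := by
  simp only [YY, WW, eS_eq hw, add_apply, smul_apply, ContinuousLinearMap.smulRight_apply,
    ContinuousLinearMap.proj_apply]
  module

lemma isW_mu (w : ℤ) (x : XX r m p) (v : VV r m p) : IsW w (mu L w x v) := isW_Pw _ _

lemma third (hL : Graded L) (hw : w = 1 ∨ w = -1) (h : ∀ᶠ y in 𝓝 x, Gd L w y)
    (hQ : IsUnit (Qh L x)) (v : VV r m p) :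
    Pw w (NH L w x (LevD L (cc L w) x v + (v iD * eS (-w) x) • Dv (cc L w) x (star v) +
        (conj (v iD) * eS w x) • Dv (cc L w) x v)) =
      -L.br (XW L w x v) (star (Pw w (Om L x v))) - L.br (star (XW L w x v)) (Pw w (Om L x v)) -
      v iD • star (EE L w x v) - conj (v iD) • EE L w x v -
      L.br (Pw w (Qh L x v)) (Pw 0 (NT L w x (star (Dv (cc L w) x v)))) -
      L.br (Pw w (cjop (Om L x) v)) (Pw 0 (NH L w x (star (Dv (cc L w) x v)))) := by
  have he : star (eh x) = eh x := star_emb0 _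
  have e0 : Pw 0 (Qh L x v) = XW L w x v + (eS w x * v iD) • reop (TT L x) (eh x) +
      v iD • bv iD := by
    rw [Pw0_Qh hL, YY_eq hw, XW, map_add, map_smul]; abel
  have e1 : Pw 0 (Qh L x (star v)) = star (XW L w x v) +
      (eS (-w) x * conj (v iD)) • reop (TT L x) (eh x) + conj (v iD) • bv iD := by
    rw [← star_real (cjop_Qh x), ← star_Pw, e0]
    simp [star_real (cjop_reop _), he, star_bv, conj_eS]
  have e2 : Pw w (cjop (Om L x) (star v)) = star (Pw w (Om L x v)) := by simp [star_Pw]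
  have e3 : Pw w (Qh L x (star v)) = star (Pw w (Qh L x v)) := by
    rw [← star_real (cjop_Qh x), star_Pw]
  have hK : IsW w (KK L x (mu L w x v)) := by rw [IsW, KK_Pw hL, (isW_mu w x v).Pw_self]
  have e4 := hL.isW_iff.1 hK
  have e5 := hL.isW_iff.1 hK.star
  have e6 : KK L x (mu L w x v) = reop (KK L x) (mu L w x v) + (I * sS x) • Ki L x (mu L w x v) := by
    conv_lhs => rw [KK_eq]
    rfl
  have e7 := congrArg star e6
  have e8 := eS_mul w x
  have e9 := eS_eq hw x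
  have e10 := eS_eq (w := -w) (by omega) x
  rw [LevD, map_add, map_add, map_add, map_add, second hL hw h hQ, map_smul, map_smul, map_smul,
    map_smul, first_Qh hL hw h, first_Qh hL hw h, gam_star h, e0, e1, e2, e3]
  generalize L.br (Pw w (Qh L x v)) = A
  simp only [Pw_Qh hL hw, Pw_Om hL hw, EE, JJ, star_smul, star_add, star_sub, map_add, map_smul,
    add_apply, sub_apply, smul_apply, mul_apply_eq_comp, e4, e5, RCLike.star_def, conj_eS,
    conj_cS, map_intCast, L.real, star_real (cjop_reop (TT L x)), he, map_mul, conj_I,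
    conj_sS] at e7 ⊢
  push_cast at e10
  generalize L.br (reop (TT L x) (eh x)) = T
  generalize Ki L x (mu L w x v) = k at e6 e7 ⊢
  generalize KK L x (mu L w x v) = a at e6 e7 ⊢
  linear_combination (norm := module)
    e8 • (v iD • (star k - T (star a)) + conj (v iD) • (k - T a)) - (eS (-w) x * v iD * w) • e7 -
      (eS w x * conj (v iD) * w) • e6 - e9 • ((v iD * eS (-w) x) • star k) -
      e10 • ((conj (v iD) * eS w x) • k)

lemma lev_isW (h : ∀ᶠ y in 𝓝 x, Gd L w y) (u v g : VV r m p) : IsW w (Lev (cc L w) x u v g) := by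
  rw [IsW, ← Lev_clm _ (h.self_of_nhds.an.of_le le_top)]
  exact Lev_congr (h.mono fun _ hy => hy.isW) u v g

/-- the filter on pairs -/
abbrev FF (r m p : ℕ) : Filter (XX r m p × VV r m p) := LL r m p ×ˢ ⊤

lemma bigO_fst {E : Type} [Norm E] {A : XX r m p → E} {a : XX r m p → ℝ} (h : A =O[LL r m p] a) :
    (fun z => A z.1) =O[FF r m p] fun z => a z.1 := h.comp_tendsto tendsto_fst

lemma bigO_star {α : Type} {l : Filter α} {f : α → VV r m p} {g : α → ℝ} (h : f =O[l] g) :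
    (fun z => star (f z)) =O[l] g := (IsBigO.of_norm_le fun _ => (norm_star _).le).trans h.norm_left

lemma bigO_Pw {α : Type} {l : Filter α} {f : α → VV r m p} {g : α → ℝ} (w : ℤ) (h : f =O[l] g) :
    (fun z => Pw w (f z)) =O[l] g := (IsBigO.of_norm_le fun _ => norm_Pw_le _ _).trans h.norm_left

lemma ev_FF (hL : Graded L) (hw : w = 1 ∨ w = -1) :
    ∀ᶠ z in FF r m p, ∀ᶠ y in 𝓝 z.1, Gd L w y := tendsto_fst.eventually (ev_LL (ev_Gd hL hw))

lemma ev_NH (hL : Graded L) (hw : w = 1 ∨ w = -1) :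
    ∀ᶠ z in FF r m p, ∀ u, IsW w u → ‖u‖ ≤ 2 * ‖Pw w (NH L w z.1 u)‖ := by
  refine (tendsto_fst.eventually
    (ev_lower ((tendsto_NH hL w).const_mul (Pw w)))).mono fun x hx u hu => hx u ?_
  rcases hw with rfl | rfl <;> simp [hu.Pw_self, hu.Pw_ne]

lemma bigO_Om (hL : Graded L) (hw : w = 1 ∨ w = -1) :
    (fun z => Pw w (Om L z.1 z.2)) =O[FF r m p] fun z => ‖Dv (cc L w) z.1 z.2‖ :=
  (bigO_Pw w (bigO_app1 (bigO_fst (bigO_NT hL w)) (bigO_self _))).congr'
    ((ev_FF hL hw).mono fun z hz => first hL hw hz z.2) EventuallyEq.rfl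

lemma bigO_mu (hL : Graded L) (hw : w = 1 ∨ w = -1) :
    (fun z => mu L w z.1 z.2) =O[FF r m p] fun z => ‖Dv (cc L w) z.1 z.2‖ :=
  (bigO_lower ((tendsto_fst.eventually (ev_lower (tendsto_KK (L := L)))).mono fun z hz => by
    simpa only [Pw_Om hL hw, norm_smul, norm_eS, one_mul] using hz _ le_rfl)).trans (bigO_Om hL hw)

lemma bigO_gam (hL : Graded L) (hw : w = 1 ∨ w = -1) :
    (fun z => Dv (cc L w) z.1 z.2) =O[FF r m p] fun z => ‖z.2‖ := by
  obtain ⟨C, hC⟩ := good_bd hL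
  have h : Qh L =O[LL r m p] fun _ => (1 : ℝ) :=
    IsBigO.of_bound C (hC.mono fun x hx => by simpa using hx.2.2.2.2.2)
  refine (bigO_lower ?_).trans (bigO_Pw w (bigO_app1 (bigO_fst h) (bigO_self _)))
  filter_upwards [ev_FF hL hw, ev_NH hL hw] with z h1 h2
  rw [← first_Qh hL hw h1]
  exact h2 _ (gam_isW h1 _)

variable (L) in
/-- the size of the error terms -/
def SS (w : ℤ) (z : XX r m p × VV r m p) : ℝ :=
  ‖WW w z.1 z.2‖ + tau z.1 z.2 + ‖Dv (cc L w) z.1 z.2‖ + ‖z.1.1‖ * ‖Dv (cc L (-w)) z.1 z.2‖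

lemma tau_nonneg (x : XX r m p) (v : VV r m p) : 0 ≤ tau x v := by
  have := sg_pos x
  unfold tau; positivity

lemma bigO_XW (hL : Graded L) (hw : w = 1 ∨ w = -1) :
    (fun z => XW L w z.1 z.2) =O[FF r m p] SS L w := by
  have h1 : (fun z => WW w z.1 z.2) =O[FF r m p] SS L w := IsBigO.of_norm_le fun z => by
    have := tau_nonneg z.1 z.2
    unfold SS
    nlinarith [norm_nonneg (Dv (cc L w) z.1 z.2),
      mul_nonneg (norm_nonneg z.1.1) (norm_nonneg (Dv (cc L (-w)) z.1 z.2))]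
  refine (bigO_app1 (bigO_fst (bigO_reop bigO_TT)) h1).add ?_
  have h2 := bigO_app (bigO_fst (bigO_Ki (L := L))) (bigO_br (L := L)
    (bigO_fst (tendsto_bh.isBigO_one ℝ)) (bigO_self fun z => Pw 1 z.2))
  simp only [← mu_zero hL] at h2
  refine h2.trans (IsBigO.of_norm_eventuallyLE ?_)
  filter_upwards [tendsto_fst.eventually (tendsto_eta.eventually (eventually_le_nhds one_pos))]
    with z hz
  have e : Dv (cc L 1) z.1 z.2 = Pw 1 z.2 := by
    rw [show cc L 1 = ah from funext fun y => by simp [cc], (hasD_ah z.1).eq]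
  have := tau_nonneg z.1 z.2
  have := norm_nonneg (WW w z.1 z.2)
  rw [one_mul, norm_mul, norm_norm, norm_norm, ← e, SS]
  rcases hw with rfl | rfl
  · nlinarith [norm_nonneg (Dv (cc L 1) z.1 z.2),
      mul_nonneg (norm_nonneg z.1.1) (norm_nonneg (Dv (cc L (-1)) z.1 z.2))]
  · rw [neg_neg]; linarith [norm_nonneg (Dv (cc L (-1)) z.1 z.2)]

lemma bigO_main (hL : Graded L) (hw : w = 1 ∨ w = -1) :
    (fun z => LevD L (cc L w) z.1 z.2 + (z.2 iD * eS (-w) z.1) • Dv (cc L w) z.1 (star z.2) +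
      (conj (z.2 iD) * eS w z.1) • Dv (cc L w) z.1 z.2) =O[FF r m p]
      fun z => ‖Dv (cc L w) z.1 z.2‖ * SS L w z := by
  obtain ⟨C, hC⟩ := good_bd hL
  set G := fun z : XX r m p × VV r m p => ‖Dv (cc L w) z.1 z.2‖ with hG
  have hS : ∀ z, tau z.1 z.2 ≤ SS L w z ∧ G z ≤ SS L w z := fun z => by
    have := tau_nonneg z.1 z.2
    have := norm_nonneg (WW w z.1 z.2)
    have := norm_nonneg (Dv (cc L w) z.1 z.2)
    have := mul_nonneg (norm_nonneg z.1.1) (norm_nonneg (Dv (cc L (-w)) z.1 z.2))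
    simp only [SS, hG]
    constructor <;> linarith
  have hγ : (fun z => Dv (cc L w) z.1 z.2) =O[FF r m p] G := bigO_self _
  have hGG : (fun z => G z * G z) =O[FF r m p] fun z => G z * SS L w z :=
    (isBigO_refl G _).mul (IsBigO.of_norm_le fun z => by simpa [hG] using (hS z).2)
  have hNH := bigO_fst ((tendsto_NH hL w).isBigO_one ℝ)
  have hNT := bigO_fst (bigO_NT hL w)
  have h1 := bigO_br (L := L) (bigO_XW hL hw) (bigO_star (bigO_Om hL hw))
  have h2 := bigO_br (L := L) (bigO_star (bigO_XW hL hw)) (bigO_Om hL hw)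
  have hE : (fun z => EE L w z.1 z.2) =O[FF r m p] _ := bigO_app (bigO_fst bigO_E) (bigO_mu hL hw)
  have ht : ∀ {c : XX r m p × VV r m p → ℂ} {f : XX r m p × VV r m p → VV r m p},
      (∀ z, ‖c z‖ = ‖z.2 iD‖) → (f =O[FF r m p] fun z => sg z.1 * ‖z.1.1‖ ^ 2 * G z) →
      (fun z => c z • f z) =O[FF r m p] fun z => G z * SS L w z := fun {c f} hc hf => by
    refine ((IsBigO.of_norm_le fun z => (hc z).le).smul hf).trans (IsBigO.of_norm_le fun z => ?_)
    have e : ‖z.2 iD‖ • (sg z.1 * ‖z.1.1‖ ^ 2 * G z) = G z * tau z.1 z.2 := by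
      simp only [tau, smul_eq_mul]; ring
    rw [e, Real.norm_of_nonneg (mul_nonneg (norm_nonneg _) (tau_nonneg _ _))]
    exact mul_le_mul_of_nonneg_left (hS z).1 (norm_nonneg _)
  have h3 := ht (c := fun z => z.2 iD) (fun _ => rfl) (bigO_star hE)
  have h4 := ht (c := fun z => conj (z.2 iD)) (fun _ => by simp) hE
  have hQ : (fun z => Pw w (Qh L z.1 z.2)) =O[FF r m p] G := (bigO_Pw w (bigO_app1 hNH hγ)).congr'
    ((ev_FF hL hw).mono fun z hz => first_Qh hL hw hz z.2) EventuallyEq.rfl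
  have hO : (fun z => Pw w (cjop (Om L z.1) z.2)) =O[FF r m p] G :=
    (bigO_Pw w (bigO_app1 (bigO_cjop hNT) hγ)).congr'
      ((ev_FF hL hw).mono fun z hz => first_bar hL hw hz z.2) EventuallyEq.rfl
  have h5 := (bigO_br (L := L) hQ (bigO_Pw 0 (bigO_app1 hNT (bigO_star hγ)))).trans hGG
  have h6 := (bigO_br (L := L) hO (bigO_Pw 0 (bigO_app1 hNH (bigO_star hγ)))).trans hGG
  simp only [mul_comm (SS L w _)] at h1 h2
  refine (bigO_lower ?_).trans (((((h1.neg_left.sub h2).sub h3).sub h4).sub h5).sub h6)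
  filter_upwards [ev_FF hL hw, ev_NH hL hw, tendsto_fst.eventually hC] with z a1 a2 a3
  rw [← third hL hw a1 a3.1]
  exact a2 _ (((lev_isW a1 _ _ _).add ((gam_isW a1 _).smul _)).add ((gam_isW a1 _).smul _))

end Leaf

open Leaf in
/-- the Levi flat coordinates -/
theorem leaf (hL : Graded L) {w : ℤ} (hw : w = 1 ∨ w = -1) : ∃ C : ℝ, ∀ᶠ x in LL r m p,
    ContDiffAt ℝ ω (cc L w) x ∧ IsW w (cc L w x) ∧ star (cc L w x) = cc L w x ∧
    ‖x.2.1‖ ≤ C * ‖cc L (-1) x‖ ∧ ‖cc L (-1) x‖ ≤ C * ‖x.2.1‖ ∧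
    (∀ v, ‖mu L w x v‖ ≤ C * ‖Dv (cc L w) x v‖ ∧ ‖Dv (cc L w) x v‖ ≤ C * ‖v‖) ∧
    ∀ v, ‖LevD L (cc L w) x v + (v iD * eS (-w) x) • Dv (cc L w) x (star v) +
        (conj (v iD) * eS w x) • Dv (cc L w) x v‖ ≤ C * ‖Dv (cc L w) x v‖ *
      (‖WW w x v‖ + tau x v + ‖Dv (cc L w) x v‖ + ‖x.1‖ * ‖Dv (cc L (-w)) x v‖) := by
  obtain ⟨C, ⟨h1, h2⟩, ⟨h3, h4⟩, h5⟩ := (((isBigO_iff_eventually.1 (cm_bigO hL).2).and
    (isBigO_iff_eventually.1 (cm_bigO hL).1)).and
    (((isBigO_iff_eventually.1 (bigO_mu hL hw)).and (isBigO_iff_eventually.1 (bigO_gam hL hw))).and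
      (isBigO_iff_eventually.1 (bigO_main hL hw)))).exists
  refine ⟨C, ?_⟩
  have e : cc L (-1) = cm L := funext fun y => by simp [cc]
  filter_upwards [ev_Gd hL hw, h1, h2, mem_prod_top.1 h3, mem_prod_top.1 h4, mem_prod_top.1 h5]
    with x a0 a1 a2 a3 a4 a5
  refine ⟨a0.an, a0.isW, a0.real, by simpa [e, bh, norm_embm] using a1,
    by simpa [e, bh, norm_embm] using a2, fun v => ⟨by simpa using a3 v, by simpa using a4 v⟩,
    fun v => ?_⟩
  have h := a5 v
  have := tau_nonneg x v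
  rw [Real.norm_of_nonneg (r := _ * SS L w (x, v)) (by unfold SS; positivity)] at h
  rw [mul_assoc]; exact h

end Pool.Agent.Lib.MP_e2ef7e_al.Gen
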