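import Pool.Agent.Lib.MP_e2ef7e_al.GeoLeviB
import Pool.Agent.Lib.MP_e2ef7e_al.GeoFlat
import Pool.Agent.Lib.MP_e2ef7e_al.GeoLeaf
import Pool.Agent.Lib.MP_e2ef7e_al.GeoEta

/-!
Pseudoconvexity of the two defining functions.
-/

open Complex Filter Topology Set
open scoped ComplexConjugate ContDiff

noncomputable section

namespace Pool.Agent.Lib.MP_e2ef7e_al.Gen

variable {r m p : ℕ} {L : LieD (Idx r m p)}

theorem levi_uu (hL : Graded L) {w : ℤ} (hw : w = 1 ∨ w = -1) : ∃ U ∈ LL r m p,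
    ∀ᶠ ε in 𝓝[>] (0 : ℝ), ∃ C : ℝ, ∀ x ∈ U, uu L 1 ε x < ε ^ 2 → uu L (-1) ε x < ε ^ 2 →
      ContDiffAt ℝ ω (uu L w ε) x ∧ ∀ v, ‖Dv (fun y => (uu L w ε y : ℂ)) x v‖ ≤ C * ‖v‖ ∧
        -(C * ‖Dv (fun y => (uu L w ε y : ℂ)) x v‖ * ‖v‖) ≤
          (LevD L (fun y => (uu L w ε y : ℂ)) x v).re :=
  H76.levi_of hw sg_pos sg_le_one eS_eq norm_eS ev_LL hasD_eh contDiff_eh (leaf hL) (est_eta hL hw)

end Pool.Agent.Lib.MP_e2ef7e_al.Gen
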