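import Pool.Agent.Lib.MP_e2ef7e_al.Geo3

/-!
Pseudoconvexity: the algebra and the estimates.
-/

open Complex Filter Topology Set
open scoped ComplexConjugate ContDiff

noncomputable section

namespace Pool.Agent.Lib.MP_e2ef7e_al.Gen.H76

section dot

variable {ι : Type} [Fintype ι]

lemma dot_comm (a b : ι → ℂ) : dotB a b = dotB b a := by
  simp only [dotB_apply, mul_comm]

lemma norm_dot (a b : ι → ℂ) : ‖dotB a b‖ ≤ Fintype.card ι * (‖a‖ * ‖b‖) := by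
  rw [dotB_apply]
  refine (norm_sum_le _ _).trans ((Finset.sum_le_card_nsmul _ _ (‖a‖ * ‖b‖) fun i _ => ?_).trans
    (by simp))
  rw [norm_mul]
  gcongr <;> exact norm_le_pi_norm _ i

lemma nsq_eq (z : ι → ℂ) : (nsq z : ℂ) = dotB (star z) z := by
  simp only [nsq, dotB_apply, ofReal_sum, Pi.star_apply, ofReal_pow]
  exact Finset.sum_congr rfl fun i _ => (conj_mul' (z i)).symm

lemma nsq_nonneg (z : ι → ℂ) : 0 ≤ nsq z := Finset.sum_nonneg fun _ _ => by positivity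

lemma sq_le_nsq (z : ι → ℂ) : ‖z‖ ^ 2 ≤ nsq z := by
  rw [← Real.le_sqrt (norm_nonneg _) (nsq_nonneg z)]
  exact (pi_norm_le_iff_of_nonneg (Real.sqrt_nonneg _)).2 fun i => Real.le_sqrt_of_sq_le
    (Finset.single_le_sum (f := fun i => ‖z i‖ ^ 2) (fun _ _ => by positivity) (Finset.mem_univ i))

lemma nsq_le (z : ι → ℂ) : nsq z ≤ Fintype.card ι * ‖z‖ ^ 2 := by
  refine (Finset.sum_le_card_nsmul _ _ (‖z‖ ^ 2) fun i _ => ?_).trans (by simp)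
  gcongr
  exact norm_le_pi_norm _ i

lemma norm_le_of_nsq {z : ι → ℂ} {ε : ℝ} (hε : 0 ≤ ε) (h : nsq z ≤ ε ^ 2) : ‖z‖ ≤ ε :=
  (abs_le_of_sq_le_sq' ((sq_le_nsq z).trans h) hε).2

end dot

/-- the constant of the absorption step -/
def AC (d C : ℝ) : ℝ := 8 * d ^ 2 + (2 * d * C + 6 * C * d ^ 2) * (1 + 2 * d ^ 2) +
  4 * d * C * (1 + 2 * d ^ 2) ^ 2

lemma absorb {d C δ G w z P τ n G' rc re rc' X : ℝ} (hd : 1 ≤ d) (hC : 0 ≤ C) (δ0 : 0 < δ)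
    (δ1 : δ ≤ 1) (hA : AC d C * δ ≤ 2 / 3) (G0 : 0 ≤ G) (w0 : 0 ≤ w) (z0 : 0 ≤ z) (P0 : 0 ≤ P)
    (τ0 : 0 ≤ τ) (n0 : 0 ≤ n) (hn : n ≤ δ) (hz : n * G' = δ * z)
    (hτ : τ ≤ P + 2 * d ^ 2 * (δ * (w + G + z))) (h1 : rc ≤ C * G * (w + τ + G + n * G'))
    (h2 : re ≤ C * (w + τ + G + n * G') * (n * (w + G + G') + τ))
    (h3 : rc' ≤ C * (n * G') * (3 * (w + τ + G + n * G')))
    (hX : 2 * G ^ 2 + 2 * w ^ 2 + 2 * z ^ 2 - (8 * d ^ 2 * (w * (n * G')) + 2 * d * δ ^ 2 * rc +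
      4 * d * re + 2 * d ^ 2 * rc') ≤ X) : -(AC d C * (P * (P + 2 * (w + G + z)))) ≤ X := by
  rw [mul_add n, hz] at h2
  rw [hz] at h1 h3 hX
  have Y0 : 0 ≤ w + G + z := by positivity
  have e8 : 2 / 3 * (w + G + z) ^ 2 ≤ 2 * G ^ 2 + 2 * w ^ 2 + 2 * z ^ 2 := by
    linarith [sq_nonneg (G - w), sq_nonneg (G - z), sq_nonneg (w - z)]
  obtain ⟨Y, hY⟩ : ∃ Y, Y = w + G + z := ⟨_, rfl⟩
  obtain ⟨K, hK⟩ : ∃ K, K = 1 + 2 * d ^ 2 := ⟨_, rfl⟩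
  rw [← hY] at hτ Y0 e8 ⊢
  have K1 : 1 ≤ K := by rw [hK]; linarith [sq_nonneg d]
  have δY : δ * Y ≤ Y := mul_le_of_le_one_left Y0 δ1
  have δz : δ * z ≤ z := mul_le_of_le_one_left z0 δ1
  have δY0 : 0 ≤ δ * Y := by positivity
  have hS : w + τ + G + δ * z ≤ K * (P + Y) := by
    have : 2 * d ^ 2 * (δ * Y) ≤ 2 * d ^ 2 * Y := by gcongr
    rw [hK]
    linarith [mul_nonneg (sq_nonneg d) P0]
  have hS' : n * (w + G) + δ * z + τ ≤ K * (P + δ * Y) := by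
    have : n * (w + G) ≤ δ * (w + G) := by gcongr
    have : δ * Y = δ * (w + G) + δ * z := by rw [hY]; ring
    rw [hK]
    linarith [mul_nonneg (sq_nonneg d) P0]
  obtain ⟨M, hM⟩ : ∃ M, M = (P + Y) * (P + δ * Y) := ⟨_, rfl⟩
  have d0 : 0 ≤ d := by linarith
  have e1 : w * (δ * z) ≤ M := by
    calc _ ≤ (P + Y) * (δ * Y) := by gcongr <;> linarith
      _ ≤ _ := by rw [hM]; gcongr; linarith
  have e2 : δ ^ 2 * rc ≤ C * K * M := by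
    calc _ ≤ δ ^ 2 * (C * G * (K * (P + Y))) := by
          gcongr
          exact h1.trans (by gcongr)
      _ = C * K * ((P + Y) * (δ * (δ * G))) := by ring
      _ ≤ C * K * M := by
          rw [hM]
          gcongr
          calc _ ≤ δ * (1 * Y) := by gcongr; linarith
            _ ≤ _ := by linarith
  have e3 : re ≤ C * K ^ 2 * M :=
    calc _ ≤ C * (K * (P + Y)) * (K * (P + δ * Y)) := h2.trans (by gcongr)
      _ = _ := by rw [hM]; ring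
  have e4 : rc' ≤ 3 * C * K * M :=
    calc _ ≤ C * (P + δ * Y) * (3 * (K * (P + Y))) := h3.trans (by
          gcongr
          calc _ ≤ δ * Y := by gcongr; linarith
            _ ≤ _ := by linarith)
      _ = _ := by rw [hM]; ring
  have A0 : 0 ≤ AC d C := by unfold AC; positivity
  have e5 : 8 * d ^ 2 * (w * (δ * z)) + 2 * d * δ ^ 2 * rc + 4 * d * re + 2 * d ^ 2 * rc' ≤
      AC d C * M :=
    calc _ = 8 * d ^ 2 * (w * (δ * z)) + 2 * d * (δ ^ 2 * rc) + 4 * d * re + 2 * d ^ 2 * rc' := by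
          ring
      _ ≤ 8 * d ^ 2 * M + 2 * d * (C * K * M) + 4 * d * (C * K ^ 2 * M) +
          2 * d ^ 2 * (3 * C * K * M) := by gcongr
      _ = _ := by rw [AC, hK]; ring
  have e6 : M ≤ P * (P + 2 * Y) + δ * Y ^ 2 := by
    rw [hM]
    linarith [mul_le_mul_of_nonneg_left δY P0]
  have e7 : AC d C * M ≤ AC d C * (P * (P + 2 * Y)) + 2 / 3 * Y ^ 2 :=
    calc _ ≤ AC d C * (P * (P + 2 * Y) + δ * Y ^ 2) := by gcongr
      _ = AC d C * (P * (P + 2 * Y)) + AC d C * δ * Y ^ 2 := by ring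
      _ ≤ _ := by gcongr
  linarith

section vec

variable {ι : Type} [Fintype ι] {c c' η γ γ' W Rc Rc' Rη : ι → ℂ} {ε : ℝ}

lemma est_D (hε : 0 < ε) (hε1 : ε ≤ 1) (hc : nsq c ≤ ε ^ 2) (hc' : nsq c' ≤ ε ^ 2)
    (hη : nsq η ≤ ε ^ 2) {s D : ℂ} {d : ℝ} (hd : d = Fintype.card ι)
    (hD : D = 2 * dotB c γ + 2 * ((1 + ε⁻¹ * nsq c' : ℝ) : ℂ) * (dotB η W + s * (nsq η : ℝ)) +
      2 * ((ε⁻¹ * nsq η : ℝ) : ℂ) * dotB c' γ') :
    ‖D‖ ≤ 2 * d * ‖γ‖ + 4 * d * ‖W‖ + 4 * ‖s‖ + 2 * d * ‖γ'‖ ∧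
      2 * (‖η‖ ^ 2 * ‖s‖) ≤ ‖D‖ + 2 * d * ε * ‖γ‖ + 4 * d * ε * ‖W‖ +
        2 * d ^ 2 * ε * (‖η‖ * ‖γ'‖) := by
  have n1 := norm_le_of_nsq hε.le hc
  have n2 := norm_le_of_nsq hε.le hc'
  have n3 := norm_le_of_nsq hε.le hη
  have f0 := nsq_nonneg η
  have g0 := nsq_nonneg c'
  have d0 : 0 ≤ d := by rw [hd]; positivity
  have ε2 : ε ^ 2 ≤ ε := by nlinarith
  have h1 : ε⁻¹ * nsq c' ≤ 1 := by rw [inv_mul_le_iff₀ hε]; linarith
  have h0 : 0 ≤ ε⁻¹ * nsq c' := by positivity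
  have a1 : ‖2 * dotB c γ‖ ≤ 2 * d * ε * ‖γ‖ := by
    rw [norm_mul, Complex.norm_two]
    calc _ ≤ 2 * (d * (ε * ‖γ‖)) := by
          gcongr
          exact (norm_dot _ _).trans (by rw [hd]; gcongr)
      _ = _ := by ring
  have a2 : ‖2 * ((1 + ε⁻¹ * nsq c' : ℝ) : ℂ) * dotB η W‖ ≤ 4 * d * ε * ‖W‖ := by
    rw [norm_mul, norm_mul, Complex.norm_two, norm_real, Real.norm_of_nonneg (by positivity)]
    calc _ ≤ 2 * (1 + 1) * (d * (ε * ‖W‖)) := by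
          gcongr
          exact (norm_dot _ _).trans (by rw [hd]; gcongr)
      _ = _ := by ring
  have a3 : ‖2 * ((ε⁻¹ * nsq η : ℝ) : ℂ) * dotB c' γ'‖ ≤ 2 * d * nsq η * ‖γ'‖ := by
    rw [norm_mul, norm_mul, Complex.norm_two, norm_real, Real.norm_of_nonneg (by positivity)]
    calc _ ≤ 2 * (ε⁻¹ * nsq η) * (d * (ε * ‖γ'‖)) := by
          gcongr
          exact (norm_dot _ _).trans (by rw [hd]; gcongr)
      _ = _ := by field_simp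
  have a4 : ‖2 * ((1 + ε⁻¹ * nsq c' : ℝ) : ℂ) * (s * (nsq η : ℝ))‖ =
      2 * (1 + ε⁻¹ * nsq c') * (‖s‖ * nsq η) := by
    rw [norm_mul, norm_mul, norm_mul, Complex.norm_two, norm_real, norm_real,
      Real.norm_of_nonneg (by positivity), Real.norm_of_nonneg f0]
  rw [mul_add (2 * ((1 + ε⁻¹ * nsq c' : ℝ) : ℂ))] at hD
  generalize 2 * dotB c γ = A1 at *
  generalize 2 * ((1 + ε⁻¹ * nsq c' : ℝ) : ℂ) * dotB η W = A2 at *
  generalize 2 * ((ε⁻¹ * nsq η : ℝ) : ℂ) * dotB c' γ' = A3 at *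
  generalize 2 * ((1 + ε⁻¹ * nsq c' : ℝ) : ℂ) * (s * (nsq η : ℝ)) = A4 at *
  have f1 : nsq η ≤ 1 := by linarith
  constructor
  · have b1 : 2 * d * ε * ‖γ‖ ≤ 2 * d * 1 * ‖γ‖ := by gcongr
    have b2 : 4 * d * ε * ‖W‖ ≤ 4 * d * 1 * ‖W‖ := by gcongr
    have b3 : 2 * d * nsq η * ‖γ'‖ ≤ 2 * d * 1 * ‖γ'‖ := by gcongr
    have b4 : 2 * (1 + ε⁻¹ * nsq c') * (‖s‖ * nsq η) ≤ 2 * (1 + 1) * (‖s‖ * 1) := by gcongr
    rw [hD]
    linarith [norm_add_le (A1 + (A2 + A4)) A3, norm_add_le A1 (A2 + A4), norm_add_le A2 A4]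
  · have b3 : 2 * d * nsq η * ‖γ'‖ ≤ 2 * d ^ 2 * ε * (‖η‖ * ‖γ'‖) :=
      calc _ ≤ 2 * d * (d * (ε * ‖η‖)) * ‖γ'‖ := by
            gcongr
            exact (nsq_le η).trans (by rw [hd, sq]; gcongr)
        _ = _ := by ring
    have b4 : 2 * (‖η‖ ^ 2 * ‖s‖) ≤ 2 * (1 + ε⁻¹ * nsq c') * (‖s‖ * nsq η) :=
      calc _ = 2 * 1 * (‖s‖ * ‖η‖ ^ 2) := by ring
        _ ≤ _ := by
          gcongr
          · linarith
          · exact sq_le_nsq η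
    have b5 : A4 = D - A1 - A2 - A3 := by rw [hD]; ring
    rw [b5] at a4
    linarith [norm_sub_le (D - A1 - A2) A3, norm_sub_le (D - A1) A2, norm_sub_le D A1]

lemma est_X (hε : 0 < ε) (hε1 : ε ≤ 1) (hc : nsq c ≤ ε ^ 2) (hc' : nsq c' ≤ ε ^ 2) {X : ℂ} {d : ℝ}
    (hd : d = Fintype.card ι)
    (hX : X = ((2 * nsq γ + 2 * (1 + ε⁻¹ * nsq c') * nsq W + 2 * (ε⁻¹ * nsq η) * nsq γ' : ℝ) : ℂ) +
      (4 * ((ε⁻¹ : ℝ) : ℂ) * (dotB η (star W) * dotB c' γ' + dotB η W * dotB c' (star γ')) +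
      2 * dotB c Rc + 2 * ((1 + ε⁻¹ * nsq c' : ℝ) : ℂ) * dotB η Rη +
      2 * ((ε⁻¹ * nsq η : ℝ) : ℂ) * dotB c' Rc')) :
    2 * ‖γ‖ ^ 2 + 2 * ‖W‖ ^ 2 + 2 * (ε⁻¹ * (‖η‖ * ‖γ'‖) ^ 2) -
      (8 * d ^ 2 * (‖W‖ * (‖η‖ * ‖γ'‖)) + 2 * d * ε * ‖Rc‖ + 4 * d * (‖η‖ * ‖Rη‖) +
        2 * d ^ 2 * (‖η‖ ^ 2 * ‖Rc'‖)) ≤ X.re := by
  have n1 := norm_le_of_nsq hε.le hc
  have n2 := norm_le_of_nsq hε.le hc'
  have f0 := nsq_nonneg η
  have g0 := nsq_nonneg c'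
  have d0 : 0 ≤ d := by rw [hd]; positivity
  have ε2 : ε ^ 2 ≤ ε := by nlinarith
  have h1 : ε⁻¹ * nsq c' ≤ 1 := by rw [inv_mul_le_iff₀ hε]; linarith
  have h0 : 0 ≤ ε⁻¹ * nsq c' := by positivity
  have q : ∀ a b : ι → ℂ, ‖dotB a b‖ ≤ d * (‖a‖ * ‖b‖) := fun a b => hd ▸ norm_dot a b
  have a1 : ‖4 * ((ε⁻¹ : ℝ) : ℂ) * (dotB η (star W) * dotB c' γ' + dotB η W * dotB c' (star γ'))‖ ≤
      8 * d ^ 2 * (‖W‖ * (‖η‖ * ‖γ'‖)) := by
    rw [norm_mul, norm_mul, norm_real, Real.norm_of_nonneg (by positivity), Complex.norm_ofNat]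
    calc _ ≤ 4 * ε⁻¹ * (d * (‖η‖ * ‖W‖) * (d * (ε * ‖γ'‖)) +
          d * (‖η‖ * ‖W‖) * (d * (ε * ‖γ'‖))) := by
          gcongr
          refine (norm_add_le _ _).trans ?_
          rw [norm_mul, norm_mul]
          gcongr
          · exact (q _ _).trans (by rw [norm_star])
          · exact (q _ _).trans (by gcongr)
          · exact q _ _
          · exact (q _ _).trans (by rw [norm_star]; gcongr)
      _ = _ := by field_simp; ring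
  have a2 : ‖2 * dotB c Rc‖ ≤ 2 * d * ε * ‖Rc‖ := by
    rw [norm_mul, Complex.norm_two]
    calc _ ≤ 2 * (d * (ε * ‖Rc‖)) := by
          gcongr
          exact (q _ _).trans (by gcongr)
      _ = _ := by ring
  have a3 : ‖2 * ((1 + ε⁻¹ * nsq c' : ℝ) : ℂ) * dotB η Rη‖ ≤ 4 * d * (‖η‖ * ‖Rη‖) := by
    rw [norm_mul, norm_mul, Complex.norm_two, norm_real, Real.norm_of_nonneg (by positivity)]
    calc _ ≤ 2 * (1 + 1) * (d * (‖η‖ * ‖Rη‖)) := by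
          gcongr
          exact q _ _
      _ = _ := by ring
  have a4 : ‖2 * ((ε⁻¹ * nsq η : ℝ) : ℂ) * dotB c' Rc'‖ ≤ 2 * d ^ 2 * (‖η‖ ^ 2 * ‖Rc'‖) := by
    rw [norm_mul, norm_mul, Complex.norm_two, norm_real, Real.norm_of_nonneg (by positivity)]
    calc _ ≤ 2 * (ε⁻¹ * (d * ‖η‖ ^ 2)) * (d * (ε * ‖Rc'‖)) := by
          gcongr
          · exact hd ▸ nsq_le η
          · exact (q _ _).trans (by gcongr)
      _ = _ := by field_simp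
  have p1 := sq_le_nsq γ
  have p2 : 2 * ‖W‖ ^ 2 ≤ 2 * (1 + ε⁻¹ * nsq c') * nsq W :=
    calc _ = 2 * 1 * ‖W‖ ^ 2 := by ring
      _ ≤ _ := by
        gcongr
        · linarith
        · exact sq_le_nsq W
  have p3 : 2 * (ε⁻¹ * (‖η‖ * ‖γ'‖) ^ 2) ≤ 2 * (ε⁻¹ * nsq η) * nsq γ' :=
    calc _ = 2 * (ε⁻¹ * ‖η‖ ^ 2) * ‖γ'‖ ^ 2 := by ring
      _ ≤ _ := by
        gcongr
        · exact sq_le_nsq η
        · exact sq_le_nsq γ'
  rw [hX, add_re, ofReal_re]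
  generalize 4 * ((ε⁻¹ : ℝ) : ℂ) * (dotB η (star W) * dotB c' γ' + dotB η W * dotB c' (star γ')) =
    A1 at *
  generalize 2 * dotB c Rc = A2 at *
  generalize 2 * ((1 + ε⁻¹ * nsq c' : ℝ) : ℂ) * dotB η Rη = A3 at *
  generalize 2 * ((ε⁻¹ * nsq η : ℝ) : ℂ) * dotB c' Rc' = A4 at *
  linarith [neg_le_of_abs_le (abs_re_le_norm (A1 + A2 + A3 + A4)), norm_add_le (A1 + A2 + A3) A4,
    norm_add_le (A1 + A2) A3, norm_add_le A1 A2]

end vec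

variable {r m p : ℕ} {x : XX r m p}

lemma contDiffAt_dot {n : WithTop ℕ∞} {F : XX r m p → VV r m p} (h : ContDiffAt ℝ n F x) :
    ContDiffAt ℝ n (fun y => dotB (F y) (F y)) x := by
  simp only [dotB_apply]
  exact ContDiffAt.sum fun i _ => (contDiffAt_pi.1 h i).mul (contDiffAt_pi.1 h i)

lemma hasD_dot {F : XX r m p → VV r m p} (h : ContDiffAt ℝ 2 F x) :
    HasD (fun y => dotB (F y) (F y)) (fun v => 2 * dotB (F x) (Dv F x v)) x :=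
  ((hasD_of_diff (ev_diff h).self_of_nhds).bilin dotB
    (hasD_of_diff (ev_diff h).self_of_nhds)).congr' fun v => by rw [dot_comm, two_mul]

lemma Lev_dot {F : XX r m p → VV r m p} (h : ContDiffAt ℝ 2 F x) (u v g) :
    Lev (fun y => dotB (F y) (F y)) x u v g =
      2 * dotB (F x) (Lev F x u v g) + 2 * dotB (Dv F x u) (Dv F x v) := by
  rw [Lev_bilin dotB h h, dot_comm (Lev F x u v g), dot_comm (Dv F x v)]
  ring

/-- the defining function in complex form -/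
def UU (c c' η : XX r m p → VV r m p) (l : ℂ) (y : XX r m p) : ℂ :=
  dotB (c y) (c y) + (dotB (η y) (η y) + l * (dotB (η y) (η y) * dotB (c' y) (c' y)))

variable {c c' η : XX r m p → VV r m p} {l : ℂ}

lemma contDiffAt_UU {n : WithTop ℕ∞} (hc : ContDiffAt ℝ n c x) (hc' : ContDiffAt ℝ n c' x)
    (hη : ContDiffAt ℝ n η x) : ContDiffAt ℝ n (UU c c' η l) x :=
  (contDiffAt_dot hc).add ((contDiffAt_dot hη).add
    (contDiffAt_const.mul ((contDiffAt_dot hη).mul (contDiffAt_dot hc'))))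

lemma Dv_UU (hc : ContDiffAt ℝ 2 c x) (hc' : ContDiffAt ℝ 2 c' x) (hη : ContDiffAt ℝ 2 η x) (v) :
    Dv (UU c c' η l) x v = 2 * dotB (c x) (Dv c x v) +
      2 * (1 + l * dotB (c' x) (c' x)) * dotB (η x) (Dv η x v) +
      2 * (l * dotB (η x) (η x)) * dotB (c' x) (Dv c' x v) := by
  refine (((hasD_dot hc).add ((hasD_dot hη).add
    (((hasD_dot hη).smul (hasD_dot hc')).const_smul l))).eq v).trans ?_
  simp only [smul_eq_mul]
  ring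

lemma Lev_UU (hc : ContDiffAt ℝ 2 c x) (hc' : ContDiffAt ℝ 2 c' x) (hη : ContDiffAt ℝ 2 η x)
    (u v g) : Lev (UU c c' η l) x u v g =
      2 * dotB (c x) (Lev c x u v g) + 2 * dotB (Dv c x u) (Dv c x v) +
      2 * (1 + l * dotB (c' x) (c' x)) *
        (dotB (η x) (Lev η x u v g) + dotB (Dv η x u) (Dv η x v)) +
      2 * (l * dotB (η x) (η x)) *
        (dotB (c' x) (Lev c' x u v g) + dotB (Dv c' x u) (Dv c' x v)) +
      4 * l * (dotB (η x) (Dv η x u) * dotB (c' x) (Dv c' x v) +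
        dotB (η x) (Dv η x v) * dotB (c' x) (Dv c' x u)) := by
  have h1 := contDiffAt_dot hη
  have h2 := contDiffAt_dot hc'
  have e1 := Lev_bilin (ContinuousLinearMap.mul ℂ ℂ) h1 h2 u v g
  have e2 := Lev_clm (ContinuousLinearMap.mul ℂ ℂ l) (h1.mul h2) u v g
  have e3 := Lev_add h1 (contDiffAt_const (c := l).mul (h1.mul h2)) u v g
  have e4 := Lev_add (contDiffAt_dot hc) (h1.add (contDiffAt_const (c := l).mul (h1.mul h2))) u v g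
  simp only [ContinuousLinearMap.mul_apply'] at e1 e2
  rw [e3, e2, e1, Lev_dot hc, Lev_dot hc', Lev_dot hη, (hasD_dot hη).eq, (hasD_dot hη).eq,
    (hasD_dot hc').eq, (hasD_dot hc').eq] at e4
  exact e4.trans (by ring)

lemma Dv_star (hc : ContDiffAt ℝ 2 c x) (h : ∀ᶠ y in 𝓝 x, star (c y) = c y) (v) :
    Dv c x (star v) = star (Dv c x v) := by
  have := ((hasD_of_diff (ev_diff hc).self_of_nhds).star.congr
    (h.mono fun y hy => hy.symm)).eq (star v)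
  rwa [star_star] at this

end Pool.Agent.Lib.MP_e2ef7e_al.Gen.H76
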