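import Pool.Agent.Lib.MP_e2ef7e_al.GeoLeviA

/-!
Pseudoconvexity at one point, and from the estimates of the coordinates.
-/

open Complex Filter Topology Set
open scoped ComplexConjugate ContDiff

noncomputable section

namespace Pool.Agent.Lib.MP_e2ef7e_al.Gen.H76

variable {r m p : ℕ} {L : LieD (Idx r m p)}

/-- the final constant -/
def BC (d C : ℝ) : ℝ := 4 * d * C + 8 * d + 4 + AC d C * (4 * d * C + 8 * d + 4 + 2 * (2 + 2 * C)) + 2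

lemma tail {d C ε n G G' w w' P τ s V rc rc' re X Y Z : ℝ} (d1 : 1 ≤ d) (hC : 0 ≤ C) (hε : 0 < ε)
    (hε1 : ε ≤ 1) (hA : AC d C * √ε ≤ 2 / 3) (n0 : 0 ≤ n) (n3 : n ≤ ε) (G0 : 0 ≤ G) (G0' : 0 ≤ G')
    (W0 : 0 ≤ w) (D0 : 0 ≤ P) (s0 : 0 ≤ s) (v0 : 0 ≤ V) (hτ : τ = n ^ 2 * s) (hs : s ≤ V)
    (hW : w ≤ 2 * V) (b1 : G ≤ C * V) (b2 : G' ≤ C * V) (q0 : w' ≤ w + 2 * s * n)
    (l1 : rc ≤ C * G * (w + τ + G + n * G')) (l2 : rc' ≤ C * G' * (w' + τ + G' + n * G))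
    (l3 : n * re ≤ C * (w + τ + G + n * G') * (n * (w + G + G') + τ))
    (a1 : P ≤ 2 * d * G + 4 * d * w + 4 * s + 2 * d * G')
    (a2 : 2 * (n ^ 2 * s) ≤ P + 2 * d * ε * G + 4 * d * ε * w + 2 * d ^ 2 * ε * (n * G'))
    (a3 : 2 * G ^ 2 + 2 * w ^ 2 + 2 * (ε⁻¹ * (n * G') ^ 2) - (8 * d ^ 2 * (w * (n * G')) +
      2 * d * ε * rc + 4 * d * (n * re) + 2 * d ^ 2 * (n ^ 2 * rc')) ≤ X + Y + Z)
    (q1 : Y ≤ V * P) (q2 : Z ≤ V * P) : P ≤ BC d C * V ∧ -(BC d C * P * V) ≤ X := by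
  have δ0 : 0 < √ε := Real.sqrt_pos.2 hε
  have δ2 : √ε ^ 2 = ε := Real.sq_sqrt hε.le
  have δ1 : √ε ≤ 1 := Real.sqrt_le_one.2 hε1
  have δ3 : ε ≤ √ε := by
    have := mul_le_of_le_one_left δ0.le δ1
    rwa [← sq, δ2] at this
  obtain ⟨z, hz⟩ : ∃ z, n * G' = √ε * z := ⟨n * G' / √ε, by field_simp⟩
  have z0 : 0 ≤ z := nonneg_of_mul_nonneg_right (hz ▸ mul_nonneg n0 G0') δ0
  have z1 : z ≤ G' := le_of_mul_le_mul_left (by rw [← hz]; gcongr; linarith) δ0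
  have τ0 : 0 ≤ τ := by rw [hτ]; positivity
  have d0 : 0 ≤ d := by linarith
  have k1 : τ ≤ P + 2 * d ^ 2 * (√ε * (w + G + z)) := by
    rw [← hτ, hz] at a2
    have d2 : d ≤ d ^ 2 := by rw [sq]; exact le_mul_of_one_le_left d0 d1
    have q1 : 2 * d * ε * G ≤ 2 * d ^ 2 * √ε * G := by gcongr
    have q2 : 4 * d * ε * w ≤ 4 * d ^ 2 * √ε * w := by gcongr
    have q3 : 2 * d ^ 2 * ε * (√ε * z) ≤ 2 * d ^ 2 * 1 * (√ε * z) := by gcongr
    have q4 : 0 ≤ d ^ 2 * √ε * G := by positivity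
    have q5 : 0 ≤ d ^ 2 * √ε * z := by positivity
    linarith only [a2, q1, q2, q3, q4, q5, D0]
  have k2 : n ^ 2 * rc' ≤ C * (n * G') * (3 * (w + τ + G + n * G')) := by
    have n4 : n ≤ 1 := n3.trans hε1
    calc _ ≤ n ^ 2 * (C * G' * (w + 2 * s * n + τ + G' + n * G)) := by
          gcongr
          exact l2.trans (by gcongr)
      _ = C * (n * G') * (n * w + 2 * τ + n * τ + n * G' + n * (n * G)) := by
          rw [hτ]; ring
      _ ≤ C * (n * G') * (1 * w + 2 * τ + 1 * τ + n * G' + 1 * (1 * G)) := by gcongr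
      _ ≤ _ := by
        gcongr
        linarith only [mul_nonneg n0 G0', W0, G0]
  have key := absorb (X := X + Y + Z) d1 hC δ0 δ1 hA G0 W0 z0 D0 τ0 n0 (n3.trans δ3) hz k1 l1 l3 k2
    (by
      rw [δ2, show z ^ 2 = ε⁻¹ * (n * G') ^ 2 by rw [hz, mul_pow, δ2]; field_simp]
      exact a3)
  have A0 : 0 ≤ AC d C := by unfold AC; positivity
  have hP : P ≤ (4 * d * C + 8 * d + 4) * V := by
    have q1 : 2 * d * G ≤ 2 * d * (C * V) := by gcongr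
    have q2 : 2 * d * G' ≤ 2 * d * (C * V) := by gcongr
    have q3 : 4 * d * w ≤ 4 * d * (2 * V) := by gcongr
    linarith only [q1, q2, q3, a1, hs]
  have B0 : 0 ≤ AC d C * (4 * d * C + 8 * d + 4 + 2 * (2 + 2 * C)) := by positivity
  refine ⟨hP.trans (mul_le_mul_of_nonneg_right (by unfold BC; linarith only [B0]) v0), ?_⟩
  have q3 : AC d C * (P * (P + 2 * (w + G + z))) ≤
      AC d C * (P * ((4 * d * C + 8 * d + 4 + 2 * (2 + 2 * C)) * V)) := by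
    gcongr
    linarith only [hP, hW, b1, b2, z1]
  have q4 : 0 ≤ (4 * d * C + 8 * d + 4) * (P * V) := by positivity
  unfold BC
  linarith only [key, q1, q2, q3, q4]

lemma point {w : ℤ} (hw : w = 1 ∨ w = -1) {x : XX r m p} {ε C d : ℝ}
    (hd : d = Fintype.card (Idx r m p)) (hC : 0 ≤ C) (hε : 0 < ε) (hε1 : ε ≤ 1)
    (hA : AC d C * √ε ≤ 2 / 3) (σ0 : 0 < sg x) (σ1 : sg x ≤ 1)
    (e1 : eS w x = cS x + I * w * sS x) (e2 : eS (-w) x = cS x - I * w * sS x)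
    (n1 : ‖eS w x‖ = 1) (n2 : ‖eS (-w) x‖ = 1)
    (hη : HasD eh (fun v => P0 v) x) (cη : ContDiffAt ℝ 2 eh x)
    {c c' : XX r m p → VV r m p} (hc : ContDiffAt ℝ 2 c x) (hc' : ContDiffAt ℝ 2 c' x)
    (rc : ∀ᶠ y in 𝓝 x, star (c y) = c y) (rc' : ∀ᶠ y in 𝓝 x, star (c' y) = c' y)
    {u : XX r m p → ℝ} (hu : (fun y => (u y : ℂ)) =ᶠ[𝓝 x] UU c c' eh ((ε⁻¹ : ℝ) : ℂ))
    (u1 : nsq (c x) ≤ ε ^ 2) (u2 : nsq (c' x) ≤ ε ^ 2) (u3 : nsq (eh x) ≤ ε ^ 2) (v : VV r m p)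
    (b1 : ‖Dv c x v‖ ≤ C * ‖v‖) (b2 : ‖Dv c' x v‖ ≤ C * ‖v‖)
    (l1 : ‖LevD L c x v + (v iD * eS (-w) x) • Dv c x (star v) +
      (conj (v iD) * eS w x) • Dv c x v‖ ≤ C * ‖Dv c x v‖ *
      (‖WW w x v‖ + tau x v + ‖Dv c x v‖ + ‖x.1‖ * ‖Dv c' x v‖))
    (l2 : ‖LevD L c' x v + (v iD * eS w x) • Dv c' x (star v) +
      (conj (v iD) * eS (-w) x) • Dv c' x v‖ ≤ C * ‖Dv c' x v‖ *
      (‖WW (-w) x v‖ + tau x v + ‖Dv c' x v‖ + ‖x.1‖ * ‖Dv c x v‖))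
    (l3 : ‖x.1‖ * ‖LevD L eh x v - (sS x ^ 2 * (conj (v iD) * v iD)) • eh x +
        cS x • (conj (v iD) • P0 v + v iD • P0 (star v))‖ ≤
      C * (‖WW w x v‖ + tau x v + ‖Dv c x v‖ + ‖x.1‖ * ‖Dv c' x v‖) *
        (‖x.1‖ * (‖WW w x v‖ + ‖Dv c x v‖ + ‖Dv c' x v‖) + tau x v)) :
    ‖Dv (fun y => (u y : ℂ)) x v‖ ≤ BC d C * ‖v‖ ∧
      -(BC d C * ‖Dv (fun y => (u y : ℂ)) x v‖ * ‖v‖) ≤ (LevD L (fun y => (u y : ℂ)) x v).re := by
  have d1 : 1 ≤ d := by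
    rw [hd]
    exact_mod_cast Fintype.card_pos_iff.2 ⟨iD⟩
  have sη : star (eh x) = eh x := star_emb0 _
  have nη : ‖eh x‖ = ‖x.1‖ := norm_emb0 _
  have g1 := Dv_star hc rc v
  have g2 := Dv_star hc' rc' v
  have cU := (contDiffAt_UU hc hc' cη).congr_of_eventuallyEq hu
  have hbar : Dv (fun y => (u y : ℂ)) x (star v) = conj (Dv (fun y => (u y : ℂ)) x v) := by
    have := (hasD_of_diff (ev_diff cU).self_of_nhds).conj.eq (star v)
    simpa only [conj_ofReal, star_star] using this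
  have hD := fun z => (congrFun (congrArg DFunLike.coe (Dv_congr hu)) z).trans (Dv_UU hc hc' cη z)
  have hL := (Lev_congr hu (star v) v (Gam L x (star v) v)).trans (Lev_UU hc hc' cη _ _ _)
  have hD1 := hD v
  have hD2 := hD (star v)
  simp only [hη.eq, g1, g2] at hD1 hD2 hL l1 l2
  -- the phases
  obtain ⟨j, hj⟩ : ∃ j : ℂ, j = I * w * sS x := ⟨_, rfl⟩
  have w2 : (w : ℂ) ^ 2 = 1 := by rcases hw with rfl | rfl <;> simp
  have j2 : j ^ 2 + sS x ^ 2 = 0 := by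
    rw [hj]
    linear_combination (w ^ 2 * sS x ^ 2 : ℂ) * I_sq - sS x ^ 2 * w2
  have jc : conj j = -j := by simp [hj, sS]
  have jn : ‖j‖ = sg x := by
    rw [hj, norm_mul, norm_mul, norm_I, sS, norm_real, Real.norm_of_nonneg σ0.le]
    rcases hw with rfl | rfl <;> simp
  have p1 : P0 v = WW w x v + (j * v iD) • eh x := by rw [WW, hj, sub_add_cancel]
  have p2 : P0 (star v) = star (WW w x v) + (-j * conj (v iD)) • eh x := by
    rw [← star_P0, p1, star_add, star_smul, sη, star_def, map_mul, jc]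
  have p3 : WW (-w) x v = WW w x v + (2 * (j * v iD)) • eh x := by
    rw [WW, p1, hj, add_sub_assoc, ← sub_smul]
    congr 2
    push_cast
    ring
  have hτ : tau x v = ‖x.1‖ ^ 2 * ‖j * v iD‖ := by rw [tau, norm_mul, jn]; ring
  have ht : ‖v iD‖ ≤ ‖v‖ := norm_le_pi_norm v iD
  have hs : ‖j * v iD‖ ≤ ‖v‖ := by
    rw [norm_mul, jn]
    exact (mul_le_of_le_one_left (norm_nonneg _) σ1).trans ht
  rw [← hj] at e1 e2
  change Lev _ x (star v) v (Gam L x (star v) v) = 2 * dotB (c x) (LevD L c x v) + _ +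
    _ * (dotB (eh x) (LevD L eh x v) + _) + _ * (dotB (c' x) (LevD L c' x v) + _) + _ at hL
  change LevD L (fun y => (u y : ℂ)) x v = _ at hL
  generalize hRc : LevD L c x v + (v iD * eS (-w) x) • star (Dv c x v) +
    (conj (v iD) * eS w x) • Dv c x v = Rc at l1
  generalize hRc' : LevD L c' x v + (v iD * eS w x) • star (Dv c' x v) +
    (conj (v iD) * eS (-w) x) • Dv c' x v = Rc' at l2
  generalize hRη : LevD L eh x v - (sS x ^ 2 * (conj (v iD) * v iD)) • eh x +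
    cS x • (conj (v iD) • P0 v + v iD • P0 (star v)) = Rη at l3
  rw [show LevD L c x v = Rc - (v iD * eS (-w) x) • star (Dv c x v) -
      (conj (v iD) * eS w x) • Dv c x v by rw [← hRc]; abel,
    show LevD L c' x v = Rc' - (v iD * eS w x) • star (Dv c' x v) -
      (conj (v iD) * eS (-w) x) • Dv c' x v by rw [← hRc']; abel,
    show LevD L eh x v = Rη + (sS x ^ 2 * (conj (v iD) * v iD)) • eh x -
      cS x • (conj (v iD) • P0 v + v iD • P0 (star v)) by rw [← hRη]; abel] at hL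
  rw [p3] at l2
  rw [p1] at hD1
  rw [p2] at hD2
  rw [p1, p2] at hL
  have hW : ‖WW w x v‖ ≤ 2 * ‖v‖ := by
    have n3 : ‖x.1‖ ≤ 1 := (nη ▸ norm_le_of_nsq hε.le u3).trans hε1
    rw [eq_sub_of_add_eq p1.symm]
    refine (norm_sub_le _ _).trans ?_
    rw [norm_smul, nη]
    nlinarith [norm_P0_le v, norm_nonneg (j * v iD), norm_nonneg x.1]
  clear hRc hRc' hRη p1 p2 p3 hD
  generalize Dv c x v = γ at *
  generalize Dv c' x v = γ' at *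
  generalize WW w x v = W at *
  generalize Dv (fun y => (u y : ℂ)) x v = D at *
  generalize LevD L (fun y => (u y : ℂ)) x v = Λ at *
  have f1 := nsq_eq (eh x)
  have f2 := nsq_eq (c' x)
  rw [sη] at f1
  rw [rc'.self_of_nhds] at f2
  simp only [map_add, map_sub, map_smul, add_apply, smul_apply, smul_eq_mul,
    dot_comm (star W) (eh x)] at hD1 hD2 hL
  obtain ⟨a1, a2⟩ := est_D (γ := γ) (γ' := γ') (W := W) (s := j * v iD) (D := D) hε hε1 u1 u2 u3 hd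
    (by rw [hD1]; push_cast; rw [f1, f2])
  have a3 := est_X (γ := γ) (γ' := γ') (W := W) (η := eh x) (Rc := Rc) (Rc' := Rc') (Rη := Rη)
    (X := Λ + conj (v iD) * eS w x * D + v iD * eS (-w) x * conj D) hε hε1 u1 u2 hd (by
      rw [← hbar, hD2, hL, hD1, e1, e2]
      push_cast
      rw [f1, f2, nsq_eq, nsq_eq, nsq_eq]
      linear_combination (2 * (1 + (ε : ℂ)⁻¹ * dotB (c' x) (c' x)) * dotB (eh x) (eh x) *
        (conj (v iD) * v iD)) * j2)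
  rw [nη] at a2 a3
  have n3 : ‖x.1‖ ≤ ε := nη ▸ norm_le_of_nsq hε.le u3
  have q0 : ‖W + (2 * (j * v iD)) • eh x‖ ≤ ‖W‖ + 2 * ‖j * v iD‖ * ‖x.1‖ := by
    refine (norm_add_le _ _).trans ?_
    rw [norm_smul, norm_mul, Complex.norm_two, nη]
  have q1 : (conj (v iD) * eS w x * D).re ≤ ‖v‖ * ‖D‖ := (re_le_norm _).trans (by
    rw [norm_mul, norm_mul, n1, mul_one, norm_conj]
    exact mul_le_mul_of_nonneg_right ht (norm_nonneg _))
  have q2 : (v iD * eS (-w) x * conj D).re ≤ ‖v‖ * ‖D‖ := (re_le_norm _).trans (by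
    rw [norm_mul, norm_mul, n2, mul_one, norm_conj]
    exact mul_le_mul_of_nonneg_right ht (norm_nonneg _))
  rw [add_re, add_re] at a3
  exact tail d1 hC hε hε1 hA (norm_nonneg _) n3 (norm_nonneg _) (norm_nonneg _) (norm_nonneg _)
    (norm_nonneg _) (norm_nonneg _) (norm_nonneg _) hτ hs hW b1 b2 q0 l1 l2 l3 a1 a2 a3 q1 q2

theorem levi_of {w : ℤ} (hw : w = 1 ∨ w = -1) (sg_pos : ∀ x : XX r m p, 0 < sg x)
    (sg_le_one : ∀ x : XX r m p, sg x ≤ 1)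
    (eS_eq : ∀ {w : ℤ}, w = 1 ∨ w = -1 → ∀ x : XX r m p, eS w x = cS x + I * w * sS x)
    (norm_eS : ∀ (w : ℤ) (x : XX r m p), ‖eS w x‖ = 1)
    (ev_LL : ∀ {P : XX r m p → Prop}, (∀ᶠ x in LL r m p, P x) → ∀ᶠ x in LL r m p, ∀ᶠ y in 𝓝 x, P y)
    (hasD_eh : ∀ x : XX r m p, HasD eh (fun v => P0 v) x)
    (contDiff_eh : ContDiff ℝ ω (eh : XX r m p → VV r m p))
    (leaf : ∀ {w : ℤ}, w = 1 ∨ w = -1 → ∃ C : ℝ, ∀ᶠ x in LL r m p,
      ContDiffAt ℝ ω (cc L w) x ∧ IsW w (cc L w x) ∧ star (cc L w x) = cc L w x ∧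
      ‖x.2.1‖ ≤ C * ‖cc L (-1) x‖ ∧ ‖cc L (-1) x‖ ≤ C * ‖x.2.1‖ ∧
      (∀ v, ‖mu L w x v‖ ≤ C * ‖Dv (cc L w) x v‖ ∧ ‖Dv (cc L w) x v‖ ≤ C * ‖v‖) ∧
      ∀ v, ‖LevD L (cc L w) x v + (v iD * eS (-w) x) • Dv (cc L w) x (star v) +
          (conj (v iD) * eS w x) • Dv (cc L w) x v‖ ≤ C * ‖Dv (cc L w) x v‖ *
        (‖WW w x v‖ + tau x v + ‖Dv (cc L w) x v‖ + ‖x.1‖ * ‖Dv (cc L (-w)) x v‖))
    (est_eta : ∃ C : ℝ, ∀ᶠ x in LL r m p, ∀ v,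
      ‖x.1‖ * ‖LevD L eh x v - (sS x ^ 2 * (conj (v iD) * v iD)) • eh x +
          cS x • (conj (v iD) • P0 v + v iD • P0 (star v))‖ ≤
        C * (‖WW w x v‖ + tau x v + ‖Dv (cc L w) x v‖ + ‖x.1‖ * ‖Dv (cc L (-w)) x v‖) *
          (‖x.1‖ * (‖WW w x v‖ + ‖Dv (cc L w) x v‖ + ‖Dv (cc L (-w)) x v‖) + tau x v)) :
    ∃ U ∈ LL r m p,
    ∀ᶠ ε in 𝓝[>] (0 : ℝ), ∃ C : ℝ, ∀ x ∈ U, uu L 1 ε x < ε ^ 2 → uu L (-1) ε x < ε ^ 2 →
      ContDiffAt ℝ ω (uu L w ε) x ∧ ∀ v, ‖Dv (fun y => (uu L w ε y : ℂ)) x v‖ ≤ C * ‖v‖ ∧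
        -(C * ‖Dv (fun y => (uu L w ε y : ℂ)) x v‖ * ‖v‖) ≤
          (LevD L (fun y => (uu L w ε y : ℂ)) x v).re := by
  have hw' : -w = 1 ∨ -w = -1 := by omega
  obtain ⟨C1, h1⟩ := leaf hw
  obtain ⟨C2, h2⟩ := leaf hw'
  obtain ⟨C3, h3⟩ := est_eta
  obtain ⟨C, C0, k1, k2, k3⟩ : ∃ C : ℝ, 0 ≤ C ∧ C1 ≤ C ∧ C2 ≤ C ∧ C3 ≤ C :=
    ⟨max (max 0 C1) (max C2 C3), by simp, by simp, by simp, by simp⟩
  refine ⟨_, (h1.and h2).and (h3.and ((ev_LL (h1.mono fun x h => h.2.2.1)).and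
    (ev_LL (h2.mono fun x h => h.2.2.1)))), ?_⟩
  have t : Tendsto (fun ε : ℝ => AC (Fintype.card (Idx r m p)) C * √ε) (𝓝[>] 0)
      (𝓝 (AC (Fintype.card (Idx r m p)) C * √0)) :=
    tendsto_nhdsWithin_of_tendsto_nhds (Continuous.tendsto (by fun_prop) _)
  filter_upwards [Ioo_mem_nhdsGT (zero_lt_one' ℝ), t.eventually_le_const (u := 2 / 3) (by simp)]
    with ε hε hA
  refine ⟨BC (Fintype.card (Idx r m p)) C, ?_⟩
  rintro x ⟨⟨⟨a1, -, -, -, -, a2, a3⟩, b1, -, -, -, -, b2, b3⟩, c1, r1, r2⟩ v1 v2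
  have hu : (fun y => (uu L w ε y : ℂ)) =ᶠ[𝓝 x] UU (cc L w) (cc L (-w)) eh ((ε⁻¹ : ℝ) : ℂ) := by
    filter_upwards [r1, r2] with y y1 y2
    have y3 : star (eh y) = eh y := star_emb0 _
    simp only [uu, UU, ofReal_add, ofReal_mul, nsq_eq, y1, y2, y3, ofReal_one]
    ring
  have hn : ∀ w, uu L w ε x < ε ^ 2 → nsq (cc L w x) ≤ ε ^ 2 ∧ nsq (eh x) ≤ ε ^ 2 := fun w h => by
    have q1 := nsq_nonneg (cc L w x)
    have q2 := nsq_nonneg (eh x)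
    have q3 := mul_nonneg q2 (mul_nonneg (inv_pos.2 hε.1).le (nsq_nonneg (cc L (-w) x)))
    rw [uu, mul_add] at h
    constructor <;> linarith
  have v3 : uu L w ε x < ε ^ 2 := by rcases hw with rfl | rfl <;> assumption
  have v4 : uu L (-w) ε x < ε ^ 2 := by
    rcases hw with rfl | rfl
    · exact v2
    · exact v1
  have τ0 : ∀ v, 0 ≤ tau x v := fun v => by
    have := sg_pos x
    unfold tau
    positivity
  refine ⟨(reCLM.contDiff.contDiffAt.comp x (contDiffAt_UU (l := ((ε⁻¹ : ℝ) : ℂ)) a1 b1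
    contDiff_eh.contDiffAt)).congr_of_eventuallyEq (hu.mono fun y hy => congrArg re hy),
    fun v => ?_⟩
  have := τ0 v
  refine point hw rfl C0 hε.1 hε.2.le hA (sg_pos x) (sg_le_one x) (eS_eq hw x)
    (by rw [eS_eq hw']; push_cast; ring) (norm_eS _ _) (norm_eS _ _) (hasD_eh x)
    (contDiff_eh.contDiffAt.of_le le_top) (a1.of_le le_top) (b1.of_le le_top) r1 r2 hu (hn _ v3).1
    (hn _ v4).1 (hn _ v3).2 v ((a2 v).2.trans (by gcongr)) ((b2 v).2.trans (by gcongr))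
    ((a3 v).trans (by gcongr)) ?_ ((c1 v).trans (by gcongr))
  have := b3 v
  rw [neg_neg] at this
  exact this.trans (by gcongr)

end Pool.Agent.Lib.MP_e2ef7e_al.Gen.H76
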