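import Pool.Agent.Lib.MP_e2ef7e_al.GeoLevi

/-!
The data for the `L²` method.
-/

open Complex Filter Topology Set
open scoped ComplexConjugate ContDiff

noncomputable section

namespace Pool.Agent.Lib.MP_e2ef7e_al.Gen

variable {r m p : ℕ} {L : LieD (Idx r m p)}

namespace Gm

lemma pd_ofReal (f : XX r m p → ℝ) (w : XX r m p) :
    pd (fun y => (f y : ℂ)) w = fun y => ((pd f w y : ℝ) : ℂ) := by
  funext y
  by_cases h : DifferentiableAt ℝ f y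
  · have := (ofRealCLM.hasFDerivAt.comp y h.hasFDerivAt).fderiv
    exact congrArg (fun A => A w) this
  · have h' : ¬ DifferentiableAt ℝ (fun y => (f y : ℂ)) y := fun h' =>
      h (reCLM.differentiableAt.comp y h')
    simp [pd, fderiv_zero_of_not_differentiableAt h, fderiv_zero_of_not_differentiableAt h']

lemma Dv_real (f : XX r m p → ℝ) (x : XX r m p) (v : VV r m p) :
    Dv (fun y => (f y : ℂ)) x v = ∑ j, ((pd f (dir j) x : ℝ) : ℂ) * v j := by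
  rw [Dv_apply]
  exact Finset.sum_congr rfl fun j _ => by
    rw [smul_eq_mul, mul_comm]; exact congrArg (· * v j) (congrFun (pd_ofReal f (dir j)) x)

lemma Dv_star (f : XX r m p → ℝ) (x : XX r m p) (v : VV r m p) :
    Dv (fun y => (f y : ℂ)) x (star v) = conj (Dv (fun y => (f y : ℂ)) x v) := by
  simp [Dv_real, -Fintype.sum_sum_type]

lemma Gam_sum (x : XX r m p) (u v : VV r m p) :
    Gam L x u v = ∑ k, ∑ j, (u k * v j) • Gam L x (bv k) (bv j) := by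
  let G : VV r m p →ₗ[ℂ] VV r m p →ₗ[ℂ] VV r m p := LinearMap.mk₂ ℂ (Gam L x)
    (fun a b c => by simp only [Gam, map_add, add_apply, smul_add]; abel)
    (fun a b c => by simp only [Gam, map_add, map_smul, smul_apply, smul_add, smul_comm a])
    (fun a b c => by
      simp only [Gam, map_add, add_apply, Pi.add_apply, mul_add, add_smul]; abel)
    (fun a b c => by
      simp only [Gam, map_add, map_smul, smul_apply, smul_add, Pi.smul_apply, smul_eq_mul,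
        smul_smul, mul_left_comm a])
  change G u v = ∑ k, ∑ j, (u k * v j) • G (bv k) (bv j)
  conv_lhs => rw [← sum_smul_bv u, ← sum_smul_bv v]
  simp only [map_sum, map_smul, LinearMap.sum_apply, LinearMap.smul_apply, Finset.smul_sum,
    smul_smul]
  rw [Finset.sum_comm]
  exact Finset.sum_congr rfl fun k _ => Finset.sum_congr rfl fun j _ => by rw [mul_comm]

lemma ofR {f : XX r m p → ℝ} {x : XX r m p} {n : WithTop ℕ∞} (h : ContDiffAt ℝ n f x) :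
    ContDiffAt ℝ n (fun y => (f y : ℂ)) x := ofRealCLM.contDiff.contDiffAt.comp x h

lemma levi_sum {f : XX r m p → ℝ} {x : XX r m p} (h : ContDiffAt ℝ 2 f x) (v : VV r m p) :
    ∑ k, ∑ j, conj (v k) * v j * (((pd (pd f (dir j)) (dir k) x : ℝ) : ℂ) -
      ∑ l, Gam L x (bv k) (bv j) l * ((pd f (dir l) x : ℝ) : ℂ)) =
      LevD L (fun y => (f y : ℂ)) x v := by
  rw [LevD, Lev, Dv_Dv (ofR h), Gam_sum, map_sum, ← Finset.sum_sub_distrib]
  refine Finset.sum_congr rfl fun k _ => ?_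
  rw [map_sum, ← Finset.sum_sub_distrib]
  refine Finset.sum_congr rfl fun j _ => ?_
  rw [map_smul, Dv_real, pd_ofReal, pd_ofReal]
  simp only [smul_eq_mul, Pi.star_apply, RCLike.star_def, mul_sub, mul_comm]

lemma lin2 {f g : XX r m p → ℝ} {x : XX r m p} (hf : ContDiffAt ℝ 2 f x) (hg : ContDiffAt ℝ 2 g x)
    (a b c : ℝ) (v : VV r m p) :
    Dv (fun y => ((a * f y + b * g y + c : ℝ) : ℂ)) x v =
      a * Dv (fun y => (f y : ℂ)) x v + b * Dv (fun y => (g y : ℂ)) x v ∧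
    LevD L (fun y => ((a * f y + b * g y + c : ℝ) : ℂ)) x v =
      a * LevD L (fun y => (f y : ℂ)) x v + b * LevD L (fun y => (g y : ℂ)) x v := by
  have e : (fun y => ((a * f y + b * g y + c : ℝ) : ℂ)) =
      fun y => (a : ℂ) • (f y : ℂ) + (b : ℂ) • (g y : ℂ) + c := by
    funext y; simp
  have h1 : ∀ᶠ y in 𝓝 x, HasD (fun y => (a : ℂ) • (f y : ℂ) + (b : ℂ) • (g y : ℂ) + c)
      (fun v => (a : ℂ) • Dv (fun y => (f y : ℂ)) y v + (b : ℂ) • Dv (fun y => (g y : ℂ)) y v + 0)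
      y := ((ev_diff (ofR hf)).and (ev_diff (ofR hg))).mono fun y hy =>
    (((hasD_of_diff hy.1).const_smul _).add ((hasD_of_diff hy.2).const_smul _)).add (hasD_const _)
  rw [e, LevD, Lev_eq h1 ((((hasD_Dv (ofR hf) v).const_smul (a : ℂ)).add
    ((hasD_Dv (ofR hg) v).const_smul (b : ℂ))).add (hasD_const _)), h1.self_of_nhds.eq]
  simp only [LevD, Lev, smul_eq_mul]
  constructor <;> ring

/-- the barrier -/
def bar (e : ℝ) (u : XX r m p → ℝ) (x : XX r m p) : ℝ := -Real.log (e - u x) + Real.log e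

lemma bar_smooth {e : ℝ} {u : XX r m p → ℝ} {x : XX r m p} {n : WithTop ℕ∞}
    (h : ContDiffAt ℝ n u x) (h0 : u x < e) : ContDiffAt ℝ n (bar e u) x :=
  ((contDiffAt_const.sub h).log (sub_pos.2 h0).ne').neg.add contDiffAt_const

lemma bar_est {e C : ℝ} {u : XX r m p → ℝ} {x : XX r m p} (h : ContDiffAt ℝ 2 u x) (h0 : u x < e)
    (v : VV r m p) (h1 : -(C * ‖Dv (fun y => (u y : ℂ)) x v‖ * ‖v‖) ≤
      (LevD L (fun y => (u y : ℂ)) x v).re) :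
    ‖Dv (fun y => (bar e u y : ℂ)) x v‖ = (e - u x)⁻¹ * ‖Dv (fun y => (u y : ℂ)) x v‖ ∧
      ‖Dv (fun y => (bar e u y : ℂ)) x v‖ ^ 2 - C * ‖Dv (fun y => (bar e u y : ℂ)) x v‖ * ‖v‖ ≤
        (LevD L (fun y => (bar e u y : ℂ)) x v).re := by
  have hp := sub_pos.2 h0
  have hg : ContDiffAt ℝ 2 (fun y => e - u y) x := contDiffAt_const.sub h
  have hl : ContDiffAt ℝ 2 (fun y => -Real.log (e - u y)) x := (hg.log hp.ne').neg
  have e1 : (fun y => ((e - u y : ℝ) : ℂ)) = fun y => ((-1 * u y + 0 * u y + e : ℝ) : ℂ) := by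
    funext y; congr 1; ring
  have e2 : (fun y => (bar e u y : ℂ)) = fun y =>
      ((1 * -Real.log (e - u y) + 0 * u y + Real.log e : ℝ) : ℂ) := by
    funext y; congr 1; simp [bar]
  have k1 := fun v => lin2 (L := L) h h (-1) 0 e v
  have k2 := lin2 (L := L) hl h 1 0 (Real.log e) v
  have k3 := Lev_log hg hp.ne' (star v) v (Gam L x (star v) v)
  have k4 := (hasD_log (hg.differentiableAt two_ne_zero) hp.ne').eq v
  rw [← e1] at k1
  rw [← LevD, ← LevD, (k1 v).1, (k1 _).1, (k1 v).2, Dv_star] at k3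
  rw [(k1 v).1] at k4
  rw [e2, k2.1, k2.2, k3, k4]
  generalize Dv (fun y => (u y : ℂ)) x v = A at *
  generalize LevD L (fun y => (u y : ℂ)) x v = B at *
  generalize e - u x = t at *
  have n : ‖((1 : ℝ) : ℂ) * -((t : ℂ)⁻¹ * (((-1 : ℝ) : ℂ) * A + ((0 : ℝ) : ℂ) * A)) +
      ((0 : ℝ) : ℂ) * A‖ = t⁻¹ * ‖A‖ := by simp [abs_of_pos hp]
  refine ⟨n, ?_⟩
  rw [n]
  have e3 : ((1 : ℝ) : ℂ) * (-((t : ℂ)⁻¹ * (((-1 : ℝ) : ℂ) * B + ((0 : ℝ) : ℂ) * B)) +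
      (t : ℂ)⁻¹ ^ 2 * ((((-1 : ℝ) : ℂ) * conj A + ((0 : ℝ) : ℂ) * conj A) *
        (((-1 : ℝ) : ℂ) * A + ((0 : ℝ) : ℂ) * A))) + ((0 : ℝ) : ℂ) * B =
      ((t⁻¹ : ℝ) : ℂ) * B + (((t⁻¹ * ‖A‖) ^ 2 : ℝ) : ℂ) := by
    push_cast
    linear_combination (t : ℂ)⁻¹ ^ 2 * conj_mul' A
  rw [e3, add_re, re_ofReal_mul, ofReal_re]
  nlinarith [mul_le_mul_of_nonneg_left h1 (inv_pos.2 hp).le]

lemma bar_nonneg {e : ℝ} {u : XX r m p → ℝ} {x : XX r m p} (h : 0 ≤ u x) (h0 : u x < e) :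
    0 ≤ bar e u x := by
  have := Real.log_le_log (sub_pos.2 h0) (sub_le_self e h)
  simp only [bar]; linarith

lemma exp_bar {e : ℝ} {u : XX r m p → ℝ} {x : XX r m p} (he : 0 < e) (h0 : u x < e) :
    (e - u x)⁻¹ = e⁻¹ * Real.exp (bar e u x) := by
  rw [bar, Real.exp_add, Real.exp_neg, Real.exp_log he, Real.exp_log (sub_pos.2 h0)]
  field_simp

lemma bar_le {e : ℝ} {u : XX r m p → ℝ} {x : XX r m p} (he : 0 < e) (h : 0 ≤ u x)
    (h0 : u x ≤ e / 2) : bar e u x ≤ 2 / e * u x := by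
  have hp : 0 < e - u x := by linarith
  have h1 := Real.log_le_sub_one_of_pos (div_pos he hp)
  rw [Real.log_div he.ne' hp.ne'] at h1
  have h2 : e / (e - u x) - 1 ≤ 2 / e * u x := by
    rw [div_sub_one hp.ne', div_mul_eq_mul_div, div_le_div_iff₀ hp he]; nlinarith
  simp only [bar]; linarith

/-- the number of coordinates -/
def dd (r m p : ℕ) : ℝ := Fintype.card (Idx r m p)

lemma one_le_dd : 1 ≤ dd r m p := by
  have : Nonempty (Idx r m p) := ⟨iD⟩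
  exact Nat.one_le_cast.2 Fintype.card_pos

lemma nsq_nonneg (z : VV r m p) : 0 ≤ nsq z := Finset.sum_nonneg fun _ _ => sq_nonneg _

lemma le_nsq (z : VV r m p) : ‖z‖ ^ 2 ≤ nsq z := by
  have : ‖z‖ ≤ √(nsq z) := (pi_norm_le_iff_of_nonneg (Real.sqrt_nonneg _)).2 fun i =>
    Real.le_sqrt_of_sq_le (Finset.single_le_sum (f := fun i => ‖z i‖ ^ 2)
      (fun _ _ => sq_nonneg _) (Finset.mem_univ i))
  exact (pow_le_pow_left₀ (norm_nonneg _) this 2).trans_eq (Real.sq_sqrt (nsq_nonneg z))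

lemma nsq_le (z : VV r m p) : nsq z ≤ dd r m p * ‖z‖ ^ 2 := by
  simpa [dd, nsq, -Fintype.sum_sum_type, -Fintype.card_sum] using
    Finset.sum_le_card_nsmul Finset.univ (fun i => ‖z i‖ ^ 2) (‖z‖ ^ 2) fun i _ =>
      pow_le_pow_left₀ (norm_nonneg _) (norm_le_pi_norm z i) 2

lemma dot_le (a b : VV r m p) : ‖dotB a b‖ ≤ dd r m p * (‖a‖ * ‖b‖) := by
  rw [dotB_apply]
  refine (norm_sum_le _ _).trans ?_
  simpa [dd, -Fintype.sum_sum_type, -Fintype.card_sum] using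
    Finset.sum_le_card_nsmul Finset.univ (fun i => ‖a i * b i‖) (‖a‖ * ‖b‖) fun i _ => by
      rw [norm_mul]; gcongr <;> exact norm_le_pi_norm _ i

lemma dot_comm (a b : VV r m p) : dotB a b = dotB b a := by simp only [dotB_apply, mul_comm]

lemma continuous_nsq : Continuous (nsq : VV r m p → ℝ) := by unfold nsq; fun_prop

def zz (x : XX r m p) : VV r m p := eh x + bh x + ah x

def QQ (v : VV r m p) : VV r m p := P0 v + Pw (-1) v + Pw 1 v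

lemma QQ_apply (v : VV r m p) (i) : QQ v i = if i = iD then 0 else v i := by
  have : QQ v = v - v iD • bv iD := by
    rw [QQ, P0_apply]; linear_combination Pw_sum v
  rw [this]; split_ifs with h <;> simp [bv, h]

lemma norm_QQ (v : VV r m p) : ‖QQ v‖ ≤ ‖v‖ :=
  (pi_norm_le_iff_of_nonneg (norm_nonneg _)).2 fun i => by
    rw [QQ_apply]; split_ifs
    · simp
    · exact norm_le_pi_norm v i

lemma dot_QQ (v : VV r m p) : dotB (QQ (star v)) (QQ v) = (nsq v : ℝ) - conj (v iD) * v iD := by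
  rw [dotB_apply, nsq, ofReal_sum, eq_sub_iff_add_eq, ← Finset.add_sum_erase _ _ (Finset.mem_univ iD),
    ← Finset.add_sum_erase _ _ (Finset.mem_univ iD), conj_mul', QQ_apply, if_pos rfl, zero_mul,
    zero_add, add_comm, ofReal_pow]
  refine congrArg _ (Finset.sum_congr rfl fun i hi => ?_)
  rw [QQ_apply, QQ_apply, if_neg (Finset.ne_of_mem_erase hi), if_neg (Finset.ne_of_mem_erase hi)]
  simpa using conj_mul' (v i)

def rho (x : XX r m p) : ℝ := ∑ k, x.1 k ^ 2 + ∑ k, x.2.1 k ^ 2 + ∑ k, x.2.2.2 k ^ 2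

lemma rho_eq (x : XX r m p) : (rho x : ℂ) = dotB (zz x) (zz x) := by
  simp [rho, dotB_apply, zz, eh, bh, ah, emb0_apply, embm_apply, embp_apply, sq, add_assoc]

lemma rho_eq' (x : XX r m p) : rho x = nsq (eh x) + nsq (bh x) + nsq (ah x) := by
  simp [rho, nsq, eh, bh, ah, emb0_apply, embm_apply, embp_apply]

def psi (x : XX r m p) : ℝ := rho x - Real.log (sg x)

lemma psi_smooth {n : WithTop ℕ∞} : ContDiff ℝ n (psi : XX r m p → ℝ) :=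
  ContDiff.sub (by unfold rho; fun_prop) (contDiff_sg.log fun x => (sg_pos x).ne')

lemma log_sg (x : XX r m p) : Real.log (sg x) ≤ 0 := Real.log_nonpos (sg_pos x).le (sg_le_one x)

lemma psi_est (hL : Graded L) {x : XX r m p} (hu : IsUnit (Qh L x)) {C : ℝ} (hC : 1 ≤ C)
    (hΓ : ∀ u v, ‖Gam L x u v‖ ≤ C * ‖u‖ * ‖v‖) (hz : 4 * dd r m p * C * ‖zz x‖ ≤ 1)
    (v : VV r m p) : ‖Dv (fun y => (psi y : ℂ)) x v‖ ≤ 2 * ‖v‖ ∧
      nsq v / 2 ≤ (LevD L (fun y => (psi y : ℂ)) x v).re := by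
  have hz' : ∀ y : XX r m p, HasD zz QQ y := fun y =>
    ((hasD_eh y).add (hasD_bh y)).add (hasD_ah y)
  have hl : ∀ y : XX r m p, HasD (fun y => ((-Real.log (sg y) : ℝ) : ℂ))
      (fun v => -(cS y • v iD)) y := fun y =>
    (hasD_log (contDiff_sg.differentiable one_ne_zero y) (sg_pos y).ne').congr' fun v => by
      have : (sg y : ℂ) ≠ 0 := ofReal_ne_zero.2 (sg_pos y).ne'
      rw [show Dv (fun y => (sg y : ℂ)) y v = _ from (hasD_sS y).eq v, sS, smul_eq_mul]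
      field_simp
  have e : (fun y : XX r m p => (psi y : ℂ)) =
      fun y => dotB (zz y) (zz y) + ((-Real.log (sg y) : ℝ) : ℂ) := by
    funext y; rw [← rho_eq, psi]; push_cast; ring
  have h1 := fun y => ((hz' y).bilin dotB (hz' y)).add (hl y)
  have h2 := (((hasD_const (QQ v)).bilin dotB (hz' x)).add
    ((hz' x).bilin dotB (hasD_const (QQ v)))).add ((hasD_cS x).smul (hasD_const (v iD))).neg
  have hc : ‖cS x‖ ≤ 1 := by rw [cS, norm_real]; exact Real.abs_cos_le_one _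
  have hd := one_le_dd (r := r) (m := m) (p := p)
  have hv := norm_le_pi_norm v iD
  rw [e, LevD, Lev_eq (Eventually.of_forall h1) h2, (h1 x).eq, Gam_iD hL hu,
    dot_comm (QQ v) (zz x), dot_comm (QQ v) (QQ _), dot_QQ, dot_comm (QQ _) (zz x)]
  constructor
  · have a1 := (dot_le (zz x) (QQ v)).trans
      (mul_le_mul_of_nonneg_left (mul_le_mul_of_nonneg_left (norm_QQ v) (norm_nonneg _))
        (by linarith))
    have a2 : ‖-(cS x • v iD)‖ ≤ ‖v‖ := by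
      rw [norm_neg, norm_smul]; nlinarith [norm_nonneg (v iD)]
    have a3 : dd r m p * ‖zz x‖ * 1 ≤ dd r m p * ‖zz x‖ * C := by gcongr
    refine norm_add₃_le.trans ?_
    nlinarith [norm_nonneg v]
  · have a1 := (dot_le (zz x) (QQ (Gam L x (star v) v))).trans
      (mul_le_mul_of_nonneg_left (mul_le_mul_of_nonneg_left ((norm_QQ _).trans (hΓ _ _))
        (norm_nonneg _)) (by linarith))
    generalize dotB (zz x) (QQ (Gam L x (star v) v)) = A at *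
    have a2 := (re_le_norm A).trans a1
    rw [norm_star] at a2
    have a3 := le_nsq v
    have a4 : ‖v iD‖ ^ 2 ≤ ‖v‖ ^ 2 := by gcongr
    simp only [map_zero, zero_apply, zero_add, add_zero, smul_eq_mul, Pi.star_apply,
      RCLike.star_def, mul_zero]
    have e2 : (nsq v : ℂ) - conj (v iD) * v iD + ((nsq v : ℂ) - conj (v iD) * v iD) +
        -(-(sS x ^ 2 * conj (v iD)) * v iD) - (A + A + -(cS x * (cS x * (conj (v iD) * v iD)))) =
        ((2 * nsq v - ‖v iD‖ ^ 2 : ℝ) : ℂ) - (A + A) := by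
      push_cast
      linear_combination (conj (v iD) * v iD) * cS_sq x - conj_mul' (v iD)
    rw [e2, sub_re, ofReal_re, add_re]
    nlinarith [mul_le_mul_of_nonneg_right hz (sq_nonneg ‖v‖)]

lemma lin3 {f g k : XX r m p → ℝ} {x : XX r m p} (hf : ContDiffAt ℝ 2 f x)
    (hg : ContDiffAt ℝ 2 g x) (hk : ContDiffAt ℝ 2 k x) (a : ℝ) (v : VV r m p) :
    Dv (fun y => ((f y + g y + a * k y : ℝ) : ℂ)) x v = Dv (fun y => (f y : ℂ)) x v +
      Dv (fun y => (g y : ℂ)) x v + a * Dv (fun y => (k y : ℂ)) x v ∧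
    LevD L (fun y => ((f y + g y + a * k y : ℝ) : ℂ)) x v = LevD L (fun y => (f y : ℂ)) x v +
      LevD L (fun y => (g y : ℂ)) x v + a * LevD L (fun y => (k y : ℂ)) x v := by
  have h1 := lin2 (L := L) hf hg 1 1 0 v
  have h2 := lin2 (L := L) (hf.add hg) hk 1 a 0 v
  simp only [one_mul, add_zero, ofReal_one] at h1 h2
  rw [h2.1, h2.2, h1.1, h1.2]
  exact ⟨rfl, rfl⟩

lemma fin_ineq {N n P Q D Λ X L1 L2 L3 : ℝ} (hn : n ^ 2 ≤ N) (h0 : 0 ≤ X)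
    (hX : X ≤ P + Q + Λ * (2 * n)) (h1 : P ^ 2 - D * P * n ≤ L1) (h2 : Q ^ 2 - D * Q * n ≤ L2)
    (h3 : N / 2 ≤ L3) (hΛ : Λ = 4 + 4 * D ^ 2) : N + (12 * Λ ^ 2)⁻¹ * X ^ 2 ≤ L1 + L2 + Λ * L3 := by
  have a0 : 1 ≤ Λ := by nlinarith
  have a1 : 1 ≤ Λ ^ 2 := one_le_pow₀ a0
  have a2 : X ^ 2 ≤ 12 * Λ ^ 2 * ((P ^ 2 + Q ^ 2) / 4 + n ^ 2) := by
    nlinarith [pow_le_pow_left₀ h0 hX 2, sq_nonneg (P - Q), sq_nonneg (P - Λ * (2 * n)),
      sq_nonneg (Q - Λ * (2 * n)), mul_le_mul_of_nonneg_right a1 (add_nonneg (sq_nonneg P) (sq_nonneg Q))]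
  rw [← inv_mul_le_iff₀ (by positivity)] at a2
  have a3 := mul_le_mul_of_nonneg_left h3 (zero_le_one.trans a0)
  rw [hΛ] at a3 ⊢
  rw [hΛ] at a2
  nlinarith [sq_nonneg (P / 2 - D * n), sq_nonneg (Q / 2 - D * n), sq_nonneg P, sq_nonneg Q,
    mul_le_mul_of_nonneg_left hn (sq_nonneg D)]

lemma cpt {K B : Set (XX r m p)} {φ : XX r m p → ℝ} (hK : IsCompact K) (hB : K ⊆ B)
    (hφ : ContinuousOn φ B) {M : ℝ} (h : ∀ x ∈ B, φ x ≤ M → x ∈ K) :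
    IsCompact {x | x ∈ B ∧ φ x ≤ M} := by
  have : {x | x ∈ B ∧ φ x ≤ M} = K ∩ φ ⁻¹' Iic M :=
    Set.ext fun x => ⟨fun k => ⟨h x k.1 k.2, k.2⟩, fun k => ⟨hB k.1, k.2⟩⟩
  rw [this]
  exact hK.of_isClosed_subset ((hφ.mono hB).preimage_isClosed_of_isClosed hK.isClosed isClosed_Iic)
    inter_subset_left

def lat (x : XX r m p) : (Fin r → ℝ) × (Fin m → ℝ) × (Fin p → ℝ) := (x.1, x.2.1, x.2.2.2)

lemma continuous_lat : Continuous fun x : XX r m p => ‖lat x‖ := by unfold lat; fun_prop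

lemma lat_lt {x : XX r m p} {δ : ℝ} : ‖lat x‖ < δ ↔ ‖x.1‖ < δ ∧ ‖x.2.1‖ < δ ∧ ‖x.2.2.2‖ < δ := by
  simp [lat, Prod.norm_def]

lemma lat_le {x : XX r m p} {δ : ℝ} : ‖lat x‖ ≤ δ ↔ ‖x.1‖ ≤ δ ∧ ‖x.2.1‖ ≤ δ ∧ ‖x.2.2.2‖ ≤ δ := by
  simp [lat, Prod.norm_def]

lemma ev_delta {P : XX r m p → Prop} (h : ∀ᶠ x in LL r m p, P x) :
    ∀ᶠ δ in 𝓝[>] (0 : ℝ), ∀ x, ‖lat x‖ < δ → P x := by
  obtain ⟨δ, h0, h⟩ := Metric.eventually_nhds_iff.1 (eventually_comap.1 h)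
  filter_upwards [Ioo_mem_nhdsGT h0] with t ht x hx
  exact h (by rw [dist_zero_right]; exact hx.trans ht.2) x rfl

lemma ev_small (K : ℝ) {c : ℝ} (hc : 0 < c) : ∀ᶠ δ in 𝓝[>] (0 : ℝ), K * δ ≤ c :=
  (((continuous_const.mul continuous_id).tendsto' 0 0 (by simp)).eventually
    (ge_mem_nhds hc)).filter_mono nhdsWithin_le_nhds

lemma norm_zz (x : XX r m p) : ‖zz x‖ ≤ 3 * ‖lat x‖ := by
  have := lat_le.1 (le_refl ‖lat x‖)
  refine norm_add₃_le.trans ?_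
  rw [eh, bh, ah, norm_emb0, norm_embm, norm_embp]
  linarith [this.1, this.2.1, this.2.2]

lemma uu_ge {ε : ℝ} (hε : 0 < ε) (w : ℤ) (x : XX r m p) :
    nsq (cc L w x) + nsq (eh x) ≤ uu L w ε x := by
  have := mul_nonneg (nsq_nonneg (eh x)) (mul_nonneg (inv_pos.2 hε).le (nsq_nonneg (cc L (-w) x)))
  simp only [uu]; linarith

lemma uu_nonneg {ε : ℝ} (hε : 0 < ε) (w : ℤ) (x : XX r m p) : 0 ≤ uu L w ε x :=
  (add_nonneg (nsq_nonneg _) (nsq_nonneg _)).trans (uu_ge hε w x)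

lemma uu_le {ε t : ℝ} (hε : 0 < ε) (ht : t ≤ ε) {w : ℤ} {x : XX r m p} (h1 : nsq (cc L w x) ≤ t)
    (h2 : nsq (cc L (-w) x) ≤ t) (h3 : nsq (eh x) ≤ t) : uu L w ε x ≤ 3 * t := by
  have a : ε⁻¹ * nsq (cc L (-w) x) ≤ 1 := by rw [inv_mul_le_iff₀ hε]; linarith
  have := mul_le_mul_of_nonneg_left a (nsq_nonneg (eh x))
  simp only [uu]; linarith

lemma uu_cont {ε : ℝ} {w : ℤ} {x : XX r m p} (h1 : ContinuousAt (cc L w) x)
    (h2 : ContinuousAt (cc L (-w)) x) : ContinuousAt (uu L w ε) x :=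
  (continuous_nsq.continuousAt.comp h1).add
    ((continuous_nsq.comp (contDiff_eh (n := 0)).continuous).continuousAt.mul
      (continuousAt_const.add (continuousAt_const.mul (continuous_nsq.continuousAt.comp h2))))

lemma pd_Om (x : XX r m p) (j k) :
    pd (fun y => Om L y (bv j)) (dir k) x = Dv (Om L) x (bv k) (bv j) := by
  rw [← Dv_bv, ((hasD_of_diff (contDiff_Om.differentiable one_ne_zero x)).app_const _).eq]

lemma torsion (hL : Graded L) {x : XX r m p} (hu : IsUnit (Qh L x)) (k j) :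
    star (Dv (Om L) x (bv j) (bv k)) - Dv (Om L) x (bv k) (bv j) +
      L.br (star (Om L x (bv k))) (Om L x (bv j)) =
      ∑ l, Gam L x (bv k) (bv j) l • (star (Om L x (bv l)) - Om L x (bv l)) := by
  have h0 := hasD_of_diff ((contDiff_Om (L := L)).differentiable one_ne_zero x)
  have h1 := Gam_spec hu (bv k) (bv j)
  have h2 := Om_mc hL x (bv j) (bv k)
  rw [show Dv (fun y => imop (Om L y)) x (bv j) = _ from
    ((h0.sub h0.cjop).const_smul (-I / 2)).eq (bv j)] at h1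
  have h3 : ∑ l, Gam L x (bv k) (bv j) l • (star (Om L x (bv l)) - Om L x (bv l)) =
      (cjop (Om L x) - Om L x) (Gam L x (bv k) (bv j)) := by
    conv_rhs => rw [← sum_smul_bv (Gam L x (bv k) (bv j))]
    simp only [map_sum, map_smul, sub_apply, cjop_apply, star_bv]
  simp only [imop, smul_apply, sub_apply, map_smul, map_sub, ← smul_add, star_bv,
    cjop_apply _ (bv k)] at h1
  have h4 := smul_right_injective _ (div_ne_zero (neg_ne_zero.2 I_ne_zero) two_ne_zero) h1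
  rw [h3, sub_apply]
  linear_combination h4 - h2

lemma levi2 (hL : Graded L) : ∃ U ∈ LL r m p, ∀ᶠ ε in 𝓝[>] (0 : ℝ), ∃ D : ℝ, 0 ≤ D ∧
    ∀ w : ℤ, w = 1 ∨ w = -1 → ∀ x ∈ U, uu L 1 ε x < ε ^ 2 → uu L (-1) ε x < ε ^ 2 →
      ContDiffAt ℝ ω (uu L w ε) x ∧ ∀ v, ‖Dv (fun y => (uu L w ε y : ℂ)) x v‖ ≤ D * ‖v‖ ∧
        -(D * ‖Dv (fun y => (uu L w ε y : ℂ)) x v‖ * ‖v‖) ≤
          (LevD L (fun y => (uu L w ε y : ℂ)) x v).re := by
  obtain ⟨U1, hU1, k1⟩ := levi_uu hL (Or.inl rfl)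
  obtain ⟨U2, hU2, k2⟩ := levi_uu hL (Or.inr rfl)
  refine ⟨U1 ∩ U2, inter_mem hU1 hU2, ?_⟩
  filter_upwards [k1, k2] with ε ⟨C1, h1⟩ ⟨C2, h2⟩
  have a1 : C1 ≤ |C1| + |C2| := (le_abs_self _).trans (le_add_of_nonneg_right (abs_nonneg _))
  have a2 : C2 ≤ |C1| + |C2| := (le_abs_self _).trans (le_add_of_nonneg_left (abs_nonneg _))
  refine ⟨|C1| + |C2|, by positivity, ?_⟩
  rintro w (rfl | rfl) x hx b1 b2
  · obtain ⟨c1, c2⟩ := h1 x hx.1 b1 b2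
    exact ⟨c1, fun v => ⟨(c2 v).1.trans (by gcongr), le_trans (by gcongr) (c2 v).2⟩⟩
  · obtain ⟨c1, c2⟩ := h2 x hx.2 b1 b2
    exact ⟨c1, fun v => ⟨(c2 v).1.trans (by gcongr), le_trans (by gcongr) (c2 v).2⟩⟩

lemma cube (hL : Graded L) : ∃ C : ℝ, 1 ≤ C ∧ ∀ᶠ x in LL r m p, IsUnit (Qh L x) ∧
    (∀ u v, ContDiffAt ℝ ω (fun y => Gam L y u v) x) ∧ (∀ u v, ‖Gam L x u v‖ ≤ C * ‖u‖ * ‖v‖) ∧
    (∀ k j l, ‖pd (fun y => Gam L y (bv k) (bv j) l) (dir l) x‖ ≤ C) ∧ ‖Om L x‖ ≤ C ∧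
    ContinuousAt (cc L 1) x ∧ ContinuousAt (cc L (-1)) x ∧
    ‖x.2.1‖ ≤ C * ‖cc L (-1) x‖ ∧ ‖cc L (-1) x‖ ≤ C * ‖x.2.1‖ := by
  obtain ⟨C1, h1⟩ := good_bd hL
  obtain ⟨C2, h2⟩ := leaf hL (Or.inl rfl)
  obtain ⟨C3, h3⟩ := leaf hL (Or.inr rfl)
  have a1 : C1 ≤ max 1 (max C1 C2) := le_max_of_le_right (le_max_left _ _)
  have a2 : C2 ≤ max 1 (max C1 C2) := le_max_of_le_right (le_max_right _ _)
  refine ⟨max 1 (max C1 C2), le_max_left _ _, ?_⟩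
  filter_upwards [h1, h2, h3] with x ⟨b1, b2, b3, b4, b5, _⟩ ⟨c1, _, _, c2, c3, _⟩ ⟨d1, _⟩
  exact ⟨b1, b2, fun u v => (b3 u v).trans (by gcongr), fun k j l => (b4 k j l).trans a1,
    b5.trans a1, c1.continuousAt, d1.continuousAt, c2.trans (by gcongr), c3.trans (by gcongr)⟩

lemma norm_bv (i : Idx r m p) : ‖bv i‖ = 1 := by simp [bv, Pi.norm_single]

variable (L) in
/-- the domain -/
def BD (δ ε : ℝ) : Set (XX r m p) :=
  {x | ‖lat x‖ < δ ∧ uu L 1 ε x < ε ^ 2 ∧ uu L (-1) ε x < ε ^ 2}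

variable (L) in
/-- the exhaustion function -/
def ph (ε Λ : ℝ) (x : XX r m p) : ℝ :=
  bar (ε ^ 2) (uu L 1 ε) x + bar (ε ^ 2) (uu L (-1) ε) x + Λ * psi x

variable {C δ ε Λ D : ℝ}

lemma rho_nonneg (x : XX r m p) : 0 ≤ rho x := by unfold rho; positivity

lemma psi_nonneg (x : XX r m p) : 0 ≤ psi x := sub_nonneg.2 ((log_sg x).trans (rho_nonneg x))

lemma le_ph (hε : 0 < ε) (hΛ : 1 ≤ Λ) {x : XX r m p} (hx : x ∈ BD L δ ε) :
    bar (ε ^ 2) (uu L 1 ε) x ≤ ph L ε Λ x ∧ bar (ε ^ 2) (uu L (-1) ε) x ≤ ph L ε Λ x ∧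
      psi x ≤ ph L ε Λ x := by
  have b1 := bar_nonneg (uu_nonneg hε 1 x) hx.2.1
  have b2 := bar_nonneg (uu_nonneg hε (-1) x) hx.2.2
  have p0 := psi_nonneg x
  have p1 := le_mul_of_one_le_left p0 hΛ
  unfold ph
  exact ⟨by linarith, by linarith, by linarith⟩

lemma ph_smooth {x : XX r m p} (hx : x ∈ BD L δ ε) {n : WithTop ℕ∞}
    (s1 : ContDiffAt ℝ n (uu L 1 ε) x) (s2 : ContDiffAt ℝ n (uu L (-1) ε) x) :
    ContDiffAt ℝ n (ph L ε Λ) x :=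
  ((bar_smooth s1 hx.2.1).add (bar_smooth s2 hx.2.2)).add
    (contDiffAt_const.mul psi_smooth.contDiffAt)

lemma ph_est (hL : Graded L) (hC : 1 ≤ C) (hδ : 12 * dd r m p * C * δ ≤ 1) (hε : 0 < ε)
    (hΛ : Λ = 4 + 4 * D ^ 2) {x : XX r m p} (hx : x ∈ BD L δ ε)
    (hu : IsUnit (Qh L x)) (hΓ : ∀ u v, ‖Gam L x u v‖ ≤ C * ‖u‖ * ‖v‖) (v : VV r m p)
    (K : ∀ w : ℤ, w = 1 ∨ w = -1 → ContDiffAt ℝ ω (uu L w ε) x ∧
      ∀ v, ‖Dv (fun y => (uu L w ε y : ℂ)) x v‖ ≤ D * ‖v‖ ∧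
        -(D * ‖Dv (fun y => (uu L w ε y : ℂ)) x v‖ * ‖v‖) ≤
          (LevD L (fun y => (uu L w ε y : ℂ)) x v).re) :
    nsq v + (12 * Λ ^ 2)⁻¹ * ‖Dv (fun y => (ph L ε Λ y : ℂ)) x v‖ ^ 2 ≤
      (LevD L (fun y => (ph L ε Λ y : ℂ)) x v).re ∧ ‖Dv (fun y => (ph L ε Λ y : ℂ)) x v‖ ≤
        (2 * ((ε ^ 2)⁻¹ * D) + 2 * Λ) * Real.exp (ph L ε Λ x) * ‖v‖ := by
  have hΛ1 : 1 ≤ Λ := by nlinarith
  have hd := one_le_dd (r := r) (m := m) (p := p)
  have he : 0 < ε ^ 2 := by positivity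
  have hz : dd r m p * C * ‖zz x‖ ≤ dd r m p * C * (3 * δ) := by
    gcongr; linarith [norm_zz x, hx.1]
  obtain ⟨q1, q2, q3⟩ := le_ph hε hΛ1 hx
  have f0 : Λ * (2 * ‖v‖) * 1 ≤ Λ * (2 * ‖v‖) * Real.exp (ph L ε Λ x) := by
    gcongr; exact Real.one_le_exp ((psi_nonneg x).trans q3)
  obtain ⟨s1, K1⟩ := K 1 (Or.inl rfl)
  obtain ⟨s2, K2⟩ := K (-1) (Or.inr rfl)
  replace s1 := s1.of_le (m := 2) le_top
  replace s2 := s2.of_le (m := 2) le_top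
  obtain ⟨e1, e2⟩ := bar_est s1 hx.2.1 v (K1 v).2
  obtain ⟨e3, e4⟩ := bar_est s2 hx.2.2 v (K2 v).2
  obtain ⟨e5, e6⟩ := psi_est hL hu hC hΓ (by linarith) v
  obtain ⟨e7, e8⟩ := lin3 (L := L) (bar_smooth s1 hx.2.1) (bar_smooth s2 hx.2.2)
    psi_smooth.contDiffAt Λ v
  have f1 := mul_le_mul ((exp_bar he hx.2.1).trans_le (mul_le_mul_of_nonneg_left
    (Real.exp_le_exp.2 q1) (inv_pos.2 he).le)) (K1 v).1 (norm_nonneg _) (by positivity)
  have f2 := mul_le_mul ((exp_bar he hx.2.2).trans_le (mul_le_mul_of_nonneg_left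
    (Real.exp_le_exp.2 q2) (inv_pos.2 he).le)) (K2 v).1 (norm_nonneg _) (by positivity)
  have e9 : ‖Dv (fun y => (ph L ε Λ y : ℂ)) x v‖ ≤
      ‖Dv (fun y => (bar (ε ^ 2) (uu L 1 ε) y : ℂ)) x v‖ +
        ‖Dv (fun y => (bar (ε ^ 2) (uu L (-1) ε) y : ℂ)) x v‖ + Λ * (2 * ‖v‖) := by
    rw [show Dv (fun y => (ph L ε Λ y : ℂ)) x v = _ from e7]
    refine norm_add₃_le.trans (add_le_add le_rfl ?_)
    rw [norm_mul, norm_real, Real.norm_of_nonneg (zero_le_one.trans hΛ1)]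
    exact mul_le_mul_of_nonneg_left e5 (zero_le_one.trans hΛ1)
  refine ⟨?_, le_trans e9 (by linarith)⟩
  rw [show LevD L (fun y => (ph L ε Λ y : ℂ)) x v = _ from e8, add_re, add_re, re_ofReal_mul]
  exact fin_ineq (le_nsq v) (norm_nonneg _) e9 e2 e4 e6 hΛ

lemma cc_one (x : XX r m p) : cc L 1 x = ah x := by simp [cc]

lemma ph_cpt (hε : 0 < ε) (hΛ : 1 ≤ Λ) (hC : 1 ≤ C) (hε1 : C * ε ≤ δ / 2)
    (u1 : ∀ x, ‖lat x‖ < δ → ContinuousAt (uu L 1 ε) x)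
    (u2 : ∀ x, ‖lat x‖ < δ → ContinuousAt (uu L (-1) ε) x)
    (H : ∀ x, ‖lat x‖ < δ → ‖x.2.1‖ ≤ C * ‖cc L (-1) x‖) (sm : ContinuousOn (ph L ε Λ) (BD L δ ε))
    (M : ℝ) : IsCompact {x | x ∈ BD L δ ε ∧ ph L ε Λ x ≤ M} := by
  have he : 0 < ε ^ 2 := by positivity
  have hε3 : ε ≤ δ / 2 := by nlinarith
  have k3 := mul_pos he (Real.exp_pos (-M))
  have k4 : ∀ (u : XX r m p → ℝ) x, u x < ε ^ 2 → bar (ε ^ 2) u x ≤ M →
      u x ≤ ε ^ 2 - ε ^ 2 * Real.exp (-M) := fun u x h0 h => by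
    have a : (ε ^ 2 - u x)⁻¹ ≤ (ε ^ 2 * Real.exp (-M))⁻¹ := by
      rw [exp_bar he h0, mul_inv, Real.exp_neg, inv_inv]; gcongr
    rw [inv_le_inv₀ (sub_pos.2 h0) k3] at a
    linarith
  have sq : ∀ {z : VV r m p} {t : ℝ}, nsq z + t < ε ^ 2 → 0 ≤ t → ‖z‖ ≤ ε := fun {z _} h ht =>
    (pow_le_pow_iff_left₀ (norm_nonneg _) hε.le two_ne_zero).1 (by linarith [le_nsq z])
  have k0 : IsCompact {x | x ∈ Metric.closedBall (0 : XX r m p) (δ + |M| + 1) ∧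
      ‖lat x‖ ≤ δ / 2} := cpt (isCompact_closedBall _ _) subset_rfl
    continuous_lat.continuousOn fun _ h _ => h
  have k1 := cpt (M := ε ^ 2 - ε ^ 2 * Real.exp (-M)) k0 subset_rfl
    (fun x hx => (u1 x (by linarith [hx.2])).continuousWithinAt) fun _ h _ => h
  have k2 := cpt (M := ε ^ 2 - ε ^ 2 * Real.exp (-M)) k1 subset_rfl
    (fun x hx => (u2 x (by linarith [hx.1.2])).continuousWithinAt) fun _ h _ => h
  refine cpt (B := BD L δ ε) k2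
    (fun x hx => ⟨by linarith [hx.1.1.2], by linarith [hx.1.2], by linarith [hx.2]⟩)
    sm fun x hx h => ?_
  obtain ⟨q1, q2, q3⟩ := le_ph hε hΛ hx
  have a1 := (uu_ge hε 1 x).trans_lt hx.2.1
  have a2 := sq ((uu_ge hε (-1) x).trans_lt hx.2.2) (nsq_nonneg _)
  have a3 := sq ((add_comm _ _).trans_lt a1) (nsq_nonneg _)
  have a4 := sq a1 (nsq_nonneg _)
  rw [cc_one, ah, norm_embp] at a4
  rw [eh, norm_emb0] at a3
  have a5 : ‖x.2.1‖ ≤ δ / 2 :=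
    (H x hx.1).trans ((mul_le_mul_of_nonneg_left a2 (by linarith)).trans hε1)
  have a6 : |x.2.2.1| ≤ |M| + 1 := by
    have := Real.log_le_log (sg_pos x) (sin_sx_le x.2.2.1)
    rw [Real.log_mul two_ne_zero (Real.exp_pos _).ne', Real.log_exp] at this
    have := Real.log_two_lt_d9
    have : psi x = rho x - Real.log (sg x) := rfl
    linarith [rho_nonneg x, le_abs_self M]
  refine ⟨⟨⟨?_, lat_le.2 ⟨a3.trans hε3, a5, a4.trans hε3⟩⟩, k4 _ x hx.2.1 (q1.trans h)⟩,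
    k4 _ x hx.2.2 (q2.trans h)⟩
  simp only [mem_closedBall_zero_iff, norm_prod_le_iff, Real.norm_eq_abs]
  refine ⟨?_, ?_, ?_, ?_⟩ <;> linarith [abs_nonneg M]

lemma ph_small (hε : 0 < ε) (hΛ : 1 ≤ Λ) (hC : 1 ≤ C) (hε1 : C * ε ≤ δ / 2)
    (hε2 : 1 * ε ≤ 1) (H : ∀ x, ‖lat x‖ < δ → ‖cc L (-1) x‖ ≤ C * ‖x.2.1‖) :
    ∃ ε' Λ' : ℝ, 0 < ε' ∧ 0 < Λ' ∧ ∀ x : XX r m p, ‖x.1‖ < ε' → ‖x.2.1‖ < ε' → ‖x.2.2.2‖ < ε' →
      x ∈ BD L δ ε ∧
        ph L ε Λ x ≤ Λ' * (‖x.1‖ ^ 2 + ‖x.2.1‖ ^ 2 + ‖x.2.2.2‖ ^ 2 - Real.log (sg x)) := by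
  have he : 0 < ε ^ 2 := by positivity
  have hε3 : ε ≤ δ / 2 := by nlinarith
  have hd := one_le_dd (r := r) (m := m) (p := p)
  obtain ⟨A, hA⟩ : ∃ A, A = dd r m p * C ^ 2 := ⟨_, rfl⟩
  have hA0 : dd r m p ≤ A := hA ▸ le_mul_of_one_le_right (by linarith) (one_le_pow₀ hC)
  have hA1 : 1 ≤ A := hd.trans hA0
  have w4 : Λ * 1 ≤ 4 / ε ^ 2 * (3 * A) + Λ * A :=
    le_add_of_nonneg_of_le (by positivity) (by gcongr)
  refine ⟨ε / (6 * A), 4 / ε ^ 2 * (3 * A) + Λ * A, by positivity, by positivity,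
    fun x x1 x2 x3 => ?_⟩
  have t0 : ε / (6 * A) ≤ δ / 2 := (div_le_self hε.le (by linarith)).trans hε3
  have t1 : ‖lat x‖ < δ := lat_lt.2 ⟨by linarith, by linarith, by linarith⟩
  have n0 : ∀ z : VV r m p, nsq z ≤ A * ‖z‖ ^ 2 := fun z => (nsq_le z).trans (by gcongr)
  have n1 := n0 (eh x)
  have n2 := n0 (bh x)
  have n3 := n0 (ah x)
  have n4 : nsq (cc L (-1) x) ≤ A * ‖x.2.1‖ ^ 2 := (nsq_le _).trans (by
    rw [hA, mul_assoc, ← mul_pow]; gcongr; exact H x t1)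
  rw [eh, norm_emb0, ← eh] at n1
  rw [bh, norm_embm, ← bh] at n2
  rw [ah, norm_embp, ← ah] at n3
  obtain ⟨s, hs⟩ : ∃ s, s = ‖x.1‖ ^ 2 + ‖x.2.1‖ ^ 2 + ‖x.2.2.2‖ ^ 2 := ⟨_, rfl⟩
  have s1 : A * s ≤ ε ^ 2 / 12 := by
    have : s ≤ (ε / (6 * A)) ^ 2 + (ε / (6 * A)) ^ 2 + (ε / (6 * A)) ^ 2 := by rw [hs]; gcongr
    refine (mul_le_mul_of_nonneg_left this (by linarith)).trans ?_
    field_simp
    linarith
  have s2 : A * s ≤ ε := by nlinarith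
  have y1 := mul_nonneg (zero_le_one.trans hA1) (sq_nonneg ‖x.1‖)
  have y2 := mul_nonneg (zero_le_one.trans hA1) (sq_nonneg ‖x.2.1‖)
  have y3 := mul_nonneg (zero_le_one.trans hA1) (sq_nonneg ‖x.2.2.2‖)
  have s3 : A * s = A * ‖x.1‖ ^ 2 + A * ‖x.2.1‖ ^ 2 + A * ‖x.2.2.2‖ ^ 2 := by rw [hs]; ring
  have n5 : nsq (cc L 1 x) ≤ A * s := by rw [cc_one]; linarith
  have v1 := uu_le (L := L) (w := 1) (x := x) hε s2 n5 (by linarith) (by linarith)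
  have v2 := uu_le (L := L) (w := -1) (x := x) hε s2 (by linarith) (by rwa [neg_neg]) (by linarith)
  have w1 := (bar_le he (uu_nonneg hε 1 x) (by linarith)).trans
    (mul_le_mul_of_nonneg_left v1 (by positivity))
  have w2 := (bar_le he (uu_nonneg hε (-1) x) (by linarith)).trans
    (mul_le_mul_of_nonneg_left v2 (by positivity))
  have w3 : Λ * rho x ≤ Λ * (A * s) :=
    mul_le_mul_of_nonneg_left (by linarith [rho_eq' x]) (by linarith)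
  have w5 := mul_le_mul_of_nonneg_right w4 (neg_nonneg.2 (log_sg x))
  refine ⟨⟨t1, by linarith, by linarith⟩, ?_⟩
  rw [← hs, ph, psi]
  linear_combination w1 + w2 + w3 + w5

end Gm

open Gm in
theorem geom (L : LieD (Idx r m p)) (hL : Graded L) :
    ∃ (hd : HData L (dir : Idx r m p → XX r m p)) (ε Λ : ℝ), 0 < ε ∧ 0 < Λ ∧
      (∀ j x, hd.om j x = omX L x (dir j)) ∧
      (∀ x : XX r m p, ‖x.1‖ < ε → ‖x.2.1‖ < ε → ‖x.2.2.2‖ < ε → x ∈ hd.B ∧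
        hd.φ x ≤ Λ * (‖x.1‖ ^ 2 + ‖x.2.1‖ ^ 2 + ‖x.2.2.2‖ ^ 2 - Real.log (Real.sin (sx x.2.2.1)))) ∧
      ∀ x ∈ hd.B, ∑ k, x.1 k ^ 2 + ∑ k, x.2.1 k ^ 2 + ∑ k, x.2.2.2 k ^ 2 -
        Real.log (Real.sin (sx x.2.2.1)) ≤ hd.φ x := by
  obtain ⟨C, hC, h1⟩ := cube hL
  obtain ⟨U, hU, h2⟩ := levi2 hL
  obtain ⟨δ, ⟨H, hδ1⟩, hδ⟩ := (((ev_delta (h1.and hU)).and
    (ev_small (12 * dd r m p * C) one_pos)).and self_mem_nhdsWithin).exists
  obtain ⟨ε, ⟨⟨⟨D, hD, K⟩, hε1⟩, hε2⟩, hε⟩ := (((h2.and (ev_small C (half_pos hδ))).and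
    (ev_small 1 one_pos)).and self_mem_nhdsWithin).exists
  obtain ⟨Λ, hΛ⟩ : ∃ Λ, Λ = 4 + 4 * D ^ 2 := ⟨_, rfl⟩
  have hΛ1 : 1 ≤ Λ := by nlinarith
  have hC' : C ≤ C + (2 * ((ε ^ 2)⁻¹ * D) + 2 * Λ) := le_add_of_nonneg_right (by positivity)
  have hc0 : 0 < (12 * Λ ^ 2)⁻¹ := by positivity
  have K' := fun x (hx : x ∈ BD L δ ε) w hw => K w hw x (H x hx.1).2 hx.2.1 hx.2.2
  have u1 : ∀ x, ‖lat x‖ < δ → ContinuousAt (uu L 1 ε) x := fun x hx =>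
    uu_cont (H x hx).1.2.2.2.2.2.1 (H x hx).1.2.2.2.2.2.2.1
  have u2 : ∀ x, ‖lat x‖ < δ → ContinuousAt (uu L (-1) ε) x := fun x hx =>
    uu_cont (H x hx).1.2.2.2.2.2.2.1 (by rw [neg_neg]; exact (H x hx).1.2.2.2.2.2.1)
  have sm : ∀ x ∈ BD L δ ε, ContDiffAt ℝ ω (ph L ε Λ) x := fun x hx =>
    ph_smooth hx (K' x hx 1 (Or.inl rfl)).1 (K' x hx (-1) (Or.inr rfl)).1
  have est := fun x (hx : x ∈ BD L δ ε) v =>
    ph_est hL hC hδ1 hε hΛ hx (H x hx.1).1.1 (H x hx.1).1.2.2.1 v (K' x hx)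
  obtain ⟨ε', Λ', e1, e2, e3⟩ := ph_small hε hΛ1 hC hε1 hε2 fun x hx =>
    (H x hx).1.2.2.2.2.2.2.2.2
  exact ⟨{
    B := BD L δ ε
    opn := isOpen_iff_mem_nhds.2 fun x hx => (continuous_lat.continuousAt.eventually_lt_const
      hx.1).and (((u1 x hx.1).eventually_lt_const hx.2.1).and
        ((u2 x hx.1).eventually_lt_const hx.2.2))
    om := fun j x => Om L x (bv j)
    om_smooth := fun j =>
      ((ContinuousLinearMap.apply ℂ _ (bv j)).restrictScalars ℝ).contDiff.comp contDiff_Om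
    mc := fun j k x => by rw [pd_Om, pd_Om, Om_mc hL]
    Γ := fun k j l x => Gam L x (bv k) (bv j) l
    Γ_smooth := fun k j l x hx =>
      ((contDiffAt_pi.1 ((H x hx.1).1.2.1 _ _) l).of_le le_top).contDiffWithinAt
    hΓ := fun x hx k j => by rw [pd_Om, pd_Om, torsion hL (H x hx.1).1.1]
    C := C + (2 * ((ε ^ 2)⁻¹ * D) + 2 * Λ)
    Γ_bd := fun x hx k j l => by
      have := (norm_le_pi_norm _ l).trans ((H x hx.1).1.2.2.1 (bv k) (bv j))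
      rw [norm_bv, norm_bv, mul_one, mul_one] at this
      exact this.trans hC'
    dΓ_bd := fun x hx k j l => ((H x hx.1).1.2.2.2.1 k j l).trans hC'
    om_bd := fun x hx j => by
      have := (Om L x).le_opNorm (bv j)
      rw [norm_bv, mul_one] at this
      exact this.trans ((H x hx.1).1.2.2.2.2.1.trans hC')
    φ := ph L ε Λ
    φ_smooth := fun x hx => ((sm x hx).of_le le_top).contDiffWithinAt
    φ_nonneg := fun x hx => (psi_nonneg x).trans (le_ph hε hΛ1 hx).2.2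
    φ_cpt := ph_cpt hε hΛ1 hC hε1 u1 u2 (fun x hx => (H x hx).1.2.2.2.2.2.2.2.1)
      fun x hx => (sm x hx).continuousAt.continuousWithinAt
    c0 := (12 * Λ ^ 2)⁻¹
    c0_pos := hc0
    levi := fun x hx v => by
      rw [levi_sum ((sm x hx).of_le le_top), ← Dv_real]
      exact (est x hx v).1
    grad := fun x hx j => by
      have := (est x hx (bv j)).2
      rw [Dv_bv, pd_ofReal, norm_real, norm_bv, mul_one] at this
      exact this.trans (mul_le_mul_of_nonneg_right (le_add_of_nonneg_left (zero_le_one.trans hC))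
        (Real.exp_pos _).le) },
    ε', Λ', e1, e2, fun j x => (omX_eq hL x j).symm, e3, fun x hx => (le_ph hε hΛ1 hx).2.2⟩

end Pool.Agent.Lib.MP_e2ef7e_al.Gen
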