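import Pool.Agent.Lib.MP_e2ef7e_al.H35Weak

/-!
The a priori estimate with three weights.
-/

open MeasureTheory Complex Set Filter Topology
open scoped ComplexConjugate InnerProductSpace ContDiff ENNReal

noncomputable section

namespace Pool.Agent.Lib.MP_e2ef7e_al.Gen.Hor

variable {ι : Type} [Fintype ι] [DecidableEq ι] {L : LieD ι}
  {H : Type} [NormedAddCommGroup H] [InnerProductSpace ℂ H] [CompleteSpace H]
  {X : Type} [NormedAddCommGroup X] [NormedSpace ℝ X] [FiniteDimensional ℝ X]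
  [MeasurableSpace X] [BorelSpace X] {R : Rep L H} {μ : Measure X} [μ.IsAddHaarMeasure]
  {e : ι → X} (hd : HData L e)

/-- exponential weight -/
def ew (c : ℝ) (x : X) : ℝ := Real.exp (c * hd.φ x)

lemma cd_ew (c : ℝ) : ContDiffOn ℝ ∞ (ew hd c) hd.B :=
  Real.contDiff_exp.comp_contDiffOn (contDiffOn_const.mul hd.φ_smooth)

lemma meas_ew (c : ℝ) : AEStronglyMeasurable (ew hd c) (μ.restrict hd.B) :=
  (cd_ew hd c).continuousOn.aestronglyMeasurable hd.opn.measurableSet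

lemma ew_mul (c c' : ℝ) (x : X) : ew hd c x * ew hd c' x = ew hd (c + c') x := by
  simp only [ew, ← Real.exp_add, add_mul]

lemma ew_zero (x : X) : ew hd 0 x = 1 := by simp [ew]

lemma ew_pos (c : ℝ) (x : X) : 0 < ew hd c x := Real.exp_pos _

lemma inner_ew (c c' : ℝ) (x : X) (y z : H) :
    ⟪(ew hd c x : ℂ) • y, (ew hd c' x : ℂ) • z⟫_ℂ = ew hd (c + c') x * ⟪y, z⟫_ℂ := by
  rw [inner_smul_left, inner_smul_right, conj_ofReal, ← ew_mul]; push_cast; ring

lemma inner_ew_swap (c : ℝ) (y z : H) : ⟪y, (c : ℂ) • z⟫_ℂ = ⟪(c : ℂ) • y, z⟫_ℂ := by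
  rw [inner_smul_left, inner_smul_right, conj_ofReal]

variable {hd}

lemma int_ew {p : X → H} (hp : MemLp p 2 (μ.restrict hd.B)) (c : ℝ) {r : X → H}
    (hr : SB R hd.B r) : Integrable (fun x => ⟪r x, (ew hd c x : ℂ) • p x⟫_ℂ) (μ.restrict hd.B) := by
  simp only [inner_ew_swap]
  exact int_inner (hr.rsmul hd.opn (cd_ew hd c)).memLp hp

lemma localize2 {χ : ℝ → ℝ} (hχ : ContDiff ℝ ∞ χ) (hχ1 : ∀ s > 1, χ s = 0) (n : ℝ) {c c' : ℝ}
    (hc : c' + c = -1) (q : Option (ι × ι)) {p : ι → X → H}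
    (hp : ∀ j, MemLp (p j) 2 (μ.restrict hd.B)) {h : X → H}
    (hh : ∀ r, SB R hd.B r → Integrable (fun x => ⟪r x, h x⟫_ℂ) (μ.restrict hd.B))
    (weak : ∀ s, SB R hd.B s → ∑ i, ∫ x in hd.B, ⟪(ew hd c x : ℂ) • Ad R hd q i s x, p i x⟫_ℂ ∂μ =
      -∫ x in hd.B, ⟪s x, h x⟫_ℂ ∂μ) {s : X → H} (hs : s ∈ R.Sm) :
    ∑ i, ∫ x in hd.B, ⟪Ad R hd q i s x, (χ (hd.φ x - n) : ℂ) • (ew hd (-1) x : ℂ) • p i x⟫_ℂ ∂μ =
      -∫ x in hd.B, ⟪s x, (χ (hd.φ x - n) : ℂ) • (ew hd c' x : ℂ) • h x +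
        ∑ i, (((deriv χ (hd.φ x - n) + c' * χ (hd.φ x - n)) * pd hd.φ (fv e q i) x : ℝ) : ℂ) •
          (ew hd (-1) x : ℂ) • p i x⟫_ℂ ∂μ := by
  set β : ℝ → ℝ := fun t => χ (t - n) * Real.exp (c' * t) with hβ
  have b1 : ContDiff ℝ ∞ β := (hχ.comp (by fun_prop)).mul (by fun_prop)
  have b2 : ∀ t, deriv β t = (deriv χ (t - n) + c' * χ (t - n)) * Real.exp (c' * t) := fun t => by
    have h1 : HasDerivAt (fun t => χ (t - n)) (deriv χ (t - n)) t :=
      (hχ.differentiable (by simp) (t - n)).hasDerivAt.comp_sub_const t n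
    have h2 := ((hasDerivAt_id t).const_mul c').exp
    rw [show deriv β t = _ from (h1.fun_mul h2).deriv]
    simp only [id]; ring
  obtain ⟨b3, b4⟩ := cut_spec (hd := hd) b1 (M := n + 1) fun t ht => by
    simp only [hβ, hχ1 (t - n) (by linarith), zero_mul]
  have key := localize (μ := μ) (fv e q) (fun i => cd_star (cd_fa hd q i))
    (y := fun i x => (ew hd c x : ℂ) • p i x) (fun r hr i => int_ew (hp i) c hr) hh
    (fun s hs => by simp only [inner_ew_swap]; exact weak s hs) b4 b3 hs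
  have e1 : ∀ x, ew hd (-1) x = ew hd c' x * ew hd c x := fun x => by rw [ew_mul, hc]
  convert key using 2
  · refine setIntegral_congr_fun hd.opn.measurableSet fun x hx => ?_
    simp only [cut_of_mem β hx, e1, smul_smul, Ad]
    congr 2
    simp only [hβ, ew]; push_cast; ring
  · refine setIntegral_congr_fun hd.opn.measurableSet fun x hx => ?_
    simp only [cut_of_mem β hx, pd_cut b1 hx, b2, e1, smul_smul]
    congr 3
    · simp only [hβ, ew]; push_cast; ring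
    · funext i
      congr 1
      simp only [ew]; push_cast; ring

theorem apriori (hA : Approx R μ) {k : ℝ} (hk : 0 ≤ k) (hk' : 8 ≤ (k + 4) * hd.c0)
    {p : ι → X → H} (hp : ∀ j, MemLp (p j) 2 (μ.restrict hd.B)) {a : X → H}
    (ha : MemLp a 2 (μ.restrict hd.B))
    (hdiv : ∀ s, SB R hd.B s →
      ∑ j, ∫ x in hd.B, ⟪(ew hd (-(k + 2) / 2) x : ℂ) • L0 R hd j s x, p j x⟫_ℂ ∂μ =
        ∫ x in hd.B, ⟪(ew hd (-k / 2) x : ℂ) • s x, a x⟫_ℂ ∂μ)
    (hcurl : ∀ q s, SB R hd.B s →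
      ∑ i, ∫ x in hd.B, ⟪(ew hd ((k + 2) / 2) x : ℂ) • Ad R hd (some q) i s x, p i x⟫_ℂ ∂μ = 0) :
    (k + 4 - C1 hd) * ∑ j, ∫ x in hd.B, ‖(ew hd (-1) x : ℂ) • p j x‖ ^ 2 ∂μ ≤
      2 * ∫ x in hd.B, ‖a x‖ ^ 2 ∂μ := by
  obtain ⟨χ, M, hχ, m0, m1, m2, m3⟩ := exists_chi
  set g : ι → X → H := fun j x => (ew hd (-1) x : ℂ) • p j x with hg
  have hgL : ∀ j, MemLp (g j) 2 (μ.restrict hd.B) := fun j =>
    memLp_smul (hp j) (meas_ew hd _) (M := 1) (ae_B hd fun x hx => Or.inl (by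
      rw [abs_of_pos (ew_pos hd _ x)]
      exact Real.exp_le_one_iff.2 (by linarith [hd.φ_nonneg x hx])))
  have hQ : ∀ j l, MemLp (fun x => (dφ hd j x : ℂ) • g l x) 2 (μ.restrict hd.B) := fun j l => by
    have := memLp_smul (hp l) ((meas_dφ hd j).mul (meas_ew hd (-1))) (M := hd.C)
      (ae_B hd fun x hx => Or.inl (by
        rw [Pi.mul_apply, abs_mul, abs_of_pos (ew_pos hd _ x)]
        refine (mul_le_mul_of_nonneg_right (hd.grad x hx j) (ew_pos hd _ x).le).trans_eq ?_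
        rw [mul_assoc, ew, ← Real.exp_add]; simp))
    simpa only [hg, smul_smul, Pi.mul_apply, ofReal_mul] using this
  set P : X → H := fun x => ∑ j, (dφ hd j x : ℂ) • g j x with hP
  have hPL : MemLp P 2 (μ.restrict hd.B) := memLp_finsetSum _ fun j _ => hQ j j
  have hφm := hd.φ_smooth.continuousOn.aestronglyMeasurable (μ := μ) hd.opn.measurableSet
  have me0 : ∀ n : ℕ, AEStronglyMeasurable (fun x => χ (hd.φ x - n)) (μ.restrict hd.B) := fun n =>
    hχ.continuous.comp_aestronglyMeasurable (hφm.sub aestronglyMeasurable_const)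
  have me1 : ∀ n : ℕ, AEStronglyMeasurable (fun x => deriv χ (hd.φ x - n)) (μ.restrict hd.B) :=
    fun n => (hχ.continuous_deriv (by simp)).comp_aestronglyMeasurable
      (hφm.sub aestronglyMeasurable_const)
  have ev : ∀ x, ∀ᶠ n : ℕ in atTop, hd.φ x - n < 0 := fun x =>
    (tendsto_natCast_atTop_atTop.eventually_gt_atTop (hd.φ x)).mono fun n hn => by linarith
  have c0 : ∀ {f : X → H}, MemLp f 2 (μ.restrict hd.B) →
      Cv (μ.restrict hd.B) (fun n x => (χ (hd.φ x - n) : ℂ) • f x) f := fun hf =>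
    (Cv.seq hf me0 (fun n x => m0 _) (t := 1) fun x => (ev x).mono fun n hn => (m2 _ hn).1).congr
      (fun _ => EventuallyEq.rfl) (Eventually.of_forall fun x => by simp)
  have c1 : ∀ {f : X → H}, MemLp f 2 (μ.restrict hd.B) →
      Cv (μ.restrict hd.B) (fun n x => ((deriv χ (hd.φ x - n) : ℝ) : ℂ) • f x) fun _ => 0 :=
    fun hf => (Cv.seq hf me1 (fun n x => m1 _) (t := 0)
      fun x => (ev x).mono fun n hn => (m2 _ hn).2).congr
      (fun _ => EventuallyEq.rfl) (Eventually.of_forall fun x => by simp)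
  have cd : Cv (μ.restrict hd.B) (fun n x => ((deriv χ (hd.φ x - n) : ℝ) : ℂ) • P x -
      (χ (hd.φ x - n) : ℂ) • a x - (2 : ℂ) • (χ (hd.φ x - n) : ℂ) • P x)
      fun x => 0 - a x - (2 : ℂ) • P x := ((c1 hPL).sub (c0 ha)).sub ((c0 hPL).csmul 2)
  have cc := fun j l => c1 ((hQ j l).sub (hQ l j))
  have step : ∀ n : ℕ, (k + 4 - C1 hd) * ∑ j, ∫ x in hd.B, ‖(χ (hd.φ x - n) : ℂ) • g j x‖ ^ 2 ∂μ +
      (k + 4) * hd.c0 * ∫ x in hd.B, ‖(χ (hd.φ x - n) : ℂ) • P x‖ ^ 2 ∂μ ≤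
      ∫ x in hd.B, ‖((deriv χ (hd.φ x - n) : ℝ) : ℂ) • P x - (χ (hd.φ x - n) : ℂ) • a x -
        (2 : ℂ) • (χ (hd.φ x - n) : ℂ) • P x‖ ^ 2 ∂μ + 1 / 2 * ∑ j, ∑ l,
        ∫ x in hd.B, ‖((deriv χ (hd.φ x - n) : ℝ) : ℂ) •
          ((dφ hd j x : ℂ) • g l x - (dφ hd l x : ℂ) • g j x)‖ ^ 2 ∂μ := fun n => by
    let h : Option (ι × ι) → X → H := fun q => match q with
      | none => fun x => ((deriv χ (hd.φ x - n) : ℝ) : ℂ) • P x - (χ (hd.φ x - n) : ℂ) • a x +
          ((k / 2 : ℝ) : ℂ) • (χ (hd.φ x - n) : ℂ) • P x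
      | some q => fun x => ((deriv χ (hd.φ x - n) : ℝ) : ℂ) •
          ((dφ hd q.1 x : ℂ) • g q.2 x - (dφ hd q.2 x : ℂ) • g q.1 x) - (((k + 4) / 2 : ℝ) : ℂ) •
          (χ (hd.φ x - n) : ℂ) • ((dφ hd q.1 x : ℂ) • g q.2 x - (dφ hd q.2 x : ℂ) • g q.1 x)
    have := bochner_weak (hd := hd) hA (M := n + 1) (κ := k + 4) (by linarith)
      (G := fun j x => (χ (hd.φ x - n) : ℂ) • g j x) (fun j => (c0 (hgL j)).1 n)
      (fun j x _ hx => by rw [m3 _ (by linarith), ofReal_zero, zero_smul]) (h := h)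
      (fun q => by
        rcases q with _ | q
        · exact (((c1 hPL).sub (c0 ha)).add ((c0 hPL).csmul _)).1 n
        · exact ((cc q.1 q.2).sub ((c0 ((hQ q.1 q.2).sub (hQ q.2 q.1))).csmul _)).1 n)
      (fun q s hs => by
        rcases q with _ | ⟨j, l⟩
        · rw [localize2 hχ m3 n (c := -(k + 2) / 2) (c' := k / 2) (by ring) none hp
            (h := fun x => -((ew hd (-k / 2) x : ℂ) • a x))
            (fun r hr => by simp only [inner_neg_right]; exact (int_ew ha _ hr).neg)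
            (fun s hs => by
              simp only [Ad_none, hdiv s hs, inner_neg_right, integral_neg, neg_neg, inner_ew_swap])
            hs]
          congr 2
          funext x
          congr 1
          have e1 : (ew hd (k / 2) x : ℂ) • -((ew hd (-k / 2) x : ℂ) • a x) = -a x := by
            rw [smul_neg, smul_smul, ← ofReal_mul, ew_mul, show k / 2 + -k / 2 = 0 by ring, ew_zero,
              ofReal_one, one_smul]
          have e2 : ∑ i, (((deriv χ (hd.φ x - n) + k / 2 * χ (hd.φ x - n)) *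
              pd hd.φ (fv e none i) x : ℝ) : ℂ) • (ew hd (-1) x : ℂ) • p i x =
              ((deriv χ (hd.φ x - n) + k / 2 * χ (hd.φ x - n) : ℝ) : ℂ) • P x := by
            simp only [hP, Finset.smul_sum, ofReal_mul, mul_smul]
            rfl
          rw [e1, e2]
          simp only [h]
          push_cast
          module
        · rw [localize2 hχ m3 n (c := (k + 2) / 2) (c' := -(k + 4) / 2) (by ring) (some (j, l)) hp
            (h := fun _ => 0) (fun r hr => by simp) (fun s hs => by rw [hcurl _ s hs]; simp) hs]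
          congr 2
          funext x
          congr 1
          rw [sum_fv hd _ fun i => (ew hd (-1) x : ℂ) • p i x]
          simp only [h, hg]
          push_cast
          module)
    have r1 : ∀ x, ∑ j, (dφ hd j x : ℂ) • (χ (hd.φ x - n) : ℂ) • g j x =
        (χ (hd.φ x - n) : ℂ) • P x := fun x => by
      simp only [hP, Finset.smul_sum]
      exact Finset.sum_congr rfl fun j _ => smul_comm _ _ _
    have r2 : ∀ x, h none x - (((k + 4) / 2 : ℝ) : ℂ) • (χ (hd.φ x - n) : ℂ) • P x =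
        ((deriv χ (hd.φ x - n) : ℝ) : ℂ) • P x - (χ (hd.φ x - n) : ℂ) • a x -
          (2 : ℂ) • (χ (hd.φ x - n) : ℂ) • P x := fun x => by
      simp only [h]
      push_cast
      module
    have r3 : ∀ j l x, h (some (j, l)) x + (((k + 4) / 2 : ℝ) : ℂ) •
        ((dφ hd j x : ℂ) • (χ (hd.φ x - n) : ℂ) • g l x -
          (dφ hd l x : ℂ) • (χ (hd.φ x - n) : ℂ) • g j x) = ((deriv χ (hd.φ x - n) : ℝ) : ℂ) •
          ((dφ hd j x : ℂ) • g l x - (dφ hd l x : ℂ) • g j x) := fun j l x => by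
      simp only [h]
      module
    simpa only [r1, r2, r3] using this
  have lim := le_of_tendsto_of_tendsto'
    (((tendsto_finsetSum _ fun j _ => (c0 (hgL j)).tendsto).const_mul _).add
      ((c0 hPL).tendsto.const_mul _))
    (cd.tendsto.add ((tendsto_finsetSum _ fun j _ => tendsto_finsetSum _ fun l _ =>
      (cc j l).tendsto).const_mul _)) step
  have e1 : ∫ x in hd.B, ‖0 - a x - (2 : ℂ) • P x‖ ^ 2 ∂μ ≤
      2 * ∫ x in hd.B, ‖a x‖ ^ 2 ∂μ + 8 * ∫ x in hd.B, ‖P x‖ ^ 2 ∂μ := by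
    rw [← integral_const_mul, ← integral_const_mul, ← integral_add ((int_sq ha).const_mul _)
      ((int_sq hPL).const_mul _)]
    refine integral_mono (int_sq cd.2.1) (((int_sq ha).const_mul _).add
      ((int_sq hPL).const_mul _)) fun x => ?_
    have h1 : ‖0 - a x - (2 : ℂ) • P x‖ ≤ ‖a x‖ + 2 * ‖P x‖ := by
      refine (norm_sub_le _ _).trans (le_of_eq ?_)
      simp [norm_smul]
    have h2 := pow_le_pow_left₀ (norm_nonneg _) h1 2
    simp only
    nlinarith [sq_nonneg (‖a x‖ - 2 * ‖P x‖)]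
  have e2 : 0 ≤ ∫ x in hd.B, ‖P x‖ ^ 2 ∂μ := integral_nonneg fun x => by positivity
  simp only [norm_zero, ne_eq, OfNat.ofNat_ne_zero, not_false_eq_true, zero_pow, integral_zero,
    Finset.sum_const_zero, mul_zero, add_zero] at lim
  nlinarith [mul_le_mul_of_nonneg_right hk' e2]

end Pool.Agent.Lib.MP_e2ef7e_al.Gen.Hor
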