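import Pool.Agent.Lib.MP_e2ef7e_al.H35Sm

/-!
The Bochner inequality for test forms.
-/

open MeasureTheory Complex Set Filter Topology
open scoped ComplexConjugate InnerProductSpace ContDiff ENNReal

noncomputable section

namespace Pool.Agent.Lib.MP_e2ef7e_al.Gen.Hor

variable {ι : Type} [Fintype ι] [DecidableEq ι] {L : LieD ι}
  {H : Type} [NormedAddCommGroup H] [InnerProductSpace ℂ H] [CompleteSpace H]

section alg

lemma levi_H (G : ι → H) (Lev : ι → ι → ℂ) (c0 : ℝ) (φ : ι → ℝ)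
    (hl : ∀ v : ι → ℂ, ∑ j, ‖v j‖ ^ 2 + c0 * ‖∑ j, (φ j : ℂ) * v j‖ ^ 2 ≤
      (∑ k, ∑ j, conj (v k) * v j * Lev k j).re) :
    ∑ j, ‖G j‖ ^ 2 + c0 * ‖∑ j, (φ j : ℂ) • G j‖ ^ 2 ≤
      (∑ j, ∑ k, Lev k j * ⟪G j, G k⟫_ℂ).re := by
  obtain ⟨w, b, -⟩ := exists_hilbertBasis ℂ H
  have h1 : ∀ x : H, HasSum (fun α => ‖⟪x, b α⟫_ℂ‖ ^ 2) (‖x‖ ^ 2) := fun x => by
    have := reCLM.hasSum (b.hasSum_inner_mul_inner x x)
    simp only [reCLM_apply] at this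
    convert this using 2
    · rw [← inner_conj_symm (b _) x, mul_conj, normSq_eq_norm_sq, ofReal_re]
    · exact (inner_self_eq_norm_sq (𝕜 := ℂ) x).symm
  have h2 : HasSum (fun α => ∑ j, ‖⟪G j, b α⟫_ℂ‖ ^ 2 +
      c0 * ‖∑ j, (φ j : ℂ) * ⟪G j, b α⟫_ℂ‖ ^ 2)
      (∑ j, ‖G j‖ ^ 2 + c0 * ‖∑ j, (φ j : ℂ) • G j‖ ^ 2) := by
    refine (hasSum_sum fun j _ => h1 (G j)).add ?_
    have := (h1 (∑ j, (φ j : ℂ) • G j)).mul_left c0
    simpa only [sum_inner, inner_smul_left, conj_ofReal] using this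
  have h3 : HasSum (fun α => (∑ k, ∑ j, conj ⟪G k, b α⟫_ℂ * ⟪G j, b α⟫_ℂ * Lev k j).re)
      (∑ j, ∑ k, Lev k j * ⟪G j, G k⟫_ℂ).re := by
    rw [Finset.sum_comm]
    refine reCLM.hasSum (hasSum_sum fun k _ => hasSum_sum fun j _ => ?_)
    have := (b.hasSum_inner_mul_inner (G j) (G k)).mul_left (Lev k j)
    refine HasSum.congr_fun this fun α => ?_
    rw [inner_conj_symm]; ring
  exact hasSum_le (fun α => hl _) h2 h3

lemma alg (G A : ι → H) (M : ι → ι → H) (Lev : ι → ι → ℂ) (Γ dΓ : ι → ι → ι → ℂ) (D : ℂ)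
    {C κ c0 : ℝ} (φ : ι → ℝ) (hΓ : ∀ k j l, ‖Γ k j l‖ ≤ C) (hdΓ : ∀ k j l, ‖dΓ k j l‖ ≤ C)
    (hl : ∀ v : ι → ℂ, ∑ j, ‖v j‖ ^ 2 + c0 * ‖∑ j, (φ j : ℂ) * v j‖ ^ 2 ≤
      (∑ k, ∑ j, conj (v k) * v j * Lev k j).re) (hκ : 0 ≤ κ)
    (hid : ∑ j, ∑ k, ⟪A j, A k⟫_ℂ = D + ∑ j, ∑ k, ⟪M k j, M j k⟫_ℂ +
      κ * ∑ j, ∑ k, Lev k j * ⟪G j, G k⟫_ℂ + ∑ j, ∑ k, ∑ l, (Γ k j l * ⟪G j, M l k⟫_ℂ +
        dΓ k j l * ⟪G j, G k⟫_ℂ + Γ k j l * ⟪M l j, G k⟫_ℂ)) :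
    (κ - ((Fintype.card ι ^ 3 * C) ^ 2 + Fintype.card ι ^ 3 * C)) * ∑ j, ‖G j‖ ^ 2 +
      κ * c0 * ‖∑ j, (φ j : ℂ) • G j‖ ^ 2 + D.re ≤
      ‖∑ j, A j‖ ^ 2 + 1 / 2 * ∑ j, ∑ k, ‖M j k - M k j‖ ^ 2 := by
  set a := ∑ j, ‖G j‖ ^ 2 with ha
  set b := ∑ j, ∑ k, ‖M j k‖ ^ 2 with hb
  have ha0 : 0 ≤ a := by positivity
  have hb0 : 0 ≤ b := by positivity
  have hG : ∀ j, ‖G j‖ ≤ √a := fun j => Real.le_sqrt_of_sq_le
    (Finset.single_le_sum (f := fun j => ‖G j‖ ^ 2) (fun _ _ => by positivity) (Finset.mem_univ j))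
  have hM : ∀ j k, ‖M j k‖ ≤ √b := fun j k => Real.le_sqrt_of_sq_le
    ((Finset.single_le_sum (f := fun k => ‖M j k‖ ^ 2) (fun _ _ => by positivity)
      (Finset.mem_univ k)).trans (Finset.single_le_sum (f := fun j => ∑ k, ‖M j k‖ ^ 2)
        (fun _ _ => by positivity) (Finset.mem_univ j)))
  have e1 : ‖∑ j, A j‖ ^ 2 = (∑ j, ∑ k, ⟪A j, A k⟫_ℂ).re := by
    rw [← inner_self_eq_norm_sq (𝕜 := ℂ), sum_inner]
    simp only [inner_sum, RCLike.re_to_complex]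
  have e2 : ∑ j, ∑ k, ‖M j k - M k j‖ ^ 2 = 2 * b - 2 * (∑ j, ∑ k, ⟪M k j, M j k⟫_ℂ).re := by
    have h1 : ∀ j k, ‖M j k - M k j‖ ^ 2 = ‖M j k‖ ^ 2 + ‖M k j‖ ^ 2 - 2 * (⟪M k j, M j k⟫_ℂ).re :=
      fun j k => by
        rw [norm_sub_rev, norm_sub_sq (𝕜 := ℂ), RCLike.re_to_complex]; ring
    simp only [h1, Finset.sum_sub_distrib, Finset.sum_add_distrib, ← Finset.mul_sum, re_sum]
    rw [Finset.sum_comm (f := fun j k => ‖M k j‖ ^ 2)]
    ring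
  have e3 := levi_H G Lev c0 φ hl
  have hin : ∀ (c : ℂ) (x y : H) (s t : ℝ), ‖c‖ ≤ C → ‖x‖ ≤ s → ‖y‖ ≤ t →
      ‖c * ⟪x, y⟫_ℂ‖ ≤ C * (s * t) := fun c x y s t h1 h2 h3 => by
    rw [norm_mul]
    refine mul_le_mul h1 ((norm_inner_le_norm x y).trans ?_) (norm_nonneg _)
      ((norm_nonneg _).trans h1)
    exact mul_le_mul h2 h3 (norm_nonneg _) ((norm_nonneg _).trans h2)
  have e4 : ‖∑ j, ∑ k, ∑ l, (Γ k j l * ⟪G j, M l k⟫_ℂ + dΓ k j l * ⟪G j, G k⟫_ℂ +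
      Γ k j l * ⟪M l j, G k⟫_ℂ)‖ ≤
      Fintype.card ι ^ 3 * (C * (√a * √b) + C * (√a * √a) + C * (√b * √a)) := by
    have : ∀ t : ℝ, (Fintype.card ι : ℝ) ^ 3 * t = ∑ _j : ι, ∑ _k : ι, ∑ _l : ι, t := fun t => by
      simp only [Finset.sum_const, Finset.card_univ, nsmul_eq_mul]; ring
    rw [this]
    refine norm_sum_le_of_le _ fun j _ => norm_sum_le_of_le _ fun k _ =>
      norm_sum_le_of_le _ fun l _ => norm_add₃_le.trans ?_
    exact add_le_add (add_le_add (hin _ _ _ _ _ (hΓ _ _ _) (hG _) (hM _ _))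
      (hin _ _ _ _ _ (hdΓ _ _ _) (hG _) (hG _))) (hin _ _ _ _ _ (hΓ _ _ _) (hM _ _) (hG _))
  have e5 := (abs_le.1 ((abs_re_le_norm _).trans e4)).1
  rw [e1, e2, hid]
  simp only [add_re, re_ofReal_mul]
  have sa := Real.mul_self_sqrt ha0
  have sb := Real.mul_self_sqrt hb0
  have e6 := mul_le_mul_of_nonneg_left e3 hκ
  have e7 := sq_nonneg (√b - Fintype.card ι ^ 3 * C * √a)
  rw [sa] at e5
  have e8 : (√b - Fintype.card ι ^ 3 * C * √a) ^ 2 = b - 2 * (Fintype.card ι ^ 3 * C * (√a * √b)) +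
      (Fintype.card ι ^ 3 * C) ^ 2 * a := by
    rw [← sa, ← sb, Real.sqrt_mul_self (Real.sqrt_nonneg a), Real.sqrt_mul_self (Real.sqrt_nonneg b)]
    ring
  nlinarith

end alg

variable {X : Type} [NormedAddCommGroup X] [NormedSpace ℝ X] [FiniteDimensional ℝ X]
  [MeasurableSpace X] [BorelSpace X] {R : Rep L H} {μ : Measure X} [μ.IsAddHaarMeasure]

/-- scalar test functions -/
structure Tst (B : Set X) (W : X → ℂ) : Prop where
  cd : ContDiff ℝ ∞ W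
  cs : HasCompactSupport W
  sub : tsupport W ⊆ B

section tst

variable {B : Set X} {W : X → ℂ} {g h : X → H}

lemma Tst.of_supp {F : Type} [Zero F] {g : X → F} (hW : ContDiff ℝ ∞ W) (cs : HasCompactSupport g)
    (sub : tsupport g ⊆ B) (hs : ∀ x, g x = 0 → W x = 0) : Tst B W := by
  have h1 : tsupport W ⊆ tsupport g := closure_mono fun x hx h' => hx (hs x h')
  exact ⟨hW, cs.of_isClosed_subset (isClosed_tsupport W) h1, h1.trans sub⟩

lemma Tst.integrable (hW : Tst B W) : Integrable W (μ.restrict B) :=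
  (hW.cd.continuous.integrable_of_hasCompactSupport hW.cs).restrict

lemma Tst.pd (hW : Tst B W) (w : X) : Tst B (pd W w) := by
  have h1 : tsupport (Gen.pd W w) ⊆ tsupport W :=
    closure_minimal (fun x hx => by_contra fun h' => hx (pd_zero_of h' w)) (isClosed_tsupport W)
  exact ⟨cd_pd hW.cd w, hW.cs.of_isClosed_subset (isClosed_tsupport _) h1, h1.trans hW.sub⟩

lemma Tst.zero_of (hW : Tst B W) {x : X} (hx : x ∉ B) : W x = 0 :=
  image_eq_zero_of_notMem_tsupport fun h => hx (hW.sub h)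

lemma Tst.int_pd (hW : Tst B W) (w : X) : ∫ x in B, Gen.pd W w x ∂μ = 0 := by
  rw [setIntegral_eq_integral_of_forall_compl_eq_zero fun x hx => (hW.pd w).zero_of hx]
  have := integral_mul_fderiv_eq_neg_fderiv_mul_of_integrable (μ := μ) (f := fun _ => (1 : ℂ))
    (g := W) (v := w) (by simp)
    (by
      simp only [one_mul]
      exact (hW.pd w).cd.continuous.integrable_of_hasCompactSupport (hW.pd w).cs)
    (by simpa using hW.cd.continuous.integrable_of_hasCompactSupport hW.cs)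
    (fun _ _ => differentiableAt_const _) fun x _ => dAt hW.cd.contDiffAt
  simpa [Gen.pd] using this

/-- integrable with vanishing integral -/
def Zi (ν : Measure X) (f : X → ℂ) : Prop := Integrable f ν ∧ ∫ x, f x ∂ν = 0

lemma Zi.sub {ν : Measure X} {f g : X → ℂ} (hf : Zi ν f) (hg : Zi ν g) :
    Zi ν fun x => f x - g x := ⟨hf.1.sub hg.1, by rw [integral_sub hf.1 hg.1, hf.2, hg.2, sub_zero]⟩

lemma Zi.sum {ν : Measure X} {α : Type} [Fintype α] {f : α → X → ℂ} (hf : ∀ i, Zi ν (f i)) :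
    Zi ν fun x => ∑ i, f i x := ⟨integrable_finsetSum _ fun i _ => (hf i).1, by
  rw [integral_finsetSum _ fun i _ => (hf i).1, Finset.sum_eq_zero fun i _ => (hf i).2]⟩

lemma Tst.zi (hW : Tst B W) (w : X) : Zi (μ.restrict B) (Gen.pd W w) :=
  ⟨(hW.pd w).integrable, hW.int_pd w⟩

lemma SB.tst_left (hg : SB R B g) (hh : h ∈ R.Sm) : Tst B fun x => ⟪g x, h x⟫_ℂ :=
  Tst.of_supp ((sm_cd hg.sm).inner ℂ (sm_cd hh)) hg.cs hg.sub fun x hx => by simp [hx]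

lemma SB.tst_right (hg : g ∈ R.Sm) (hh : SB R B h) : Tst B fun x => ⟪g x, h x⟫_ℂ :=
  Tst.of_supp ((sm_cd hg).inner ℂ (sm_cd hh.sm)) hh.cs hh.sub fun x hx => by simp [hx]

lemma Tst.mul (hB : IsOpen B) (hW : Tst B W) {c : X → ℂ} (hc : ContDiffOn ℝ ∞ c B) :
    Tst B fun x => c x * W x :=
  Tst.of_supp (cd_of_tsupport fun x hx => (hc.contDiffAt (hB.mem_nhds (hW.sub
    (tsupport_mul_subset_right hx)))).mul hW.cd.contDiffAt) hW.cs hW.sub fun x hx => by simp [hx]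

lemma SB.memLp (hg : SB R B g) : MemLp g 2 (μ.restrict B) :=
  ((sm_cd hg.sm).continuous.memLp_of_hasCompactSupport hg.cs).restrict B

lemma int_sq {ν : Measure X} (hg : MemLp g 2 ν) : Integrable (fun x => ‖g x‖ ^ 2) ν :=
  (memLp_two_iff_integrable_sq_norm hg.1).1 hg

/-- integration by parts -/
lemma ibp (hB : IsOpen B) (hg : SB R B g) (hh : h ∈ R.Sm) (w : X) {a : X → ι → ℂ}
    (ha : ContDiff ℝ ∞ a) : ∫ x in B, ⟪Dop R w (fun y => star (a y)) (fun _ => 0) g x, h x⟫_ℂ ∂μ =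
      -∫ x in B, ⟪g x, Dop R w a (fun _ => 0) h x⟫_ℂ ∂μ := by
  have h1 := (hg.tst_left hh).int_pd (μ := μ) w
  simp only [pd_inner_Dop hg.sm hh w (fun y => star (a y)) fun _ => 0, star_star, neg_zero] at h1
  rw [integral_add ((hg.Dop hB w (cd_star ha) contDiffOn_const).tst_left hh).integrable
    (hg.tst_left (sm_Dop0 hh w ha)).integrable] at h1
  exact eq_neg_of_add_eq_zero_left h1

end tst

variable {e : ι → X} (hd : HData L e)

/-- directional derivatives of the weight -/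
def dφ (j : ι) : X → ℝ := pd hd.φ (e j)

lemma cd_dφ (j : ι) : ContDiffOn ℝ ∞ (dφ hd j) hd.B := cdOn_pd hd.opn hd.φ_smooth _

variable (R) in
/-- weighted operator -/
def Lh (κ : ℝ) (j : ι) : (X → H) → X → H := Dop R (e j) (hd.om j) fun x => κ / 2 * dφ hd j x

variable (R) in
/-- weighted adjoint operator -/
def dh (κ : ℝ) (j : ι) : (X → H) → X → H :=
  Dop R (e j) (fun y => star (hd.om j y)) fun x => -(κ / 2 * dφ hd j x)

variable {hd}

lemma SB.Lh {g : X → H} (hg : SB R hd.B g) (κ : ℝ) (j : ι) : SB R hd.B (Lh R hd κ j g) :=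
  hg.Dop hd.opn _ (hd.om_smooth j) (contDiffOn_const.mul (cd_dφ hd j))

lemma SB.dh {g : X → H} (hg : SB R hd.B g) (κ : ℝ) (j : ι) : SB R hd.B (dh R hd κ j g) :=
  hg.Dop hd.opn _ (cd_star (hd.om_smooth j)) (contDiffOn_const.mul (cd_dφ hd j)).neg

lemma pd_inner_Lh {g h : X → H} (hg : g ∈ R.Sm) (hh : h ∈ R.Sm) (κ : ℝ) (j : ι) (x : X) :
    pd (fun y => ⟪g y, h y⟫_ℂ) (e j) x =
      ⟪Lh R hd κ j g x, h x⟫_ℂ + ⟪g x, dh R hd κ j h x⟫_ℂ := pd_inner_Dop hg hh _ _ _ x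

lemma pd_inner_dh {g h : X → H} (hg : g ∈ R.Sm) (hh : h ∈ R.Sm) (κ : ℝ) (j : ι) (x : X) :
    pd (fun y => ⟪g y, h y⟫_ℂ) (e j) x =
      ⟪dh R hd κ j g x, h x⟫_ℂ + ⟪g x, Lh R hd κ j h x⟫_ℂ := by
  have := pd_inner_Dop hg hh (e j) (fun y => star (hd.om j y)) (fun x => -(κ / 2 * dφ hd j x)) x
  simp only [star_star, neg_neg] at this
  exact this

variable (hd) in
/-- the Levi form -/
def Lev (k j : ι) (x : X) : ℂ := ((pd (pd hd.φ (e j)) (e k) x : ℝ) : ℂ) -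
  ∑ l, hd.Γ k j l x * ((pd hd.φ (e l) x : ℝ) : ℂ)

lemma dh_Lh {g : X → H} (hg : g ∈ R.Sm) (κ : ℝ) (j k : ι) {x : X} (hx : x ∈ hd.B) :
    dh R hd κ k (Lh R hd κ j g) x - Lh R hd κ j (dh R hd κ k g) x =
      ∑ l, hd.Γ k j l x • (Lh R hd κ l g x - dh R hd κ l g x) + (κ * Lev hd k j x) • g x := by
  have h1 : ∀ j, DifferentiableAt ℝ (dφ hd j) x := fun j =>
    dAt ((cd_dφ hd j).contDiffAt (hd.opn.mem_nhds hx))
  have h2 := Dop_comm hg (cd_star (hd.om_smooth k)) (hd.om_smooth j)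
    (c := fun x => -(κ / 2 * dφ hd k x)) (c' := fun x => κ / 2 * dφ hd j x)
    ((h1 k).const_mul _).fun_neg ((h1 j).const_mul _) (e k) (e j)
  rw [pd_star (dAt (hd.om_smooth k).contDiffAt), hd.hΓ x hx, pd_neg, pd_rmul _ (h1 j),
    pd_rmul _ (h1 k), Rep.dU_sum_left] at h2
  have h3 : pd (dφ hd k) (e j) x = pd (dφ hd j) (e k) x :=
    pd_pd (hd.φ_smooth.contDiffAt (hd.opn.mem_nhds hx)) _ _
  rw [dh, Lh, h2, h3]
  simp only [Rep.dU_smul_left, Rep.dU_sub_left, Lh, dh, Dop, Lev, dφ, mul_sub, sub_smul,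
    Finset.mul_sum, Finset.sum_smul]
  rw [← add_sub_assoc, add_sub_right_comm, ← Finset.sum_sub_distrib]
  congr 1
  · refine Finset.sum_congr rfl fun l _ => ?_
    push_cast
    module
  · push_cast
    module

variable (hd) in
/-- the loss in the Bochner inequality -/
def C1 : ℝ := (Fintype.card ι ^ 3 * hd.C) ^ 2 + Fintype.card ι ^ 3 * hd.C

theorem bochner {G : ι → X → H} (hG : ∀ j, SB R hd.B (G j)) {κ : ℝ} (hκ : 0 ≤ κ) :
    (κ - C1 hd) * ∑ j, ∫ x in hd.B, ‖G j x‖ ^ 2 ∂μ +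
      κ * hd.c0 * ∫ x in hd.B, ‖∑ j, (dφ hd j x : ℂ) • G j x‖ ^ 2 ∂μ ≤
      ∫ x in hd.B, ‖∑ j, dh R hd κ j (G j) x‖ ^ 2 ∂μ + 1 / 2 * ∑ j, ∑ k,
        ∫ x in hd.B, ‖Lh R hd κ j (G k) x - Lh R hd κ k (G j) x‖ ^ 2 ∂μ := by
  have t1 : ∀ j k, Tst hd.B fun x => ⟪G j x, dh R hd κ k (G k) x⟫_ℂ := fun j k =>
    (hG j).tst_left ((hG k).dh κ k).sm
  have t2 : ∀ j k, Tst hd.B fun x => ⟪G j x, Lh R hd κ j (G k) x⟫_ℂ := fun j k =>
    (hG j).tst_left ((hG k).Lh κ j).sm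
  have t3 : ∀ j k l, Tst hd.B fun x => hd.Γ k j l x * ⟪G j x, G k x⟫_ℂ := fun j k l =>
    ((hG j).tst_left (hG k).sm).mul hd.opn (hd.Γ_smooth k j l)
  set D : X → ℂ := fun x => ∑ j, ∑ k, (pd (fun x => ⟪G j x, dh R hd κ k (G k) x⟫_ℂ) (e j) x -
    pd (fun x => ⟪G j x, Lh R hd κ j (G k) x⟫_ℂ) (e k) x -
    ∑ l, pd (fun x => hd.Γ k j l x * ⟪G j x, G k x⟫_ℂ) (e l) x) with hD
  have zD : Zi (μ.restrict hd.B) D := Zi.sum fun j => Zi.sum fun k =>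
    (((t1 j k).zi _).sub ((t2 j k).zi _)).sub (Zi.sum fun l => (t3 j k l).zi _)
  have iD := zD.1
  have hD0 := zD.2
  have hDre : ∫ x in hd.B, (D x).re ∂μ = 0 := by
    have := integral_re iD
    simp only [RCLike.re_to_complex] at this
    rw [this, hD0, zero_re]
  have q1 := fun j => int_sq ((hG j).memLp (μ := μ))
  have q2 := int_sq ((SB.sum Finset.univ fun j => (hG j).rsmul hd.opn (cd_dφ hd j)).memLp (μ := μ))
  have q3 := int_sq ((SB.sum Finset.univ fun j => (hG j).dh κ j).memLp (μ := μ))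
  have q4 := fun j k => int_sq ((((hG k).Lh κ j).sub' ((hG j).Lh κ k)).memLp (μ := μ))
  have q5 := fun j => integrable_finsetSum Finset.univ fun k _ => q4 j k
  have pw : ∀ x ∈ hd.B, (κ - C1 hd) * ∑ j, ‖G j x‖ ^ 2 +
      κ * hd.c0 * ‖∑ j, (dφ hd j x : ℂ) • G j x‖ ^ 2 + (D x).re ≤
      ‖∑ j, dh R hd κ j (G j) x‖ ^ 2 + 1 / 2 * ∑ j, ∑ k,
        ‖Lh R hd κ j (G k) x - Lh R hd κ k (G j) x‖ ^ 2 := fun x hx => by
    refine alg (fun j => G j x) (fun j => dh R hd κ j (G j) x) (fun j k => Lh R hd κ j (G k) x)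
      (fun k j => Lev hd k j x) (fun k j l => hd.Γ k j l x) (fun k j l => pd (hd.Γ k j l) (e l) x)
      (D x) (fun j => dφ hd j x) (hd.Γ_bd x hx) (hd.dΓ_bd x hx) (hd.levi x hx) hκ ?_
    simp only [hD, Finset.mul_sum, ← Finset.sum_add_distrib]
    refine Finset.sum_congr rfl fun j _ => Finset.sum_congr rfl fun k _ => ?_
    have c1 := congrArg (fun y => ⟪G j x, y⟫_ℂ) (dh_Lh (hG k).sm κ j k hx)
    simp only [inner_sub_right, inner_add_right, inner_sum, inner_smul_right] at c1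
    have c2 : ∀ l, pd (fun x => hd.Γ k j l x * ⟪G j x, G k x⟫_ℂ) (e l) x =
        pd (hd.Γ k j l) (e l) x * ⟪G j x, G k x⟫_ℂ + hd.Γ k j l x *
          (⟪Lh R hd κ l (G j) x, G k x⟫_ℂ + ⟪G j x, dh R hd κ l (G k) x⟫_ℂ) := fun l => by
      rw [pd_mul (dAt ((hd.Γ_smooth k j l).contDiffAt (hd.opn.mem_nhds hx)))
        (dAt ((hG j).tst_left (hG k).sm).cd.contDiffAt), pd_inner_Lh (hG j).sm (hG k).sm κ l]
    rw [pd_inner_dh (hG j).sm ((hG k).dh κ k).sm κ j, pd_inner_Lh (hG j).sm ((hG k).Lh κ j).sm κ k]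
    simp only [c2, mul_add, mul_sub, Finset.sum_add_distrib, Finset.sum_sub_distrib] at c1 ⊢
    linear_combination c1
  have := setIntegral_mono_on (μ := μ)
    ((((integrable_finsetSum Finset.univ fun j _ => q1 j).const_mul (κ - C1 hd)).add
      (q2.const_mul (κ * hd.c0))).add iD.re)
    (q3.add ((integrable_finsetSum Finset.univ fun j _ => q5 j).const_mul (1 / 2)))
    hd.opn.measurableSet pw
  simp only [Pi.add_apply, RCLike.re_to_complex] at this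
  rw [integral_add, integral_add, integral_add, integral_const_mul, integral_const_mul,
    integral_const_mul, integral_finsetSum, integral_finsetSum, hDre, add_zero] at this
  · simpa only [integral_finsetSum _ fun k _ => q4 _ k] using this
  · exact fun j _ => q5 j
  · exact fun j _ => q1 j
  · exact q3
  · exact (integrable_finsetSum Finset.univ fun j _ => q5 j).const_mul _
  · exact (integrable_finsetSum Finset.univ fun j _ => q1 j).const_mul _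
  · exact q2.const_mul _
  · exact ((integrable_finsetSum Finset.univ fun j _ => q1 j).const_mul _).add (q2.const_mul _)
  · exact iD.re

end Pool.Agent.Lib.MP_e2ef7e_al.Gen.Hor
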