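import Mathlib

/-!
Convergence in `L²`, an abstract existence lemma and a cut-off function.
-/

open MeasureTheory Complex Set Filter Topology
open scoped ComplexConjugate InnerProductSpace ContDiff ENNReal

noncomputable section

namespace Pool.Agent.Lib.MP_e2ef7e_al.Gen.Hor

section cv

variable {H : Type} [NormedAddCommGroup H] [InnerProductSpace ℂ H]
  {X : Type} [MeasurableSpace X] {ν : Measure X}

lemma int_sq' {g : X → H} (hg : MemLp g 2 ν) : Integrable (fun x => ‖g x‖ ^ 2) ν :=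
  (memLp_two_iff_integrable_sq_norm hg.1).1 hg

lemma norm_sq_Lp (F : Lp H 2 ν) : ‖F‖ ^ 2 = ∫ x, ‖F x‖ ^ 2 ∂ν := by
  rw [← inner_self_eq_norm_sq (𝕜 := ℂ), L2.inner_def, ← integral_re (L2.integrable_inner F F)]
  simp only [inner_self_eq_norm_sq]

lemma norm_sq_toLp {f : X → H} (hf : MemLp f 2 ν) : ‖hf.toLp f‖ ^ 2 = ∫ x, ‖f x‖ ^ 2 ∂ν := by
  rw [norm_sq_Lp]
  exact integral_congr_ae (hf.coeFn_toLp.mono fun x hx => by simp only [hx])

lemma inner_toLp {f : X → H} (hf : MemLp f 2 ν) (F : Lp H 2 ν) :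
    ⟪hf.toLp f, F⟫_ℂ = ∫ x, ⟪f x, F x⟫_ℂ ∂ν := by
  rw [L2.inner_def]
  exact integral_congr_ae (hf.coeFn_toLp.mono fun x hx => by simp only [hx])

lemma inner_toLp_toLp {f g : X → H} (hf : MemLp f 2 ν) (hg : MemLp g 2 ν) :
    ⟪hf.toLp f, hg.toLp g⟫_ℂ = ∫ x, ⟪f x, g x⟫_ℂ ∂ν := by
  rw [inner_toLp]
  exact integral_congr_ae (hg.coeFn_toLp.mono fun x hx => by simp only [hx])

lemma int_inner {f g : X → H} (hf : MemLp f 2 ν) (hg : MemLp g 2 ν) :
    Integrable (fun x => ⟪f x, g x⟫_ℂ) ν := by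
  refine (L2.integrable_inner (𝕜 := ℂ) (hf.toLp f) (hg.toLp g)).congr ?_
  filter_upwards [hf.coeFn_toLp, hg.coeFn_toLp] with x h1 h2
  rw [h1, h2]

lemma memLp_smul {f : X → H} (hf : MemLp f 2 ν) {c : X → ℝ} (hc : AEStronglyMeasurable c ν)
    {M : ℝ} (hM : ∀ᵐ x ∂ν, |c x| ≤ M ∨ f x = 0) : MemLp (fun x => (c x : ℂ) • f x) 2 ν := by
  refine hf.of_le_mul (c := M) ((continuous_ofReal.comp_aestronglyMeasurable hc).smul hf.1) ?_
  filter_upwards [hM] with x hx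
  rcases hx with hx | hx
  · rw [norm_smul, norm_real, Real.norm_eq_abs]
    exact mul_le_mul_of_nonneg_right hx (norm_nonneg _)
  · simp [hx]

variable (ν) in
/-- convergence in `L²` -/
def Cv (F : ℕ → X → H) (f : X → H) : Prop :=
  ∃ (hF : ∀ m, MemLp (F m) 2 ν) (hf : MemLp f 2 ν),
    Tendsto (fun m => (hF m).toLp (F m)) atTop (𝓝 (hf.toLp f))

variable {F G : ℕ → X → H} {f g : X → H}

lemma Cv.tendsto (h : Cv ν F f) :
    Tendsto (fun m => ∫ x, ‖F m x‖ ^ 2 ∂ν) atTop (𝓝 (∫ x, ‖f x‖ ^ 2 ∂ν)) := by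
  obtain ⟨hF, hf, h⟩ := h
  simpa only [norm_sq_toLp] using h.norm.pow 2

lemma Cv.add (h : Cv ν F f) (h' : Cv ν G g) :
    Cv ν (fun m x => F m x + G m x) fun x => f x + g x := by
  obtain ⟨hF, hf, h⟩ := h
  obtain ⟨hG, hg, h'⟩ := h'
  exact ⟨fun m => (hF m).add (hG m), hf.add hg, h.add h'⟩

lemma Cv.sub (h : Cv ν F f) (h' : Cv ν G g) :
    Cv ν (fun m x => F m x - G m x) fun x => f x - g x := by
  obtain ⟨hF, hf, h⟩ := h
  obtain ⟨hG, hg, h'⟩ := h'
  exact ⟨fun m => (hF m).sub (hG m), hf.sub hg, h.sub h'⟩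

lemma Cv.csmul (h : Cv ν F f) (c : ℂ) : Cv ν (fun m x => c • F m x) fun x => c • f x := by
  obtain ⟨hF, hf, h⟩ := h
  exact ⟨fun m => (hF m).const_smul c, hf.const_smul c, h.const_smul c⟩

lemma Cv.const (hf : MemLp f 2 ν) : Cv ν (fun _ => f) f := ⟨fun _ => hf, hf, tendsto_const_nhds⟩

lemma Cv.sum {α : Type} (s : Finset α) {F : α → ℕ → X → H} {f : α → X → H}
    (h : ∀ i, Cv ν (F i) (f i)) : Cv ν (fun m x => ∑ i ∈ s, F i m x) fun x => ∑ i ∈ s, f i x := by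
  classical
  induction s using Finset.induction_on with
  | empty => simpa using Cv.const (f := fun _ => (0 : H)) MemLp.zero
  | insert i s hi ih => simpa only [Finset.sum_insert hi] using (h i).add ih

lemma Cv.of_int (hF : ∀ m, MemLp (F m) 2 ν) (hf : MemLp f 2 ν)
    (h : Tendsto (fun m => ∫ x, ‖F m x - f x‖ ^ 2 ∂ν) atTop (𝓝 0)) : Cv ν F f := by
  refine ⟨hF, hf, tendsto_iff_norm_sub_tendsto_zero.2 ?_⟩
  have h1 := h.sqrt
  rw [Real.sqrt_zero] at h1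
  refine h1.congr fun m => ?_
  rw [← Real.sqrt_sq (norm_nonneg ((hF m).toLp (F m) - hf.toLp f)), ← MemLp.toLp_sub,
    norm_sq_toLp]
  rfl

lemma Cv.int (h : Cv ν F f) : Tendsto (fun m => ∫ x, ‖F m x - f x‖ ^ 2 ∂ν) atTop (𝓝 0) := by
  simpa using (h.sub (Cv.const h.2.1)).tendsto

lemma Cv.of_le (hF : ∀ m, MemLp (F m) 2 ν) (hf : MemLp f 2 ν)
    (h : ∀ m : ℕ, eLpNorm (fun x => F m x - f x) 2 ν ≤ (m : ℝ≥0∞)⁻¹) : Cv ν F f :=
  ⟨hF, hf, (Lp.tendsto_Lp_iff_tendsto_eLpNorm'' F hF f hf).2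
    (tendsto_of_tendsto_of_tendsto_of_le_of_le tendsto_const_nhds
      ENNReal.tendsto_inv_nat_nhds_zero (fun _ => zero_le) h)⟩

lemma Cv.smul (h : Cv ν F f) {c : X → ℝ} (hc : AEStronglyMeasurable c ν) {M : ℝ}
    (hM : ∀ᵐ x ∂ν, |c x| ≤ M ∨ (f x = 0 ∧ ∀ m, F m x = 0)) :
    Cv ν (fun m x => (c x : ℂ) • F m x) fun x => (c x : ℂ) • f x := by
  have hF := fun m => memLp_smul (h.1 m) hc (hM.mono fun x hx => hx.imp id fun h => h.2 m)
  have hf := memLp_smul h.2.1 hc (hM.mono fun x hx => hx.imp id fun h => h.1)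
  refine Cv.of_int hF hf ?_
  have h1 := h.int.const_mul (M ^ 2)
  rw [mul_zero] at h1
  refine squeeze_zero (fun m => integral_nonneg fun x => by positivity) (fun m => ?_) h1
  rw [← integral_const_mul]
  refine integral_mono_ae (int_sq' ((hF m).sub hf))
    ((int_sq' ((h.1 m).sub h.2.1)).const_mul _) ?_
  filter_upwards [hM] with x hx
  rw [← smul_sub, norm_smul, norm_real, Real.norm_eq_abs, mul_pow]
  rcases hx with hx | hx
  · exact mul_le_mul_of_nonneg_right (pow_le_pow_left₀ (abs_nonneg _) hx 2) (by positivity)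
  · simp [hx.1, hx.2 m]

lemma Cv.seq (hf : MemLp f 2 ν) {c : ℕ → X → ℝ} (hc : ∀ n, AEStronglyMeasurable (c n) ν) {M : ℝ}
    (hM : ∀ n x, |c n x| ≤ M) {t : ℝ} (ht : ∀ x, ∀ᶠ n in atTop, c n x = t) :
    Cv ν (fun n x => (c n x : ℂ) • f x) fun x => (t : ℂ) • f x := by
  have hF := fun n => memLp_smul hf (hc n) (Eventually.of_forall fun x => Or.inl (hM n x))
  have hg : MemLp (fun x => (t : ℂ) • f x) 2 ν := hf.const_smul (t : ℂ)
  refine Cv.of_int hF hg ?_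
  have := tendsto_integral_of_dominated_convergence (μ := ν)
    (F := fun n x => ‖(c n x : ℂ) • f x - (t : ℂ) • f x‖ ^ 2) (f := fun _ => 0)
    (fun x => (M + |t|) ^ 2 * ‖f x‖ ^ 2) (fun n => (int_sq' ((hF n).sub hg)).1)
    ((int_sq' hf).const_mul _) (fun n => Eventually.of_forall fun x => ?_)
    (Eventually.of_forall fun x => ?_)
  · simpa using this
  · rw [← sub_smul, norm_smul, ← ofReal_sub, norm_real, Real.norm_eq_abs, Real.norm_eq_abs,
      abs_of_nonneg (by positivity), mul_pow]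
    refine mul_le_mul_of_nonneg_right (pow_le_pow_left₀ (abs_nonneg _) ?_ 2) (by positivity)
    exact (abs_sub _ _).trans (add_le_add (hM n x) le_rfl)
  · refine tendsto_const_nhds.congr' ?_
    filter_upwards [ht x] with n hn
    simp [hn]

lemma Cv.congr (h : Cv ν F f) (hF : ∀ m, F m =ᵐ[ν] G m) (hf : f =ᵐ[ν] g) : Cv ν G g := by
  obtain ⟨h1, h2, h⟩ := h
  refine ⟨fun m => (h1 m).ae_eq (hF m), h2.ae_eq hf, ?_⟩
  rw [← MemLp.toLp_congr h2 _ hf]
  exact h.congr fun m => MemLp.toLp_congr _ _ (hF m)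

end cv

/-- the abstract existence lemma -/
lemma abstract {E F : Type} [NormedAddCommGroup E] [InnerProductSpace ℂ E] [CompleteSpace E]
    [NormedAddCommGroup F] [InnerProductSpace ℂ F] [CompleteSpace F] {I J : Type}
    (α : I → E) (β : I → F) (σ : J → F) (f : F) {C : ℝ} (hC : 0 ≤ C)
    (hβ : ∀ i j, ⟪σ j, β i⟫_ℂ = 0) (hf : ∀ j, ⟪σ j, f⟫_ℂ = 0)
    (est : ∀ a p, (∀ j, ⟪σ j, p⟫_ℂ = 0) → (∀ i, ⟪β i, p⟫_ℂ = ⟪α i, a⟫_ℂ) →
      ‖⟪f, p⟫_ℂ‖ ≤ C * ‖a‖) :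
    ∃ u : E, ‖u‖ ≤ C ∧ ∀ a y, (∀ i, ⟪β i, y⟫_ℂ = ⟪α i, a⟫_ℂ) → ⟪f, y⟫_ℂ = ⟪u, a⟫_ℂ := by
  set N : Submodule ℂ F := (Submodule.span ℂ (range σ))ᗮ with hN
  have memN : ∀ y, y ∈ N ↔ ∀ j, ⟪σ j, y⟫_ℂ = 0 := fun y => by
    refine ⟨fun h j => h _ (Submodule.subset_span ⟨j, rfl⟩), fun h u hu => ?_⟩
    induction hu using Submodule.span_induction with
    | mem x hx => obtain ⟨j, rfl⟩ := hx; exact h j
    | zero => simp
    | add x y _ _ h1 h2 => rw [inner_add_left, h1, h2, add_zero]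
    | smul c x _ h1 => rw [inner_smul_left, h1, mul_zero]
  have est' : ∀ a y, (∀ i, ⟪β i, y⟫_ℂ = ⟪α i, a⟫_ℂ) → ‖⟪f, y⟫_ℂ‖ ≤ C * ‖a‖ := fun a y h => by
    have h1 : ∀ z ∈ N, ⟪z, y⟫_ℂ = ⟪z, N.starProjection y⟫_ℂ := fun z hz => by
      have := N.sub_starProjection_mem_orthogonal y z hz
      rw [inner_sub_right] at this
      exact sub_eq_zero.1 this
    rw [h1 f ((memN f).2 hf)]
    refine est a _ ((memN _).1 (N.starProjection_apply_mem y)) fun i => ?_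
    rw [← h1 _ ((memN _).2 (hβ i)), h i]
  let P : Submodule ℂ (E × F) :=
    { carrier := {z | ∀ i, ⟪β i, z.2⟫_ℂ = ⟪α i, z.1⟫_ℂ}
      zero_mem' := fun i => by simp
      add_mem' := fun {a b} ha hb i => by
        simp only [Prod.snd_add, Prod.fst_add, inner_add_right, ha i, hb i]
      smul_mem' := fun c a ha i => by
        simp only [Prod.smul_snd, Prod.smul_fst, inner_smul_right, ha i] }
  let A : P →ₗ[ℂ] E := (LinearMap.fst ℂ E F).comp P.subtype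
  let l : P →ₗ[ℂ] ℂ := ((innerSL ℂ f).toLinearMap.comp (LinearMap.snd ℂ E F)).comp P.subtype
  have hl : ∀ z : P, ‖l z‖ ≤ C * ‖A z‖ := fun z => est' _ _ z.2
  have hker : LinearMap.ker A ≤ LinearMap.ker l := fun z hz => by
    have := hl z
    rw [LinearMap.mem_ker.1 hz, norm_zero, mul_zero] at this
    exact norm_le_zero_iff.1 this
  let l' : LinearMap.range A →ₗ[ℂ] ℂ :=
    ((LinearMap.ker A).liftQ l hker).comp A.quotKerEquivRange.symm.toLinearMap
  have hl' : ∀ z : P, l' ⟨A z, LinearMap.mem_range_self A z⟩ = l z := fun z => by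
    simp only [l', LinearMap.comp_apply, LinearEquiv.coe_coe]
    rw [show A.quotKerEquivRange.symm ⟨A z, LinearMap.mem_range_self A z⟩ =
      Submodule.Quotient.mk z from A.quotKerEquivRange_symm_apply_image z _]
    rfl
  have hb : ∀ y : LinearMap.range A, ‖l' y‖ ≤ C * ‖y‖ := by
    rintro ⟨_, z, rfl⟩
    rw [hl']; exact hl z
  obtain ⟨g, hg, hn⟩ := exists_extension_norm_eq (LinearMap.range A) (l'.mkContinuous C hb)
  refine ⟨(InnerProductSpace.toDual ℂ E).symm g, ?_, fun a y h => ?_⟩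
  · rw [LinearIsometryEquiv.norm_map, hn]
    exact l'.mkContinuous_norm_le hC hb
  · rw [InnerProductSpace.toDual_symm_apply]
    have := hg ⟨A ⟨(a, y), h⟩, LinearMap.mem_range_self A _⟩
    rw [LinearMap.mkContinuous_apply, hl'] at this
    exact this.symm

lemma exists_chi : ∃ (χ : ℝ → ℝ) (M : ℝ), ContDiff ℝ ∞ χ ∧ (∀ s, |χ s| ≤ M) ∧
    (∀ s, |deriv χ s| ≤ M) ∧ (∀ s < 0, χ s = 1 ∧ deriv χ s = 0) ∧ ∀ s > 1, χ s = 0 := by
  set χ : ℝ → ℝ := fun s => Real.smoothTransition (1 - s) with hχ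
  have hc : ContDiff ℝ ∞ χ := Real.smoothTransition.contDiff.comp (by fun_prop)
  have h1 : ∀ s < 0, χ s = 1 := fun s hs => Real.smoothTransition.one_of_one_le (by linarith)
  have h2 : ∀ s > 1, χ s = 0 := fun s hs => Real.smoothTransition.zero_of_nonpos (by linarith)
  have h3 : ∀ s < 0, deriv χ s = 0 := fun s hs => by
    have : χ =ᶠ[𝓝 s] fun _ => 1 := mem_of_superset (Iio_mem_nhds hs) h1
    rw [this.deriv_eq, deriv_const]
  have h4 : ∀ s > 1, deriv χ s = 0 := fun s hs => by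
    have : χ =ᶠ[𝓝 s] fun _ => 0 := mem_of_superset (Ioi_mem_nhds hs) h2
    rw [this.deriv_eq, deriv_const]
  have h5 : HasCompactSupport (deriv χ) := by
    refine HasCompactSupport.intro (isCompact_Icc (a := 0) (b := 1)) fun s hs => ?_
    rcases not_and_or.1 hs with h | h
    · exact h3 s (not_le.1 h)
    · exact h4 s (not_le.1 h)
  obtain ⟨M, hM⟩ := (hc.continuous_deriv (by simp)).bounded_above_of_compact_support h5
  refine ⟨χ, max M 1, hc, fun s => le_max_of_le_right ?_, fun s => le_max_of_le_left (hM s),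
    fun s hs => ⟨h1 s hs, h3 s hs⟩, h2⟩
  rw [abs_of_nonneg (Real.smoothTransition.nonneg _)]
  exact Real.smoothTransition.le_one _

end Pool.Agent.Lib.MP_e2ef7e_al.Gen.Hor
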