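import Pool.Agent.Lib.MP_e2ef7e_al.H35Apr

/-!
The existence theorem, given the approximation property.
-/

open MeasureTheory Complex Set Filter Topology
open scoped ComplexConjugate InnerProductSpace ContDiff ENNReal

noncomputable section

namespace Pool.Agent.Lib.MP_e2ef7e_al.Gen.Hor

variable {ι : Type} [Fintype ι] [DecidableEq ι] {L : LieD ι}
  {H : Type} [NormedAddCommGroup H] [InnerProductSpace ℂ H] [CompleteSpace H]
  {X : Type} [NormedAddCommGroup X] [NormedSpace ℝ X] [FiniteDimensional ℝ X]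
  [MeasurableSpace X] [BorelSpace X] {R : Rep L H} {μ : Measure X} [μ.IsAddHaarMeasure]
  {e : ι → X} {hd : HData L e}

lemma sm_L0 {g : X → H} (hg : g ∈ R.Sm) (j : ι) : L0 R hd j g ∈ R.Sm :=
  sm_Dop0 hg _ (hd.om_smooth j)

lemma SB.L0 {g : X → H} (hg : SB R hd.B g) (j : ι) : SB R hd.B (L0 R hd j g) :=
  hg.Dop hd.opn _ (hd.om_smooth j) contDiffOn_const

lemma SB.Ad {g : X → H} (hg : SB R hd.B g) (q : Option (ι × ι)) (j : ι) :
    SB R hd.B (Ad R hd q j g) := hg.Dop hd.opn _ (cd_star (cd_fa hd q j)) contDiffOn_const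

lemma SB.Op {g : X → H} (hg : SB R hd.B g) (q : Option (ι × ι)) (j : ι) :
    SB R hd.B (Op R hd q j g) := hg.Dop hd.opn _ (cd_fa hd q j) contDiffOn_const

lemma SB.ew {g : X → H} (hg : SB R hd.B g) (c : ℝ) :
    MemLp (fun x => (ew hd c x : ℂ) • g x) 2 (μ.restrict hd.B) :=
  (hg.rsmul hd.opn (cd_ew hd c)).memLp

lemma L0_comm {g : X → H} (hg : g ∈ R.Sm) (j k : ι) (x : X) :
    L0 R hd j (L0 R hd k g) x - L0 R hd k (L0 R hd j g) x = 0 := by
  have := Dop_comm hg (hd.om_smooth j) (hd.om_smooth k) (c := fun _ => 0) (c' := fun _ => 0)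
    (x := x) (differentiableAt_const _) (differentiableAt_const _) (e j) (e k)
  rw [hd.mc, L.skew (hd.om k x), neg_add_cancel, Rep.dU_zero_left, pd_const, pd_const] at this
  simpa [L0] using this

lemma curl_zero {s g : X → H} (hs : SB R hd.B s) (hg : g ∈ R.Sm) (q : ι × ι) :
    ∑ i, ∫ x in hd.B, ⟪Ad R hd (some q) i s x, L0 R hd i g x⟫_ℂ ∂μ = 0 := by
  have h1 : ∀ i, ∫ x in hd.B, ⟪Ad R hd (some q) i s x, L0 R hd i g x⟫_ℂ ∂μ =
      -∫ x in hd.B, ⟪s x, Op R hd (some q) i (L0 R hd i g) x⟫_ℂ ∂μ := fun i =>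
    ibp hd.opn hs (sm_L0 hg i) _ (cd_fa hd _ i)
  simp only [h1, Finset.sum_neg_distrib, neg_eq_zero]
  rw [← integral_finsetSum _ fun i _ =>
    (hs.tst_left (h := Op R hd (some q) i (L0 R hd i g))
      (sm_Dop0 (sm_L0 hg i) _ (cd_fa hd _ i))).integrable]
  simp only [← inner_sum, sum_Op hd (fun i => L0 R hd i g) q.1 q.2, L0_comm hg, inner_zero_right,
    integral_zero]

lemma norm_L0_const (v : H) (j : ι) {x : X} (hx : x ∈ hd.B) :
    ‖L0 R hd j (fun _ => v) x‖ ^ 2 ≤ hd.C ^ 2 * Fintype.card ι * ∑ i, ‖gen (R.E i) v‖ ^ 2 := by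
  have h1 : ‖L0 R hd j (fun _ => v) x‖ ≤ hd.C * ∑ i, ‖gen (R.E i) v‖ := by
    simp only [L0, Dop, pd_const, ofReal_zero, zero_smul, add_zero, zero_sub, norm_neg, Rep.dU,
      Finset.mul_sum]
    refine norm_sum_le_of_le _ fun i _ => ?_
    rw [norm_smul]
    exact mul_le_mul_of_nonneg_right ((norm_le_pi_norm _ i).trans (hd.om_bd x hx j))
      (norm_nonneg _)
  refine (pow_le_pow_left₀ (norm_nonneg _) h1 2).trans ?_
  rw [mul_pow, mul_assoc]
  exact mul_le_mul_of_nonneg_left sq_sum_le_card_mul_sum_sq (sq_nonneg _)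

lemma norm_ew_sq (c : ℝ) (x : X) (y : H) :
    ‖(ew hd c x : ℂ) • y‖ ^ 2 = ew hd (2 * c) x * ‖y‖ ^ 2 := by
  rw [norm_smul, norm_real, Real.norm_eq_abs, mul_pow, sq_abs, sq (ew hd c x), ew_mul, two_mul]

lemma const_bound {k c : ℝ} (hc : 2 * c ≤ -k) (v : H) (j : ι) {x : X} (hx : x ∈ hd.B) :
    ‖(ew hd c x : ℂ) • L0 R hd j (fun _ => v) x‖ ^ 2 ≤
      (hd.C ^ 2 * Fintype.card ι * ∑ i, ‖gen (R.E i) v‖ ^ 2) * Real.exp (-(k * hd.φ x)) := by
  rw [norm_ew_sq, mul_comm]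
  refine mul_le_mul (norm_L0_const v j hx) (Real.exp_le_exp.2 ?_) (ew_pos hd _ x).le (by positivity)
  rw [← neg_mul]
  exact mul_le_mul_of_nonneg_right hc (hd.φ_nonneg x hx)

lemma const_memLp {k c : ℝ} (hc : 2 * c ≤ -k)
    (hI : IntegrableOn (fun x => Real.exp (-(k * hd.φ x))) hd.B μ) {v : H} (hv : v ∈ R.Dinf)
    (j : ι) : MemLp (fun x => (ew hd c x : ℂ) • L0 R hd j (fun _ => v) x) 2 (μ.restrict hd.B) := by
  have hm : AEStronglyMeasurable (fun x => (ew hd c x : ℂ) • L0 R hd j (fun _ => v) x)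
      (μ.restrict hd.B) := (continuous_ofReal.comp_aestronglyMeasurable (meas_ew hd c)).smul
    (sm_cd (sm_L0 (sm_const hv) j)).continuous.aestronglyMeasurable
  exact (memLp_two_iff_integrable_sq_norm hm).2 ((hI.const_mul _).mono' (hm.norm.pow 2)
    (ae_B hd fun x hx => (Real.norm_of_nonneg (sq_nonneg _)).trans_le (const_bound hc v j hx)))

/-- a form as an element of the Hilbert space -/
def toF {ν : Measure X} {f : ι → X → H} (hf : ∀ j, MemLp (f j) 2 ν) :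
    PiLp 2 fun _ : ι => Lp H 2 ν := WithLp.toLp 2 fun j => (hf j).toLp (f j)

lemma inner_toF {ν : Measure X} {f : ι → X → H} (hf : ∀ j, MemLp (f j) 2 ν)
    (p : PiLp 2 fun _ : ι => Lp H 2 ν) : ⟪toF hf, p⟫_ℂ = ∑ j, ∫ x, ⟪f j x, p j x⟫_ℂ ∂ν := by
  simp only [PiLp.inner_apply, toF, inner_toLp]

lemma inner_toF_toF {ν : Measure X} {f g : ι → X → H} (hf : ∀ j, MemLp (f j) 2 ν)
    (hg : ∀ j, MemLp (g j) 2 ν) : ⟪toF hf, toF hg⟫_ℂ = ∑ j, ∫ x, ⟪f j x, g j x⟫_ℂ ∂ν := by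
  simp only [PiLp.inner_apply, toF, inner_toLp_toLp]

lemma norm_toF {ν : Measure X} {f : ι → X → H} (hf : ∀ j, MemLp (f j) 2 ν) :
    ‖toF hf‖ ^ 2 = ∑ j, ∫ x, ‖f j x‖ ^ 2 ∂ν := by
  simp only [PiLp.norm_sq_eq_of_L2, toF, norm_sq_toLp]

lemma exists_sol (hA : Approx R μ) {k : ℝ} (hk : 0 < k) (hk1 : 8 ≤ (k + 4) * hd.c0)
    (hk2 : 2 * C1 hd ≤ k) (hI : IntegrableOn (fun x => Real.exp (-(k * hd.φ x))) hd.B μ) {v : H}
    (hv : v ∈ R.Dinf) : ∃ u : X → H, MemLp u 2 (μ.restrict hd.B) ∧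
      ∫ x in hd.B, ‖u x‖ ^ 2 ∂μ ≤ 4 * (Fintype.card ι * hd.C) ^ 2 / k *
        (∑ i, ‖gen (R.E i) v‖ ^ 2) * ∫ x in hd.B, Real.exp (-(k * hd.φ x)) ∂μ ∧
      ∀ j t, SB R hd.B t → ∫ x in hd.B, ⟪Op R hd none j t x, v⟫_ℂ ∂μ =
        ∫ x in hd.B, ⟪Op R hd none j t x, (ew hd (k / 2) x : ℂ) • u x⟫_ℂ ∂μ := by
  set T := 4 * (Fintype.card ι * hd.C) ^ 2 / k * (∑ i, ‖gen (R.E i) v‖ ^ 2) *
    ∫ x in hd.B, Real.exp (-(k * hd.φ x)) ∂μ with hT
  have hI0 : 0 ≤ ∫ x in hd.B, Real.exp (-(k * hd.φ x)) ∂μ :=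
    integral_nonneg fun x => (Real.exp_pos _).le
  have hT0 : 0 ≤ T := by positivity
  have f1 := const_memLp (R := R) (c := -(k + 2) / 2) (by linarith) hI hv
  have f2 := const_memLp (R := R) (c := -k / 2) (by linarith) hI hv
  have z1 : ∀ (x : X) (y z : H), ⟪(ew hd ((k + 2) / 2) x : ℂ) • y,
      (ew hd (-(k + 2) / 2) x : ℂ) • z⟫_ℂ = ⟪y, z⟫_ℂ := fun x y z => by
    rw [inner_ew, show (k + 2) / 2 + -(k + 2) / 2 = 0 by ring, ew_zero, ofReal_one, one_mul]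
  have z2 : ∀ (x : X) (y z : H), ⟪(ew hd (-(k + 2) / 2) x : ℂ) • y,
      (ew hd ((k + 2) / 2) x : ℂ) • z⟫_ℂ = ⟪y, z⟫_ℂ := fun x y z => by
    rw [inner_ew, show -(k + 2) / 2 + (k + 2) / 2 = 0 by ring, ew_zero, ofReal_one, one_mul]
  have z3 : ∀ (x : X) (y z : H), ⟪(ew hd (-k / 2) x : ℂ) • y,
      (ew hd (k / 2) x : ℂ) • z⟫_ℂ = ⟪y, z⟫_ℂ := fun x y z => by
    rw [inner_ew, show -k / 2 + k / 2 = 0 by ring, ew_zero, ofReal_one, one_mul]
  obtain ⟨u, hu, hu'⟩ := abstract (I := {s // SB R hd.B s}) (J := (ι × ι) × {s // SB R hd.B s})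
    (fun s => (s.2.ew (μ := μ) (-k / 2)).toLp _)
    (fun s => toF fun j => (s.2.L0 j).ew (μ := μ) (-(k + 2) / 2))
    (fun z => toF fun j => (z.2.2.Ad (some z.1) j).ew (μ := μ) ((k + 2) / 2)) (toF f1)
    (Real.sqrt_nonneg T)
    (fun s z => by
      simp only [inner_toF_toF, z1]
      exact curl_zero z.2.2 s.2.sm z.1)
    (fun z => by
      simp only [inner_toF_toF, z1]
      exact curl_zero z.2.2 (sm_const hv) z.1)
    (fun a p h1 h2 => by
      simp only [inner_toF, inner_toLp] at h1 h2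
      have key := apriori hA hk.le hk1 (p := fun j => p j) (fun j => Lp.memLp (p j)) (Lp.memLp a)
        (fun s hs => h2 ⟨s, hs⟩) fun q s hs => h1 (q, ⟨s, hs⟩)
      have hgL : ∀ j, MemLp (fun x => (ew hd (-1) x : ℂ) • p j x) 2 (μ.restrict hd.B) := fun j =>
        memLp_smul (Lp.memLp (p j)) (meas_ew hd _) (M := 1) (ae_B hd fun x hx => Or.inl (by
          rw [abs_of_pos (ew_pos hd _ x)]
          exact Real.exp_le_one_iff.2 (by linarith [hd.φ_nonneg x hx])))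
      rw [← norm_toF hgL, ← norm_sq_Lp] at key
      have e1 : ⟪toF f1, p⟫_ℂ = ⟪toF f2, toF hgL⟫_ℂ := by
        rw [inner_toF, inner_toF_toF]
        refine Finset.sum_congr rfl fun j _ => ?_
        congr 1
        funext x
        rw [inner_ew, inner_smul_left, conj_ofReal, show -k / 2 + -1 = -(k + 2) / 2 by ring]
      have e2 : ‖toF f2‖ ^ 2 ≤ Fintype.card ι * ((hd.C ^ 2 * Fintype.card ι *
          ∑ i, ‖gen (R.E i) v‖ ^ 2) * ∫ x in hd.B, Real.exp (-(k * hd.φ x)) ∂μ) := by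
        rw [norm_toF, ← nsmul_eq_mul, ← Finset.card_univ]
        refine Finset.sum_le_card_nsmul _ _ _ fun j _ => ?_
        rw [← integral_const_mul]
        exact setIntegral_mono_on (int_sq (f2 j)) (hI.const_mul _) hd.opn.measurableSet
          fun x hx => const_bound (by linarith) v j hx
      have e3 : ‖toF hgL‖ ^ 2 ≤ 4 / k * ‖a‖ ^ 2 := by
        rw [div_mul_eq_mul_div, le_div_iff₀ hk]
        nlinarith [sq_nonneg ‖toF hgL‖]
      rw [e1]
      refine (norm_inner_le_norm _ _).trans (le_of_sq_le_sq ?_ (by positivity))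
      rw [mul_pow, mul_pow, Real.sq_sqrt hT0]
      refine (mul_le_mul e2 e3 (by positivity) (by positivity)).trans_eq ?_
      rw [hT]; ring)
  refine ⟨u, Lp.memLp u, ?_, fun j t ht => ?_⟩
  · rw [← norm_sq_Lp, ← Real.sq_sqrt hT0]
    exact pow_le_pow_left₀ (norm_nonneg _) hu 2
  have hy : ∀ i, MemLp (fun x => (ew hd ((k + 2) / 2) x : ℂ) • if i = j then t x else 0) 2
      (μ.restrict hd.B) := fun i => by
    split_ifs
    · exact ht.ew _
    · exact SB.zero.ew (R := R) _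
  have sy : ∀ Y : ι → X → H, ∑ i, ∫ x in hd.B, ⟪Y i x, if i = j then t x else 0⟫_ℂ ∂μ =
      ∫ x in hd.B, ⟪Y j x, t x⟫_ℂ ∂μ := fun Y => by
    rw [Finset.sum_eq_single j (fun i _ hi => by simp [hi]) (by simp)]
    simp
  have h1 := hu' (((ht.Op none j).neg.ew (μ := μ) (k / 2)).toLp _) (toF hy) fun s => by
    simp only [inner_toF_toF, inner_toLp_toLp, z2, z3, inner_neg_right, integral_neg]
    rw [sy fun i => L0 R hd i s, ← Ad_none]
    exact ibp hd.opn s.2 ht.sm _ (cd_fa hd none j)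
  simp only [inner_toF_toF, z2] at h1
  rw [sy fun i => L0 R hd i fun _ => v, ← inner_conj_symm u, inner_toLp] at h1
  have h2 : ∫ x in hd.B, ⟪Op R hd none j t x, v⟫_ℂ ∂μ =
      -∫ x in hd.B, ⟪t x, L0 R hd j (fun _ => v) x⟫_ℂ ∂μ :=
    ibp hd.opn ht (sm_const hv) _ (hd.om_smooth j)
  have h3 := congrArg conj h1
  rw [conj_conj, ← integral_conj] at h3
  simp only [inner_conj_symm] at h3
  rw [h2, h3, ← integral_neg]
  simp only [inner_ew_swap, smul_neg, inner_neg_left, neg_neg]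

theorem hormander_of (hA : Approx R μ) (hd : HData L e) : ∃ k0 C1 : ℝ, 0 < C1 ∧ ∀ k ≥ k0,
      IntegrableOn (fun x => Real.exp (-(k * hd.φ x))) hd.B μ → ∀ v ∈ R.Dinf, ∃ u : X → H,
        AEStronglyMeasurable u μ ∧
        IntegrableOn (fun x => ‖u x‖ ^ 2 * Real.exp (-(k * hd.φ x))) hd.B μ ∧
        ∫ x in hd.B, ‖u x‖ ^ 2 * Real.exp (-(k * hd.φ x)) ∂μ ≤
          C1 / k * (∑ i, ‖gen (R.E i) v‖ ^ 2) * ∫ x in hd.B, Real.exp (-(k * hd.φ x)) ∂μ ∧
        ∀ j, R.WEq μ hd.B (fun x => v - u x) (e j) (hd.om j) := by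
  refine ⟨max (8 / hd.c0) (2 * C1 hd), 4 * (Fintype.card ι * hd.C) ^ 2 + 1, by positivity,
    fun k hk hI v hv => ?_⟩
  have hc := hd.c0_pos
  have k1 : 8 / hd.c0 ≤ k := le_of_max_le_left hk
  have k0 : 0 < k := lt_of_lt_of_le (by positivity) k1
  rw [div_le_iff₀ hc] at k1
  obtain ⟨u, hu, hb, hw⟩ := exists_sol hA k0 (by nlinarith) (le_of_max_le_right hk) hI hv
  have hB := hd.opn.measurableSet
  have e1 : ∀ x ∈ hd.B, ‖u x‖ ^ 2 = ‖hd.B.indicator (fun x => (ew hd (k / 2) x : ℂ) • u x) x‖ ^ 2 *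
      Real.exp (-(k * hd.φ x)) := fun x hx => by
    rw [indicator_of_mem hx, norm_ew_sq, ew, mul_right_comm, ← Real.exp_add,
      show 2 * (k / 2) * hd.φ x + -(k * hd.φ x) = 0 by ring, Real.exp_zero, one_mul]
  refine ⟨hd.B.indicator fun x => (ew hd (k / 2) x : ℂ) • u x,
    (aestronglyMeasurable_indicator_iff hB).2
      ((continuous_ofReal.comp_aestronglyMeasurable (meas_ew hd _)).smul hu.1),
    (int_sq hu).congr (ae_B hd e1), ?_, fun j θ hθ hθc hθs ψ hψ => ?_⟩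
  · rw [← setIntegral_congr_fun hB e1]
    refine hb.trans (mul_le_mul_of_nonneg_right (mul_le_mul_of_nonneg_right ?_ (by positivity))
      (integral_nonneg fun x => (Real.exp_pos _).le))
    exact div_le_div_of_nonneg_right (by linarith) k0.le
  have tθ : Tst hd.B θ := ⟨hθ, hθc, hθs⟩
  have cj : ∀ {W : X → ℂ}, Tst hd.B W → ∀ {g : X → H}, g ∈ R.Sm →
      SB R hd.B fun x => conj (W x) • g x := fun hW g hg =>
    have := Tst.of_supp (cd_conj hW.cd) hW.cs hW.sub fun x hx => by rw [hx, map_zero]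
    SB.of_smul this.cd this.cs this.sub hg
  have int : ∀ r, SB R hd.B r → Integrable (fun x => ⟪r x, v - (ew hd (k / 2) x : ℂ) • u x⟫_ℂ)
      (μ.restrict hd.B) := fun r hr => by
    simp only [inner_sub_right]
    exact (hr.tst_left (sm_const hv)).integrable.sub (int_ew hu _ hr)
  have ht := cj tθ (sm_const hψ)
  have h1 := hw j _ ht
  rw [← sub_eq_zero, ← integral_sub ((ht.Op none j).tst_left (sm_const hv)).integrable
    (int_ew hu _ (ht.Op none j))] at h1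
  simp only [← inner_sub_right] at h1
  simp only [Op, fv, fa, inner_test hθ hψ] at h1
  have i1 := int _ (cj (tθ.pd (e j)) (sm_const hψ))
  have i2 := int _ (cj tθ (sm_dU (sm_const hψ) (cd_star (hd.om_smooth j))))
  simp only [inner_smul_left, conj_conj] at i1 i2
  rw [integral_sub i1 i2, sub_eq_zero] at h1
  rw [← setIntegral_eq_integral_of_forall_compl_eq_zero (s := hd.B) fun x hx => by
      rw [(tθ.pd (e j)).zero_of hx, zero_mul],
    ← setIntegral_eq_integral_of_forall_compl_eq_zero (s := hd.B) (μ := μ)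
      (f := fun x => θ x * _) fun x hx => by rw [tθ.zero_of hx, zero_mul]]
  convert h1 using 1
  · exact setIntegral_congr_fun hB fun x hx => by simp only [indicator_of_mem hx]
  · exact setIntegral_congr_fun hB fun x hx => by simp only [indicator_of_mem hx]

end Pool.Agent.Lib.MP_e2ef7e_al.Gen.Hor
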