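import Pool.Agent.Lib.MP_e2ef7e_al.GDefs2

/-!
Calculus for smooth functions with values in the smooth vectors.
-/

open MeasureTheory Complex Set Filter Topology
open scoped ComplexConjugate InnerProductSpace ContDiff ENNReal

noncomputable section

namespace Pool.Agent.Lib.MP_e2ef7e_al.Gen.Hor

variable {ι : Type} [Fintype ι] [DecidableEq ι] {L : LieD ι}
  {H : Type} [NormedAddCommGroup H] [InnerProductSpace ℂ H] [CompleteSpace H]
  {X : Type} [NormedAddCommGroup X] [NormedSpace ℝ X] {R : Rep L H}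

section pd

variable {F : Type} [NormedAddCommGroup F] [NormedSpace ℝ F]

lemma cd_of_tsupport {f : X → F} (h : ∀ x ∈ tsupport f, ContDiffAt ℝ ∞ f x) :
    ContDiff ℝ ∞ f := by
  refine contDiff_iff_contDiffAt.2 fun x => ?_
  by_cases hx : x ∈ tsupport f
  · exact h x hx
  · exact contDiffAt_const.congr_of_eventuallyEq (notMem_tsupport_iff_eventuallyEq.1 hx)

lemma pd_zero_of {f : X → F} {x : X} (hx : x ∉ tsupport f) (w : X) : pd f w x = 0 := by
  simp [pd, fderiv_of_notMem_tsupport ℝ hx]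

lemma pd_congr {f g : X → F} {x : X} (h : f =ᶠ[𝓝 x] g) (w : X) : pd f w x = pd g w x := by
  simp [pd, h.fderiv_eq]

lemma pd_const (c : F) (w x : X) : pd (fun _ => c) w x = 0 := by simp [pd]

lemma pd_add {f g : X → F} {x : X} (hf : DifferentiableAt ℝ f x) (hg : DifferentiableAt ℝ g x)
    (w : X) : pd (fun y => f y + g y) w x = pd f w x + pd g w x := by
  simp [pd, fderiv_fun_add hf hg]

lemma pd_sub {f g : X → F} {x : X} (hf : DifferentiableAt ℝ f x) (hg : DifferentiableAt ℝ g x)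
    (w : X) : pd (fun y => f y - g y) w x = pd f w x - pd g w x := by
  simp [pd, fderiv_fun_sub hf hg]

lemma pd_neg (f : X → F) (w x : X) : pd (fun y => -f y) w x = -pd f w x := by
  simp [pd, fderiv_fun_neg]

lemma pd_sum {α : Type} (s : Finset α) {f : α → X → F} {x : X}
    (hf : ∀ i, DifferentiableAt ℝ (f i) x) (w : X) :
    pd (fun y => ∑ i ∈ s, f i y) w x = ∑ i ∈ s, pd (f i) w x := by
  simp [pd, fderiv_fun_sum fun i _ => hf i]

lemma pd_clm {G : Type} [NormedAddCommGroup G] [NormedSpace ℝ G] (T : F →L[ℝ] G) {f : X → F}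
    {x : X} (hf : DifferentiableAt ℝ f x) (w : X) :
    pd (fun y => T (f y)) w x = T (pd f w x) := by
  have := (T.hasFDerivAt.comp x hf.hasFDerivAt).fderiv
  simp only [pd]
  rw [show (fun y => T (f y)) = T ∘ f from rfl, this]; rfl

lemma pd_ofReal {c : X → ℝ} {x : X} (hc : DifferentiableAt ℝ c x) (w : X) :
    pd (fun y => (c y : ℂ)) w x = ((pd c w x : ℝ) : ℂ) := pd_clm ofRealCLM hc w

lemma pd_conj {c : X → ℂ} {x : X} (hc : DifferentiableAt ℝ c x) (w : X) :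
    pd (fun y => conj (c y)) w x = conj (pd c w x) :=
  pd_clm (conjCLE : ℂ ≃L[ℝ] ℂ).toContinuousLinearMap hc w

lemma pd_apply {a : X → ι → ℂ} {x : X} (ha : DifferentiableAt ℝ a x) (w : X) (i : ι) :
    pd (fun y => a y i) w x = pd a w x i :=
  pd_clm (ContinuousLinearMap.proj (R := ℝ) (φ := fun _ : ι => ℂ) i) ha w

lemma pd_star {a : X → ι → ℂ} {x : X} (ha : DifferentiableAt ℝ a x) (w : X) :
    pd (fun y => star (a y)) w x = star (pd a w x) :=
  pd_clm (starL' ℝ : (ι → ℂ) ≃L[ℝ] (ι → ℂ)).toContinuousLinearMap ha w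

lemma cd_star {a : X → ι → ℂ} (ha : ContDiff ℝ ∞ a) : ContDiff ℝ ∞ fun y => star (a y) :=
  (starL' ℝ : (ι → ℂ) ≃L[ℝ] (ι → ℂ)).contDiff.comp ha

lemma pd_smul {c : X → ℂ} {g : X → H} {x : X} (hc : DifferentiableAt ℝ c x)
    (hg : DifferentiableAt ℝ g x) (w : X) :
    pd (fun y => c y • g y) w x = pd c w x • g x + c x • pd g w x := by
  simp [pd, fderiv_fun_smul hc hg, add_comm]

lemma pd_mul {c g : X → ℂ} {x : X} (hc : DifferentiableAt ℝ c x)
    (hg : DifferentiableAt ℝ g x) (w : X) :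
    pd (fun y => c y * g y) w x = pd c w x * g x + c x * pd g w x := by
  simp [pd, fderiv_fun_mul hc hg, add_comm, mul_comm]

lemma pd_rmul (k : ℝ) {c : X → ℝ} {x : X} (hc : DifferentiableAt ℝ c x) (w : X) :
    pd (fun y => k * c y) w x = k * pd c w x := by
  simp [pd, fderiv_const_mul hc]

lemma pd_inner {f g : X → H} {x : X} (hf : DifferentiableAt ℝ f x)
    (hg : DifferentiableAt ℝ g x) (w : X) :
    pd (fun y => ⟪f y, g y⟫_ℂ) w x = ⟪pd f w x, g x⟫_ℂ + ⟪f x, pd g w x⟫_ℂ := by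
  simp only [pd]
  rw [fderiv_inner_apply ℂ hf hg, add_comm]

lemma pd_comp {β : ℝ → ℝ} {φ : X → ℝ} {x : X} (hβ : DifferentiableAt ℝ β (φ x))
    (hφ : DifferentiableAt ℝ φ x) (w : X) :
    pd (fun y => β (φ y)) w x = deriv β (φ x) * pd φ w x := by
  have := (hβ.hasDerivAt.comp_hasFDerivAt x hφ.hasFDerivAt).fderiv
  simp only [pd]
  rw [show (fun y => β (φ y)) = β ∘ φ from rfl, this]; simp

lemma cdAt_pd {f : X → F} {x : X} (hf : ContDiffAt ℝ ∞ f x) (w : X) :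
    ContDiffAt ℝ ∞ (pd f w) x :=
  (hf.fderiv_right (m := ∞) (by simp)).clm_apply contDiffAt_const

lemma cd_pd {f : X → F} (hf : ContDiff ℝ ∞ f) (w : X) : ContDiff ℝ ∞ (pd f w) :=
  contDiff_iff_contDiffAt.2 fun _ => cdAt_pd hf.contDiffAt w

lemma cdOn_pd {f : X → F} {B : Set X} (hB : IsOpen B) (hf : ContDiffOn ℝ ∞ f B) (w : X) :
    ContDiffOn ℝ ∞ (pd f w) B := fun _ hx =>
  (cdAt_pd (hf.contDiffAt (hB.mem_nhds hx)) w).contDiffWithinAt

lemma dAt {f : X → F} {x : X} (hf : ContDiffAt ℝ ∞ f x) : DifferentiableAt ℝ f x :=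
  hf.differentiableAt (by simp)

lemma pd_pd {f : X → F} {x : X} (hf : ContDiffAt ℝ ∞ f x) (w w' : X) :
    pd (pd f w) w' x = pd (pd f w') w x := by
  have h1 : DifferentiableAt ℝ (fderiv ℝ f) x := dAt (hf.fderiv_right (m := ∞) (by simp))
  have h2 : ∀ u u', pd (pd f u) u' x = fderiv ℝ (fderiv ℝ f) x u' u := fun u u' =>
    pd_clm (ContinuousLinearMap.apply ℝ F u) h1 u'
  rw [h2, h2]
  exact (hf.isSymmSndFDerivAt (by simp; exact WithTop.coe_le_coe.2 le_top)).eq _ _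

lemma pd_dir_sub (f : X → F) (w w' x : X) : pd f (w - w') x = pd f w x - pd f w' x := by
  simp [pd]

lemma pd_dir_zero (f : X → F) (x : X) : pd f 0 x = 0 := by simp [pd]

end pd

section sm

variable {g h : X → H}

lemma sm_cd (hg : g ∈ R.Sm) : ContDiff ℝ ∞ g := by
  obtain ⟨S, hg, hS⟩ := hg; exact (hS g hg).1

lemma sm_d (hg : g ∈ R.Sm) (x : X) : DifferentiableAt ℝ g x := dAt (sm_cd hg).contDiffAt

lemma sm_gen (hg : g ∈ R.Sm) (j : ι) : (fun x => gen (R.E j) (g x)) ∈ R.Sm := by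
  obtain ⟨S, hg, hS⟩ := hg; exact ⟨S, ((hS g hg).2 j).2, hS⟩

lemma sm_dom (hg : g ∈ R.Sm) (j : ι) (x : X) : Dom (R.E j) (g x) := by
  obtain ⟨S, hg, hS⟩ := hg; exact ((hS g hg).2 j).1 x

lemma sm_mem (hg : g ∈ R.Sm) (x : X) : g x ∈ R.Dinf := by
  refine Rep.mem_Dinf_of (S := {v | ∃ f ∈ R.Sm, v = f x}) ?_ ⟨g, hg, rfl⟩
  rintro _ ⟨f, hf, rfl⟩ j
  exact ⟨sm_dom hf j x, _, sm_gen hf j, rfl⟩

lemma sm_const {ψ : H} (hψ : ψ ∈ R.Dinf) : (fun _ : X => ψ) ∈ R.Sm := by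
  refine ⟨{f | ∃ v ∈ R.Dinf, f = fun _ => v}, ⟨ψ, hψ, rfl⟩, ?_⟩
  rintro _ ⟨v, hv, rfl⟩
  exact ⟨contDiff_const, fun j => ⟨fun _ => Rep.dom_of_mem hv j, _, Rep.gen_mem_Dinf hv j, rfl⟩⟩

lemma sm_add (hg : g ∈ R.Sm) (hh : h ∈ R.Sm) : (fun x => g x + h x) ∈ R.Sm := by
  refine ⟨{f | ∃ a ∈ R.Sm, ∃ b ∈ R.Sm, f = fun x => a x + b x}, ⟨g, hg, h, hh, rfl⟩, ?_⟩
  rintro _ ⟨a, ha, b, hb, rfl⟩
  refine ⟨(sm_cd ha).add (sm_cd hb), fun j => ⟨fun x => (sm_dom ha j x).add (sm_dom hb j x),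
    _, sm_gen ha j, _, sm_gen hb j, funext fun x => gen_add (sm_dom ha j x) (sm_dom hb j x)⟩⟩

lemma sm_smul {c : X → ℂ} (hg : g ∈ R.Sm) (hc : ∀ x ∈ tsupport g, ContDiffAt ℝ ∞ c x) :
    (fun x => c x • g x) ∈ R.Sm := by
  refine ⟨{f | ∃ a ∈ R.Sm, tsupport a ⊆ tsupport g ∧ f = fun x => c x • a x},
    ⟨g, hg, subset_rfl, rfl⟩, ?_⟩
  rintro _ ⟨a, ha, hs, rfl⟩
  refine ⟨cd_of_tsupport fun x hx => ?_, fun j => ⟨fun x => (sm_dom ha j x).smul _,
    _, sm_gen ha j, ?_, funext fun x => gen_smul (sm_dom ha j x) _⟩⟩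
  · exact (hc x (hs (tsupport_smul_subset_right c a hx))).smul (sm_cd ha).contDiffAt
  · refine (closure_mono fun x hx => ?_).trans hs
    intro h0
    exact hx (by simp only [h0, gen_zero])

lemma sm_neg (hg : g ∈ R.Sm) : (fun x => -g x) ∈ R.Sm := by
  simpa using sm_smul (c := fun _ => -1) hg fun _ _ => contDiffAt_const

lemma sm_sub (hg : g ∈ R.Sm) (hh : h ∈ R.Sm) : (fun x => g x - h x) ∈ R.Sm := by
  simpa only [sub_eq_add_neg] using sm_add hg (sm_neg hh)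

lemma sm_sum {α : Type} (s : Finset α) {f : α → X → H} (hf : ∀ i, f i ∈ R.Sm) :
    (fun x => ∑ i ∈ s, f i x) ∈ R.Sm := by
  classical
  induction s using Finset.induction_on with
  | empty => simpa using sm_const (X := X) R.Dinf.zero_mem
  | insert i s hi ih => simpa only [Finset.sum_insert hi] using sm_add (hf i) ih

lemma gen_pd (hg : g ∈ R.Sm) (j : ι) (w x : X) : Dom (R.E j) (pd g w x) ∧
    gen (R.E j) (pd g w x) = pd (fun y => gen (R.E j) (g y)) w x := by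
  refine Rep.weak fun ψ hψ => ?_
  have h1 := pd_inner (differentiableAt_const ψ) (sm_d (sm_gen hg j) x) w
  have h2 := pd_inner (differentiableAt_const (gen (R.E j) ψ)) (sm_d hg x) w
  simp only [pd_const, inner_zero_left, zero_add] at h1 h2
  rw [← h1, ← h2, ← pd_neg]
  congr 1
  funext y
  rw [(R.oneP j).skew (Rep.dom_of_mem hψ j) (sm_dom hg j y), neg_neg]

lemma sm_pd (hg : g ∈ R.Sm) (w : X) : pd g w ∈ R.Sm := by
  refine ⟨{f | ∃ a ∈ R.Sm, f = pd a w}, ⟨g, hg, rfl⟩, ?_⟩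
  rintro _ ⟨a, ha, rfl⟩
  exact ⟨cd_pd (sm_cd ha) w, fun j => ⟨fun x => (gen_pd ha j w x).1, _, sm_gen ha j,
    funext fun x => (gen_pd ha j w x).2⟩⟩

lemma sm_dU (hg : g ∈ R.Sm) {a : X → ι → ℂ} (ha : ContDiff ℝ ∞ a) :
    (fun x => R.dU (a x) (g x)) ∈ R.Sm :=
  sm_sum _ fun i => sm_smul (c := fun x => a x i) (sm_gen hg i) fun _ _ =>
    (contDiff_pi.1 ha i).contDiffAt

lemma pd_dU (hg : g ∈ R.Sm) {a : X → ι → ℂ} {x : X} (ha : DifferentiableAt ℝ a x) (w : X) :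
    pd (fun y => R.dU (a y) (g y)) w x = R.dU (pd a w x) (g x) + R.dU (a x) (pd g w x) := by
  have h1 : ∀ i, DifferentiableAt ℝ (fun y => a y i) x := differentiableAt_pi.1 ha
  simp only [Rep.dU]
  rw [pd_sum _ fun i => (h1 i).fun_smul (sm_d (sm_gen hg i) x), ← Finset.sum_add_distrib]
  refine Finset.sum_congr rfl fun i _ => ?_
  rw [pd_smul (h1 i) (sm_d (sm_gen hg i) x), pd_apply ha, (gen_pd hg i w x).2]

end sm

variable (R) in
/-- first order operator with a real potential -/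
def Dop (w : X) (a : X → ι → ℂ) (c : X → ℝ) (g : X → H) (x : X) : H :=
  pd g w x - R.dU (a x) (g x) + (c x : ℂ) • g x

lemma pd_inner_Dop {g h : X → H} (hg : g ∈ R.Sm) (hh : h ∈ R.Sm) (w : X) (a : X → ι → ℂ)
    (c : X → ℝ) (x : X) : pd (fun y => ⟪g y, h y⟫_ℂ) w x =
      ⟪Dop R w a c g x, h x⟫_ℂ + ⟪g x, Dop R w (fun y => star (a y)) (fun y => -c y) h x⟫_ℂ := by
  have h1 := Rep.inner_dU' (sm_mem hg x) (sm_mem hh x) (star (a x))
  rw [star_star] at h1
  rw [pd_inner (sm_d hg x) (sm_d hh x)]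
  simp only [Dop, inner_add_left, inner_sub_left, inner_add_right, inner_sub_right,
    inner_smul_left, inner_smul_right, h1, conj_ofReal, ofReal_neg]
  ring

lemma Dop_smul {g : X → H} (hg : g ∈ R.Sm) {σ : X → ℂ} {x : X} (hσ : DifferentiableAt ℝ σ x)
    (w : X) (a : X → ι → ℂ) (c : X → ℝ) :
    Dop R w a c (fun y => σ y • g y) x = pd σ w x • g x + σ x • Dop R w a c g x := by
  simp only [Dop, pd_smul hσ (sm_d hg x), Rep.dU_smul (sm_mem hg x), smul_add, smul_sub,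
    smul_comm (c x : ℂ) (σ x)]
  abel

lemma Dop_comm {g : X → H} (hg : g ∈ R.Sm) {a a' : X → ι → ℂ} (ha : ContDiff ℝ ∞ a)
    (ha' : ContDiff ℝ ∞ a') {c c' : X → ℝ} {x : X} (hc : DifferentiableAt ℝ c x)
    (hc' : DifferentiableAt ℝ c' x) (w w' : X) :
    Dop R w a c (Dop R w' a' c' g) x - Dop R w' a' c' (Dop R w a c g) x =
      R.dU (pd a w' x - pd a' w x + L.br (a x) (a' x)) (g x) +
        ((pd c' w x - pd c w' x : ℝ) : ℂ) • g x := by
  have key : ∀ {b b' : X → ι → ℂ} {d d' : X → ℝ} (u u' : X), ContDiff ℝ ∞ b' →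
      DifferentiableAt ℝ d' x → Dop R u b d (Dop R u' b' d' g) x =
      pd (pd g u') u x - (R.dU (pd b' u x) (g x) + R.dU (b' x) (pd g u x)) +
        (((pd d' u x : ℝ) : ℂ) • g x + (d' x : ℂ) • pd g u x) -
        (R.dU (b x) (pd g u' x) - R.dU (b x) (R.dU (b' x) (g x)) +
          (d' x : ℂ) • R.dU (b x) (g x)) +
        (d x : ℂ) • (pd g u' x - R.dU (b' x) (g x) + (d' x : ℂ) • g x) := by
    intro b b' d d' u u' hb' hd'
    have e1 : DifferentiableAt ℝ (fun y => (d' y : ℂ)) x := ofRealCLM.differentiableAt.comp x hd'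
    have e2 := sm_d (sm_pd hg u') x
    have e3 := sm_d (sm_dU hg hb') x
    have m1 := sm_mem (sm_pd hg u') x
    have m2 := Rep.dU_mem (sm_mem hg x) (b' x)
    rw [Dop, show Dop R u' b' d' g = fun y => pd g u' y - R.dU (b' y) (g y) + (d' y : ℂ) • g y
      from rfl, pd_add (e2.fun_sub e3) (e1.fun_smul (sm_d hg x)), pd_sub e2 e3,
      pd_dU hg (dAt hb'.contDiffAt), pd_smul e1 (sm_d hg x), pd_ofReal hd',
      Rep.dU_add (R.Dinf.sub_mem m1 m2) (R.Dinf.smul_mem _ (sm_mem hg x)), Rep.dU_sub m1 m2,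
      Rep.dU_smul (sm_mem hg x)]
  rw [key w w' ha' hc', key w' w ha hc, pd_pd (sm_cd hg).contDiffAt w' w, Rep.dU_add_left,
    Rep.dU_sub_left, ← Rep.dU_dU (sm_mem hg x), ofReal_sub]
  module

variable (R) in
/-- test functions -/
structure SB (B : Set X) (g : X → H) : Prop where
  sm : g ∈ R.Sm
  cs : HasCompactSupport g
  sub : tsupport g ⊆ B

section sb

variable {B : Set X} {g h : X → H}

lemma SB.of_supp (hg : SB R B g) (hh : h ∈ R.Sm) (hs : ∀ x, x ∉ tsupport g → h x = 0) :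
    SB R B h := by
  have h1 : tsupport h ⊆ tsupport g :=
    closure_minimal (fun x hx => by_contra fun h' => hx (hs x h')) (isClosed_tsupport g)
  exact ⟨hh, hg.cs.of_isClosed_subset (isClosed_tsupport h) h1, h1.trans hg.sub⟩

lemma SB.zero_of (hg : SB R B g) {x : X} (hx : x ∉ B) : g x = 0 :=
  image_eq_zero_of_notMem_tsupport fun h => hx (hg.sub h)

lemma SB.add (hg : SB R B g) (hh : SB R B h) : SB R B fun x => g x + h x :=
  ⟨sm_add hg.sm hh.sm, hg.cs.add hh.cs,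
    (tsupport_add g h).trans (union_subset hg.sub hh.sub)⟩

lemma SB.smul (hB : IsOpen B) (hg : SB R B g) {c : X → ℂ} (hc : ContDiffOn ℝ ∞ c B) :
    SB R B fun x => c x • g x :=
  hg.of_supp (sm_smul hg.sm fun _ hx => hc.contDiffAt (hB.mem_nhds (hg.sub hx))) fun x hx => by
    rw [image_eq_zero_of_notMem_tsupport hx, smul_zero]

lemma cdOn_ofReal {c : X → ℝ} (hc : ContDiffOn ℝ ∞ c B) :
    ContDiffOn ℝ ∞ (fun x => (c x : ℂ)) B := ofRealCLM.contDiff.comp_contDiffOn hc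

lemma SB.rsmul (hB : IsOpen B) (hg : SB R B g) {c : X → ℝ} (hc : ContDiffOn ℝ ∞ c B) :
    SB R B fun x => (c x : ℂ) • g x := hg.smul hB (cdOn_ofReal hc)

lemma SB.neg (hg : SB R B g) : SB R B fun x => -g x :=
  hg.of_supp (sm_neg hg.sm) fun x hx => by rw [image_eq_zero_of_notMem_tsupport hx, neg_zero]

lemma SB.sub' (hg : SB R B g) (hh : SB R B h) : SB R B fun x => g x - h x := by
  simpa only [sub_eq_add_neg] using hg.add hh.neg

lemma SB.zero : SB R B fun _ => (0 : H) :=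
  ⟨sm_const R.Dinf.zero_mem, HasCompactSupport.zero, by
    rw [show (fun _ : X => (0 : H)) = 0 from rfl, tsupport_zero]; exact empty_subset _⟩

lemma SB.sum {α : Type} (s : Finset α) {f : α → X → H} (hf : ∀ i, SB R B (f i)) :
    SB R B fun x => ∑ i ∈ s, f i x := by
  classical
  induction s using Finset.induction_on with
  | empty => simpa using SB.zero
  | insert i s hi ih => simpa only [Finset.sum_insert hi] using (hf i).add ih

lemma SB.Dop (hB : IsOpen B) (hg : SB R B g) (w : X) {a : X → ι → ℂ} (ha : ContDiff ℝ ∞ a)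
    {c : X → ℝ} (hc : ContDiffOn ℝ ∞ c B) : SB R B (Dop R w a c g) := by
  refine hg.of_supp (sm_add (sm_sub (sm_pd hg.sm w) (sm_dU hg.sm ha)) (hg.rsmul hB hc).sm)
    fun x hx => ?_
  simp [Hor.Dop, pd_zero_of hx, image_eq_zero_of_notMem_tsupport hx, Rep.dU_zero]

lemma sm_Dop0 (hg : g ∈ R.Sm) (w : X) {a : X → ι → ℂ} (ha : ContDiff ℝ ∞ a) :
    Dop R w a (fun _ => 0) g ∈ R.Sm := by
  have := sm_sub (sm_pd hg w) (sm_dU hg ha)
  convert this using 2
  simp [Dop]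

lemma SB.of_smul {σ : X → ℂ} (hσ : ContDiff ℝ ∞ σ) (hc : HasCompactSupport σ)
    (hs : tsupport σ ⊆ B) (hg : g ∈ R.Sm) : SB R B fun x => σ x • g x :=
  ⟨sm_smul hg fun _ _ => hσ.contDiffAt, hc.smul_right,
    (tsupport_smul_subset_left σ g).trans hs⟩

end sb

end Pool.Agent.Lib.MP_e2ef7e_al.Gen.Hor
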