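import Pool.Agent.Lib.MP_e2ef7e_al.H35Boch
import Pool.Agent.Lib.MP_e2ef7e_al.H35Cv

/-!
The Bochner inequality for weak solutions with compact support.
-/

open MeasureTheory Complex Set Filter Topology
open scoped ComplexConjugate InnerProductSpace ContDiff ENNReal

noncomputable section

namespace Pool.Agent.Lib.MP_e2ef7e_al.Gen.Hor

variable {ι : Type} [Fintype ι] [DecidableEq ι] {L : LieD ι}
  {H : Type} [NormedAddCommGroup H] [InnerProductSpace ℂ H] [CompleteSpace H]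
  {X : Type} [NormedAddCommGroup X] [NormedSpace ℝ X] [FiniteDimensional ℝ X]
  [MeasurableSpace X] [BorelSpace X] {R : Rep L H} {μ : Measure X} [μ.IsAddHaarMeasure]

variable (R μ) in
/-- the approximation property which is used -/
def Approx : Prop := ∀ {K U : Set X} (_ : IsCompact K) (_ : IsOpen U) (_ : K ⊆ U)
    (G : ι → X → H) (_ : ∀ j, MemLp (G j) 2 μ) (_ : ∀ j x, x ∉ K → G j x = 0)
    (v : Option (ι × ι) → ι → X) (a : Option (ι × ι) → ι → X → ι → ℂ)
    (_ : ∀ q j, Continuous (a q j)) (h : Option (ι × ι) → X → H) (_ : ∀ q, MemLp (h q) 2 μ)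
    (_ : ∀ q (θ : X → ℂ), ContDiff ℝ ∞ θ → HasCompactSupport θ → ∀ ψ ∈ R.Dinf,
      ∑ j, ∫ x, (pd θ (v q j) x * ⟪ψ, G j x⟫_ℂ - θ x * ⟪R.dU (star (a q j x)) ψ, G j x⟫_ℂ) ∂μ =
        -∫ x, θ x * ⟪ψ, h q x⟫_ℂ ∂μ) {δ : ℝ≥0∞} (_ : 0 < δ),
    ∃ G' : ι → X → H, (∀ j, G' j ∈ R.Sm ∧ HasCompactSupport (G' j) ∧ tsupport (G' j) ⊆ U) ∧
      (∀ j, eLpNorm (fun x => G' j x - G j x) 2 μ ≤ δ) ∧
      ∀ q, eLpNorm (fun x => ∑ j, (pd (G' j) (v q j) x - R.dU (a q j x) (G' j x)) - h q x) 2 μ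
        ≤ δ

/-- directions of the divergence and curl system -/
def fv (e : ι → X) : Option (ι × ι) → ι → X
  | none, i => e i
  | some q, i => (if i = q.2 then e q.1 else 0) - if i = q.1 then e q.2 else 0

variable {e : ι → X} (hd : HData L e)

/-- coefficients of the divergence and curl system -/
def fa : Option (ι × ι) → ι → X → ι → ℂ
  | none, i => fun x => star (hd.om i x)
  | some q, i => fun x => (if i = q.2 then hd.om q.1 x else 0) - if i = q.1 then hd.om q.2 x else 0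

lemma cd_fa (q : Option (ι × ι)) (i : ι) : ContDiff ℝ ∞ (fa hd q i) := by
  rcases q with _ | q
  · exact cd_star (hd.om_smooth i)
  · refine ContDiff.sub ?_ ?_ <;> split_ifs
    exacts [hd.om_smooth _, contDiff_const, hd.om_smooth _, contDiff_const]

variable (R) in
/-- the operators of the system -/
def Op (q : Option (ι × ι)) (i : ι) : (X → H) → X → H := Dop R (fv e q i) (fa hd q i) fun _ => 0

variable (R) in
/-- the formal adjoints, up to sign -/
def Ad (q : Option (ι × ι)) (i : ι) : (X → H) → X → H :=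
  Dop R (fv e q i) (fun y => star (fa hd q i y)) fun _ => 0

variable (R) in
/-- the unweighted operator -/
def L0 (j : ι) : (X → H) → X → H := Dop R (e j) (hd.om j) fun _ => 0

lemma sum_Op (Y : ι → X → H) (j k : ι) (x : X) :
    ∑ i, Op R hd (some (j, k)) i (Y i) x = L0 R hd j (Y k) x - L0 R hd k (Y j) x := by
  have : ∀ i, Op R hd (some (j, k)) i (Y i) x = (if i = k then L0 R hd j (Y i) x else 0) -
      if i = j then L0 R hd k (Y i) x else 0 := fun i => by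
    simp only [Op, L0, Dop, fv, fa, pd_dir_sub, Rep.dU_sub_left]
    split_ifs <;> simp only [pd_dir_zero, Rep.dU_zero_left, ofReal_zero, zero_smul] <;> abel
  simp only [this, Finset.sum_sub_distrib, Finset.sum_ite_eq', Finset.mem_univ, if_true]

lemma sum_fv (c : ℝ) (y : ι → H) (j k : ι) (x : X) :
    ∑ i, ((c * pd hd.φ (fv e (some (j, k)) i) x : ℝ) : ℂ) • y i =
      (c : ℂ) • ((dφ hd j x : ℂ) • y k - (dφ hd k x : ℂ) • y j) := by
  have : ∀ i, ((c * pd hd.φ (fv e (some (j, k)) i) x : ℝ) : ℂ) • y i =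
      (c : ℂ) • ((if i = k then (dφ hd j x : ℂ) • y i else 0) -
        if i = j then (dφ hd k x : ℂ) • y i else 0) := fun i => by
    simp only [fv, pd_dir_sub, dφ]
    split_ifs <;> simp only [pd_dir_zero, ofReal_mul, ofReal_sub, ofReal_zero] <;> module
  simp only [this, ← Finset.smul_sum, Finset.sum_sub_distrib, Finset.sum_ite_eq', Finset.mem_univ,
    if_true]

lemma Ad_none (j : ι) : Ad R hd none j = L0 R hd j := by
  simp only [Ad, L0, fv, fa, star_star]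

lemma meas_dφ (j : ι) : AEStronglyMeasurable (dφ hd j) (μ.restrict hd.B) :=
  (cd_dφ hd j).continuousOn.aestronglyMeasurable hd.opn.measurableSet

lemma ae_B {p : X → Prop} (h : ∀ x ∈ hd.B, p x) : ∀ᵐ x ∂μ.restrict hd.B, p x :=
  ae_restrict_of_forall_mem hd.opn.measurableSet h

lemma inner_test {θ : X → ℂ} (hθ : ContDiff ℝ ∞ θ) {ψ : H} (hψ : ψ ∈ R.Dinf) (w : X)
    (a : X → ι → ℂ) (x : X) (y : H) :
    ⟪Dop R w a (fun _ => 0) (fun x => conj (θ x) • ψ) x, y⟫_ℂ =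
      pd θ w x * ⟪ψ, y⟫_ℂ - θ x * ⟪R.dU (a x) ψ, y⟫_ℂ := by
  have h1 : DifferentiableAt ℝ θ x := dAt hθ.contDiffAt
  rw [Dop_smul (sm_const hψ) (σ := fun x => conj (θ x))
    ((conjCLE : ℂ ≃L[ℝ] ℂ).differentiableAt.comp x h1), pd_conj h1]
  simp only [Dop, pd_const, inner_add_left, inner_smul_left, conj_conj, ofReal_zero, zero_smul,
    add_zero, zero_sub, inner_neg_left]
  ring

lemma cd_conj {θ : X → ℂ} (hθ : ContDiff ℝ ∞ θ) : ContDiff ℝ ∞ fun x => conj (θ x) :=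
  (conjCLE : ℂ ≃L[ℝ] ℂ).contDiff.comp hθ

variable {hd}

theorem bochner_weak (hA : Approx R μ) {M κ : ℝ} (hκ : 0 ≤ κ) {G : ι → X → H}
    (hG : ∀ j, MemLp (G j) 2 (μ.restrict hd.B)) (hM : ∀ j, ∀ x ∈ hd.B, M < hd.φ x → G j x = 0)
    {h : Option (ι × ι) → X → H} (hh : ∀ q, MemLp (h q) 2 (μ.restrict hd.B))
    (weak : ∀ q, ∀ s ∈ R.Sm, ∑ i, ∫ x in hd.B, ⟪Ad R hd q i s x, G i x⟫_ℂ ∂μ =
      -∫ x in hd.B, ⟪s x, h q x⟫_ℂ ∂μ) :
    (κ - C1 hd) * ∑ j, ∫ x in hd.B, ‖G j x‖ ^ 2 ∂μ +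
      κ * hd.c0 * ∫ x in hd.B, ‖∑ j, (dφ hd j x : ℂ) • G j x‖ ^ 2 ∂μ ≤
      ∫ x in hd.B, ‖h none x - ((κ / 2 : ℝ) : ℂ) • ∑ j, (dφ hd j x : ℂ) • G j x‖ ^ 2 ∂μ +
        1 / 2 * ∑ j, ∑ k, ∫ x in hd.B, ‖h (some (j, k)) x + ((κ / 2 : ℝ) : ℂ) •
          ((dφ hd j x : ℂ) • G k x - (dφ hd k x : ℂ) • G j x)‖ ^ 2 ∂μ := by
  have hB := hd.opn.measurableSet
  have hU : IsOpen (hd.B ∩ hd.φ ⁻¹' Iio (M + 1)) :=
    hd.φ_smooth.continuousOn.isOpen_inter_preimage hd.opn isOpen_Iio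
  have key := fun m : ℕ => hA (hd.φ_cpt M) hU
    (fun x hx => ⟨hx.1, lt_of_le_of_lt hx.2 (lt_add_one M)⟩) (fun j => hd.B.indicator (G j))
    (fun j => (memLp_indicator_iff_restrict hB).2 (hG j))
    (fun j x hx => by
      by_cases hx' : x ∈ hd.B
      · rw [indicator_of_mem hx']; exact hM j x hx' (not_le.1 fun h => hx ⟨hx', h⟩)
      · exact indicator_of_notMem hx' _)
    (fv e) (fa hd) (fun q j => (cd_fa hd q j).continuous) (fun q => hd.B.indicator (h q))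
    (fun q => (memLp_indicator_iff_restrict hB).2 (hh q))
    (fun q θ hθ _ ψ hψ => by
      have h1 := weak q _ (sm_smul (c := fun x => conj (θ x)) (sm_const hψ) fun _ _ =>
        (cd_conj hθ).contDiffAt)
      simp only [Ad, inner_test hθ hψ, inner_smul_left, conj_conj] at h1
      convert h1 using 2
      · rw [← integral_indicator hB]
        refine integral_congr_ae (Eventually.of_forall fun x => ?_)
        by_cases hx : x ∈ hd.B <;> simp [hx]
      · rw [← integral_indicator hB]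
        refine integral_congr_ae (Eventually.of_forall fun x => ?_)
        by_cases hx : x ∈ hd.B <;> simp [hx])
    (δ := (m : ℝ≥0∞)⁻¹) (ENNReal.inv_pos.2 (ENNReal.natCast_ne_top m))
  choose G' h1 h2 h3 using key
  have sb : ∀ m j, SB R hd.B (G' m j) := fun m j =>
    ⟨(h1 m j).1, (h1 m j).2.1, (h1 m j).2.2.trans inter_subset_left⟩
  have cvG : ∀ j, Cv (μ.restrict hd.B) (fun m => G' m j) (G j) := fun j => by
    refine Cv.of_le (fun m => (sb m j).memLp) (hG j) fun m => le_trans ?_ (h2 m j)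
    refine le_trans (le_of_eq (eLpNorm_congr_ae (ae_B hd fun x hx => ?_)))
      (eLpNorm_mono_measure _ Measure.restrict_le_self)
    simp only [indicator_of_mem hx]
  have cvh : ∀ q, Cv (μ.restrict hd.B) (fun m x => ∑ i, Op R hd q i (G' m i) x) (h q) :=
    fun q => by
      refine Cv.of_le (fun m => (SB.sum Finset.univ fun i => (sb m i).Dop hd.opn _ (cd_fa hd q i)
        contDiffOn_const).memLp) (hh q) fun m => le_trans ?_ (h3 m q)
      refine le_trans (le_of_eq (eLpNorm_congr_ae (ae_B hd fun x hx => ?_)))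
        (eLpNorm_mono_measure _ Measure.restrict_le_self)
      simp only [indicator_of_mem hx, Op, Dop, ofReal_zero, zero_smul, add_zero]
  have cvQ : ∀ j k, Cv (μ.restrict hd.B) (fun m x => (dφ hd j x : ℂ) • G' m k x)
      fun x => (dφ hd j x : ℂ) • G k x := fun j k => by
    refine (cvG k).smul (meas_dφ hd j) (M := |hd.C| * Real.exp (M + 1)) (ae_B hd fun x hx => ?_)
    by_cases hx' : hd.φ x < M + 1
    · refine Or.inl ((hd.grad x hx j).trans ?_)
      exact mul_le_mul (le_abs_self _) (Real.exp_le_exp.2 hx'.le) (Real.exp_pos _).le (abs_nonneg _)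
    · refine Or.inr ⟨hM k x hx (by linarith), fun m => ?_⟩
      exact image_eq_zero_of_notMem_tsupport fun h => hx' ((h1 m k).2.2 h).2
  have cvP := Cv.sum Finset.univ fun j => cvQ j j
  have cvd : Cv (μ.restrict hd.B) (fun m x => ∑ j, dh R hd κ j (G' m j) x)
      fun x => h none x - ((κ / 2 : ℝ) : ℂ) • ∑ j, (dφ hd j x : ℂ) • G j x := by
    refine ((cvh none).sub (cvP.csmul _)).congr (fun m => Eventually.of_forall fun x => ?_)
      EventuallyEq.rfl
    simp only [Finset.smul_sum, ← Finset.sum_sub_distrib]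
    refine Finset.sum_congr rfl fun j _ => ?_
    simp only [Op, dh, Dop, fv, fa]
    push_cast
    module
  have cvc : ∀ j k, Cv (μ.restrict hd.B)
      (fun m x => Lh R hd κ j (G' m k) x - Lh R hd κ k (G' m j) x)
      fun x => h (some (j, k)) x + ((κ / 2 : ℝ) : ℂ) •
        ((dφ hd j x : ℂ) • G k x - (dφ hd k x : ℂ) • G j x) := fun j k => by
    refine ((cvh _).add (((cvQ j k).sub (cvQ k j)).csmul _)).congr
      (fun m => Eventually.of_forall fun x => ?_) EventuallyEq.rfl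
    simp only [sum_Op hd (G' m), L0, Lh, Dop]
    push_cast
    module
  refine le_of_tendsto_of_tendsto'
    (((tendsto_finsetSum _ fun j _ => (cvG j).tendsto).const_mul _).add (cvP.tendsto.const_mul _))
    (cvd.tendsto.add ((tendsto_finsetSum _ fun j _ => tendsto_finsetSum _ fun k _ =>
      (cvc j k).tendsto).const_mul _)) fun m => bochner (sb m) hκ

lemma localize {B : Set X} (v : ι → X) {a : ι → X → ι → ℂ}
    (ha : ∀ i, ContDiff ℝ ∞ (a i)) {y : ι → X → H} {h : X → H}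
    (hy : ∀ r, SB R B r → ∀ i, Integrable (fun x => ⟪r x, y i x⟫_ℂ) (μ.restrict B))
    (hh : ∀ r, SB R B r → Integrable (fun x => ⟪r x, h x⟫_ℂ) (μ.restrict B))
    (weak : ∀ s, SB R B s → ∑ i, ∫ x in B, ⟪Dop R (v i) (a i) (fun _ => 0) s x, y i x⟫_ℂ ∂μ =
      -∫ x in B, ⟪s x, h x⟫_ℂ ∂μ) {σ : X → ℝ} (hσ : Tst B fun x => (σ x : ℂ))
    (hσ' : ContDiff ℝ ∞ σ) {s : X → H} (hs : s ∈ R.Sm) :
    ∑ i, ∫ x in B, ⟪Dop R (v i) (a i) (fun _ => 0) s x, (σ x : ℂ) • y i x⟫_ℂ ∂μ =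
      -∫ x in B, ⟪s x, (σ x : ℂ) • h x + ∑ i, ((pd σ (v i) x : ℝ) : ℂ) • y i x⟫_ℂ ∂μ := by
  have s0 := SB.of_smul hσ.cd hσ.cs hσ.sub hs
  have s1 := fun i => SB.of_smul (hσ.pd (v i)).cd (hσ.pd (v i)).cs (hσ.pd (v i)).sub hs
  have s2 := fun i => SB.of_smul hσ.cd hσ.cs hσ.sub (sm_Dop0 hs (v i) (ha i))
  have h1 := weak _ s0
  simp only [Dop_smul hs (dAt hσ.cd.contDiffAt), inner_add_left] at h1
  simp only [integral_add (hy _ (s1 _) _) (hy _ (s2 _) _), Finset.sum_add_distrib] at h1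
  have h2 : ∫ x in B, ⟪s x, (σ x : ℂ) • h x + ∑ i, ((pd σ (v i) x : ℝ) : ℂ) • y i x⟫_ℂ ∂μ =
      ∫ x in B, ⟪(σ x : ℂ) • s x, h x⟫_ℂ ∂μ +
        ∑ i, ∫ x in B, ⟪pd (fun x => (σ x : ℂ)) (v i) x • s x, y i x⟫_ℂ ∂μ := by
    rw [← integral_finsetSum _ fun i _ => hy _ (s1 i) i, ← integral_add (hh _ s0)
      (integrable_finsetSum _ fun i _ => hy _ (s1 i) i)]
    refine integral_congr_ae (Eventually.of_forall fun x => ?_)
    simp only [inner_add_right, inner_sum, inner_smul_right, inner_smul_left,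
      pd_ofReal (dAt hσ'.contDiffAt), conj_ofReal]
  rw [h2]
  simp only [inner_smul_right, inner_smul_left, conj_ofReal] at h1 ⊢
  linear_combination h1

variable (hd) in
/-- a function of the weight, extended by zero -/
def cut (β : ℝ → ℝ) : X → ℝ := hd.B.indicator fun x => β (hd.φ x)

lemma cut_of_mem (β : ℝ → ℝ) {x : X} (hx : x ∈ hd.B) : cut hd β x = β (hd.φ x) :=
  indicator_of_mem hx _

lemma cut_ev (β : ℝ → ℝ) {x : X} (hx : x ∈ hd.B) : cut hd β =ᶠ[𝓝 x] fun x => β (hd.φ x) :=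
  mem_of_superset (hd.opn.mem_nhds hx) fun _ hy => cut_of_mem β hy

lemma pd_cut {β : ℝ → ℝ} (hβ : ContDiff ℝ ∞ β) {x : X} (hx : x ∈ hd.B) (w : X) :
    pd (cut hd β) w x = deriv β (hd.φ x) * pd hd.φ w x := by
  rw [pd_congr (cut_ev β hx), pd_comp (hβ.differentiable (by simp) _)
    (dAt (hd.φ_smooth.contDiffAt (hd.opn.mem_nhds hx)))]

lemma cut_spec {β : ℝ → ℝ} (hβ : ContDiff ℝ ∞ β) {M : ℝ} (hM : ∀ s, M < s → β s = 0) :
    ContDiff ℝ ∞ (cut hd β) ∧ Tst hd.B fun x => (cut hd β x : ℂ) := by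
  have h1 : tsupport (cut hd β) ⊆ {x | x ∈ hd.B ∧ hd.φ x ≤ M} := by
    refine closure_minimal (fun x hx => ?_) (hd.φ_cpt M).isClosed
    by_cases hx' : x ∈ hd.B
    · exact ⟨hx', not_lt.1 fun h => hx (by rw [cut_of_mem β hx', hM _ h])⟩
    · exact absurd (indicator_of_notMem hx' _) hx
  have h2 : ContDiff ℝ ∞ (cut hd β) := cd_of_tsupport fun x hx =>
    (hβ.contDiffAt.comp x (hd.φ_smooth.contDiffAt
      (hd.opn.mem_nhds (h1 hx).1))).congr_of_eventuallyEq (cut_ev β (h1 hx).1)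
  exact ⟨h2, Tst.of_supp (ofRealCLM.contDiff.comp h2)
    ((hd.φ_cpt M).of_isClosed_subset (isClosed_tsupport _) h1) (fun x hx => (h1 hx).1)
    fun x hx => by rw [hx, ofReal_zero]⟩

end Pool.Agent.Lib.MP_e2ef7e_al.Gen.Hor
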