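import Pool.Agent.Lib.MP_e2ef7e_al.GDefs3
import Pool.Agent.Lib.MP_e2ef7e_al.Bdry

/-!
Operator lemmas for the core theorem: powers of `1 + D`, smoothing, commutation relations.
-/

open MeasureTheory Complex Set Filter Topology
open scoped ComplexConjugate InnerProductSpace ContDiff ENNReal

noncomputable section

namespace Pool.Agent.Lib.MP_e2ef7e_al.Gen

variable {H : Type} [NormedAddCommGroup H] [InnerProductSpace ℂ H]

section one

variable {u : ℝ → H ≃ₗᵢ[ℂ] H}

lemma OneP.Tg_apply (hu : OneP u) {z : H} (hz : Dom u z) (s : ℝ) :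
    Tg u (u s z) = u s (Tg u z) := by
  rw [Tg, Tg, (hu.dom_apply hz s).2, map_add]

lemma OneP.int_smul (hu : OneP u) {φ : ℝ → ℝ} (hφ : Integrable φ) (w : H) :
    Integrable fun τ => φ τ • u τ w :=
  Integrable.mono' (hφ.norm.mul_const ‖w‖) (hφ.1.smul (hu.cont w).aestronglyMeasurable)
    (Eventually.of_forall fun τ => by rw [norm_smul, LinearIsometryEquiv.norm_map])

/-- smoothing along the one-parameter group -/
def Mop (hu : OneP u) {φ : ℝ → ℝ} (hφ : Integrable φ) : H →L[ℂ] H :=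
  LinearMap.mkContinuous
    { toFun := fun w => ∫ τ, φ τ • u τ w
      map_add' := fun v w => by
        simp only [map_add, smul_add]
        exact integral_add (hu.int_smul hφ v) (hu.int_smul hφ w)
      map_smul' := fun c w => by
        simp only [map_smul, RingHom.id_apply]
        rw [← integral_smul]
        simp only [smul_comm c] } (∫ τ, ‖φ τ‖) fun w => by
    refine (norm_integral_le_integral_norm _).trans (le_of_eq ?_)
    simp only [norm_smul, LinearIsometryEquiv.norm_map]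
    rw [integral_mul_const]

variable [CompleteSpace H]

lemma inner_Mop (hu : OneP u) {φ : ℝ → ℝ} (hφ : Integrable φ) (z w : H) :
    ⟪z, Mop hu hφ w⟫_ℂ = ∫ τ, (φ τ : ℂ) * ⟪z, u τ w⟫_ℂ := by
  change ⟪z, ∫ τ, φ τ • u τ w⟫_ℂ = _
  rw [← integral_inner (hu.int_smul hφ w)]
  refine integral_congr_ae (Eventually.of_forall fun τ => ?_)
  simp only [← Complex.coe_smul, inner_smul_right]

omit [CompleteSpace H] in
lemma parts_T (hu : OneP u) {φ : ℝ → ℝ} (hφ : ContDiff ℝ ∞ φ) (hc : HasCompactSupport φ) {z : H}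
    (hz : Dom u z) (w : H) : ∫ τ, ((φ τ + deriv φ τ : ℝ) : ℂ) * ⟪u (-τ) z, w⟫_ℂ =
      ∫ τ, (φ τ : ℂ) * ⟪u (-τ) (Tg u z), w⟫_ℂ := by
  have c1 : ∀ y : H, Continuous fun τ => ⟪u (-τ) y, w⟫_ℂ := fun y =>
    ((hu.cont y).comp continuous_neg).inner continuous_const
  have c2 : Continuous fun τ => (φ τ : ℂ) := continuous_ofReal.comp hφ.continuous
  have c3 : Continuous fun τ => ((deriv φ τ : ℝ) : ℂ) :=
    continuous_ofReal.comp (hφ.continuous_deriv (by simp))
  have s2 : HasCompactSupport fun τ => (φ τ : ℂ) := hc.comp_left (g := ofReal) ofReal_zero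
  have s3 : HasCompactSupport fun τ => ((deriv φ τ : ℝ) : ℂ) :=
    hc.deriv.comp_left (g := ofReal) ofReal_zero
  have i2 : ∀ y : H, Integrable fun τ => (φ τ : ℂ) * ⟪u (-τ) y, w⟫_ℂ := fun y =>
    (c2.mul (c1 y)).integrable_of_hasCompactSupport s2.mul_right
  have i3 : Integrable fun τ => ((deriv φ τ : ℝ) : ℂ) * ⟪u (-τ) z, w⟫_ℂ :=
    (c3.mul (c1 z)).integrable_of_hasCompactSupport s3.mul_right
  have hd : ∀ τ, HasDerivAt (fun τ => ⟪u (-τ) z, w⟫_ℂ) (-⟪u (-τ) (gen u z), w⟫_ℂ) τ := fun τ => by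
    have h1 := ((hu.hasDerivAt hz (-τ)).scomp τ (hasDerivAt_neg τ)).inner ℂ (hasDerivAt_const τ w)
    simpa [Function.comp_def] using h1
  have hp := integral_mul_deriv_eq_deriv_mul_of_integrable (u := fun τ => (φ τ : ℂ))
    (u' := fun τ => ((deriv φ τ : ℝ) : ℂ)) (fun τ _ =>
      ((hφ.differentiable (by simp)) τ).hasDerivAt.ofReal_comp) (fun τ _ => hd τ)
    ((i2 (gen u z)).neg.congr (Eventually.of_forall fun τ => by simp)) i3 (i2 z)
  simp only [mul_neg, integral_neg, neg_inj] at hp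
  simp only [Tg, map_add, inner_add_left, mul_add, ofReal_add, add_mul]
  rw [integral_add (i2 z) i3, integral_add (i2 z) (i2 _), hp]

lemma exists_M (hu : OneP u) {S : Set H} (hS : ∀ z ∈ S, Dom u z ∧ Tg u z ∈ S) (n : ℕ) {φ : ℝ → ℝ}
    (hφ : ContDiff ℝ ∞ φ) (hc : HasCompactSupport φ) : ∃ Q : H →L[ℂ] H, ∀ z ∈ S, ∀ w,
      ⟪z, Q w⟫_ℂ = ∫ τ, (φ τ : ℂ) * ⟪u (-τ) ((Tg u)^[n] z), w⟫_ℂ := by
  induction n generalizing φ with
  | zero =>
    exact ⟨Mop hu (hφ.continuous.integrable_of_hasCompactSupport hc), fun z _ w => by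
      simp only [inner_Mop, hu.inner_right, Function.iterate_zero, id]⟩
  | succ n ih =>
    obtain ⟨Q, hQ⟩ := ih (φ := fun τ => φ τ + deriv φ τ)
      (hφ.add (contDiff_infty_iff_deriv.1 hφ).2) (hc.add hc.deriv)
    refine ⟨Q, fun z hz w => ?_⟩
    have h1 : ∀ k, (Tg u)^[k] z ∈ S := fun k => by
      induction k with
      | zero => exact hz
      | succ k ik => rw [Function.iterate_succ_apply']; exact (hS _ ik).2
    rw [hQ z hz, parts_T hu hφ hc (hS _ (h1 n)).1, Function.iterate_succ_apply']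

omit [CompleteSpace H] in
/-- product rule against a weakly differentiable bounded family -/
lemma hasDerivAt_pair {ψ Y : ℝ → H} {ψ' : H} {t C : ℝ} {D : ℂ} (h1 : HasDerivAt ψ ψ' t)
    (h2 : ∀ᶠ s in 𝓝 t, ‖Y s‖ ≤ C) (h3 : HasDerivAt (fun s => ⟪ψ t, Y s⟫_ℂ) D t)
    (h4 : ContinuousAt (fun s => ⟪ψ', Y s⟫_ℂ) t) :
    HasDerivAt (fun s => ⟪ψ s, Y s⟫_ℂ) (⟪ψ', Y t⟫_ℂ + D) t := by
  have a1 : HasDerivAt (fun s => ⟪ψ s - ψ t - (s - t) • ψ', Y s⟫_ℂ) 0 t := by
    rw [hasDerivAt_iff_isLittleO] at h1 ⊢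
    refine Asymptotics.IsBigO.trans_isLittleO (Asymptotics.IsBigO.of_bound C ?_) h1
    filter_upwards [h2] with s hs
    simp only [sub_self, zero_smul, inner_zero_left, smul_zero, sub_zero]
    rw [mul_comm]
    exact (norm_inner_le_norm _ _).trans (mul_le_mul_of_nonneg_left hs (norm_nonneg _))
  have a2 : HasDerivAt (fun s => (s - t) • ⟪ψ', Y s⟫_ℂ) ⟪ψ', Y t⟫_ℂ t := by
    rw [hasDerivAt_iff_tendsto_slope]
    refine (h4.tendsto.mono_left nhdsWithin_le_nhds).congr' ?_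
    filter_upwards [self_mem_nhdsWithin] with s hs
    rw [slope, vsub_eq_sub, sub_self, zero_smul, sub_zero, smul_smul,
      inv_mul_cancel₀ (sub_ne_zero.2 hs), one_smul]
  have a3 := (a1.add a2).add h3
  rw [zero_add] at a3
  refine a3.congr_of_eventuallyEq (Eventually.of_forall fun s => ?_)
  simp only [Pi.add_apply, inner_sub_left, ← Complex.coe_smul, inner_smul_left, conj_ofReal,
    smul_eq_mul]
  ring

end one

variable {ι : Type} [Fintype ι] [DecidableEq ι] {L : LieD ι} {R : Rep L H}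

lemma inner_dU_bv (c : ℂ) (i : ι) (ψ w : H) :
    ⟪R.dU (star (c • bv i)) ψ, w⟫_ℂ = c * ⟪gen (R.E i) ψ, w⟫_ℂ := by
  rw [star_smul, star_bv, Rep.dU_smul_left, Rep.dU_bv, inner_smul_left]
  simp

lemma Tg_mem {z : H} (hz : z ∈ R.Dinf) (d : ι) : Tg (R.E d) z ∈ R.Dinf :=
  R.Dinf.add_mem hz (Rep.gen_mem_Dinf hz d)

lemma Tgn_mem {z : H} (hz : z ∈ R.Dinf) (d : ι) (n : ℕ) : (Tg (R.E d))^[n] z ∈ R.Dinf := by
  induction n with
  | zero => exact hz
  | succ k ik => rw [Function.iterate_succ_apply']; exact Tg_mem ik d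

lemma Tgn_apply {z : H} (hz : z ∈ R.Dinf) (d : ι) (n : ℕ) (s : ℝ) :
    (Tg (R.E d))^[n] (R.E d s z) = R.E d s ((Tg (R.E d))^[n] z) := by
  induction n with
  | zero => rfl
  | succ k ik =>
    rw [Function.iterate_succ_apply', Function.iterate_succ_apply', ik,
      (R.oneP d).Tg_apply (Rep.dom_of_mem (Tgn_mem hz d k) d)]

lemma inner_Tgn {z : H} [CompleteSpace H] (hz : z ∈ R.Dinf) (d : ι) (n : ℕ) (w : H) :
    ⟪(Tg (R.E d))^[n] z, (Res (R.E d))^[n] w⟫_ℂ = ⟪z, w⟫_ℂ :=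
  inner_Tg_iterate (R.oneP d) (S := R.Dinf) (fun _ h => ⟨Rep.dom_of_mem h d, Tg_mem h d⟩) n hz w

variable (R) in
/-- `1 + D` as an endomorphism of the smooth vectors -/
def TgL (d : ι) : R.Dinf →ₗ[ℂ] R.Dinf where
  toFun v := ⟨Tg (R.E d) v, Tg_mem v.2 d⟩
  map_add' v w := Subtype.ext (by
    simp only [Tg, Submodule.coe_add, gen_add (Rep.dom_of_mem v.2 _) (Rep.dom_of_mem w.2 _)]
    abel)
  map_smul' c v := Subtype.ext (by
    simp only [Tg, Submodule.coe_smul, gen_smul (Rep.dom_of_mem v.2 _), RingHom.id_apply, smul_add])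

lemma TgL_pow (d : ι) (n : ℕ) (v : R.Dinf) : ((TgL R d ^ n) v : H) = (Tg (R.E d))^[n] v := by
  induction n with
  | zero => rfl
  | succ k ik => rw [pow_succ', Function.iterate_succ_apply', ← ik]; rfl

variable [CompleteSpace H]

lemma continuous_Tgn (d i : ι) (n : ℕ) {z : H} (hz : z ∈ R.Dinf) :
    Continuous fun s => (Tg (R.E d))^[n] (R.E i s z) := by
  induction n generalizing z with
  | zero => exact R.cont i z
  | succ k ik =>
    have h1 : ∀ s, (Tg (R.E d))^[k + 1] (R.E i s z) = (Tg (R.E d))^[k] (R.E i s z) +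
        ∑ l, L.ex (((-s : ℝ) : ℂ) • bv i) (bv d) l •
          (Tg (R.E d))^[k] (R.E i s (gen (R.E l) z)) := fun s => by
      have h2 : TgL R d ⟨_, Rep.E_mem_Dinf hz i s⟩ = ⟨_, Rep.E_mem_Dinf hz i s⟩ +
          ∑ l, L.ex (((-s : ℝ) : ℂ) • bv i) (bv d) l •
            (⟨_, Rep.E_mem_Dinf (Rep.gen_mem_Dinf hz l) i s⟩ : R.Dinf) := Subtype.ext (by
        simp only [TgL, Tg, LinearMap.coe_mk, AddHom.coe_mk, Submodule.coe_add,
          (Rep.gen_E (Rep.dom_of_mem hz) i d s).2, Rep.dU, map_sum, map_smul, Submodule.coe_sum,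
          Submodule.coe_smul])
      have h3 := congrArg (fun x => ((TgL R d ^ k) x : H)) h2
      simp only [map_add, map_sum, map_smul, Submodule.coe_add, Submodule.coe_sum,
        Submodule.coe_smul, TgL_pow] at h3
      exact h3
    simp only [h1]
    refine (ik hz).add (continuous_finsetSum _ fun l _ => Continuous.smul ?_
      (ik (Rep.gen_mem_Dinf hz l)))
    have h4 : Continuous fun s : ℝ => L.ex (((-s : ℝ) : ℂ) • bv i) :=
      (L.contDiff_ex (bv i) (n := 0)).continuous.comp (continuous_ofReal.comp continuous_neg)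
    exact (continuous_apply l).comp (h4.clm_apply continuous_const)

omit [DecidableEq ι] in
lemma ex_eigen {x y : ι → ℂ} {w : ℂ} (h : L.br x y = w • y) (z : ℂ) :
    L.ex (z • x) y = exp (z * w) • y := by
  have hd : ∀ s : ℂ, HasDerivAt (fun s : ℂ => exp (-(s * w)) • L.ex (s • x) y) 0 s := fun s => by
    have h1 := (L.hasDerivAt_ex' x s).clm_apply (hasDerivAt_const s y)
    have h2 := (((hasDerivAt_id s).mul_const w).neg.cexp).smul h1
    refine h2.congr_deriv ?_
    simp [h, smul_smul, mul_comm]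
  have hc := is_const_of_deriv_eq_zero (fun s => (hd s).differentiableAt)
    (fun s => (hd s).deriv) z 0
  simp only [zero_mul, neg_zero, exp_zero, zero_smul, L.ex_zero, one_smul,
    one_apply_eq_self] at hc
  conv_rhs => rw [← hc, smul_smul, ← exp_add]
  simp

lemma E_comm {d i : ι} {w : ℝ} (h : L.br (bv d) (bv i) = (w : ℂ) • bv i) (τ t : ℝ) (v : H) :
    R.E d τ (R.E i t v) = R.E i (Real.exp (τ * w) * t) (R.E d τ v) := by
  refine Dense.induction (P := fun v => R.E d τ (R.E i t v) =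
    R.E i (Real.exp (τ * w) * t) (R.E d τ v)) R.dense_Dinf (fun ψ hψ => ?_)
    (isClosed_eq (by fun_prop) (by fun_prop)) v
  refine eq_of_dense_inner R.dense_Dinf fun ζ hζ => ?_
  have hi := R.oneP i
  set a := Real.exp (τ * w) with ha
  have hd : ∀ s : ℝ, HasDerivAt (fun s => ⟪R.E i (a * (s - t)) ζ, R.E d τ (R.E i s ψ)⟫_ℂ) 0 s :=
    fun s => by
    have h1 := (hi.hasDerivAt (Rep.dom_of_mem hζ i) (a * (s - t))).scomp s
      (((hasDerivAt_id s).sub_const t).const_mul a)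
    have h2 := ((R.E d τ).toContinuousLinearEquiv.toContinuousLinearMap.restrictScalars
      ℝ).hasFDerivAt.comp_hasDerivAt s (hi.hasDerivAt (Rep.dom_of_mem hψ i) s)
    refine (h1.inner ℂ h2).congr_deriv ?_
    have h3 := Rep.E_dU (Rep.dom_of_mem (Rep.E_mem_Dinf hψ i s)) d τ (bv i)
    rw [ex_eigen h, Rep.dU_smul_left, Rep.dU_bv, Rep.dU_bv,
      (hi.dom_apply (Rep.dom_of_mem hψ i) s).2] at h3
    have h4 := hi.skew (Rep.dom_of_mem (Rep.E_mem_Dinf hζ i (a * (s - t))) i)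
      (Rep.dom_of_mem (Rep.E_mem_Dinf (Rep.E_mem_Dinf hψ i s) d τ) i)
    rw [(hi.dom_apply (Rep.dom_of_mem hζ i) _).2] at h4
    simp only [Function.comp_apply, ContinuousLinearMap.coe_restrictScalars',
      ContinuousLinearEquiv.coe_coe, LinearIsometryEquiv.coe_toContinuousLinearEquiv, h3, id,
      mul_one, ← Complex.coe_smul, inner_smul_left, inner_smul_right, conj_ofReal, h4]
    rw [ha]
    push_cast
    ring
  have hc := is_const_of_deriv_eq_zero (fun s => (hd s).differentiableAt)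
    (fun s => (hd s).deriv) t 0
  simp only [sub_self, mul_zero, hi.zero, zero_sub, mul_neg] at hc
  rw [hc, hi.inner_right]

omit [CompleteSpace H] in
lemma symm_mul (f g : H ≃ₗᵢ[ℂ] H) (v : H) : (f * g).symm v = g.symm (f.symm v) := rfl

lemma list_comm {κ : Type} {d : ι} {idx : κ → ι} {w : ℝ}
    (h : ∀ k, L.br (bv d) (bv (idx k)) = (w : ℂ) • bv (idx k)) (τ : ℝ) (y : κ → ℝ) (l : List κ)
    (v : H) : R.E d τ ((l.map fun k => R.E (idx k) (y k)).prod.symm v) =
      (l.map fun k => R.E (idx k) (Real.exp (τ * w) * y k)).prod.symm (R.E d τ v) := by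
  induction l generalizing v with
  | nil => rfl
  | cons k l ih =>
    simp only [List.map_cons, List.prod_cons, symm_mul]
    rw [ih, (R.oneP _).symm, (R.oneP _).symm, E_comm (h k), mul_neg]

lemma Pl_comm {q : ℕ} {d : ι} {idx : Fin q → ι} {w : ℝ}
    (h : ∀ k, L.br (bv d) (bv (idx k)) = (w : ℂ) • bv (idx k)) (τ : ℝ) (y : Fin q → ℝ) (v : H) :
    R.E d τ ((R.Pl idx y).symm v) = (R.Pl idx (Real.exp (τ * w) • y)).symm (R.E d τ v) := by
  simp only [Rep.Pl, List.ofFn_eq_map]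
  exact list_comm h τ y _ v

lemma list_mem {κ : Type} (idx : κ → ι) (y : κ → ℝ) (l : List κ) {v : H} (hv : v ∈ R.Dinf) :
    (l.map fun k => R.E (idx k) (y k)).prod.symm v ∈ R.Dinf := by
  induction l generalizing v with
  | nil => exact hv
  | cons k l ih =>
    simp only [List.map_cons, List.prod_cons, symm_mul]
    rw [(R.oneP _).symm]
    exact ih (Rep.E_mem_Dinf hv _ _)

lemma Pl_mem {q : ℕ} (idx : Fin q → ι) (y : Fin q → ℝ) {v : H} (hv : v ∈ R.Dinf) :
    (R.Pl idx y).symm v ∈ R.Dinf := by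
  simp only [Rep.Pl, List.ofFn_eq_map]
  exact list_mem idx y _ hv

/-- removing the coordinates one after the other -/
lemma remove_all {q : ℕ} (idx : Fin q → ι) (β : (Fin q → ℝ) → H → ℂ) (ε l : ℝ)
    (h : ∀ c, ‖c‖ < ε → ∀ i, ∀ ψ ∈ R.Dinf,
      β c ψ = β (Function.update c i 0) (R.E (idx i) (-(l * c i)) ψ))
    {c : Fin q → ℝ} (hc : ‖c‖ < ε) {ψ : H} (hψ : ψ ∈ R.Dinf) :
    β c ψ = β 0 ((R.Pl idx (l • c)).symm ψ) := by
  have key : ∀ (s : List (Fin q)), s.Nodup → ∀ c, ‖c‖ < ε → ∀ ψ ∈ R.Dinf,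
      β c ψ = β (fun j => if j ∈ s then 0 else c j)
        ((s.map fun k => R.E (idx k) (l * c k)).prod.symm ψ) := by
    intro s
    induction s with
    | nil => intro _ c _ ψ _; simp only [List.not_mem_nil, if_false]; rfl
    | cons k s ih =>
      intro hs c hc ψ hψ
      rw [List.nodup_cons] at hs
      have h1 : ‖Function.update c k 0‖ < ε := by
        refine lt_of_le_of_lt ((pi_norm_le_iff_of_nonneg (norm_nonneg c)).2 fun j => ?_) hc
        by_cases hj : j = k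
        · simp [hj]
        · rw [Function.update_of_ne hj]; exact norm_le_pi_norm c j
      rw [h c hc k ψ hψ, ih hs.2 _ h1 _ (Rep.E_mem_Dinf hψ _ _)]
      simp only [List.map_cons, List.prod_cons, symm_mul]
      congr 1
      · ext j
        by_cases hj : j = k <;> simp [hj]
      · rw [(R.oneP _).symm, List.map_congr_left fun j hj => ?_]
        rw [Function.update_of_ne fun e : j = k => hs.1 (e ▸ hj)]
  rw [key _ (List.nodup_finRange q) c hc ψ hψ]
  simp only [List.mem_finRange, if_true, Rep.Pl, List.ofFn_eq_map, Pi.smul_apply, smul_eq_mul]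
  rfl

end Pool.Agent.Lib.MP_e2ef7e_al.Gen
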