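import Pool.Agent.Lib.MP_e2ef7e_al.H6CoreA

/-!
The homotopy lemma for boundary values.
-/

open MeasureTheory Complex Set Filter Topology
open scoped ComplexConjugate InnerProductSpace ContDiff ENNReal

noncomputable section

namespace Pool.Agent.Lib.MP_e2ef7e_al.Gen

variable {H : Type} [NormedAddCommGroup H] [InnerProductSpace ℂ H]

lemma sx_mem_CS (x : ℝ) : (sx x * I : ℂ) ∈ CS := by
  simp [CS, (sx_pos x).le, (sx_lt_pi x).le]

omit [InnerProductSpace ℂ H] in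
lemma continuous_F_sx {F : ℂ → H} (h : ContinuousOn F CS) : Continuous fun x => F (sx x * I) :=
  h.comp_continuous ((continuous_ofReal.comp continuous_sx).mul continuous_const) sx_mem_CS

/-- one of the two ends of the flat coordinate, with the limit of the angle -/
structure End (G : Filter ℝ) (s0 : ℝ) : Prop where
  shift : ∀ U ∈ G, ∃ s, Metric.ball s 1 ⊆ U
  lim : Tendsto sx G (𝓝 s0)
  mem : (s0 * I : ℂ) ∈ CS

lemma end_bot : End atBot 0 := by
  refine ⟨fun U hU => ?_, tendsto_sx_atBot, by simpa using real_mem_CS 0⟩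
  obtain ⟨a, ha⟩ := mem_atBot_sets.1 hU
  refine ⟨a - 1, fun x hx => ha x ?_⟩
  rw [Real.ball_eq_Ioo] at hx
  linarith [hx.2]

lemma end_top : End atTop Real.pi := by
  refine ⟨fun U hU => ?_, tendsto_sx_atTop, piI_mem_CS⟩
  obtain ⟨a, ha⟩ := mem_atTop_sets.1 hU
  refine ⟨a + 1, fun x hx => ha x ?_⟩
  rw [Real.ball_eq_Ioo] at hx
  linarith [hx.1]

lemma End.tendsto {G : Filter ℝ} {s0 : ℝ} (hG : End G s0) {F : ℂ → H} (h : ContinuousOn F CS)
    (ζ : H) : Tendsto (fun x => ⟪ζ, F (sx x * I)⟫_ℂ) G (𝓝 ⟪ζ, F (s0 * I)⟫_ℂ) := by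
  refine tendsto_const_nhds.inner ((h _ hG.mem).tendsto.comp (tendsto_nhdsWithin_iff.2
    ⟨?_, Eventually.of_forall sx_mem_CS⟩))
  exact ((continuous_ofReal.tendsto _).comp hG.lim).mul_const I

lemma eq_zero_of_le {x : ℂ} {K δ₀ : ℝ} (h0 : 0 < δ₀) (h : ∀ δ, 0 < δ → δ ≤ δ₀ → ‖x‖ ≤ K * δ) :
    x = 0 := by
  have h1 : Tendsto (fun δ : ℝ => K * δ) (𝓝[>] 0) (𝓝 (K * 0)) :=
    ((continuous_const.mul continuous_id).tendsto 0).mono_left nhdsWithin_le_nhds
  rw [mul_zero] at h1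
  refine norm_le_zero_iff.1 (ge_of_tendsto h1 ?_)
  filter_upwards [Ioc_mem_nhdsGT h0] with δ hδ using h δ hδ.1 hδ.2

lemma int_mul {θ : ℝ → ℝ} (h1 : Continuous θ) (h2 : HasCompactSupport θ) {f : ℝ → ℂ}
    (hf : Continuous f) : Integrable fun x => (θ x : ℂ) * f x :=
  ((continuous_ofReal.comp h1).mul hf).integrable_of_hasCompactSupport
    (h2.comp_left (g := ofReal) ofReal_zero).mul_right

lemma avg_le {s : ℝ} (b : ContDiffBump s) {f : ℝ → ℂ} {η : ℝ}
    (h : ∀ x ∈ Metric.ball s b.rOut, ‖f x‖ ≤ η) : ‖∫ x, (b.normed volume x : ℂ) * f x‖ ≤ η := by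
  refine (norm_integral_le_of_norm_le (b.integrable_normed.mul_const η)
    (Eventually.of_forall fun x => ?_)).trans (by rw [integral_mul_const, b.integral_normed, one_mul])
  rw [norm_mul, norm_real, Real.norm_of_nonneg (b.nonneg_normed x)]
  by_cases hx : x ∈ Metric.ball s b.rOut
  · exact mul_le_mul_of_nonneg_left (h x hx) (b.nonneg_normed x)
  · rw [← b.support_normed_eq (μ := volume), Function.notMem_support] at hx
    simp [hx]

lemma avg_sub_le {s : ℝ} (b : ContDiffBump s) {f : ℝ → ℂ} (hf : Continuous f) {c : ℂ} {η : ℝ}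
    (h : ∀ x ∈ Metric.ball s b.rOut, ‖f x - c‖ ≤ η) :
    ‖(∫ x, (b.normed volume x : ℂ) * f x) - c‖ ≤ η := by
  have h1 := avg_le b h
  simp only [mul_sub] at h1
  rwa [integral_sub (int_mul b.continuous_normed b.hasCompactSupport_normed hf)
    (int_mul b.continuous_normed b.hasCompactSupport_normed continuous_const), integral_mul_const,
    integral_complex_ofReal, b.integral_normed, ofReal_one, one_mul] at h1

variable {ι : Type} [Fintype ι] [DecidableEq ι] {L : LieD ι} {R : Rep L H} [CompleteSpace H]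

lemma homotopy {G : Filter ℝ} {s0 : ℝ} (hG : End G s0) (d i : ι) (n : ℕ) {O : Set ℝ}
    (hO : IsOpen O) {T : ℝ} (hT : uIcc 0 T ⊆ O) {F : ℝ → ℂ → H} {A : ℝ}
    (hF : ∀ t ∈ O, ContinuousOn (F t) CS ∧ ∀ z ∈ CS, ‖F t z‖ ≤ A)
    {lam : ℝ → ℂ} (hlc : Continuous lam) {l : ℝ} (hl : Tendsto lam G (𝓝 l))
    (hY : ∀ θ : ℝ → ℝ, ContDiff ℝ ∞ θ → HasCompactSupport θ → ∃ (Y : ℝ → H) (C : ℝ), ∀ t ∈ O,
      ‖Y t‖ ≤ C ∧ ∀ ψ ∈ R.Dinf,
        ⟪ψ, Y t⟫_ℂ = ∫ x, (θ x : ℂ) * ⟪(Tg (R.E d))^[n] ψ, F t (sx x * I)⟫_ℂ ∧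
        HasDerivAt (fun t => ⟪ψ, Y t⟫_ℂ) (-∫ x, (θ x : ℂ) * (lam x *
          ⟪(Tg (R.E d))^[n] (gen (R.E i) ψ), F t (sx x * I)⟫_ℂ)) t)
    {ψ : H} (hψ : ψ ∈ R.Dinf) : ⟪(Tg (R.E d))^[n] ψ, F T (s0 * I)⟫_ℂ =
      ⟪(Tg (R.E d))^[n] (R.E i (-(l * T)) ψ), F 0 (s0 * I)⟫_ℂ := by
  have hi := R.oneP i
  have hg := Rep.gen_mem_Dinf hψ i
  have hT0 := hT left_mem_uIcc
  have hT1 := hT right_mem_uIcc
  have hA : 0 ≤ A := (norm_nonneg _).trans ((hF 0 hT0).2 _ hG.mem)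
  obtain ⟨B, hB⟩ := isCompact_uIcc.exists_bound_of_continuousOn (s := uIcc 0 T)
    (f := fun t => (Tg (R.E d))^[n] (R.E i (l * (t - T)) (gen (R.E i) ψ)))
    ((continuous_Tgn d i n hg).comp (by fun_prop)).continuousOn
  refine sub_eq_zero.1 (eq_zero_of_le (K := 2 + B * A * ‖T - 0‖) one_pos fun η hη _ => ?_)
  obtain ⟨s, hs⟩ := hG.shift _ (inter_mem (hl.eventually (Metric.closedBall_mem_nhds _ hη))
    (inter_mem ((hG.tendsto (hF T hT1).1 ((Tg (R.E d))^[n] ψ)).eventually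
      (Metric.closedBall_mem_nhds _ hη)) ((hG.tendsto (hF 0 hT0).1
      ((Tg (R.E d))^[n] (R.E i (-(l * T)) ψ))).eventually (Metric.closedBall_mem_nhds _ hη))))
  let b : ContDiffBump s := ⟨1 / 2, 1, by norm_num, by norm_num⟩
  obtain ⟨Y, C, hY⟩ := hY (b.normed volume) b.contDiff_normed b.hasCompactSupport_normed
  have cF : ∀ t ∈ O, ∀ ζ : H, Continuous fun x => ⟪ζ, F t (sx x * I)⟫_ℂ := fun t ht ζ =>
    continuous_const.inner (continuous_F_sx (hF t ht).1)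
  have hd : ∀ t ∈ uIcc 0 T, HasDerivWithinAt (fun t => ⟪R.E i (l * (t - T)) ψ, Y t⟫_ℂ)
      (∫ x, (b.normed volume x : ℂ) * ((l - lam x) * ⟪(Tg (R.E d))^[n] (R.E i (l * (t - T))
        (gen (R.E i) ψ)), F t (sx x * I)⟫_ℂ)) (uIcc 0 T) t := fun t ht => by
    have ht' := hT ht
    have h1 := (hi.hasDerivAt (Rep.dom_of_mem hψ i) (l * (t - T))).scomp t
      (((hasDerivAt_id t).sub_const T).const_mul l)
    have h2 := hY t ht'
    have h3 := h2.2 _ (Rep.E_mem_Dinf hg i (l * (t - T)))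
    have h4 := (h2.2 _ (Rep.E_mem_Dinf hψ i (l * (t - T)))).2
    rw [(hi.dom_apply (Rep.dom_of_mem hψ i) _).2] at h4
    have h5 := hasDerivAt_pair (Y := Y) h1 (by
      filter_upwards [hO.mem_nhds ht'] with s hs using (hY s hs).1) h4 (by
      simp only [← Complex.coe_smul, inner_smul_left]
      exact continuousAt_const.mul h3.2.continuousAt)
    refine (h5.congr_deriv ?_).hasDerivWithinAt
    simp only [← Complex.coe_smul, inner_smul_left, mul_one, conj_ofReal, h3.1]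
    have c1 := cF t ht' ((Tg (R.E d))^[n] (R.E i (l * (t - T)) (gen (R.E i) ψ)))
    rw [← integral_const_mul, ← sub_eq_add_neg, ← integral_sub
      ((int_mul b.continuous_normed b.hasCompactSupport_normed c1).const_mul _)
      (int_mul b.continuous_normed b.hasCompactSupport_normed (f := fun x => lam x * _)
        (hlc.mul c1))]
    congr 1
    ext x
    ring
  have h6 := (convex_uIcc 0 T).norm_image_sub_le_of_norm_hasDerivWithin_le (C := η * (B * A)) hd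
    (fun t ht => avg_le b fun x hx => by
      rw [norm_mul]
      refine mul_le_mul ?_ ((norm_inner_le_norm _ _).trans (mul_le_mul (hB t ht)
        ((hF t (hT ht)).2 _ (sx_mem_CS x)) (norm_nonneg _) ((norm_nonneg _).trans (hB t ht))))
        (norm_nonneg _) hη.le
      rw [norm_sub_rev, ← dist_eq_norm]
      exact (hs hx).1) left_mem_uIcc right_mem_uIcc
  simp only [sub_self, mul_zero, hi.zero, zero_sub, mul_neg] at h6
  rw [((hY T hT1).2 _ hψ).1, ((hY 0 hT0).2 _ (Rep.E_mem_Dinf hψ i _)).1] at h6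
  have h7 := avg_sub_le b (cF T hT1 ((Tg (R.E d))^[n] ψ)) fun x hx => by
    rw [← dist_eq_norm]; exact (hs hx).2.1
  have h8 := avg_sub_le b (cF 0 hT0 ((Tg (R.E d))^[n] (R.E i (-(l * T)) ψ))) fun x hx => by
    rw [← dist_eq_norm]; exact (hs hx).2.2
  rw [norm_sub_rev] at h7
  refine ((norm_sub_le_norm_sub_add_norm_sub _ _ _).trans (add_le_add h7
    ((norm_sub_le_norm_sub_add_norm_sub _ _ _).trans (add_le_add h6 h8)))).trans (le_of_eq ?_)
  ring

end Pool.Agent.Lib.MP_e2ef7e_al.Gen
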