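import Pool.Agent.Lib.MP_e2ef7e_al.H6CoreB

/-!
Boundary values of the averaged weak solutions and their transformation law.
-/

open MeasureTheory Complex Set Filter Topology
open scoped ComplexConjugate InnerProductSpace ContDiff ENNReal Convolution

noncomputable section

namespace Pool.Agent.Lib.MP_e2ef7e_al.Gen

variable {H : Type} [NormedAddCommGroup H] [InnerProductSpace ℂ H] {p : ℕ}

/-- bounded test functions -/
structure Tst (ε K : ℝ) (χ : (Fin p → ℝ) → ℝ) : Prop where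
  smooth : ContDiff ℝ ∞ χ
  cpt : HasCompactSupport χ
  supp : tsupport χ ⊆ Metric.ball 0 ε
  bd : ∀ a, |χ a| ≤ K

lemma Tst.shift {ε K : ℝ} {χ : (Fin p → ℝ) → ℝ} (h : Tst (ε / 2) K χ) {a : Fin p → ℝ}
    (ha : ‖a‖ < ε / 2) : Tst ε K fun x => χ (x - a) := by
  refine ⟨h.smooth.comp (contDiff_id.sub contDiff_const),
    h.cpt.comp_homeomorph (Homeomorph.subRight a), fun x hx => ?_, fun x => h.bd _⟩
  have h1 : x - a ∈ tsupport χ := by
    have := tsupport_comp_subset_preimage χ (f := fun x => x - a) (by fun_prop) hx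
    exact this
  have h2 := mem_ball_zero_iff.1 (h.supp h1)
  rw [mem_ball_zero_iff]
  calc ‖x‖ = ‖(x - a) + a‖ := by rw [sub_add_cancel]
    _ ≤ ‖x - a‖ + ‖a‖ := norm_add_le _ _
    _ < ε := by linarith

lemma prod_supp {θ : ℝ → ℂ} (h : HasCompactSupport θ) {ε K : ℝ} {χ : (Fin p → ℝ) → ℝ}
    (hχ : Tst ε K χ) : HasCompactSupport (fun z : ℝ × (Fin p → ℝ) => θ z.1 * χ z.2) ∧
      tsupport (fun z : ℝ × (Fin p → ℝ) => θ z.1 * χ z.2) ⊆ univ ×ˢ Metric.ball 0 ε := by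
  have h1 : tsupport (fun z : ℝ × (Fin p → ℝ) => θ z.1 * χ z.2) ⊆ tsupport θ ×ˢ tsupport χ := by
    refine closure_minimal (fun z hz => ?_) ((isClosed_tsupport _).prod (isClosed_tsupport _))
    have := mul_ne_zero_iff.1 hz
    exact ⟨subset_tsupport _ this.1, subset_tsupport _ (ofReal_ne_zero.1 this.2)⟩
  exact ⟨(IsCompact.prod h hχ.cpt).of_isClosed_subset (isClosed_tsupport _) h1,
    h1.trans (prod_mono (subset_univ _) hχ.supp)⟩

lemma intG {f : ℝ × (Fin p → ℝ) → H} (hf : AEStronglyMeasurable f volume) {ε K M : ℝ} {N : ℕ}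
    (hM : 0 ≤ M) (hb : ∫⁻ z in univ ×ˢ Metric.ball 0 ε,
      ‖f z‖ₑ * ENNReal.ofReal (Real.exp (-(N * |z.1|))) ≤ ENNReal.ofReal M)
    {χ : (Fin p → ℝ) → ℝ} (hχ : Tst ε K χ) :
    Integrable (fun z => (Real.exp (-(N * |z.1|)) * χ z.2) • f z) ∧
      ∫ z, ‖(Real.exp (-(N * |z.1|)) * χ z.2) • f z‖ ≤ K * M := by
  have hK : 0 ≤ K := (abs_nonneg _).trans (hχ.bd 0)
  have hc := hχ.smooth.continuous
  have h1 : AEStronglyMeasurable (fun z => (Real.exp (-(N * |z.1|)) * χ z.2) • f z) volume :=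
    (Continuous.aestronglyMeasurable (f := fun z : ℝ × (Fin p → ℝ) =>
      Real.exp (-(N * |z.1|)) * χ z.2) (by fun_prop)).smul hf
  have h2 : ∫⁻ z, ‖(Real.exp (-(N * |z.1|)) * χ z.2) • f z‖ₑ ≤ ENNReal.ofReal (K * M) := by
    rw [ENNReal.ofReal_mul hK]
    refine le_trans ?_ (mul_le_mul_right hb _)
    rw [← lintegral_const_mul' _ _ ENNReal.ofReal_ne_top,
      ← lintegral_indicator (MeasurableSet.univ.prod Metric.isOpen_ball.measurableSet)]
    refine lintegral_mono fun z => ?_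
    by_cases hz : z.2 ∈ Metric.ball (0 : Fin p → ℝ) ε
    · rw [indicator_of_mem (show z ∈ univ ×ˢ Metric.ball 0 ε from ⟨trivial, hz⟩), enorm_smul,
        enorm_mul, Real.enorm_of_nonneg (Real.exp_pos _).le, Real.enorm_eq_ofReal_abs,
        mul_comm (ENNReal.ofReal (Real.exp _)), mul_assoc, mul_comm (ENNReal.ofReal (Real.exp _))]
      exact mul_le_mul_left (ENNReal.ofReal_le_ofReal (hχ.bd _)) _
    · rw [image_eq_zero_of_notMem_tsupport fun h => hz (hχ.supp h)]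
      simp
  refine ⟨⟨h1, h2.trans_lt ENNReal.ofReal_lt_top⟩, ?_⟩
  rw [integral_norm_eq_lintegral_enorm h1]
  exact ENNReal.toReal_le_of_le_ofReal (mul_nonneg hK hM) h2

lemma int_test {f : ℝ × (Fin p → ℝ) → H} (hf : LocallyIntegrable f volume) {ε K : ℝ}
    {χ : (Fin p → ℝ) → ℝ} (hχ : Tst ε K χ) {θ : ℝ → ℂ} (h1 : Continuous θ)
    (h2 : HasCompactSupport θ) : Integrable fun z => (θ z.1 * χ z.2) • f z := by
  have hc := hχ.smooth.continuous
  exact hf.integrable_smul_left_of_hasCompactSupport (by fun_prop) (prod_supp h2 hχ).1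

variable [CompleteSpace H]

lemma fub {f : ℝ × (Fin p → ℝ) → H} (hf : LocallyIntegrable f volume) {ε K : ℝ}
    {χ : (Fin p → ℝ) → ℝ} (hχ : Tst ε K χ) (hs : ∀ᵐ x, Integrable fun a => χ a • f (x, a))
    {θ : ℝ → ℂ} (h1 : Continuous θ) (h2 : HasCompactSupport θ) (ℓ : H →L[ℂ] ℂ) :
    ∫ x, θ x * ℓ (∫ a, χ a • f (x, a)) = ∫ z : ℝ × (Fin p → ℝ), θ z.1 * χ z.2 * ℓ (f z) := by
  have h3 := ℓ.integrable_comp (int_test hf hχ h1 h2)
  simp only [map_smul, smul_eq_mul] at h3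
  rw [Measure.volume_eq_prod] at h3 ⊢
  rw [integral_prod _ h3]
  refine integral_congr_ae (hs.mono fun x hx => ?_)
  dsimp only
  rw [← ℓ.integral_comp_comm hx, ← integral_const_mul]
  simp only [← Complex.coe_smul, map_smul, smul_eq_mul, mul_assoc]

/-- `F` is the strip function attached to the average of `f` against `χ` -/
structure IsF (u : ℝ → H ≃ₗᵢ[ℂ] H) (n : ℕ) (f : ℝ × (Fin p → ℝ) → H) (χ : (Fin p → ℝ) → ℝ) (A : ℝ)
    (F : ℂ → H) : Prop where
  sf : SF u F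
  bd : ∀ z ∈ CS, ‖F z‖ ≤ A
  eq : ∀ θ : ℝ → ℂ, Continuous θ → HasCompactSupport θ → ∀ ℓ : H →L[ℂ] ℂ,
    ∫ x, θ x * ℓ (F (sx x * I)) = ∫ z : ℝ × (Fin p → ℝ), θ z.1 * χ z.2 * ℓ ((Res u)^[n] (f z))

omit [CompleteSpace H] in
lemma pd_prod {θ : ℝ → ℂ} (h : ContDiff ℝ ∞ θ) {χ : (Fin p → ℝ) → ℝ} (hχ : ContDiff ℝ ∞ χ)
    (z : ℝ × (Fin p → ℝ)) :
    pd (fun z : ℝ × (Fin p → ℝ) => θ z.1 * χ z.2) (1, 0) z = deriv θ z.1 * χ z.2 := by
  have h1 : DifferentiableAt ℝ (fun z : ℝ × (Fin p → ℝ) => θ z.1 * χ z.2) z :=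
    ((h.comp contDiff_fst).mul (ofRealCLM.contDiff.comp (hχ.comp contDiff_snd))).differentiable
      (by simp) z
  have h2 := h1.hasFDerivAt.hasLineDerivAt (1, 0)
  have h3 : HasDerivAt (fun t : ℝ => θ (z.1 + t) * χ z.2) (deriv θ z.1 * χ z.2) 0 := by
    refine HasDerivAt.mul_const ?_ _
    refine HasDerivAt.comp_const_add _ _ ?_
    rw [add_zero]
    exact (h.differentiable (by simp) _).hasDerivAt
  refine HasDerivAt.unique h2 ?_
  simpa using h3

variable {ι : Type} [Fintype ι] [DecidableEq ι] {L : LieD ι}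

lemma exF (N : ℕ) : ∃ (n : ℕ) (C : ℝ), ∀ (R : Rep L H) (d : ι) (f : ℝ × (Fin p → ℝ) → H)
    (ε K M : ℝ) (χ : (Fin p → ℝ) → ℝ), LocallyIntegrable f volume → 0 ≤ M →
    ∫⁻ z in univ ×ˢ Metric.ball 0 ε,
      ‖f z‖ₑ * ENNReal.ofReal (Real.exp (-(N * |z.1|))) ≤ ENNReal.ofReal M →
    R.WEq volume (univ ×ˢ Metric.ball 0 ε) f (1, 0) (fun z => (I * Real.sin (sx z.1)) • bv d) →
    Tst ε K χ → ∃ F, IsF (R.E d) n f χ (C * (K * M)) F := by
  obtain ⟨n, C, -, hbd⟩ := boundary N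
  refine ⟨n, C, fun R d f ε K M χ hf hM hb hw hχ => ?_⟩
  obtain ⟨h1, h2⟩ := intG hf.aestronglyMeasurable hM hb hχ
  rw [Measure.volume_eq_prod] at h1 h2
  have h3 : ∀ x : ℝ, ∫ a, (Real.exp (-(N * |x|)) * χ a) • f (x, a) =
      Real.exp (-(N * |x|)) • ∫ a, χ a • f (x, a) := fun x => by
    simp only [mul_smul, integral_smul]
  have h4 := h1.integral_prod_left
  simp only [h3] at h4
  have h5 : ∀ x : ℝ, ‖Real.exp (-(N * |x|)) • ∫ a, χ a • f (x, a)‖ =
      Real.exp (-(N * |x|)) * ‖∫ a, χ a • f (x, a)‖ := fun x => by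
    rw [norm_smul, Real.norm_of_nonneg (Real.exp_pos _).le]
  have hs : ∀ᵐ x, Integrable fun a => χ a • f (x, a) := h1.prod_right_ae.mono fun x hx => by
    refine (hx.smul (Real.exp (N * |x|))).congr (Eventually.of_forall fun a => ?_)
    simp only [Pi.smul_apply, smul_smul, ← mul_assoc, ← Real.exp_add, add_neg_cancel, Real.exp_zero,
      one_mul]
  obtain ⟨F, g1, g2, g3⟩ := hbd (R.oneP d) R.dense_Dinf
    (fun ψ hψ => ⟨Rep.dom_of_mem hψ d, Rep.E_mem_Dinf hψ d⟩) (fun x => ∫ a, χ a • f (x, a)) (K * M)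
    (by
      refine ((Continuous.aestronglyMeasurable (f := fun x : ℝ => Real.exp (N * |x|))
        (by fun_prop)).smul h4.1).congr (Eventually.of_forall fun x => ?_)
      simp only [Pi.smul_apply', smul_smul, ← Real.exp_add, add_neg_cancel, Real.exp_zero, one_smul])
    (by simpa only [h5] using h4.norm)
    (by
      refine le_trans ?_ h2
      rw [integral_prod _ h1.norm]
      refine integral_mono (by simpa only [h5] using h4.norm) h1.norm.integral_prod_left fun x => ?_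
      simp only [← h5, ← h3]
      exact norm_integral_le_integral_norm _)
    (fun θ t1 t2 ψ hψ => by
      have e1 := fub hf hχ hs (t1.continuous_deriv (by simp)) t2.deriv (innerSL ℂ ψ)
      have c1 := continuous_sx
      have c2 := t1.continuous
      have e2 := fub hf hχ hs (θ := fun x => θ x * (I * Real.sin (sx x))) (by fun_prop) t2.mul_right
        (innerSL ℂ (gen (R.E d) ψ))
      have e3 := hw _ ((t1.comp contDiff_fst).mul (ofRealCLM.contDiff.comp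
        (hχ.smooth.comp contDiff_snd))) (prod_supp t2 hχ).1 (prod_supp t2 hχ).2 ψ hψ
      simp only [innerSL_apply_apply] at e1 e2
      simp only [Function.comp_apply, ofRealCLM_apply, pd_prod t1 hχ.smooth, inner_dU_bv] at e3
      rw [e1, e2, e3]
      congr 1
      ext z
      ring)
  refine ⟨F, g1, g2, fun θ t1 t2 ℓ => ?_⟩
  have e1 := fub hf hχ hs t1 t2 (ℓ.comp (ResL (R.oneP d) ^ n))
  simp only [ContinuousLinearMap.comp_apply, ResL_pow_apply] at e1
  rw [← e1]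
  exact integral_congr_ae (g3.mono fun x hx => by simp only [hx])

lemma IsF.inner {R : Rep L H} {d : ι} {n : ℕ} {f : ℝ × (Fin p → ℝ) → H} {χ : (Fin p → ℝ) → ℝ}
    {A : ℝ} {F : ℂ → H} (h : IsF (R.E d) n f χ A F) {θ : ℝ → ℂ} (h1 : Continuous θ)
    (h2 : HasCompactSupport θ) {ψ : H} (hψ : ψ ∈ R.Dinf) :
    ∫ x, θ x * ⟪(Tg (R.E d))^[n] ψ, F (sx x * I)⟫_ℂ =
      ∫ z : ℝ × (Fin p → ℝ), θ z.1 * χ z.2 * ⟪ψ, f z⟫_ℂ := by
  have := h.eq θ h1 h2 (innerSL ℂ ((Tg (R.E d))^[n] ψ))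
  simpa only [innerSL_apply_apply, inner_Tgn hψ] using this

lemma inner_Y {f : ℝ × (Fin p → ℝ) → H} (hf : LocallyIntegrable f volume) {ε K : ℝ}
    {χ : (Fin p → ℝ) → ℝ} (hχ : Tst ε K χ) {θ : ℝ → ℂ} (h1 : Continuous θ)
    (h2 : HasCompactSupport θ) (ψ : H) : ⟪ψ, ∫ z, (θ z.1 * χ z.2) • f z⟫_ℂ =
      ∫ z : ℝ × (Fin p → ℝ), θ z.1 * χ z.2 * ⟪ψ, f z⟫_ℂ := by
  rw [← integral_inner (int_test hf hχ h1 h2)]
  simp only [inner_smul_right]

omit [CompleteSpace H] in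
lemma norm_Y {θ : ℝ → ℂ} (h1 : Continuous θ) (h2 : HasCompactSupport θ) (N : ℕ) : ∃ C : ℝ,
    ∀ {f : ℝ × (Fin p → ℝ) → H} {ε K M : ℝ} {χ : (Fin p → ℝ) → ℝ}, LocallyIntegrable f volume →
      0 ≤ M → ∫⁻ z in univ ×ˢ Metric.ball 0 ε,
        ‖f z‖ₑ * ENNReal.ofReal (Real.exp (-(N * |z.1|))) ≤ ENNReal.ofReal M → Tst ε K χ →
      ‖∫ z, (θ z.1 * χ z.2) • f z‖ ≤ C * (K * M) := by
  obtain ⟨C, hC⟩ := Continuous.bounded_above_of_compact_support
    (f := fun x => θ x * (Real.exp (N * |x|) : ℝ)) (by fun_prop) h2.mul_right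
  refine ⟨C, fun hf hM hb hχ => ?_⟩
  obtain ⟨g1, g2⟩ := intG hf.aestronglyMeasurable hM hb hχ
  have h0 : 0 ≤ C := (norm_nonneg _).trans (hC 0)
  refine (norm_integral_le_of_norm_le (g1.norm.const_mul C)
    (Eventually.of_forall fun z => ?_)).trans ?_
  · refine le_trans (le_of_eq ?_) (mul_le_mul_of_nonneg_right (hC z.1) (norm_nonneg _))
    rw [← norm_smul, ← Complex.coe_smul, smul_smul, mul_assoc, ← ofReal_mul, ← mul_assoc,
      ← Real.exp_add, add_neg_cancel, Real.exp_zero, one_mul]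
  · rw [integral_const_mul]
    exact mul_le_mul_of_nonneg_left g2 h0

lemma hasDerivAt_shift {X : Type} [NormedAddCommGroup X] [NormedSpace ℝ X] [FiniteDimensional ℝ X]
    [MeasureSpace X] [BorelSpace X] [(volume : Measure X).IsAddHaarMeasure] {g Θ : X → ℂ}
    (hg : LocallyIntegrable g volume) (h1 : ContDiff ℝ ∞ Θ) (h2 : HasCompactSupport Θ) (w e : X)
    (t : ℝ) : HasDerivAt (fun t : ℝ => ∫ z, Θ (z - (w + t • e)) * g z)
      (-∫ z, pd (fun z => Θ (z - (w + t • e))) e z * g z) t := by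
  have a1 : ContDiff ℝ 1 fun x => Θ (-x) := (h1.of_le (by simp)).comp contDiff_neg
  have a2 : HasCompactSupport fun x => Θ (-x) := h2.comp_homeomorph (Homeomorph.neg X)
  have a3 := (a2.hasFDerivAt_convolution_right (ContinuousLinearMap.mul ℝ ℂ) hg a1
    (w + t • e)).comp_hasDerivAt t (((hasDerivAt_id t).smul_const e).const_add w)
  rw [one_smul, convolution_precompR_apply _ hg (a2.fderiv ℝ) (a1.continuous_fderiv one_ne_zero),
    convolution_def] at a3
  have a4 : ∀ z, fderiv ℝ (fun x => Θ (-x)) (w + t • e - z) e =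
      -pd (fun z => Θ (z - (w + t • e))) e z := fun z => by
    have b1 := (h1.differentiable (by simp) (z - (w + t • e))).hasFDerivAt
    have b2 := b1.comp z ((hasFDerivAt_id z).sub_const (w + t • e))
    rw [← neg_sub] at b1
    have b3 : HasFDerivAt (fun x => Θ (-x)) _ (w + t • e - z) :=
      b1.comp (w + t • e - z) (hasFDerivAt_id (𝕜 := ℝ) (w + t • e - z)).neg
    rw [pd, b3.fderiv,
      show (fun z => Θ (z - (w + t • e))) = Θ ∘ fun z => id z - (w + t • e) from rfl, b2.fderiv]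
    simp
  simp only [a4, ContinuousLinearMap.mul_apply', mul_neg, integral_neg] at a3
  simp only [mul_comm _ (g _)]
  refine a3.congr_of_eventuallyEq (Eventually.of_forall fun s => ?_)
  simp only [Function.comp_apply, convolution_def, ContinuousLinearMap.mul_apply', neg_sub, id]

omit [CompleteSpace H] in
lemma line_aux {q : ℕ} {c : Fin q → ℝ} {ε : ℝ} (hc : ‖c‖ < ε) (i : Fin q) :
    IsOpen {t : ℝ | ‖Function.update c i 0 + t • (Pi.single i 1 : Fin q → ℝ)‖ < ε} ∧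
      uIcc 0 (c i) ⊆ {t : ℝ | ‖Function.update c i 0 + t • (Pi.single i 1 : Fin q → ℝ)‖ < ε} ∧
      Function.update c i 0 + c i • (Pi.single i 1 : Fin q → ℝ) = c := by
  refine ⟨isOpen_lt (by fun_prop) continuous_const, fun t ht => ?_, ?_⟩
  · refine lt_of_le_of_lt ((pi_norm_le_iff_of_nonneg (norm_nonneg c)).2 fun j => ?_) hc
    by_cases hj : j = i
    · subst hj
      have := abs_sub_left_of_mem_uIcc ht
      simp only [sub_zero] at this
      simpa using this.trans (norm_le_pi_norm c j)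
    · simpa [hj] using norm_le_pi_norm c j
  · ext j
    by_cases hj : j = i <;> simp [hj]

lemma beta_id {r m : ℕ} {L : LieD (Idx r m p)} {R : Rep L H} {ε : ℝ}
    {S : (Fin m → ℝ) → ℝ × (Fin p → ℝ) → H} (hS : Slab R ε S) {K A : ℝ} {χ : (Fin p → ℝ) → ℝ}
    (hχ : Tst (ε / 2) K χ) {n : ℕ} {F : (Fin m → ℝ) → (Fin p → ℝ) → ℂ → H}
    (hF : ∀ c a, ‖c‖ < ε → ‖a‖ < ε / 2 → IsF (R.E iD) n (S c) (fun x => χ (x - a)) A (F c a))
    {G : Filter ℝ} {s0 l : ℝ} (hG : End G s0) (l1 : exp (s0 * I) = l) (l2 : exp (-(s0 * I)) = l)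
    {c : Fin m → ℝ} {a : Fin p → ℝ} (hc : ‖c‖ < ε) (ha : ‖a‖ < ε / 2) {ψ : H} (hψ : ψ ∈ R.Dinf) :
    ⟪(Tg (R.E iD))^[n] ψ, F c a (s0 * I)⟫_ℂ = ⟪(Tg (R.E iD))^[n]
      ((R.Pl ip (l • a)).symm ((R.Pl im (l • c)).symm ψ)), F 0 0 (s0 * I)⟫_ℂ := by
  obtain ⟨N, M, hM, hb⟩ := hS.bd
  have h0 : ‖(0 : Fin m → ℝ)‖ < ε := by rw [norm_zero]; exact (norm_nonneg _).trans_lt hc
  have c1 := continuous_sx
  have t0 : Tendsto (fun x => (sx x * I : ℂ)) G (𝓝 (s0 * I)) :=
    ((continuous_ofReal.tendsto _).comp hG.lim).mul_const I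
  rw [remove_all im (fun c ψ => ⟪(Tg (R.E iD))^[n] ψ, F c a (s0 * I)⟫_ℂ) ε l ?_ hc hψ,
    remove_all ip (fun a ψ => ⟪(Tg (R.E iD))^[n] ψ, F 0 a (s0 * I)⟫_ℂ) (ε / 2) l ?_ ha
      (Pl_mem _ _ hψ)]
  · intro a ha i ψ hψ
    obtain ⟨o1, o2, o3⟩ := line_aux ha i
    have := homotopy hG iD (ip i) n o1 o2
      (F := fun t => F 0 (Function.update a i 0 + t • Pi.single i 1))
      (fun t ht => ⟨(hF _ _ h0 ht).sf.cont, (hF _ _ h0 ht).bd⟩) (lam := fun x => exp (sx x * I))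
      (by fun_prop) (l1 ▸ t0.cexp) (fun θ t1 t2 => ?_) hψ
    · simpa only [o3, zero_smul, add_zero] using this
    have t3 : Continuous fun x => (θ x : ℂ) := continuous_ofReal.comp t1.continuous
    have t4 : HasCompactSupport fun x => (θ x : ℂ) := t2.comp_left (g := ofReal) ofReal_zero
    have t5 : ContDiff ℝ ∞ fun x => (θ x : ℂ) := ofRealCLM.contDiff.comp t1
    obtain ⟨C, hC⟩ := norm_Y (H := H) (p := p) t3 t4 N
    refine ⟨fun t => ∫ z, ((θ z.1 : ℂ) * χ (z.2 - (Function.update a i 0 + t • Pi.single i 1))) •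
      S 0 z, C * (K * M), fun t ht => ⟨hC (hS.loc 0 h0) hM (hb 0 h0) (hχ.shift ht), fun ψ hψ =>
        ⟨(inner_Y (hS.loc 0 h0) (hχ.shift ht) t3 t4 ψ).trans ((hF _ _ h0 ht).inner t3 t4 hψ).symm,
          ?_⟩⟩⟩
    have : (volume : Measure (ℝ × (Fin p → ℝ))).IsAddHaarMeasure :=
      Measure.prod.instIsAddHaarMeasure _ _
    have d1 := hasDerivAt_shift (g := fun z => ⟪ψ, S 0 z⟫_ℂ)
      (Θ := fun z : ℝ × (Fin p → ℝ) => (θ z.1 : ℂ) * χ z.2)
      (fun x => ((hS.loc 0 h0) x).imp fun s hs => ⟨hs.1, (innerSL ℂ ψ).integrable_comp hs.2⟩)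
      ((t5.comp contDiff_fst).mul (ofRealCLM.contDiff.comp (hχ.smooth.comp contDiff_snd)))
      (prod_supp t4 hχ).1 (0, Function.update a i 0) (0, Pi.single i 1) t
    simp only [Prod.fst_sub, Prod.smul_mk, smul_zero, add_zero, sub_zero,
      Prod.snd_sub, Prod.mk_add_mk] at d1
    rw [hS.ea i (fun z => (θ z.1 : ℂ) * χ (z.2 - (Function.update a i 0 + t • Pi.single i 1)))
      ((t5.comp contDiff_fst).mul (ofRealCLM.contDiff.comp
      ((hχ.shift ht).smooth.comp contDiff_snd))) (prod_supp t4 (hχ.shift ht)).1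
      (prod_supp t4 (hχ.shift ht)).2 ψ hψ] at d1
    have d2 := (hF _ _ h0 ht).inner (θ := fun x => θ x * exp (sx x * I)) (by fun_prop) t4.mul_right
      (Rep.gen_mem_Dinf hψ (ip i))
    simp only [mul_assoc] at d2
    rw [d2]
    refine (d1.congr_deriv ?_).congr_of_eventuallyEq ?_
    · simp only [inner_dU_bv]
      congr 2
      ext z
      ring
    · filter_upwards [o1.mem_nhds ht] with s hs using inner_Y (hS.loc 0 h0) (hχ.shift hs) t3 t4 ψ
  · intro c hc i ψ hψ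
    obtain ⟨o1, o2, o3⟩ := line_aux hc i
    have hχ' := hχ.shift ha
    have := homotopy hG iD (im i) n o1 o2
      (F := fun t => F (Function.update c i 0 + t • Pi.single i 1) a)
      (fun t ht => ⟨(hF _ _ ht ha).sf.cont, (hF _ _ ht ha).bd⟩) (lam := fun x => exp (-(sx x * I)))
      (by fun_prop) (l2 ▸ t0.neg.cexp) (fun θ t1 t2 => ?_) hψ
    · simpa only [o3, zero_smul, add_zero] using this
    have t3 : Continuous fun x => (θ x : ℂ) := continuous_ofReal.comp t1.continuous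
    have t4 : HasCompactSupport fun x => (θ x : ℂ) := t2.comp_left (g := ofReal) ofReal_zero
    have t5 : ContDiff ℝ ∞ fun x => (θ x : ℂ) := ofRealCLM.contDiff.comp t1
    obtain ⟨C, hC⟩ := norm_Y (H := H) (p := p) t3 t4 N
    refine ⟨fun t => ∫ z, ((θ z.1 : ℂ) * χ (z.2 - a)) •
      S (Function.update c i 0 + t • Pi.single i 1) z, C * (K * M), fun t ht =>
        ⟨hC (hS.loc _ ht) hM (hb _ ht) hχ', fun ψ hψ =>
        ⟨(inner_Y (hS.loc _ ht) hχ' t3 t4 ψ).trans ((hF _ _ ht ha).inner t3 t4 hψ).symm, ?_⟩⟩⟩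
    have d1 := hS.eb _ ht (fun z => (θ z.1 : ℂ) * χ (z.2 - a))
      ((t5.comp contDiff_fst).mul (ofRealCLM.contDiff.comp
      (hχ'.smooth.comp contDiff_snd))) (prod_supp t4 hχ').1 (prod_supp t4 hχ').2 ψ hψ i
    have d3 := HasDerivAt.comp_sub_const t t (by rw [sub_self]; exact d1)
    have d2 := (hF _ _ ht ha).inner (θ := fun x => θ x * exp (-(sx x * I))) (by fun_prop)
      t4.mul_right (Rep.gen_mem_Dinf hψ (im i))
    simp only [mul_assoc] at d2
    rw [d2]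
    refine (d3.congr_deriv ?_).congr_of_eventuallyEq ?_
    · congr 2
      ext z
      ring
    · filter_upwards [o1.mem_nhds ht] with s hs
      rw [inner_Y (hS.loc _ hs) hχ' t3 t4 ψ, add_assoc, ← add_smul, add_sub_cancel]

end Pool.Agent.Lib.MP_e2ef7e_al.Gen
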