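import Pool.Agent.Lib.MP_e2ef7e_al.H6CoreC
import Pool.Agent.Lib.MP_e2ef7e_al.Holo

/-!
The core theorem, from the existence of the families of weak solutions.
-/

open MeasureTheory Complex Set Filter Topology
open scoped ComplexConjugate InnerProductSpace ContDiff ENNReal

noncomputable section

namespace Pool.Agent.Lib.MP_e2ef7e_al.Gen

variable {H : Type} [NormedAddCommGroup H] [InnerProductSpace ℂ H] {r m p : ℕ}

lemma avg_est {f : ℝ × (Fin p → ℝ) → H} (hf : LocallyIntegrable f volume) {ρ δ : ℝ} (hδ : 0 ≤ δ)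
    (b : ContDiffBump (0 : ℝ)) (c : ContDiffBump (0 : Fin p → ℝ)) (b1 : b.rIn = ρ / 2)
    (b2 : b.rOut = ρ) (c1 : c.rIn = ρ / 2) (c2 : c.rOut = ρ) {v : H}
    (h : ∫⁻ z in Metric.closedBall 0 ρ, ‖f z - v‖ₑ ≤ ENNReal.ofReal (δ * ρ ^ (p + 1)))
    (ℓ : H →L[ℂ] ℂ) (h0 : ∫ z : ℝ × (Fin p → ℝ),
      (b.normed volume z.1 : ℂ) * c.normed volume z.2 * ℓ (f z) = 0) : ‖ℓ v‖ ≤ ‖ℓ‖ * δ := by
  have hρ : 0 < ρ := b2 ▸ b.rOut_pos
  have t3 : Continuous fun x => (b.normed volume x : ℂ) := continuous_ofReal.comp b.continuous_normed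
  have t4 : HasCompactSupport fun x => (b.normed volume x : ℂ) :=
    b.hasCompactSupport_normed.comp_left (g := ofReal) ofReal_zero
  have w1 : ∀ x, b.normed volume x ≤ 1 / ρ := fun x => by
    have := b.normed_le_div_measure_closedBall_rIn volume x
    rwa [b1, Real.volume_real_closedBall (by positivity), mul_div_cancel₀ _ two_ne_zero] at this
  have w2 : ∀ x, c.normed volume x ≤ 1 / ρ ^ p := fun x => by
    have := c.normed_le_div_measure_closedBall_rIn volume x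
    rwa [c1, measureReal_def, Real.volume_pi_closedBall _ (by positivity),
      ENNReal.toReal_ofReal (by positivity), mul_div_cancel₀ _ two_ne_zero, Fintype.card_fin] at this
  have hχ : Tst (ρ + 1) (1 / ρ ^ p) (c.normed volume) := ⟨c.contDiff_normed,
    c.hasCompactSupport_normed, by
      rw [c.tsupport_normed_eq, c2]
      exact Metric.closedBall_subset_ball (lt_add_one ρ), fun a => by
      rw [abs_of_nonneg (c.nonneg_normed a)]
      exact w2 a⟩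
  have i1 := ℓ.integrable_comp (int_test hf hχ t3 t4)
  have i2 := ℓ.integrable_comp (int_test (locallyIntegrable_const v) hχ t3 t4)
  simp only [map_smul, smul_eq_mul] at i1 i2
  have i3 : IntegrableOn (fun z => f z - v) (Metric.closedBall 0 ρ) :=
    (hf.sub (locallyIntegrable_const v)).integrableOn_isCompact (isCompact_closedBall _ _)
  have e1 : ∫ z : ℝ × (Fin p → ℝ), (b.normed volume z.1 : ℂ) * c.normed volume z.2 * ℓ v = ℓ v := by
    rw [integral_mul_const, Measure.volume_eq_prod, integral_prod_mul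
      (fun x => (b.normed volume x : ℂ)) (fun x => (c.normed volume x : ℂ)),
      integral_complex_ofReal, integral_complex_ofReal, b.integral_normed, c.integral_normed]
    simp
  have e2 : ∫ z in Metric.closedBall 0 ρ, ‖f z - v‖ ≤ δ * ρ ^ (p + 1) := by
    rw [integral_norm_eq_lintegral_enorm i3.1]
    exact ENNReal.toReal_le_of_le_ofReal (by positivity) h
  rw [← norm_neg, ← e1, ← zero_sub, ← h0, ← integral_sub i1 i2]
  refine (norm_integral_le_of_norm_le (((integrable_indicator_iff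
    Metric.isClosed_closedBall.measurableSet).2 i3.norm).const_mul (1 / ρ * (1 / ρ ^ p) * ‖ℓ‖))
    (Eventually.of_forall fun z => ?_)).trans ?_
  · rw [← mul_sub, ← map_sub, norm_mul, norm_mul, norm_real, norm_real,
      Real.norm_of_nonneg (b.nonneg_normed _), Real.norm_of_nonneg (c.nonneg_normed _)]
    by_cases hz : z ∈ Metric.closedBall (0 : ℝ × (Fin p → ℝ)) ρ
    · rw [indicator_of_mem hz, mul_assoc _ ‖ℓ‖]
      exact mul_le_mul (mul_le_mul (w1 _) (w2 _) (c.nonneg_normed _) (by positivity))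
        (ℓ.le_opNorm _) (norm_nonneg _) (by positivity)
    · rw [indicator_of_notMem hz, mul_zero]
      rw [← Prod.mk_zero_zero, ← closedBall_prod_same, mem_prod, not_and_or] at hz
      rcases hz with hz | hz
      · rw [← b2, ← b.tsupport_normed_eq (μ := volume)] at hz
        rw [image_eq_zero_of_notMem_tsupport hz, zero_mul, zero_mul]
      · rw [← c2, ← c.tsupport_normed_eq (μ := volume)] at hz
        rw [image_eq_zero_of_notMem_tsupport hz, mul_zero, zero_mul]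
  · rw [integral_const_mul, integral_indicator Metric.isClosed_closedBall.measurableSet]
    refine (mul_le_mul_of_nonneg_left e2 (by positivity)).trans (le_of_eq ?_)
    rw [pow_succ]
    field_simp

variable [CompleteSpace H] {L : LieD (Idx r m p)} {R : Rep L H}

lemma end_int (hL : Graded L) {ε : ℝ}
    {S : (Fin m → ℝ) → ℝ × (Fin p → ℝ) → H} (hS : Slab R ε S) {K A : ℝ} {χ : (Fin p → ℝ) → ℝ}
    (hχ : Tst (ε / 2) K χ) {n : ℕ} {F : (Fin m → ℝ) → (Fin p → ℝ) → ℂ → H}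
    (hF : ∀ c a, ‖c‖ < ε → ‖a‖ < ε / 2 → IsF (R.E iD) n (S c) (fun x => χ (x - a)) A (F c a))
    {G : Filter ℝ} {s0 l : ℝ} (hG : End G s0) (l1 : exp (s0 * I) = l) (l2 : exp (-(s0 * I)) = l)
    {φ : ℝ → ℝ} (h1 : Continuous φ) {b : Fin m → ℝ} {a : Fin p → ℝ}
    (h2 : ∀ τ, φ τ ≠ 0 → ‖Real.exp τ • b‖ < ε ∧ ‖Real.exp (-τ) • a‖ < ε / 2) {ξ : H}
    (hξ : ∀ z ∈ R.Dinf, ⟪z, ξ⟫_ℂ =
      ∫ τ, (φ τ : ℂ) * ⟪R.E iD (-τ) ((Tg (R.E iD))^[n] z), F 0 0 (s0 * I)⟫_ℂ) :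
    ∀ ζ ∈ (Tg (R.E iD))^[n] '' (R.Dinf : Set H), (Continuous fun τ => (φ τ : ℂ) *
      ⟪ζ, R.E iD τ (F (Real.exp τ • b) (Real.exp (-τ) • a) (s0 * I))⟫_ℂ) ∧
      ⟪ζ, (Res (R.E iD))^[n] (R.Pl im (l • b) (R.Pl ip (l • a) ξ))⟫_ℂ = ∫ τ, (φ τ : ℂ) *
        ⟪ζ, R.E iD τ (F (Real.exp τ • b) (Real.exp (-τ) • a) (s0 * I))⟫_ℂ := by
  rintro _ ⟨ψ, hψ, rfl⟩
  have hu := R.oneP (iD : Idx r m p)
  have hz := Pl_mem ip (l • a) (Pl_mem im (l • b) hψ)
  have e : (fun τ => (φ τ : ℂ) * ⟪(Tg (R.E iD))^[n] ψ,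
      R.E iD τ (F (Real.exp τ • b) (Real.exp (-τ) • a) (s0 * I))⟫_ℂ) = fun τ => (φ τ : ℂ) *
      ⟪R.E iD (-τ) ((Tg (R.E iD))^[n] ((R.Pl ip (l • a)).symm ((R.Pl im (l • b)).symm ψ))),
        F 0 0 (s0 * I)⟫_ℂ := by
    ext τ
    by_cases hτ : φ τ = 0
    · simp [hτ]
    rw [hu.inner_right, ← Tgn_apply hψ, ← Tgn_apply hz, beta_id hS hχ hF hG l1 l2 (h2 τ hτ).1
      (h2 τ hτ).2 (Rep.E_mem_Dinf hψ _ _),
      Pl_comm (w := 1) (fun k => by simpa [wt, ip] using hL.hD (ip k)),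
      Pl_comm (w := -1) (fun k => by simpa [wt, im] using hL.hD (im k)), mul_one, mul_neg, mul_one,
      neg_neg, smul_comm l, smul_comm l]
  rw [e, inner_Tgn hψ, ← hξ _ hz]
  refine ⟨(continuous_ofReal.comp h1).mul
    (((hu.cont _).comp continuous_neg).inner continuous_const), ?_⟩
  rw [LinearIsometryEquiv.inner_map_eq_flip, LinearIsometryEquiv.inner_map_eq_flip]
  rfl

lemma admissible (hL : Graded L) {ε : ℝ}
    {S : (Fin m → ℝ) → ℝ × (Fin p → ℝ) → H} (hS : Slab R ε S) {K A : ℝ} {χ : (Fin p → ℝ) → ℝ}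
    (hχ : Tst (ε / 2) K χ) {n : ℕ} {F : (Fin m → ℝ) → (Fin p → ℝ) → ℂ → H}
    (hF : ∀ c a, ‖c‖ < ε → ‖a‖ < ε / 2 → IsF (R.E iD) n (S c) (fun x => χ (x - a)) A (F c a))
    {φ : ℝ → ℝ} (h1 : Continuous φ) (h2 : HasCompactSupport φ) (h3 : ∀ τ, φ τ ≠ 0 → |τ| ≤ 1)
    {ξ ξ' : H} (hξ : ∀ z ∈ R.Dinf, ⟪z, ξ⟫_ℂ =
      ∫ τ, (φ τ : ℂ) * ⟪R.E iD (-τ) ((Tg (R.E iD))^[n] z), F 0 0 0⟫_ℂ)
    (hξ' : ∀ z ∈ R.Dinf, ⟪z, ξ'⟫_ℂ =
      ∫ τ, (φ τ : ℂ) * ⟪R.E iD (-τ) ((Tg (R.E iD))^[n] z), F 0 0 (Real.pi * I)⟫_ℂ)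
    {b : Fin m → ℝ} {a : Fin p → ℝ} (hb : ‖b‖ < ε / 8) (ha : ‖a‖ < ε / 8) :
    Gr (R.E iD) (R.Pl im b (R.Pl ip a ξ)) (R.Pl im (-b) (R.Pl ip (-a) ξ')) := by
  have hu := R.oneP (iD : Idx r m p)
  have h4 : ∀ τ, φ τ ≠ 0 → ‖Real.exp τ • b‖ < ε ∧ ‖Real.exp (-τ) • a‖ < ε / 2 := fun τ hτ => by
    have e1 := Real.exp_le_exp.2 (abs_le.1 (h3 τ hτ)).2
    have e2 := Real.exp_le_exp.2 (neg_le.1 (abs_le.1 (h3 τ hτ)).1)
    have e3 := Real.exp_one_lt_three
    simp only [norm_smul, Real.norm_of_nonneg (Real.exp_pos _).le]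
    constructor <;> nlinarith [norm_nonneg a, norm_nonneg b]
  have k1 := end_int hL hS hχ hF end_bot (l := 1) (by simp) (by simp) h1 h4 (ξ := ξ)
    (by simpa only [ofReal_zero, zero_mul] using hξ)
  have k2 := end_int hL hS hχ hF end_top (l := -1) (by simp) (by simp [exp_neg]) h1 h4 hξ'
  simp only [ofReal_zero, zero_mul, one_smul, neg_smul] at k1 k2
  refine Gr.of_Res_iterate hu n (Gr.weak_integral hu (C := A) (dense_Tg hu R.dense_Dinf
    (fun ψ hψ => ⟨Rep.dom_of_mem hψ _, Rep.gen_mem_Dinf hψ _, Rep.E_mem_Dinf hψ _⟩) n)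
    (continuous_ofReal.comp h1) (h2.comp_left (g := ofReal) ofReal_zero) (fun τ hτ => ?_)
    (fun ζ hζ => (k1 ζ hζ).1) (fun ζ hζ => (k2 ζ hζ).1) (fun ζ hζ => (k1 ζ hζ).2)
    (fun ζ hζ => (k2 ζ hζ).2))
  obtain ⟨e1, e2⟩ := h4 τ (ofReal_ne_zero.1 hτ)
  have g := hF _ _ e1 e2
  simp only [LinearIsometryEquiv.norm_map]
  exact ⟨Gr.apply hu ⟨_, g.sf, rfl, rfl⟩ (R.E iD τ).toContinuousLinearEquiv.toContinuousLinearMap
    fun t x => hu.comm _ t x, g.bd _ (real_mem_CS 0), g.bd _ piI_mem_CS⟩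

theorem core_of_slab (hL : Graded L) (R : Rep L H) (hslab : ∃ ε > 0, ∀ v ∈ R.Dinf, ∀ δ > 0,
    ∃ (ρ : ℝ) (S : (Fin m → ℝ) → ℝ × (Fin p → ℝ) → H), 0 < ρ ∧ ρ ≤ δ ∧ Slab R ε S ∧
      ∫⁻ z in Metric.closedBall 0 ρ, ‖S 0 z - v‖ₑ ≤ ENNReal.ofReal (δ * ρ ^ (p + 1))) :
    ∃ ε > 0, ∀ η : H,
    (∀ ξ ξ' : H, (∀ (b : Fin m → ℝ) (a : Fin p → ℝ), ‖b‖ < ε → ‖a‖ < ε →
      Gr (R.E iD) (R.Pl im b (R.Pl ip a ξ)) (R.Pl im (-b) (R.Pl ip (-a) ξ'))) →
      ⟪η, ξ⟫_ℂ = 0) → η = 0 := by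
  obtain ⟨ε, hε, hslab⟩ := hslab
  have hu := R.oneP (iD : Idx r m p)
  refine ⟨ε / 8, by positivity, fun η hη => eq_of_dense_inner R.dense_Dinf fun v hv => ?_⟩
  rw [inner_zero_right, inner_eq_zero_symm]
  have key : ∀ φ : ℝ → ℝ, ContDiff ℝ ∞ φ → HasCompactSupport φ → (∀ τ, φ τ ≠ 0 → |τ| ≤ 1 / 2) →
      ∫ τ, (φ τ : ℂ) * ⟪η, R.E iD τ v⟫_ℂ = 0 := fun φ p1 p2 p3 => by
    have p4 := p1.continuous.integrable_of_hasCompactSupport (μ := volume) p2
    rw [← inner_Mop hu p4]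
    refine eq_zero_of_le (K := ‖(innerSL ℂ η).comp (Mop hu p4)‖) (δ₀ := ε / 4) (by positivity)
      fun δ d1 d2 => ?_
    obtain ⟨ρ, S, r1, r2, hS, hv⟩ := hslab v hv δ d1
    obtain ⟨N, M, hM, hb⟩ := hS.bd
    obtain ⟨n, C, hex⟩ := exF (H := H) (p := p) (L := L) N
    let b : ContDiffBump (0 : ℝ) := ⟨ρ / 2, ρ, by positivity, by linarith⟩
    let c : ContDiffBump (0 : Fin p → ℝ) := ⟨ρ / 2, ρ, by positivity, by linarith⟩
    obtain ⟨K, hK⟩ := (c.continuous_normed (μ := volume)).bounded_above_of_compact_support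
      c.hasCompactSupport_normed
    have hχ : Tst (ε / 2) K (c.normed volume) := ⟨c.contDiff_normed, c.hasCompactSupport_normed, by
      rw [c.tsupport_normed_eq]
      exact Metric.closedBall_subset_ball (by change ρ < _; linarith), hK⟩
    have hF : ∀ (c' : Fin m → ℝ) (a : Fin p → ℝ), ∃ F, ‖c'‖ < ε → ‖a‖ < ε / 2 →
        IsF (R.E iD) n (S c') (fun x => c.normed volume (x - a)) (C * (K * M)) F := fun c' a => by
      by_cases h : ‖c'‖ < ε ∧ ‖a‖ < ε / 2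
      · obtain ⟨F, hF⟩ := hex R iD _ ε K M _ (hS.loc _ h.1) hM (hb _ h.1) (hS.ex _ h.1)
          (hχ.shift h.2)
        exact ⟨F, fun _ _ => hF⟩
      · exact ⟨0, fun h1 h2 => (h ⟨h1, h2⟩).elim⟩
    choose F hF using hF
    obtain ⟨Q, hQ⟩ := exists_M hu (S := R.Dinf)
      (fun _ h => ⟨Rep.dom_of_mem h _, Tg_mem h _⟩) n p1 p2
    have z0 : ‖(0 : Fin m → ℝ)‖ < ε := by rwa [norm_zero]
    have g := hF 0 0 z0 (by rw [norm_zero]; positivity)
    have q1 : ∀ (t : ℝ) (w : H), ∀ z ∈ R.Dinf, ⟪z, Q (R.E iD t w)⟫_ℂ =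
        ∫ τ, (φ (τ - t) : ℂ) * ⟪R.E iD (-τ) ((Tg (R.E iD))^[n] z), w⟫_ℂ := fun t w z hz => by
      rw [hQ z hz, ← integral_sub_right_eq_self _ t]
      simp only [hu.inner_right, ← hu.add]
      congr 1
      ext τ
      rw [show -t + -(τ - t) = -τ by ring]
    have q2 : ∀ x, ((innerSL ℂ η).comp Q) (F 0 0 (sx x * I)) = 0 := fun x => by
      refine eq_zero_of_boundary (f := fun z => ((innerSL ℂ η).comp Q) (F 0 0 z)) (r := 1 / 2)
        (by norm_num) (((innerSL ℂ η).comp Q).continuous.comp_continuousOn g.sf.cont)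
        (((innerSL ℂ η).comp Q).differentiable.comp_differentiableOn g.sf.diff) (fun t ht => ?_)
        (by simpa using sx_pos x) (by simpa using sx_lt_pi x)
      have e := g.sf.equi 0 (real_mem_CS 0) t
      rw [zero_add] at e
      simp only [e]
      refine hη _ (Q (R.E iD t (F 0 0 (Real.pi * I)))) fun b a hb ha =>
        admissible hL hS hχ hF (φ := fun τ => φ (τ - t))
          (p1.continuous.comp (continuous_id.sub continuous_const))
          (p2.comp_homeomorph (Homeomorph.subRight t)) (fun τ hτ => ?_) (q1 t _) (q1 t _) hb ha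
      have := abs_le.1 (p3 _ hτ)
      have := abs_le.1 ht
      rw [abs_le]
      constructor <;> linarith
    have q3 : ∀ w, Q ((Res (R.E iD))^[n] w) = Mop hu p4 w := fun w =>
      eq_of_dense_inner R.dense_Dinf fun z hz => by
        rw [hQ z hz, inner_Mop]
        congr 1
        ext τ
        rw [← Tgn_apply hz, inner_Tgn (Rep.E_mem_Dinf hz _ _), hu.inner_right]
    have q4 := g.eq (fun x => (b.normed volume x : ℂ)) (continuous_ofReal.comp b.continuous_normed)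
      (b.hasCompactSupport_normed.comp_left (g := ofReal) ofReal_zero) ((innerSL ℂ η).comp Q)
    simp only [q2, mul_zero, integral_zero, sub_zero] at q4
    simp only [ContinuousLinearMap.comp_apply, q3] at q4
    exact avg_est (hS.loc 0 z0) d1.le b c rfl rfl rfl rfl hv ((innerSL ℂ η).comp (Mop hu p4)) q4.symm
  have hc : Continuous fun τ => ⟪η, R.E iD τ v⟫_ℂ := continuous_const.inner (hu.cont v)
  refine eq_zero_of_le (K := 1) one_pos fun δ d1 _ => ?_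
  obtain ⟨s, s1, s2⟩ := Metric.continuousAt_iff.1 (hc.continuousAt (x := 0)) δ d1
  let b : ContDiffBump (0 : ℝ) := ⟨min s (1 / 2) / 2, min s (1 / 2), by positivity,
    half_lt_self (by positivity)⟩
  have := avg_sub_le b hc (c := ⟪η, R.E iD 0 v⟫_ℂ) (η := δ) fun x hx => by
    rw [← dist_eq_norm]
    exact (s2 (lt_of_lt_of_le hx (min_le_left _ _))).le
  rwa [key _ b.contDiff_normed b.hasCompactSupport_normed fun τ hτ => ?_, zero_sub, norm_neg,
    hu.zero, ← one_mul δ] at this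
  have h1 : τ ∈ Metric.ball (0 : ℝ) b.rOut := b.support_normed_eq (μ := volume) ▸ hτ
  exact (mem_ball_zero_iff.1 h1).le.trans (min_le_right _ _)

end Pool.Agent.Lib.MP_e2ef7e_al.Gen
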