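import Pool.Agent.Lib.MP_e2ef7e_al.LieA4

/-!
Garding vectors.
-/

open Topology Filter Set MeasureTheory
open scoped Manifold ContDiff Pointwise

noncomputable section

set_option backward.isDefEq.respectTransparency false

namespace Pool.Agent.Lib.MP_e2ef7e_al.Gen.LieA

variable {E : Type} [NormedAddCommGroup E] [NormedSpace ℝ E] [FiniteDimensional ℝ E]
  {G : Type} [Group G] [TopologicalSpace G] [T2Space G] [ChartedSpace E G]
  [LieGroup 𝓘(ℝ, E) ∞ G]

theorem garding {H : Type} [NormedAddCommGroup H] [InnerProductSpace ℂ H] [CompleteSpace H]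
    (U : G →* (H ≃ₗᵢ[ℂ] H)) (hU : ∀ v, Continuous fun g => U g v) :
    ∃ D0 : Set H, Dense D0 ∧ (∀ w ∈ D0, ∀ g, U g w ∈ D0) ∧
      ∀ w ∈ D0, ∃ A : E →ₗ[ℝ] H, ∀ X : GroupLieAlgebra 𝓘(ℝ, E) G,
        A X ∈ D0 ∧ HasDerivAt (fun t => U (ex X t) w) (A X) 0 := by
  haveI : IsTopologicalGroup G := topologicalGroup_of_lieGroup 𝓘(ℝ, E) ∞
  haveI : LocallyCompactSpace G := ChartedSpace.locallyCompactSpace E G
  letI : MeasurableSpace G := borel G
  haveI : BorelSpace G := ⟨rfl⟩
  let μ : Measure G := Measure.haar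
  have hint : ∀ (φ : G → ℝ), Continuous φ → HasCompactSupport φ → ∀ v,
      Integrable (fun x => φ x • U x v) μ := fun φ h1 h2 v =>
    (h1.smul (hU v)).integrable_of_hasCompactSupport
      (HasCompactSupport.smul_right (f' := fun x => U x v) h2)
  have hmove : ∀ (φ : G → ℝ) (v : H) (g : G),
      U g (∫ x, φ x • U x v ∂μ) = ∫ x, φ (g⁻¹ * x) • U x v ∂μ := by
    intro φ v g
    rw [← integral_mul_left_eq_self (fun x => φ (g⁻¹ * x) • U x v) g]
    have := (U g).toLinearIsometry.integral_comp_comm (μ := μ) (fun x => φ x • U x v)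
    refine this.symm.trans ?_
    congr 1
    ext x
    simp only [inv_mul_cancel_left, map_mul, LinearIsometryEquiv.coe_toLinearIsometry,
      LinearIsometryEquiv.coe_mul, Function.comp_apply]
    rw [← Complex.coe_smul, ← Complex.coe_smul, map_smul]
  have hcs : ∀ (φ : G → ℝ), HasCompactSupport φ → ∀ g : G,
      HasCompactSupport fun x => φ (g⁻¹ * x) := fun φ h g =>
    h.comp_homeomorph (Homeomorph.mulLeft g⁻¹)
  have hRcs : ∀ (φ : G → ℝ), HasCompactSupport φ → ∀ X : E,
      HasCompactSupport fun x => Rd φ x X := fun φ h X =>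
    HasCompactSupport.intro h fun x hx => by rw [Rd_zero hx]; rfl
  refine ⟨{w | ∃ (φ : G → ℝ) (v : H), ContMDiff 𝓘(ℝ, E) 𝓘(ℝ, ℝ) ∞ φ ∧ HasCompactSupport φ ∧
    w = ∫ x, φ x • U x v ∂μ}, ?_, ?_, ?_⟩
  · rw [Metric.dense_iff]
    intro v ε hε
    have hN : {x : G | ‖U x v - v‖ < ε / 2} ∈ 𝓝 (1 : G) := by
      refine (isOpen_lt ((hU v).sub continuous_const).norm continuous_const).mem_nhds ?_
      simpa using hε
    obtain ⟨f, -, hf⟩ := (SmoothBumpFunction.nhds_basis_tsupport (I := 𝓘(ℝ, E)) (1 : G)).mem_iff.mp hN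
    have hpos : 0 < ∫ x, f x ∂μ :=
      f.continuous.integral_pos_of_hasCompactSupport_nonneg_nonzero f.hasCompactSupport
        (fun _ => f.nonneg) (x := 1) (by rw [f.eq_one]; exact one_ne_zero)
    set c := ∫ x, f x ∂μ with hc
    have hfi : Integrable f μ := f.continuous.integrable_of_hasCompactSupport f.hasCompactSupport
    have hcs' : HasCompactSupport fun x => c⁻¹ * f x :=
      HasCompactSupport.mul_left (f := fun _ => c⁻¹) f.hasCompactSupport
    refine ⟨∫ x, (c⁻¹ * f x) • U x v ∂μ, ?_, fun x => c⁻¹ * f x, v,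
      contMDiff_const.mul f.contMDiff, hcs', rfl⟩
    rw [Metric.mem_ball, dist_eq_norm]
    have h1 : v = ∫ x, (c⁻¹ * f x) • v ∂μ := by
      rw [integral_smul_const, integral_const_mul, ← hc, inv_mul_cancel₀ hpos.ne', one_smul]
    have h2 : ∫ x, (c⁻¹ * f x) • U x v ∂μ - v = ∫ x, (c⁻¹ * f x) • (U x v - v) ∂μ := by
      simp only [smul_sub]
      rw [integral_sub (hint (fun x => c⁻¹ * f x) (continuous_const.mul f.continuous) hcs' v)
        ((hfi.const_mul _).smul_const v), ← h1]
    rw [h2]
    have h3 : ‖∫ x, (c⁻¹ * f x) • (U x v - v) ∂μ‖ ≤ ∫ x, (c⁻¹ * f x) * (ε / 2) ∂μ := by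
      refine norm_integral_le_of_norm_le ((hfi.const_mul _).mul_const _)
        (Eventually.of_forall fun x => ?_)
      have h0 : 0 ≤ c⁻¹ * f x := mul_nonneg (inv_nonneg.mpr hpos.le) f.nonneg
      rw [norm_smul, Real.norm_of_nonneg h0]
      by_cases hx : f x = 0
      · simp [hx]
      · exact mul_le_mul_of_nonneg_left (le_of_lt (hf (subset_tsupport _ hx))) h0
    rw [integral_mul_const, integral_const_mul, ← hc, inv_mul_cancel₀ hpos.ne', one_mul] at h3
    linarith
  · rintro w ⟨φ, v, h1, h2, rfl⟩ g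
    exact ⟨fun x => φ (g⁻¹ * x), v, h1.comp (contMDiff_const.mul contMDiff_id), hcs φ h2 g,
      hmove φ v g⟩
  · rintro w ⟨φ, v, h1, h2, rfl⟩
    have hRi : ∀ X : E, Integrable (fun x => Rd φ x X • U x v) μ := fun X =>
      hint _ (Rd_smooth h1 X).continuous (hRcs φ h2 X) v
    refine ⟨{ toFun := fun X => ∫ x, Rd φ x X • U x v ∂μ
              map_add' := fun X Y => ?_
              map_smul' := fun a X => ?_ }, fun X => ⟨?_, ?_⟩⟩
    · simp only [map_add, add_smul]
      exact integral_add (hRi X) (hRi Y)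
    · simp only [map_smul, smul_eq_mul, mul_smul, RingHom.id_apply]
      exact integral_smul a _
    · exact ⟨fun x => Rd (E := E) φ x X, v, Rd_smooth h1 X, hRcs φ h2 X, rfl⟩
    · simp only [hmove, LinearMap.coe_mk, AddHom.coe_mk]
      obtain ⟨C, hC⟩ := (hRcs φ h2 X).exists_bound_of_continuous (Rd_smooth h1 X).continuous
      set K : Set G := (ex X '' Icc (-1) 1) * tsupport φ with hK
      have hKc : IsCompact K := (isCompact_Icc.image (ex_cont X)).mul h2
      have hb : Integrable (K.indicator fun _ => C * ‖v‖) μ :=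
        (integrableOn_const hKc.measure_lt_top.ne).integrable_indicator
          hKc.isClosed.measurableSet
      have key := hasDerivAt_integral_of_dominated_loc_of_deriv_le (μ := μ)
        (F := fun t x => φ ((ex X t)⁻¹ * x) • U x v)
        (F' := fun t x => Rd (E := E) φ ((ex X t)⁻¹ * x) X • U x v) (x₀ := (0 : ℝ))
        (s := Icc (-1) 1) (bound := K.indicator fun _ => C * ‖v‖)
        (Icc_mem_nhds (by norm_num) (by norm_num))
        (Eventually.of_forall fun t => (hint _
          (h1.continuous.comp (continuous_const.mul continuous_id)) (hcs φ h2 _) v).1)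
        (hint _ (h1.continuous.comp (continuous_const.mul continuous_id)) (hcs φ h2 _) v)
        (by simpa only [ex_zero, inv_one, one_mul] using (hRi X).1)
        (Eventually.of_forall fun x t ht => ?_) hb
        (Eventually.of_forall fun x t _ => (Rd_deriv h1 X x t).smul_const _)
      · simpa only [ex_zero, inv_one, one_mul] using key.2
      · by_cases hx : x ∈ K
        · rw [indicator_of_mem hx, norm_smul, LinearIsometryEquiv.norm_map]
          exact mul_le_mul_of_nonneg_right (hC _) (norm_nonneg _)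
        · rw [indicator_of_notMem hx, Rd_zero]
          · simp
          · intro h
            exact hx ⟨ex X t, ⟨t, ht, rfl⟩, _, h, mul_inv_cancel_left _ _⟩

end Pool.Agent.Lib.MP_e2ef7e_al.Gen.LieA
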