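import Pool.Agent.Lib.MP_e2ef7e_al.LieA3
import Pool.Agent.Lib.MP_e2ef7e_al.LieA5

open Topology
open scoped Manifold ContDiff

noncomputable section

namespace Pool.Agent.Lib.MP_e2ef7e_al.Gen

open LieA

set_option backward.isDefEq.respectTransparency false in
theorem lie_part {E : Type} [NormedAddCommGroup E] [NormedSpace ℝ E] [FiniteDimensional ℝ E]
    {G : Type} [Group G] [TopologicalSpace G] [T2Space G] [ChartedSpace E G]
    [LieGroup 𝓘(ℝ, E) ∞ G]
    (h : GroupLieAlgebra 𝓘(ℝ, E) G)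
    (hh : ∀ X : GroupLieAlgebra 𝓘(ℝ, E) G, ∃ X₁ X₀ X₂ : GroupLieAlgebra 𝓘(ℝ, E) G,
      ⁅h, X₁⁆ = X₁ ∧ ⁅h, X₀⁆ = 0 ∧ ⁅h, X₂⁆ = -X₂ ∧ X = X₁ + X₀ + X₂)
    (γ : ℝ → G) (hγ0 : γ 0 = 1) (hγ : IsMIntegralCurve γ (mulInvariantVectorField h))
    (τ : G →* G) (hτ : ContMDiff 𝓘(ℝ, E) 𝓘(ℝ, E) ∞ τ)
    (hτd : ∀ X₁ X₀ X₂ : GroupLieAlgebra 𝓘(ℝ, E) G, ⁅h, X₁⁆ = X₁ → ⁅h, X₀⁆ = 0 → ⁅h, X₂⁆ = -X₂ →
      mfderiv 𝓘(ℝ, E) 𝓘(ℝ, E) τ 1 (X₁ + X₀ + X₂) = (-X₁ + X₀ - X₂ : GroupLieAlgebra 𝓘(ℝ, E) G)) :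
    ∃ (r m p : ℕ) (L : LieD (Idx r m p)) (c : Idx r m p → ℝ → G), Graded L ∧
      (∀ t, c iD t = γ t) ∧
      (∀ k s t, c (i0 k) s * γ t = γ t * c (i0 k) s) ∧
      (∀ i t, τ (c i t) = c i (if wt i = 0 then t else -t)) ∧
      (∀ ε > 0, {g : G | ∃ (x : Fin r → ℝ) (b : Fin m → ℝ) (a : Fin p → ℝ), ‖b‖ < ε ∧ ‖a‖ < ε ∧
        g = (List.ofFn fun k => c (i0 k) (x k)).prod * (List.ofFn fun k => c (im k) (b k)).prod *
          (List.ofFn fun k => c (ip k) (a k)).prod} ∈ 𝓝 (1 : G)) ∧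
      ∀ {H : Type} [NormedAddCommGroup H] [InnerProductSpace ℂ H] [CompleteSpace H]
        (U : G →* (H ≃ₗᵢ[ℂ] H)) (_ : ∀ v, Continuous fun g => U g v),
        ∃ R : Rep L H, ∀ i t, R.E i t = U (c i t) := by
  haveI : CompleteSpace E := FiniteDimensional.complete ℝ E
  haveI := lg3 (E := E) (G := G)
  let β : E →ₗ[ℝ] E →ₗ[ℝ] E :=
    LinearMap.mk₂ (M := GroupLieAlgebra 𝓘(ℝ, E) G) (Nₗ := GroupLieAlgebra 𝓘(ℝ, E) G)
      (Pₗ := GroupLieAlgebra 𝓘(ℝ, E) G) ℝ (fun X Y => ⁅X, Y⁆) add_lie smul_lie lie_add lie_smul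
  obtain ⟨r, m, p, L, X, T, hG, hXD, hwt, hT, hexp⟩ := coords β
    (fun x => lie_self (L := GroupLieAlgebra 𝓘(ℝ, E) G) x)
    (fun x y z : GroupLieAlgebra 𝓘(ℝ, E) G => leibniz_lie x y z) h hh
  let Y : Idx r m p → GroupLieAlgebra 𝓘(ℝ, E) G := X
  have hγe : γ = ex h := ex_unique hγ0 hγ
  have hz : ⁅h, (0 : GroupLieAlgebra 𝓘(ℝ, E) G)⁆ = 0 := lie_zero h
  refine ⟨r, m, p, L, fun i => ex (Y i), hG, fun t => ?_, fun k s t => ?_, fun i t => ?_,
    fun ε hε => ?_, fun U hU => ?_⟩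
  · rw [hγe]
    exact congrArg (fun Z : GroupLieAlgebra 𝓘(ℝ, E) G => ex Z t) hXD
  · have h0 : β h (X (i0 k)) = 0 := by simpa [wt, i0] using hwt (i0 k)
    have h1 := ode_uniq (β h) (LinearMap.toContinuousLinearMap (β h)).lipschitz
      (u := fun t => Ad (E := E) (ex h t) (X (i0 k))) (v := fun _ => X (i0 k))
      (fun t => Ad_deriv h (Y (i0 k)) t) (fun t => by rw [h0]; exact hasDerivAt_const _ _)
      (by simp only [ex_zero, Ad_one])
    have h2 := conj_ex (ex h t) (Y (i0 k)) s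
    have h3 : Ad (E := E) (ex h t) (Y (i0 k)) = Y (i0 k) := congrFun h1 t
    rw [h3] at h2
    rw [hγe]
    exact (mul_inv_eq_iff_eq_mul.mp h2).symm
  · rw [hom_ex τ (hτ.contMDiffAt.mdifferentiableAt (by simp))]
    have hneg : ex (-Y i) t = ex (Y i) (-t) := by
      rw [← neg_one_smul ℝ (Y i), ex_smul, mul_neg_one]
    have hw : (⁅h, Y i⁆ : GroupLieAlgebra 𝓘(ℝ, E) G) = (wt i : ℝ) • Y i := hwt i
    have hcase : wt i = 0 ∨ wt i = -1 ∨ wt i = 1 := by
      rcases i with k | k | k | k <;> simp [wt]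
    rcases hcase with hc | hc | hc
    · have := hτd 0 (Y i) 0 hz (by simpa [hc] using hw) (by simpa using hz)
      simp only [zero_add, add_zero, neg_zero, sub_zero] at this
      rw [if_pos hc]
      exact congrArg (fun Z : GroupLieAlgebra 𝓘(ℝ, E) G => ex Z t) this
    · have := hτd 0 0 (Y i) hz hz (by simpa [hc] using hw)
      simp only [zero_add, add_zero, neg_zero, zero_sub] at this
      rw [if_neg (by omega)]
      exact (congrArg (fun Z : GroupLieAlgebra 𝓘(ℝ, E) G => ex Z t) this).trans hneg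
    · have := hτd (Y i) 0 0 (by simpa [hc] using hw) hz (by simpa using hz)
      simp only [add_zero, sub_zero] at this
      rw [if_neg (by omega)]
      exact (congrArg (fun Z : GroupLieAlgebra 𝓘(ℝ, E) G => ex Z t) this).trans hneg
  · let P := (Fin r → ℝ) × (Fin m → ℝ) × (Fin p → ℝ)
    let l0 : Fin r → P →L[ℝ] ℝ := fun k =>
      (ContinuousLinearMap.proj k).comp (ContinuousLinearMap.fst ℝ _ _)
    let lm : Fin m → P →L[ℝ] ℝ := fun k => (ContinuousLinearMap.proj k).comp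
      ((ContinuousLinearMap.fst ℝ _ _).comp (ContinuousLinearMap.snd ℝ _ _))
    let lp : Fin p → P →L[ℝ] ℝ := fun k => (ContinuousLinearMap.proj k).comp
      ((ContinuousLinearMap.snd ℝ _ _).comp (ContinuousLinearMap.snd ℝ _ _))
    have h1 := ((Loc.prod fun k => Loc.ex (Y (i0 k)) (l0 k)).mul
      (Loc.prod fun k => Loc.ex (Y (im k)) (lm k))).mul (Loc.prod fun k => Loc.ex (Y (ip k)) (lp k))
    have h2 : ∑ k, (l0 k).smulRight (X (i0 k)) + ∑ k, (lm k).smulRight (X (im k)) +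
        ∑ k, (lp k).smulRight (X (ip k)) = (T : P →L[ℝ] E) := by
      refine ContinuousLinearMap.ext fun q => ?_
      rw [ContinuousLinearEquiv.coe_coe, hT]
      simp only [ContinuousLinearMap.add_apply, ContinuousLinearMap.sum_apply,
        ContinuousLinearMap.smulRight_apply]
      rfl
    have h3 := Loc.image_mem (T := T) (h2 ▸ h1) (Metric.ball_mem_nhds (0 : P) hε)
    refine Filter.mem_of_superset h3 ?_
    rintro g ⟨q, hq, rfl⟩
    rw [mem_ball_zero_iff] at hq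
    exact ⟨q.1, q.2.1, q.2.2, lt_of_le_of_lt ((norm_fst_le q.2).trans (norm_snd_le q)) hq,
      lt_of_le_of_lt ((norm_snd_le q.2).trans (norm_snd_le q)) hq, rfl⟩
  · obtain ⟨D0, hd, hmem, hder⟩ := garding (E := E) U hU
    refine ⟨{ E := fun i t => U (ex (Y i) t)
              E_add := fun i s t v => by rw [ex_add, map_mul]; rfl
              cont := fun i v => (hU v).comp (ex_cont _)
              D0 := D0
              dense := hd
              der := fun v hv i => ?_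
              gen_mem := fun v hv i => ?_
              E_mem := fun v hv i t => hmem v hv _
              Ad := fun v hv i j t => ?_ }, fun i t => rfl⟩
    · obtain ⟨A, hA⟩ := hder v hv
      exact (hA (Y i)).2.differentiableAt
    · obtain ⟨A, hA⟩ := hder v hv
      rw [gen, (hA (Y i)).2.deriv]
      exact (hA (Y i)).1
    · obtain ⟨A, hA⟩ := hder v hv
      obtain ⟨A', hA'⟩ := hder _ (hmem v hv (ex (Y i) t))
      obtain ⟨w, hw1, hw2⟩ := hexp i j (fun t => Ad (E := E) (ex (Y i) t) (X j))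
        (by simp only [ex_zero, Ad_one]) (fun t => Ad_deriv (Y i) (Y j) t) t
      have h1 : HasDerivAt (fun s => U (ex (Y i) t) (U (ex (Y j) s) v))
          (U (ex (Y i) t) (A (Y j))) 0 :=
        ((U (ex (Y i) t)).toContinuousLinearEquiv.toContinuousLinearMap.restrictScalars
          ℝ).hasFDerivAt.comp_hasDerivAt 0 (hA (Y j)).2
      have h2 := (hA' (Ad (E := E) (ex (Y i) t) (Y j))).2
      have h3 : (fun s => U (ex (Y i) t) (U (ex (Y j) s) v)) = fun s =>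
          U (ex (show GroupLieAlgebra 𝓘(ℝ, E) G from Ad (E := E) (ex (Y i) t) (Y j)) s)
            (U (ex (Y i) t) v) := by
        ext s
        rw [← conj_ex]
        have : U (ex (Y i) t * ex (Y j) s * (ex (Y i) t)⁻¹) (U (ex (Y i) t) v) =
            U (ex (Y i) t * ex (Y j) s * (ex (Y i) t)⁻¹ * ex (Y i) t) v := by
          rw [map_mul U _ (ex (Y i) t)]; rfl
        rw [this, inv_mul_cancel_right, map_mul]; rfl
      rw [h3] at h1
      have h4 := h1.unique h2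
      have h5 : Ad (E := E) (ex (Y i) t) (Y j) = ∑ l, w l • X l := hw1
      simp only [gen]
      rw [(hA (Y j)).2.deriv, h4, h5, map_sum]
      refine Finset.sum_congr rfl fun l _ => ?_
      rw [hw2, (hA' (Y l)).2.deriv, map_smul, Complex.coe_smul]

end Pool.Agent.Lib.MP_e2ef7e_al.Gen
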