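import Pool.Agent.Lib.MP_e2ef7e_al.H6CoreD
import Pool.Agent.Lib.MP_e2ef7e_al.LieA

/-!
Regularity, from the existence of the families of weak solutions.
-/

open MeasureTheory Complex Set Filter Topology
open scoped ComplexConjugate InnerProductSpace ContDiff ENNReal Manifold

noncomputable section

namespace Pool.Agent.Lib.MP_e2ef7e_al.Gen

theorem regular_of_slab {E : Type} [NormedAddCommGroup E] [NormedSpace ℝ E] [FiniteDimensional ℝ E]
    {G : Type} [Group G] [TopologicalSpace G] [T2Space G] [ChartedSpace E G]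
    [LieGroup 𝓘(ℝ, E) ∞ G]
    (h : GroupLieAlgebra 𝓘(ℝ, E) G)
    (hh : ∀ X : GroupLieAlgebra 𝓘(ℝ, E) G, ∃ X₁ X₀ X₂ : GroupLieAlgebra 𝓘(ℝ, E) G,
      ⁅h, X₁⁆ = X₁ ∧ ⁅h, X₀⁆ = 0 ∧ ⁅h, X₂⁆ = -X₂ ∧ X = X₁ + X₀ + X₂)
    (γ : ℝ → G) (hγ0 : γ 0 = 1) (hγ : IsMIntegralCurve γ (mulInvariantVectorField h))
    (τ : G →* G) (hτ : ContMDiff 𝓘(ℝ, E) 𝓘(ℝ, E) ∞ τ)
    (hτd : ∀ X₁ X₀ X₂ : GroupLieAlgebra 𝓘(ℝ, E) G, ⁅h, X₁⁆ = X₁ → ⁅h, X₀⁆ = 0 → ⁅h, X₂⁆ = -X₂ →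
      mfderiv 𝓘(ℝ, E) 𝓘(ℝ, E) τ 1 (X₁ + X₀ + X₂) = (-X₁ + X₀ - X₂ : GroupLieAlgebra 𝓘(ℝ, E) G))
    {H : Type} [NormedAddCommGroup H] [InnerProductSpace ℂ H] [CompleteSpace H]
    (U : G →* (H ≃ₗᵢ[ℂ] H)) (hU : ∀ v, Continuous fun g => U g v)
    (J : H ≃ₗᵢ⋆[ℂ] H) (hJ : ∀ v, J (J v) = v) (hJU : ∀ g v, J (U g (J v)) = U (τ g) v)
    (hslab : ∀ {r m p : ℕ} {L : LieD (Idx r m p)}, Graded L → ∀ R : Rep L H,
      ∃ ε > 0, ∀ v ∈ R.Dinf, ∀ δ > 0,
        ∃ (ρ : ℝ) (S : (Fin m → ℝ) → ℝ × (Fin p → ℝ) → H), 0 < ρ ∧ ρ ≤ δ ∧ Slab R ε S ∧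
          ∫⁻ z in Metric.closedBall 0 ρ, ‖S 0 z - v‖ₑ ≤ ENNReal.ofReal (δ * ρ ^ (p + 1))) :
    IsRegular (fun g => U g) J γ := by
  obtain ⟨r, m, p, L, c, hL, c1, c2, c3, c4, c5⟩ := lie_part h hh γ hγ0 hγ τ hτ hτd
  obtain ⟨R, hR⟩ := c5 U hU
  obtain ⟨ε, hε, hc⟩ := core_of_slab hL R (hslab hL R)
  have : IsTopologicalGroup G := topologicalGroup_of_lieGroup 𝓘(ℝ, E) ∞
  have hu := R.oneP (iD : Idx r m p)
  have e0 : R.E iD = fun t => U (γ t) := funext fun t => by rw [hR, c1]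
  have j1 : ∀ g v, U g (J v) = J (U (τ g) v) := fun g v => by rw [← hJU, hJ]
  have j2 : ∀ t v, J (R.E iD t v) = R.E iD t (J v) := fun t v => by
    rw [hR, j1, c3, if_pos (show wt (iD : Idx r m p) = 0 from rfl)]
  have j3 : ∀ {v w}, Gr (R.E iD) v w → v + J w ∈ stdSub (fun t => U (γ t)) J := by
    rintro _ _ ⟨F, hF, rfl, rfl⟩
    have := hF.mem' j2 hJ
    rwa [e0] at this
  have pl : ∀ {q : ℕ} (idx : Fin q → Idx r m p) (y : Fin q → ℝ),
      U (List.ofFn fun k => c (idx k) (y k)).prod = R.Pl idx y := fun idx y => by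
    simp only [Rep.Pl, hR, map_list_prod, List.map_ofFn, Function.comp_def]
  refine ⟨_, inv_mem_nhds_one G (c4 ε hε), isCyclicSub_of_orth (mem_interN.2 fun g _ => ?_)
    (fun a ha b hb => mem_interN.2 fun g hg => ?_) (fun a ha s => mem_interN.2 fun g hg => ?_)
    fun η hη => hc η fun ξ ξ' hξ => ?_⟩
  · simpa only [map_zero, add_zero] using j3 Gr.zero
  · rw [map_add]
    exact add_mem_stdSub (u := fun t => U (γ t)) (mem_interN.1 ha g hg) (mem_interN.1 hb g hg)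
  · rw [map_smul]
    exact smul_mem_stdSub (u := fun t => U (γ t)) (mem_interN.1 ha g hg) s
  have k : ∀ z : ℂ, ⟪η, z • ξ + J (z • ξ')⟫_ℂ = 0 := fun z => by
    refine hη _ (mem_interN.2 fun g hg => ?_)
    obtain ⟨x, b, a, hb, ha, e⟩ := mem_inv.1 hg
    have e1 : ∀ v, (U g).symm v = U g⁻¹ v := fun v => by rw [map_inv]; rfl
    have e2 : τ g⁻¹ = (List.ofFn fun k => c (i0 k) (x k)).prod *
        (List.ofFn fun k => c (im k) ((-b) k)).prod *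
          (List.ofFn fun k => c (ip k) ((-a) k)).prod := by
      simp [e, map_list_prod, List.map_ofFn, Function.comp_def, c3, wt, i0, im, ip]
    have e3 : ∀ t, (List.ofFn fun k => c (i0 k) (x k)).prod * γ t =
        γ t * (List.ofFn fun k => c (i0 k) (x k)).prod := fun t =>
      (Commute.list_prod_left _ _ fun y hy => by
        obtain ⟨k, rfl⟩ := List.mem_ofFn.1 hy
        exact c2 k _ t).eq
    rw [e1, map_add, j1, e2, e, map_mul, map_mul, map_mul, map_mul, pl im, pl im, pl ip, pl ip]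
    have e4 := ((hξ b a hb ha).smul z).apply hu
      (U (List.ofFn fun k => c (i0 k) (x k)).prod).toContinuousLinearEquiv.toContinuousLinearMap
      fun t v => by
        have := congrArg (fun g => U g v) (e3 t)
        simp only [map_mul] at this
        rw [e0]
        exact this
    rw [← map_smul (R.Pl im b), ← map_smul (R.Pl ip a), ← map_smul (R.Pl im (-b)),
      ← map_smul (R.Pl ip (-a))] at e4
    exact j3 e4
  have k1 := k 1
  have k2 := k I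
  simp only [one_smul, J.map_smulₛₗ, inner_add_right, inner_smul_right, conj_I] at k1 k2
  linear_combination k1 / 2 - I * k2 / 2 + ⟪η, ξ⟫_ℂ / 2 * I_mul_I - ⟪η, J ξ'⟫_ℂ / 2 * I_mul_I

end Pool.Agent.Lib.MP_e2ef7e_al.Gen
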