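import Pool.Agent.Lib.MP_e2ef7e_al.GDefs2

/-!
Products of one-parameter groups and their derivatives.
-/

open MeasureTheory Complex Set Filter Topology
open scoped ComplexConjugate InnerProductSpace ContDiff

noncomputable section

namespace Pool.Agent.Lib.MP_e2ef7e_al.Gen.Apx

variable {ι : Type} [Fintype ι] [DecidableEq ι] {L : LieD ι}
  {H : Type} [NormedAddCommGroup H] [InnerProductSpace ℂ H]

lemma cont2 {u : ℝ → H ≃ₗᵢ[ℂ] H} (hu : OneP u) : Continuous fun p : H × ℝ => u p.2 p.1 :=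
  continuous_prod_of_continuous_lipschitzWith _ 1 hu.cont fun t => (u t).lipschitz

lemma der_apply {u : ℝ → H ≃ₗᵢ[ℂ] H} (hu : OneP u) {f : ℝ → H} {f' : H} (hf : HasDerivAt f f' 0)
    (hd : Dom u (f 0)) (c s : ℝ) :
    HasDerivAt (fun τ => u (c + τ * s) (f τ)) (u c f' + s • u c (gen u (f 0))) 0 := by
  have h1 : HasDerivAt (fun τ : ℝ => u (c + τ * s) (f 0)) (s • u c (gen u (f 0))) 0 := by
    have a : HasDerivAt (fun τ : ℝ => c + τ * s) s 0 := by
      simpa using ((hasDerivAt_id (0 : ℝ)).mul_const s).const_add c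
    have b := hu.hasDerivAt hd (c + 0 * s)
    simpa [Function.comp_def] using b.scomp (0 : ℝ) a
  have h2 : HasDerivAt (fun τ : ℝ => u (c + τ * s) (f τ - f 0)) (u c f') 0 := by
    rw [hasDerivAt_iff_tendsto_slope_zero] at hf ⊢
    have a : Tendsto (fun τ : ℝ => c + τ * s) (𝓝[≠] 0) (𝓝 c) := by
      refine tendsto_nhdsWithin_of_tendsto_nhds ?_
      simpa using (show Continuous fun τ : ℝ => c + τ * s by fun_prop).tendsto 0
    refine (((cont2 hu).tendsto (f', c)).comp (hf.prodMk_nhds a)).congr fun τ => ?_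
    simp only [Function.comp_def, zero_add, sub_self, map_zero, sub_zero]
    exact ((u _).toLinearEquiv.toLinearMap.restrictScalars ℝ).map_smul _ _
  refine (h2.add h1).congr_of_eventuallyEq (Eventually.of_forall fun τ => ?_)
  simp

/-- product of the one-parameter groups along a list -/
def Psi (R : Rep L H) : List ι → (ι → ℝ) → H ≃ₗᵢ[ℂ] H
  | [], _ => LinearIsometryEquiv.refl ℂ H
  | i :: l, t => (Psi R l t).trans (R.E i (t i))

/-- its adjoint action -/
def Kl (L : LieD ι) : List ι → (ι → ℝ) → (ι → ℂ) →L[ℂ] (ι → ℂ)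
  | [], _ => 1
  | i :: l, t => L.ex ((t i : ℂ) • bv i) * Kl L l t

/-- its logarithmic derivative -/
def Al (L : LieD ι) : List ι → (ι → ℝ) → (ι → ℂ) →L[ℂ] (ι → ℂ)
  | [], _ => 0
  | i :: l, t => (ContinuousLinearMap.proj i).smulRight (bv i) + L.ex ((t i : ℂ) • bv i) * Al L l t

variable {R : Rep L H}

lemma Psi_cons (i : ι) (l : List ι) (t : ι → ℝ) (w : H) :
    Psi R (i :: l) t w = R.E i (t i) (Psi R l t w) := rfl

lemma Psi_cont (l : List ι) (w : H) : Continuous fun t => Psi R l t w := by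
  induction l with
  | nil => exact continuous_const
  | cons i l ih => exact (cont2 (R.oneP i)).comp (ih.prodMk (continuous_apply i))

lemma Psi_zero (l : List ι) (w : H) : Psi R l 0 w = w := by
  induction l with
  | nil => rfl
  | cons i l ih => rw [Psi_cons, ih]; exact (R.oneP i).zero w

lemma contDiff_ex (i : ι) : ContDiff ℝ ∞ fun t : ι → ℝ => L.ex ((t i : ℂ) • bv i) :=
  ((L.contDiff_ex (bv i)).restrict_scalars ℝ).comp
    (ofRealCLM.contDiff.comp (contDiff_apply ℝ ℝ i))

lemma contDiff_Kl (l : List ι) : ContDiff ℝ ∞ (Kl L l) := by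
  induction l with
  | nil => exact contDiff_const
  | cons i l ih => exact (contDiff_ex i).mul ih

lemma contDiff_Al (l : List ι) : ContDiff ℝ ∞ (Al L l) := by
  induction l with
  | nil => exact contDiff_const
  | cons i l ih => exact contDiff_const.add ((contDiff_ex i).mul ih)

lemma Kl_zero (l : List ι) : Kl L l 0 = 1 := by
  induction l with
  | nil => rfl
  | cons i l ih => simp [Kl, ih, L.ex_zero]

lemma Al_zero (l : List ι) (x : ι → ℂ) : Al L l 0 x = (l.map fun i => x i • bv i).sum := by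
  induction l with
  | nil => rfl
  | cons i l ih => simp [Al, ih, L.ex_zero]

lemma Al_univ : Al L (Finset.univ : Finset ι).toList 0 = 1 := by
  ext1 x
  rw [Al_zero, Finset.sum_map_toList, sum_smul_bv]
  rfl

lemma exists_inv : ∃ (B : (ι → ℝ) → (ι → ℂ) →L[ℂ] (ι → ℂ)) (r : ℝ), ContDiff ℝ ∞ B ∧ 0 < r ∧
    ∀ t, ‖t‖ ≤ r → Al L (Finset.univ : Finset ι).toList t * B t = 1 := by
  set A := Al L (Finset.univ : Finset ι).toList with hA
  have h0 : ContDiff ℝ ∞ A := contDiff_Al _
  have h1 : IsOpen {t | IsUnit (A t)} := Units.isOpen.preimage h0.continuous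
  obtain ⟨r, hr, h2⟩ := Metric.nhds_basis_closedBall.mem_iff.1
    (h1.mem_nhds (show IsUnit (A 0) by rw [hA, Al_univ]; exact isUnit_one))
  let f : ContDiffBump (0 : ι → ℝ) := ⟨r / 2, r, half_pos hr, half_lt_self hr⟩
  refine ⟨fun t => f t • Ring.inverse (A t), r / 2, contDiff_iff_contDiffAt.2 fun t => ?_,
    half_pos hr, fun t ht => ?_⟩
  · by_cases h : t ∈ Metric.closedBall (0 : ι → ℝ) r
    · obtain ⟨u, hu⟩ := h2 h
      exact f.contDiffAt.smul ((hu ▸ contDiffAt_ringInverse ℝ u).comp t h0.contDiffAt)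
    · refine (contDiffAt_const (c := 0)).congr_of_eventuallyEq ?_
      filter_upwards [Metric.isClosed_closedBall.isOpen_compl.mem_nhds h] with s hs
      rw [f.zero_of_le_dist (not_le.1 (show ¬ dist s 0 ≤ r from hs)).le]
      ext1 x
      simp
  · change A t * (f t • Ring.inverse (A t)) = 1
    rw [f.one_of_mem_closedBall (mem_closedBall_zero_iff.2 ht), one_smul]
    exact Ring.mul_inverse_cancel _ (h2 (mem_closedBall_zero_iff.2 (by linarith)))

variable [CompleteSpace H]

lemma Psi_mem (l : List ι) (t : ι → ℝ) {w : H} (hw : w ∈ R.Dinf) : Psi R l t w ∈ R.Dinf := by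
  induction l with
  | nil => exact hw
  | cons i l ih => exact Rep.E_mem_Dinf ih i _

lemma Psi_symm_mem (l : List ι) (t : ι → ℝ) {w : H} (hw : w ∈ R.Dinf) :
    (Psi R l t).symm w ∈ R.Dinf := by
  induction l generalizing w with
  | nil => exact hw
  | cons i l ih =>
    change (Psi R l t).symm ((R.E i (t i)).symm w) ∈ _
    rw [(R.oneP i).symm]
    exact ih (Rep.E_mem_Dinf hw i _)

lemma Psi_dU (l : List ι) (t : ι → ℝ) {w : H} (hw : w ∈ R.Dinf) (Y : ι → ℂ) :
    Psi R l t (R.dU Y w) = R.dU (Kl L l t Y) (Psi R l t w) := by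
  induction l with
  | nil => rfl
  | cons i l ih => rw [Psi_cons, ih, Rep.E_dU (Rep.dom_of_mem (Psi_mem l t hw))]; rfl

lemma Psi_der (l : List ι) (t s : ι → ℝ) {w : H} (hw : w ∈ R.Dinf) :
    HasDerivAt (fun τ : ℝ => Psi R l (t + τ • s) w)
      (R.dU (Al L l t fun i => (s i : ℂ)) (Psi R l t w)) 0 := by
  induction l with
  | nil =>
    change HasDerivAt (fun _ => w) (R.dU 0 w) 0
    rw [Rep.dU_zero_left]
    exact hasDerivAt_const _ _
  | cons i l ih =>
    have h0 : Psi R l (t + (0 : ℝ) • s) w = Psi R l t w := by rw [zero_smul, add_zero]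
    have hd := Rep.dom_of_mem (Psi_mem l t hw)
    have h := der_apply (R.oneP i) ih (by rw [h0]; exact hd i) (t i) (s i)
    refine h.congr_deriv ?_
    rw [h0, Rep.E_dU hd, ← ((R.oneP i).dom_apply (hd i) _).2, ← Rep.dU_bv, ← Complex.coe_smul,
      ← Rep.dU_smul_left, ← Rep.dU_add_left, add_comm]
    rfl

end Pool.Agent.Lib.MP_e2ef7e_al.Gen.Apx
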