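import Pool.Agent.Lib.MP_e2ef7e_al.H91ApxA

/-!
Smoothing operators obtained by averaging over the group, and their commutators.
-/

open MeasureTheory Complex Set Filter Topology
open scoped ComplexConjugate InnerProductSpace ContDiff

noncomputable section

namespace Pool.Agent.Lib.MP_e2ef7e_al.Gen.Apx

variable {ι : Type} [Fintype ι] {H : Type} [NormedAddCommGroup H] [InnerProductSpace ℂ H]

/-- averaged operator -/
def Mf (P : (ι → ℝ) → H ≃ₗᵢ[ℂ] H) (θ : (ι → ℝ) → ℂ) (w : H) : H := ∫ t, θ t • P t w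

/-- test functions -/
def TT (φ : (ι → ℝ) → ℂ) : Prop := ContDiff ℝ ∞ φ ∧ tsupport φ ⊆ Metric.closedBall 0 1

namespace TT

variable {φ : (ι → ℝ) → ℂ} (h : TT φ)
include h

lemma cpt : HasCompactSupport φ :=
  (isCompact_closedBall 0 1).of_isClosed_subset (isClosed_tsupport _) h.2

lemma zero {t : ι → ℝ} (ht : t ∉ Metric.closedBall (0 : ι → ℝ) 1) : φ t = 0 :=
  image_eq_zero_of_notMem_tsupport fun h' => ht (h.2 h')

lemma mul {c : (ι → ℝ) → ℂ} (hc : ContDiff ℝ ∞ c) : TT fun t => φ t * c t :=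
  ⟨h.1.mul hc, tsupport_mul_subset_left.trans h.2⟩

lemma der (v : ι → ℝ) : TT (pd φ v) :=
  ⟨(h.1.fderiv_right (m := ∞) le_rfl).clm_apply contDiff_const,
    (tsupport_fderiv_apply_subset ℝ v).trans h.2⟩

lemma neg : TT fun t => -φ t := by simpa using h.mul (contDiff_const (c := -1))

lemma int {F : Type} [NormedAddCommGroup F] [NormedSpace ℂ F] {u : (ι → ℝ) → F}
    (hu : Continuous u) : Integrable fun t => φ t • u t :=
  (h.1.continuous.smul hu).integrable_of_hasCompactSupport h.cpt.smul_right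

lemma intm {u : (ι → ℝ) → ℂ} (hu : Continuous u) : Integrable fun t => φ t * u t := h.int hu

lemma norm_le {C η : ℝ} (hC : ∀ t, ‖t‖ ≤ 1 → ‖φ t‖ ≤ C) {u : (ι → ℝ) → H}
    (hu : ∀ t, ‖t‖ ≤ 1 → ‖u t‖ ≤ η) :
    ‖∫ t, φ t • u t‖ ≤ C * η * volume.real (Metric.closedBall (0 : ι → ℝ) 1) := by
  rw [← setIntegral_eq_integral_of_forall_compl_eq_zero (s := Metric.closedBall 0 1)
    fun t ht => by rw [h.zero ht, zero_smul]]
  refine norm_setIntegral_le_of_norm_le_const measure_closedBall_lt_top fun t ht => ?_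
  have ht' := mem_closedBall_zero_iff.1 ht
  rw [norm_smul]
  exact mul_le_mul (hC t ht') (hu t ht') (norm_nonneg _) ((norm_nonneg _).trans (hC t ht'))

lemma bdd : ∃ C, ∀ t, ‖φ t‖ ≤ C := h.cpt.exists_bound_of_continuous h.1.continuous

variable {P : (ι → ℝ) → H ≃ₗᵢ[ℂ] H} (hP : ∀ w, Continuous fun t => P t w)
include hP

lemma clm : ∃ T : H →L[ℂ] H, ∀ w, T w = Mf P φ w := by
  obtain ⟨C, hC⟩ := h.bdd
  refine ⟨LinearMap.mkContinuous ⟨⟨Mf P φ, fun v w => ?_⟩, fun c w => ?_⟩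
    (C * volume.real (Metric.closedBall (0 : ι → ℝ) 1)) fun w => ?_, fun _ => rfl⟩
  · simp only [Mf, map_add, smul_add]
    exact integral_add (h.int (hP v)) (h.int (hP w))
  · simp only [Mf, map_smul, RingHom.id_apply, ← integral_smul, smul_comm c]
  · exact (h.norm_le (fun t _ => hC t) fun t _ => ((P t).norm_map w).le).trans_eq (by ring)

lemma cont : Continuous (Mf P φ) := by
  obtain ⟨T, hT⟩ := h.clm hP
  exact T.continuous.congr hT

lemma inner [CompleteSpace H] (ψ w : H) : ⟪ψ, Mf P φ w⟫_ℂ = ∫ t, φ t * ⟪ψ, P t w⟫_ℂ := by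
  rw [Mf, ← integral_inner (h.int (hP w))]
  simp only [inner_smul_right]

end TT

lemma TT.sum {α : Type} [Fintype α] {φ : α → (ι → ℝ) → ℂ} (h : ∀ a, TT (φ a)) :
    TT fun t => ∑ a, φ a t :=
  ⟨ContDiff.sum fun a _ => (h a).1, closure_minimal (fun _ ht => by_contra fun h' =>
    ht (Finset.sum_eq_zero fun a _ => (h a).zero h')) Metric.isClosed_closedBall⟩

variable [DecidableEq ι]

/-- divergence of a weighted vector field -/
def DD (φ : (ι → ℝ) → ℂ) (c : (ι → ℝ) → ι → ℂ) (t : ι → ℝ) : ℂ :=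
  ∑ k, pd (fun t => φ t * c t k) (Pi.single k 1) t

lemma TT.div {φ : (ι → ℝ) → ℂ} (h : TT φ) {c : (ι → ℝ) → ι → ℂ} (hc : ContDiff ℝ ∞ c) :
    TT (DD φ c) := TT.sum fun k => (h.mul (contDiff_pi.1 hc k)).der _

omit [DecidableEq ι] in
lemma TT.parts {φ : (ι → ℝ) → ℂ} (h : TT φ) {g g' : (ι → ℝ) → ℂ} (hg : Continuous g)
    (hg' : Continuous g') {v : ι → ℝ} (hd : ∀ t, HasLineDerivAt ℝ g (g' t) t v) :
    ∫ t, pd φ v t * g t = -∫ t, φ t * g' t := by
  have := integral_bilinear_hasLineDerivAt_right_eq_neg_left_of_integrable (μ := volume)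
    (B := ContinuousLinearMap.mul ℝ ℂ) (f := φ) (f' := pd φ v) (g := g) (g' := g') (v := v)
    ((h.der v).int hg) (h.int hg') (h.int hg)
    (fun t _ => (h.1.differentiable (by simp) t).hasFDerivAt.hasLineDerivAt v) fun t _ => hd t
  simp only [ContinuousLinearMap.mul_apply'] at this
  rw [this, neg_neg]

lemma TT.integral_div {φ : (ι → ℝ) → ℂ} (h : TT φ) {c : (ι → ℝ) → ι → ℂ} (hc : ContDiff ℝ ∞ c) :
    ∫ t, DD φ c t = 0 := by
  have h1 := fun k => h.mul (contDiff_pi.1 hc k)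
  simp only [DD]
  rw [integral_finsetSum _ fun k _ => ((h1 k).der _).1.continuous.integrable_of_hasCompactSupport
    ((h1 k).der _).cpt]
  refine Finset.sum_eq_zero fun k _ => ?_
  simpa using (h1 k).parts (g := fun _ => 1) (g' := fun _ => 0) continuous_const continuous_const
    (v := Pi.single k 1) fun t => (hasFDerivAt_const _ _).hasLineDerivAt _

variable {L : LieD ι} {R : Rep L H} {P : (ι → ℝ) → H ≃ₗᵢ[ℂ] H}

lemma cont_inner (hP : ∀ w, Continuous fun t => P t w) {Y : (ι → ℝ) → ι → ℂ} (hY : Continuous Y)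
    (ψ w : H) : Continuous fun t => ⟪R.dU (star (Y t)) ψ, P t w⟫_ℂ := by
  simp only [Rep.inner_dU_left]
  exact continuous_finsetSum _ fun i _ => ((continuous_apply i).comp hY).mul
    (continuous_const.inner (hP w))

variable [CompleteSpace H]

lemma core (hP : ∀ w, Continuous fun t => P t w) (hm : ∀ t, ∀ w ∈ R.Dinf, P t w ∈ R.Dinf)
    {A : (ι → ℝ) → (ι → ℂ) →L[ℂ] (ι → ℂ)} (hA : ContDiff ℝ ∞ A)
    (hd : ∀ w ∈ R.Dinf, ∀ t k, HasLineDerivAt ℝ (fun t => P t w) (R.dU (A t (bv k)) (P t w)) t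
      (Pi.single k 1)) {φ : (ι → ℝ) → ℂ} (h : TT φ) {c : (ι → ℝ) → ι → ℂ} (hc : ContDiff ℝ ∞ c)
    {ψ : H} (hψ : ψ ∈ R.Dinf) (w : H) :
    ⟪ψ, Mf P (DD φ c) w⟫_ℂ = ∫ t, φ t * ⟪R.dU (star (A t (c t))) ψ, P t w⟫_ℂ := by
  have hY : ∀ {c : (ι → ℝ) → ι → ℂ}, ContDiff ℝ ∞ c → ContDiff ℝ ∞ fun t => A t (c t) :=
    fun hc => ((ContinuousLinearMap.restrictScalarsL ℂ (ι → ℂ) (ι → ℂ) ℝ ℝ).contDiff.comp
      hA).clm_apply hc
  refine Dense.induction (P := fun w => ⟪ψ, Mf P (DD φ c) w⟫_ℂ =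
    ∫ t, φ t * ⟪R.dU (star (A t (c t))) ψ, P t w⟫_ℂ) R.dense_Dinf (fun w hw => ?_)
    (isClosed_eq (continuous_const.inner ((h.div hc).cont hP)) ?_) w
  · have h1 := fun k => h.mul (contDiff_pi.1 hc k)
    have hg : Continuous fun t => ⟪ψ, P t w⟫_ℂ := continuous_const.inner (hP w)
    have h2 : ∀ k, Continuous fun t => ⟪R.dU (star (A t (bv k))) ψ, P t w⟫_ℂ := fun k =>
      cont_inner hP (hY contDiff_const).continuous ψ w
    rw [(h.div hc).inner hP]
    simp only [DD, Finset.sum_mul]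
    rw [integral_finsetSum _ fun k _ => ((h1 k).der _).intm hg,
      Finset.sum_congr rfl fun k _ => (h1 k).parts hg (h2 k).fun_neg (v := Pi.single k 1) fun t => by
        rw [Rep.inner_dU' hψ (hm t w hw), neg_neg]
        simpa [HasLineDerivAt] using (hasDerivAt_const (0 : ℝ) ψ).inner ℂ (hd w hw t k)]
    simp only [mul_neg, integral_neg, neg_neg]
    rw [← integral_finsetSum _ fun k _ => (h1 k).intm (h2 k)]
    refine integral_congr_ae (Eventually.of_forall fun t => ?_)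
    beta_reduce
    conv_rhs => rw [← sum_smul_bv (c t)]
    simp only [Rep.inner_dU_left, map_sum, map_smul, Finset.sum_apply, Pi.smul_apply, smul_eq_mul,
      Finset.mul_sum, Finset.sum_mul]
    rw [Finset.sum_comm]
    exact Finset.sum_congr rfl fun _ _ => Finset.sum_congr rfl fun _ _ => by ring
  · have h1 := fun l => h.mul (contDiff_pi.1 (hY hc) l)
    refine (continuous_finsetSum Finset.univ fun l _ =>
      (continuous_const (y := gen (R.E l) ψ)).inner ((h1 l).cont hP)).congr fun w => ?_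
    simp only [fun l => (h1 l).inner hP]
    rw [← integral_finsetSum _ fun l _ => (h1 l).intm (continuous_const.inner (hP w))]
    simp only [Rep.inner_dU_left, Finset.mul_sum, mul_assoc]

omit [DecidableEq ι] in
lemma tendsto_Mf {Q : (ι → ℝ) → H ≃ₗᵢ[ℂ] H} (hQ : ∀ w, Continuous fun t => Q t w)
    (h0 : ∀ w, Q 0 w = w) {ε : ℕ → ℝ} (hε : Tendsto ε atTop (𝓝 0)) {θ : ℕ → (ι → ℝ) → ℂ}
    (hθ : ∀ n, TT (θ n)) {C : ℝ} (hC : ∀ n t, ‖t‖ ≤ 1 → ‖θ n t‖ ≤ C) {c : ℂ}
    (hc : ∀ n, ∫ t, θ n t = c) (w : H) :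
    Tendsto (fun n => Mf (fun t => Q (ε n • t)) (θ n) w) atTop (𝓝 (c • w)) := by
  set V := volume.real (Metric.closedBall (0 : ι → ℝ) 1) with hV
  have hV0 : 0 ≤ V := measureReal_nonneg
  have hC0 : 0 ≤ C := (norm_nonneg _).trans (hC 0 0 (by simp))
  refine Metric.tendsto_nhds.2 fun η hη => ?_
  obtain ⟨δ, hδ, h1⟩ := Metric.continuousAt_iff.1 (hQ w).continuousAt (η / (C * V + 1))
    (by positivity)
  filter_upwards [Metric.tendsto_nhds.1 hε δ hδ] with n hn
  have h2 : Continuous fun t : ι → ℝ => Q (ε n • t) w := (hQ w).comp (continuous_const_smul _)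
  have h3 : Mf (fun t => Q (ε n • t)) (θ n) w - c • w = ∫ t, θ n t • (Q (ε n • t) w - w) := by
    simp only [smul_sub]
    rw [integral_sub ((hθ n).int h2) ((hθ n).int continuous_const), integral_smul_const, hc, Mf]
  rw [dist_eq_norm, h3]
  refine ((hθ n).norm_le (η := η / (C * V + 1)) (hC n) fun t ht => ?_).trans_lt ?_
  · have h4 : dist (ε n • t) 0 < δ := by
      rw [dist_zero_right, norm_smul] at *
      exact (mul_le_of_le_one_right (norm_nonneg _) ht).trans_lt hn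
    have h5 := h1 h4
    rw [h0, dist_eq_norm] at h5
    exact h5.le
  · rw [mul_right_comm, mul_div_assoc', div_lt_iff₀ (by positivity)]
    nlinarith

omit [CompleteSpace H] in
lemma div_bound {φ : (ι → ℝ) → ℂ} (h : TT φ) {W : (ι → ℝ) → ι → ℂ} (hW : ContDiff ℝ ∞ W)
    (h0 : W 0 = 0) : ∃ C, ∀ ε : ℝ, 0 < ε → ε ≤ 1 → ∀ t, ‖t‖ ≤ 1 →
      ‖DD φ (fun t => ε⁻¹ • W (ε • t)) t‖ ≤ C := by
  obtain ⟨C1, h1⟩ := h.bdd
  choose C2 h2 using fun k : ι => (h.der (Pi.single k 1)).bdd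
  obtain ⟨C3, h3⟩ := (isCompact_closedBall (0 : ι → ℝ) 1).exists_bound_of_continuousOn
    (hW.continuous_fderiv (by simp)).continuousOn
  have hd := hW.differentiable (by simp)
  have hC3 : 0 ≤ C3 := (norm_nonneg _).trans (h3 0 (by simp))
  refine ⟨∑ k, (C1 * C3 + C3 * C2 k), fun ε e0 e1 t ht => norm_sum_le_of_le _ fun k _ => ?_⟩
  have h4 : ‖ε • t‖ ≤ ε := by
    rw [norm_smul, Real.norm_of_nonneg e0.le]
    exact mul_le_of_le_one_right e0.le ht
  have h5 : ε • t ∈ Metric.closedBall (0 : ι → ℝ) 1 := mem_closedBall_zero_iff.2 (h4.trans e1)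
  have h6 : ‖ε⁻¹ • W (ε • t)‖ ≤ C3 := by
    have := (convex_closedBall (0 : ι → ℝ) 1).norm_image_sub_le_of_norm_fderiv_le
      (fun x _ => hd x) h3 (by simp : (0 : ι → ℝ) ∈ Metric.closedBall (0 : ι → ℝ) 1) h5
    rw [h0, sub_zero, sub_zero] at this
    rw [norm_smul, norm_inv, Real.norm_of_nonneg e0.le, inv_mul_le_iff₀ e0, mul_comm]
    exact this.trans (mul_le_mul_of_nonneg_left h4 hC3)
  have h7 : HasFDerivAt (fun t => ε⁻¹ • W (ε • t)) (fderiv ℝ W (ε • t)) t := by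
    refine (((hd (ε • t)).hasFDerivAt.comp t ((hasFDerivAt_id t).const_smul ε)).const_smul
      ε⁻¹).congr_fderiv ?_
    ext1 s
    simp [smul_smul, e0.ne']
  have h8 := (h.1.differentiable (by simp) t).hasFDerivAt.mul (hasFDerivAt_pi'.1 h7 k)
  have h9 : pd (fun t => φ t * (ε⁻¹ • W (ε • t)) k) (Pi.single k 1) t =
      φ t * fderiv ℝ W (ε • t) (Pi.single k 1) k +
        (ε⁻¹ • W (ε • t)) k * pd φ (Pi.single k 1) t := by
    rw [pd, show (fun t => φ t * (ε⁻¹ • W (ε • t)) k) = φ * fun t => (ε⁻¹ • W (ε • t)) k from rfl,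
      h8.fderiv]
    rfl
  rw [h9]
  refine norm_add_le_of_le (norm_mul_le_of_le (h1 t) ?_)
    (norm_mul_le_of_le ((norm_le_pi_norm _ k).trans h6) (h2 k t))
  refine (norm_le_pi_norm _ k).trans (((fderiv ℝ W (ε • t)).le_opNorm _).trans ?_)
  rw [Pi.norm_single, norm_one, mul_one]
  exact h3 _ h5

theorem smoothing (R : Rep L H) (X : Type) [NormedAddCommGroup X] [NormedSpace ℝ X] :
    ∃ (C : ℝ) (M : ℕ → H →L[ℂ] H) (N K : ℕ → ι → H →L[ℂ] H),
      (∀ n (g : X → H), ContDiff ℝ ∞ g → (fun x => M n (g x)) ∈ R.Sm) ∧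
      (∀ n i w, gen (R.E i) (M n w) = N n i w) ∧
      (∀ n w (ws : ι → H), (∀ ψ ∈ R.Dinf, ∑ i, ⟪gen (R.E i) ψ, ws i⟫_ℂ = ⟪ψ, w⟫_ℂ) →
        M n w = -∑ i, (N n i (ws i) + K n i (ws i))) ∧
      (∀ n w, ‖M n w‖ ≤ C * ‖w‖) ∧ (∀ n i w, ‖K n i w‖ ≤ C * ‖w‖) ∧
      (∀ w, Tendsto (fun n => M n w) atTop (𝓝 w)) ∧
      ∀ i w, Tendsto (fun n => K n i w) atTop (𝓝 0) := by
  obtain ⟨B, r, hB, hr, hAB⟩ := exists_inv (L := L)
  set l := (Finset.univ : Finset ι).toList with hl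
  set ε : ℕ → ℝ := fun n => min r 1 * (1 / ((n : ℝ) + 1)) with hε
  have e0 : ∀ n, 0 < ε n := fun n => mul_pos (lt_min hr one_pos) Nat.one_div_pos_of_nat
  have e1 : ∀ n, ε n ≤ min r 1 := fun n => mul_le_of_le_one_right (lt_min hr one_pos).le
    (div_le_one_of_le₀ (by simp) (by positivity))
  have e2 : Tendsto ε atTop (𝓝 0) := by
    simpa only [mul_zero] using tendsto_one_div_add_atTop_nhds_zero_nat.const_mul (min r 1)
  set P : ℕ → (ι → ℝ) → H ≃ₗᵢ[ℂ] H := fun n t => Psi R l (ε n • t) with hPd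
  have hP : ∀ n w, Continuous fun t => P n t w := fun n w =>
    (Psi_cont l w).comp (continuous_const_smul _)
  have sc : ∀ n {F : Type} [NormedAddCommGroup F] [NormedSpace ℝ F] {f : (ι → ℝ) → F},
      ContDiff ℝ ∞ f → ContDiff ℝ ∞ fun t => f (ε n • t) := fun n _ _ _ _ hf =>
    hf.comp (contDiff_const_smul _)
  have app : ∀ {A : (ι → ℝ) → (ι → ℂ) →L[ℂ] (ι → ℂ)} {c : (ι → ℝ) → ι → ℂ}, ContDiff ℝ ∞ A →
      ContDiff ℝ ∞ c → ContDiff ℝ ∞ fun t => A t (c t) := fun hA hc =>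
    ((ContinuousLinearMap.restrictScalarsL ℂ (ι → ℂ) (ι → ℂ) ℝ ℝ).contDiff.comp hA).clm_apply hc
  have hc : ∀ n {Y : (ι → ℝ) → ι → ℂ}, ContDiff ℝ ∞ Y →
      ContDiff ℝ ∞ fun t => (ε n)⁻¹ • B (ε n • t) (Y (ε n • t)) := fun n _ hY =>
    (sc n (app hB hY)).const_smul _
  have key : ∀ n {φ : (ι → ℝ) → ℂ}, TT φ → ∀ {Y : (ι → ℝ) → ι → ℂ}, ContDiff ℝ ∞ Y →
      ∀ ψ ∈ R.Dinf, ∀ w, ⟪ψ, Mf (P n) (DD φ fun t => (ε n)⁻¹ • B (ε n • t) (Y (ε n • t))) w⟫_ℂ =
        ∫ t, φ t * ⟪R.dU (star (Y (ε n • t))) ψ, P n t w⟫_ℂ := by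
    intro n φ h Y hY ψ hψ w
    rw [core (hP n) (fun t w hw => Psi_mem l _ hw) (A := fun t => (ε n : ℂ) • Al L l (ε n • t))
      ((sc n (contDiff_Al l)).const_smul _) (fun w hw t k => ?_) h (hc n hY) hψ]
    · refine integral_congr_ae (Eventually.of_forall fun t => ?_)
      by_cases ht : t ∈ Metric.closedBall (0 : ι → ℝ) 1
      · have h1 : ‖ε n • t‖ ≤ r := by
          rw [norm_smul, Real.norm_of_nonneg (e0 n).le]
          exact (mul_le_of_le_one_right (e0 n).le (mem_closedBall_zero_iff.1 ht)).trans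
            ((e1 n).trans (min_le_left _ _))
        have h2 : ((ε n : ℂ) • Al L l (ε n • t)) ((ε n)⁻¹ • B (ε n • t) (Y (ε n • t))) =
            Y (ε n • t) := by
          rw [← Complex.coe_smul, map_smul, smul_apply, smul_smul, ← mul_apply_eq_comp, hAB _ h1,
            ← ofReal_mul, inv_mul_cancel₀ (e0 n).ne']
          simp
        simp only [h2]
      · simp only [h.zero ht, zero_mul]
    · have h1 := Psi_der l (ε n • t) (ε n • (Pi.single k 1 : ι → ℝ)) hw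
      have h2 : (fun i => ((ε n • (Pi.single k 1 : ι → ℝ)) i : ℂ)) = (ε n : ℂ) • bv k := by
        ext i
        by_cases h : i = k <;> simp [bv, h]
      rw [h2, map_smul] at h1
      refine h1.congr_of_eventuallyEq (Eventually.of_forall fun τ => ?_)
      simp only [hPd, smul_add, smul_comm τ]
  have hN : ∀ n {φ : (ι → ℝ) → ℂ}, TT φ → ∀ i w, Dom (R.E i) (Mf (P n) φ w) ∧
      gen (R.E i) (Mf (P n) φ w) =
        Mf (P n) (fun t => -DD φ (fun t => (ε n)⁻¹ • B (ε n • t) (bv i)) t) w := by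
    intro n φ h i w
    refine Rep.weak fun ψ hψ => ?_
    have := key n h (Y := fun _ => bv i) contDiff_const ψ hψ w
    simp only [star_bv, Rep.dU_bv] at this
    rw [h.inner (hP n), ← this]
    simp only [Mf, neg_smul, integral_neg, inner_neg_right]
  let f : ContDiffBump (0 : ι → ℝ) := ⟨1 / 2, 1, by norm_num, by norm_num⟩
  set φ : (ι → ℝ) → ℂ := fun t => (f.normed volume t : ℝ) with hφ
  have h : TT φ := ⟨ofRealCLM.contDiff.comp f.contDiff_normed, closure_minimal (fun t ht => by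
    have : t ∈ Function.support (f.normed volume) := fun h' => ht (by simp [hφ, h'])
    rw [f.support_normed_eq] at this
    exact Metric.ball_subset_closedBall this) Metric.isClosed_closedBall⟩
  have h1 : ∫ t, φ t = 1 := by
    rw [hφ, integral_complex_ofReal, f.integral_normed]; rfl
  set Z : ι → (ι → ℝ) → ι → ℂ := fun i t => bv i - star (Kl L l t (bv i)) with hZ
  have z1 : ∀ i, ContDiff ℝ ∞ (Z i) := fun i => contDiff_const.sub
    ((starL' ℝ : (ι → ℂ) ≃L[ℝ] (ι → ℂ)).contDiff.comp (app (contDiff_Kl l) contDiff_const))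
  choose C2 h2 using fun i => div_bound h (W := fun t => B t (Z i t)) (app hB (z1 i))
    (by simp [hZ, Kl_zero, star_bv])
  obtain ⟨C1, hC1⟩ := h.bdd
  choose M hM using fun n => h.clm (hP n)
  choose N hN' using fun n i => (h.div (hc n (Y := fun _ => bv i) contDiff_const)).neg.clm (hP n)
  choose K hK using fun n i => (h.div (hc n (z1 i))).clm (hP n)
  set V := volume.real (Metric.closedBall (0 : ι → ℝ) 1) with hV
  have hV0 : 0 ≤ V := measureReal_nonneg
  have c1 : 0 ≤ C1 := (norm_nonneg _).trans (hC1 0)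
  have c2 : ∀ i, 0 ≤ C2 i := fun i => (norm_nonneg _).trans (h2 i 1 one_pos le_rfl 0 (by simp))
  have c3 : 0 ≤ ∑ i, C2 i := Finset.sum_nonneg fun i _ => c2 i
  refine ⟨(C1 + ∑ i, C2 i) * V, M, N, K, fun n g hg => ?_, fun n i w => ?_,
    fun n w ws hw => ?_, fun n w => ?_, fun n i w => ?_, fun w => ?_, fun i w => ?_⟩
  · refine ⟨{F | ∃ θ, TT θ ∧ F = fun x => Mf (P n) θ (g x)}, ⟨φ, h, funext fun x => hM n _⟩, ?_⟩
    rintro _ ⟨θ, hθ, rfl⟩
    obtain ⟨T, hT⟩ := hθ.clm (hP n)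
    refine ⟨?_, fun j => ⟨fun x => (hN n hθ j _).1, _,
      (hθ.div (hc n (Y := fun _ => bv j) contDiff_const)).neg, funext fun x => (hN n hθ j _).2⟩⟩
    simp only [← hT]
    exact (T.restrictScalars ℝ).contDiff.comp hg
  · rw [hM, hN', (hN n h i w).2]
  · refine eq_of_dense_inner R.dense_Dinf fun ψ hψ => ?_
    have a1 : ∀ t, ⟪ψ, P n t w⟫_ℂ = ∑ i, (⟪gen (R.E i) ψ, P n t (ws i)⟫_ℂ -
        ⟪R.dU (star (Z i (ε n • t))) ψ, P n t (ws i)⟫_ℂ) := fun t => by
      have b1 := Psi_symm_mem l (ε n • t) hψ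
      have b2 := hw _ b1
      rw [← (P n t).inner_map_map ((Psi R l (ε n • t)).symm ψ)] at b2
      simp only [hPd, LinearIsometryEquiv.apply_symm_apply] at b2 ⊢
      rw [← b2]
      refine Finset.sum_congr rfl fun i _ => ?_
      rw [← (Psi R l (ε n • t)).inner_map_map, ← Rep.dU_bv, Psi_dU l _ b1,
        LinearIsometryEquiv.apply_symm_apply, hZ]
      simp only [star_sub, star_star, star_bv, Rep.dU_sub_left, Rep.dU_bv, inner_sub_left]
      ring
    have a2 : ∀ i, Continuous fun t => ⟪gen (R.E i) ψ, P n t (ws i)⟫_ℂ := fun i =>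
      continuous_const.inner (hP n _)
    have a3 : ∀ i, Continuous fun t => ⟪R.dU (star (Z i (ε n • t))) ψ, P n t (ws i)⟫_ℂ := fun i =>
      cont_inner (hP n) (sc n (z1 i)).continuous ψ _
    rw [hM, h.inner (hP n), inner_neg_right, inner_sum, ← Finset.sum_neg_distrib]
    simp only [a1, Finset.mul_sum]
    rw [integral_finsetSum _ fun i _ => h.intm ((a2 i).fun_sub (a3 i))]
    refine Finset.sum_congr rfl fun i _ => ?_
    simp only [mul_sub]
    rw [integral_sub (h.intm (a2 i)) (h.intm (a3 i)), ← key n h (z1 i) ψ hψ, ← h.inner (hP n),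
      (R.oneP i).skew (Rep.dom_of_mem hψ i) (hN n h i _).1, (hN n h i _).2, inner_add_right, hN', hK]
    ring
  · rw [hM]
    refine (h.norm_le (fun t _ => hC1 t) fun t _ => ((P n t).norm_map w).le).trans ?_
    rw [mul_right_comm]
    gcongr
    linarith
  · rw [hK]
    refine ((h.div (hc n (z1 i))).norm_le (h2 i _ (e0 n) ((e1 n).trans (min_le_right _ _)))
      fun t _ => ((P n t).norm_map w).le).trans ?_
    rw [mul_right_comm]
    gcongr
    linarith [Finset.single_le_sum (fun i _ => c2 i) (Finset.mem_univ i)]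
  · simpa only [hM, one_smul] using tendsto_Mf (Psi_cont l) (Psi_zero l) e2 (fun _ => h)
      (fun _ t _ => hC1 t) (fun _ => h1) w
  · simpa only [hK, zero_smul] using tendsto_Mf (Psi_cont l) (Psi_zero l) e2
      (fun n => h.div (hc n (z1 i))) (fun n => h2 i _ (e0 n) ((e1 n).trans (min_le_right _ _)))
      (fun n => h.integral_div (hc n (z1 i))) w

end Pool.Agent.Lib.MP_e2ef7e_al.Gen.Apx
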