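import Pool.Agent.Lib.MP_e2ef7e_al.H35Horm
import Pool.Agent.Lib.MP_e2ef7e_al.Approx

/-!
The `L²` existence theorem.
-/

open MeasureTheory Complex Set Filter Topology
open scoped ComplexConjugate InnerProductSpace ContDiff ENNReal

noncomputable section

namespace Pool.Agent.Lib.MP_e2ef7e_al.Gen

variable {ι : Type} [Fintype ι] [DecidableEq ι] {L : LieD ι}
  {H : Type} [NormedAddCommGroup H] [InnerProductSpace ℂ H] [CompleteSpace H]
  {X : Type} [NormedAddCommGroup X] [NormedSpace ℝ X] [FiniteDimensional ℝ X]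
  [MeasurableSpace X] [BorelSpace X]

/-- existence theorem -/
theorem hormander (R : Rep L H) (μ : Measure X) [μ.IsAddHaarMeasure] {e : ι → X}
    (hd : HData L e) : ∃ k0 C1 : ℝ, 0 < C1 ∧ ∀ k ≥ k0,
      IntegrableOn (fun x => Real.exp (-(k * hd.φ x))) hd.B μ → ∀ v ∈ R.Dinf, ∃ u : X → H,
        AEStronglyMeasurable u μ ∧
        IntegrableOn (fun x => ‖u x‖ ^ 2 * Real.exp (-(k * hd.φ x))) hd.B μ ∧
        ∫ x in hd.B, ‖u x‖ ^ 2 * Real.exp (-(k * hd.φ x)) ∂μ ≤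
          C1 / k * (∑ i, ‖gen (R.E i) v‖ ^ 2) * ∫ x in hd.B, Real.exp (-(k * hd.φ x)) ∂μ ∧
        ∀ j, R.WEq μ hd.B (fun x => v - u x) (e j) (hd.om j) :=
  Hor.hormander_of (fun hK hU hKU G hG hGK v a ha h hh weak _ hδ =>
    approx R μ hK hU hKU G hG hGK v a ha h hh weak hδ) hd

end Pool.Agent.Lib.MP_e2ef7e_al.Gen
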