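import Mathlib

/-!
One-parameter subgroups of a Lie group.
-/

open Topology Filter Set
open scoped Manifold ContDiff

noncomputable section

set_option backward.isDefEq.respectTransparency false

namespace Pool.Agent.Lib.MP_e2ef7e_al.Gen.LieA

variable {E : Type} [NormedAddCommGroup E] [NormedSpace ℝ E]
  {G : Type} [Group G] [TopologicalSpace G] [ChartedSpace E G] [LieGroup 𝓘(ℝ, E) ∞ G]

theorem lg3 : LieGroup 𝓘(ℝ, E) (minSmoothness ℝ 3) G :=
  LieGroup.of_le (n := ∞) (by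
    rw [minSmoothness_of_isRCLikeNormedField]
    exact ENat.LEInfty.out)

theorem md_mul_left (g x : G) : MDifferentiableAt 𝓘(ℝ, E) 𝓘(ℝ, E) (fun y : G => g * y) x :=
  (contMDiff_mul_left (I := 𝓘(ℝ, E)) (n := ∞) (a := g)).contMDiffAt.mdifferentiableAt (by simp)

theorem field_mul (X : GroupLieAlgebra 𝓘(ℝ, E) G) (g x : G) :
    mfderiv 𝓘(ℝ, E) 𝓘(ℝ, E) (fun y : G => g * y) x (mulInvariantVectorField X x) =
      mulInvariantVectorField X (g * x) := by
  have D : (fun y : G => g * x * y) = (fun y : G => g * y) ∘ (fun y : G => x * y) := by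
    ext y; simp [mul_assoc]
  simp only [mulInvariantVectorField]
  have h1 : HasMFDerivAt 𝓘(ℝ, E) 𝓘(ℝ, E) (fun y : G => g * y) ((fun y : G => x * y) 1)
      (mfderiv 𝓘(ℝ, E) 𝓘(ℝ, E) (fun y : G => g * y) x) := by
    have : (fun y : G => x * y) 1 = x := by simp
    rw [this]
    exact (md_mul_left g x).hasMFDerivAt
  have h3 := (h1.comp 1 (md_mul_left (E := E) x 1).hasMFDerivAt).mfderiv
  rw [D, h3]
  rfl

theorem field_one (X : GroupLieAlgebra 𝓘(ℝ, E) G) : mulInvariantVectorField X (1 : G) = X := by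
  have D : (fun y : G => (1 : G) * y) = id := by ext y; simp
  simp only [mulInvariantVectorField]
  rw [D, mfderiv_id]
  rfl

theorem field_smooth (X : GroupLieAlgebra 𝓘(ℝ, E) G) :
    ContMDiff 𝓘(ℝ, E) 𝓘(ℝ, E).tangent 1
      (fun g : G => (⟨g, mulInvariantVectorField X g⟩ : TangentBundle 𝓘(ℝ, E) G)) := by
  haveI := lg3 (E := E) (G := G)
  exact (contMDiff_mulInvariantVectorField X).of_le
    (le_trans (by norm_num) le_minSmoothness)

theorem curveOn_mul {X : GroupLieAlgebra 𝓘(ℝ, E) G} {c : ℝ → G} {s : Set ℝ}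
    (hc : IsMIntegralCurveOn c (mulInvariantVectorField X) s) (g : G) :
    IsMIntegralCurveOn (fun t => g * c t) (mulInvariantVectorField X) s := by
  intro t ht
  have h1 := (md_mul_left (E := E) g (c t)).hasMFDerivAt.comp_hasMFDerivWithinAt t (hc t ht)
  refine HasMFDerivWithinAt.congr_mfderiv h1 ?_
  ext
  simp only [ContinuousLinearMap.comp_apply, ContinuousLinearMap.smulRight_apply,
    ContinuousLinearMap.one_apply, one_smul]
  exact field_mul X g (c t)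

theorem curve_mul {X : GroupLieAlgebra 𝓘(ℝ, E) G} {c : ℝ → G}
    (hc : IsMIntegralCurve c (mulInvariantVectorField X)) (g : G) :
    IsMIntegralCurve (fun t => g * c t) (mulInvariantVectorField X) := by
  rw [isMIntegralCurve_iff_isMIntegralCurveOn] at *
  exact curveOn_mul hc g

variable [FiniteDimensional ℝ E] [T2Space G]

theorem exists_curve (X : GroupLieAlgebra 𝓘(ℝ, E) G) :
    ∃ c : ℝ → G, c 0 = 1 ∧ IsMIntegralCurve c (mulInvariantVectorField X) := by
  haveI : CompleteSpace E := FiniteDimensional.complete ℝ E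
  obtain ⟨c, hc0, hc⟩ := exists_isMIntegralCurveAt_of_contMDiffAt_boundaryless (t₀ := 0)
    (x₀ := (1 : G)) (field_smooth X).contMDiffAt
  obtain ⟨ε, hε, hc⟩ := isMIntegralCurveAt_iff'.mp hc
  refine exists_isMIntegralCurve_of_isMIntegralCurveOn (field_smooth X) hε (fun g => ?_) 1
  refine ⟨fun t => g * c t, by simp [hc0], ?_⟩
  have : Ioo (-ε) ε = Metric.ball (0 : ℝ) ε := by rw [Real.ball_eq_Ioo]; simp
  rw [this]
  exact curveOn_mul hc g

/-- the one-parameter subgroup generated by `X` -/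
def ex (X : GroupLieAlgebra 𝓘(ℝ, E) G) : ℝ → G := (exists_curve X).choose

theorem ex_zero (X : GroupLieAlgebra 𝓘(ℝ, E) G) : ex X 0 = 1 := (exists_curve X).choose_spec.1

theorem ex_curve (X : GroupLieAlgebra 𝓘(ℝ, E) G) :
    IsMIntegralCurve (ex X) (mulInvariantVectorField X) := (exists_curve X).choose_spec.2

theorem ex_cont (X : GroupLieAlgebra 𝓘(ℝ, E) G) : Continuous (ex X) := (ex_curve X).continuous

theorem ex_unique {X : GroupLieAlgebra 𝓘(ℝ, E) G} {c : ℝ → G} (h0 : c 0 = 1)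
    (hc : IsMIntegralCurve c (mulInvariantVectorField X)) : c = ex X :=
  isMIntegralCurve_Ioo_eq_of_contMDiff_boundaryless (t₀ := 0) (field_smooth X) hc (ex_curve X)
    (by rw [h0, ex_zero])

theorem ex_add (X : GroupLieAlgebra 𝓘(ℝ, E) G) (s t : ℝ) : ex X (s + t) = ex X s * ex X t := by
  have h := isMIntegralCurve_Ioo_eq_of_contMDiff_boundaryless (t₀ := 0) (field_smooth X)
    ((ex_curve X).comp_add s) (curve_mul (ex_curve X) (ex X s)) (by simp [ex_zero])
  have := congrFun h t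
  simpa [add_comm] using this

theorem ex_neg (X : GroupLieAlgebra 𝓘(ℝ, E) G) (t : ℝ) : ex X (-t) = (ex X t)⁻¹ := by
  rw [eq_inv_iff_mul_eq_one, ← ex_add, neg_add_cancel, ex_zero]

theorem ex_smul (a : ℝ) (X : GroupLieAlgebra 𝓘(ℝ, E) G) (t : ℝ) :
    ex (a • X) t = ex X (t * a) := by
  have h := (ex_curve X).comp_mul a
  rw [← mulInvariantVectorField_smul] at h
  have := ex_unique (by simp [ex_zero]) h
  rw [← this]; rfl

theorem ex_vel (X : GroupLieAlgebra 𝓘(ℝ, E) G) :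
    HasMFDerivAt 𝓘(ℝ, ℝ) 𝓘(ℝ, E) (ex X) 0 ((1 : ℝ →L[ℝ] ℝ).smulRight (show E from X)) := by
  have h := ex_curve X 0
  refine HasMFDerivAt.congr_mfderiv h ?_
  congr 1
  have : ∀ g : G, g = 1 → (show E from mulInvariantVectorField X g) = X := by
    intro g hg; subst hg; exact field_one X
  exact this _ (ex_zero X)

/-- a homomorphism of the line with velocity `X` at zero is the one-parameter group of `X` -/
theorem eq_ex_of_hom {X : GroupLieAlgebra 𝓘(ℝ, E) G} {c : ℝ → G}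
    (hadd : ∀ s t, c (s + t) = c s * c t)
    (hv : HasMFDerivAt 𝓘(ℝ, ℝ) 𝓘(ℝ, E) c 0 ((1 : ℝ →L[ℝ] ℝ).smulRight (show E from X))) :
    c = ex X := by
  have h0 : c 0 = 1 := by
    have := hadd 0 0
    simpa using this
  refine ex_unique h0 (fun t => ?_)
  have h1 : HasMFDerivAt 𝓘(ℝ, ℝ) 𝓘(ℝ, ℝ) (fun s : ℝ => s - t) t (ContinuousLinearMap.id ℝ ℝ) := by
    rw [hasMFDerivAt_iff_hasFDerivAt]
    exact (hasFDerivAt_id t).sub_const t
  have h2 : HasMFDerivAt 𝓘(ℝ, ℝ) 𝓘(ℝ, E) c ((fun s : ℝ => s - t) t)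
      ((1 : ℝ →L[ℝ] ℝ).smulRight (show E from X)) := by
    have : (fun s : ℝ => s - t) t = 0 := by simp
    rw [this]
    exact hv
  have h3 := HasMFDerivAt.comp (f := fun s : ℝ => s - t) t h2 h1
  have h4 : HasMFDerivAt 𝓘(ℝ, E) 𝓘(ℝ, E) (fun y : G => c t * y) ((c ∘ fun s : ℝ => s - t) t)
      (mfderiv 𝓘(ℝ, E) 𝓘(ℝ, E) (fun y : G => c t * y) 1) := by
    have : (c ∘ fun s : ℝ => s - t) t = 1 := by simp [h0]
    rw [this]
    exact (md_mul_left (c t) 1).hasMFDerivAt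
  have h5 := h4.comp t h3
  have h6 : ((fun y : G => c t * y) ∘ c ∘ fun s : ℝ => s - t) = c := by
    ext s
    simp only [Function.comp_apply]
    rw [← hadd]; simp
  rw [h6] at h5
  refine HasMFDerivAt.congr_mfderiv h5 ?_
  ext
  simp [mulInvariantVectorField]
  rfl

theorem hom_ex (φ : G →* G) (hφ : MDifferentiableAt 𝓘(ℝ, E) 𝓘(ℝ, E) φ 1)
    (X : GroupLieAlgebra 𝓘(ℝ, E) G) (t : ℝ) :
    φ (ex X t) = ex (show GroupLieAlgebra 𝓘(ℝ, E) G from mfderiv 𝓘(ℝ, E) 𝓘(ℝ, E) φ 1 X) t := by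
  have h : (fun t => φ (ex X t)) =
      ex (show GroupLieAlgebra 𝓘(ℝ, E) G from mfderiv 𝓘(ℝ, E) 𝓘(ℝ, E) φ 1 X) := by
    refine eq_ex_of_hom (fun s t => by rw [ex_add, map_mul]) ?_
    have h4 : HasMFDerivAt 𝓘(ℝ, E) 𝓘(ℝ, E) φ (ex X 0) (mfderiv 𝓘(ℝ, E) 𝓘(ℝ, E) φ 1) := by
      rw [ex_zero]; exact hφ.hasMFDerivAt
    have h5 := h4.comp 0 (ex_vel X)
    refine HasMFDerivAt.congr_mfderiv h5 ?_
    ext
    simp
    rfl
  exact congrFun h t

/-- the adjoint action -/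
def Ad (g : G) : E →L[ℝ] E := mfderiv 𝓘(ℝ, E) 𝓘(ℝ, E) (fun y : G => g * y * g⁻¹) 1

omit [FiniteDimensional ℝ E] [T2Space G] in
theorem conj_smooth (g : G) : ContMDiff 𝓘(ℝ, E) 𝓘(ℝ, E) ∞ (fun y : G => g * y * g⁻¹) :=
  (contMDiff_const.mul contMDiff_id).mul contMDiff_const

theorem conj_ex (g : G) (X : GroupLieAlgebra 𝓘(ℝ, E) G) (t : ℝ) :
    g * ex X t * g⁻¹ = ex (show GroupLieAlgebra 𝓘(ℝ, E) G from Ad (E := E) g X) t := by
  have h := hom_ex (MulAut.conj g).toMonoidHom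
    ((conj_smooth (E := E) g).contMDiffAt.mdifferentiableAt (by simp)) X t
  exact h

omit [FiniteDimensional ℝ E] [T2Space G] in
theorem Ad_mul (g k : G) (Y : E) : Ad (g * k) Y = Ad g (Ad k Y) := by
  have D : (fun y : G => g * k * y * (g * k)⁻¹) =
      (fun y : G => g * y * g⁻¹) ∘ (fun y : G => k * y * k⁻¹) := by
    ext y; simp [mul_assoc]
  have h1 : HasMFDerivAt 𝓘(ℝ, E) 𝓘(ℝ, E) (fun y : G => g * y * g⁻¹)
      ((fun y : G => k * y * k⁻¹) 1) (Ad (E := E) g) := by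
    have : (fun y : G => k * y * k⁻¹) 1 = 1 := by simp
    rw [this]
    exact ((conj_smooth (E := E) g).contMDiffAt.mdifferentiableAt (by simp)).hasMFDerivAt
  have h2 : HasMFDerivAt 𝓘(ℝ, E) 𝓘(ℝ, E) (fun y : G => k * y * k⁻¹) 1 (Ad (E := E) k) :=
    ((conj_smooth (E := E) k).contMDiffAt.mdifferentiableAt (by simp)).hasMFDerivAt
  have h3 := (h1.comp 1 h2).mfderiv
  rw [← D] at h3
  have : Ad (E := E) (g * k) = (Ad (E := E) g).comp (Ad (E := E) k) := h3
  rw [this]; rfl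

omit [FiniteDimensional ℝ E] [T2Space G] in
theorem Ad_one (Y : E) : Ad (1 : G) Y = Y := by
  have D : (fun y : G => (1 : G) * y * (1 : G)⁻¹) = id := by ext y; simp
  unfold Ad
  rw [D, mfderiv_id]
  rfl

end Pool.Agent.Lib.MP_e2ef7e_al.Gen.LieA
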