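import Pool.Agent.Lib.MP_e2ef7e_al.LieA1

/-!
The group law in the chart at the identity; the derivative of the adjoint action.
-/

open Topology Filter Set
open scoped Manifold ContDiff

noncomputable section

set_option backward.isDefEq.respectTransparency false

namespace Pool.Agent.Lib.MP_e2ef7e_al.Gen.LieA

section Calc

variable {E : Type} [NormedAddCommGroup E] [NormedSpace ℝ E]

theorem d2_eq {F : Type} [NormedAddCommGroup F] [NormedSpace ℝ F] {μ : E × E → F} {x y : E}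
    (h : DifferentiableAt ℝ μ (x, y)) (Y : E) :
    fderiv ℝ (fun y => μ (x, y)) y Y = fderiv ℝ μ (x, y) (0, Y) := by
  have := (h.hasFDerivAt.comp y (hasFDerivAt_prodMk_right x y)).fderiv
  have h2 : fderiv ℝ (fun y => μ (x, y)) y = _ := this
  rw [h2]; simp

theorem d1_eq {F : Type} [NormedAddCommGroup F] [NormedSpace ℝ F] {μ : E × E → F} {x y : E}
    (h : DifferentiableAt ℝ μ (x, y)) (X : E) :
    fderiv ℝ (fun x => μ (x, y)) x X = fderiv ℝ μ (x, y) (X, 0) := by
  have := (HasFDerivAt.comp (f := fun x : E => (x, y)) x h.hasFDerivAt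
    (hasFDerivAt_prodMk_left x y)).fderiv
  have h2 : fderiv ℝ (fun x => μ (x, y)) x = _ := this
  rw [h2]; simp

theorem tend_left (e : E) : Tendsto (fun x : E => (x, e)) (𝓝 e) (𝓝 (e, e)) :=
  (continuous_id.prodMk continuous_const).tendsto' _ _ rfl

theorem tend_right (e : E) : Tendsto (fun x : E => (e, x)) (𝓝 e) (𝓝 (e, e)) :=
  (continuous_const.prodMk continuous_id).tendsto' _ _ rfl

theorem calc_bracket {μ κ : E × E → E} {e : E} (hμ : ContDiffAt ℝ ∞ μ (e, e))
    (hκ : ContDiffAt ℝ ∞ κ (e, e)) (h1 : ∀ᶠ x in 𝓝 e, μ (x, e) = x)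
    (h2 : ∀ᶠ y in 𝓝 e, μ (e, y) = y) (h3 : ∀ᶠ p in 𝓝 (e, e), μ p = μ (κ p, p.1))
    (h4 : ∀ᶠ x in 𝓝 e, κ (x, e) = e) (h5 : ∀ᶠ y in 𝓝 e, κ (e, y) = y) (X Y : E) :
    fderiv ℝ (fun x => fderiv ℝ (fun y => κ (x, y)) e) e X Y =
      VectorField.lieBracket ℝ (fun x => fderiv ℝ (fun y => μ (x, y)) e X)
        (fun x => fderiv ℝ (fun y => μ (x, y)) e Y) e := by
  set D := fderiv ℝ μ with hDdef
  set A : E → E →L[ℝ] E := fun x => fderiv ℝ (fun y => κ (x, y)) e with hAdef
  have hD : HasFDerivAt D (fderiv ℝ D (e, e)) (e, e) :=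
    ((hμ.fderiv_right (m := 1) (by norm_cast)).differentiableAt (by simp)).hasFDerivAt
  set B := fderiv ℝ D (e, e) with hB
  have hA : HasFDerivAt A (fderiv ℝ A e) e := by
    have : ContDiffAt ℝ 1 A e :=
      ContDiffAt.fderiv (f := fun x y => κ (x, y)) (g := fun _ => e) (n := ∞) hκ
        contDiffAt_const (by norm_cast)
    exact (this.differentiableAt (by simp)).hasFDerivAt
  have hμ1 : ContDiffAt ℝ 1 μ (e, e) := hμ.of_le (by norm_cast)
  have hκ1 : ContDiffAt ℝ 1 κ (e, e) := hκ.of_le (by norm_cast)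
  have hμev : ∀ᶠ p in 𝓝 (e, e), DifferentiableAt ℝ μ p :=
    (hμ1.eventually (by simp)).mono fun p hp => hp.differentiableAt (by simp)
  have hκev : ∀ᶠ p in 𝓝 (e, e), DifferentiableAt ℝ κ p :=
    (hκ1.eventually (by simp)).mono fun p hp => hp.differentiableAt (by simp)
  have hV : ∀ Z : E, (fun x => fderiv ℝ (fun y => μ (x, y)) e Z) =ᶠ[𝓝 e]
      fun x => D (x, e) (0, Z) := fun Z =>
    ((tend_left e).eventually hμev).mono fun x hx => d2_eq hx Z
  have hVd : ∀ Z : E, HasFDerivAt (fun x => D (x, e) (0, Z))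
      ((B.comp (ContinuousLinearMap.inl ℝ E E)).flip (0, Z)) e := by
    intro Z
    have h := (HasFDerivAt.comp (f := fun x : E => (x, e)) e hD
      (hasFDerivAt_prodMk_left e e)).clm_apply (hasFDerivAt_const ((0 : E), Z) e)
    refine h.congr_fderiv ?_
    ext; simp
  have hVe : ∀ Z : E, fderiv ℝ (fun y => μ (e, y)) e Z = Z := by
    intro Z
    have : (fun y => μ (e, y)) =ᶠ[𝓝 e] id := h2
    rw [this.fderiv_eq]; simp
  have hD1 : ∀ Z : E, D (e, e) (Z, 0) = Z := by
    intro Z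
    rw [← d1_eq hμev.self_of_nhds]
    have : (fun x => μ (x, e)) =ᶠ[𝓝 e] id := h1
    rw [this.fderiv_eq]; simp
  have hAe : ∀ Z : E, A e Z = Z := by
    intro Z
    have : (fun y => κ (e, y)) =ᶠ[𝓝 e] id := h5
    simp only [hAdef]
    rw [this.fderiv_eq]; simp
  have key : (fun x => D (x, e) (0, Y)) =ᶠ[𝓝 e] fun x => D (e, x) (A x Y, 0) := by
    filter_upwards [(tend_left e).eventually hμev, (tend_right e).eventually hμev,
      (tend_left e).eventually hκev, (tend_left e).eventually h3.eventually_nhds, h4]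
      with x a1 a2 a3 a4 a5
    rw [← d2_eq a1]
    have b1 : (fun y => μ (x, y)) =ᶠ[𝓝 e] fun y => μ (κ (x, y), x) :=
      ((continuous_const.prodMk continuous_id).tendsto' e (x, e) rfl).eventually a4
    rw [b1.fderiv_eq]
    have b2 : HasFDerivAt (fun y => κ (x, y)) (A x) e :=
      (a3.comp e (hasFDerivAt_prodMk_right x e).differentiableAt).hasFDerivAt
    have b3 := b2.prodMk (hasFDerivAt_const x e)
    have b4 : HasFDerivAt μ (D (e, x)) ((fun y => (κ (x, y), x)) e) := by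
      simp only [a5]; exact a2.hasFDerivAt
    have b5 := (HasFDerivAt.comp (f := fun y => (κ (x, y), x)) e b4 b3).fderiv
    have b6 : fderiv ℝ (fun y => μ (κ (x, y), x)) e = _ := b5
    rw [b6]; simp
  have hR : HasFDerivAt (fun x => D (e, x) (A x Y, 0))
      ((D (e, e)).comp (((fderiv ℝ A e).flip Y).prod 0) +
        (B.comp (ContinuousLinearMap.inr ℝ E E)).flip (A e Y, 0)) e := by
    have c1 := HasFDerivAt.comp (f := fun x : E => (e, x)) e hD (hasFDerivAt_prodMk_right e e)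
    have c2 := (hA.clm_apply (hasFDerivAt_const Y e)).prodMk (hasFDerivAt_const (0 : E) e)
    refine (c1.clm_apply c2).congr_fderiv ?_
    ext <;> simp
  have hEq := ((hVd Y).congr_of_eventuallyEq key.symm).unique hR
  have hEqX := congrArg (fun T : E →L[ℝ] E => T X) hEq
  simp only [ContinuousLinearMap.flip_apply, ContinuousLinearMap.comp_apply,
    ContinuousLinearMap.inl_apply, ContinuousLinearMap.add_apply, ContinuousLinearMap.prod_apply,
    ContinuousLinearMap.zero_apply, ContinuousLinearMap.inr_apply, hD1, hAe] at hEqX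
  have hs : B (0, X) (Y, 0) = B (Y, 0) (0, X) :=
    hμ.isSymmSndFDerivAt (by rw [minSmoothness_of_isRCLikeNormedField]; norm_cast) _ _
  simp only [VectorField.lieBracket, (hV X).fderiv_eq, (hV Y).fderiv_eq, (hVd X).fderiv,
    (hVd Y).fderiv, hVe, ContinuousLinearMap.flip_apply, ContinuousLinearMap.comp_apply,
    ContinuousLinearMap.inl_apply]
  rw [hEqX, hs]; abel

end Calc

variable {E : Type} [NormedAddCommGroup E] [NormedSpace ℝ E]
  {G : Type} [Group G] [TopologicalSpace G] [ChartedSpace E G] [LieGroup 𝓘(ℝ, E) ∞ G]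

variable (E G) in
/-- the chart at the identity -/
abbrev chP : PartialEquiv G E := extChartAt 𝓘(ℝ, E) (1 : G)

variable (E G) in
/-- the image of the identity -/
abbrev e0 : E := chP E G 1

omit [LieGroup 𝓘(ℝ, E) ∞ G] in
theorem ic_e0 : (chP E G).symm (e0 E G) = 1 := extChartAt_to_inv 1

omit [LieGroup 𝓘(ℝ, E) ∞ G] in
theorem ev_source : ∀ᶠ g in 𝓝 (1 : G), g ∈ (chP E G).source := extChartAt_source_mem_nhds 1

omit [LieGroup 𝓘(ℝ, E) ∞ G] in
theorem ev_target : ∀ᶠ x in 𝓝 (e0 E G), x ∈ (chP E G).target := extChartAt_target_mem_nhds 1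

theorem ch_smooth {g : G} (hg : g ∈ (chP E G).source) :
    ContMDiffAt 𝓘(ℝ, E) 𝓘(ℝ, E) ∞ (chP E G) g :=
  contMDiffAt_extChartAt' (by rwa [extChartAt_source] at hg)

theorem ic_smooth {x : E} (hx : x ∈ (chP E G).target) :
    ContMDiffAt 𝓘(ℝ, E) 𝓘(ℝ, E) ∞ (chP E G).symm x :=
  (contMDiffOn_extChartAt_symm (1 : G)).contMDiffAt
    ((isOpen_extChartAt_target (1 : G)).mem_nhds hx)

omit [LieGroup 𝓘(ℝ, E) ∞ G] in
theorem ic_tend : Tendsto (chP E G).symm (𝓝 (e0 E G)) (𝓝 1) := by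
  have := (continuousAt_extChartAt_symm (I := 𝓘(ℝ, E)) (1 : G)).tendsto
  rwa [extChartAt_to_inv] at this

omit [LieGroup 𝓘(ℝ, E) ∞ G] in
theorem mfderiv_one {F : Type} [NormedAddCommGroup F] [NormedSpace ℝ F] {f : G → F}
    (hf : MDifferentiableAt 𝓘(ℝ, E) 𝓘(ℝ, F) f 1) :
    (mfderiv 𝓘(ℝ, E) 𝓘(ℝ, F) f 1 : E →L[ℝ] F) =
      fderiv ℝ (fun y => f ((chP E G).symm y)) (e0 E G) := by
  rw [hf.mfderiv]
  simp only [writtenInExtChartAt, modelWithCornersSelf_coe, range_id, fderivWithin_univ,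
    extChartAt_model_space_eq_id, PartialEquiv.refl_coe, Function.id_comp]
  rfl

omit [LieGroup 𝓘(ℝ, E) ∞ G] in
theorem mfderiv_one_one {f : G → G} (h1 : f 1 = 1)
    (hf : MDifferentiableAt 𝓘(ℝ, E) 𝓘(ℝ, E) f 1) :
    (mfderiv 𝓘(ℝ, E) 𝓘(ℝ, E) f 1 : E →L[ℝ] E) =
      fderiv ℝ (fun y => chP E G (f ((chP E G).symm y))) (e0 E G) := by
  rw [hf.mfderiv]
  simp only [writtenInExtChartAt, modelWithCornersSelf_coe, range_id, fderivWithin_univ, h1]
  rfl

variable (E G) in
/-- the product in the chart -/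
def muC (p : E × E) : E := chP E G ((chP E G).symm p.1 * (chP E G).symm p.2)

variable (E G) in
/-- conjugation in the chart -/
def kaC (p : E × E) : E :=
  chP E G ((chP E G).symm p.1 * (chP E G).symm p.2 * ((chP E G).symm p.1)⁻¹)

theorem ic_fst : ContMDiffAt 𝓘(ℝ, E × E) 𝓘(ℝ, E) ∞ (fun p : E × E => (chP E G).symm p.1)
    (e0 E G, e0 E G) :=
  ContMDiffAt.comp (f := fun p : E × E => p.1) (e0 E G, e0 E G)
    (ic_smooth (mem_extChartAt_target (1 : G))) contDiffAt_fst.contMDiffAt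

theorem ic_snd : ContMDiffAt 𝓘(ℝ, E × E) 𝓘(ℝ, E) ∞ (fun p : E × E => (chP E G).symm p.2)
    (e0 E G, e0 E G) :=
  ContMDiffAt.comp (f := fun p : E × E => p.2) (e0 E G, e0 E G)
    (ic_smooth (mem_extChartAt_target (1 : G))) contDiffAt_snd.contMDiffAt

theorem mu_smooth : ContDiffAt ℝ ∞ (muC E G) (e0 E G, e0 E G) := by
  have h := ContMDiffAt.comp
    (f := fun p : E × E => (chP E G).symm p.1 * (chP E G).symm p.2) (e0 E G, e0 E G)
    (ch_smooth (by simp only [ic_e0, mul_one]; exact mem_extChartAt_source 1))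
    ((ic_fst (E := E) (G := G)).mul ic_snd)
  exact h.contDiffAt

theorem ka_smooth : ContDiffAt ℝ ∞ (kaC E G) (e0 E G, e0 E G) := by
  have h := ContMDiffAt.comp
    (f := fun p : E × E => (chP E G).symm p.1 * (chP E G).symm p.2 * ((chP E G).symm p.1)⁻¹)
    (e0 E G, e0 E G)
    (ch_smooth (by simp only [ic_e0, mul_one, inv_one]; exact mem_extChartAt_source 1))
    (((ic_fst (E := E) (G := G)).mul ic_snd).mul ic_fst.inv)
  exact h.contDiffAt

omit [LieGroup 𝓘(ℝ, E) ∞ G] in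
theorem mu_left : ∀ᶠ x in 𝓝 (e0 E G), muC E G (x, e0 E G) = x :=
  ev_target.mono fun x hx => by
    simp only [muC, ic_e0, mul_one]; exact (chP E G).right_inv hx

omit [LieGroup 𝓘(ℝ, E) ∞ G] in
theorem mu_right : ∀ᶠ x in 𝓝 (e0 E G), muC E G (e0 E G, x) = x :=
  ev_target.mono fun x hx => by
    simp only [muC, ic_e0, one_mul]; exact (chP E G).right_inv hx

theorem mu_ka : ∀ᶠ p in 𝓝 (e0 E G, e0 E G), muC E G p = muC E G (kaC E G p, p.1) := by
  have h := (((ic_fst (E := E) (G := G)).mul ic_snd).mul ic_fst.inv).continuousAt.tendsto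
  simp only [Pi.mul_apply, ic_e0, mul_one, inv_one] at h
  filter_upwards [h.eventually (ev_source (E := E))] with p hp
  simp only [muC, kaC]
  have hp' : (chP E G).symm p.1 * (chP E G).symm p.2 * ((chP E G).symm p.1)⁻¹ ∈
    (chP E G).source := hp
  rw [(chP E G).left_inv hp', inv_mul_cancel_right]

theorem bracket_chart (X Y : GroupLieAlgebra 𝓘(ℝ, E) G) :
    (⁅X, Y⁆ : GroupLieAlgebra 𝓘(ℝ, E) G) =
      VectorField.lieBracket ℝ (fun x => fderiv ℝ (fun y => muC E G (x, y)) (e0 E G) X)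
        (fun x => fderiv ℝ (fun y => muC E G (x, y)) (e0 E G) Y) (e0 E G) := by
  have hV : ∀ Z : GroupLieAlgebra 𝓘(ℝ, E) G,
      (VectorField.mpullbackWithin 𝓘(ℝ, E) 𝓘(ℝ, E) (chP E G).symm (mulInvariantVectorField Z)
        (range 𝓘(ℝ, E)) : E → E) =ᶠ[𝓝 (e0 E G)]
      fun x => fderiv ℝ (fun y => muC E G (x, y)) (e0 E G) Z := by
    intro Z
    filter_upwards [ev_target (E := E) (G := G)] with x hx
    have hs : (chP E G).symm x ∈ (chP E G).source := (chP E G).map_target hx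
    rw [VectorField.mpullbackWithin_apply, ContinuousLinearMap.inverse_eq
      (mfderivWithin_extChartAt_symm_comp_mfderiv_extChartAt hx)
      (mfderiv_extChartAt_comp_mfderivWithin_extChartAt_symm hx)]
    have h1 : HasMFDerivAt 𝓘(ℝ, E) 𝓘(ℝ, E) (chP E G) ((fun y : G => (chP E G).symm x * y) 1)
        (mfderiv 𝓘(ℝ, E) 𝓘(ℝ, E) (chP E G) ((chP E G).symm x)) := by
      have : (fun y : G => (chP E G).symm x * y) 1 = (chP E G).symm x := by simp
      rw [this]
      exact ((ch_smooth hs).mdifferentiableAt (by simp)).hasMFDerivAt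
    have h2 := h1.comp 1 (md_mul_left (E := E) ((chP E G).symm x) 1).hasMFDerivAt
    have h3 := mfderiv_one h2.mdifferentiableAt
    rw [h2.mfderiv] at h3
    exact congrArg (fun T : E →L[ℝ] E => T Z) h3
  rw [GroupLieAlgebra.bracket_def, VectorField.mlieBracket, VectorField.mlieBracketWithin_apply,
    mfderiv_extChartAt_self, ContinuousLinearMap.inverse_id]
  have : (extChartAt 𝓘(ℝ, E) (1 : G)).symm ⁻¹' univ ∩ range 𝓘(ℝ, E) = univ := by simp
  rw [this, VectorField.lieBracketWithin_univ]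
  exact (hV X).lieBracket_vectorField_eq (hV Y)

theorem Ad_chart {g : G} (hg : g ∈ (chP E G).source) :
    Ad g = fderiv ℝ (fun y => kaC E G (chP E G g, y)) (e0 E G) := by
  unfold Ad
  rw [mfderiv_one_one (by simp)
    ((conj_smooth (E := E) g).contMDiffAt.mdifferentiableAt (by simp))]
  simp only [kaC, (chP E G).left_inv hg]

variable [FiniteDimensional ℝ E] [T2Space G]

theorem ex_tend (X : GroupLieAlgebra 𝓘(ℝ, E) G) : Tendsto (ex X) (𝓝 0) (𝓝 1) :=
  (ex_cont X).tendsto' _ _ (ex_zero X)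

theorem ex_chart (X : GroupLieAlgebra 𝓘(ℝ, E) G) :
    HasDerivAt (fun t => chP E G (ex X t)) (show E from X) 0 := by
  have h1 : HasMFDerivAt 𝓘(ℝ, E) 𝓘(ℝ, E) (chP E G) (ex X 0) (ContinuousLinearMap.id ℝ E) := by
    rw [ex_zero]
    exact HasMFDerivAt.congr_mfderiv
      ((ch_smooth (mem_extChartAt_source 1)).mdifferentiableAt (by simp)).hasMFDerivAt
      (mfderiv_extChartAt_self (I := 𝓘(ℝ, E)) (x := (1 : G)))
  have h2 := h1.comp 0 (ex_vel X)
  rw [hasMFDerivAt_iff_hasFDerivAt] at h2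
  have h3 := h2.hasDerivAt
  refine HasDerivAt.congr_deriv h3 ?_
  exact one_smul ℝ (show E from X)

theorem Ad_deriv_zero (X Y : GroupLieAlgebra 𝓘(ℝ, E) G) :
    HasDerivAt (fun t => Ad (E := E) (ex X t) Y)
      (show E from (⁅X, Y⁆ : GroupLieAlgebra 𝓘(ℝ, E) G)) 0 := by
  set A : E → E →L[ℝ] E := fun x => fderiv ℝ (fun y => kaC E G (x, y)) (e0 E G) with hAdef
  have hA : HasFDerivAt A (fderiv ℝ A (e0 E G)) (chP E G (ex X 0)) := by
    have : ContDiffAt ℝ 1 A (e0 E G) :=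
      ContDiffAt.fderiv (f := fun x y => kaC E G (x, y)) (g := fun _ => e0 E G) (n := ∞)
        ka_smooth contDiffAt_const (by norm_cast)
    rw [ex_zero]
    exact (this.differentiableAt (by simp)).hasFDerivAt
  have h1 := (hA.comp_hasDerivAt (0 : ℝ) (ex_chart X)).clm_apply
    (hasDerivAt_const (0 : ℝ) (show E from Y))
  have h2 := calc_bracket (mu_smooth (E := E) (G := G)) ka_smooth mu_left mu_right mu_ka
    (Eventually.of_forall fun x => by simp only [kaC, ic_e0, mul_one, mul_inv_cancel])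
    (ev_target.mono fun x hx => by
      simp only [kaC, ic_e0, one_mul, inv_one, mul_one]; exact (chP E G).right_inv hx) X Y
  rw [bracket_chart, ← h2]
  have h3 : (fun t => Ad (E := E) (ex X t) Y) =ᶠ[𝓝 0] fun t => A (chP E G (ex X t)) Y := by
    filter_upwards [(ex_tend X).eventually (ev_source (E := E))] with t ht
    rw [Ad_chart ht]
  refine HasDerivAt.congr_of_eventuallyEq ?_ h3
  simpa using h1

theorem Ad_deriv (X Y : GroupLieAlgebra 𝓘(ℝ, E) G) (t : ℝ) :
    HasDerivAt (fun t => Ad (E := E) (ex X t) Y)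
      (show E from (⁅X, (show GroupLieAlgebra 𝓘(ℝ, E) G from Ad (E := E) (ex X t) Y)⁆ :
        GroupLieAlgebra 𝓘(ℝ, E) G)) t := by
  have h := Ad_deriv_zero X (show GroupLieAlgebra 𝓘(ℝ, E) G from Ad (E := E) (ex X t) Y)
  have h0 : t - t = 0 := sub_self t
  rw [← h0] at h
  have h2 := h.comp_sub_const t t
  refine HasDerivAt.congr_of_eventuallyEq h2 (Eventually.of_forall fun s => ?_)
  simp only
  rw [← Ad_mul, ← ex_add, sub_add_cancel]

end Pool.Agent.Lib.MP_e2ef7e_al.Gen.LieA
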