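import Pool.Agent.Lib.MP_e2ef7e_al.GDefs

/-!
Coordinates on a three-graded real Lie algebra and the complexified bracket.
-/

open Topology Filter Set

noncomputable section

namespace Pool.Agent.Lib.MP_e2ef7e_al.Gen.LieA

theorem ode_uniq {W : Type} [NormedAddCommGroup W] [NormedSpace ℝ W] (B : W → W) {K : NNReal}
    (hB : LipschitzWith K B) {u v : ℝ → W} (hu : ∀ t, HasDerivAt u (B (u t)) t)
    (hv : ∀ t, HasDerivAt v (B (v t)) t) (h0 : u 0 = v 0) : u = v :=
  ODE_solution_unique_univ (v := fun _ => B) (s := fun _ => univ) (K := K) (t₀ := 0)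
    (fun _ => hB.lipschitzOnWith) (fun t => ⟨hu t, trivial⟩) (fun t => ⟨hv t, trivial⟩) h0

section Cx

variable {ι : Type} [Fintype ι] [DecidableEq ι] {E : Type} [AddCommGroup E] [Module ℝ E]
  (β : E →ₗ[ℝ] E →ₗ[ℝ] E) (X : ι → E) (κ : E →ₗ[ℝ] (ι → ℝ))

/-- real vectors as complex vectors -/
def up (w : ι → ℝ) : ι → ℂ := fun l => (w l : ℂ)

/-- the vector with given coordinates -/
def pr (w : ι → ℝ) : E := ∑ l, w l • X l

/-- the complexified bracket -/
def brC : (ι → ℂ) →L[ℂ] (ι → ℂ) →L[ℂ] (ι → ℂ) :=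
  ∑ i, ∑ j, (ContinuousLinearMap.proj i : (ι → ℂ) →L[ℂ] ℂ).smulRight
    ((ContinuousLinearMap.proj j : (ι → ℂ) →L[ℂ] ℂ).smulRight (up (κ (β (X i) (X j)))))

omit [DecidableEq ι] in
theorem brC_apply (x y : ι → ℂ) (l : ι) :
    brC β X κ x y l = ∑ i, ∑ j, x i * (y j * (κ (β (X i) (X j)) l : ℂ)) := by
  simp [brC, ContinuousLinearMap.sum_apply, Finset.sum_apply, up]

omit [DecidableEq ι] in
theorem brC_up (w w' : ι → ℝ) :
    brC β X κ (up w) (up w') = up (κ (β (pr X w) (pr X w'))) := by
  ext l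
  rw [brC_apply]
  simp only [up, pr, map_sum, map_smul, LinearMap.sum_apply, LinearMap.smul_apply,
    Finset.sum_apply, Pi.smul_apply, smul_eq_mul, Complex.ofReal_sum, Complex.ofReal_mul,
    Finset.mul_sum]
  rw [Finset.sum_comm]
  refine Finset.sum_congr rfl fun j _ => Finset.sum_congr rfl fun i _ => ?_
  ring

omit [Fintype ι] in
theorem bv_up (i : ι) : bv i = up (Pi.single i (1 : ℝ)) := by
  ext l
  by_cases h : l = i
  · subst h; simp [bv, up]
  · simp [bv, up, h]

theorem pr_single (i : ι) : pr X (Pi.single i (1 : ℝ)) = X i := by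
  simp [pr, Pi.single_apply]

omit [Fintype ι] [DecidableEq ι] in
theorem up_add (w w' : ι → ℝ) : up (w + w') = up w + up w' := by ext l; simp [up]

omit [Fintype ι] [DecidableEq ι] in
theorem up_neg (w : ι → ℝ) : up (-w) = -up w := by ext l; simp [up]

theorem lin_ind {P : (ι → ℂ) → Prop} (h0 : P 0) (hadd : ∀ x y, P x → P y → P (x + y))
    (hs : ∀ (c : ℂ) x, P x → P (c • x)) (hb : ∀ i, P (bv i)) (x : ι → ℂ) : P x := by
  rw [pi_eq_sum_univ' x]
  exact Finset.sum_induction _ P hadd h0 fun i _ => hs _ _ (hb i)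

/-- the complexified Lie algebra -/
def lieC (anti : ∀ x, β x x = 0) (jac : ∀ x y z, β x (β y z) = β (β x y) z + β y (β x z))
    (hκ : ∀ Y, pr X (κ Y) = Y) : LieD ι where
  br := brC β X κ
  anti := by
    have sk : ∀ a b, β a b = -β b a := by
      intro a b
      have := anti (a + b)
      simp only [map_add, LinearMap.add_apply, anti, zero_add, add_zero] at this
      exact eq_neg_of_add_eq_zero_right this
    have h : ∀ x y, brC β X κ x y = -brC β X κ y x := by
      intro x y
      ext l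
      rw [Pi.neg_apply, brC_apply, brC_apply, Finset.sum_comm, ← Finset.sum_neg_distrib]
      refine Finset.sum_congr rfl fun j _ => ?_
      rw [← Finset.sum_neg_distrib]
      refine Finset.sum_congr rfl fun i _ => ?_
      rw [sk (X i) (X j)]
      simp only [map_neg, Pi.neg_apply, Complex.ofReal_neg]
      ring
    intro x
    have h2 : (2 : ℂ) • brC β X κ x x = 0 := by
      rw [two_smul]
      nth_rewrite 1 [h x x]
      simp
    simpa using h2
  jac := by
    intro x y z
    induction x using lin_ind with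
    | h0 => simp
    | hadd a b ha hb => simp only [map_add, ContinuousLinearMap.add_apply, ha, hb]; abel
    | hs c a ha => simp only [map_smul, ContinuousLinearMap.smul_apply, ha, smul_add]
    | hb i =>
      induction y using lin_ind with
      | h0 => simp
      | hadd a b ha hb => simp only [map_add, ContinuousLinearMap.add_apply, ha, hb]; abel
      | hs c a ha => simp only [map_smul, ContinuousLinearMap.smul_apply, ha, smul_add]
      | hb j =>
        induction z using lin_ind with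
        | h0 => simp
        | hadd a b ha hb => simp only [map_add, ha, hb]; abel
        | hs c a ha => simp only [map_smul, ha, smul_add]
        | hb k =>
          simp only [bv_up, brC_up, hκ]
          rw [jac, map_add, up_add]
  real := by
    intro x y
    ext l
    rw [Pi.star_apply, brC_apply, brC_apply]
    simp

end Cx

theorem exp_coords {ι : Type} [Fintype ι] [DecidableEq ι] {E : Type} [NormedAddCommGroup E]
    [NormedSpace ℝ E] [FiniteDimensional ℝ E] (β : E →ₗ[ℝ] E →ₗ[ℝ] E) (X : ι → E)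
    (κ : E →ₗ[ℝ] (ι → ℝ)) (hκ : ∀ Y, pr X (κ Y) = Y) (i j : ι) (u : ℝ → E) (h0 : u 0 = X j)
    (hu : ∀ t, HasDerivAt u (β (X i) (u t)) t) (t : ℝ) :
    ∃ w : ι → ℝ, u t = ∑ l, w l • X l ∧
      ∀ l, NormedSpace.exp ((t : ℂ) • brC β X κ (bv i)) (bv j) l = (w l : ℂ) := by
  set P : (ι → ℝ) →L[ℝ] E := LinearMap.toContinuousLinearMap (Fintype.linearCombination ℝ X)
    with hP
  have hPa : ∀ w, P w = pr X w := fun w => by simp [hP, pr, Fintype.linearCombination_apply]
  set M : (ι → ℝ) →L[ℝ] (ι → ℝ) :=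
    (LinearMap.toContinuousLinearMap (κ ∘ₗ β (X i))).comp P with hM
  have hMa : ∀ w, M w = κ (β (X i) (pr X w)) := fun w => by simp [hM, hPa]
  set b : ℝ → ι → ℝ := fun t => NormedSpace.exp (t • M) (Pi.single j 1) with hb
  have hbd : ∀ t, HasDerivAt b (M (b t)) t := by
    intro t
    have := (hasDerivAt_exp_smul_const' M t).clm_apply (hasDerivAt_const t (Pi.single j (1 : ℝ)))
    simpa using this
  have hb0 : b 0 = Pi.single j 1 := by simp [hb]
  set B := brC β X κ (bv i) with hB
  have ha : ∀ t : ℝ, HasDerivAt (fun t : ℝ => NormedSpace.exp ((t : ℂ) • B) (bv j))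
      (B (NormedSpace.exp ((t : ℂ) • B) (bv j))) t := by
    intro t
    have h1 := (hasDerivAt_exp_smul_const' B (t : ℂ)).clm_apply (hasDerivAt_const (t : ℂ) (bv j))
    have h2 := (h1.complexToReal_fderiv'.comp t Complex.ofRealCLM.hasFDerivAt).hasDerivAt
    refine HasDerivAt.congr_deriv h2 ?_
    simp [-Complex.coe_smul]
  have hup : ∀ t, HasDerivAt (fun t => up (b t)) (B (up (b t))) t := by
    intro t
    rw [hB, bv_up, brC_up, pr_single, ← hMa]
    exact hasDerivAt_pi.mpr fun l => (hasDerivAt_pi.mp (hbd t) l).ofReal_comp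
  have e1 := ode_uniq B B.lipschitz ha hup (by
    have hz : ((0 : ℝ) : ℂ) • B = 0 := by ext; simp
    simp only [hz, NormedSpace.exp_zero, hb0, bv_up]
    rfl)
  have hpr : ∀ t, HasDerivAt (fun t => P (b t)) (β (X i) (P (b t))) t := by
    intro t
    have := P.hasFDerivAt.comp_hasDerivAt t (hbd t)
    refine HasDerivAt.congr_deriv this ?_
    rw [hMa, hPa, hκ, hPa]
  have e2 := ode_uniq (β (X i)) (LinearMap.toContinuousLinearMap (β (X i))).lipschitz hu hpr
    (by rw [h0, hb0, hPa, pr_single])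
  refine ⟨b t, ?_, fun l => ?_⟩
  · rw [e2]; exact hPa _
  · rw [congrFun e1 t]; rfl

theorem coords {E : Type} [NormedAddCommGroup E] [NormedSpace ℝ E] [FiniteDimensional ℝ E]
    (β : E →ₗ[ℝ] E →ₗ[ℝ] E) (anti : ∀ x, β x x = 0)
    (jac : ∀ x y z, β x (β y z) = β (β x y) z + β y (β x z)) (h : E)
    (hh : ∀ X, ∃ X₁ X₀ X₂, β h X₁ = X₁ ∧ β h X₀ = 0 ∧ β h X₂ = -X₂ ∧ X = X₁ + X₀ + X₂) :
    ∃ (r m p : ℕ) (L : LieD (Idx r m p)) (X : Idx r m p → E)
      (T : ((Fin r → ℝ) × (Fin m → ℝ) × (Fin p → ℝ)) ≃L[ℝ] E),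
      Graded L ∧ X iD = h ∧ (∀ i, β h (X i) = (wt i : ℝ) • X i) ∧
      (∀ q, T q = ∑ k, q.1 k • X (i0 k) + ∑ k, q.2.1 k • X (im k) + ∑ k, q.2.2 k • X (ip k)) ∧
      ∀ i j (u : ℝ → E), u 0 = X j → (∀ t, HasDerivAt u (β (X i) (u t)) t) → ∀ t : ℝ,
        ∃ w : Idx r m p → ℝ, u t = ∑ l, w l • X l ∧
          ∀ l, NormedSpace.exp ((t : ℂ) • L.br (bv i)) (bv j) l = (w l : ℂ) := by
  set g0 : Submodule ℝ E := LinearMap.ker (β h) with hg0
  set gm : Submodule ℝ E := LinearMap.ker (β h + LinearMap.id) with hgm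
  set gp : Submodule ℝ E := LinearMap.ker (β h - LinearMap.id) with hgp
  have m0 : ∀ x, x ∈ g0 ↔ β h x = 0 := fun x => by simp [hg0]
  have mm : ∀ x, x ∈ gm ↔ β h x = -x := fun x => by simp [hgm, add_eq_zero_iff_eq_neg]
  have mp : ∀ x, x ∈ gp ↔ β h x = x := fun x => by simp [hgp, sub_eq_zero]
  set b0 := Module.finBasis ℝ g0
  set bm := Module.finBasis ℝ gm
  set bp := Module.finBasis ℝ gp
  set r := Module.finrank ℝ g0
  set m := Module.finrank ℝ gm
  set p := Module.finrank ℝ gp
  let X : Idx r m p → E := Sum.elim (fun k => (b0 k : E))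
    (Sum.elim (fun k => (bm k : E)) (Sum.elim (fun _ => h) (fun k => (bp k : E))))
  let T0 : ((Fin r → ℝ) × (Fin m → ℝ) × (Fin p → ℝ)) →ₗ[ℝ] E :=
    (g0.subtype ∘ₗ b0.equivFun.symm.toLinearMap).coprod
      ((gm.subtype ∘ₗ bm.equivFun.symm.toLinearMap).coprod
        (gp.subtype ∘ₗ bp.equivFun.symm.toLinearMap))
  have hT0 : ∀ q, T0 q = (b0.equivFun.symm q.1 : E) + ((bm.equivFun.symm q.2.1 : E) +
      (bp.equivFun.symm q.2.2 : E)) := fun q => rfl
  have hinj : Function.Injective T0 := by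
    rw [injective_iff_map_eq_zero]
    intro q hq
    rw [hT0] at hq
    set x0 := b0.equivFun.symm q.1 with hx0
    set xm := bm.equivFun.symm q.2.1 with hxm
    set xp := bp.equivFun.symm q.2.2 with hxp
    have a0 := (m0 _).mp x0.2
    have am := (mm _).mp xm.2
    have ap := (mp _).mp xp.2
    have e1 := congrArg (β h) hq
    simp only [map_add, a0, am, ap, map_zero, zero_add] at e1
    have e2 := congrArg (β h) e1
    simp only [map_add, map_neg, am, ap, map_zero, neg_neg] at e2
    have zp : (xp : E) = 0 := by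
      have : (2 : ℝ) • (xp : E) = 0 := by
        rw [two_smul]
        calc (xp : E) + xp = (-(xm : E) + xp) + ((xm : E) + xp) := by abel
          _ = 0 := by rw [e1, e2, add_zero]
      simpa using this
    have zm : (xm : E) = 0 := by rw [zp, add_zero] at e2; exact e2
    have z0 : (x0 : E) = 0 := by rw [zp, zm] at hq; simpa using hq
    have y0 : q.1 = 0 := b0.equivFun.symm.map_eq_zero_iff.mp (Subtype.ext z0)
    have ym : q.2.1 = 0 := bm.equivFun.symm.map_eq_zero_iff.mp (Subtype.ext zm)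
    have yp : q.2.2 = 0 := bp.equivFun.symm.map_eq_zero_iff.mp (Subtype.ext zp)
    exact Prod.ext y0 (Prod.ext ym yp)
  have hsurj : Function.Surjective T0 := by
    intro Y
    obtain ⟨X₁, X₀, X₂, a1, a0, a2, rfl⟩ := hh Y
    refine ⟨(b0.equivFun ⟨X₀, (m0 _).mpr a0⟩, bm.equivFun ⟨X₂, (mm _).mpr a2⟩,
      bp.equivFun ⟨X₁, (mp _).mpr a1⟩), ?_⟩
    rw [hT0]
    simp only [LinearEquiv.symm_apply_apply]
    abel
  let T := (LinearEquiv.ofBijective T0 ⟨hinj, hsurj⟩).toContinuousLinearEquiv
  have hT : ∀ q, T q =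
      ∑ k, q.1 k • X (i0 k) + ∑ k, q.2.1 k • X (im k) + ∑ k, q.2.2 k • X (ip k) := by
    intro q
    have : T q = T0 q := rfl
    rw [this, hT0, add_assoc]
    simp [Module.Basis.equivFun_symm_apply, X, i0, im, ip]
  let κ : E →ₗ[ℝ] (Idx r m p → ℝ) :=
    { toFun := fun Y => Sum.elim (T.symm Y).1
        (Sum.elim (T.symm Y).2.1 (Sum.elim (fun _ => 0) (T.symm Y).2.2))
      map_add' := fun a b => by
        ext l; rcases l with k | k | k | k <;> simp
      map_smul' := fun c a => by
        ext l; rcases l with k | k | k | k <;> simp }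
  have hκ : ∀ Y, pr X (κ Y) = Y := by
    intro Y
    conv_rhs => rw [← T.apply_symm_apply Y, hT]
    simp [pr, Fintype.sum_sum_type, κ, i0, im, ip, add_assoc]
  have hwt : ∀ i, β h (X i) = (wt i : ℝ) • X i := by
    intro i
    rcases i with k | k | k | k
    · simpa [X, wt] using (m0 _).mp (b0 k).2
    · simpa [X, wt] using (mm _).mp (bm k).2
    · simpa [X, wt] using anti h
    · simpa [X, wt] using (mp _).mp (bp k).2
  have hκX : ∀ i, i ≠ iD → κ (X i) = Pi.single i 1 := by
    intro i hi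
    rcases i with k | k | k | k
    · have : T.symm (X (Sum.inl k)) = (Pi.single k 1, 0, 0) := by
        rw [ContinuousLinearEquiv.symm_apply_eq, hT]
        simp [Pi.single_apply, i0]
      ext l; rcases l with l | l | l | l <;> simp [κ, this, Pi.single_apply]
    · have : T.symm (X (Sum.inr (Sum.inl k))) = (0, Pi.single k 1, 0) := by
        rw [ContinuousLinearEquiv.symm_apply_eq, hT]
        simp [Pi.single_apply, im]
      ext l; rcases l with l | l | l | l <;> simp [κ, this, Pi.single_apply]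
    · exact absurd rfl hi
    · have : T.symm (X (Sum.inr (Sum.inr (Sum.inr k)))) = (0, 0, Pi.single k 1) := by
        rw [ContinuousLinearEquiv.symm_apply_eq, hT]
        simp [Pi.single_apply, ip]
      ext l; rcases l with l | l | l | l <;> simp [κ, this, Pi.single_apply]
  refine ⟨r, m, p, lieC β X κ anti jac hκ, X, T, ⟨fun i => ?_, fun x y => ?_⟩, rfl, hwt, hT,
    fun i j u h0 hu t => exp_coords β X κ hκ i j u h0 hu t⟩
  · change brC β X κ (bv iD) (bv i) = _
    rw [bv_up, bv_up, brC_up, pr_single, pr_single]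
    have : X iD = h := rfl
    rw [this, hwt, map_smul]
    by_cases hi : i = iD
    · subst hi
      ext l; simp [wt, iD, up]
    · rw [hκX i hi]
      ext l; simp [up]
  · change brC β X κ x y iD = 0
    rw [brC_apply]
    simp [κ, iD]

end Pool.Agent.Lib.MP_e2ef7e_al.Gen.LieA
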