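import Pool.Agent.Lib.MP_e2ef7e_al.LieA2

/-!
Coordinates of the second kind cover a neighbourhood of the identity; right-invariant derivatives
of test functions.
-/

open Topology Filter Set
open scoped Manifold ContDiff

noncomputable section

set_option backward.isDefEq.respectTransparency false

namespace Pool.Agent.Lib.MP_e2ef7e_al.Gen.LieA

variable {E : Type} [NormedAddCommGroup E] [NormedSpace ℝ E]
  {G : Type} [Group G] [TopologicalSpace G] [ChartedSpace E G] [LieGroup 𝓘(ℝ, E) ∞ G]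
  {P : Type} [NormedAddCommGroup P] [NormedSpace ℝ P]

/-- a map to the group which is strictly differentiable at zero, read in the chart -/
structure Loc (f : P → G) (A : P →L[ℝ] E) : Prop where
  one : f 0 = 1
  cont : ContinuousAt f 0
  der : HasStrictFDerivAt (fun q => chP E G (f q)) A 0

omit [LieGroup 𝓘(ℝ, E) ∞ G] in
theorem Loc.const : Loc (fun _ : P => (1 : G)) (0 : P →L[ℝ] E) :=
  ⟨rfl, continuousAt_const, hasStrictFDerivAt_const _ _⟩

omit [LieGroup 𝓘(ℝ, E) ∞ G] in
theorem Loc.tend {f : P → G} {A : P →L[ℝ] E} (hf : Loc f A) : Tendsto f (𝓝 0) (𝓝 1) := by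
  have := hf.cont.tendsto
  rwa [hf.one] at this

theorem mu_diff : DifferentiableAt ℝ (muC E G) (e0 E G, e0 E G) :=
  mu_smooth.differentiableAt (by simp)

theorem mu_fderiv (a b : E) : fderiv ℝ (muC E G) (e0 E G, e0 E G) (a, b) = a + b := by
  have h1 : fderiv ℝ (muC E G) (e0 E G, e0 E G) (a, 0) = a := by
    rw [← d1_eq mu_diff]
    have : (fun x => muC E G (x, e0 E G)) =ᶠ[𝓝 (e0 E G)] id := mu_left
    rw [this.fderiv_eq]; simp
  have h2 : fderiv ℝ (muC E G) (e0 E G, e0 E G) (0, b) = b := by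
    rw [← d2_eq mu_diff]
    have : (fun x => muC E G (e0 E G, x)) =ᶠ[𝓝 (e0 E G)] id := mu_right
    rw [this.fderiv_eq]; simp
  have : ((a, b) : E × E) = (a, 0) + (0, b) := by simp
  rw [this, map_add, h1, h2]

theorem Loc.mul {f g : P → G} {A B : P →L[ℝ] E} (hf : Loc f A) (hg : Loc g B) :
    Loc (fun q => f q * g q) (A + B) := by
  haveI : IsTopologicalGroup G := topologicalGroup_of_lieGroup 𝓘(ℝ, E) ∞
  refine ⟨by simp [hf.one, hg.one], hf.cont.mul hg.cont, ?_⟩
  have h1 : HasStrictFDerivAt (muC E G) (fderiv ℝ (muC E G) (e0 E G, e0 E G))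
      ((fun q => (chP E G (f q), chP E G (g q))) 0) := by
    simp only [hf.one, hg.one]
    exact mu_smooth.hasStrictFDerivAt (by simp)
  have h2 := HasStrictFDerivAt.comp (f := fun q => (chP E G (f q), chP E G (g q))) 0 h1
    (hf.der.prodMk hg.der)
  have h3 : (fderiv ℝ (muC E G) (e0 E G, e0 E G)).comp (A.prod B) = A + B := by
    ext q; simp [mu_fderiv]
  rw [h3] at h2
  refine h2.congr_of_eventuallyEq ?_
  filter_upwards [hf.tend.eventually (ev_source (E := E)), hg.tend.eventually (ev_source (E := E))]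
    with q h4 h5
  simp only [muC, (chP E G).left_inv h4, (chP E G).left_inv h5]

theorem Loc.prod {n : ℕ} {f : Fin n → P → G} {A : Fin n → P →L[ℝ] E} (h : ∀ k, Loc (f k) (A k)) :
    Loc (fun q => (List.ofFn fun k => f k q).prod) (∑ k, A k) := by
  induction n with
  | zero => simpa using Loc.const
  | succ n ih =>
    simp only [List.ofFn_succ, List.prod_cons, Fin.sum_univ_succ]
    exact (h 0).mul (ih fun k => h k.succ)

omit [LieGroup 𝓘(ℝ, E) ∞ G] in
theorem Loc.image_mem [CompleteSpace P] {f : P → G} {T : P ≃L[ℝ] E}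
    (hf : Loc f (T : P →L[ℝ] E)) {N : Set P} (hN : N ∈ 𝓝 0) : f '' N ∈ 𝓝 (1 : G) := by
  have h1 := hf.der.map_nhds_eq_of_equiv
  simp only [hf.one] at h1
  have h2 : N ∩ f ⁻¹' (chP E G).source ∈ 𝓝 (0 : P) :=
    inter_mem hN (hf.tend.eventually (ev_source (E := E)))
  have h3 : (fun q => chP E G (f q)) '' (N ∩ f ⁻¹' (chP E G).source) ∈ 𝓝 (chP E G 1) := by
    rw [← h1]; exact image_mem_map h2
  have h4 := (continuousAt_extChartAt (I := 𝓘(ℝ, E)) (1 : G)).preimage_mem_nhds h3
  filter_upwards [h4, ev_source (E := E) (G := G)] with g hg hs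
  obtain ⟨q, ⟨hq1, hq2⟩, hq3⟩ := hg
  exact ⟨q, hq1, (chP E G).injOn hq2 hs hq3⟩

variable [FiniteDimensional ℝ E] [T2Space G]

theorem ex_strict (X : GroupLieAlgebra 𝓘(ℝ, E) G) :
    HasStrictDerivAt (fun t => chP E G (ex X t)) (show E from X) 0 := by
  have hu : Tendsto (fun t => chP E G (ex X t)) (𝓝 0) (𝓝 (e0 E G)) := by
    have := (ex_chart X).continuousAt.tendsto
    simpa only [ex_zero] using this
  have hu2 : Tendsto (fun t => (chP E G (ex X t), e0 E G)) (𝓝 0) (𝓝 (e0 E G, e0 E G)) :=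
    hu.prodMk_nhds tendsto_const_nhds
  have hμ1 : ContDiffAt ℝ 1 (muC E G) (e0 E G, e0 E G) := mu_smooth.of_le (by norm_cast)
  have hev : ∀ᶠ p in 𝓝 (e0 E G, e0 E G), DifferentiableAt ℝ (muC E G) p :=
    (hμ1.eventually (by simp)).mono fun p hp => hp.differentiableAt (by simp)
  have hder : ∀ᶠ t in 𝓝 (0 : ℝ), HasDerivAt (fun t => chP E G (ex X t))
      (fderiv ℝ (muC E G) (chP E G (ex X t), e0 E G) (0, show E from X)) t := by
    filter_upwards [hu2.eventually hev, (ex_tend X).eventually (ev_source (E := E))] with t h1 h2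
    have h3 : HasDerivAt (fun s => chP E G (ex X (s - t))) (show E from X) t := by
      have h := ex_chart X
      rw [← sub_self t] at h
      exact h.comp_sub_const t t
    have h4 := (hasDerivAt_const t (chP E G (ex X t))).prodMk h3
    have h5 : HasFDerivAt (muC E G) (fderiv ℝ (muC E G) (chP E G (ex X t), e0 E G))
        ((fun s => (chP E G (ex X t), chP E G (ex X (s - t)))) t) := by
      simp only [sub_self, ex_zero]
      exact h1.hasFDerivAt
    have h6 := HasFDerivAt.comp_hasDerivAt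
      (f := fun s => (chP E G (ex X t), chP E G (ex X (s - t)))) t h5 h4
    refine h6.congr_of_eventuallyEq ?_
    have h7 : Tendsto (fun s => ex X (s - t)) (𝓝 t) (𝓝 1) :=
      ((ex_cont X).comp (continuous_id.sub continuous_const)).tendsto' _ _ (by simp [ex_zero])
    filter_upwards [h7.eventually (ev_source (E := E))] with s hs
    simp only [Function.comp_apply, muC, (chP E G).left_inv h2, (chP E G).left_inv hs]
    rw [← ex_add, add_sub_cancel]
  have hcont : ContinuousAt
      (fun t => fderiv ℝ (muC E G) (chP E G (ex X t), e0 E G) (0, show E from X)) 0 := by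
    have h1 : ContinuousAt (fderiv ℝ (muC E G)) (e0 E G, e0 E G) :=
      (mu_smooth.fderiv_right (m := 0) (by norm_cast)).continuousAt
    have h2 : ContinuousAt (fun t => fderiv ℝ (muC E G) (chP E G (ex X t), e0 E G)) 0 := by
      have := h1.tendsto.comp hu2
      rw [ContinuousAt, ex_zero]
      exact this
    exact h2.clm_apply continuousAt_const
  have := hasStrictDerivAt_of_hasDerivAt_of_continuousAt hder hcont
  simpa only [ex_zero, mu_fderiv, zero_add] using this

theorem Loc.ex (X : GroupLieAlgebra 𝓘(ℝ, E) G) (l : P →L[ℝ] ℝ) :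
    Loc (fun q => ex X (l q)) (l.smulRight (show E from X)) := by
  refine ⟨by simp [ex_zero], ((ex_cont X).comp l.continuous).continuousAt, ?_⟩
  have h1 : HasStrictDerivAt (fun t => chP E G (LieA.ex X t)) (show E from X) (l 0) := by
    rw [map_zero]; exact ex_strict X
  have h2 := h1.hasStrictFDerivAt.comp 0 l.hasStrictFDerivAt
  refine h2.congr_fderiv ?_
  ext q; simp

omit [FiniteDimensional ℝ E] [T2Space G] in
theorem tst_diff {φ : G → ℝ} (hφ : ContMDiff 𝓘(ℝ, E) 𝓘(ℝ, ℝ) ∞ φ) (x : G) :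
    ContDiffAt ℝ ∞ (fun p : E × E => φ (((chP E G).symm p.2)⁻¹ * (x * (chP E G).symm p.1)))
      (e0 E G, e0 E G) :=
  (ContMDiffAt.comp (f := fun p : E × E => ((chP E G).symm p.2)⁻¹ * (x * (chP E G).symm p.1))
    (e0 E G, e0 E G) hφ.contMDiffAt
    ((ic_snd (E := E) (G := G)).inv.mul (contMDiffAt_const.mul ic_fst))).contDiffAt

/-- the derivative of a test function along the right-invariant field -/
def Rd (φ : G → ℝ) (x : G) : E →L[ℝ] ℝ :=
  fderiv ℝ (fun y => φ (((chP E G).symm y)⁻¹ * x)) (e0 E G)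

omit [FiniteDimensional ℝ E] [T2Space G] in
theorem Rd_smooth {φ : G → ℝ} (hφ : ContMDiff 𝓘(ℝ, E) 𝓘(ℝ, ℝ) ∞ φ) (X : E) :
    ContMDiff 𝓘(ℝ, E) 𝓘(ℝ, ℝ) ∞ (fun x => Rd φ x X) := by
  intro x
  have h1 : ContDiffAt ℝ ∞ (fun z : E => fderiv ℝ
      (fun y => φ (((chP E G).symm y)⁻¹ * (x * (chP E G).symm z))) (e0 E G) X) (e0 E G) :=
    (ContDiffAt.fderiv (f := fun z y => φ (((chP E G).symm y)⁻¹ * (x * (chP E G).symm z)))
      (g := fun _ => e0 E G) (n := ∞) (m := ∞) (tst_diff hφ x) contDiffAt_const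
      (by norm_cast)).clm_apply contDiffAt_const
  have h0 : ContMDiffAt 𝓘(ℝ, E) 𝓘(ℝ, E) ∞ (fun g : G => x⁻¹ * g) x :=
    contMDiffAt_const.mul contMDiffAt_id
  have h2 : ContMDiffAt 𝓘(ℝ, E) 𝓘(ℝ, E) ∞ (fun g : G => chP E G (x⁻¹ * g)) x :=
    ContMDiffAt.comp (f := fun g : G => x⁻¹ * g) x
      (ch_smooth (by simp only [inv_mul_cancel]; exact mem_extChartAt_source 1)) h0
  have h3 := ContMDiffAt.comp (f := fun g : G => chP E G (x⁻¹ * g)) x
    (by simp only [inv_mul_cancel]; exact h1.contMDiffAt) h2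
  refine h3.congr_of_eventuallyEq ?_
  have h4 : Tendsto (fun g : G => x⁻¹ * g) (𝓝 x) (𝓝 1) := by
    have := h0.continuousAt.tendsto
    simpa only [inv_mul_cancel] using this
  filter_upwards [h4.eventually (ev_source (E := E))] with g hg
  simp only [Function.comp_apply, (chP E G).left_inv hg, mul_inv_cancel_left, Rd]

omit [FiniteDimensional ℝ E] [T2Space G] in
theorem Rd_zero {φ : G → ℝ} {x : G} (hx : x ∉ tsupport φ) : Rd (E := E) φ x = 0 := by
  haveI : IsTopologicalGroup G := topologicalGroup_of_lieGroup 𝓘(ℝ, E) ∞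
  have h1 : Tendsto (fun y => ((chP E G).symm y)⁻¹ * x) (𝓝 (e0 E G)) (𝓝 x) := by
    have := (ic_tend (E := E) (G := G)).inv.mul (tendsto_const_nhds (x := x))
    simpa only [inv_one, one_mul] using this
  have h2 : (fun y => φ (((chP E G).symm y)⁻¹ * x)) =ᶠ[𝓝 (e0 E G)] fun _ => 0 :=
    h1.eventually (notMem_tsupport_iff_eventuallyEq.mp hx)
  rw [Rd, h2.fderiv_eq]; simp

theorem Rd_deriv {φ : G → ℝ} (hφ : ContMDiff 𝓘(ℝ, E) 𝓘(ℝ, ℝ) ∞ φ)
    (X : GroupLieAlgebra 𝓘(ℝ, E) G) (x : G) (t : ℝ) :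
    HasDerivAt (fun t => φ ((ex X t)⁻¹ * x)) (Rd (E := E) φ ((ex X t)⁻¹ * x) X) t := by
  have h0 : ∀ x : G, HasDerivAt (fun t => φ ((ex X t)⁻¹ * x)) (Rd (E := E) φ x X) 0 := by
    intro x
    have h1 : DifferentiableAt ℝ (fun y => φ (((chP E G).symm y)⁻¹ * x)) (e0 E G) := by
      have := ((tst_diff hφ x).differentiableAt (by simp)).comp (e0 E G)
        (hasFDerivAt_prodMk_right (𝕜 := ℝ) (e0 E G) (e0 E G)).differentiableAt
      simpa only [Function.comp_def, ic_e0, mul_one] using this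
    have h2 : HasFDerivAt (fun y => φ (((chP E G).symm y)⁻¹ * x)) (Rd φ x)
        ((fun t => chP E G (ex X t)) 0) := by
      simp only [ex_zero]
      exact h1.hasFDerivAt
    have h3 := HasFDerivAt.comp_hasDerivAt (f := fun t => chP E G (ex X t)) 0 h2 (ex_chart X)
    refine h3.congr_of_eventuallyEq ?_
    filter_upwards [(ex_tend X).eventually (ev_source (E := E))] with s hs
    simp only [Function.comp_apply, (chP E G).left_inv hs]
  have h := h0 ((ex X t)⁻¹ * x)
  rw [← sub_self t] at h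
  refine (h.comp_sub_const t t).congr_of_eventuallyEq (Eventually.of_forall fun s => ?_)
  simp only
  rw [← mul_assoc, ← mul_inv_rev, ← ex_add, add_sub_cancel]

end Pool.Agent.Lib.MP_e2ef7e_al.Gen.LieA
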