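import Pool.Agent.Lib.MP_e2ef7e_al.SlabT4
import Pool.Agent.Lib.MP_e2ef7e_al.Geom

/-!
Existence of the family of weak solutions on the slices.
-/

open MeasureTheory Complex Set Filter Topology
open scoped ComplexConjugate InnerProductSpace ContDiff ENNReal

noncomputable section

namespace Pool.Agent.Lib.MP_e2ef7e_al.Gen

variable {r m p : ℕ} {L : LieD (Idx r m p)}
  {H : Type} [NormedAddCommGroup H] [InnerProductSpace ℂ H] [CompleteSpace H]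

theorem slab (hL : Graded L) (R : Rep L H) : ∃ ε > 0, ∀ v ∈ R.Dinf, ∀ δ > 0,
    ∃ (ρ : ℝ) (S : (Fin m → ℝ) → ℝ × (Fin p → ℝ) → H), 0 < ρ ∧ ρ ≤ δ ∧ Slab R ε S ∧
      ∫⁻ z in Metric.closedBall 0 ρ, ‖S 0 z - v‖ₑ ≤ ENNReal.ofReal (δ * ρ ^ (p + 1)) := by
  obtain ⟨hd, e, Λ, he, hΛ, hom, hup, hlow⟩ := geom L hL
  exact Sb.slab_of hL R hd he hΛ hom hup hlow

end Pool.Agent.Lib.MP_e2ef7e_al.Gen
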