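import Pool.Agent.Lib.MP_e2ef7e_al.SliceInt

/-!
Restriction of weak solutions to slices by mean values.
-/

open MeasureTheory Complex Set Filter Topology Metric
open scoped ComplexConjugate InnerProductSpace ContDiff ENNReal

set_option linter.unusedSectionVars false

noncomputable section

namespace Pool.Agent.Lib.MP_e2ef7e_al.Gen.Sl

variable {ι : Type} [Fintype ι] [DecidableEq ι] {L : LieD ι}
  {H : Type} [NormedAddCommGroup H] [InnerProductSpace ℂ H] [CompleteSpace H] {R : Rep L H}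
  {J : Type} [Fintype J] [DecidableEq J] (bl : Block R J)
  {Z : Type} [NormedAddCommGroup Z] [NormedSpace ℝ Z] [FiniteDimensional ℝ Z]
  [MeasureSpace Z] [BorelSpace Z] [(volume : Measure Z).IsAddHaarMeasure]

/-- integral over the group parameter -/
def TT (F : (J → ℝ) × Z → H) (K : WW J Z → ℂ) (x : (J → ℝ) × Z) : H :=
  ∫ y, K (y, x) • GG bl F (y, x)

/-- the mean value -/
def SS (F : (J → ℝ) × Z → H) (K : WW J Z → ℂ) (z : Z) : H := ∫ t, TT bl F K (t, z)

/-- support set -/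
def QQ (c : J → ℝ) (r : ℝ) (C : Set Z) : Set (WW J Z) :=
  closedBall 0 (2 * r) ×ˢ (closedBall c r ×ˢ C)

lemma QQ_cpt (c : J → ℝ) (r : ℝ) {C : Set Z} (hC : IsCompact C) : IsCompact (QQ c r C) :=
  (isCompact_closedBall _ _).prod ((isCompact_closedBall _ _).prod hC)

variable {bl} {F : (J → ℝ) × Z → H}

section fubini

variable (hF : LocallyIntegrable F volume) {Q : Set (WW J Z)} (hQ : IsCompact Q)
  {K : WW J Z → ℂ} {u : Z → ℂ} (h : Adm Q fun p => u p.2.2 * K p)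
include hF hQ h

lemma TT_eq (x : (J → ℝ) × Z) :
    ∫ y, (u x.2 * K (y, x)) • GG bl F (y, x) = u x.2 • TT bl F K x := by
  simp only [mul_smul, integral_smul, TT]

lemma int_TT : Integrable fun x : (J → ℝ) × Z => u x.2 • TT bl F K x := by
  have h1 := int_smul (bl := bl) hF h.1.continuous (h.cpt hQ)
  rw [Measure.volume_eq_prod] at h1
  simpa only [TT_eq hF hQ h] using h1.integral_prod_right

lemma int_SS : Integrable fun z => u z • SS bl F K z := by
  have h1 := int_TT (bl := bl) hF hQ h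
  rw [Measure.volume_eq_prod] at h1
  simpa only [integral_smul, SS] using h1.integral_prod_right

lemma int_SS' (φ : H) : Integrable fun z => u z * ⟪φ, SS bl F K z⟫_ℂ := by
  simpa only [inner_smul_right] using (int_SS (bl := bl) hF hQ h).const_inner (𝕜 := ℂ) φ

lemma fubini (φ : H) :
    ∫ z, u z * ⟪φ, SS bl F K z⟫_ℂ = II bl F (fun p => u p.2.2 * K p) φ := by
  have h1 := int_smul (bl := bl) hF h.1.continuous (h.cpt hQ)
  have h2 := int_TT (bl := bl) hF hQ h
  have h3 := int_SS (bl := bl) hF hQ h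
  simp only [II, ← inner_smul_right]
  rw [integral_inner h1, integral_inner h3]
  congr 1
  rw [Measure.volume_eq_prod] at h1 h2
  rw [Measure.volume_eq_prod, integral_prod_symm _ h1]
  simp only [TT_eq hF hQ h]
  rw [Measure.volume_eq_prod, integral_prod_symm _ h2]
  simp only [integral_smul, SS]

end fubini

variable {lam : Z → ℂ} (hl : ContDiff ℝ ∞ lam) (h0 : ∀ z, (lam z).im ≠ 0) (h1 : ∀ z, ‖lam z‖ ≤ 1)
  {C0 r : ℝ} (hr : 0 < r) (pf : Prof C0 r) {c : J → ℝ}

section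

include h0 h1 hr

lemma supp_of {p : WW J Z} (fam : J → ℝ → ℝ) (hf : ∀ j q, r ^ 2 ≤ q → fam j q = 0)
    (h : ∀ j, kk lam c (fam j) j p ≠ 0) :
    p.1 ∈ closedBall (0 : J → ℝ) (2 * r) ∧ p.2.1 ∈ closedBall c r := by
  rw [mem_closedBall_zero_iff, mem_closedBall_iff_norm, pi_norm_le_iff_of_nonneg (by positivity),
    pi_norm_le_iff_of_nonneg hr.le]
  exact ⟨fun j => (kk_supp h0 h1 hr (hf j) (h j)).1, fun j => (kk_supp h0 h1 hr (hf j) (h j)).2⟩

lemma KK_supp {p : WW J Z} (h : ∏ j, kk lam c pf.f j p ≠ 0) :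
    p.1 ∈ closedBall (0 : J → ℝ) (2 * r) ∧ p.2.1 ∈ closedBall c r :=
  supp_of h0 h1 hr (fun _ => pf.f) (fun _ => pf.f_zero) fun j =>
    Finset.prod_ne_zero_iff.1 h j (Finset.mem_univ j)

include hl

lemma adm_KK {θ : Z → ℂ} (hθ : ContDiff ℝ ∞ θ) :
    Adm (QQ c r (tsupport θ)) fun p => θ p.2.2 * KK lam c pf.f p := by
  refine ⟨(lamW_smooth hθ).mul (KK_smooth hl h0 pf.f_smooth), fun p hp => by_contra fun h => ?_⟩
  have h2 := KK_supp h0 h1 hr pf (c := c) (p := p) (by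
    have := right_ne_zero_of_mul h
    rw [KK] at this
    exact_mod_cast this)
  exact hp ⟨h2.1, h2.2, subset_tsupport _ (left_ne_zero_of_mul h)⟩

lemma adm_Fh {θ : Z → ℂ} (hθ : ContDiff ℝ ∞ θ) (i : J) :
    Adm (QQ c r (tsupport θ)) fun p => θ p.2.2 * (Ke lam c pf.f i p * kk lam c pf.Fh i p) := by
  refine ⟨(lamW_smooth hθ).mul ((Ke_smooth hl h0 pf.f_smooth i).mul
    (ofReal_smooth (kk_smooth hl h0 pf.Fh_smooth i))), fun p hp => by_contra fun h => ?_⟩
  have h3 := right_ne_zero_of_mul h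
  have h2 := supp_of h0 h1 hr (c := c) (p := p) (fun j => if j = i then pf.Fh else pf.f)
    (fun j q hq => by split_ifs; exacts [pf.Fh_zero q hq, pf.f_zero q hq]) fun j => by
      split_ifs with hj
      · subst hj; exact_mod_cast right_ne_zero_of_mul h3
      · exact_mod_cast Finset.prod_ne_zero_iff.1 (left_ne_zero_of_mul h3) j
          (Finset.mem_erase.2 ⟨hj, Finset.mem_univ j⟩)
  exact hp ⟨h2.1, h2.2, subset_tsupport _ (left_ne_zero_of_mul h)⟩

end

lemma DD_z (i : J) {u : Z → ℂ} (hu : ContDiff ℝ ∞ u) (p : WW J Z) :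
    DD lam i (fun p => u p.2.2) p = 0 := by
  rw [DD, pd_of_const (sl_diff (lamW_smooth hu) p) fun s => by simp [Td],
    pd_of_const (sl_diff (lamW_smooth hu) p) fun s => by simp [Yd]]
  simp

lemma A_smooth : ContDiff ℝ ∞ bl.A := by
  rw [show bl.A = fun z => 1 + ∑ i, z i • bl.h i z from funext bl.hA]
  exact contDiff_const.add (ContDiff.sum fun i _ =>
    (contDiff_apply ℝ ℂ i).smul ((bl.hdiff i).restrict_scalars ℝ))

lemma exists_bump (n : ℕ) : ∃ θ : Z → ℂ, ContDiff ℝ ∞ θ ∧ HasCompactSupport θ ∧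
    ∀ z, ‖z‖ ≤ n → θ z = 1 := by
  let b : ContDiffBump (0 : Z) := ⟨n + 1, n + 2, by positivity, by linarith⟩
  refine ⟨fun z => (b z : ℂ), ofReal_smooth b.contDiff,
    b.hasCompactSupport.comp_left (g := fun x : ℝ => (x : ℂ)) ofReal_zero, fun z hz => ?_⟩
  simp only [b.one_of_mem_closedBall (mem_closedBall_zero_iff.2 (hz.trans (by simp [b]))),
    ofReal_one]

variable (hF : LocallyIntegrable F volume)
include hl h0 h1 hr hF

lemma slice_loc : LocallyIntegrable (SS bl F (KK lam c pf.f)) volume := by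
  rw [locallyIntegrable_iff]
  intro K hK
  obtain ⟨b, hb⟩ := hK.isBounded.exists_norm_le
  obtain ⟨n, hn⟩ := exists_nat_ge b
  obtain ⟨θ, hθ, hc, h⟩ := exists_bump (Z := Z) n
  refine (int_SS (bl := bl) hF (QQ_cpt c r hc) (adm_KK hl h0 h1 hr pf hθ)).integrableOn.congr_fun
    (fun z hz => ?_) hK.measurableSet
  simp [h z ((hb z hz).trans hn)]

lemma slice_ae : ∀ᵐ z, Integrable fun t => TT bl F (KK lam c pf.f) (t, z) := by
  have h : ∀ n : ℕ, ∀ᵐ z : Z, ‖z‖ ≤ n → Integrable fun t => TT bl F (KK lam c pf.f) (t, z) := by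
    intro n
    obtain ⟨θ, hθ, hc, h⟩ := exists_bump (Z := Z) n
    have h2 := int_TT (bl := bl) hF (QQ_cpt c r hc) (adm_KK hl h0 h1 hr pf hθ)
    rw [Measure.volume_eq_prod] at h2
    filter_upwards [h2.prod_left_ae] with z hz hn
    simpa [h z hn] using hz
  filter_upwards [ae_all_iff.2 h] with z hz
  obtain ⟨n, hn⟩ := exists_nat_ge ‖z‖
  exact hz n hn

omit hl h1 hr hF in
lemma marg_eq (x : (J → ℝ) × Z) : ∫ y, ∏ j, kk lam c pf.f j (y, x) =
    ∏ j, ∫ n : ℝ, pf.f (n ^ 2 + (x.1 j - c j) ^ 2) := by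
  have h := integral_fintype_prod_volume_eq_prod (E := fun _ : J => ℝ) fun j (s : ℝ) =>
    pf.f (((s + (lam x.2).re * (x.1 j - c j)) / (lam x.2).im) ^ 2 + (x.1 j - c j) ^ 2) /
      |(lam x.2).im|
  refine h.trans (Finset.prod_congr rfl fun j _ => ?_)
  rw [integral_div, integral_add_right_eq_self
    (fun s => pf.f ((s / (lam x.2).im) ^ 2 + (x.1 j - c j) ^ 2)),
    Measure.integral_comp_div (fun n => pf.f (n ^ 2 + (x.1 j - c j) ^ 2)), smul_eq_mul,
    mul_div_cancel_left₀ _ (abs_ne_zero.2 (h0 _))]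

omit hF in
lemma TT_bound {v : H} {δ : ℝ} (hδ : ∀ y, ‖y‖ ≤ 2 * r → ‖bl.P y v - v‖ ≤ δ) (x : (J → ℝ) × Z) :
    ‖TT bl F (KK lam c pf.f) x - (∫ y, ∏ j, kk lam c pf.f j (y, x)) • v‖ ≤
      (∫ y, ∏ j, kk lam c pf.f j (y, x)) * (‖F x - v‖ + δ) := by
  set k : (J → ℝ) → ℝ := fun y => ∏ j, kk lam c pf.f j (y, x) with hk
  have hc : Continuous k := continuous_finsetProd _ fun j _ =>
    (kk_smooth hl h0 pf.f_smooth j).continuous.comp (Continuous.prodMk_left x)
  have hs : HasCompactSupport k := HasCompactSupport.intro (isCompact_closedBall 0 (2 * r))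
    fun y hy => by_contra fun h => hy (KK_supp h0 h1 hr pf h).1
  have hi : Integrable k := hc.integrable_of_hasCompactSupport hs
  have hn : ∀ y, 0 ≤ k y := fun y => Finset.prod_nonneg fun j _ =>
    div_nonneg (pf.nonneg _) (abs_nonneg _)
  have h2 : TT bl F (KK lam c pf.f) x = ∫ y, k y • bl.P y (F x) := by
    refine integral_congr_ae (Eventually.of_forall fun y => ?_)
    simp only [KK, GG, hk]
    rw [← ofReal_prod, coe_smul]
  have hi2 : Integrable fun y => k y • bl.P y (F x) :=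
    (hc.smul (bl.cont _)).integrable_of_hasCompactSupport hs.smul_right
  change ‖_ - (∫ y, k y) • v‖ ≤ (∫ y, k y) * _
  rw [h2, ← integral_smul_const, ← integral_sub hi2 (hi.smul_const v), ← integral_mul_const]
  refine norm_integral_le_of_norm_le (hi.mul_const _) (Eventually.of_forall fun y => ?_)
  rw [← smul_sub, norm_smul, Real.norm_of_nonneg (hn y)]
  by_cases h : k y = 0
  · simp [h]
  refine mul_le_mul_of_nonneg_left ?_ (hn y)
  have h3 := hδ y (mem_closedBall_zero_iff.1 (KK_supp h0 h1 hr pf h).1)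
  calc ‖bl.P y (F x) - v‖ = ‖bl.P y (F x - v) + (bl.P y v - v)‖ := by rw [map_sub]; abel_nf
    _ ≤ ‖F x - v‖ + δ := (norm_add_le _ _).trans (by rw [LinearIsometryEquiv.norm_map]; gcongr)

omit hF in
lemma SS_bound {v : H} {δ : ℝ} (hδ : ∀ y, ‖y‖ ≤ 2 * r → ‖bl.P y v - v‖ ≤ δ) {z : Z}
    (hz : Integrable fun t => TT bl F (KK lam c pf.f) (t, z)) :
    ‖SS bl F (KK lam c pf.f) z - v‖ₑ ≤ ENNReal.ofReal ((C0 / r) ^ Fintype.card J) *
      (∫⁻ t in closedBall c r, ‖F (t, z) - v‖ₑ) + ENNReal.ofReal δ := by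
  set m : (J → ℝ) → ℝ := fun t => ∏ j, ∫ n : ℝ, pf.f (n ^ 2 + (t j - c j) ^ 2) with hm
  have hd : 0 ≤ δ := (norm_nonneg _).trans (hδ 0 (by simpa using hr.le))
  have hmi : Integrable m := Integrable.fintype_prod
    (f := fun j (s : ℝ) => ∫ n : ℝ, pf.f (n ^ 2 + (s - c j) ^ 2)) fun j =>
      pf.int.comp_sub_right (c j)
  have hm1 : ∫ t, m t = 1 := by
    rw [hm, integral_fintype_prod_volume_eq_prod (E := fun _ : J => ℝ)
      fun j (s : ℝ) => ∫ n : ℝ, pf.f (n ^ 2 + (s - c j) ^ 2)]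
    refine Finset.prod_eq_one fun j _ => ?_
    rw [integral_sub_right_eq_self (fun s : ℝ => ∫ n : ℝ, pf.f (n ^ 2 + s ^ 2)), pf.one]
  have hm0 : ∀ t, 0 ≤ m t := fun t => Finset.prod_nonneg fun j _ =>
    integral_nonneg fun _ => pf.nonneg _
  have hmb : ∀ t, m t ≤ (C0 / r) ^ Fintype.card J := fun t => by
    rw [← Finset.card_univ, ← Finset.prod_const]
    exact Finset.prod_le_prod (fun j _ => integral_nonneg fun _ => pf.nonneg _) fun j _ => pf.bd _
  have hms : ∀ t, t ∉ closedBall c r → m t = 0 := fun t ht => by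
    rw [show m t = _ from (marg_eq h0 pf (t, z)).symm]
    rw [integral_congr_ae (g := fun _ => 0) (Eventually.of_forall fun y =>
      by_contra fun h => ht (KK_supp h0 h1 hr pf h).2), integral_zero]
  have h2 : SS bl F (KK lam c pf.f) z - v =
      ∫ t, (TT bl F (KK lam c pf.f) (t, z) - m t • v) := by
    rw [integral_sub hz (hmi.smul_const v), integral_smul_const, hm1, one_smul, SS]
  have h3 : ∀ t, ‖TT bl F (KK lam c pf.f) (t, z) - m t • v‖ₑ ≤
      (closedBall c r).indicator (fun t => ENNReal.ofReal ((C0 / r) ^ Fintype.card J) *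
        ‖F (t, z) - v‖ₑ) t + ENNReal.ofReal (m t) * ENNReal.ofReal δ := fun t => by
    have h4 := TT_bound (F := F) (c := c) hl h0 h1 hr pf hδ (t, z)
    rw [marg_eq h0 pf] at h4
    rw [← ofReal_norm]
    refine (ENNReal.ofReal_le_ofReal h4).trans ?_
    change ENNReal.ofReal (m t * _) ≤ _
    rw [mul_add, ENNReal.ofReal_add (mul_nonneg (hm0 t) (norm_nonneg _)) (mul_nonneg (hm0 t) hd),
      ENNReal.ofReal_mul (hm0 t), ENNReal.ofReal_mul (hm0 t), ofReal_norm]
    refine add_le_add_left ?_ _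
    by_cases ht : t ∈ closedBall c r
    · rw [indicator_of_mem ht]
      exact mul_le_mul_left (ENNReal.ofReal_le_ofReal (hmb t)) _
    · simp [hms t ht]
  rw [h2]
  refine (enorm_integral_le_lintegral_enorm _).trans ((lintegral_mono h3).trans ?_)
  rw [lintegral_add_right' _ (hmi.aemeasurable.ennreal_ofReal.mul_const _),
    lintegral_indicator measurableSet_closedBall, lintegral_const_mul' _ _ ENNReal.ofReal_ne_top,
    lintegral_mul_const' _ _ ENNReal.ofReal_ne_top,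
    ← ofReal_integral_eq_lintegral_ofReal hmi (Eventually.of_forall hm0), hm1]
  simp

lemma slice_norm (v : H) (δ : ℝ) (wt : Z → ℝ≥0∞) (hwt : Measurable wt)
    (hδ : ∀ y, ‖y‖ ≤ 2 * r → ‖bl.P y v - v‖ ≤ δ) :
    ∫⁻ z, ‖SS bl F (KK lam c pf.f) z - v‖ₑ * wt z ≤ ENNReal.ofReal ((C0 / r) ^ Fintype.card J) *
      (∫⁻ x in closedBall c r ×ˢ univ, ‖F x - v‖ₑ * wt x.2) + ENNReal.ofReal δ * ∫⁻ z, wt z := by
  have hm : AEMeasurable (fun x => ‖F x - v‖ₑ)
      (((volume : Measure (J → ℝ)).restrict (closedBall c r)).prod (volume : Measure Z)) := by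
    rw [← Measure.restrict_univ (μ := (volume : Measure Z)), Measure.prod_restrict]
    exact (hF.aestronglyMeasurable.sub aestronglyMeasurable_const).enorm.restrict
  have h2 : ∫⁻ x in closedBall c r ×ˢ univ, ‖F x - v‖ₑ * wt x.2 =
      ∫⁻ z, (∫⁻ t in closedBall c r, ‖F (t, z) - v‖ₑ) * wt z := by
    rw [Measure.volume_eq_prod, ← Measure.prod_restrict, Measure.restrict_univ,
      lintegral_prod_symm (fun x => ‖F x - v‖ₑ * wt x.2)
        (hm.mul (hwt.comp measurable_snd).aemeasurable)]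
    refine lintegral_congr_ae ?_
    filter_upwards [hm.aestronglyMeasurable.prodMk_right] with z hz
    exact lintegral_mul_const'' _ hz.aemeasurable
  rw [h2, ← lintegral_const_mul' _ _ ENNReal.ofReal_ne_top, ← lintegral_const_mul _ hwt,
    ← lintegral_add_right _ (hwt.const_mul _)]
  refine lintegral_mono_ae ?_
  filter_upwards [slice_ae (bl := bl) (c := c) hl h0 h1 hr pf hF] with z hz
  rw [← mul_assoc, ← add_mul]
  exact mul_le_mul_left (SS_bound hl h0 h1 hr pf hδ hz) _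

omit hl h0 h1 hr hF in
lemma II_const_mul (a : ℂ) (κ : WW J Z → ℂ) (φ : H) :
    II bl F (fun p => a * κ p) φ = a * II bl F κ φ := by
  simp only [II, mul_assoc, integral_const_mul]

variable {O : Set ((J → ℝ) × Z)}
  (hw : ∀ i, R.WEq volume O F (Pi.single i 1, 0) fun x => lam x.2 • bv (bl.e i))
  {θ : Z → ℂ} (hθ : ContDiff ℝ ∞ θ) (hc : HasCompactSupport θ)
  (hO : Prod.snd '' QQ c r (tsupport θ) ⊆ O) {ψ : H} (hψ : ψ ∈ R.Dinf)
include hw hθ hc hO hψ

lemma slice_deriv (d : J → ℝ) :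
    HasDerivAt (fun t : ℝ => ∫ z, θ z * ⟪ψ, SS bl F (KK lam (c + t • d) pf.f) z⟫_ℂ)
      (-∫ z, θ z * lam z *
        ∑ i, d i * ⟪gen (R.E (bl.e i)) ψ, SS bl F (KK lam c pf.f) z⟫_ℂ) 0 := by
  have hQ := QQ_cpt c r hc
  have ha := adm_KK (c := c) hl h0 h1 hr pf hθ
  have h2 := hasDerivAt_translate volume (loc_inner (bl := bl) hF ψ) ha.1 (ha.cpt hQ)
    ((0, (d, 0)) : WW J Z)
  have h3 : ∀ t : ℝ, ∫ z, θ z * ⟪ψ, SS bl F (KK lam (c + t • d) pf.f) z⟫_ℂ = _ := fun t =>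
    fubini hF (QQ_cpt _ r hc) (adm_KK hl h0 h1 hr pf hθ) ψ
  simp only [h3]
  refine (h2.congr_of_eventuallyEq (Eventually.of_forall fun t => ?_)).congr_deriv ?_
  · simp [II, KK, kk, nn, tt, sub_sub, add_comm]
  have h4 : pd (fun p : WW J Z => θ p.2.2 * KK lam c pf.f p) (0, (d, 0)) =
      fun p => ∑ i, d i * pd (fun p : WW J Z => θ p.2.2 * KK lam c pf.f p) (Td i) p := by
    ext p
    have : ((0, (d, 0)) : WW J Z) = ∑ i, d i • Td i := by
      ext j <;> simp [Td, Prod.fst_sum, Prod.snd_sum, Pi.single_apply]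
    simp only [pd, this, map_sum, map_smul, real_smul]
  have h5 : ∀ i, Adm (QQ c r (tsupport θ)) fun p => (θ p.2.2 * lam p.2.2 * d i) * KK lam c pf.f p :=
    fun i => by
      have := ha.mul ((lamW_smooth (J := J) hl).mul (contDiff_const (c := (d i : ℂ))))
      convert this using 2; ring
  congr 1
  change II bl F _ ψ = _
  simp only [Finset.mul_sum, ← mul_assoc]
  rw [h4, II_sum hF hQ _ fun i => (ha.pd hQ.isClosed _).mul' contDiff_const,
    integral_finsetSum _ fun i _ =>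
      int_SS' (u := fun z => θ z * lam z * d i) hF hQ (h5 i) _]
  refine Finset.sum_congr rfl fun i _ => ?_
  rw [II_const_mul, II_Td hF hQ hl hO hw ha i hψ,
    fubini (u := fun z => θ z * lam z * d i) hF hQ (h5 i), ← II_const_mul]
  congr 1; ext p; ring

lemma II_zeta (i : J) {U : Z → ι → ℂ} (hU : ContDiff ℝ ∞ U) (l : ι) :
    II bl F (fun p => θ p.2.2 * KK lam c pf.f p *
      (zeta lam c p i * bl.h i (zeta lam c p) (U p.2.2) l)) ψ = 0 := by
  have hH : ContDiff ℝ ∞ fun p : WW J Z => bl.h i (zeta lam c p) (U p.2.2) l :=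
    contDiff_pi.1 (((((bl.hdiff i).restrict_scalars ℝ).comp (zeta_smooth hl)).continuousLinearMap_comp
      (ContinuousLinearMap.restrictScalarsL ℂ _ _ ℝ ℝ)).clm_apply (lamW_smooth hU)) l
  have hu : ContDiff ℝ ∞ fun z => I * (((lam z).im / 2 : ℝ) : ℂ) :=
    contDiff_const.mul (ofReal_smooth ((imCLM.contDiff.comp hl).div_const _))
  have ha := (adm_Fh (c := c) hl h0 h1 hr pf hθ i).mul ((lamW_smooth hu).mul hH)
  rw [← II_DD hF (QQ_cpt c r hc) hl hO hw ha i hψ]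
  congr 1
  ext p
  have e1 := sl_diff (lamW_smooth (J := J) hθ) p
  have e2 := sl_diff (Ke_smooth (c := c) hl h0 pf.f_smooth i) p
  have e3 := sl_diff (ofReal_smooth (kk_smooth (c := c) hl h0 pf.Fh_smooth i)) p
  have e4 := sl_diff (lamW_smooth (J := J) hu) p
  have e5 := sl_diff hH p
  rw [DD_mul i (e1.fun_mul (e2.fun_mul e3)) (e4.fun_mul e5), DD_mul i e1 (e2.fun_mul e3),
    DD_mul i e2 e3, DD_mul i e4 e5, DD_z i hθ, DD_z i hu, DD_Ke hl h0 pf.f_smooth,
    DD_holo (Φ := fun ζ z => bl.h i ζ (U z) l) i (differentiableAt_pi.1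
      ((((bl.hdiff i).differentiable (by simp)) _).clm_apply (differentiableAt_const _)) l) e5,
    KK_eq _ i]
  linear_combination (-(θ p.2.2 * Ke lam c pf.f i p * bl.h i (zeta lam c p) (U p.2.2) l)) *
    ident_B (c := c) hl h0 pf.Fh_smooth pf.der i p

lemma II_Zd (w : Z) : II bl F (fun p => θ p.2.2 * pd (KK lam c pf.f) (Zd w) p) ψ =
    ∑ i, II bl F (fun p => θ p.2.2 * KK lam c pf.f p * (tt c i p * pd lam w p.2.2))
      (gen (R.E (bl.e i)) ψ) := by
  have hQ := QQ_cpt c r hc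
  have ha := adm_KK (c := c) hl h0 h1 hr pf hθ
  have hlw := sl_pd_smooth hl w
  have hu : ContDiff ℝ ∞ fun z => I * (((pd lam w z).im / (lam z).im : ℝ) : ℂ) :=
    contDiff_const.mul (ofReal_smooth ((imCLM.contDiff.comp hlw).div (imCLM.contDiff.comp hl) h0))
  have hb : ∀ i, Adm _ _ := fun i =>
    ha.mul ((ofReal_smooth (tt_smooth (c := c) i)).mul (lamW_smooth hlw))
  have hA : ∀ i, Adm _ _ := fun i =>
    ha.mul ((lamW_smooth hu).mul (ofReal_smooth (nn_smooth (c := c) hl h0 i)))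
  have hD : ∀ i, Adm (QQ c r (tsupport θ)) (DD lam i _) := fun i =>
    ((hA i).pd hQ.isClosed _).sub (((hA i).pd hQ.isClosed _).mul' (lamW_smooth hl))
  have key : ∀ i, II bl F (fun p => θ p.2.2 * KK lam c pf.f p * (tt c i p * pd lam w p.2.2))
      (gen (R.E (bl.e i)) ψ) = _ := fun i => by
    rw [← II_Yd hF hQ (hb i) i hψ, ← sub_zero (II _ _ _ _), ← II_DD hF hQ hl hO hw (hA i) i hψ,
      ← II_sub hF hQ ((hb i).pd hQ.isClosed _) (hD i)]
  simp only [key]
  rw [← II_sum hF hQ _ fun i => ((hb i).pd hQ.isClosed _).sub (hD i)]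
  congr 1
  ext p
  rw [pd_KK hl h0 pf.f_smooth, Finset.mul_sum]
  refine Finset.sum_congr rfl fun i _ => ?_
  have e1 := sl_diff (lamW_smooth (J := J) hθ) p
  have e2 := sl_diff (Ke_smooth (c := c) hl h0 pf.f_smooth i) p
  have e3 := sl_diff (ofReal_smooth (kk_smooth (c := c) hl h0 pf.f_smooth i)) p
  have e4 := sl_diff (lamW_smooth (J := J) hu) p
  have e5 := sl_diff (ofReal_smooth (nn_smooth (c := c) hl h0 i)) p
  have e6 := sl_diff ((ofReal_smooth (tt_smooth (c := c) i)).mul (lamW_smooth hlw)) p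
  have r1 : (fun p : WW J Z => θ p.2.2 * KK lam c pf.f p * (tt c i p * pd lam w p.2.2)) =
      fun p => (θ p.2.2 * (tt c i p * pd lam w p.2.2)) *
        (Ke lam c pf.f i p * kk lam c pf.f i p) := by
    ext p; rw [KK_eq _ i]; ring
  have r2 : (fun p : WW J Z => θ p.2.2 * KK lam c pf.f p *
      (I * (((pd lam w p.2.2).im / (lam p.2.2).im : ℝ) : ℂ) * nn lam c i p)) =
      fun p => (θ p.2.2 * (I * (((pd lam w p.2.2).im / (lam p.2.2).im : ℝ) : ℂ))) *
        (Ke lam c pf.f i p * (nn lam c i p * kk lam c pf.f i p)) := by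
    ext p; rw [KK_eq _ i]; ring
  rw [r1, r2, sl_pd_mul (e1.fun_mul e6) (e2.fun_mul e3), sl_pd_mul e2 e3,
    pd_Ke_Yd hl h0 pf.f_smooth, pd_of_const (e1.fun_mul e6) fun s => by simp [Yd, tt],
    DD_mul i (e1.fun_mul e4) (e2.fun_mul (e5.fun_mul e3)), DD_mul i e1 e4,
    DD_mul i e2 (e5.fun_mul e3), DD_z i hθ, DD_z i hu, DD_Ke hl h0 pf.f_smooth]
  linear_combination (θ p.2.2 * Ke lam c pf.f i p) * ident_A (c := c) hl h0 pf.f_smooth i w p

lemma slice_weak (w : Z) {a : Z → ι → ℂ} (has : ContDiff ℝ ∞ a)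
    (hz : R.WEq volume O F (0, w) fun x =>
      ∑ i, (x.1 i * pd lam w x.2) • bv (bl.e i) + bl.A (fun i => lam x.2 * x.1 i) (a x.2)) :
    ∫ z, pd θ w z * ⟪ψ, SS bl F (KK lam c pf.f) z⟫_ℂ =
      ∫ z, θ z * ⟪R.dU (star (∑ i, (c i * pd lam w z) • bv (bl.e i) +
        bl.A (fun i => lam z * c i) (a z))) ψ, SS bl F (KK lam c pf.f) z⟫_ℂ := by
  have hQ := QQ_cpt c r hc
  have ha := adm_KK (c := c) hl h0 h1 hr pf hθ
  have hlw := sl_pd_smooth hl w
  set U : Z → ι → ℂ := fun z => bl.A (fun i => lam z * c i) (a z) with hU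
  have hUs : ContDiff ℝ ∞ U :=
    (((A_smooth (bl := bl)).comp (contDiff_pi.2 fun i => hl.mul contDiff_const)).continuousLinearMap_comp
      (ContinuousLinearMap.restrictScalarsL ℂ _ _ ℝ ℝ)).clm_apply has
  set ac : Z → ι → ℂ := fun z => ∑ i, (c i * pd lam w z) • bv (bl.e i) + U z with hac
  have hacs : ContDiff ℝ ∞ ac :=
    (ContDiff.sum fun i _ => (contDiff_const.mul hlw).smul contDiff_const).add hUs
  have hT : ∀ i, ContDiff ℝ ∞ fun p : WW J Z => (tt c i p * pd lam w p.2.2 : ℂ) := fun i =>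
    (ofReal_smooth (tt_smooth i)).mul (lamW_smooth hlw)
  have hH : ∀ i, ContDiff ℝ ∞ fun p : WW J Z =>
      zeta lam c p i • bl.h i (zeta lam c p) (U p.2.2) := fun i =>
    (contDiff_pi.1 (zeta_smooth hl) i).smul
      (((((bl.hdiff i).restrict_scalars ℝ).comp (zeta_smooth hl)).continuousLinearMap_comp
      (ContinuousLinearMap.restrictScalarsL ℂ _ _ ℝ ℝ)).clm_apply (lamW_smooth hUs))
  have key := II_weak hF hQ hO hz ha (B := fun p => ac p.2.2 +
    (∑ i, (tt c i p * pd lam w p.2.2 : ℂ) • bv (bl.e i) +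
      ∑ i, zeta lam c p i • bl.h i (zeta lam c p) (U p.2.2))) (fun p => by
      have e : (fun i => (p.1 i : ℂ)) + (fun i => lam p.2.2 * p.2.1 i) =
          zeta lam c p + fun i => lam p.2.2 * c i := by
        ext i; simp [zeta, tt]; ring
      rw [map_add, ← mul_apply_eq_comp, ← bl.hmul, e, bl.hmul, mul_apply_eq_comp,
        bl.hA (zeta lam c p), map_sum]
      simp only [map_smul, bl.fix, hac, add_apply, one_apply_eq_self, sum_apply, smul_apply, tt]
      rw [add_add_add_comm, ← Finset.sum_add_distrib]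
      congr 1
      refine Finset.sum_congr rfl fun i _ => ?_
      rw [← add_smul]; congr 1; push_cast; ring)
    ((lamW_smooth hacs).add ((ContDiff.sum fun i _ => (hT i).smul contDiff_const).add
      (ContDiff.sum fun i _ => hH i))) hψ
  have hθw : Adm (QQ c r (tsupport θ)) fun p => pd θ w p.2.2 * KK lam c pf.f p := by
    have := adm_KK (c := c) hl h0 h1 hr pf (sl_pd_smooth hθ w)
    refine ⟨this.1, fun p hp => this.2 p fun hq => hp ⟨hq.1, hq.2.1, ?_⟩⟩
    exact (Adm.pd (Q := tsupport θ) ⟨hθ, fun z => image_eq_zero_of_notMem_tsupport⟩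
      (isClosed_tsupport θ) w).tsupport (isClosed_tsupport θ) hq.2.2
  have h2 : pd (fun p : WW J Z => θ p.2.2 * KK lam c pf.f p) (0, (0, w)) -
      (fun p => pd θ w p.2.2 * KK lam c pf.f p) =
      fun p => θ p.2.2 * pd (KK lam c pf.f) (Zd w) p := by
    ext p
    rw [Pi.sub_apply, sl_pd_mul (sl_diff (lamW_smooth hθ) p)
      (sl_diff (KK_smooth hl h0 pf.f_smooth) p),
      pd_of_line (sl_diff (lamW_smooth hθ) p) (line_lam hθ p _), Zd]
    ring
  have h3 := II_sub (bl := bl) hF hQ (ha.pd hQ.isClosed (0, (0, w))) hθw ψ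
  rw [show (fun p => _ - _) = _ from h2, II_Zd hl h0 h1 hr pf hF hw hθ hc hO hψ, key] at h3
  have h4 : ∀ l, Adm (QQ c r (tsupport θ)) fun p => (θ p.2.2 * ac p.2.2 l) * KK lam c pf.f p :=
    fun l => by
      have := ha.mul (lamW_smooth (J := J) (contDiff_pi.1 hacs l))
      convert this using 2; ring
  have h5 : ∀ l, II bl F (fun p => θ p.2.2 * KK lam c pf.f p * (ac p.2.2 +
      (∑ i, (tt c i p * pd lam w p.2.2 : ℂ) • bv (bl.e i) +
      ∑ i, zeta lam c p i • bl.h i (zeta lam c p) (U p.2.2))) l) (gen (R.E l) ψ) =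
      II bl F (fun p => (θ p.2.2 * ac p.2.2 l) * KK lam c pf.f p) (gen (R.E l) ψ) +
      ∑ i, II bl F (fun p => θ p.2.2 * KK lam c pf.f p * (tt c i p * pd lam w p.2.2) *
        bv (bl.e i) l) (gen (R.E l) ψ) := fun l => by
    have a1 : ∀ i, Adm _ _ := fun i => (ha.mul (hT i)).mul (contDiff_const (c := bv (bl.e i) l))
    have a2 : ∀ i, Adm (QQ c r (tsupport θ)) fun p => θ p.2.2 * KK lam c pf.f p *
        (zeta lam c p i * bl.h i (zeta lam c p) (U p.2.2) l) := fun i =>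
      ha.mul (contDiff_pi.1 (hH i) l)
    rw [← add_zero (_ + _), ← Finset.sum_eq_zero (s := Finset.univ) fun i _ =>
      II_zeta hl h0 h1 hr pf hF hw hθ hc hO (Rep.gen_mem_Dinf hψ l) i hUs l,
      ← II_sum hF hQ _ a1, ← II_sum hF hQ _ a2, ← II_add hF hQ (h4 l) (Adm.sum _ a1),
      ← II_add hF hQ ((h4 l).add (Adm.sum _ a1)) (Adm.sum _ a2)]
    congr 1
    ext p
    simp only [Pi.add_apply, Finset.sum_apply, Pi.smul_apply, smul_eq_mul, mul_add,
      Finset.mul_sum, mul_assoc]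
    ring
  simp only [h5, Finset.sum_add_distrib] at h3
  rw [Finset.sum_comm] at h3
  simp only [II_bv hF hQ] at h3
  rw [fubini hF hQ hθw]
  simp only [Rep.inner_dU_left, Finset.mul_sum, ← mul_assoc]
  rw [integral_finsetSum _ fun l _ => int_SS' (u := fun z => θ z * ac z l) hF hQ (h4 l) _]
  simp only [fun l => fubini (bl := bl) (u := fun z => θ z * ac z l) hF hQ (h4 l)]
  linear_combination h3

end Pool.Agent.Lib.MP_e2ef7e_al.Gen.Sl

namespace Pool.Agent.Lib.MP_e2ef7e_al.Gen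

open Sl

/-- restriction of weak solutions to slices by mean values -/
theorem slice : ∃ C0 : ℝ, 0 < C0 ∧ ∀ {ι : Type} [Fintype ι] [DecidableEq ι] {L : LieD ι}
    {H : Type} [NormedAddCommGroup H] [InnerProductSpace ℂ H] [CompleteSpace H] {R : Rep L H}
    {J : Type} [Fintype J] [DecidableEq J] (bl : Block R J)
    {Z : Type} [NormedAddCommGroup Z] [NormedSpace ℝ Z] [FiniteDimensional ℝ Z]
    [MeasureSpace Z] [BorelSpace Z] [(volume : Measure Z).IsAddHaarMeasure]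
    (lam : Z → ℂ) (_ : ContDiff ℝ ∞ lam) (_ : ∀ z, (lam z).im ≠ 0) (_ : ∀ z, ‖lam z‖ ≤ 1)
    (Ω : Set Z) (ρ : ℝ) (F : (J → ℝ) × Z → H) (_ : LocallyIntegrable F volume)
    (_ : ∀ i, R.WEq volume (Metric.ball 0 ρ ×ˢ Ω) F (Pi.single i 1, 0)
      fun x => lam x.2 • bv (bl.e i))
    (r : ℝ) (_ : 0 < r), ∃ S : (J → ℝ) → Z → H, ∀ c, ‖c‖ + r < ρ →
      LocallyIntegrable (S c) volume ∧
      (∀ (w : Z) (a : Z → ι → ℂ), ContDiff ℝ ∞ a →
        R.WEq volume (Metric.ball 0 ρ ×ˢ Ω) F (0, w) (fun x =>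
          ∑ i, (x.1 i * pd lam w x.2) • bv (bl.e i) + bl.A (fun i => lam x.2 * x.1 i) (a x.2)) →
        R.WEq volume Ω (S c) w fun z =>
          ∑ i, (c i * pd lam w z) • bv (bl.e i) + bl.A (fun i => lam z * c i) (a z)) ∧
      (∀ (θ : Z → ℂ), ContDiff ℝ ∞ θ → HasCompactSupport θ → tsupport θ ⊆ Ω → ∀ ψ ∈ R.Dinf,
        ∀ d : J → ℝ, HasDerivAt (fun t : ℝ => ∫ z, θ z * ⟪ψ, S (c + t • d) z⟫_ℂ)
          (-∫ z, θ z * lam z * ∑ i, d i * ⟪gen (R.E (bl.e i)) ψ, S c z⟫_ℂ) 0) ∧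
      ∀ (v : H) (δ : ℝ) (wt : Z → ℝ≥0∞), Measurable wt →
        (∀ y, ‖y‖ ≤ 2 * r → ‖bl.P y v - v‖ ≤ δ) →
        ∫⁻ z, ‖S c z - v‖ₑ * wt z ≤ ENNReal.ofReal ((C0 / r) ^ Fintype.card J) *
          (∫⁻ x in Metric.closedBall c r ×ˢ univ, ‖F x - v‖ₑ * wt x.2) +
          ENNReal.ofReal δ * ∫⁻ z, wt z := by
  obtain ⟨C0, hC, hp⟩ := exists_prof
  refine ⟨C0, hC, ?_⟩
  intro ι _ _ L H _ _ _ R J _ _ bl Z _ _ _ _ _ _ lam hl h0 h1 Ω ρ F hF hw r hr
  obtain ⟨pf⟩ := hp r hr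
  refine ⟨fun c => SS bl F (KK lam c pf.f), fun c hc => ?_⟩
  have hO : ∀ θ : Z → ℂ, tsupport θ ⊆ Ω →
      Prod.snd '' QQ c r (tsupport θ) ⊆ Metric.ball 0 ρ ×ˢ Ω := by
    rintro θ hθ _ ⟨p, hp, rfl⟩
    refine ⟨mem_ball_zero_iff.2 ?_, hθ hp.2.2⟩
    have := mem_closedBall_iff_norm.1 hp.2.1
    linarith [norm_le_norm_add_norm_sub' p.2.1 c]
  exact ⟨slice_loc hl h0 h1 hr pf hF,
    fun w a ha hz θ hθ hcθ hs ψ hψ => slice_weak hl h0 h1 hr pf hF hw hθ hcθ (hO θ hs) hψ w ha hz,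
    fun θ hθ hcθ hs ψ hψ d => slice_deriv hl h0 h1 hr pf hF hw hθ hcθ (hO θ hs) hψ d,
    slice_norm hl h0 h1 hr pf hF⟩

end Pool.Agent.Lib.MP_e2ef7e_al.Gen
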