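import Pool.Agent.Lib.MP_e2ef7e_al.GDefs3
import Pool.Agent.Lib.MP_e2ef7e_al.EqFixA
import Pool.Agent.Lib.MP_e2ef7e_al.Geo1
import Pool.Agent.Lib.MP_e2ef7e_al.BdryRes
import Pool.Agent.Lib.MP_e2ef7e_al.Slice

/-!
Weak equations under changes of variables, and the blocks of commuting directions.
-/

open MeasureTheory Complex Set Filter Topology
open scoped ComplexConjugate InnerProductSpace ContDiff ENNReal

noncomputable section

namespace Pool.Agent.Lib.MP_e2ef7e_al.Gen.Sb

variable {ι : Type} [Fintype ι] [DecidableEq ι] {L : LieD ι}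
  {H : Type} [NormedAddCommGroup H] [InnerProductSpace ℂ H] {R : Rep L H}

section weq

variable {X Y : Type} [NormedAddCommGroup X] [NormedSpace ℝ X] [MeasurableSpace X]
  [NormedAddCommGroup Y] [NormedSpace ℝ Y] [MeasurableSpace Y]

lemma WEq_mono {μ : Measure X} {Ω Ω' : Set X} {F : X → H} {w : X} {a : X → ι → ℂ}
    (h : R.WEq μ Ω F w a) (hΩ : Ω' ⊆ Ω) : R.WEq μ Ω' F w a :=
  fun θ h1 h2 h3 => h θ h1 h2 (h3.trans hΩ)

lemma WEq_indicator {μ : Measure X} {Ω Q : Set X} {F : X → H} {w : X} {a : X → ι → ℂ}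
    (h : R.WEq μ Ω F w a) (hQ : Q ⊆ Ω) : R.WEq μ Q (Q.indicator F) w a := by
  intro θ h1 h2 h3 ψ hψ
  have e1 : (fun x => pd θ w x * ⟪ψ, Q.indicator F x⟫_ℂ) = fun x => pd θ w x * ⟪ψ, F x⟫_ℂ := by
    funext x
    by_cases hx : x ∈ Q
    · rw [indicator_of_mem hx]
    · have : pd θ w x = 0 := by
        rw [pd, fderiv_of_notMem_tsupport ℝ fun h' => hx (h3 h')]; rfl
      rw [this, zero_mul, zero_mul]
  have e2 : (fun x => θ x * ⟪R.dU (star (a x)) ψ, Q.indicator F x⟫_ℂ) =
      fun x => θ x * ⟪R.dU (star (a x)) ψ, F x⟫_ℂ := by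
    funext x
    by_cases hx : x ∈ Q
    · rw [indicator_of_mem hx]
    · rw [image_eq_zero_of_notMem_tsupport fun h' => hx (h3 h'), zero_mul, zero_mul]
  rw [e1, e2]
  exact h θ h1 h2 (h3.trans hQ) ψ hψ

lemma WEq_comp [BorelSpace X] [BorelSpace Y] {μ : Measure X} {ν : Measure Y} (e : X ≃L[ℝ] Y)
    (he : MeasurePreserving e μ ν) {Ω : Set Y} {F : Y → H} {w : X} {a : Y → ι → ℂ}
    (h : R.WEq ν Ω F (e w) a) : R.WEq μ (e ⁻¹' Ω) (fun x => F (e x)) w fun x => a (e x) := by
  intro θ h1 h2 h3 ψ hψ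
  have hm : MeasurableEmbedding e := e.toHomeomorph.measurableEmbedding
  have h4 : tsupport (θ ∘ e.symm) ⊆ Ω := by
    intro y hy
    have h5 : e.symm y ∈ tsupport θ := by
      have := e.symm.toHomeomorph.preimage_closure (Function.support θ)
      have h6 : y ∈ e.symm.toHomeomorph ⁻¹' closure (Function.support θ) := by
        rw [this]; exact hy
      exact h6
    simpa using h3 h5
  have h5 := h (θ ∘ e.symm) (h1.comp e.symm.contDiff)
    (h2.comp_homeomorph e.symm.toHomeomorph) h4 ψ hψ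
  rw [← he.integral_comp hm, ← he.integral_comp hm] at h5
  have h6 : ∀ x, pd (θ ∘ e.symm) (e w) (e x) = pd θ w x := fun x => by
    rw [pd, e.symm.comp_right_fderiv]
    simp [pd]
  simpa only [h6, Function.comp_apply, ContinuousLinearEquiv.symm_apply_apply] using h5

lemma loc_comp [BorelSpace X] [BorelSpace Y] {μ : Measure X} {ν : Measure Y} (e : X ≃L[ℝ] Y)
    (he : MeasurePreserving e μ ν) {F : Y → H} (h : LocallyIntegrable F ν) :
    LocallyIntegrable (fun x => F (e x)) μ := by
  rw [← he.map_eq] at h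
  exact (locallyIntegrable_map_homeomorph e.toHomeomorph).1 h

lemma contDiff_omL {n : ℕ} (idx : Fin n → ι) {f g : Fin n → X → ℂ} (hf : ∀ j, ContDiff ℝ ∞ (f j))
    (hg : ∀ j, ContDiff ℝ ∞ (g j)) {y : X → ι → ℂ} (hy : ContDiff ℝ ∞ y) :
    ContDiff ℝ ∞ fun x => L.omL (List.ofFn fun j => (idx j, f j x, g j x)) (y x) := by
  induction n with
  | zero => simpa [LieD.omL] using hy
  | succ n ih =>
    simp only [List.ofFn_succ, LieD.omL]
    refine ((hg 0).smul contDiff_const).add ?_
    have h1 : ContDiff ℝ ∞ fun x => L.ex (f 0 x • bv (idx 0)) :=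
      ((L.contDiff_ex (bv (idx 0))).restrict_scalars ℝ).comp (hf 0)
    have h2 := ih (fun j => idx j.succ) (fun j => hf j.succ) (fun j => hg j.succ)
    exact ((isBoundedBilinearMap_apply (𝕜 := ℂ) (E := ι → ℂ)
      (F := ι → ℂ)).contDiff.restrict_scalars ℝ).comp (h1.prodMk h2)

lemma omL_zero {n : ℕ} (idx : Fin n → ι) (f : Fin n → ℂ) :
    L.omL (List.ofFn fun j => (idx j, f j, (0 : ℂ))) 0 = 0 := by
  induction n with
  | zero => simp [LieD.omL]
  | succ n ih =>
    simp only [List.ofFn_succ, LieD.omL]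
    rw [ih (fun j => idx j.succ) (fun j => f j.succ)]
    simp

end weq

section Pl

lemma Pl_zero (idx : Fin 0 → ι) (y : Fin 0 → ℝ) : R.Pl idx y = 1 := by simp [Rep.Pl]

lemma Pl_succ {n : ℕ} (idx : Fin (n + 1) → ι) (y : Fin (n + 1) → ℝ) :
    R.Pl idx y = R.E (idx 0) (y 0) * R.Pl (fun j => idx j.succ) (fun j => y j.succ) := by
  simp [Rep.Pl, List.ofFn_succ]

lemma Pl_succ_apply {n : ℕ} (idx : Fin (n + 1) → ι) (y : Fin (n + 1) → ℝ) (v : H) :
    R.Pl idx y v = R.E (idx 0) (y 0) (R.Pl (fun j => idx j.succ) (fun j => y j.succ) v) := by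
  rw [Pl_succ]; rfl

lemma Pl_succ_symm {n : ℕ} (idx : Fin (n + 1) → ι) (y : Fin (n + 1) → ℝ) (v : H) :
    (R.Pl idx y).symm v =
      (R.Pl (fun j => idx j.succ) (fun j => y j.succ)).symm (R.E (idx 0) (-(y 0)) v) := by
  rw [LinearIsometryEquiv.symm_apply_eq, Pl_succ_apply, LinearIsometryEquiv.apply_symm_apply,
    (R.oneP _).apply_neg]

lemma Pl_cont {n : ℕ} (idx : Fin n → ι) (v : H) : Continuous fun y => R.Pl idx y v := by
  induction n with
  | zero => simp only [Pl_zero]; exact continuous_const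
  | succ n ih =>
    simp only [Pl_succ_apply]
    have h1 : Continuous fun y : Fin (n + 1) → ℝ => fun j : Fin n => y j.succ := by fun_prop
    have h2 : Continuous fun y : Fin (n + 1) → ℝ =>
        (y 0, R.Pl (fun j => idx j.succ) (fun j => y j.succ) v) :=
      (continuous_apply 0).prodMk ((ih fun j => idx j.succ).comp h1)
    exact (R.oneP (idx 0)).cont2.comp h2

lemma Pl_at_zero {n : ℕ} (idx : Fin n → ι) (v : H) : R.Pl idx 0 v = v := by
  induction n with
  | zero => simp [Pl_zero]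
  | succ n ih =>
    rw [Pl_succ_apply, Pi.zero_apply, (R.oneP _).zero]
    exact ih _

lemma Pl_symm_cont {n : ℕ} (idx : Fin n → ι) :
    Continuous fun q : (Fin n → ℝ) × H => (R.Pl idx q.1).symm q.2 := by
  induction n with
  | zero => simp only [Pl_zero]; exact continuous_snd
  | succ n ih =>
    simp only [Pl_succ_symm]
    have h1 : Continuous fun q : (Fin (n + 1) → ℝ) × H => fun j : Fin n => q.1 j.succ := by
      fun_prop
    have h2 : Continuous fun q : (Fin (n + 1) → ℝ) × H => (-(q.1 0), q.2) := by fun_prop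
    have h3 : Continuous fun q : (Fin (n + 1) → ℝ) × H =>
        ((fun j : Fin n => q.1 j.succ), R.E (idx 0) (-(q.1 0)) q.2) :=
      h1.prodMk ((R.oneP (idx 0)).cont2.comp h2)
    exact (ih fun j => idx j.succ).comp h3

variable [CompleteSpace H]

lemma Pl_symm_mem {n : ℕ} (idx : Fin n → ι) (y : Fin n → ℝ) {ψ : H} (hψ : ψ ∈ R.Dinf) :
    (R.Pl idx y).symm ψ ∈ R.Dinf := by
  induction n generalizing ψ with
  | zero => rw [Pl_zero]; exact hψ
  | succ n ih => rw [Pl_succ_symm]; exact ih _ _ (Rep.E_mem_Dinf hψ _ _)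

lemma dU_Pl_symm {n : ℕ} (idx : Fin n → ι) (y : Fin n → ℝ) {ψ : H} (hψ : ψ ∈ R.Dinf)
    (W : ι → ℂ) : R.dU W ((R.Pl idx y).symm ψ) =
      (R.Pl idx y).symm (R.dU (L.Kop (List.ofFn fun j => (idx j, (y j : ℂ))) W) ψ) := by
  induction n generalizing ψ with
  | zero => rw [Pl_zero]; rfl
  | succ n ih =>
    rw [Pl_succ_symm, Pl_succ_symm, ih _ _ (Rep.E_mem_Dinf hψ _ _), Rep.dU_E (Rep.dom_of_mem hψ)]
    simp [List.ofFn_succ, LieD.Kop]

lemma Pl_symm_der {n : ℕ} (idx : Fin n → ι)
    (hc : ∀ j k (t : ℂ), L.ex (t • bv (idx j)) (bv (idx k)) = bv (idx k)) (y : Fin n → ℝ)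
    (i : Fin n) {ψ : H} (hψ : ψ ∈ R.Dinf) :
    HasDerivAt (fun s => (R.Pl idx (Function.update y i s)).symm ψ)
      (-(R.Pl idx y).symm (gen (R.E (idx i)) ψ)) (y i) := by
  induction n generalizing ψ with
  | zero => exact i.elim0
  | succ n ih =>
    simp only [Pl_succ_symm]
    refine Fin.cases ?_ (fun i => ?_) i
    · simp only [Function.update_self, Function.update_of_ne (Fin.succ_ne_zero _)]
      have h1 := ((R.oneP (idx 0)).hasDerivAt (Rep.dom_of_mem hψ (idx 0)) (-(y 0))).scomp (y 0)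
        (hasDerivAt_neg (y 0))
      have h2 := ((R.Pl (fun j => idx j.succ) fun j =>
        y j.succ).symm.toContinuousLinearEquiv.toContinuousLinearMap.restrictScalars
        ℝ).hasFDerivAt.comp_hasDerivAt (y 0) h1
      simpa [Function.comp_def] using h2
    · have e : ∀ s, (fun j : Fin n => Function.update y i.succ s j.succ) =
          Function.update (fun j => y j.succ) i s := fun s => by
        funext j
        by_cases h : j = i
        · subst h; simp
        · rw [Function.update_of_ne h, Function.update_of_ne fun h' => h (Fin.succ_injective _ h')]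
      simp only [e, Function.update_of_ne (Fin.succ_ne_zero i).symm]
      have h1 := ih (fun j => idx j.succ) (fun j k => hc j.succ k.succ) (fun j => y j.succ) i
        (Rep.E_mem_Dinf hψ (idx 0) (-(y 0)))
      rwa [(Rep.gen_E (Rep.dom_of_mem hψ) _ _ _).2, hc, Rep.dU_bv] at h1

end Pl

variable [CompleteSpace H]

/-- the block of a single direction -/
def blockOne (R : Rep L H) (i : ι) : Block R Unit where
  e _ := i
  P y := R.E i (y ())
  cont v := (R.cont i v).comp (continuous_apply ())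
  cont' v := by
    simp only [(R.oneP i).symm]
    exact (R.cont i v).comp (continuous_apply ()).neg
  mem y ψ hψ := by rw [(R.oneP i).symm]; exact Rep.E_mem_Dinf hψ _ _
  der y j ψ hψ := by
    simp only [(R.oneP i).symm, Function.update_self]
    have h1 := ((R.oneP i).hasDerivAt (Rep.dom_of_mem hψ i) (-(y ()))).scomp (y ())
        (hasDerivAt_neg (y ()))
    simpa [Function.comp_def] using h1
  A z := L.ex (z () • bv i)
  h _ z := dslope (fun t : ℂ => L.ex (t • bv i)) 0 (z ())
  hdiff _ := by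
    have h1 : Differentiable ℂ (dslope (fun t : ℂ => L.ex (t • bv i)) 0) := by
      rw [← differentiableOn_univ, Complex.differentiableOn_dslope univ_mem]
      exact fun t _ => (L.hasDerivAt_ex (bv i) t).differentiableAt.differentiableWithinAt
    exact h1.contDiff.comp (contDiff_apply ℂ ℂ ())
  hA z := by
    have := sub_smul_dslope (fun t : ℂ => L.ex (t • bv i)) 0 (z ())
    simp only [sub_zero, zero_smul, L.ex_zero] at this
    simp only [Finset.univ_unique, Finset.sum_singleton, PUnit.default_eq_unit, this]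
    abel
  hmul z w := L.ex_smul_add _ _ _
  fix z _ := L.ex_smul_self _ _
  Ad y Y ψ hψ := by
    simp only [(R.oneP i).symm]
    rw [Rep.dU_E (Rep.dom_of_mem hψ), L.star_ex]
    simp [star_bv]

section bblock

variable {r m p : ℕ} {L : LieD (Idx r m p)}

/-- complex coordinates on the part of degree minus one -/
def cm (z : Fin m → ℂ) : Idx r m p → ℂ := ∑ k, z k • bv (im k)

lemma isW_cm (z : Fin m → ℂ) : IsW (-1) (cm z : Idx r m p → ℂ) :=
  IsW.sum _ fun k => (isW_bv (im k)).smul _

lemma cm_add (z w : Fin m → ℂ) : (cm (z + w) : Idx r m p → ℂ) = cm z + cm w := by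
  simp [cm, add_smul, Finset.sum_add_distrib]

lemma cm_mul (c : ℂ) (b : Fin m → ℝ) :
    (cm (fun k => c * b k) : Idx r m p → ℂ) = c • embm b := by
  simp only [cm, embm, Finset.smul_sum, smul_smul]

lemma Kop_eq (hL : Graded L) {n : ℕ} (idx : Fin n → Idx r m p) (hi : ∀ j, wt (idx j) = -1)
    (z : Fin n → ℂ) : L.Kop (List.ofFn fun j => (idx j, z j)) = L.Ex (∑ j, z j • bv (idx j)) := by
  have hw : ∀ j, IsW (-1) (bv (idx j)) := fun j => hi j ▸ isW_bv (idx j)
  induction n with
  | zero => simp [LieD.Kop, Ex_zero]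
  | succ n ih =>
    rw [List.ofFn_succ, LieD.Kop, ih _ (fun j => hi j.succ) _ (fun j => hw j.succ),
      Fin.sum_univ_succ, hL.Ex_add (Or.inr rfl) ((hw 0).smul _)
        (IsW.sum _ fun j : Fin n => (hw j.succ).smul (z j.succ)),
      hL.ex_eq (Or.inr rfl) ((hw 0).smul _)]

/-- the block of the directions of degree minus one -/
def blockM (hL : Graded L) (R : Rep L H) : Block R (Fin m) where
  e := im
  P y := R.Pl im y
  cont v := Pl_cont im v
  cont' v := (Pl_symm_cont im).comp (continuous_id.prodMk continuous_const)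
  mem y _ hψ := Pl_symm_mem im y hψ
  der y i _ hψ := Pl_symm_der im (fun j k t => by
    rw [hL.ex_eq (Or.inr rfl) ((isW_bv (im j)).smul t)]
    exact hL.Ex_same (Or.inr rfl) ((isW_bv (im j)).smul t) (isW_bv (im k))) y i hψ
  A z := L.Ex (cm z)
  h i z := L.br (bv (im i)) + (1 / 2 : ℂ) • (L.br (bv (im i)) * L.br (cm z))
  hdiff i := by
    refine contDiff_const.add (ContDiff.const_smul _ (contDiff_const.mul (L.br.contDiff.comp ?_)))
    exact ContDiff.sum fun k _ => (contDiff_apply ℂ ℂ k).smul contDiff_const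
  hA z := by
    ext1 u
    have h1 : ∀ y, L.br (cm z) y = ∑ k, z k • L.br (bv (im k)) y := fun y => by simp [cm]
    rw [Ex_apply, h1 (L.br (cm z) u), Finset.smul_sum]
    conv_lhs => rw [add_assoc]; congr; rfl; congr; rw [h1]
    rw [← Finset.sum_add_distrib]
    simp only [add_apply, one_apply_eq_self, sum_apply, smul_apply, mul_apply_eq_comp, smul_add]
    congr 1
    exact Finset.sum_congr rfl fun k _ => by rw [smul_comm]
  hmul z w := by rw [cm_add, hL.Ex_add (Or.inr rfl) (isW_cm z) (isW_cm w)]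
  fix z i := hL.Ex_same (Or.inr rfl) (isW_cm z) (isW_bv (im i))
  Ad y Y ψ hψ := by
    rw [dU_Pl_symm im y hψ, Kop_eq hL im wt_im]
    have h1 := congrArg (fun T => T (star Y)) (cjop_Ex L (cm fun i => (y i : ℂ)))
    simp only [cjop_apply, star_star] at h1
    rw [h1]
    simp [cm, star_bv]

end bblock

end Pool.Agent.Lib.MP_e2ef7e_al.Gen.Sb
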