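import Pool.Agent.Lib.MP_e2ef7e_al.SlabT1

/-!
Nested slices in the directions of degree zero.
-/

open MeasureTheory Complex Set Filter Topology
open scoped ComplexConjugate InnerProductSpace ContDiff ENNReal

noncomputable section

namespace Pool.Agent.Lib.MP_e2ef7e_al.Gen.Sb

variable {Z : Type} [NormedAddCommGroup Z] [NormedSpace ℝ Z] [FiniteDimensional ℝ Z]

variable (Z) in
/-- splitting off the first coordinate -/
def consE (n : ℕ) : ((Unit → ℝ) × ((Fin n → ℝ) × Z)) ≃L[ℝ] (Fin (n + 1) → ℝ) × Z :=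
  LinearEquiv.toContinuousLinearEquiv
    { toFun := fun q => (Fin.cons (α := fun _ => ℝ) (q.1 ()) q.2.1, q.2.2)
      invFun := fun x => (fun _ => x.1 0, (fun j => x.1 j.succ, x.2))
      map_add' := fun q q' => by
        refine Prod.ext (funext fun j => ?_) rfl
        refine Fin.cases ?_ (fun j => ?_) j <;> simp
      map_smul' := fun c q => by
        refine Prod.ext (funext fun j => ?_) rfl
        refine Fin.cases ?_ (fun j => ?_) j <;> simp
      left_inv := fun q => by simp
      right_inv := fun x => by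
        refine Prod.ext (funext fun j => ?_) rfl
        refine Fin.cases ?_ (fun j => ?_) j <;> simp }

lemma consE_apply (n : ℕ) (q : (Unit → ℝ) × ((Fin n → ℝ) × Z)) :
    consE Z n q = (Fin.cons (α := fun _ => ℝ) (q.1 ()) q.2.1, q.2.2) := rfl

lemma norm_cons {n : ℕ} (a : Unit → ℝ) (b : Fin n → ℝ) :
    ‖Fin.cons (α := fun _ => ℝ) (a ()) b‖ = max ‖a‖ ‖b‖ := by
  refine le_antisymm ((pi_norm_le_iff_of_nonneg (by positivity)).2 fun j => ?_) (max_le ?_ ?_)
  · refine Fin.cases ?_ (fun j => ?_) j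
    · exact (norm_le_pi_norm a ()).trans (le_max_left _ _)
    · exact (norm_le_pi_norm b j).trans (le_max_right _ _)
  · exact (pi_norm_le_iff_of_nonneg (norm_nonneg _)).2 fun _ =>
      norm_le_pi_norm (Fin.cons (α := fun _ => ℝ) (a ()) b) 0
  · exact (pi_norm_le_iff_of_nonneg (norm_nonneg _)).2 fun j =>
      norm_le_pi_norm (Fin.cons (α := fun _ => ℝ) (a ()) b) j.succ

lemma consE_ball (n : ℕ) (ρ : ℝ) (Ω : Set Z) :
    consE Z n ⁻¹' (Metric.ball 0 ρ ×ˢ Ω) = Metric.ball 0 ρ ×ˢ (Metric.ball 0 ρ ×ˢ Ω) := by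
  ext q
  simp only [mem_preimage, consE_apply, mem_prod, mem_ball_zero_iff, norm_cons, max_lt_iff,
    and_assoc]

lemma consE_closedBall (n : ℕ) (ρ : ℝ) (Ω : Set Z) :
    consE Z n ⁻¹' (Metric.closedBall 0 ρ ×ˢ Ω) =
      Metric.closedBall 0 ρ ×ˢ (Metric.closedBall 0 ρ ×ˢ Ω) := by
  ext q
  simp only [mem_preimage, consE_apply, mem_prod, mem_closedBall_zero_iff, norm_cons, max_le_iff,
    and_assoc]

variable (Z) in
/-- no coordinate at all -/
def nilE : Z ≃L[ℝ] (Fin 0 → ℝ) × Z :=
  LinearEquiv.toContinuousLinearEquiv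
    { toFun := fun z => (0, z)
      invFun := fun x => x.2
      map_add' := fun q q' => by simp
      map_smul' := fun c q => by simp
      left_inv := fun _ => rfl
      right_inv := fun x => Prod.ext (Subsingleton.elim _ _) rfl }

lemma nilE_apply (z : Z) : nilE Z z = (0, z) := rfl

variable [MeasureSpace Z] [BorelSpace Z] [(volume : Measure Z).IsAddHaarMeasure]

lemma consE_mp (n : ℕ) : MeasurePreserving (consE Z n) volume volume := by
  have h1 := (volume_preserving_funUnique Unit ℝ).prod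
    (MeasurePreserving.id (volume : Measure ((Fin n → ℝ) × Z)))
  have h2 := (volume_preserving_prodAssoc (α₁ := ℝ) (β₁ := Fin n → ℝ) (γ₁ := Z)).symm _
  have h3 := ((volume_preserving_piFinSuccAbove (fun _ : Fin (n + 1) => ℝ) 0).symm _).prod
    (MeasurePreserving.id (volume : Measure Z))
  have h4 := h3.comp (h2.comp h1)
  have e : (consE Z n : _ → _) =
      Prod.map (MeasurableEquiv.piFinSuccAbove (fun _ : Fin (n + 1) => ℝ) 0).symm id ∘
      MeasurableEquiv.prodAssoc.symm ∘ Prod.map (MeasurableEquiv.funUnique Unit ℝ) id := by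
    funext q
    rw [consE_apply]
    refine Prod.ext ?_ rfl
    exact (Fin.insertNth_zero' (q.1 ()) q.2.1).symm
  rw [e]
  exact h4

lemma nilE_mp : MeasurePreserving (nilE Z) volume volume := by
  refine ⟨(nilE Z).continuous.measurable, ?_⟩
  rw [Measure.volume_eq_prod, Measure.volume_pi_eq_dirac (0 : Fin 0 → ℝ), Measure.dirac_prod]
  rfl

omit [NormedAddCommGroup Z] [NormedSpace ℝ Z] [FiniteDimensional ℝ Z] [BorelSpace Z]
  [(volume : Measure Z).IsAddHaarMeasure] in
lemma lintegral_box [SFinite (volume : Measure Z)] {Y : Type} [MeasureSpace Y]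
    [SFinite (volume : Measure Y)] (D : Set Y) {wt : Z → ℝ≥0∞} (hwt : Measurable wt) :
    ∫⁻ x in D ×ˢ (univ : Set Z), wt x.2 = volume D * ∫⁻ z, wt z := by
  rw [Measure.volume_eq_prod, ← Measure.prod_restrict, Measure.restrict_univ]
  have := lintegral_prod_mul (μ := (volume : Measure Y).restrict D) (ν := (volume : Measure Z))
    (f := fun _ => 1) (g := wt) aemeasurable_const hwt.aemeasurable
  simpa using this

/-- nested slices -/
theorem nest : ∃ (C0 : ℝ) (K : ℕ → ℝ), 0 < C0 ∧ (∀ n, 0 ≤ K n) ∧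
    ∀ {ι : Type} [Fintype ι] [DecidableEq ι] {L : LieD ι}
    {H : Type} [NormedAddCommGroup H] [InnerProductSpace ℂ H] [CompleteSpace H] {R : Rep L H}
    {Z : Type} [NormedAddCommGroup Z] [NormedSpace ℝ Z] [FiniteDimensional ℝ Z]
    [MeasureSpace Z] [BorelSpace Z] [(volume : Measure Z).IsAddHaarMeasure]
    (lam : Z → ℂ) (_ : ContDiff ℝ ∞ lam) (_ : ∀ z, (lam z).im ≠ 0) (_ : ∀ z, ‖lam z‖ ≤ 1)
    (Ω : Set Z) (ρ r : ℝ) (_ : 0 < r) (_ : r < ρ) (n : ℕ) (idx : Fin n → ι)
    (F : (Fin n → ℝ) × Z → H) (_ : LocallyIntegrable F volume)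
    (_ : ∀ k, R.WEq volume (Metric.ball 0 ρ ×ˢ Ω) F (Pi.single k 1, 0) fun x =>
      L.omL (List.ofFn fun j => (idx j, lam x.2 * x.1 j,
        lam x.2 * (Pi.single k 1 : Fin n → ℝ) j)) 0),
    ∃ S : Z → H, LocallyIntegrable S volume ∧
      (∀ (w : Z) (Y : Z → ι → ℂ), ContDiff ℝ ∞ Y →
        R.WEq volume (Metric.ball 0 ρ ×ˢ Ω) F (0, w) (fun x =>
          L.omL (List.ofFn fun j => (idx j, lam x.2 * x.1 j, x.1 j * pd lam w x.2)) (Y x.2)) →
        R.WEq volume Ω S w Y) ∧
      ∀ (v : H) (δ : ℝ) (wt : Z → ℝ≥0∞), 0 ≤ δ → Measurable wt →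
        (∀ j t, |t| ≤ 2 * r → ‖R.E (idx j) t v - v‖ ≤ δ) →
        ∫⁻ z, ‖S z - v‖ₑ * wt z ≤ ENNReal.ofReal ((C0 / r) ^ n) *
          (∫⁻ x in Metric.closedBall 0 r ×ˢ univ, ‖F x - v‖ₑ * wt x.2) +
          ENNReal.ofReal (K n * δ) * ∫⁻ z, wt z := by
  obtain ⟨C0, hC0, hs⟩ := slice
  refine ⟨C0, fun n => ∑ j ∈ Finset.range n, (2 * C0) ^ j, hC0,
    fun n => Finset.sum_nonneg fun j _ => by positivity, ?_⟩
  intro ι _ _ L H _ _ _ R Z _ _ _ _ _ _ lam hl h0 h1 Ω ρ r hr hρ n
  induction n with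
  | zero =>
    intro idx F hF _
    refine ⟨fun z => F (nilE Z z), loc_comp (nilE Z) nilE_mp hF, fun w Y _ h => ?_,
      fun v δ wt _ hwt _ => ?_⟩
    · have h2 := WEq_comp (nilE Z) nilE_mp (w := w) h
      refine WEq_mono h2 fun z hz => ⟨?_, hz⟩
      exact Metric.mem_ball_self (hr.trans hρ)
    · have h2 : (Metric.closedBall (0 : Fin 0 → ℝ) r ×ˢ (univ : Set Z)) = univ := by
        ext x
        simp [Subsingleton.elim x.1 0, hr.le]
      rw [h2, Measure.restrict_univ,
        ← nilE_mp.lintegral_comp_emb (nilE Z).toHomeomorph.measurableEmbedding]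
      simp [nilE_apply]
  | succ n ih =>
    intro idx F hF hk
    have hl' : ContDiff ℝ ∞ fun q : (Fin n → ℝ) × Z => lam q.2 := hl.comp contDiff_snd
    have hpd : ∀ (w : (Fin n → ℝ) × Z) (q : (Fin n → ℝ) × Z),
        pd (fun q : (Fin n → ℝ) × Z => lam q.2) w q = pd lam w.2 q.2 := fun w q =>
      Sl.pd_of_line (Sl.sl_diff hl' q) (Sl.line_pd (Sl.sl_diff hl q.2) w.2)
    have hc : ∀ j : Fin n, ContDiff ℝ ∞ fun q : (Fin n → ℝ) × Z => ((q.1 j : ℝ) : ℂ) := fun j =>
      Sl.ofReal_smooth (by fun_prop)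
    have hT : ∀ {w : (Unit → ℝ) × ((Fin n → ℝ) × Z)} {w' : (Fin (n + 1) → ℝ) × Z}
        {a : (Fin (n + 1) → ℝ) × Z → ι → ℂ} {a' : (Unit → ℝ) × ((Fin n → ℝ) × Z) → ι → ℂ},
        R.WEq volume (Metric.ball 0 ρ ×ˢ Ω) F w' a → consE Z n w = w' →
        (∀ q, a (consE Z n q) = a' q) →
        R.WEq volume (Metric.ball 0 ρ ×ˢ (Metric.ball 0 ρ ×ˢ Ω)) (fun q => F (consE Z n q)) w a' := by
      intro w w' a a' h hw ha
      subst hw
      have h2 := WEq_comp (consE Z n) (consE_mp n) h
      rw [consE_ball] at h2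
      simpa only [ha] using h2
    obtain ⟨S1, hS1⟩ := hs (blockOne R (idx 0)) (fun q : (Fin n → ℝ) × Z => lam q.2) hl'
      (fun q => h0 _) (fun q => h1 _) (Metric.ball 0 ρ ×ˢ Ω) ρ (fun q => F (consE Z n q))
      (loc_comp _ (consE_mp n) hF) (fun i => hT (hk 0) (by
        refine Prod.ext (funext fun j => ?_) rfl
        refine Fin.cases ?_ (fun j => ?_) j <;> simp [consE_apply]) fun q => by
        simp only [List.ofFn_succ, LieD.omL, Pi.single_eq_same,
          Pi.single_eq_of_ne (Fin.succ_ne_zero _), ofReal_zero, mul_zero, omL_zero, map_zero,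
          ofReal_one, mul_one, add_zero]
        rfl) r hr
    obtain ⟨hloc, hweak, -, hnorm⟩ := hS1 0 (by rwa [norm_zero, zero_add])
    have hstep : ∀ (w : (Fin n → ℝ) × Z) (a : (Fin n → ℝ) × Z → ι → ℂ), ContDiff ℝ ∞ a →
        ∀ {a' : (Fin (n + 1) → ℝ) × Z → ι → ℂ},
        R.WEq volume (Metric.ball 0 ρ ×ˢ Ω) F (Fin.cons (α := fun _ => ℝ) 0 w.1, w.2) a' →
        (∀ q, a' (consE Z n q) = ((q.1 () : ℂ) * pd lam w.2 q.2.2) • bv (idx 0) +
          L.ex ((lam q.2.2 * q.1 ()) • bv (idx 0)) (a q.2)) →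
        R.WEq volume (Metric.ball 0 ρ ×ˢ Ω) (S1 0) w a := by
      intro w a ha a' h ha'
      have h2 := hweak w a ha (hT h rfl fun q => by
        rw [ha' q, hpd]
        simp [blockOne])
      simpa [blockOne, L.ex_zero] using h2
    obtain ⟨S, hSloc, hSweak, hSnorm⟩ := ih (fun j => idx j.succ) (S1 0) hloc fun k =>
      hstep (Pi.single k 1, 0) _ (contDiff_omL _ (fun j => hl'.mul (hc j))
        (fun j => hl'.mul contDiff_const) contDiff_const) (a' := _) (by
          have e : (Fin.cons (α := fun _ => ℝ) 0 (Pi.single k 1 : Fin n → ℝ)) =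
              (Pi.single k.succ 1 : Fin (n + 1) → ℝ) := by
            funext j
            refine Fin.cases ?_ (fun j => ?_) j
            · simp
            · simp [Pi.single_apply]
          simp only [e]
          exact hk k.succ) fun q => by
          have e : ∀ j : Fin n, (Pi.single k.succ 1 : Fin (n + 1) → ℝ) j.succ =
              (Pi.single k 1 : Fin n → ℝ) j := fun j => by simp [Pi.single_apply]
          simp only [List.ofFn_succ, LieD.omL, consE_apply, Fin.cons_zero, Fin.cons_succ, e,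
            Pi.single_eq_of_ne (Fin.succ_ne_zero _).symm]
          simp [pd]
    refine ⟨S, hSloc, fun w Y hY h => hSweak w Y hY ?_, fun v δ wt hδ hwt hv => ?_⟩
    · refine hstep (0, w) _ (contDiff_omL _ (fun j => hl'.mul (hc j))
        (fun j => (hc j).mul ((Sl.sl_pd_smooth hl w).comp contDiff_snd)) (hY.comp contDiff_snd))
        (a' := _) (by
          have e : (Fin.cons (α := fun _ => ℝ) 0 (0 : Fin n → ℝ)) = (0 : Fin (n + 1) → ℝ) := by
            funext j
            refine Fin.cases ?_ (fun j => ?_) j <;> simp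
          simp only [e]
          exact h) fun q => ?_
      simp only [List.ofFn_succ, LieD.omL, consE_apply, Fin.cons_zero, Fin.cons_succ]
    · have hD : MeasurableSet (Metric.closedBall (0 : Fin n → ℝ) r ×ˢ (univ : Set Z)) :=
        measurableSet_closedBall.prod MeasurableSet.univ
      have h2 := hSnorm v δ wt hδ hwt fun j => hv j.succ
      have h3 := hnorm v δ ((Metric.closedBall (0 : Fin n → ℝ) r ×ˢ (univ : Set Z)).indicator
        fun q => wt q.2) ((hwt.comp measurable_snd).indicator hD) fun y hy =>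
          hv 0 (y ()) ((norm_le_pi_norm y ()).trans hy)
      have e : ∀ q : (Fin n → ℝ) × Z, ‖S1 0 q - v‖ₑ * (Metric.closedBall (0 : Fin n → ℝ) r ×ˢ
          (univ : Set Z)).indicator (fun q => wt q.2) q = (Metric.closedBall (0 : Fin n → ℝ) r ×ˢ
          (univ : Set Z)).indicator (fun q => ‖S1 0 q - v‖ₑ * wt q.2) q := fun q =>
        (indicator_mul_right _ (fun q => ‖S1 0 q - v‖ₑ) (fun q => wt q.2)).symm
      simp only [e] at h3
      rw [lintegral_indicator hD, lintegral_indicator hD, lintegral_box _ hwt,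
        Real.volume_pi_closedBall _ hr.le] at h3
      have h4 : ∫⁻ x in Metric.closedBall (0 : Unit → ℝ) r ×ˢ univ, ‖F (consE Z n x) - v‖ₑ *
          (Metric.closedBall (0 : Fin n → ℝ) r ×ˢ (univ : Set Z)).indicator (fun q => wt q.2) x.2 =
          ∫⁻ x in Metric.closedBall 0 r ×ˢ univ, ‖F x - v‖ₑ * wt x.2 := by
        rw [← (consE_mp n).setLIntegral_comp_preimage_emb
          (consE Z n).toHomeomorph.measurableEmbedding, consE_closedBall,
          ← lintegral_indicator (measurableSet_closedBall.prod MeasurableSet.univ),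
          ← lintegral_indicator (measurableSet_closedBall.prod hD)]
        refine lintegral_congr fun x => ?_
        by_cases hx1 : x.1 ∈ Metric.closedBall (0 : Unit → ℝ) r <;>
          by_cases hx2 : x.2.1 ∈ Metric.closedBall (0 : Fin n → ℝ) r <;>
          simp [indicator, hx1, hx2, consE_apply]
      rw [h4] at h3
      refine h2.trans ((add_le_add (mul_le_mul_right h3 _) le_rfl).trans (le_of_eq ?_))
      rw [mul_add, ← mul_assoc, ← mul_assoc, ← mul_assoc, add_assoc, ← add_mul,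
        ← ENNReal.ofReal_mul (by positivity), ← ENNReal.ofReal_mul (by positivity),
        ← ENNReal.ofReal_mul (by positivity),
        ← ENNReal.ofReal_add (by positivity) (by positivity)]
      congr 3
      · simp [pow_succ]
      · simp only [Finset.sum_range_succ, Fintype.card_fin]
        have : (C0 / r) ^ n * (2 * r) ^ n = (2 * C0) ^ n := by
          rw [← mul_pow]; congr 1; field_simp
        linear_combination δ * this

end Pool.Agent.Lib.MP_e2ef7e_al.Gen.Sb
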