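import Pool.Agent.Lib.MP_e2ef7e_al.SlabT1
import Pool.Agent.Lib.MP_e2ef7e_al.Horm

/-!
Peaking weak solutions on a cube.
-/

open MeasureTheory Complex Set Filter Topology
open scoped ComplexConjugate InnerProductSpace ContDiff ENNReal

noncomputable section

namespace Pool.Agent.Lib.MP_e2ef7e_al.Gen.Sb

instance haarZ (p : ℕ) : (volume : Measure (ℝ × (Fin p → ℝ))).IsAddHaarMeasure :=
  Measure.prod.instIsAddHaarMeasure volume volume

instance haarZZ (m p : ℕ) : (volume : Measure (ZZ m p)).IsAddHaarMeasure :=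
  Measure.prod.instIsAddHaarMeasure volume volume

instance haarXX (r m p : ℕ) : (volume : Measure (XX r m p)).IsAddHaarMeasure :=
  Measure.prod.instIsAddHaarMeasure volume volume

lemma neg_log_sin (t : ℝ) : -Real.log (Real.sin (sx t)) = Real.log (Real.cosh t) := by
  rw [sin_sx, one_div, Real.log_inv, neg_neg]

lemma le_cosh (t : ℝ) : 1 + t ^ 2 / 2 ≤ Real.cosh t := by
  have h1 : Real.cosh t = 2 * Real.sinh (t / 2) ^ 2 + 1 := by
    have := Real.cosh_two_mul (t / 2)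
    rw [Real.cosh_sq, show 2 * (t / 2) = t by ring] at this
    linarith
  have h2 : |t / 2| ≤ |Real.sinh (t / 2)| := by
    rw [Real.abs_sinh]; exact Real.self_le_sinh_iff.2 (abs_nonneg _)
  have h3 := sq_le_sq.2 h2
  linarith

lemma cosh_le_exp_abs (t : ℝ) : Real.cosh t ≤ Real.exp |t| := by
  rw [Real.cosh_eq]
  have h1 := Real.exp_le_exp.2 (le_abs_self t)
  have h2 := Real.exp_le_exp.2 (neg_le_abs t)
  linarith

lemma log_cosh_le_abs (t : ℝ) : Real.log (Real.cosh t) ≤ |t| :=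
  (Real.log_le_iff_le_exp (Real.cosh_pos t)).2 (cosh_le_exp_abs t)

lemma log_cosh_le_sq (t : ℝ) : Real.log (Real.cosh t) ≤ t ^ 2 / 2 :=
  (Real.log_le_iff_le_exp (Real.cosh_pos t)).2 (Real.cosh_le_exp_half_sq t)

lemma exp_log_cosh_le (k : ℕ) (t : ℝ) :
    Real.exp (-(k * Real.log (Real.cosh t))) ≤ (1 + k * t ^ 2 / 2)⁻¹ := by
  rw [Real.exp_neg, Real.exp_nat_mul, Real.exp_log (Real.cosh_pos t)]
  refine inv_anti₀ (by positivity) ?_
  have h1 := one_add_mul_le_pow (a := t ^ 2 / 2) (by nlinarith [sq_nonneg t]) k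
  have h2 := pow_le_pow_left₀ (by positivity) (le_cosh t) k
  linarith

lemma exp_neg_abs_le (t : ℝ) : Real.exp (-|t|) ≤ (1 + t ^ 2 / 2)⁻¹ := by
  rw [Real.exp_neg]
  exact inv_anti₀ (by positivity) ((le_cosh t).trans (cosh_le_exp_abs t))

/-- Gaussian -/
def gauss {n : ℕ} (y : Fin n → ℝ) : ℝ := Real.exp (-∑ k, y k ^ 2)

lemma gauss_pos {n : ℕ} (y : Fin n → ℝ) : 0 < gauss y := Real.exp_pos _

lemma gauss_int (n : ℕ) : Integrable (gauss : (Fin n → ℝ) → ℝ) := by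
  have h := Integrable.fintype_prod (ι := Fin n) (f := fun _ (x : ℝ) => Real.exp (-1 * x ^ 2))
    (μ := fun _ => volume) fun _ => integrable_exp_neg_mul_sq one_pos
  refine h.congr (Eventually.of_forall fun y => ?_)
  simp only [gauss, ← Real.exp_sum, neg_mul, one_mul, Finset.sum_neg_distrib]

lemma gauss_smul {n : ℕ} (c : ℝ) (y : Fin n → ℝ) :
    gauss (c • y) = Real.exp (-(c ^ 2 * ∑ k, y k ^ 2)) := by
  simp [gauss, mul_pow, Finset.mul_sum]

lemma one_le_gauss {n : ℕ} {e : ℝ} {y : Fin n → ℝ} (h : ‖y‖ < e) :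
    1 ≤ Real.exp (n * e ^ 2) * gauss y := by
  rw [gauss, ← Real.exp_add, Real.one_le_exp_iff]
  have h1 : ∑ k, y k ^ 2 ≤ ∑ _k : Fin n, e ^ 2 := Finset.sum_le_sum fun k _ => by
    have h2 : |y k| ≤ e := (norm_le_pi_norm y k).trans h.le
    exact sq_le_sq' (abs_le.1 h2).1 (abs_le.1 h2).2
  simp only [Finset.sum_const, Finset.card_univ, Fintype.card_fin, nsmul_eq_mul] at h1
  linarith

variable {r m p : ℕ}

/-- an integrable majorant -/
def gX (x : XX r m p) : ℝ :=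
  gauss x.1 * (gauss x.2.1 * ((1 + x.2.2.1 ^ 2 / 2)⁻¹ * gauss x.2.2.2))

lemma gX_pos (x : XX r m p) : 0 < gX x :=
  mul_pos (gauss_pos _) (mul_pos (gauss_pos _) (mul_pos (by positivity) (gauss_pos _)))

lemma gX_int : Integrable (gX : XX r m p → ℝ) := by
  have h1 : Integrable fun t : ℝ => (1 + t ^ 2 / 2)⁻¹ := by
    refine (integrable_inv_one_add_sq.const_mul 2).mono' ?_ (Eventually.of_forall fun t => ?_)
    · exact (Continuous.inv₀ (by fun_prop) fun t => by positivity).aestronglyMeasurable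
    · rw [Real.norm_of_nonneg (by positivity), ← div_eq_mul_inv, le_div_iff₀ (by positivity),
        inv_mul_le_iff₀ (by positivity)]
      linarith
  exact (gauss_int r).mul_prod ((gauss_int m).mul_prod (h1.mul_prod (gauss_int p)))

lemma exp_le_gX (n : ℕ) {x : XX r m p} {φ : ℝ} (h : ∑ k, x.1 k ^ 2 + ∑ k, x.2.1 k ^ 2 +
    ∑ k, x.2.2.2 k ^ 2 - Real.log (Real.sin (sx x.2.2.1)) ≤ φ) :
    Real.exp (-((n : ℝ) ^ 2 * φ)) ≤ gX ((n : ℝ) • x) := by
  rw [sub_eq_add_neg, neg_log_sin] at h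
  have h1 := exp_log_cosh_le (n ^ 2) x.2.2.1
  have h2 : (1 + ((n : ℝ) * x.2.2.1) ^ 2 / 2)⁻¹ = (1 + ((n ^ 2 : ℕ) : ℝ) * x.2.2.1 ^ 2 / 2)⁻¹ := by
    push_cast; ring
  simp only [gX, Prod.smul_fst, Prod.smul_snd, gauss_smul, smul_eq_mul, h2]
  refine le_trans ?_ (mul_le_mul_of_nonneg_left (mul_le_mul_of_nonneg_left
    (mul_le_mul_of_nonneg_right h1 (Real.exp_pos _).le) (Real.exp_pos _).le) (Real.exp_pos _).le)
  simp only [← Real.exp_add, Real.exp_le_exp]
  push_cast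
  nlinarith [mul_le_mul_of_nonneg_left h (sq_nonneg (n : ℝ))]

/-- the cube -/
def cube (r m p : ℕ) (e : ℝ) : Set (XX r m p) :=
  Metric.ball 0 e ×ˢ (Metric.ball 0 e ×ˢ (univ ×ˢ Metric.ball 0 e))

lemma mem_cube {e : ℝ} {x : XX r m p} :
    x ∈ cube r m p e ↔ ‖x.1‖ < e ∧ ‖x.2.1‖ < e ∧ ‖x.2.2.2‖ < e := by simp [cube]

lemma cube_meas (e : ℝ) : MeasurableSet (cube r m p e) :=
  measurableSet_ball.prod (measurableSet_ball.prod (MeasurableSet.univ.prod measurableSet_ball))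

lemma exp_le_gX' {e : ℝ} {x : XX r m p} (h : x ∈ cube r m p e) : Real.exp (-|x.2.2.1|) ≤
    Real.exp (r * e ^ 2) * Real.exp (m * e ^ 2) * Real.exp (p * e ^ 2) * gX x := by
  obtain ⟨h1, h2, h3⟩ := mem_cube.1 h
  have h4 := one_le_mul_of_one_le_of_one_le (one_le_mul_of_one_le_of_one_le (one_le_gauss h1)
    (one_le_gauss h2)) (one_le_gauss h3)
  refine (exp_neg_abs_le _).trans ((le_mul_of_one_le_left (by positivity) h4).trans (le_of_eq ?_))
  rw [gX]; ring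

lemma finrank_XX : Module.finrank ℝ (XX r m p) = r + (m + (p + 1)) := by
  simp [add_comm]

variable {H : Type} [NormedAddCommGroup H]

lemma peak_est {X : Type} [MeasurableSpace X] {μ : Measure X} {B T : Set X} {u : X → H}
    {ψ : X → ℝ} (hI : IntegrableOn (fun x => ‖u x‖ ^ 2 * Real.exp (-ψ x)) B μ)
    (hT : MeasurableSet T) (hTB : T ⊆ B) (hμ : μ T ≠ ⊤) {c t A : ℝ} (ht : 0 < t)
    (hc : ∀ x ∈ T, ψ x ≤ c) (hA : ∫ x in B, ‖u x‖ ^ 2 * Real.exp (-ψ x) ∂μ ≤ A) :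
    ∫⁻ x in T, ‖u x‖ₑ ∂μ ≤ ENNReal.ofReal (Real.exp c / (2 * t) * A + t / 2 * μ.real T) := by
  have h1 : IntegrableOn (fun x => Real.exp c / (2 * t) * (‖u x‖ ^ 2 * Real.exp (-ψ x))) T μ :=
    (hI.mono_set hTB).const_mul _
  have h2 : IntegrableOn (fun _ => t / 2) T μ := integrableOn_const hμ
  have h3 : ∫⁻ x in T, ‖u x‖ₑ ∂μ ≤ ∫⁻ x in T, ENNReal.ofReal
      (Real.exp c / (2 * t) * (‖u x‖ ^ 2 * Real.exp (-ψ x)) + t / 2) ∂μ := by
    refine setLIntegral_mono' hT fun x hx => ?_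
    rw [← ofReal_norm]
    refine ENNReal.ofReal_le_ofReal ?_
    have h4 : 1 ≤ Real.exp c * Real.exp (-ψ x) := by
      rw [← Real.exp_add, Real.one_le_exp_iff]; linarith [hc x hx]
    have h5 : ‖u x‖ ≤ ‖u x‖ ^ 2 / (2 * t) + t / 2 := by
      rw [div_add' _ _ _ (by positivity), le_div_iff₀ (by positivity)]
      nlinarith [sq_nonneg (‖u x‖ - t)]
    have h6 := le_mul_of_one_le_right (a := ‖u x‖ ^ 2 / (2 * t)) (by positivity) h4
    refine h5.trans (add_le_add (h6.trans (le_of_eq ?_)) le_rfl)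
    ring
  refine h3.trans ?_
  have h12 : Integrable (fun x => Real.exp c / (2 * t) * (‖u x‖ ^ 2 * Real.exp (-ψ x)) + t / 2)
      (μ.restrict T) := h1.add h2
  rw [← ofReal_integral_eq_lintegral_ofReal h12
    (Eventually.of_forall fun x => by simp only [Pi.zero_apply]; positivity)]
  refine ENNReal.ofReal_le_ofReal ?_
  rw [integral_add h1 h2, integral_const_mul, setIntegral_const, smul_eq_mul, mul_comm _ (t / 2)]
  refine add_le_add (mul_le_mul_of_nonneg_left (le_trans ?_ hA) (by positivity)) le_rfl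
  exact setIntegral_mono_set hI (Eventually.of_forall fun x => by
    simp only [Pi.zero_apply]; positivity) hTB.eventuallyLE

lemma weighted_int [NormedSpace ℝ H] {B : Set (XX r m p)} {u : XX r m p → H}
    (hu : AEStronglyMeasurable u volume) {ψ : XX r m p → ℝ}
    (hI : IntegrableOn (fun x => ‖u x‖ ^ 2 * Real.exp (-ψ x)) B volume) {e c : ℝ} {N : ℕ}
    (hB : cube r m p e ⊆ B) (hN : 1 ≤ N)
    (hψ : ∀ x ∈ cube r m p e, ψ x ≤ c + (N - 1) * |x.2.2.1|) (v : H) :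
    Integrable fun x : XX r m p =>
      Real.exp (-(N * |x.2.2.1|)) • (cube r m p e).indicator (fun x => v - u x) x := by
  have h1 := (integrable_indicator_iff (cube_meas e)).2 (hI.mono_set hB)
  have h2 := (gX_int (r := r) (m := m) (p := p)).const_mul ((‖v‖ + Real.exp c) *
    (Real.exp (r * e ^ 2) * Real.exp (m * e ^ 2) * Real.exp (p * e ^ 2)))
  refine (h1.add h2).mono' ((Continuous.aestronglyMeasurable (by fun_prop)).smul
    ((aestronglyMeasurable_const.sub hu).indicator (cube_meas e)))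
    (Eventually.of_forall fun x => ?_)
  have hg := gX_pos x
  by_cases hx : x ∈ cube r m p e
  · simp only [Pi.add_apply, indicator_of_mem hx, norm_smul, Real.norm_of_nonneg (Real.exp_pos _).le]
    have hN' : (1 : ℝ) ≤ N := by exact_mod_cast hN
    have ha := abs_nonneg x.2.2.1
    have h3 : Real.exp (-(N * |x.2.2.1|)) ≤ Real.exp (-|x.2.2.1|) :=
      Real.exp_le_exp.2 (by nlinarith)
    have h4 : Real.exp (-(N * |x.2.2.1|)) ^ 2 ≤
        Real.exp (-ψ x) * (Real.exp c * Real.exp (-|x.2.2.1|)) := by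
      rw [← Real.exp_nat_mul, ← Real.exp_add, ← Real.exp_add, Real.exp_le_exp]
      push_cast
      nlinarith [hψ x hx]
    have h5 : Real.exp (-(N * |x.2.2.1|)) * ‖u x‖ ≤
        ‖u x‖ ^ 2 * Real.exp (-ψ x) + Real.exp c * Real.exp (-|x.2.2.1|) := by
      have hE := Real.exp_pos (-ψ x)
      refine le_of_mul_le_mul_left ?_ hE
      nlinarith [sq_nonneg (Real.exp (-ψ x) * ‖u x‖ - Real.exp (-(N * |x.2.2.1|))),
        mul_nonneg (mul_nonneg hE.le (norm_nonneg (u x))) (Real.exp_pos (-(N * |x.2.2.1|))).le]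
    have h6 := mul_le_mul_of_nonneg_left (exp_le_gX' hx)
      (add_nonneg (norm_nonneg v) (Real.exp_pos c).le)
    have h7 := mul_le_mul_of_nonneg_left (norm_sub_le v (u x)) (Real.exp_pos (-(N * |x.2.2.1|))).le
    have h8 := mul_le_mul_of_nonneg_left h3 (norm_nonneg v)
    nlinarith
  · simp only [Pi.add_apply, indicator_of_notMem hx, smul_zero, norm_zero, zero_add]
    positivity

variable {L : LieD (Idx r m p)} [InnerProductSpace ℂ H] [CompleteSpace H]

theorem exists_sol (R : Rep L H) (hd : HData L (dir : Idx r m p → XX r m p)) {e Λ : ℝ}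
    (he : 0 < e) (hΛ : 0 < Λ) (hom : ∀ j x, hd.om j x = omX L x (dir j))
    (hup : ∀ x : XX r m p, ‖x.1‖ < e → ‖x.2.1‖ < e → ‖x.2.2.2‖ < e → x ∈ hd.B ∧
      hd.φ x ≤ Λ * (‖x.1‖ ^ 2 + ‖x.2.1‖ ^ 2 + ‖x.2.2.2‖ ^ 2 - Real.log (Real.sin (sx x.2.2.1))))
    (hlow : ∀ x ∈ hd.B, ∑ k, x.1 k ^ 2 + ∑ k, x.2.1 k ^ 2 + ∑ k, x.2.2.2 k ^ 2 -
      Real.log (Real.sin (sx x.2.2.1)) ≤ hd.φ x) {v : H} (hv : v ∈ R.Dinf) {δ : ℝ} (hδ : 0 < δ) :
    ∃ (ρ : ℝ) (F : XX r m p → H), 0 < ρ ∧ ρ ≤ δ ∧ LocallyIntegrable F volume ∧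
      (∃ N : ℕ, ∫⁻ x, ‖F x‖ₑ * ENNReal.ofReal (Real.exp (-(N * |x.2.2.1|))) ≠ ⊤) ∧
      (∀ j, R.WEq volume (cube r m p e) F (dir j) fun x => omX L x (dir j)) ∧
      ∫⁻ x in Metric.closedBall 0 ρ, ‖F x - v‖ₑ ≤
        ENNReal.ofReal (δ * ρ ^ (r + (m + (p + 1)))) := by
  obtain ⟨k0, C1, hC1, hh⟩ := hormander R (volume : Measure (XX r m p)) hd
  obtain ⟨G, hG⟩ : ∃ G, G = ∫ x : XX r m p, gX x := ⟨_, rfl⟩
  have hG0 : 0 ≤ G := hG ▸ integral_nonneg fun x => (gX_pos x).le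
  obtain ⟨W, hW⟩ : ∃ W, W = ∑ i, ‖gen (R.E i) v‖ ^ 2 := ⟨_, rfl⟩
  have hW0 : 0 ≤ W := hW ▸ Finset.sum_nonneg fun i _ => sq_nonneg _
  obtain ⟨V, hV⟩ : ∃ V, V = (volume : Measure (XX r m p)).real (Metric.ball 0 1) := ⟨_, rfl⟩
  have hV0 : 0 ≤ V := hV ▸ measureReal_nonneg
  obtain ⟨t, ht⟩ : ∃ t, t = δ / (V + 1) := ⟨_, rfl⟩
  have ht0 : 0 < t := by rw [ht]; positivity
  obtain ⟨A, hA⟩ : ∃ A, A = Real.exp (4 * Λ) / (2 * t) * (C1 * W * G) := ⟨_, rfl⟩
  have hA0 : 0 ≤ A := by rw [hA]; positivity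
  obtain ⟨n, hn⟩ := exists_nat_gt (1 + |k0| + 1 / δ + 1 / e + 2 * A / δ)
  have q1 : 0 ≤ |k0| := abs_nonneg _
  have q2 : 0 < 1 / δ := by positivity
  have q3 : 0 < 1 / e := by positivity
  have q4 : 0 ≤ 2 * A / δ := by positivity
  have hn1 : (1 : ℝ) < n := by linarith
  have hn0 : (0 : ℝ) < n := by linarith
  have hn2 : (n : ℝ) ≤ n ^ 2 := by nlinarith
  have hρδ : 1 / (n : ℝ) ≤ δ := by
    rw [one_div_le hn0 hδ]; linarith
  have hρe : 1 / (n : ℝ) < e := by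
    rw [one_div_lt hn0 he]; linarith
  have hBm : MeasurableSet hd.B := hd.opn.measurableSet
  have hgn : Integrable fun x : XX r m p => gX ((n : ℝ) • x) := gX_int.comp_smul hn0.ne'
  have hI : IntegrableOn (fun x => Real.exp (-((n : ℝ) ^ 2 * hd.φ x))) hd.B volume := by
    refine hgn.integrableOn.mono' (ContinuousOn.aestronglyMeasurable ?_ hBm)
      (ae_restrict_of_forall_mem hBm fun x hx => ?_)
    · exact (continuousOn_const.mul hd.φ_smooth.continuousOn).neg.rexp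
    · rw [Real.norm_of_nonneg (Real.exp_pos _).le]
      exact exp_le_gX n (hlow x hx)
  have hI2 : ∫ x in hd.B, Real.exp (-((n : ℝ) ^ 2 * hd.φ x)) ≤
      (1 / (n : ℝ)) ^ (r + (m + (p + 1))) * G := by
    refine (setIntegral_mono_on hI hgn.integrableOn hBm fun x hx =>
      exp_le_gX n (hlow x hx)).trans ((setIntegral_le_integral hgn
        (Eventually.of_forall fun x => (gX_pos _).le)).trans (le_of_eq ?_))
    rw [Measure.integral_comp_smul, finrank_XX, abs_of_nonneg (by positivity), smul_eq_mul, hG,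
      one_div, inv_pow]
  obtain ⟨u, hu, hu1, hu2, hu3⟩ := hh ((n : ℝ) ^ 2) (by linarith [le_abs_self k0]) hI v hv
  have hQB : cube r m p e ⊆ hd.B := fun x hx =>
    (hup x (mem_cube.1 hx).1 (mem_cube.1 hx).2.1 (mem_cube.1 hx).2.2).1
  obtain ⟨N, hN⟩ := exists_nat_ge ((n : ℝ) ^ 2 * Λ + 1)
  have hN1 : 1 ≤ N := by
    have : (1 : ℝ) ≤ N := by nlinarith [mul_pos (pow_pos hn0 2) hΛ]
    exact_mod_cast this
  have hwt := weighted_int hu hu1 (c := (n : ℝ) ^ 2 * (Λ * (3 * e ^ 2))) hQB hN1 (fun x hx => by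
    obtain ⟨h1, h2, h3⟩ := mem_cube.1 hx
    have h4 := (hup x h1 h2 h3).2
    rw [sub_eq_add_neg, neg_log_sin] at h4
    have h5 : hd.φ x ≤ Λ * (3 * e ^ 2 + |x.2.2.1|) := by
      refine h4.trans (mul_le_mul_of_nonneg_left ?_ hΛ.le)
      have a1 := pow_le_pow_left₀ (norm_nonneg _) h1.le 2
      have a2 := pow_le_pow_left₀ (norm_nonneg _) h2.le 2
      have a3 := pow_le_pow_left₀ (norm_nonneg _) h3.le 2
      linarith [log_cosh_le_abs x.2.2.1]
    have h6 := mul_le_mul_of_nonneg_left h5 (sq_nonneg (n : ℝ))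
    have h7 := mul_le_mul_of_nonneg_right (le_sub_iff_add_le.2 hN) (abs_nonneg x.2.2.1)
    linarith) v
  have hTQ : ∀ x ∈ Metric.closedBall (0 : XX r m p) (1 / n), ‖x.1‖ ≤ 1 / n ∧ ‖x.2.1‖ ≤ 1 / n ∧
      |x.2.2.1| ≤ 1 / n ∧ ‖x.2.2.2‖ ≤ 1 / n := fun x hx => by
    simpa only [mem_closedBall_zero_iff, Prod.norm_def, max_le_iff, Real.norm_eq_abs] using hx
  have hTQ' : Metric.closedBall (0 : XX r m p) (1 / n) ⊆ cube r m p e := fun x hx =>
    mem_cube.2 ⟨(hTQ x hx).1.trans_lt hρe, (hTQ x hx).2.1.trans_lt hρe,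
      (hTQ x hx).2.2.2.trans_lt hρe⟩
  refine ⟨1 / n, (cube r m p e).indicator fun x => v - u x, by positivity, hρδ, ?_, ⟨N, ?_⟩,
    fun j => ?_, ?_⟩
  · have h1 := LocallyIntegrable.continuous_smul
      (g := fun x : XX r m p => Real.exp (N * |x.2.2.1|)) (by fun_prop) hwt.locallyIntegrable
    simpa only [smul_smul, ← Real.exp_add, add_neg_cancel, Real.exp_zero, one_smul] using h1
  · have h1 := hasFiniteIntegral_iff_enorm.1 hwt.2
    simp only [enorm_smul, Real.enorm_eq_ofReal (Real.exp_pos _).le] at h1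
    simpa only [mul_comm] using h1.ne
  · have h1 := WEq_indicator (hu3 j) hQB
    rwa [show hd.om j = fun x => omX L x (dir j) from funext (hom j)] at h1
  · have h1 := peak_est hu1 measurableSet_closedBall (hTQ'.trans hQB)
      measure_closedBall_lt_top.ne (c := 4 * Λ) ht0 (fun x hx => by
        obtain ⟨h1, h2, h3, h4⟩ := hTQ x hx
        obtain ⟨g1, g2, g3⟩ := mem_cube.1 (hTQ' hx)
        have h5 := (hup x g1 g2 g3).2
        rw [sub_eq_add_neg, neg_log_sin] at h5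
        have h6 : hd.φ x ≤ Λ * (4 * (1 / (n : ℝ)) ^ 2) := by
          refine h5.trans (mul_le_mul_of_nonneg_left ?_ hΛ.le)
          have a1 := pow_le_pow_left₀ (norm_nonneg _) h1 2
          have a2 := pow_le_pow_left₀ (norm_nonneg _) h2 2
          have a3 := pow_le_pow_left₀ (norm_nonneg _) h4 2
          have a4 := pow_le_pow_left₀ (abs_nonneg _) h3 2
          rw [sq_abs] at a4
          linarith [log_cosh_le_sq x.2.2.1, sq_nonneg x.2.2.1]
        refine (mul_le_mul_of_nonneg_left h6 (sq_nonneg (n : ℝ))).trans (le_of_eq ?_)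
        field_simp)
      (hu2.trans (mul_le_mul_of_nonneg_left hI2 (by rw [← hW]; positivity)))
    rw [setLIntegral_congr_fun measurableSet_closedBall (g := fun x => ‖u x‖ₑ) fun x hx => by
      simp [indicator_of_mem (hTQ' hx)]]
    refine h1.trans (ENNReal.ofReal_le_ofReal ?_)
    rw [Measure.addHaar_real_closedBall _ _ (by positivity), finrank_XX, ← hV, ← hW]
    have hP : 0 < (1 / (n : ℝ)) ^ (r + (m + (p + 1))) := by positivity
    have h2 : A / (n : ℝ) ^ 2 ≤ δ / 2 := by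
      rw [div_le_iff₀ (by positivity)]
      have : 2 * A / δ ≤ (n : ℝ) ^ 2 := by linarith
      rw [div_le_iff₀ hδ] at this
      linarith
    have h3 : t / 2 * V ≤ δ / 2 := by
      have : t * (V + 1) = δ := by rw [ht]; field_simp
      nlinarith
    calc _ = (A / (n : ℝ) ^ 2 + t / 2 * V) * (1 / (n : ℝ)) ^ (r + (m + (p + 1))) := by
          rw [hA]; ring
      _ ≤ _ := mul_le_mul_of_nonneg_right (by linarith) hP.le

end Pool.Agent.Lib.MP_e2ef7e_al.Gen.Sb
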