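import Pool.Agent.Lib.MP_e2ef7e_al.SlabT2
import Pool.Agent.Lib.MP_e2ef7e_al.SlabT3

/-!
The family of weak solutions on the slices.
-/

open MeasureTheory Complex Set Filter Topology
open scoped ComplexConjugate InnerProductSpace ContDiff ENNReal

noncomputable section

namespace Pool.Agent.Lib.MP_e2ef7e_al.Gen.Sb

lemma to_set {Y Z : Type} [MeasureSpace Y] [MeasureSpace Z] {D : Set Y} (hD : MeasurableSet D)
    {T : Set Z} (hT : MeasurableSet T) {f : Z → ℝ≥0∞} {g : Y × Z → ℝ≥0∞} {A B : ℝ≥0∞}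
    (h : ∫⁻ z, f z * T.indicator 1 z ≤
      A * (∫⁻ x in D ×ˢ univ, g x * T.indicator 1 x.2) + B * ∫⁻ z, T.indicator 1 z) :
    ∫⁻ z in T, f z ≤ A * (∫⁻ x in D ×ˢ T, g x) + B * volume T := by
  have h1 : ∫⁻ z, f z * T.indicator 1 z = ∫⁻ z in T, f z := by
    rw [← lintegral_indicator hT]
    exact lintegral_congr fun z => by by_cases hz : z ∈ T <;> simp [hz]
  have h2 : ∫⁻ x in D ×ˢ univ, g x * T.indicator 1 x.2 = ∫⁻ x in D ×ˢ T, g x := by
    rw [← lintegral_indicator (hD.prod hT), ← lintegral_indicator (hD.prod MeasurableSet.univ)]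
    exact lintegral_congr fun x => by
      by_cases h1 : x.1 ∈ D <;> by_cases h2 : x.2 ∈ T <;> simp [indicator, h1, h2]
  rwa [h1, h2, lintegral_indicator_one hT] at h

variable {r m p : ℕ}

/-- coefficient for the directions of degree zero -/
def lam1 (z : ZZ m p) : ℂ := I * Real.sin (sx z.2.1)

/-- coefficient for the directions of degree minus one -/
def lam2 (z : ℝ × (Fin p → ℝ)) : ℂ := exp (-(sx z.1 * I))

lemma lam1_smooth : ContDiff ℝ ∞ (lam1 : ZZ m p → ℂ) :=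
  contDiff_const.mul (Sl.ofReal_smooth (Real.contDiff_sin.comp (contDiff_sx.comp (by fun_prop))))

lemma sxC_smooth : ContDiff ℝ ∞ fun z : ℝ × (Fin p → ℝ) => (sx z.1 : ℂ) :=
  Sl.ofReal_smooth (contDiff_sx.comp contDiff_fst)

lemma lam2_smooth : ContDiff ℝ ∞ (lam2 : ℝ × (Fin p → ℝ) → ℂ) :=
  (sxC_smooth.mul contDiff_const).neg.cexp

lemma line_sx (x w : ℝ) : HasDerivAt (fun s : ℝ => sx (x + s * w)) (Real.sin (sx x) * w) 0 := by
  have h1 : HasDerivAt (fun s : ℝ => x + s * w) w 0 := by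
    simpa using ((hasDerivAt_id (0 : ℝ)).mul_const w).const_add x
  have h2 : HasDerivAt sx (Real.sin (sx x)) (x + 0 * w) := by
    rw [zero_mul, add_zero]; exact hasDerivAt_sx x
  exact HasDerivAt.comp (h₂ := sx) (h := fun s : ℝ => x + s * w) 0 h2 h1

lemma pd_lam1 (w z : ZZ m p) :
    pd lam1 w z = I * (Real.cos (sx z.2.1) * (Real.sin (sx z.2.1) * w.2.1)) := by
  refine Sl.pd_of_line (Sl.sl_diff lam1_smooth z) ?_
  have := (line_sx z.2.1 w.2.1).sin.ofReal_comp.const_mul I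
  simpa [lam1] using this

lemma pd_lam2 (w z : ℝ × (Fin p → ℝ)) :
    pd lam2 w z = -(I * Real.sin (sx z.1) * w.1) * lam2 z := by
  refine Sl.pd_of_line (Sl.sl_diff lam2_smooth z) ?_
  have := ((line_sx z.1 w.1).ofReal_comp.mul_const I).neg.cexp
  refine (this.congr_deriv ?_).congr_of_eventuallyEq (Eventually.of_forall fun s => ?_)
  · simp only [lam2, Pi.neg_apply, zero_mul, add_zero]
    push_cast
    ring
  · simp [lam2]

lemma lam1_im (z : ZZ m p) : (lam1 z).im ≠ 0 := by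
  simpa only [lam1, mul_im, I_re, I_im, ofReal_re, zero_mul, one_mul, zero_add] using
    (sin_sx_pos z.2.1).ne'

lemma lam1_norm (z : ZZ m p) : ‖lam1 z‖ ≤ 1 := by
  rw [lam1, norm_mul, norm_I, one_mul, norm_real]
  exact Real.abs_sin_le_one _

lemma lam2_im (z : ℝ × (Fin p → ℝ)) : (lam2 z).im ≠ 0 := by
  have : lam2 z = exp (((-sx z.1 : ℝ) : ℂ) * I) := by simp [lam2]
  rw [this, exp_ofReal_mul_I_im, Real.sin_neg]
  exact neg_ne_zero.2 (sin_sx_pos z.1).ne'

lemma lam2_norm (z : ℝ × (Fin p → ℝ)) : ‖lam2 z‖ ≤ 1 := by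
  have : lam2 z = exp (((-sx z.1 : ℝ) : ℂ) * I) := by simp [lam2]
  rw [this, norm_exp_ofReal_mul_I]

variable {L : LieD (Idx r m p)}

lemma embm_zero : (embm 0 : Idx r m p → ℂ) = 0 := by simp [embm]

lemma embp_zero : (embp 0 : Idx r m p → ℂ) = 0 := by simp [embp]

lemma embm_single (i : Fin m) : (embm (Pi.single i 1) : Idx r m p → ℂ) = bv (im i) := by
  rw [embm, Finset.sum_eq_single i] <;> simp +contextual [Pi.single_apply]

lemma embp_single (i : Fin p) : (embp (Pi.single i 1) : Idx r m p → ℂ) = bv (ip i) := by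
  rw [embp, Finset.sum_eq_single i] <;> simp +contextual [Pi.single_apply]

lemma omZ_smooth (w : ZZ m p) : ContDiff ℝ ∞ fun z : ZZ m p => omZ L (sx z.2.1) z.1 w := by
  have hbr : ∀ {f g : ZZ m p → Idx r m p → ℂ}, ContDiff ℝ ∞ f → ContDiff ℝ ∞ g →
      ContDiff ℝ ∞ fun z => L.br (f z) (g z) := fun hf hg =>
    (L.br.isBoundedBilinearMap.contDiff.restrict_scalars ℝ).comp (hf.prodMk hg)
  have h1 : ContDiff ℝ ∞ fun z : ZZ m p => exp (-(sx z.2.1 * I)) := lam2_smooth.comp contDiff_snd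
  have h2 : ContDiff ℝ ∞ fun z : ZZ m p => exp (sx z.2.1 * I) • (embp w.2.2 : Idx r m p → ℂ) :=
    ((sxC_smooth.comp contDiff_snd).mul contDiff_const).cexp.smul contDiff_const
  have h3 : ContDiff ℝ ∞ fun z : ZZ m p => exp (-(sx z.2.1 * I)) • (embm z.1 : Idx r m p → ℂ) :=
    h1.smul (ContDiff.sum fun k _ => (Sl.ofReal_smooth (by fun_prop)).smul contDiff_const)
  simp only [omZ, Ex_apply]
  exact ((h1.smul contDiff_const).add ((lam1_smooth.mul contDiff_const).smul contDiff_const)).add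
    ((h2.add (hbr h3 h2)).add ((hbr h3 (hbr h3 h2)).const_smul _))

lemma ident_D (hL : Graded L) (b : Fin m → ℝ) (z : ℝ × (Fin p → ℝ)) :
    ∑ i, ((b i : ℂ) * pd lam2 (1, 0) z) • bv (im i) + L.Ex (cm fun i => lam2 z * b i)
      ((I * Real.sin (sx z.1)) • bv iD) = (I * Real.sin (sx z.1)) • bv iD := by
  have h1 : ∑ i, ((b i : ℂ) * pd lam2 (1, 0) z) • (bv (im i) : Idx r m p → ℂ) =
      pd lam2 (1, 0) z • embm b := by
    rw [← cm_mul]; simp only [cm, mul_comm]
  have h2 : IsW (-1) (lam2 z • embm b : Idx r m p → ℂ) := (isW_embm b).smul _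
  have h3 : L.br (lam2 z • embm b) (bv iD) = lam2 z • embm b := by
    rw [hL.br_W_D h2]; simp
  rw [h1, cm_mul, map_smul, Ex_apply, h3, L.anti, pd_lam2]
  simp only [ofReal_one]
  module

variable {H : Type} [NormedAddCommGroup H] [InnerProductSpace ℂ H] [CompleteSpace H]

theorem slab_of (hL : Graded L) (R : Rep L H) (hd : HData L (dir : Idx r m p → XX r m p))
    {e Λ : ℝ} (he : 0 < e) (hΛ : 0 < Λ) (hom : ∀ j x, hd.om j x = omX L x (dir j))
    (hup : ∀ x : XX r m p, ‖x.1‖ < e → ‖x.2.1‖ < e → ‖x.2.2.2‖ < e → x ∈ hd.B ∧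
      hd.φ x ≤ Λ * (‖x.1‖ ^ 2 + ‖x.2.1‖ ^ 2 + ‖x.2.2.2‖ ^ 2 - Real.log (Real.sin (sx x.2.2.1))))
    (hlow : ∀ x ∈ hd.B, ∑ k, x.1 k ^ 2 + ∑ k, x.2.1 k ^ 2 + ∑ k, x.2.2.2 k ^ 2 -
      Real.log (Real.sin (sx x.2.2.1)) ≤ hd.φ x) :
    ∃ ε > 0, ∀ v ∈ R.Dinf, ∀ δ > 0,
    ∃ (ρ : ℝ) (S : (Fin m → ℝ) → ℝ × (Fin p → ℝ) → H), 0 < ρ ∧ ρ ≤ δ ∧ Slab R ε S ∧
      ∫⁻ z in Metric.closedBall 0 ρ, ‖S 0 z - v‖ₑ ≤ ENNReal.ofReal (δ * ρ ^ (p + 1)) := by
  obtain ⟨C0, K, hC0, hK, hnest⟩ := nest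
  obtain ⟨C2, hC2, hs⟩ := slice
  refine ⟨e / 2, half_pos he, fun v hv δ hδ => ?_⟩
  obtain ⟨V1, hV1⟩ : ∃ V, V = (volume : Measure (ℝ × (Fin p → ℝ))).real (Metric.ball 0 1) :=
    ⟨_, rfl⟩
  obtain ⟨V2, hV2⟩ : ∃ V, V = (volume : Measure (ZZ m p)).real (Metric.ball 0 1) := ⟨_, rfl⟩
  have hV10 : 0 ≤ V1 := hV1 ▸ measureReal_nonneg
  have hV20 : 0 ≤ V2 := hV2 ▸ measureReal_nonneg
  have hKr := hK r
  obtain ⟨δ', hδ'⟩ : ∃ d, d = δ / (2 * (C2 ^ m * K r * V2 + V1 + 1)) := ⟨_, rfl⟩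
  have hδ'0 : 0 < δ' := by rw [hδ']; positivity
  have hc1 : ∀ᶠ t in 𝓝 (0 : ℝ), ∀ j : Fin r, ‖R.E (i0 j) t v - v‖ ≤ δ' :=
    eventually_all.2 fun j => (((R.cont (i0 j) v).sub continuous_const).norm.continuousAt.eventually_lt
      continuousAt_const (by simpa [(R.oneP _).zero] using hδ'0)).mono fun t ht => ht.le
  have hc2 : ∀ᶠ y in 𝓝 (0 : Fin m → ℝ), ‖R.Pl im y v - v‖ ≤ δ' :=
    (((Pl_cont im v).sub continuous_const).norm.continuousAt.eventually_lt
      continuousAt_const (by simpa [Pl_at_zero] using hδ'0)).mono fun t ht => ht.le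
  obtain ⟨η1, hη1, hc1⟩ := Metric.eventually_nhds_iff.1 hc1
  obtain ⟨η2, hη2, hc2⟩ := Metric.eventually_nhds_iff.1 hc2
  obtain ⟨δ1, hδ1, a1, a2, a3, a4, a5⟩ : ∃ d, 0 < d ∧ d ≤ δ ∧ d ≤ δ / (2 * (C2 ^ m * C0 ^ r)) ∧
      d ≤ η1 / 4 ∧ d ≤ η2 / 4 ∧ d ≤ e / 4 :=
    ⟨min δ (min (δ / (2 * (C2 ^ m * C0 ^ r))) (min (η1 / 4) (min (η2 / 4) (e / 4)))),
      by positivity, by simp, by simp, by simp, by simp, by simp⟩
  obtain ⟨ρ, F, hρ, hρδ, hF, ⟨N, hN⟩, hW, hP⟩ := exists_sol R hd he hΛ hom hup hlow hv hδ1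
  obtain ⟨S1, hS1, hW1, hN1⟩ := hnest (R := R) (lam1 : ZZ m p → ℂ) lam1_smooth lam1_im lam1_norm
    (Metric.ball 0 e ×ˢ (univ ×ˢ Metric.ball 0 e)) e ρ hρ (by linarith) r i0 F hF fun k => by
      have h1 := hW (i0 k)
      have h2 : ∀ s b, omZ L s b 0 = 0 := fun s b => by simp [omZ, embm_zero, embp_zero]
      simp only [omX, omS, dir, i0, Prod.mk_zero_zero, h2, Prod.fst_zero, Prod.snd_zero,
        ofReal_zero, mul_zero, zero_mul, add_zero] at h1
      exact h1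
  have hW2 : ∀ w : ZZ m p, R.WEq volume (cube r m p e) F (0, w) (fun x => omX L x (0, w)) →
      R.WEq volume (Metric.ball 0 e ×ˢ (univ ×ˢ Metric.ball 0 e)) S1 w
        fun z => omZ L (sx z.2.1) z.1 w := fun w h => by
    refine hW1 w _ (omZ_smooth w) ?_
    have h2 : ∀ x : XX r m p, omX L x (0, w) = L.omL (List.ofFn fun j =>
        (i0 j, lam1 x.2 * x.1 j, x.1 j * pd lam1 w x.2)) (omZ L (sx x.2.2.1) x.2.1 w) := fun x => by
      simp only [omX, omS, pd_lam1, lam1, Pi.zero_apply, ofReal_zero, zero_add]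
      congr 2
      funext j
      congr 2
      ring
    simp only [h2] at h
    exact h
  obtain ⟨S, hS⟩ := hs (blockM hL R) (lam2 : ℝ × (Fin p → ℝ) → ℂ) lam2_smooth lam2_im lam2_norm
    (univ ×ˢ Metric.ball 0 e) e S1 hS1 (fun i => by
      have h1 := hW2 _ (hW (im i))
      have h2 : ∀ z : ZZ m p, omZ L (sx z.2.1) z.1 (Pi.single i 1, 0, 0) =
          lam2 z.2 • bv (im i) := fun z => by simp [omZ, embm_single, embp_zero, lam2]
      simp only [h2] at h1
      exact h1) ρ hρ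
  have hsub : (univ ×ˢ Metric.ball 0 (e / 2) : Set (ℝ × (Fin p → ℝ))) ⊆ univ ×ˢ Metric.ball 0 e :=
    prod_mono le_rfl (Metric.ball_subset_ball (by linarith))
  have hS' := fun (c : Fin m → ℝ) (hc : ‖c‖ < e / 2) => hS c (by linarith)
  have h00 : ‖(0 : Fin m → ℝ)‖ < e / 2 := by rw [norm_zero]; exact half_pos he
  refine ⟨ρ, S, hρ, hρδ.trans a1, ⟨fun c hc => (hS' c hc).1, ?_, fun c hc => ?_, fun i => ?_,
    fun c hc θ h1 h2 h3 ψ hψ i => ?_⟩, ?_⟩
  · have hm : Measurable fun z : ℝ × (Fin p → ℝ) => ENNReal.ofReal (Real.exp (-(N * |z.1|))) :=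
      ENNReal.measurable_ofReal.comp (Continuous.measurable (by fun_prop))
    have h1 := hN1 0 0 (fun z : ZZ m p => ENNReal.ofReal (Real.exp (-(N * |z.2.1|)))) le_rfl
      (hm.comp measurable_snd) (fun j t _ => by simp)
    simp only [mul_zero, ENNReal.ofReal_zero, zero_mul, add_zero, sub_zero] at h1
    have h2 := h1.trans (mul_le_mul_right (setLIntegral_le_lintegral _ _) _)
    refine ⟨N, (ENNReal.ofReal ((C2 / ρ) ^ Fintype.card (Fin m)) * (ENNReal.ofReal ((C0 / ρ) ^ r) *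
      ∫⁻ x, ‖F x‖ₑ * ENNReal.ofReal (Real.exp (-(N * |x.2.2.1|))))).toReal, ENNReal.toReal_nonneg,
      fun c hc => ?_⟩
    have h3 := (hS' c hc).2.2.2 0 0 _ hm (fun y _ => by simp)
    simp only [ENNReal.ofReal_zero, zero_mul, add_zero, sub_zero] at h3
    rw [ENNReal.ofReal_toReal (ENNReal.mul_ne_top ENNReal.ofReal_ne_top
      (ENNReal.mul_ne_top ENNReal.ofReal_ne_top hN))]
    exact (setLIntegral_le_lintegral _ _).trans (h3.trans
      (mul_le_mul_right ((setLIntegral_le_lintegral _ _).trans h2) _))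
  · have h1 := hW2 _ (hW iD)
    have h2 : ∀ z : ZZ m p, omZ L (sx z.2.1) z.1 (0, 1, 0) =
        (I * Real.sin (sx z.2.1)) • bv iD := fun z => by simp [omZ, embm_zero, embp_zero]
    simp only [h2] at h1
    have h3 := (hS' c hc).2.1 (1, 0) (fun z => (I * Real.sin (sx z.1)) • bv iD)
      ((contDiff_const.mul (Sl.ofReal_smooth (Real.contDiff_sin.comp
        (contDiff_sx.comp contDiff_fst)))).smul contDiff_const) (by
          simp only [blockM, ident_D hL]
          exact h1)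
    simp only [blockM, ident_D hL] at h3
    exact WEq_mono h3 hsub
  · have h1 := hW2 _ (hW (ip i))
    have h2 : ∀ z : ZZ m p, omZ L (sx z.2.1) z.1 (0, 0, Pi.single i 1) =
        L.Ex (lam2 z.2 • embm z.1) (exp (sx z.2.1 * I) • bv (ip i)) := fun z => by
      simp [omZ, embm_zero, embp_single, lam2]
    simp only [h2] at h1
    have h3 := (hS' 0 h00).2.1 (0, Pi.single i 1) (fun z => exp (sx z.1 * I) • bv (ip i))
      ((sxC_smooth.mul contDiff_const).cexp.smul contDiff_const) (by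
          simp only [blockM, cm_mul, pd_lam2, ofReal_zero, mul_zero, neg_zero, zero_mul, zero_smul,
            Finset.sum_const_zero, zero_add]
          exact h1)
    simp only [blockM, cm, mul_zero, Ex_zero, Pi.zero_apply, ofReal_zero, zero_mul,
      zero_smul, Finset.sum_const_zero, zero_add, one_apply_eq_self] at h3
    exact WEq_mono h3 hsub
  · have h4 := (hS' c hc).2.2.1 θ h1 h2 (h3.trans hsub) ψ hψ (Pi.single i 1)
    have h5 : ∀ z, ∑ j, ((Pi.single i 1 : Fin m → ℝ) j : ℂ) *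
        ⟪gen (R.E ((blockM hL R).e j)) ψ, S c z⟫_ℂ = ⟪gen (R.E (im i)) ψ, S c z⟫_ℂ := fun z => by
      rw [Finset.sum_eq_single i] <;> simp +contextual [Pi.single_apply, blockM]
    simp only [h5] at h4
    exact h4
  · have h1 := to_set measurableSet_closedBall (T := Metric.closedBall 0 ρ) measurableSet_closedBall
      ((hS' 0 h00).2.2.2 v δ' _ (measurable_one.indicator measurableSet_closedBall) fun y hy =>
        hc2 (by rw [dist_zero_right]; linarith))
    have h2 := to_set measurableSet_closedBall (T := Metric.closedBall 0 ρ) measurableSet_closedBall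
      (hN1 v δ' _ hδ'0.le (measurable_one.indicator measurableSet_closedBall) fun j t ht =>
        hc1 (by rw [Real.dist_0_eq_abs]; linarith) j)
    rw [closedBall_prod_same, Prod.mk_zero_zero] at h1 h2
    have h3 : volume (Metric.closedBall (0 : ℝ × (Fin p → ℝ)) ρ) =
        ENNReal.ofReal (ρ ^ (p + 1) * V1) := by
      rw [← ofReal_measureReal measure_closedBall_lt_top.ne,
        Measure.addHaar_real_closedBall _ _ hρ.le, ← hV1]
      simp [add_comm]
    have h4 : volume (Metric.closedBall (0 : ZZ m p) ρ) =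
        ENNReal.ofReal (ρ ^ (m + (p + 1)) * V2) := by
      rw [← ofReal_measureReal measure_closedBall_lt_top.ne,
        Measure.addHaar_real_closedBall _ _ hρ.le, ← hV2]
      simp [add_comm]
    rw [h3] at h1
    rw [h4] at h2
    refine h1.trans ((add_le_add (mul_le_mul_right (h2.trans (add_le_add (mul_le_mul_right hP _)
      le_rfl)) _) le_rfl).trans ?_)
    rw [← ENNReal.ofReal_mul (by positivity), ← ENNReal.ofReal_mul (by positivity),
      ← ENNReal.ofReal_mul (by positivity), ← ENNReal.ofReal_add (by positivity) (by positivity),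
      ← ENNReal.ofReal_mul (by positivity), ← ENNReal.ofReal_add (by positivity) (by positivity)]
    refine ENNReal.ofReal_le_ofReal ?_
    have h5 : C2 ^ m * C0 ^ r * δ1 ≤ δ / 2 := by
      rw [le_div_iff₀ (by positivity)] at a2
      linarith
    have h6 : δ' * (C2 ^ m * K r * V2 + V1) ≤ δ / 2 := by
      have : δ' * (2 * (C2 ^ m * K r * V2 + V1 + 1)) = δ := by rw [hδ']; field_simp
      linarith
    calc _ = (C2 ^ m * C0 ^ r * δ1 + δ' * (C2 ^ m * K r * V2 + V1)) * ρ ^ (p + 1) := by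
          rw [Fintype.card_fin, div_pow, div_pow, pow_add ρ r, pow_add ρ m]
          field_simp
          ring
      _ ≤ _ := mul_le_mul_of_nonneg_right (by linarith) (by positivity)

end Pool.Agent.Lib.MP_e2ef7e_al.Gen.Sb
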