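import Mathlib

/-!
A radial profile for mean value kernels in one complex variable.
-/

open MeasureTheory Set
open scoped ContDiff

noncomputable section

namespace Pool.Agent.Lib.MP_e2ef7e_al.Gen.Sl

/-- A radial profile `f` supported in `q < r ^ 2` with primitive `Fh`. -/
structure Prof (C0 r : ℝ) where
  f : ℝ → ℝ
  Fh : ℝ → ℝ
  f_smooth : ContDiff ℝ ∞ f
  Fh_smooth : ContDiff ℝ ∞ Fh
  der : ∀ q, HasDerivAt Fh (f q) q
  nonneg : ∀ q, 0 ≤ f q
  f_zero : ∀ q, r ^ 2 ≤ q → f q = 0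
  Fh_zero : ∀ q, r ^ 2 ≤ q → Fh q = 0
  bd : ∀ t, ∫ n, f (n ^ 2 + t ^ 2) ≤ C0 / r
  int : Integrable fun t : ℝ => ∫ n : ℝ, f (n ^ 2 + t ^ 2)
  one : ∫ t : ℝ, ∫ n : ℝ, f (n ^ 2 + t ^ 2) = 1

/-- basic profile -/
def rho0 (q : ℝ) : ℝ := expNegInvGlue (1 - q)

lemma rho0_smooth : ContDiff ℝ ∞ rho0 :=
  expNegInvGlue.contDiff.comp (contDiff_const.sub contDiff_id)

lemma rho0_nonneg (q : ℝ) : 0 ≤ rho0 q := expNegInvGlue.nonneg _

lemma rho0_zero {q : ℝ} (h : 1 ≤ q) : rho0 q = 0 := expNegInvGlue.zero_of_nonpos (by linarith)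

lemma rho0_le (q : ℝ) : rho0 q ≤ 1 := by
  unfold rho0 expNegInvGlue
  split_ifs with h
  · exact zero_le_one
  · rw [Real.exp_le_one_iff]
    have : 0 < 1 - q := lt_of_not_ge h
    simp only [Left.neg_nonpos_iff, inv_nonneg]
    exact this.le

lemma rho0_two_cont : Continuous fun x : ℝ × ℝ => rho0 (x.2 ^ 2 + x.1 ^ 2) :=
  rho0_smooth.continuous.comp (by fun_prop)

lemma rho0_two_supp : HasCompactSupport fun x : ℝ × ℝ => rho0 (x.2 ^ 2 + x.1 ^ 2) := by
  refine HasCompactSupport.intro (isCompact_closedBall (0 : ℝ × ℝ) 1) fun x hx => rho0_zero ?_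
  rw [mem_closedBall_zero_iff, not_le, Prod.norm_def, lt_max_iff] at hx
  rcases hx with h | h <;> rw [Real.norm_eq_abs] at h
  · nlinarith [sq_nonneg x.2, sq_abs x.1, abs_nonneg x.1]
  · nlinarith [sq_nonneg x.1, sq_abs x.2, abs_nonneg x.2]

/-- the marginal of the basic profile -/
def marg0 (t : ℝ) : ℝ := ∫ n : ℝ, rho0 (n ^ 2 + t ^ 2)

lemma marg0_int : Integrable marg0 :=
  (rho0_two_cont.integrable_of_hasCompactSupport (μ := (volume : Measure ℝ).prod volume)
    rho0_two_supp).integral_prod_left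

lemma marg0_pos : 0 < ∫ t, marg0 t := by
  have h := rho0_two_cont.integral_pos_of_hasCompactSupport_nonneg_nonzero
    (μ := (volume : Measure ℝ).prod volume) (x := 0) rho0_two_supp (fun _ => rho0_nonneg _)
    (by simp [rho0])
  rwa [integral_prod _ (rho0_two_cont.integrable_of_hasCompactSupport rho0_two_supp)] at h

lemma marg0_le (t : ℝ) : marg0 t ≤ 2 := by
  have h : ∫ n : ℝ, (Icc (-1 : ℝ) 1).indicator (fun _ => (1 : ℝ)) n = 2 := by
    rw [integral_indicator measurableSet_Icc]; simp; norm_num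
  rw [← h]
  refine integral_mono_of_nonneg (Filter.Eventually.of_forall fun _ => rho0_nonneg _)
    ((integrable_indicator_iff measurableSet_Icc).2 (by simp))
    (Filter.Eventually.of_forall fun n => ?_)
  by_cases hn : n ∈ Icc (-1 : ℝ) 1
  · simpa [hn] using rho0_le _
  · simp only [indicator_of_notMem hn]
    refine (rho0_zero ?_).le
    rw [mem_Icc, not_and_or, not_le, not_le] at hn
    rcases hn with h | h <;> nlinarith [sq_nonneg t]

theorem exists_prof : ∃ C0 : ℝ, 0 < C0 ∧ ∀ r : ℝ, 0 < r → Nonempty (Prof C0 r) := by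
  set c0 := ∫ t, marg0 t with hc0
  have hc : 0 < c0 := marg0_pos
  refine ⟨2 / c0, by positivity, fun r hr => ?_⟩
  set f : ℝ → ℝ := fun q => rho0 (q / r ^ 2) / (c0 * r ^ 2) with hf
  have hfs : ContDiff ℝ ∞ f := (rho0_smooth.comp (contDiff_id.div_const _)).div_const _
  have hf0 : ∀ q, r ^ 2 ≤ q → f q = 0 := fun q hq => by
    simp only [hf]
    rw [rho0_zero ((one_le_div (by positivity)).2 hq), zero_div]
  have hder : ∀ q, HasDerivAt (fun q => ∫ s in r ^ 2..q, f s) (f q) q := fun q =>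
    (hfs.continuous.integral_hasStrictDerivAt _ q).hasDerivAt
  have hm : ∀ t, ∫ n, f (n ^ 2 + t ^ 2) = marg0 (t / r) / (c0 * r) := fun t => by
    have h1 := Measure.integral_comp_div (fun n : ℝ => rho0 (n ^ 2 + (t / r) ^ 2)) r
    simp only [hf]
    rw [integral_div]
    have h2 : (fun n : ℝ => rho0 ((n ^ 2 + t ^ 2) / r ^ 2)) =
        fun n => rho0 ((n / r) ^ 2 + (t / r) ^ 2) := by
      ext n; congr 1; field_simp
    rw [h2, h1, abs_of_pos hr, smul_eq_mul, marg0]
    field_simp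
  refine ⟨⟨f, fun q => ∫ s in r ^ 2..q, f s, hfs, ?_, hder, fun q => ?_, hf0, fun q hq => ?_,
    fun t => ?_, ?_, ?_⟩⟩
  · rw [contDiff_infty_iff_deriv]
    refine ⟨fun q => (hder q).differentiableAt, ?_⟩
    rw [show deriv (fun q => ∫ s in r ^ 2..q, f s) = f from funext fun q => (hder q).deriv]
    exact hfs
  · exact div_nonneg (rho0_nonneg _) (by positivity)
  · rw [intervalIntegral.integral_congr (g := fun _ => 0)]
    · simp
    · intro s hs
      rw [uIcc_of_le hq] at hs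
      exact hf0 s hs.1
  · rw [hm, div_div]
    exact div_le_div_of_nonneg_right (marg0_le _) (by positivity)
  · simp only [hm]
    exact (marg0_int.comp_div hr.ne').div_const _
  · simp only [hm]
    rw [integral_div, Measure.integral_comp_div marg0 r, abs_of_pos hr, smul_eq_mul, ← hc0]
    field_simp

end Pool.Agent.Lib.MP_e2ef7e_al.Gen.Sl
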