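import Pool.Agent.Lib.MP_e2ef7e_al.GDefs2
import Pool.Agent.Lib.MP_e2ef7e_al.SliceKer

/-!
Calculus of the mean value kernels.
-/

open Complex Set
open scoped ContDiff

set_option linter.unusedSectionVars false

noncomputable section

namespace Pool.Agent.Lib.MP_e2ef7e_al.Gen.Sl

section pd

variable {X : Type} [NormedAddCommGroup X] [NormedSpace ℝ X]
  {E : Type} [NormedAddCommGroup E] [NormedSpace ℝ E]

lemma line_pd {f : X → E} {p : X} (hf : DifferentiableAt ℝ f p) (v : X) :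
    HasDerivAt (fun s : ℝ => f (p + s • v)) (pd f v p) 0 :=
  hf.hasFDerivAt.hasLineDerivAt v

lemma pd_of_line {f : X → E} {p v : X} {d : E} (hf : DifferentiableAt ℝ f p)
    (h : HasDerivAt (fun s : ℝ => f (p + s • v)) d 0) : pd f v p = d :=
  (line_pd hf v).unique h

lemma pd_of_const {f : X → E} {p v : X} (hf : DifferentiableAt ℝ f p)
    (h : ∀ s : ℝ, f (p + s • v) = f p) : pd f v p = 0 :=
  pd_of_line hf (by simp only [h]; exact hasDerivAt_const _ _)

lemma sl_pd_mul {f g : X → ℂ} {p : X} (hf : DifferentiableAt ℝ f p) (hg : DifferentiableAt ℝ g p)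
    (v : X) : pd (fun x => f x * g x) v p = pd f v p * g p + f p * pd g v p := by
  refine pd_of_line (hf.mul hg) ?_
  simpa using (line_pd hf v).fun_mul (line_pd hg v)

lemma sl_pd_prod {J : Type} [DecidableEq J] (u : Finset J) {f : J → X → ℂ} {p : X}
    (hf : ∀ j, DifferentiableAt ℝ (f j) p) (v : X) :
    pd (fun x => ∏ j ∈ u, f j x) v p = ∑ i ∈ u, (∏ j ∈ u.erase i, f j p) * pd (f i) v p := by
  refine pd_of_line (HasFDerivAt.finsetProd fun j _ => (hf j).hasFDerivAt).differentiableAt ?_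
  simpa using HasDerivAt.fun_finsetProd (u := u) fun j _ => line_pd (hf j) v

lemma sl_pd_smooth {f : X → E} (hf : ContDiff ℝ ∞ f) (v : X) : ContDiff ℝ ∞ (pd f v) :=
  (hf.fderiv_right (m := ∞) le_rfl).clm_apply contDiff_const

lemma sl_diff {f : X → E} (hf : ContDiff ℝ ∞ f) (p : X) : DifferentiableAt ℝ f p :=
  hf.differentiable (by simp) p

end pd

/-- total space: group parameter, slice parameter, remaining variables -/
abbrev WW (J Z : Type) : Type := (J → ℝ) × ((J → ℝ) × Z)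

variable {J : Type} [Fintype J] [DecidableEq J]
  {Z : Type} [NormedAddCommGroup Z] [NormedSpace ℝ Z]

def Yd (i : J) : WW J Z := (Pi.single i 1, 0)

def Td (i : J) : WW J Z := (0, (Pi.single i 1, 0))

def Zd (w : Z) : WW J Z := (0, (0, w))

def tt (c : J → ℝ) (j : J) (p : WW J Z) : ℝ := p.2.1 j - c j

def nn (lam : Z → ℂ) (c : J → ℝ) (j : J) (p : WW J Z) : ℝ :=
  (p.1 j + (lam p.2.2).re * tt c j p) / (lam p.2.2).im

/-- one factor of the kernel -/
def kk (lam : Z → ℂ) (c : J → ℝ) (f : ℝ → ℝ) (j : J) (p : WW J Z) : ℝ :=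
  f (nn lam c j p ^ 2 + tt c j p ^ 2) / |(lam p.2.2).im|

/-- holomorphic coordinate -/
def zeta (lam : Z → ℂ) (c : J → ℝ) (p : WW J Z) : J → ℂ :=
  fun j => p.1 j + lam p.2.2 * tt c j p

/-- Cauchy-Riemann operator -/
def DD (lam : Z → ℂ) (i : J) (κ : WW J Z → ℂ) (p : WW J Z) : ℂ :=
  pd κ (Td i) p - lam p.2.2 * pd κ (Yd i) p

variable {lam : Z → ℂ} {c : J → ℝ}

lemma tt_smooth (j : J) : ContDiff ℝ ∞ (tt (Z := Z) c j) := by
  unfold tt; fun_prop

lemma lamW_smooth {E : Type} [NormedAddCommGroup E] [NormedSpace ℝ E] {u : Z → E}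
    (hu : ContDiff ℝ ∞ u) : ContDiff ℝ ∞ fun p : WW J Z => u p.2.2 :=
  hu.comp (contDiff_snd.comp contDiff_snd)

lemma nn_smooth (hl : ContDiff ℝ ∞ lam) (h0 : ∀ z, (lam z).im ≠ 0) (j : J) :
    ContDiff ℝ ∞ (nn lam c j) :=
  ((by fun_prop : ContDiff ℝ ∞ fun p : WW J Z => p.1 j).add
    ((reCLM.contDiff.comp (lamW_smooth hl)).mul (tt_smooth j))).div
    (imCLM.contDiff.comp (lamW_smooth hl)) fun _ => h0 _

lemma kk_smooth (hl : ContDiff ℝ ∞ lam) (h0 : ∀ z, (lam z).im ≠ 0) {f : ℝ → ℝ}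
    (hf : ContDiff ℝ ∞ f) (j : J) : ContDiff ℝ ∞ (kk lam c f j) :=
  (hf.comp (((nn_smooth hl h0 j).pow 2).add ((tt_smooth j).pow 2))).div
    ((imCLM.contDiff.comp (lamW_smooth hl)).abs fun _ => h0 _) fun _ => abs_ne_zero.2 (h0 _)

lemma ofReal_smooth {X : Type} [NormedAddCommGroup X] [NormedSpace ℝ X] {u : X → ℝ}
    (hu : ContDiff ℝ ∞ u) : ContDiff ℝ ∞ fun p => (u p : ℂ) := ofRealCLM.contDiff.comp hu

lemma zeta_smooth (hl : ContDiff ℝ ∞ lam) : ContDiff ℝ ∞ (zeta (J := J) lam c) :=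
  contDiff_pi.2 fun j => (ofReal_smooth (by fun_prop)).add
    ((lamW_smooth hl).mul (ofReal_smooth (tt_smooth j)))

lemma line_tt (j : J) (p v : WW J Z) :
    HasDerivAt (fun s : ℝ => tt c j (p + s • v)) (v.2.1 j) 0 := by
  have : (fun s : ℝ => tt c j (p + s • v)) = fun s => p.2.1 j + s * v.2.1 j - c j := by
    ext s; simp [tt]
  rw [this]
  simpa using (((hasDerivAt_id (0 : ℝ)).mul_const (v.2.1 j)).const_add (p.2.1 j)).sub_const (c j)

lemma line_lam (hl : ContDiff ℝ ∞ lam) (p v : WW J Z) :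
    HasDerivAt (fun s : ℝ => lam (p + s • v).2.2) (pd lam v.2.2 p.2.2) 0 :=
  line_pd (sl_diff hl _) v.2.2

lemma line_nn (hl : ContDiff ℝ ∞ lam) (h0 : ∀ z, (lam z).im ≠ 0) (j : J) (p v : WW J Z) :
    HasDerivAt (fun s : ℝ => nn lam c j (p + s • v))
      ((v.1 j + (pd lam v.2.2 p.2.2).re * tt c j p + (lam p.2.2).re * v.2.1 j -
        nn lam c j p * (pd lam v.2.2 p.2.2).im) / (lam p.2.2).im) 0 := by
  have h1 : HasDerivAt (fun s : ℝ => (p + s • v).1 j) (v.1 j) 0 := by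
    simpa using ((hasDerivAt_id (0 : ℝ)).mul_const (v.1 j)).const_add (p.1 j)
  have h2 := reCLM.hasFDerivAt.comp_hasDerivAt (0 : ℝ) (line_lam hl p v)
  have h3 := imCLM.hasFDerivAt.comp_hasDerivAt (0 : ℝ) (line_lam hl p v)
  have h4 := (h1.fun_add (h2.fun_mul (line_tt (c := c) j p v))).fun_div h3 (h0 _)
  refine h4.congr_deriv ?_
  have := h0 p.2.2
  simp only [Function.comp_apply, zero_smul, add_zero, reCLM_apply, imCLM_apply, nn]
  field_simp
  ring

lemma line_kk (hl : ContDiff ℝ ∞ lam) (h0 : ∀ z, (lam z).im ≠ 0) {f : ℝ → ℝ} {f' : ℝ} (j : J)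
    (p v : WW J Z) (hf : HasDerivAt f f' (nn lam c j p ^ 2 + tt c j p ^ 2)) :
    HasDerivAt (fun s : ℝ => kk lam c f j (p + s • v))
      (f' * (2 * nn lam c j p * ((v.1 j + (pd lam v.2.2 p.2.2).re * tt c j p +
        (lam p.2.2).re * v.2.1 j - nn lam c j p * (pd lam v.2.2 p.2.2).im) / (lam p.2.2).im) +
        2 * tt c j p * v.2.1 j) / |(lam p.2.2).im| -
        kk lam c f j p * (pd lam v.2.2 p.2.2).im / (lam p.2.2).im) 0 := by
  have h1 := ((line_nn (c := c) hl h0 j p v).fun_pow 2).fun_add ((line_tt (c := c) j p v).fun_pow 2)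
  have hf' : HasDerivAt f f'
      (nn lam c j (p + (0 : ℝ) • v) ^ 2 + tt c j (p + (0 : ℝ) • v) ^ 2) := by simpa using hf
  have h2 := hf'.comp (0 : ℝ) h1
  have h3 := imCLM.hasFDerivAt.comp_hasDerivAt (0 : ℝ) (line_lam hl p v)
  have h4 := (hasDerivAt_abs (h0 (p + (0 : ℝ) • v).2.2)).comp (0 : ℝ) h3
  have h5 := h2.fun_div h4 (abs_ne_zero.2 (h0 _))
  refine h5.congr_deriv ?_
  have hne := h0 p.2.2
  simp only [Function.comp_apply, zero_smul, add_zero, imCLM_apply, kk]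
  rcases lt_or_gt_of_ne hne with h | h
  · rw [abs_of_neg h, sign_neg h, SignType.coe_neg_one]; push_cast; field_simp
  · rw [abs_of_pos h, sign_pos h, SignType.coe_one]; push_cast; field_simp

lemma DD_mul (i : J) {f g : WW J Z → ℂ} {p : WW J Z} (hf : DifferentiableAt ℝ f p)
    (hg : DifferentiableAt ℝ g p) :
    DD lam i (fun x => f x * g x) p = DD lam i f p * g p + f p * DD lam i g p := by
  simp only [DD, sl_pd_mul hf hg]; ring

lemma DD_holo (i : J) {Φ : (J → ℂ) → Z → ℂ} {p : WW J Z}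
    (hΦ : DifferentiableAt ℂ (fun ζ => Φ ζ p.2.2) (zeta lam c p))
    (hd : DifferentiableAt ℝ (fun p => Φ (zeta lam c p) p.2.2) p) :
    DD lam i (fun p => Φ (zeta lam c p) p.2.2) p = 0 := by
  have key : ∀ v : J → ℂ, HasDerivAt (fun s : ℝ => Φ (zeta lam c p + s • v) p.2.2)
      (fderiv ℂ (fun ζ => Φ ζ p.2.2) (zeta lam c p) v) 0 := fun v =>
    (hΦ.hasFDerivAt.restrictScalars ℝ).hasLineDerivAt v
  have h1 : pd (fun p => Φ (zeta lam c p) p.2.2) (Td i) p = _ :=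
    pd_of_line hd ((key (lam p.2.2 • Pi.single i 1)).congr_of_eventuallyEq
      (Filter.Eventually.of_forall fun s => by
        have : zeta lam c (p + s • Td i) = zeta lam c p + s • (lam p.2.2 • Pi.single i 1) := by
          ext j; by_cases h : j = i <;> simp [zeta, tt, Td, h]; ring
        simp only [this]; simp [Td]))
  have h2 : pd (fun p => Φ (zeta lam c p) p.2.2) (Yd i) p = _ :=
    pd_of_line hd ((key (Pi.single i 1)).congr_of_eventuallyEq
      (Filter.Eventually.of_forall fun s => by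
        have : zeta lam c (p + s • Yd i) = zeta lam c p + s • (Pi.single i 1 : J → ℂ) := by
          ext j; by_cases h : j = i <;> simp [zeta, tt, Yd, h]; ring
        simp only [this]; simp [Yd]))
  rw [DD, h1, h2, map_smul, smul_eq_mul, sub_self]

lemma kk_Yd {f : ℝ → ℝ} {i j : J} (h : j ≠ i) (p : WW J Z) (s : ℝ) :
    kk lam c f j (p + s • Yd i) = kk lam c f j p := by
  simp [kk, nn, tt, Yd, h]

lemma kk_Td {f : ℝ → ℝ} {i j : J} (h : j ≠ i) (p : WW J Z) (s : ℝ) :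
    kk lam c f j (p + s • Td i) = kk lam c f j p := by
  simp [kk, nn, tt, Td, h]

/-- the kernel without the factor `i` -/
def Ke (lam : Z → ℂ) (c : J → ℝ) (f : ℝ → ℝ) (i : J) (p : WW J Z) : ℂ :=
  ∏ j ∈ Finset.univ.erase i, (kk lam c f j p : ℂ)

/-- the kernel -/
def KK (lam : Z → ℂ) (c : J → ℝ) (f : ℝ → ℝ) (p : WW J Z) : ℂ := ∏ j, (kk lam c f j p : ℂ)

lemma KK_eq (f : ℝ → ℝ) (i : J) (p : WW J Z) :
    KK lam c f p = Ke lam c f i p * kk lam c f i p :=
  (Finset.prod_erase_mul _ _ (Finset.mem_univ i)).symm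

section

variable (hl : ContDiff ℝ ∞ lam) (h0 : ∀ z, (lam z).im ≠ 0) {f : ℝ → ℝ} (hf : ContDiff ℝ ∞ f)
include hl h0 hf

lemma Ke_smooth (i : J) : ContDiff ℝ ∞ (Ke lam c f i) :=
  contDiff_prod fun j _ => ofReal_smooth (kk_smooth hl h0 hf j)

lemma KK_smooth : ContDiff ℝ ∞ (KK (J := J) lam c f) :=
  contDiff_prod fun j _ => ofReal_smooth (kk_smooth hl h0 hf j)

lemma pd_Ke_Yd (i : J) (p : WW J Z) : pd (Ke lam c f i) (Yd i) p = 0 :=
  pd_of_const (sl_diff (Ke_smooth hl h0 hf i) p) fun s =>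
    Finset.prod_congr rfl fun j hj => by rw [kk_Yd (Finset.ne_of_mem_erase hj)]

lemma DD_Ke (i : J) (p : WW J Z) : DD lam i (Ke lam c f i) p = 0 := by
  rw [DD, pd_Ke_Yd hl h0 hf, pd_of_const (sl_diff (Ke_smooth hl h0 hf i) p) fun s =>
    Finset.prod_congr rfl fun j hj => by rw [kk_Td (Finset.ne_of_mem_erase hj)]]
  simp

lemma pd_KK (v p : WW J Z) : pd (KK lam c f) v p =
    ∑ i, Ke lam c f i p * pd (fun p => (kk lam c f i p : ℂ)) v p :=
  sl_pd_prod Finset.univ (fun j => sl_diff (ofReal_smooth (kk_smooth hl h0 hf j)) p) v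

lemma pd_kk {f' : ℝ} (j : J) (p v : WW J Z)
    (hd : HasDerivAt f f' (nn lam c j p ^ 2 + tt c j p ^ 2)) :
    pd (fun p => (kk lam c f j p : ℂ)) v p =
      ((f' * (2 * nn lam c j p * ((v.1 j + (pd lam v.2.2 p.2.2).re * tt c j p +
        (lam p.2.2).re * v.2.1 j - nn lam c j p * (pd lam v.2.2 p.2.2).im) / (lam p.2.2).im) +
        2 * tt c j p * v.2.1 j) / |(lam p.2.2).im| -
        kk lam c f j p * (pd lam v.2.2 p.2.2).im / (lam p.2.2).im : ℝ) : ℂ) :=
  pd_of_line (sl_diff (ofReal_smooth (kk_smooth hl h0 hf j)) p)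
    (line_kk hl h0 j p v hd).ofReal_comp

lemma DD_kk {f' : ℝ} (i : J) (p : WW J Z)
    (hd : HasDerivAt f f' (nn lam c i p ^ 2 + tt c i p ^ 2)) :
    DD lam i (fun p => (kk lam c f i p : ℂ)) p =
      (f' / |(lam p.2.2).im| : ℝ) * (2 * tt c i p - 2 * I * nn lam c i p) := by
  rw [DD, pd_kk hl h0 hf i p _ hd, pd_kk hl h0 hf i p _ hd]
  have h1 : ((lam p.2.2).im : ℂ) ≠ 0 := by exact_mod_cast h0 _
  have h2 : ((|(lam p.2.2).im| : ℝ) : ℂ) ≠ 0 := by exact_mod_cast abs_ne_zero.2 (h0 _)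
  have h3 := re_add_im (lam p.2.2)
  simp only [Td, Yd, pd, map_zero, Pi.single_eq_same, Pi.zero_apply, Prod.fst_zero, Prod.snd_zero,
    zero_re, zero_im]
  push_cast
  generalize ((lam p.2.2).re : ℂ) = a at *
  generalize ((lam p.2.2).im : ℂ) = b at *
  rw [← h3]
  field_simp
  ring

omit hf in
lemma DD_nn (i : J) (p : WW J Z) : DD lam i (fun p => (nn lam c i p : ℂ)) p = -I := by
  have hd := sl_diff (ofReal_smooth (nn_smooth (c := c) hl h0 i)) p
  rw [DD, pd_of_line hd (line_nn hl h0 i p _).ofReal_comp,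
    pd_of_line hd (line_nn hl h0 i p _).ofReal_comp]
  have h1 : ((lam p.2.2).im : ℂ) ≠ 0 := by exact_mod_cast h0 _
  have h3 := re_add_im (lam p.2.2)
  simp only [Td, Yd, pd, map_zero, Pi.single_eq_same, Pi.zero_apply, Prod.fst_zero, Prod.snd_zero,
    zero_re, zero_im]
  push_cast
  generalize ((lam p.2.2).re : ℂ) = a at *
  generalize ((lam p.2.2).im : ℂ) = b at *
  rw [← h3]
  field_simp
  ring

/-- identity (A) -/
lemma ident_A (i : J) (w : Z) (p : WW J Z) :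
    I * ((pd lam w p.2.2).im / (lam p.2.2).im : ℝ) *
      DD lam i (fun p => (nn lam c i p : ℂ) * (kk lam c f i p : ℂ)) p =
    pd lam w p.2.2 * tt c i p * pd (fun p => (kk lam c f i p : ℂ)) (Yd i) p -
      pd (fun p => (kk lam c f i p : ℂ)) (Zd w) p := by
  have hd := (sl_diff hf (nn lam c i p ^ 2 + tt c i p ^ 2)).hasDerivAt
  rw [DD_mul i (sl_diff (ofReal_smooth (nn_smooth hl h0 i)) p)
    (sl_diff (ofReal_smooth (kk_smooth hl h0 hf i)) p), DD_nn hl h0, DD_kk hl h0 hf i p hd,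
    pd_kk hl h0 hf i p _ hd, pd_kk hl h0 hf i p _ hd]
  have h1 : ((lam p.2.2).im : ℂ) ≠ 0 := by exact_mod_cast h0 _
  have h2 : ((|(lam p.2.2).im| : ℝ) : ℂ) ≠ 0 := by exact_mod_cast abs_ne_zero.2 (h0 _)
  have h3 := re_add_im (pd lam w p.2.2)
  have h4 : pd lam 0 p.2.2 = 0 := by simp [pd]
  simp only [Zd, Yd, h4, Pi.single_eq_same, Pi.zero_apply, Prod.fst_zero, Prod.snd_zero,
    zero_re, zero_im]
  push_cast
  generalize ((pd lam w p.2.2).re : ℂ) = a at *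
  generalize ((pd lam w p.2.2).im : ℂ) = b at *
  rw [← h3]
  field_simp
  linear_combination (-(b * kk lam c f i p * ((|(lam p.2.2).im| : ℝ) : ℂ)) - 2 * b *
    ((deriv f (nn lam c i p ^ 2 + tt c i p ^ 2) : ℝ) : ℂ) * nn lam c i p ^ 2) * I_mul_I

/-- identity (B) -/
lemma ident_B {g : ℝ → ℝ} (hg : ∀ q, HasDerivAt f (g q) q) (i : J) (p : WW J Z) :
    I * ((lam p.2.2).im / 2 : ℝ) * DD lam i (fun p => (kk lam c f i p : ℂ)) p =
      zeta lam c p i * kk lam c g i p := by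
  rw [DD_kk hl h0 hf i p (hg _)]
  have h1 : ((lam p.2.2).im : ℂ) ≠ 0 := by exact_mod_cast h0 _
  have h2 : ((|(lam p.2.2).im| : ℝ) : ℂ) ≠ 0 := by exact_mod_cast abs_ne_zero.2 (h0 _)
  have h3 := re_add_im (lam p.2.2)
  have h4 : zeta lam c p i = (lam p.2.2).im * (nn lam c i p + I * tt c i p) := by
    simp only [zeta, nn]
    push_cast
    generalize ((lam p.2.2).re : ℂ) = a at *
    generalize ((lam p.2.2).im : ℂ) = b at *
    rw [← h3]
    field_simp
    ring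
  rw [h4, kk]
  push_cast
  field_simp
  linear_combination (-(g (nn lam c i p ^ 2 + tt c i p ^ 2) * nn lam c i p : ℂ)) * I_mul_I

end

lemma kk_supp (h0 : ∀ z, (lam z).im ≠ 0) (h1 : ∀ z, ‖lam z‖ ≤ 1) {f : ℝ → ℝ} {r : ℝ}
    (hr : 0 < r) (hf : ∀ q, r ^ 2 ≤ q → f q = 0) {j : J} {p : WW J Z}
    (h : kk lam c f j p ≠ 0) : |p.1 j| ≤ 2 * r ∧ |p.2.1 j - c j| ≤ r := by
  have hq : nn lam c j p ^ 2 + tt c j p ^ 2 < r ^ 2 := by
    by_contra hq
    exact h (by rw [kk, hf _ (not_lt.1 hq), zero_div])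
  have ht : |tt c j p| ≤ r := abs_le_of_sq_le_sq' (by nlinarith [sq_nonneg (nn lam c j p)]) hr.le
    |> abs_le.2
  have hn : |nn lam c j p| ≤ r := abs_le_of_sq_le_sq' (by nlinarith [sq_nonneg (tt c j p)]) hr.le
    |> abs_le.2
  refine ⟨?_, ht⟩
  have h2 : p.1 j = (lam p.2.2).im * nn lam c j p - (lam p.2.2).re * tt c j p := by
    have := h0 p.2.2
    rw [nn]; field_simp; ring
  have h3 := (abs_re_le_norm (lam p.2.2)).trans (h1 _)
  have h4 := (abs_im_le_norm (lam p.2.2)).trans (h1 _)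
  rw [h2]
  refine (abs_sub _ _).trans ?_
  rw [abs_mul, abs_mul]
  nlinarith [abs_nonneg (tt c j p), abs_nonneg (nn lam c j p), abs_nonneg (lam p.2.2).re,
    abs_nonneg (lam p.2.2).im]

end Pool.Agent.Lib.MP_e2ef7e_al.Gen.Sl
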