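import Pool.Agent.Lib.MP_e2ef7e_al.SliceCalc

/-!
Integration lemmas for the mean value construction.
-/

open MeasureTheory Complex Set Filter Topology
open scoped ComplexConjugate InnerProductSpace ContDiff ENNReal Convolution

set_option linter.unusedSectionVars false

noncomputable section

namespace Pool.Agent.Lib.MP_e2ef7e_al.Gen.Sl

section general

variable {X : Type} [NormedAddCommGroup X] [NormedSpace ℝ X]

/-- smooth functions vanishing outside `Q` -/
def Adm (Q : Set X) (κ : X → ℂ) : Prop := ContDiff ℝ ∞ κ ∧ ∀ p, p ∉ Q → κ p = 0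

variable {Q : Set X} {κ κ' : X → ℂ}

lemma Adm.mul (h : Adm Q κ) {u : X → ℂ} (hu : ContDiff ℝ ∞ u) : Adm Q fun p => κ p * u p :=
  ⟨h.1.mul hu, fun p hp => by simp [h.2 p hp]⟩

lemma Adm.mul' (h : Adm Q κ) {u : X → ℂ} (hu : ContDiff ℝ ∞ u) : Adm Q fun p => u p * κ p :=
  ⟨hu.mul h.1, fun p hp => by simp [h.2 p hp]⟩

lemma Adm.sub (h : Adm Q κ) (h' : Adm Q κ') : Adm Q fun p => κ p - κ' p :=
  ⟨h.1.sub h'.1, fun p hp => by simp [h.2 p hp, h'.2 p hp]⟩

lemma Adm.add (h : Adm Q κ) (h' : Adm Q κ') : Adm Q fun p => κ p + κ' p :=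
  ⟨h.1.add h'.1, fun p hp => by simp [h.2 p hp, h'.2 p hp]⟩

lemma Adm.sum {α : Type} (s : Finset α) {κ : α → X → ℂ} (h : ∀ a, Adm Q (κ a)) :
    Adm Q fun p => ∑ a ∈ s, κ a p :=
  ⟨ContDiff.sum fun a _ => (h a).1, fun p hp => Finset.sum_eq_zero fun a _ => (h a).2 p hp⟩

lemma Adm.tsupport (h : Adm Q κ) (hQ : IsClosed Q) : tsupport κ ⊆ Q :=
  closure_minimal (fun p hp => by_contra fun hq => hp (h.2 p hq)) hQ

lemma Adm.cpt (h : Adm Q κ) (hQ : IsCompact Q) : HasCompactSupport κ :=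
  HasCompactSupport.intro hQ h.2

lemma Adm.pd (h : Adm Q κ) (hQ : IsClosed Q) (v : X) : Adm Q (pd κ v) :=
  ⟨sl_pd_smooth h.1 v, fun p hp => by
    have : p ∉ Function.support (fderiv ℝ κ) := fun h' =>
      hp (h.tsupport hQ (support_fderiv_subset ℝ h'))
    simp [Gen.pd, Function.notMem_support.1 this]⟩

lemma hasDerivAt_translate [FiniteDimensional ℝ X] [MeasurableSpace X] [BorelSpace X]
    (μ : Measure X) [μ.IsAddHaarMeasure] {g : X → ℂ} (hg : LocallyIntegrable g μ)
    (hκ : ContDiff ℝ ∞ κ) (hc : HasCompactSupport κ) (v : X) :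
    HasDerivAt (fun s : ℝ => ∫ p, κ (p - s • v) * g p ∂μ) (-∫ p, pd κ v p * g p ∂μ) 0 := by
  have h1 : ContDiff ℝ 1 fun u => κ (-u) := (hκ.of_le (by simp)).comp contDiff_neg
  have h2 : HasCompactSupport fun u => κ (-u) := hc.comp_homeomorph (Homeomorph.neg X)
  have h3 := (h2.hasFDerivAt_convolution_right (ContinuousLinearMap.mul ℝ ℂ) hg h1
    0).hasLineDerivAt v
  rw [convolution_precompR_apply _ hg (h2.fderiv ℝ) (h1.continuous_fderiv (by simp))] at h3
  unfold HasLineDerivAt at h3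
  simp only [convolution_def, ContinuousLinearMap.mul_apply', zero_add, neg_sub, zero_sub] at h3
  simp only [mul_comm (κ _)]
  refine h3.congr_deriv ?_
  rw [← integral_neg]
  refine integral_congr_ae (Eventually.of_forall fun p => ?_)
  have h4 : HasFDerivAt (fun u => κ (-u)) _ (-p) :=
    (sl_diff hκ (- -p)).hasFDerivAt.comp (-p) (hasFDerivAt_id (-p)).neg
  simp only [h4.fderiv]
  simp [Gen.pd, mul_comm]

end general

variable {ι : Type} [Fintype ι] [DecidableEq ι] {L : LieD ι}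
  {H : Type} [NormedAddCommGroup H] [InnerProductSpace ℂ H] [CompleteSpace H] {R : Rep L H}
  {J : Type} [Fintype J] [DecidableEq J] (bl : Block R J)
  {Z : Type} [NormedAddCommGroup Z] [NormedSpace ℝ Z] [FiniteDimensional ℝ Z]
  [MeasureSpace Z] [BorelSpace Z] [(volume : Measure Z).IsAddHaarMeasure]

instance sl_haarX : (volume : Measure ((J → ℝ) × Z)).IsAddHaarMeasure :=
  Measure.prod.instIsAddHaarMeasure volume volume

instance sl_haarW : (volume : Measure (WW J Z)).IsAddHaarMeasure :=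
  Measure.prod.instIsAddHaarMeasure volume volume

lemma P_cont2 : Continuous fun q : (J → ℝ) × H => bl.P q.1 q.2 :=
  continuous_prod_of_continuous_lipschitzWith' _ 1 (fun y => (bl.P y).lipschitz) bl.cont

/-- the extension of `F` by the group action -/
def GG (F : (J → ℝ) × Z → H) (p : WW J Z) : H := bl.P p.1 (F p.2)

variable {F : (J → ℝ) × Z → H}

lemma GG_meas (hF : LocallyIntegrable F volume) : AEStronglyMeasurable (GG bl F) volume :=
  (P_cont2 bl).comp_aestronglyMeasurable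
    (continuous_fst.aestronglyMeasurable.prodMk hF.aestronglyMeasurable.comp_snd)

lemma GG_loc (hF : LocallyIntegrable F volume) : LocallyIntegrable (GG bl F) volume := by
  rw [locallyIntegrable_iff]
  intro K hK
  have h1 : IntegrableOn (fun p : WW J Z => (1 : ℝ) * ‖F p.2‖)
      ((Prod.fst '' K) ×ˢ (Prod.snd '' K)) volume := by
    rw [IntegrableOn, Measure.volume_eq_prod, ← Measure.prod_restrict]
    have h0 : IntegrableOn (fun _ : J → ℝ => (1 : ℝ)) (Prod.fst '' K) volume :=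
      continuous_const.continuousOn.integrableOn_compact (hK.image continuous_fst)
    exact Integrable.mul_prod h0 (hF.integrableOn_isCompact (hK.image continuous_snd)).norm
  refine Integrable.mono' (h1.mono_set fun p hp => ⟨⟨p, hp, rfl⟩, ⟨p, hp, rfl⟩⟩)
    (GG_meas bl hF).restrict (Eventually.of_forall fun p => ?_)
  simp [GG]

/-- pairing of a kernel with `G` -/
def II (F : (J → ℝ) × Z → H) (κ : WW J Z → ℂ) (φ : H) : ℂ := ∫ p, κ p * ⟪φ, GG bl F p⟫_ℂ

variable {bl} {Q : Set (WW J Z)} {κ κ' : WW J Z → ℂ}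

section

variable (hF : LocallyIntegrable F volume) (hQ : IsCompact Q)
include hF

lemma int_smul (h : Continuous κ) (hc : HasCompactSupport κ) :
    Integrable fun p => κ p • GG bl F p :=
  (GG_loc bl hF).integrable_smul_left_of_hasCompactSupport h hc

lemma loc_inner (φ : H) : LocallyIntegrable (fun p => ⟪φ, GG bl F p⟫_ℂ) volume := fun p => by
  obtain ⟨s, hs, h⟩ := GG_loc bl hF p
  exact ⟨s, hs, h.const_inner φ⟩

include hQ

lemma Adm.int (h : Adm Q κ) (φ : H) : Integrable fun p => κ p * ⟪φ, GG bl F p⟫_ℂ := by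
  simpa only [inner_smul_right] using
    (int_smul (bl := bl) hF h.1.continuous (h.cpt hQ)).const_inner (𝕜 := ℂ) φ

lemma II_add (h : Adm Q κ) (h' : Adm Q κ') (φ : H) :
    II bl F (fun p => κ p + κ' p) φ = II bl F κ φ + II bl F κ' φ := by
  simp only [II, add_mul]
  exact integral_add (h.int hF hQ φ) (h'.int hF hQ φ)

lemma II_sub (h : Adm Q κ) (h' : Adm Q κ') (φ : H) :
    II bl F (fun p => κ p - κ' p) φ = II bl F κ φ - II bl F κ' φ := by
  simp only [II, sub_mul]
  exact integral_sub (h.int hF hQ φ) (h'.int hF hQ φ)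

lemma II_sum {α : Type} (s : Finset α) {κ : α → WW J Z → ℂ} (h : ∀ a, Adm Q (κ a)) (φ : H) :
    II bl F (fun p => ∑ a ∈ s, κ a p) φ = ∑ a ∈ s, II bl F (κ a) φ := by
  simp only [II, Finset.sum_mul]
  exact integral_finsetSum s fun a _ => (h a).int hF hQ φ

/-- integration by parts in the group parameter -/
lemma II_Yd (h : Adm Q κ) (i : J) {ψ : H} (hψ : ψ ∈ R.Dinf) :
    II bl F (pd κ (Yd i)) ψ = II bl F κ (gen (R.E (bl.e i)) ψ) := by
  have h' := h.pd hQ.isClosed (Yd i)
  unfold II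
  rw [Measure.volume_eq_prod, integral_prod_symm _ (h'.int hF hQ ψ),
    integral_prod_symm _ (h.int hF hQ _)]
  refine integral_congr_ae (Eventually.of_forall fun x => ?_)
  have hs : ∀ {κ : WW J Z → ℂ}, Adm Q κ → ∀ φ : H,
      Integrable fun y : J → ℝ => κ (y, x) * ⟪φ, bl.P y (F x)⟫_ℂ := fun {κ} h φ => by
    refine Continuous.integrable_of_hasCompactSupport
      ((h.1.continuous.comp (Continuous.prodMk_left x)).mul
        (continuous_const.inner (bl.cont _))) ?_
    refine HasCompactSupport.intro (hQ.image continuous_fst) fun y hy => ?_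
    rw [h.2 _ fun hq => hy ⟨_, hq, rfl⟩, zero_mul]
  have key := integral_bilinear_hasLineDerivAt_right_eq_neg_left_of_integrable
    (μ := (volume : Measure (J → ℝ))) (B := ContinuousLinearMap.mul ℝ ℂ)
    (f := fun y => κ (y, x)) (f' := fun y => pd κ (Yd i) (y, x))
    (g := fun y => ⟪ψ, bl.P y (F x)⟫_ℂ)
    (g' := fun y => -⟪gen (R.E (bl.e i)) ψ, bl.P y (F x)⟫_ℂ) (v := Pi.single i 1)
    (hs h' ψ) (by simpa using (hs h _).neg) (hs h ψ) (fun y _ => by
      have := line_pd (sl_diff h.1 (y, x)) (Yd i)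
      simpa [Yd, HasLineDerivAt] using this) (fun y _ => by
      have h1 := (bl.der y i ψ hψ).inner ℂ (hasDerivAt_const (y i) (F x))
      have h2 : HasDerivAt (fun s : ℝ => y i + s) 1 0 := (hasDerivAt_id (0 : ℝ)).const_add _
      have h3 := HasDerivAt.scomp (0 : ℝ) (by simpa using h1) h2
      unfold HasLineDerivAt
      have h4 : ∀ s : ℝ, y + s • (Pi.single i 1 : J → ℝ) = Function.update y i (y i + s) :=
        fun s => by ext j; by_cases hj : j = i <;> simp [hj]
      simpa [h4, Function.comp_def, LinearIsometryEquiv.inner_map_eq_flip] using h3)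
  simp only [ContinuousLinearMap.mul_apply', mul_neg, integral_neg, neg_inj] at key
  exact key.symm

/-- the weak equation, integrated over the group parameter -/
lemma II_weak {O : Set ((J → ℝ) × Z)} (hO : Prod.snd '' Q ⊆ O) {w : (J → ℝ) × Z}
    {b : (J → ℝ) × Z → ι → ℂ} (hw : R.WEq volume O F w b) (h : Adm Q κ) {B : WW J Z → ι → ℂ}
    (hB : ∀ p, B p = bl.A (fun i => (p.1 i : ℂ)) (b p.2)) (hBs : ContDiff ℝ ∞ B)
    {ψ : H} (hψ : ψ ∈ R.Dinf) :
    II bl F (pd κ (0, w)) ψ = ∑ l, II bl F (fun p => κ p * B p l) (gen (R.E l) ψ) := by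
  have h' := h.pd hQ.isClosed (0, w)
  have hl : ∀ l, Integrable fun p => κ p * B p l * ⟪gen (R.E l) ψ, GG bl F p⟫_ℂ := fun l =>
    (h.mul (contDiff_pi.1 hBs l)).int hF hQ _
  unfold II
  rw [← integral_finsetSum _ fun l _ => hl l, Measure.volume_eq_prod,
    integral_prod _ (h'.int hF hQ ψ), integral_prod _ (integrable_finsetSum _ fun l _ => hl l)]
  refine integral_congr_ae (Eventually.of_forall fun y => ?_)
  have hy : Adm (Prod.snd '' Q) fun x => κ (y, x) :=
    ⟨h.1.comp (contDiff_const.prodMk contDiff_id), fun x hx => h.2 _ fun hq => hx ⟨_, hq, rfl⟩⟩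
  have hQ' := hQ.image continuous_snd
  have key := hw _ hy.1 (hy.cpt hQ') ((hy.tsupport hQ'.isClosed).trans hO) _ (bl.mem y ψ hψ)
  have h1 : ∀ x, pd (fun x => κ (y, x)) w x = pd κ (0, w) (y, x) := fun x =>
    pd_of_line (sl_diff hy.1 x) (by simpa using line_pd (sl_diff h.1 (y, x)) (0, w))
  simp only [h1, bl.Ad y _ ψ hψ, LinearIsometryEquiv.inner_map_eq_flip,
    LinearIsometryEquiv.symm_symm, Rep.inner_dU_left] at key
  simp only [GG, hB, key, Finset.mul_sum, mul_assoc]

lemma II_bv (i : ι) (ψ : H) :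
    ∑ l, II bl F (fun p => κ p * bv i l) (gen (R.E l) ψ) = II bl F κ (gen (R.E i) ψ) := by
  rw [Finset.sum_eq_single i (fun l _ hl => by simp [II, bv, hl]) (by simp)]
  simp [bv]

variable {lam : Z → ℂ} (hl : ContDiff ℝ ∞ lam) {O : Set ((J → ℝ) × Z)} (hO : Prod.snd '' Q ⊆ O)
  (hw : ∀ i, R.WEq volume O F (Pi.single i 1, 0) fun x => lam x.2 • bv (bl.e i))
include hl hO hw

lemma II_Td (h : Adm Q κ) (i : J) {ψ : H} (hψ : ψ ∈ R.Dinf) :
    II bl F (pd κ (Td i)) ψ =
      II bl F (fun p => κ p * lam p.2.2) (gen (R.E (bl.e i)) ψ) := by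
  rw [Td, II_weak hF hQ hO (hw i) h (B := fun p => lam p.2.2 • bv (bl.e i))
    (fun p => by rw [map_smul, bl.fix]) ((lamW_smooth hl).smul contDiff_const) hψ,
    ← II_bv hF hQ]
  simp only [Pi.smul_apply, smul_eq_mul, mul_assoc]

/-- weak holomorphy -/
lemma II_DD (h : Adm Q κ) (i : J) {ψ : H} (hψ : ψ ∈ R.Dinf) :
    II bl F (DD lam i κ) ψ = 0 := by
  have h1 : DD lam i κ = fun p => pd κ (Td i) p - pd (fun p => κ p * lam p.2.2) (Yd i) p := by
    ext p
    rw [sl_pd_mul (sl_diff h.1 p) (sl_diff (lamW_smooth hl) p),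
      pd_of_const (sl_diff (lamW_smooth hl) p) fun s => by simp [Yd], DD]
    ring
  have h2 := h.mul (lamW_smooth hl)
  rw [h1, II_sub hF hQ (h.pd hQ.isClosed _) (h2.pd hQ.isClosed _), II_Td hF hQ hl hO hw h i hψ,
    II_Yd hF hQ h2 i hψ, sub_self]

end

end Pool.Agent.Lib.MP_e2ef7e_al.Gen.Sl
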