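import Pool.Agent.Lib.MP_e2ef7e_al.SpecDef
import Pool.Agent.Lib.MP_e2ef7e_al.Holo
import Pool.Agent.Lib.MP_e2ef7e_al.Std

/-!
The analytic description of the standard subspace implies the spectral one.
-/

open Complex MeasureTheory Set Filter Topology
open scoped ComplexConjugate InnerProductSpace

noncomputable section

namespace Pool.Agent.Lib.MP_e2ef7e_al

variable {H X : Type} [NormedAddCommGroup H] [InnerProductSpace ℂ H] [MeasurableSpace X]
  {μ : Measure X}

lemma norm_exp_le {c R : ℝ} (hc : |c| ≤ R) (z : ℂ) : ‖exp (I * z * c)‖ ≤ Real.exp (‖z‖ * R) := by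
  refine (norm_exp_le_exp_norm _).trans (Real.exp_le_exp.2 ?_)
  rw [norm_mul, norm_mul, norm_I, one_mul, norm_real]
  exact mul_le_mul_of_nonneg_left hc (norm_nonneg _)

lemma integrable_exp_mul {c : X → ℝ} (hc : Measurable c) {R : ℝ} (hR : ∀ x, |c x| ≤ R)
    {k : X → ℂ} (hk : Integrable k μ) (z : ℂ) :
    Integrable (fun x => exp (I * z * c x) * k x) μ :=
  hk.bdd_mul (c := Real.exp (‖z‖ * R)) (by fun_prop : Measurable _).aestronglyMeasurable
    (Eventually.of_forall fun x => norm_exp_le (hR x) z)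

lemma differentiable_exp_mul {c : X → ℝ} (hc : Measurable c) {R : ℝ} (hR : ∀ x, |c x| ≤ R)
    {k : X → ℂ} (hk : Integrable k μ) :
    Differentiable ℂ fun z : ℂ => ∫ x, exp (I * z * c x) * k x ∂μ := fun z => by
  refine (hasDerivAt_integral_of_dominated_loc_of_deriv_le (Metric.ball_mem_nhds z one_pos)
    (F' := fun z x => exp (I * z * c x) * (I * c x) * k x)
    (bound := fun x => Real.exp ((‖z‖ + 1) * R) * R * ‖k x‖)
    (Eventually.of_forall fun w => (integrable_exp_mul hc hR hk w).1)
    (integrable_exp_mul hc hR hk z)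
    ((by fun_prop : Measurable _).aestronglyMeasurable.mul hk.1)
    (Eventually.of_forall fun x w hw => ?_) (hk.norm.const_mul _)
    (Eventually.of_forall fun x w _ => ?_)).2.differentiableAt
  · have h0 : 0 ≤ R := (abs_nonneg _).trans (hR x)
    have h1 : ‖w‖ ≤ ‖z‖ + 1 := by
      have := norm_sub_norm_le w z
      rw [Metric.mem_ball, dist_eq_norm] at hw; linarith
    rw [norm_mul, norm_mul, norm_mul, norm_I, one_mul, norm_real]
    gcongr
    · exact (norm_exp_le (hR x) w).trans (by gcongr)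
    · exact hR x
  · have := ((((hasDerivAt_id w).const_mul I).mul_const (c x : ℂ)).cexp).mul_const (k x)
    simpa using this

lemma stdSub_subset_specSub {u : ℝ → H → H} {J : H → H} (W : H ≃ₗᵢ[ℂ] Lp ℂ 2 μ) {b : X → ℝ}
    (hb : Measurable b)
    (hW : ∀ (t : ℝ) v, (W (u t v) : X → ℂ) =ᵐ[μ] fun x => exp (I * t * b x) * W v x) :
    stdSub u J ⊆ specSub μ W b J := by
  rintro v ⟨F, h1, h2, -, h4, h5⟩
  refine ⟨_, ?_, h5⟩
  suffices h : ∀ R : ℕ, ∀ᵐ x ∂μ, |b x| ≤ R →
      W (F (Real.pi * I)) x = exp (-(Real.pi * b x)) * W v x by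
    filter_upwards [ae_all_iff.2 h] with x hx
    obtain ⟨R, hR⟩ := exists_nat_ge |b x|
    exact hx R hR
  intro R
  let s : Set X := {x | |b x| ≤ R}
  have hs : MeasurableSet s := measurableSet_le hb.abs measurable_const
  let c : X → ℝ := s.indicator b
  have hc : Measurable c := hb.indicator hs
  have hR : ∀ x, |c x| ≤ R := fun x => by
    by_cases hx : x ∈ s
    · simp only [c, indicator_of_mem hx]; exact hx
    · simp [c, hx]
  have he : MemLp (fun x => exp (I * (Real.pi * I) * c x) * W v x) 2 μ :=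
    (Lp.memLp (W v)).of_le_mul (c := Real.exp (‖(Real.pi * I : ℂ)‖ * R))
      ((by fun_prop : Measurable _).aestronglyMeasurable.mul (Lp.aestronglyMeasurable _))
      (Eventually.of_forall fun x => by
        rw [norm_mul]; gcongr; exact norm_exp_le (hR x) _)
  have hd := ((Lp.memLp (W (F (Real.pi * I)))).sub he).indicator hs
  let d : Lp ℂ 2 μ := hd.toLp _
  have hd1 := hd.coeFn_toLp
  have hk := L2.integrable_inner (𝕜 := ℂ) d (W v)
  let φ : ℂ → ℂ := fun z => ⟪d, W (F z)⟫_ℂ - ∫ x, exp (I * z * c x) * ⟪d x, W v x⟫_ℂ ∂μ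
  let A : H →L[ℂ] ℂ := (innerSL ℂ d).comp W.toContinuousLinearEquiv.toContinuousLinearMap
  have hG := differentiable_exp_mul hc hR hk
  have φc : ContinuousOn φ CS := (A.continuous.comp_continuousOn h1).sub hG.continuous.continuousOn
  have φd : DifferentiableOn ℂ φ OS :=
    (A.differentiable.comp_differentiableOn h2).sub hG.differentiableOn
  have φ0 : ∀ t : ℝ, φ t = 0 := fun t => by
    simp only [φ, h4, L2.inner_def, sub_eq_zero]
    refine integral_congr_ae ?_
    filter_upwards [hW t v, hd1] with x hx hx'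
    by_cases h : x ∈ s
    · simp only [hx, c, indicator_of_mem h, RCLike.inner_apply]; ring
    · simp [d, hx', h]
  have φπ : φ (Real.pi * I) = 0 := by
    have ht : Tendsto (fun s : ℝ => (s * I : ℂ)) (𝓝[<] Real.pi) (𝓝[CS] (Real.pi * I)) :=
      tendsto_nhdsWithin_iff.2 ⟨((by fun_prop : Continuous fun s : ℝ => (s * I : ℂ)).tendsto
        _).mono_left nhdsWithin_le_nhds, by
          filter_upwards [Ioo_mem_nhdsLT Real.pi_pos] with s hs
          simpa [CS] using ⟨hs.1.le, hs.2.le⟩⟩
    refine tendsto_nhds_unique ((φc _ piI_mem_CS).tendsto.comp ht) (tendsto_const_nhds.congr' ?_)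
    filter_upwards [Ioo_mem_nhdsLT Real.pi_pos] with s hs
    exact (eq_zero_of_boundary one_pos φc φd (fun t _ => φ0 t) (by simpa using hs.1)
      (by simpa using hs.2)).symm
  have hdd : ⟪d, d⟫_ℂ = 0 := by
    rw [← φπ]
    simp only [φ, L2.inner_def]
    rw [← integral_sub (L2.integrable_inner _ _) (integrable_exp_mul hc hR hk _)]
    refine integral_congr_ae ?_
    filter_upwards [hd1] with x hx
    by_cases h : x ∈ s
    · have : d x = W (F (Real.pi * I)) x - exp (I * (Real.pi * I) * c x) * W v x := by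
        simp only [d, hx, indicator_of_mem h, Pi.sub_apply]
      simp only [RCLike.inner_apply]
      rw [this]; ring
    · simp [d, hx, h]
  have hd0 : (d : X → ℂ) =ᵐ[μ] 0 := by rw [inner_self_eq_zero.1 hdd]; exact Lp.coeFn_zero _ _ _
  filter_upwards [hd0, hd1] with x hx hx' h
  have h' : x ∈ s := h
  have h3 : W (F (Real.pi * I)) x - exp (I * (Real.pi * I) * c x) * W v x = 0 := by
    simpa only [d, hx', indicator_of_mem h', Pi.sub_apply, Pi.zero_apply] using hx
  rw [sub_eq_zero.1 h3]
  simp only [c, indicator_of_mem h']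
  congr 2
  linear_combination (Real.pi * b x : ℂ) * I_mul_I

lemma modSub_eq (u : ℝ → H → H) (J : H → H) : modSub u J = stdSub u J :=
  Subset.antisymm (fun _ h => h.1) fun _ h =>
    ⟨h, fun _ _ _ W _ hb hW => stdSub_subset_specSub W hb hW h⟩

end Pool.Agent.Lib.MP_e2ef7e_al
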