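import Pool.Agent.Lib.MP_e2ef7e_al.Defs

/-!
The standard subspace in a spectral model of the one-parameter group.
-/

open Complex MeasureTheory

noncomputable section

namespace Pool.Agent.Lib.MP_e2ef7e_al

/-- In a spectral model `W`, where the one-parameter group acts as multiplication by
`exp (i t b)`, the operator `Δ^{1/2}` is multiplication by `exp (-π b)` on its maximal domain.
This is the set of `v` in that domain with `J (Δ^{1/2} v) = v`. -/
def specSub {H X : Type} [NormedAddCommGroup H] [InnerProductSpace ℂ H] [MeasurableSpace X]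
    (μ : Measure X) (W : H ≃ₗᵢ[ℂ] Lp ℂ 2 μ) (b : X → ℝ) (J : H → H) : Set H :=
  {v | ∃ w : H, (W w : X → ℂ) =ᵐ[μ] (fun x => exp (-(Real.pi * b x)) * W v x) ∧ J w = v}

/-- The vectors `v` in the domain of `Δ^{1/2}` with `J (Δ^{1/2} v) = v`, in both of the standard
senses at once: by analytic continuation of the orbit, and in every spectral model of `u`. -/
def modSub {H : Type} [NormedAddCommGroup H] [InnerProductSpace ℂ H] (u : ℝ → H → H)
    (J : H → H) : Set H :=
  {v | v ∈ stdSub u J ∧ ∀ (X : Type) [MeasurableSpace X] (μ : Measure X) (W : H ≃ₗᵢ[ℂ] Lp ℂ 2 μ)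
    (b : X → ℝ), Measurable b →
    (∀ (t : ℝ) w, (W (u t w) : X → ℂ) =ᵐ[μ] fun x => exp (I * t * b x) * W w x) →
    v ∈ specSub μ W b J}

end Pool.Agent.Lib.MP_e2ef7e_al
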