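import Pool.Agent.Lib.MP_e2ef7e_al.Ext

/-!
Regularity of all antiunitary representations of all open quotients of closed linear groups
in which the Euler element has at most two eigenvalues, differing by one.
-/

open Topology

namespace Pool.Agent.Lib.MP_e2ef7e_al.TwoEig

open Pool.Agent.Lib.MP_e2ef7e_al

theorem result {n : ℕ} (Γ : Subgroup (GL (Fin n) ℝ)) (hΓ : IsClosed (Γ : Set (GL (Fin n) ℝ)))
    (lam : Fin n → ℝ) (c : ℝ) (hlam : ∀ i, lam i = c ∨ lam i = c + 1)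
    (γ : ℝ → Γ) (hγ : ∀ t, ((γ t : GL (Fin n) ℝ) : Matrix (Fin n) (Fin n) ℝ) =
      Matrix.diagonal fun i => Real.exp (t * lam i))
    (σ : Γ → Γ) (hσ : ∀ (g : Γ) (i j : Fin n), ((σ g : GL (Fin n) ℝ) : Matrix (Fin n) (Fin n) ℝ) i j =
      (if lam i = lam j then 1 else -1) * ((g : GL (Fin n) ℝ) : Matrix (Fin n) (Fin n) ℝ) i j)
    {G : Type} [Group G] [TopologicalSpace G] (p : Γ →* G) (hp : Continuous p) (hpo : IsOpenMap p)
    (τ : G → G) (hτ : ∀ g, p (σ g) = τ (p g))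
    {H : Type} [NormedAddCommGroup H] [InnerProductSpace ℂ H] [CompleteSpace H]
    (U : G →* (H ≃ₗᵢ[ℂ] H)) (hU : ∀ v, Continuous fun g => U g v)
    (J : H ≃ₗᵢ⋆[ℂ] H) (hJ : ∀ v, J (J v) = v) (hJU : ∀ g v, J (U g (J v)) = U (τ g) v) :
    IsRegular (fun g => U g) J fun t => p (γ t) := by
  have := secondCountable_GL Γ
  obtain ⟨N, hN, h⟩ := regular_gen (ρ := (Units.coeHom _).comp Γ.subtype) (U := U.comp p) (J := J)
    (τ := σ) hlam (Units.continuous_val.comp continuous_subtype_val)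
    (Units.val_injective.comp Subtype.val_injective) (isCompact_GL Γ hΓ) hγ hσ
    (fun v => (hU v).comp hp) hJ fun g v => by simp [hJU, hτ]
  refine ⟨p '' N, map_one p ▸ hpo.image_mem_nhds hN, ?_⟩
  rw [interN, Set.biInter_image]
  exact h

end Pool.Agent.Lib.MP_e2ef7e_al.TwoEig
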